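import Mathlib

set_option autoImplicit false

open Finset

namespace H18Acn

variable {ι : Type} [Fintype ι] [DecidableEq ι] [Nonempty ι] (x y : ι → ℝ)

noncomputable def sl (e : ι × ι) : ℝ := (y e.2 - y e.1) / (x e.2 - x e.1)

noncomputable def ln (e : ι × ι) (s : ℝ) : ℝ := y e.1 + sl x y e * (s - x e.1)

def Cr (e f : ι × ι) : Prop := ∃ s t, x e.1 ≤ s ∧ s ≤ x e.2 ∧ x f.1 ≤ s ∧ s ≤ x f.2 ∧
  x e.1 ≤ t ∧ t ≤ x e.2 ∧ x f.1 ≤ t ∧ t ≤ x f.2 ∧ ln x y e s < ln x y f s ∧ ln x y f t < ln x y e t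

def GP : Prop := ∀ u a b, x u < x a → x u < x b → sl x y (u, a) = sl x y (u, b) → a = b

variable {x y}

lemma Cr.symm {e f : ι × ι} (h : Cr x y e f) : Cr x y f e := by
  obtain ⟨s, t, a, b, c, d, a', b', c', d', u, v⟩ := h
  exact ⟨t, s, c', d', a', b', c, d, a, b, v, u⟩

lemma ln2 {e : ι × ι} (h : x e.1 < x e.2) : ln x y e (x e.2) = y e.2 := by
  rw [ln, sl, div_mul_cancel₀ _ (sub_pos.2 h).ne']
  ring

lemma ln1 (e : ι × ι) : ln x y e (x e.1) = y e.1 := by simp [ln]

lemma lnp {u p : ι} (h : x u < x p) (a : ι) :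
    ln x y (u, a) (x p) - y p = (sl x y (u, a) - sl x y (u, p)) * (x p - x u) := by
  have := ln2 (y := y) (e := (u, p)) h
  simp only [ln] at *
  linarith

lemma Cr.ne {e f : ι × ι} (h : Cr x y e f) (he : x e.1 < x e.2) (hf : x f.1 < x f.2) :
    e.1 ≠ f.1 ∧ e.1 ≠ f.2 ∧ e.2 ≠ f.1 ∧ e.2 ≠ f.2 := by
  obtain ⟨s, t, a, b, c, d, a', b', c', d', u, v⟩ := h
  have k : ∀ z, ln x y e z = ln x y f z → (z ≤ s ∧ z ≤ t ∨ s ≤ z ∧ t ≤ z) → False := fun z h hz => by
    have e1 : ln x y e s - ln x y f s = (sl x y e - sl x y f) * (s - z) := by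
      simp only [ln] at *
      linarith
    have e2 : ln x y e t - ln x y f t = (sl x y e - sl x y f) * (t - z) := by
      simp only [ln] at *
      linarith
    have : 0 ≤ (s - z) * (t - z) := by rcases hz with h | h <;> nlinarith [h.1, h.2]
    nlinarith [mul_nonneg this (sq_nonneg (sl x y e - sl x y f)),
      mul_pos (sub_pos.2 u) (sub_pos.2 v)]
  refine ⟨fun h => k (x e.1) ?_ (.inl ⟨a, a'⟩), fun h => k (x e.1) ?_ (.inl ⟨a, a'⟩),
    fun h => k (x e.2) ?_ (.inr ⟨b, b'⟩), fun h => k (x e.2) ?_ (.inr ⟨b, b'⟩)⟩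
  · rw [ln1, h, ln1]
  · rw [ln1, h, ln2 hf]
  · rw [ln2 he, h, ln1]
  · rw [ln2 he, h, ln2 hf]

lemma planar (hx : Function.Injective x) (gp : GP x y) (V : Finset ι) (E : Finset (ι × ι))
    (h1 : ∀ e ∈ E, e.1 ∈ V ∧ e.2 ∈ V ∧ x e.1 < x e.2) (h2 : ∀ e ∈ E, ∀ f ∈ E, ¬Cr x y e f) :
    E.card ≤ 3 * V.card := by
  classical
  let A := E.filter fun e => ∃ b, (e.1, b) ∈ E ∧ sl x y e < sl x y (e.1, b)
  have uq : ∀ e ∈ E, ∀ f ∈ E, e.1 = f.1 → sl x y e = sl x y f → e = f := by
    rintro ⟨u, a⟩ he ⟨u', b⟩ hf rfl h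
    exact congrArg _ (gp u a b (h1 _ he).2.2 (h1 _ hf).2.2 h)
  have hB : (E \ A).card ≤ V.card := by
    refine card_le_card_of_injOn Prod.fst (fun e he => (h1 e (mem_sdiff.1 he).1).1) fun e he f hf h => ?_
    simp only [A, coe_sdiff, coe_filter, Set.mem_diff, mem_coe, Set.mem_setOf_eq, not_and,
      not_exists, not_lt] at he hf
    exact uq e he.1 f hf.1 h (le_antisymm (by simpa [← h] using hf.2 hf.1 e.2 (h ▸ he.1))
      (by simpa [h] using he.2 he.1 f.2 (h ▸ hf.1)))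
  have ex : ∀ e ∈ A, ∃ b p, (e.1, b) ∈ E ∧ sl x y e < sl x y (e.1, b) ∧
      (∀ c, (e.1, c) ∈ E → sl x y e < sl x y (e.1, c) → sl x y (e.1, b) ≤ sl x y (e.1, c)) ∧
      p ∈ V ∧ x e.1 < x p ∧ sl x y e ≤ sl x y (e.1, p) ∧ sl x y (e.1, p) ≤ sl x y (e.1, b) ∧
      ∀ r ∈ V, x e.1 < x r → sl x y e ≤ sl x y (e.1, r) → sl x y (e.1, r) ≤ sl x y (e.1, b) →
        x p ≤ x r := fun e he => by
    obtain ⟨he, b0, hb0⟩ := mem_filter.1 he
    obtain ⟨b, hb, hb'⟩ := exists_min_image (univ.filter fun b => (e.1, b) ∈ E ∧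
      sl x y e < sl x y (e.1, b)) (fun b => sl x y (e.1, b)) ⟨b0, by simpa using hb0⟩
    simp only [mem_filter, mem_univ, true_and] at hb hb'
    obtain ⟨p, hp, hp'⟩ := exists_min_image (V.filter fun r => x e.1 < x r ∧ sl x y e ≤ sl x y (e.1, r) ∧
      sl x y (e.1, r) ≤ sl x y (e.1, b)) x ⟨e.2, mem_filter.2 ⟨(h1 e he).2.1, (h1 e he).2.2, le_rfl,
        hb.2.le⟩⟩
    simp only [mem_filter] at hp hp'
    exact ⟨b, p, hb.1, hb.2, fun c h h' => hb' c ⟨h, h'⟩, hp.1, hp.2.1, hp.2.2.1, hp.2.2.2,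
      fun r a b c d => hp' r ⟨a, b, c, d⟩⟩
  choose! b p hb using ex
  have key : ∀ e ∈ A, ∀ f ∈ A, p e = p f → x e.1 ≤ x f.1 →
      ln x y f (x (p e)) < ln x y (e.1, b e) (x (p e)) →
      ln x y e (x (p e)) < ln x y (f.1, b f) (x (p e)) → e = f := fun e he f hf hp hle k1 k2 => by
    obtain ⟨e1, e2, e3, e4, e5, e6, e7, e8⟩ := hb e he
    obtain ⟨f1, f2, f3, f4, f5, f6, f7, f8⟩ := hb f hf
    have he := (mem_filter.1 he).1
    have hf := (mem_filter.1 hf).1
    rw [← hp] at f5 f6 f7 f8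
    rcases hle.eq_or_lt with h | h
    · have h := hx h
      simp only [ln, ← h, add_lt_add_iff_left] at k1 k2 f3
      have k1 := lt_of_mul_lt_mul_right k1 (sub_pos.2 e5).le
      have k2 := lt_of_mul_lt_mul_right k2 (sub_pos.2 e5).le
      refine uq e he f hf h (le_antisymm (not_lt.1 fun hh => ?_) (not_lt.1 fun hh => ?_))
      · exact (f3 e.2 he hh).not_gt k2
      · exact (e3 f.2 (h ▸ hf) (by simpa only [h] using hh)).not_gt (by simpa only [h] using k1)
    have a1 := e8 e.2 (h1 e he).2.1 (h1 e he).2.2 le_rfl e2.le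
    have a2 := e8 (b e) (h1 _ e1).2.1 (h1 _ e1).2.2 e2.le le_rfl
    have a3 := f8 f.2 (h1 f hf).2.1 (h1 f hf).2.2 le_rfl f2.le
    have a4 := f8 (b f) (h1 _ f1).2.1 (h1 _ f1).2.2 f2.le le_rfl
    exfalso
    by_cases c1 : sl x y e ≤ sl x y (e.1, f.1)
    · have c2 : sl x y (e.1, b e) < sl x y (e.1, f.1) :=
        not_le.1 fun c2 => (e8 f.1 (h1 f hf).1 h c1 c2).not_gt f5
      refine h2 _ e1 f hf ⟨x f.1, x (p e), h.le, f5.le.trans a2, le_rfl, f5.le.trans a3, e5.le, a2,
        f5.le, a3, ?_, k1⟩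
      rw [ln1, ← sub_neg, lnp h]
      exact mul_neg_of_neg_of_pos (sub_neg.2 c2) (sub_pos.2 h)
    · refine h2 _ f1 e he ⟨x f.1, x (p e), le_rfl, f5.le.trans a4, h.le, f5.le.trans a1, f5.le, a4,
        e5.le, a1, ?_, k2⟩
      rw [show ln x y (f.1, b f) (x f.1) = y f.1 from ln1 (f.1, b f), ← sub_pos,
        show ln x y e (x f.1) - y f.1 = _ from lnp h e.2]
      exact mul_pos (sub_pos.2 (not_le.1 c1)) (sub_pos.2 h)
  have hA : A.card ≤ (V ×ˢ (univ : Finset Prop)).card := by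
    refine card_le_card_of_injOn (fun e => (p e, sl x y (e.1, p e) < sl x y (e.1, b e)))
      (fun e he => mem_coe.2 (mem_product.2 ⟨(hb e he).2.2.2.1, mem_univ _⟩)) fun e he f hf h => ?_
    simp only [Prod.mk.injEq, eq_iff_iff] at h
    have cmp : ∀ e ∈ A, ∀ f ∈ A, p e = p f → (sl x y (e.1, p e) < sl x y (e.1, b e) ↔
        sl x y (f.1, p f) < sl x y (f.1, b f)) → ln x y f (x (p e)) < ln x y (e.1, b e) (x (p e)) :=
      fun e he f hf hp h => by
        obtain ⟨-, -, -, -, e5, -, e7, -⟩ := hb e he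
        obtain ⟨-, f2, -, -, f5, f6, f7, -⟩ := hb f hf
        have u := lnp (y := y) e5 (b e)
        have v : ln x y f (x (p f)) - y (p f) = _ := lnp (y := y) f5 f.2
        rw [← hp] at v f5 f6 f7
        rw [← hp] at h
        by_cases c : sl x y (e.1, p e) < sl x y (e.1, b e)
        · nlinarith [mul_pos (sub_pos.2 c) (sub_pos.2 e5), mul_nonneg (sub_nonneg.2 f6) (sub_pos.2 f5).le]
        · have := f2.trans_le (not_lt.1 (mt h.2 c))
          nlinarith [mul_pos (sub_pos.2 this) (sub_pos.2 f5),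
            mul_nonneg (sub_nonneg.2 e7) (sub_pos.2 e5).le]
    have k1 := cmp e he f hf h.1 h.2
    have k2 := cmp f hf e he h.1.symm h.2.symm
    rcases le_total (x e.1) (x f.1) with c | c
    · exact key e he f hf h.1 c k1 (h.1 ▸ k2)
    · exact (key f hf e he h.1.symm c k2 (h.1 ▸ k1)).symm
  have := card_sdiff_add_card_eq_card (s := A) (filter_subset _ E)
  simp only [card_product, card_univ, Fintype.card_prop] at hA
  omega

open Classical in
noncomputable def X (E : Finset (ι × ι)) : Finset ((ι × ι) × ι × ι) :=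
  (E ×ˢ E).filter fun q => Cr x y q.1 q.2

lemma rem (hx : Function.Injective x) (gp : GP x y) (V : Finset ι) (E : Finset (ι × ι))
    (h1 : ∀ e ∈ E, e.1 ∈ V ∧ e.2 ∈ V ∧ x e.1 < x e.2) :
    E.card ≤ 3 * V.card + (X (x := x) (y := y) E).card := by
  classical
  have h := planar hx gp V (E \ (X (x := x) (y := y) E).image Prod.fst)
    (fun e he => h1 e (mem_sdiff.1 he).1) fun e he f hf h => (mem_sdiff.1 he).2
      (mem_image.2 ⟨(e, f), by simp [X, h, (mem_sdiff.1 he).1, (mem_sdiff.1 hf).1], rfl⟩)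
  have := le_card_sdiff ((X (x := x) (y := y) E).image Prod.fst) E
  have := card_image_le (s := X (x := x) (y := y) E) (f := Prod.fst)
  omega

omit [Nonempty ι] in
lemma expc (p : ℝ) (T : Finset ι) : ∑ c : ι → Bool, (∏ i, if c i then p else 1 - p) *
    (if ∀ i ∈ T, c i then 1 else 0) = p ^ T.card := by
  have : ∀ c : ι → Bool, (∏ i, if c i then p else 1 - p) * (if ∀ i ∈ T, c i then 1 else 0) =
      ∏ i, (if c i then p else if i ∈ T then 0 else 1 - p) := fun c => by
    split_ifs with h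
    · rw [mul_one]
      exact prod_congr rfl fun i _ => by by_cases k : i ∈ T <;> simp [k, h i]
    · push Not at h
      obtain ⟨i, h1, h2⟩ := h
      rw [mul_zero, prod_eq_zero (mem_univ i) (by simp [h1, h2])]
  simp only [this]
  rw [← Fintype.piFinset_univ, ← prod_univ_sum (fun _ => univ)
    (fun i (b : Bool) => if b then p else if i ∈ T then 0 else 1 - p)]
  simp only [Fintype.sum_bool, ↓reduceIte, Bool.false_eq_true]
  rw [← prod_const, ← Fintype.prod_ite_mem T]
  exact prod_congr rfl fun i _ => by split_ifs <;> ring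

lemma crl (hx : Function.Injective x) (gp : GP x y) (E : Finset (ι × ι))
    (h1 : ∀ e ∈ E, x e.1 < x e.2) {p : ℝ} (p0 : 0 ≤ p) (p1 : p ≤ 1) :
    p ^ 2 * E.card ≤ 3 * p * Fintype.card ι + p ^ 4 * (X (x := x) (y := y) E).card := by
  classical
  have k : ∀ c : ι → Bool, ∑ e ∈ E, (if ∀ i ∈ ({e.1, e.2} : Finset ι), c i then (1 : ℝ) else 0) ≤
      3 * ∑ v, (if ∀ i ∈ ({v} : Finset ι), c i then (1 : ℝ) else 0) + ∑ q ∈ X (x := x) (y := y) E,
        (if ∀ i ∈ ({q.1.1, q.1.2, q.2.1, q.2.2} : Finset ι), c i then (1 : ℝ) else 0) := fun c => by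
    have := rem hx gp (univ.filter fun v => ∀ i ∈ ({v} : Finset ι), c i)
      (E.filter fun e => ∀ i ∈ ({e.1, e.2} : Finset ι), c i) fun e he => by
        simp at he
        simp [he, h1]
    simp only [sum_boole]
    exact_mod_cast this.trans (Nat.add_le_add_left (card_le_card fun q hq => by
      simp [X] at hq ⊢
      tauto) _)
  have := sum_le_sum fun c (_ : c ∈ univ) => mul_le_mul_of_nonneg_left (k c)
    (prod_nonneg fun i (_ : i ∈ univ) => show 0 ≤ if c i then p else 1 - p by split_ifs <;> linarith)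
  simp only [mul_add, mul_left_comm _ (3 : ℝ), sum_add_distrib, ← mul_sum _ _ (3 : ℝ)] at this
  simp only [mul_sum] at this
  rw [sum_comm, sum_comm (s := univ) (t := X E), sum_comm (s := univ) (t := univ)] at this
  simp only [← mul_sum, expc, card_singleton] at this
  rw [sum_congr rfl fun e he => show p ^ ({e.1, e.2} : Finset ι).card = p ^ 2 by
    rw [card_pair fun h => (h1 e he).ne (by rw [h])], sum_congr (s₁ := X E) rfl fun q hq =>
    show p ^ ({q.1.1, q.1.2, q.2.1, q.2.2} : Finset ι).card = p ^ 4 by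
      simp only [X, mem_filter, mem_product] at hq
      obtain ⟨a, b, c, d⟩ := hq.2.ne (h1 _ hq.1.1) (h1 _ hq.1.2)
      have e : q.1.1 ≠ q.1.2 := fun h => (h1 _ hq.1.1).ne (by rw [h])
      have f : q.2.1 ≠ q.2.2 := fun h => (h1 _ hq.1.2).ne (by rw [h])
      rw [card_insert_of_notMem (by simp [a, b, e]), card_insert_of_notMem (by simp [c, d]),
        card_pair f]] at this
  simp only [sum_const, nsmul_eq_mul, card_univ] at this
  linarith

open Classical in
lemma big (hx : Function.Injective x) (gp : GP x y) (E : Finset (ι × ι))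
    (h1 : ∀ e ∈ E, x e.1 < x e.2) (hm : 6 * (Fintype.card ι : ℝ) ≤ E.card) :
    ∃ e ∈ E, (E.card : ℝ) ^ 2 / (72 * (Fintype.card ι : ℝ) ^ 2) ≤ (E.filter (Cr x y e)).card := by
  have N0 : (0 : ℝ) < Fintype.card ι := by exact_mod_cast Fintype.card_pos
  have m0 : (0 : ℝ) < E.card := by linarith
  have h := crl hx gp E h1 (p := 6 * Fintype.card ι / E.card) (by positivity) ((div_le_one m0).2 hm)
  by_contra! hc
  have : ((X (x := x) (y := y) E).card : ℝ) = ∑ e ∈ E, ((E.filter (Cr x y e)).card : ℝ) := by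
    rw [X, card_filter, sum_product]
    simp only [card_filter]
    push_cast
    rfl
  have h2 := sum_lt_sum_of_nonempty (card_pos.1 (by exact_mod_cast m0)) hc
  rw [← this, sum_const, nsmul_eq_mul] at h2
  have h3 := mul_lt_mul_of_pos_left h2 (show 0 < (6 * Fintype.card ι / E.card : ℝ) ^ 4 by positivity)
  have e1 : (6 * Fintype.card ι / E.card : ℝ) ^ 4 * (E.card * ((E.card : ℝ) ^ 2 /
    (72 * (Fintype.card ι : ℝ) ^ 2))) = 18 * (Fintype.card ι : ℝ) ^ 2 / E.card := by field_simp; ring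
  have e2 : (6 * Fintype.card ι / E.card : ℝ) ^ 2 * E.card = 36 * (Fintype.card ι : ℝ) ^ 2 / E.card := by
    field_simp; ring
  have e3 : 3 * (6 * Fintype.card ι / E.card : ℝ) * Fintype.card ι =
    18 * (Fintype.card ι : ℝ) ^ 2 / E.card := by ring
  have e4 : 36 * (Fintype.card ι : ℝ) ^ 2 / E.card = 2 * (18 * (Fintype.card ι : ℝ) ^ 2 / E.card) := by
    ring
  linarith

noncomputable def B (N m : ℝ) : ℝ := Real.exp (450 * N - 300 * N * √(N / (m + N)))

lemma Bk {N m k m' : ℝ} (hN : 0 < N) (h0 : 0 ≤ m') (hk : 0 ≤ k) (h : m' + k ≤ m) :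
    B N m' ≤ B N m * Real.exp (-(150 * √(N / (m + N)) ^ 3 * k)) := by
  have u0 : 0 < m + N := by linarith
  have hh := Real.sq_sqrt (show 0 ≤ N / (m + N) by positivity)
  set t := √(N / (m + N))
  have t0 : 0 ≤ t := Real.sqrt_nonneg _
  have : t * (1 + k / (m + N) / 2) ≤ √(N / (m' + N)) := by
    refine Real.le_sqrt_of_sq_le ?_
    have s1 : k / (m + N) ≤ 1 := (div_le_one u0).2 (by linarith)
    have s0 : 0 ≤ k / (m + N) := by positivity
    have s2 : m' + N ≤ (m + N) * (1 - k / (m + N)) := by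
      rw [mul_sub, mul_div_cancel₀ _ u0.ne']
      linarith
    rw [mul_pow, hh, le_div_iff₀ (by linarith)]
    calc _ ≤ N / (m + N) * (1 + k / (m + N) / 2) ^ 2 * ((m + N) * (1 - k / (m + N))) := by gcongr
      _ = N * ((1 + k / (m + N) / 2) ^ 2 * (1 - k / (m + N))) := by field_simp
      _ ≤ N * 1 := by
        gcongr
        nlinarith [mul_nonneg s0 s0, mul_nonneg s0 (mul_nonneg s0 s0)]
      _ = N := mul_one N
  rw [B, B, ← Real.exp_add, Real.exp_le_exp]
  have e : t ^ 3 * k = N * (t * (k / (m + N))) := by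
    rw [pow_succ, hh]
    ring
  nlinarith [mul_le_mul_of_nonneg_left this hN.le]

lemma Bstep {N m m' : ℝ} (hN : 0 < N) (h0 : 0 ≤ m') (hm : 150 * N ≤ m) (h1 : 1 ≤ m)
    (h : m' + m ^ 2 / (72 * N ^ 2) ≤ m) : B N (m - 1) + B N m' ≤ B N m := by
  have a := Bk (m := m) (m' := m - 1) (k := 1) hN (by linarith) zero_le_one (by linarith)
  have b := Bk hN h0 (by positivity) h
  have u0 : 0 < m + N := by linarith
  have hh := Real.sq_sqrt (show 0 ≤ N / (m + N) by positivity)
  set t := √(N / (m + N))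
  have t0 : 0 < t := Real.sqrt_pos.2 (by positivity)
  have t1 : t ^ 2 ≤ 1 / 150 := by
    rw [hh, div_le_iff₀ u0]
    linarith
  have t2 : 150 * t ^ 3 ≤ 1 := by nlinarith
  have c1 : Real.exp (-(150 * t ^ 3 * 1)) ≤ 1 - 75 * t ^ 3 := by
    rw [Real.exp_neg, mul_one, inv_le_iff_one_le_mul₀ (Real.exp_pos _)]
    nlinarith [Real.add_one_le_exp (150 * t ^ 3), pow_pos t0 3]
  have c2 : Real.exp (-(150 * t ^ 3 * (m ^ 2 / (72 * N ^ 2)))) ≤ 75 * t ^ 3 := by
    have k : 1 / (2 * t) ≤ 150 * t ^ 3 * (m ^ 2 / (72 * N ^ 2)) := by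
      have e : 150 * t ^ 3 * (m ^ 2 / (72 * N ^ 2)) * (2 * t) = 300 / 72 * (m / (m + N)) ^ 2 := by
        rw [show 150 * t ^ 3 * (m ^ 2 / (72 * N ^ 2)) * (2 * t) =
          300 * (t ^ 2) ^ 2 * (m ^ 2 / (72 * N ^ 2)) by ring, hh]
        field_simp
      have : 1 / 2 ≤ m / (m + N) := by
        rw [le_div_iff₀ u0]
        linarith
      rw [div_le_iff₀ (by positivity), e]
      nlinarith
    have := Real.pow_div_factorial_le_exp _ (show 0 ≤ 1 / (2 * t) by positivity) 3
    rw [Real.exp_neg, inv_le_iff_one_le_mul₀ (Real.exp_pos _)]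
    calc (1 : ℝ) ≤ 75 * t ^ 3 * ((1 / (2 * t)) ^ 3 / (Nat.factorial 3 : ℕ)) := by
          field_simp
          norm_num [Nat.factorial]
      _ ≤ _ := by
        gcongr
        exact this.trans (Real.exp_le_exp.2 k)
  have B0 : 0 < B N m := Real.exp_pos _
  nlinarith [mul_le_mul_of_nonneg_left c1 B0.le, mul_le_mul_of_nonneg_left c2 B0.le]

open Classical in
noncomputable def NC (x y : ι → ℝ) (E : Finset (ι × ι)) : Finset (Finset (ι × ι)) :=
  E.powerset.filter fun M => ∀ e ∈ M, ∀ f ∈ M, ¬Cr x y e f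

lemma cnt (hx : Function.Injective x) (gp : GP x y) (E : Finset (ι × ι))
    (h1 : ∀ e ∈ E, x e.1 < x e.2) : ((NC x y E).card : ℝ) ≤ B (Fintype.card ι) E.card := by
  classical
  have N0 : (0 : ℝ) < Fintype.card ι := by exact_mod_cast Fintype.card_pos
  induction' E using Finset.strongInduction with E ih
  by_cases hm : (E.card : ℝ) ≤ 150 * Fintype.card ι
  · have : ((NC x y E).card : ℝ) ≤ 2 ^ E.card := by
      exact_mod_cast (card_filter_le _ _).trans_eq (card_powerset E)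
    refine this.trans ((pow_le_pow_left₀ zero_le_two (show 2 ≤ Real.exp 1 by
      linarith [Real.add_one_le_exp 1]) _).trans ?_)
    rw [← Real.exp_nat_mul, B, Real.exp_le_exp]
    have : √(Fintype.card ι / (E.card + Fintype.card ι)) ≤ 1 :=
      Real.sqrt_le_one.2 ((div_le_one (by positivity)).2 (by simp))
    nlinarith
  push Not at hm
  obtain ⟨e, he, hk⟩ := big hx gp E h1 (by linarith)
  let F := (E.erase e).filter fun f => ¬Cr x y e f
  have s : NC x y E ⊆ NC x y (E.erase e) ∪ (NC x y F).image (insert e) := fun M hM => by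
    simp only [NC, mem_filter, mem_powerset, mem_union, mem_image] at hM ⊢
    by_cases h : e ∈ M
    · exact .inr ⟨M.erase e, ⟨fun f hf => mem_filter.2 ⟨erase_subset_erase e hM.1 hf,
        hM.2 e h f (mem_of_mem_erase hf)⟩, fun a ha b hb =>
        hM.2 a (mem_of_mem_erase ha) b (mem_of_mem_erase hb)⟩, insert_erase h⟩
    · exact .inl ⟨subset_erase.2 ⟨hM.1, h⟩, hM.2⟩
  have c : ((NC x y E).card : ℝ) ≤ (NC x y (E.erase e)).card + (NC x y F).card := by
    exact_mod_cast (card_le_card s).trans ((card_union_le _ _).trans (Nat.add_le_add_left card_image_le _))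
  have i1 := ih _ (erase_ssubset he) fun f hf => h1 f (mem_of_mem_erase hf)
  have i2 := ih F ((filter_subset _ _).trans_ssubset (erase_ssubset he))
    fun f hf => h1 f (mem_of_mem_erase (mem_filter.1 hf).1)
  rw [cast_card_erase_of_mem he] at i1
  have f : (F.card : ℝ) + (E.filter (Cr x y e)).card ≤ E.card := by
    have := card_filter_add_card_filter_not (s := E) (Cr x y e)
    have : F.card ≤ _ := card_le_card (filter_subset_filter (fun f => ¬Cr x y e f) (erase_subset e E))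
    exact_mod_cast (by omega : F.card + (E.filter (Cr x y e)).card ≤ E.card)
  have := Bstep (m' := F.card) N0 (by positivity) hm.le (by exact_mod_cast card_pos.2 ⟨e, he⟩)
    (by linarith)
  linarith

lemma cnt' (hx : Function.Injective x) (gp : GP x y) (E : Finset (ι × ι))
    (h1 : ∀ e ∈ E, x e.1 < x e.2) : ((NC x y E).card : ℝ) ≤ Real.exp (450 * Fintype.card ι) :=
  (cnt hx gp E h1).trans (Real.exp_le_exp.2 (sub_le_self _ (by positivity)))

end H18Acn
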