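import Pool.Agent.Lib.helper18.Acn

set_option autoImplicit false

open Finset Filter Topology

namespace H18Acn

def dt (A B C : ℝ × ℝ) : ℝ := (B.1 - A.1) * (C.2 - A.2) - (C.1 - A.1) * (B.2 - A.2)

lemma intr {A B C Q : ℝ × ℝ} (h1 : 0 < dt Q B C * dt A B C) (h2 : 0 < dt A Q C * dt A B C)
    (h3 : 0 < dt A B Q * dt A B C) : Q ∈ interior (convexHull ℝ ({A, B, C} : Set (ℝ × ℝ))) := by
  have h0 : dt A B C ≠ 0 := fun h => by simp [h] at h1
  refine interior_maximal (t := {Q | 0 < dt Q B C * dt A B C ∧ 0 < dt A Q C * dt A B C ∧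
    0 < dt A B Q * dt A B C}) ?_ ?_ ⟨h1, h2, h3⟩
  · rintro Q ⟨h1, h2, h3⟩
    have := (convex_convexHull ℝ ({A, B, C} : Set (ℝ × ℝ))).sum_mem (t := univ)
      (w := ![dt Q B C / dt A B C, dt A Q C / dt A B C, dt A B Q / dt A B C]) (z := ![A, B, C])
      (fun i _ => by fin_cases i <;> exact (div_pos_iff.2 (mul_pos_iff.1 (by assumption))).le)
      (by simp only [Fin.sum_univ_three, Matrix.cons_val]; field_simp; simp only [dt]; ring)
      fun i _ => subset_convexHull _ _ (by fin_cases i <;> simp)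
    convert this using 1
    ext <;> simp only [Fin.sum_univ_three, Matrix.cons_val, Prod.fst_add, Prod.snd_add, Prod.smul_fst,
      Prod.smul_snd, smul_eq_mul] <;> field_simp <;> simp only [dt] <;> ring
  simp only [Set.setOf_and, dt]
  exact (isOpen_lt (by fun_prop) (by fun_prop)).inter ((isOpen_lt (by fun_prop) (by fun_prop)).inter
    (isOpen_lt (by fun_prop) (by fun_prop)))

lemma side {ι : Type} {x y : ι → ℝ} {l m r : ι} {z u v : ℝ} (h1 : x l < z) (h2 : z < x r)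
    (h0 : dt (x l, y l) (x m, y m) (x r, y r) ≠ 0)
    (hv : u * sl x y (l, r) - v = dt (x l, y l) (x m, y m) (x r, y r)) :
    ∀ᶠ t in 𝓝[>] (0 : ℝ), (z + t * u, ln x y (l, r) z + t * v) ∈
      interior (convexHull ℝ ({(x l, y l), (x m, y m), (x r, y r)} : Set (ℝ × ℝ))) := by
  have hp := mul_self_pos.2 h0
  have d := sub_pos.2 (h1.trans h2)
  have k : ∀ f : ℝ → ℝ, Continuous f → 0 < f 0 → ∀ᶠ t in 𝓝[>] (0 : ℝ), 0 < f t := fun f hf h =>
    (hf.continuousAt.eventually (lt_mem_nhds h)).filter_mono nhdsWithin_le_nhds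
  filter_upwards [k (fun t => dt (z + t * u, ln x y (l, r) z + t * v) (x m, y m) (x r, y r) *
      dt (x l, y l) (x m, y m) (x r, y r)) (by unfold dt; fun_prop) (by
      refine (mul_pos (div_pos (sub_pos.2 h2) d) hp).trans_eq ?_
      simp only [dt, ln, sl]
      field_simp
      ring),
    k (fun t => dt (x l, y l) (x m, y m) (z + t * u, ln x y (l, r) z + t * v) *
      dt (x l, y l) (x m, y m) (x r, y r)) (by unfold dt; fun_prop) (by
      refine (mul_pos (div_pos (sub_pos.2 h1) d) hp).trans_eq ?_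
      simp only [dt, ln, sl]
      field_simp
      ring), self_mem_nhdsWithin] with t a b c
  refine intr a ?_ b
  refine (mul_pos (mul_pos c d) hp).trans_eq ?_
  rw [← mul_assoc]
  congr 1
  rw [← hv]
  simp only [dt, ln, sl]
  field_simp
  ring

lemma meet {ι : Type} {x y : ι → ℝ} {l m r l' m' r' : ι}
    (h0 : dt (x l, y l) (x m, y m) (x r, y r) ≠ 0) (h0' : dt (x l', y l') (x m', y m') (x r', y r') ≠ 0)
    (h : Cr x y (l, r) (l', r')) :
    ¬Disjoint (interior (convexHull ℝ ({(x l, y l), (x m, y m), (x r, y r)} : Set (ℝ × ℝ))))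
      (interior (convexHull ℝ ({(x l', y l'), (x m', y m'), (x r', y r')} : Set (ℝ × ℝ)))) := by
  obtain ⟨s, t, a, b, c, d, a', b', c', d', u, v⟩ := h
  have ne : sl x y (l, r) - sl x y (l', r') ≠ 0 := fun h => by
    simp only [ln, sub_eq_zero.1 h] at u v
    linarith
  obtain ⟨z, hz, e⟩ : ∃ z, (s < z ∧ z < t ∨ t < z ∧ z < s) ∧ ln x y (l, r) z = ln x y (l', r') z := by
    have cf : Continuous fun z => ln x y (l, r) z - ln x y (l', r') z := by unfold ln; fun_prop
    rcases le_total s t with h | h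
    · obtain ⟨z, hz, e⟩ := intermediate_value_Ioo h cf.continuousOn ⟨sub_neg.2 u, sub_pos.2 v⟩
      exact ⟨z, .inl hz, sub_eq_zero.1 e⟩
    · obtain ⟨z, hz, e⟩ := intermediate_value_Ioo' h cf.continuousOn ⟨sub_neg.2 u, sub_pos.2 v⟩
      exact ⟨z, .inr hz, sub_eq_zero.1 e⟩
  simp only at *
  obtain ⟨w, hw⟩ : ∃ w, w * (sl x y (l, r) - sl x y (l', r')) = dt (x l, y l) (x m, y m) (x r, y r) -
    dt (x l', y l') (x m', y m') (x r', y r') := ⟨_, div_mul_cancel₀ _ ne⟩
  obtain ⟨τ, p, q⟩ := ((side (z := z) (u := w) (by rcases hz with h | h <;> linarith [h.1])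
    (by rcases hz with h | h <;> linarith [h.2]) h0 (sub_sub_cancel _ _)).and
    (side (z := z) (u := w) (v := w * sl x y (l, r) - dt (x l, y l) (x m, y m) (x r, y r))
      (by rcases hz with h | h <;> linarith [h.1])
      (by rcases hz with h | h <;> linarith [h.2]) h0' (by linarith))).exists
  exact Set.not_disjoint_iff.2 ⟨_, p, e ▸ q⟩

lemma srt {α : Type} [LinearOrder α] (P : α → ℝ × ℝ) {a b c : α} (h1 : a ≠ b) (h2 : a ≠ c) (h3 : b ≠ c) :
    ∃ l m r, l < m ∧ m < r ∧ ({l, m, r} : Set α) = {a, b, c} ∧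
      |dt (P a) (P b) (P c)| = |dt (P l) (P m) (P r)| := by
  have n : ∀ u v : ℝ, u = -v → |u| = |v| := fun u v h => by rw [h, abs_neg]
  rcases h1.lt_or_gt with p | p <;> rcases h2.lt_or_gt with q | q <;> rcases h3.lt_or_gt with s | s
  · exact ⟨a, b, c, p, s, rfl, rfl⟩
  · exact ⟨a, c, b, q, s, by grind, n _ _ (by unfold dt; ring)⟩
  · exact absurd (p.trans s) q.not_gt
  · exact ⟨c, a, b, q, p, by grind, congrArg _ (by unfold dt; ring)⟩
  · exact ⟨b, a, c, p, q, by grind, n _ _ (by unfold dt; ring)⟩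
  · exact absurd (q.trans s) p.not_gt
  · exact ⟨b, c, a, s, q, by grind, congrArg _ (by unfold dt; ring)⟩
  · exact ⟨c, b, a, s, p, by grind, n _ _ (by unfold dt; ring)⟩

lemma geo1 {α : Type} (S : Finset α) (t : α → ℝ) {μ : ℝ} (hμ : 0 < μ) (h0 : ∀ v ∈ S, 0 ≤ t v)
    (h1 : ∀ v ∈ S, ∀ w ∈ S, |t v - t w| < 1 → v = w) :
    ∑ v ∈ S, Real.exp (-(μ * t v)) ≤ 1 + 1 / μ := by
  have r1 : Real.exp (-μ) < 1 := by simpa using hμ
  calc _ ≤ ∑ v ∈ S, Real.exp (-μ) ^ ⌊t v⌋₊ := sum_le_sum fun v hv => by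
        rw [← Real.exp_nat_mul, Real.exp_le_exp]
        nlinarith [Nat.floor_le (h0 v hv)]
    _ = ∑ k ∈ S.image fun v => ⌊t v⌋₊, Real.exp (-μ) ^ k := (sum_image fun v hv w hw h => h1 v hv w hw (by
        have a := Nat.floor_le (h0 v hv)
        have b := Nat.floor_le (h0 w hw)
        have c := Nat.lt_floor_add_one (t v)
        have d := Nat.lt_floor_add_one (t w)
        rw [h] at a c
        rw [abs_lt]
        constructor <;> linarith)).symm
    _ ≤ (1 - Real.exp (-μ))⁻¹ := sum_le_hasSum _ (fun _ _ => by positivity)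
        (hasSum_geometric_of_lt_one (Real.exp_pos _).le r1)
    _ ≤ _ := by
      rw [inv_le_iff_one_le_mul₀ (sub_pos.2 r1)]
      have : Real.exp (-μ) * (μ + 1) ≤ 1 := by
        rw [Real.exp_neg, inv_mul_le_iff₀ (Real.exp_pos _), mul_one]
        exact Real.add_one_le_exp μ
      field_simp
      linarith

lemma geo (q : ℕ) (c : ℝ) {μ : ℝ} (hμ : 0 < μ) :
    ∑ v : Fin q, Real.exp (-(μ * |(v : ℝ) - c|)) ≤ 2 + 2 / μ := by
  have k : ∀ v w : Fin q, |(v : ℝ) - w| < 1 → v = w := fun v w h => by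
    have : |((v : ℕ) : ℤ) - (w : ℕ)| < 1 := by exact_mod_cast h
    rw [abs_lt] at this
    omega
  rw [← sum_filter_add_sum_filter_not univ fun v : Fin q => c ≤ v]
  have a := geo1 (univ.filter fun v : Fin q => c ≤ v) (fun v => |(v : ℝ) - c|) hμ
    (fun _ _ => abs_nonneg _) fun v hv w hw h => k v w (by
      simp only [mem_filter, mem_univ, true_and] at hv hw
      rw [abs_of_nonneg (sub_nonneg.2 hv), abs_of_nonneg (sub_nonneg.2 hw)] at h
      simpa using h)
  have b := geo1 (univ.filter fun v : Fin q => ¬c ≤ v) (fun v => |(v : ℝ) - c|) hμ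
    (fun _ _ => abs_nonneg _) fun v hv w hw h => (k w v (by
      simp only [mem_filter, mem_univ, true_and, not_le] at hv hw
      rw [abs_of_neg (sub_neg.2 hv), abs_of_neg (sub_neg.2 hw)] at h
      simpa using h)).symm
  rw [show 2 / μ = 1 / μ + 1 / μ by ring]
  linarith

noncomputable def xx (N : ℕ) (i : Fin N) : ℝ := (i : ℝ) / N

noncomputable def YY {N q : ℕ} (i : Fin N) (v : Fin q) : ℝ := (v + (i : ℝ) ^ 2 / (N : ℝ) ^ 3) / q

lemma xlt {N : ℕ} {i j : Fin N} : xx N i < xx N j ↔ i < j := by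
  have : (0 : ℝ) < N := by exact_mod_cast i.pos
  rw [xx, xx, div_lt_div_iff_of_pos_right this, Nat.cast_lt, Fin.lt_def]

lemma xinj (N : ℕ) : Function.Injective (xx N) :=
  (show StrictMono (xx N) from fun _ _ h => xlt.2 h).injective

lemma gp {N q : ℕ} (c : Fin N → Fin q) : GP (xx N) fun i => YY i (c i) := fun u a b h1 h2 h => by
  have N0 : (0 : ℝ) < N := by exact_mod_cast u.pos
  have q0 : (0 : ℝ) < q := by exact_mod_cast (c u).pos
  rw [sl, sl, div_eq_div_iff (sub_pos.2 h1).ne' (sub_pos.2 h2).ne'] at h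
  rw [xlt, Fin.lt_def] at h1 h2
  have e : (((c a : ℕ) - (c u : ℕ) : ℤ) * ((b : ℕ) - (u : ℕ)) - ((c b : ℕ) - (c u : ℕ)) *
      ((a : ℕ) - (u : ℕ))) * N ^ 3 = ((a : ℕ) - (u : ℕ)) * ((b : ℕ) - (u : ℕ)) * ((b : ℕ) - (a : ℕ)) := by
    simp only [xx, YY] at h
    field_simp at h
    have : (((c a : ℝ) - (c u : ℝ)) * ((b : ℝ) - (u : ℝ)) - ((c b : ℝ) - (c u : ℝ)) *
      ((a : ℝ) - (u : ℝ))) * N ^ 3 = ((a : ℝ) - (u : ℝ)) * ((b : ℝ) - (u : ℝ)) * ((b : ℝ) - (a : ℝ)) := by
      linarith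
    exact_mod_cast this
  have := Int.eq_zero_of_abs_lt_dvd (Dvd.intro_left _ e) (by
    rw [abs_mul, abs_mul, pow_succ, pow_two]
    have a2 := a.2
    have b2 := b.2
    gcongr <;> rw [abs_lt] <;> omega)
  simp only [mul_eq_zero] at this
  omega

lemma nd {N q : ℕ} (c : Fin N → Fin q) {l m r : Fin N} (h1 : l < m) (h2 : m < r) :
    dt (xx N l, YY l (c l)) (xx N m, YY m (c m)) (xx N r, YY r (c r)) ≠ 0 := fun h => by
  have a := xlt.2 h1
  have b := xlt.2 (h1.trans h2)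
  refine h2.ne (gp c l m r a b ?_)
  rw [sl, sl, div_eq_div_iff (sub_pos.2 a).ne' (sub_pos.2 b).ne']
  simp only [dt] at h ⊢
  linarith

noncomputable def wt {N q : ℕ} (L : ℝ) (c : Fin N → Fin q) (e : Fin N × Fin N) (g : Fin N × Fin q) : ℝ :=
  if e.1 < g.1 ∧ g.1 < e.2 then Real.exp (-(L * (|dt (xx N e.1, YY e.1 (c e.1)) (xx N g.1, YY g.1 g.2)
    (xx N e.2, YY e.2 (c e.2))| / 2))) else 0

lemma wsum {N q : ℕ} {L : ℝ} (hL : 0 < L) (c : Fin N → Fin q) (e : Fin N × Fin N) :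
    ∑ g, wt L c e g ≤ 2 * N + 4 * N * q / L := by
  have N0 : (0 : ℝ) < N := by exact_mod_cast e.1.pos
  have q0 : (0 : ℝ) < q := by exact_mod_cast (c e.1).pos
  rw [Fintype.sum_prod_type]
  by_cases h : e.1 < e.2
  swap
  · rw [sum_eq_zero fun j _ => sum_eq_zero fun v _ => show wt L c e (j, v) = 0 from
      if_neg fun hh => h (hh.1.trans hh.2)]
    positivity
  have s0 : (0 : ℝ) < (e.2 : ℝ) - e.1 := sub_pos.2 (by exact_mod_cast h)
  calc _ ≤ ∑ j, if j ∈ Ioo e.1 e.2 then 2 + 2 / (L * ((e.2 : ℝ) - e.1) / (2 * N * q)) else 0 :=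
        sum_le_sum fun j _ => by
          simp only [wt, mem_Ioo]
          split_ifs with hj
          swap
          · simp
          refine le_of_eq_of_le (sum_congr rfl fun v _ => ?_) (geo q (((j : ℝ) - e.1) *
            (YY e.2 (c e.2) - YY e.1 (c e.1)) * q / (e.2 - e.1) + YY e.1 (c e.1) * q - (j : ℝ) ^ 2 / N ^ 3)
            (by positivity))
          congr 2
          rw [← abs_of_pos (show 0 < L * ((e.2 : ℝ) - e.1) / (2 * N * q) by positivity), ← abs_mul,
            ← abs_of_pos hL, ← abs_two, ← abs_div, ← abs_mul, ← abs_neg, abs_of_pos hL, abs_two]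
          congr 1
          simp only [dt, xx, YY]
          field_simp
          ring
    _ ≤ ((e.2 : ℝ) - e.1) * (2 + 2 / (L * ((e.2 : ℝ) - e.1) / (2 * N * q))) := by
      rw [sum_ite_mem, univ_inter, sum_const, nsmul_eq_mul, Fin.card_Ioo]
      gcongr
      rw [← Nat.cast_sub (Fin.lt_def.1 h).le]
      exact_mod_cast Nat.sub_le _ _
    _ = 2 * ((e.2 : ℝ) - e.1) + 4 * N * q / L := by field_simp; ring
    _ ≤ _ := by
      have : (e.2 : ℝ) ≤ N := by exact_mod_cast e.2.2.le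
      linarith [(e.1 : ℕ).cast_nonneg (α := ℝ)]

end H18Acn
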