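import Mathlib

set_option autoImplicit false

namespace H18Bt

open SimpleGraph

abbrev V (d : ℕ) := Fin 3 × Fin (5 * d + 1)

def A (d a i b j : ℕ) : Prop :=
  (a = b ∧ (i + 1 = j ∨ j + 1 = i)) ∨
    (i = j ∧ ((a + b = 1 ∧ i = 2 * d) ∨ (a + b = 2 ∧ a ≠ 1 ∧ b ≠ 1 ∧ i = 3 * d)))

/-- three paths with `5d` edges; path 1 (2) is joined to path 0 at position `2d` (`3d`). -/
def Tr (d : ℕ) : SimpleGraph (V d) where
  Adj x y := A d x.1.val x.2.val y.1.val y.2.val
  symm := ⟨fun x y h => by unfold A at h ⊢; omega⟩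
  loopless := ⟨fun x h => by unfold A at h; omega⟩

def ab (i j : ℕ) : ℕ := (i - j) + (j - i)

def D (d a i b j : ℕ) : ℕ :=
  if a = b then ab i j
  else if a + b = 1 then ab i (2 * d) + 1 + ab j (2 * d)
  else if a + b = 2 then ab i (3 * d) + 1 + ab j (3 * d)
  else if a = 1 then ab i (2 * d) + d + 2 + ab j (3 * d)
  else ab i (3 * d) + d + 2 + ab j (2 * d)

lemma D_le {d : ℕ} {x y : V d} (w : (Tr d).Walk x y) :
    D d x.1.val x.2.val y.1.val y.2.val ≤ w.length := by
  induction w with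
  | nil => simp [D, ab]
  | @cons a b c h w ih =>
    rw [Walk.length_cons]
    have h' : A d a.1.val a.2.val b.1.val b.2.val := h
    have := a.1.isLt; have := b.1.isLt; have := c.1.isLt
    unfold A at h'
    unfold D ab at ih ⊢
    split_ifs at ih ⊢ <;> omega

lemma nbr (d a i b j n : ℕ) (ha : a < 3) (hb : b < 3) (hi : i < 5 * d + 1) (hj : j < 5 * d + 1)
    (h : D d a i b j = n + 1) :
    ∃ c k, c < 3 ∧ k < 5 * d + 1 ∧ A d a i c k ∧ D d c k b j = n := by
  have ha' : a = 0 ∨ a = 1 ∨ a = 2 := by omega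
  have hb' : b = 0 ∨ b = 1 ∨ b = 2 := by omega
  obtain ⟨t, ht⟩ : ∃ t, t = if a = b then j else
    if a = 1 ∨ (a = 0 ∧ b = 1) then 2 * d else 3 * d := ⟨_, rfl⟩
  rcases lt_trichotomy i t with h5 | h5 | h5
  · refine ⟨a, i + 1, ha, ?_⟩
    rcases ha' with rfl | rfl | rfl <;> rcases hb' with rfl | rfl | rfl <;>
      simp [D, A, ab] at h ht ⊢ <;> omega
  · refine ⟨if a = 0 then b else 0, i, ?_⟩
    rcases ha' with rfl | rfl | rfl <;> rcases hb' with rfl | rfl | rfl <;>
      simp [D, A, ab] at h ht ⊢ <;> omega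
  · refine ⟨a, i - 1, ha, ?_⟩
    rcases ha' with rfl | rfl | rfl <;> rcases hb' with rfl | rfl | rfl <;>
      simp [D, A, ab] at h ht ⊢ <;> omega

lemma ex_walk {d : ℕ} (y : V d) (n : ℕ) : ∀ x : V d, D d x.1.val x.2.val y.1.val y.2.val = n →
    ∃ w : (Tr d).Walk x y, w.length = n := by
  induction n with
  | zero =>
    intro x h
    have : x = y := by
      unfold D ab at h
      refine Prod.ext (Fin.ext ?_) (Fin.ext ?_) <;> split_ifs at h <;> omega
    subst this; exact ⟨Walk.nil, rfl⟩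
  | succ n ih =>
    intro x h
    have := nbr d _ _ _ _ n x.1.isLt y.1.isLt x.2.isLt y.2.isLt h
    obtain ⟨b, j, hb, hj, hA, hD⟩ := this
    obtain ⟨w, hw⟩ := ih (⟨b, hb⟩, ⟨j, hj⟩) hD
    exact ⟨Walk.cons (show (Tr d).Adj x (⟨b, hb⟩, ⟨j, hj⟩) from hA) w, by simp [hw]⟩

lemma conn (d : ℕ) : (Tr d).Connected :=
  Connected.mk fun x y => (ex_walk y _ x rfl).elim fun w _ => w.reachable

lemma dist_eq {d : ℕ} (x y : V d) : (Tr d).dist x y = D d x.1.val x.2.val y.1.val y.2.val := by
  apply le_antisymm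
  · obtain ⟨w, hw⟩ := ex_walk y _ x rfl
    exact hw ▸ dist_le w
  · obtain ⟨w, hw⟩ := (conn d).exists_walk_length_eq_dist x y
    exact hw ▸ D_le w

def att (d k : ℕ) : ℕ := if k = 1 then 2 * d else 3 * d

lemma att_lt (d k : ℕ) : att d k < 5 * d + 1 := by unfold att; split_ifs <;> omega

def e1 {d : ℕ} (x : V d) : V d := if x.2.val < 5 * d then x else (x.1, ⟨att d x.1.val, att_lt _ _⟩)

def e2 {d : ℕ} (x : V d) : V d :=
  if h : x.2.val < 5 * d then (x.1, ⟨x.2.val + 1, by omega⟩) else (0, ⟨att d x.1.val, att_lt _ _⟩)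

lemma isTree (d : ℕ) : (Tr d).IsTree := by
  classical
  rw [isTree_iff_connected_and_card]
  refine ⟨conn d, le_antisymm ?_ (conn d).card_vert_le_card_edgeSet_add_one⟩
  have hs : (Tr d).edgeSet ⊆ ↑((Finset.univ.erase ((0, Fin.last _) : V d)).image
      fun x => s(e1 x, e2 x)) := by
    have key : ∀ x y : V d, (x.1.val = y.1.val ∧ x.2.val + 1 = y.2.val) ∨
        (y.1.val = 0 ∧ x.1.val ≠ 0 ∧ x.2.val = y.2.val ∧ x.2.val = att d x.1.val) →
        s(x, y) ∈ ((Finset.univ.erase ((0, Fin.last _) : V d)).image fun x => s(e1 x, e2 x)) := by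
      rintro x y (⟨h1, h2⟩ | ⟨h1, h2, h3, h4⟩)
      · have h3 : x.2.val < 5 * d := by have := y.2.isLt; omega
        refine Finset.mem_image.2 ⟨x, Finset.mem_erase.2 ⟨?_, Finset.mem_univ _⟩, ?_⟩
        · rintro rfl; simp at h3
        · have : e2 x = y := by
            unfold e2; rw [dif_pos h3]; exact Prod.ext (Fin.ext h1) (Fin.ext h2)
          rw [this, e1, if_pos h3]
      · refine Finset.mem_image.2 ⟨(x.1, Fin.last _), Finset.mem_erase.2 ⟨?_, Finset.mem_univ _⟩, ?_⟩
        · intro h; exact h2 (congrArg (fun z : V d => z.1.val) h)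
        · have a1 : e1 ((x.1, Fin.last _) : V d) = x := by
            unfold e1; rw [if_neg (by simp)]; exact Prod.ext rfl (Fin.ext h4.symm)
          have a2 : e2 ((x.1, Fin.last _) : V d) = y := by
            unfold e2; rw [dif_neg (by simp)]
            exact Prod.ext (Fin.ext h1.symm) (Fin.ext (h4.symm.trans h3))
          rw [a1, a2]
    intro e he
    induction e using Sym2.ind with
    | _ x y =>
      have h : A d x.1.val x.2.val y.1.val y.2.val := he
      have := x.1.isLt; have := y.1.isLt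
      rw [Finset.mem_coe]
      by_cases hc : (x.1.val = y.1.val ∧ x.2.val + 1 = y.2.val) ∨
        (y.1.val = 0 ∧ x.1.val ≠ 0 ∧ x.2.val = y.2.val ∧ x.2.val = att d x.1.val)
      · exact key x y hc
      · rw [Sym2.eq_swap]
        apply key y x
        unfold A at h; unfold att at hc ⊢
        split_ifs at hc ⊢ <;> omega
  have h1 := Set.ncard_le_ncard hs (Finset.finite_toSet _)
  rw [Set.ncard_coe_finset] at h1
  have h2 := h1.trans Finset.card_image_le
  rw [Finset.card_erase_of_mem (Finset.mem_univ _)] at h2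
  rw [Nat.card_coe_set_eq, Nat.card_eq_fintype_card]
  simp only [Finset.card_univ, Fintype.card_prod, Fintype.card_fin] at h2 ⊢
  omega

def wt (d k j : ℕ) : ℕ :=
  if j = 5 * d then (if k = 0 then 0 else 2) else if k = 0 ∧ 2 * d ≤ j ∧ j < 3 * d then 1 else 2

lemma cnt (lo hi L : ℕ) :
    ∑ j ∈ Finset.range L, (if lo ≤ j ∧ j < hi then 1 else 0) = min hi L - lo := by
  induction L with
  | zero => simp
  | succ L ih => rw [Finset.sum_range_succ, ih]; split_ifs <;> omega

lemma cnt3 (F : ℕ → ℕ) (L l1 h1 l2 h2 l3 h3 : ℕ)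
    (h : ∀ j < L, (if l1 ≤ j ∧ j < h1 then 1 else 0) + (if l2 ≤ j ∧ j < h2 then 1 else 0) +
      (if l3 ≤ j ∧ j < h3 then 1 else 0) ≤ F j) :
    (min h1 L - l1) + (min h2 L - l2) + (min h3 L - l3) + F L ≤ ∑ j : Fin (L + 1), F j.val := by
  rw [Fin.sum_univ_eq_sum_range F, Finset.sum_range_succ, ← cnt, ← cnt, ← cnt,
    ← Finset.sum_add_distrib, ← Finset.sum_add_distrib]
  exact Nat.add_le_add_right (Finset.sum_le_sum fun j hj => h j (Finset.mem_range.1 hj)) _

lemma wt_sum (d : ℕ) : ∑ x : V d, wt d x.1.val x.2.val ≤ 29 * d + 4 := by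
  have key : ∀ k L, L ≤ 5 * d → ∑ j ∈ Finset.range L, wt d k j =
      2 * L - (if k = 0 then min L (3 * d) - 2 * d else 0) := by
    intro k L
    induction L with
    | zero => simp
    | succ L ih =>
      intro h
      rw [Finset.sum_range_succ, ih (by omega)]; unfold wt; split_ifs <;> omega
  have k2 : ∀ k, ∑ j : Fin (5 * d + 1), wt d k j.val =
      2 * (5 * d) - (if k = 0 then min (5 * d) (3 * d) - 2 * d else 0) + wt d k (5 * d) := by
    intro k
    rw [Fin.sum_univ_eq_sum_range (fun j => wt d k j), Finset.sum_range_succ, key _ _ le_rfl]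
  rw [Fintype.sum_prod_type, Fin.sum_univ_three]
  change ∑ j : Fin (5 * d + 1), wt d 0 j.val + ∑ j : Fin (5 * d + 1), wt d 1 j.val +
    ∑ j : Fin (5 * d + 1), wt d 2 j.val ≤ _
  rw [k2, k2, k2]
  simp [wt]; omega

def covn (d a i r k j : ℕ) : Prop :=
  if j < 5 * d then D d k j a i < r ∨ D d k (j + 1) a i < r
  else D d k (att d k) a i < r ∨ D d 0 (att d k) a i < r

lemma cov_iff {d : ℕ} (v x : V d) (r : ℕ) :
    ((Tr d).dist (e1 x) v < r ∨ (Tr d).dist (e2 x) v < r) ↔
      covn d v.1.val v.2.val r x.1.val x.2.val := by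
  rw [dist_eq, dist_eq]
  unfold covn e1 e2
  split_ifs <;> rfl

lemma e12 {d : ℕ} (x : V d) : (Tr d).dist (e1 x) (e2 x) ≤ 1 := by
  rw [dist_eq]
  have := x.1.isLt
  unfold e1 e2
  split_ifs
  · simp [D, ab]
  · simp only [D, ab, att, Fin.val_zero]; split_ifs <;> omega

open Classical in
noncomputable def S (d a i r k : ℕ) : ℕ :=
  ∑ j : Fin (5 * d + 1), if covn d a i r k j.val then wt d k j.val else 0

lemma keyA (d a i r k x c : ℕ) (hk : k ≠ 0) (hx : x ≤ 5 * d)
    (h : ∀ j, D d k j a i = c + ab j x) :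
    2 * min (r - c) (5 * d) ≤ S d a i r k ∧
      (D d 0 (att d k) a i < r → 2 * min (r - c) (5 * d) + 2 ≤ S d a i r k) := by
  classical
  have := cnt3 (fun j => if covn d a i r k j then wt d k j else 0) (5 * d)
    (x - (r - c)) (x + (r - c)) (x - (r - c)) (x + (r - c)) 0 0 fun j hj => by
      by_cases hc : covn d a i r k j
      · simp only [if_pos hc, wt, if_neg hj.ne, hk, false_and, if_false]
        split_ifs <;> omega
      · simp only [if_neg hc]
        unfold covn at hc
        rw [if_pos hj, h, h] at hc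
        unfold ab at hc
        split_ifs <;> omega
  change _ ≤ S d a i r k at this
  refine ⟨by omega, fun h2 => ?_⟩
  have e : (if covn d a i r k (5 * d) then wt d k (5 * d) else 0) = 2 := by
    simp [covn, wt, hk, h2]
  simp only [e] at this
  omega

lemma key0 (d a i r x c : ℕ) (hx : x ≤ 5 * d) (h : ∀ j, D d 0 j a i = c + ab j x) :
    (x ≤ 2 * d → 2 * min (r - c) (2 * d - x) ≤ S d a i r 0) ∧
    (3 * d ≤ x → 2 * min (r - c) (x - 3 * d) ≤ S d a i r 0) ∧
    (2 * d ≤ x → x ≤ 3 * d → min (r - c) (x - 2 * d) + min (r - c) (3 * d - x) ≤ S d a i r 0) ∧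
    (2 * d ≤ x → x ≤ 3 * d → 2 * d ≤ r - c → 7 * d ≤ S d a i r 0) := by
  classical
  have := cnt3 (fun j => if covn d a i r 0 j then wt d 0 j else 0) (5 * d)
    (x - (r - c)) (x + (r - c)) (x - (r - c)) (min (x + (r - c)) (2 * d))
    (max (x - (r - c)) (3 * d)) (x + (r - c)) fun j hj => by
      by_cases hc : covn d a i r 0 j
      · simp only [if_pos hc, wt, if_neg hj.ne, true_and]
        split_ifs <;> omega
      · simp only [if_neg hc]
        unfold covn at hc
        rw [if_pos hj, h, h] at hc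
        unfold ab at hc
        split_ifs <;> omega
  change _ ≤ S d a i r 0 at this
  have := le_trans (Nat.le_add_right _ _) this
  generalize r - c = p at this ⊢
  refine ⟨?_, ?_, ?_, ?_⟩ <;> omega

open Classical in
lemma ball (d a i r b j : ℕ) (hd : 4 ≤ d) (ha : a < 3) (hi : i ≤ 5 * d) (hb : b < 3)
    (hj : j ≤ 5 * d) (hr : r ≤ D d b j a i) :
    2 * r ≤ ∑ x : V d, if covn d a i r x.1.val x.2.val then wt d x.1.val x.2.val else 0 := by
  rw [Fintype.sum_prod_type, Fin.sum_univ_three]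
  change 2 * r ≤ S d a i r 0 + S d a i r 1 + S d a i r 2
  have ha' : a = 0 ∨ a = 1 ∨ a = 2 := by omega
  have hb' : b = 0 ∨ b = 1 ∨ b = 2 := by omega
  rcases ha' with rfl | rfl | rfl
  · have k0 := key0 d 0 i r i 0 hi (fun j => by simp [D])
    have k1 := keyA d 0 i r 1 (2 * d) (ab i (2 * d) + 1) (by omega) (by omega)
      (fun j => by simp [D, ab]; omega)
    have k2 := keyA d 0 i r 2 (3 * d) (ab i (3 * d) + 1) (by omega) (by omega)
      (fun j => by simp [D, ab]; omega)
    have hr' : r ≤ ab i (2 * d) + 4 * d + 1 ∧ r ≤ ab i (3 * d) + 4 * d + 1 := by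
      rcases hb' with rfl | rfl | rfl <;> simp [D, ab] at hr ⊢ <;> omega
    clear hr
    simp only [D, att, if_true, show ¬ (2 = 1) by omega, if_false, Nat.sub_zero] at k0 k1 k2
    obtain ⟨q1, q2, q3, -⟩ := k0
    rcases le_total i (2 * d) with h1 | h1
    · have q := q1 h1
      have e : ab i (2 * d) = 2 * d - i ∧ ab (2 * d) i = 2 * d - i := by unfold ab; omega
      rw [e.1, e.2] at k1
      rw [e.1] at hr'
      omega
    · rcases le_total i (3 * d) with h2 | h2
      · have q := q3 h1 h2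
        have e : ab i (2 * d) = i - 2 * d ∧ ab (2 * d) i = i - 2 * d := by unfold ab; omega
        have e' : ab i (3 * d) = 3 * d - i ∧ ab (3 * d) i = 3 * d - i := by unfold ab; omega
        rw [e.1, e.2] at k1
        rw [e'.1, e'.2] at k2
        rw [e.1, e'.1] at hr'
        omega
      · have q := q2 h2
        have e' : ab i (3 * d) = i - 3 * d ∧ ab (3 * d) i = i - 3 * d := by unfold ab; omega
        rw [e'.1, e'.2] at k2
        rw [e'.1] at hr'
        omega
  · have k0 := (key0 d 1 i r (2 * d) (ab i (2 * d) + 1) (by omega)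
      (fun j => by simp [D, ab]; omega)).2.2.2 le_rfl (by omega)
    have k1 := (keyA d 1 i r 1 i 0 (by omega) hi (fun j => by simp [D])).1
    have hr' : r ≤ 7 * d + 2 := by
      rcases hb' with rfl | rfl | rfl <;> simp [D, ab] at hr ⊢ <;> omega
    have : ab i (2 * d) ≤ 3 * d := by unfold ab; omega
    omega
  · have k0 := (key0 d 2 i r (3 * d) (ab i (3 * d) + 1) (by omega)
      (fun j => by simp [D, ab]; omega)).2.2.2 (by omega) le_rfl
    have k1 := (keyA d 2 i r 2 i 0 (by omega) hi (fun j => by simp [D])).1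
    have hr' : r ≤ 7 * d + 2 := by
      rcases hb' with rfl | rfl | rfl <;> simp [D, ab] at hr ⊢ <;> omega
    have : ab i (3 * d) ≤ 3 * d := by unfold ab; omega
    omega

open Classical in
lemma bn_le (d : ℕ) (hd : 4 ≤ d) (f : V d → ℕ) (hf : ∀ v, ∃ u, f v ≤ (Tr d).dist u v)
    (hbn : ∀ u v, u ≠ v → 0 < f u → 0 < f v → ∀ w, (Tr d).dist w u ≤ f u →
      (Tr d).dist w v ≤ f v → (Tr d).dist w u = f u ∧ (Tr d).dist w v = f v) :
    2 * ∑ v, f v ≤ 29 * d + 4 := by
  have h1 : ∀ v : V d, 2 * f v ≤ ∑ x : V d,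
      if (Tr d).dist (e1 x) v < f v ∨ (Tr d).dist (e2 x) v < f v
        then wt d x.1.val x.2.val else 0 := fun v => by
    obtain ⟨u, hu⟩ := hf v
    rw [dist_eq] at hu
    have := ball d v.1.val v.2.val (f v) u.1.val u.2.val hd v.1.isLt (Nat.lt_succ_iff.1 v.2.isLt)
      u.1.isLt (Nat.lt_succ_iff.1 u.2.isLt) hu
    refine this.trans (le_of_eq (Finset.sum_congr rfl fun x _ => ?_))
    simp only [cov_iff]
  rw [Finset.mul_sum]
  refine (Finset.sum_le_sum fun v _ => h1 v).trans ?_
  rw [Finset.sum_comm]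
  refine le_trans (Finset.sum_le_sum fun x _ => ?_) (wt_sum d)
  rw [← Finset.sum_filter, Finset.sum_const, smul_eq_mul]
  have : (Finset.univ.filter fun v : V d =>
      (Tr d).dist (e1 x) v < f v ∨ (Tr d).dist (e2 x) v < f v).card ≤ 1 := by
    rw [Finset.card_le_one]
    intro u hu v hv
    have hu := (Finset.mem_filter.1 hu).2
    have hv := (Finset.mem_filter.1 hv).2
    by_contra hne
    have t1 := (conn d).dist_triangle (u := e1 x) (v := e2 x) (w := v)
    have t2 := (conn d).dist_triangle (u := e2 x) (v := e1 x) (w := v)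
    have t3 := e12 x
    rw [dist_comm (u := e2 x) (v := e1 x)] at t2
    have b1 := hbn u v hne (by omega) (by omega) (e1 x)
    have b2 := hbn u v hne (by omega) (by omega) (e2 x)
    omega
  calc _ ≤ 1 * wt d x.1.val x.2.val := Nat.mul_le_mul_right _ this
    _ = _ := one_mul _

end H18Bt
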