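import Mathlib

set_option autoImplicit false

namespace H18Bc

open SimpleGraph

/-- clique index -/
def cl {m : ℕ} (p : Fin (m+1) × Fin (m+1)) : ℕ := if p.1 = 0 then p.2.val - 1 else p.2.val

/-- `K_m □ P_{m+1}` with an extra simplicial vertex on each of the levels `0, …, m-1`. -/
def Gr (m : ℕ) : SimpleGraph (Fin (m+1) × Fin (m+1)) where
  Adj p q := p ≠ q ∧ (cl p = cl q ∨
    (p.1 = q.1 ∧ p.1 ≠ 0 ∧ (p.2.val + 1 = q.2.val ∨ q.2.val + 1 = p.2.val)))
  symm := ⟨fun p q h => by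
    obtain ⟨h1, h | ⟨h2, h3, h4⟩⟩ := h
    · exact ⟨h1.symm, Or.inl h.symm⟩
    · exact ⟨h1.symm, Or.inr ⟨h2.symm, h2 ▸ h3, h4.symm⟩⟩⟩
  loopless := ⟨fun p h => h.1 rfl⟩

lemma walk_lb {m : ℕ} (i : Fin (m+1)) {p q : Fin (m+1) × Fin (m+1)} (w : (Gr m).Walk p q) :
    cl p + (if p.1 = i then 0 else 1) ≤ w.length + (cl q + (if q.1 = i then 0 else 1)) := by
  induction w with
  | nil => simp
  | @cons a b c h w ih =>
    rw [Walk.length_cons]
    obtain ⟨-, h | ⟨h1, h2, h3⟩⟩ := h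
    · split_ifs at ih ⊢ <;> omega
    · have ha : cl a = a.2.val := by simp [cl, h2]
      have hb : cl b = b.2.val := by simp [cl, h1 ▸ h2]
      rw [← h1] at ih
      split_ifs at ih ⊢ <;> omega

lemma col {m : ℕ} (i : Fin (m+1)) (hi : i ≠ 0) (j : ℕ) (hj : j < m + 1) :
    ∃ w : (Gr m).Walk (i, ⟨j, hj⟩) (i, 0), w.length = j := by
  induction j with
  | zero => exact ⟨Walk.nil, rfl⟩
  | succ j ih =>
    obtain ⟨w, hw⟩ := ih (by omega)
    refine ⟨Walk.cons (v := (i, ⟨j, by omega⟩)) ⟨?_, Or.inr ⟨rfl, hi, Or.inr rfl⟩⟩ w, by simp [hw]⟩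
    simp

lemma toTop {m : ℕ} (hm : 1 ≤ m) (p : Fin (m+1) × Fin (m+1)) :
    ∃ i : Fin (m+1), i ≠ 0 ∧ ∃ w : (Gr m).Walk p (i, 0), w.length ≤ m := by
  obtain ⟨i, j, hj⟩ := p
  by_cases hi : i = 0
  · subst hi
    have hl : Fin.last m ≠ 0 := by
      intro h; have := congrArg Fin.val h; simp at this; omega
    obtain ⟨w, hw⟩ := col (Fin.last m) hl (j - 1) (by omega)
    refine ⟨Fin.last m, hl, Walk.cons (v := (Fin.last m, ⟨j - 1, by omega⟩)) ⟨?_, Or.inl ?_⟩ w, ?_⟩
    · intro h; exact hl (congrArg Prod.fst h).symm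
    · simp [cl, hl]
    · simp [hw]; omega
  · obtain ⟨w, hw⟩ := col i hi j hj
    exact ⟨i, hi, w, by omega⟩

lemma conn {m : ℕ} (hm : 1 ≤ m) : (Gr m).Connected := by
  have key : ∀ p : Fin (m+1) × Fin (m+1), (Gr m).Reachable p (0, 0) := fun p => by
    obtain ⟨i, hi, w, -⟩ := toTop hm p
    refine w.reachable.trans (Adj.reachable ⟨?_, Or.inl ?_⟩)
    · intro h; exact hi (congrArg Prod.fst h)
    · simp [cl, hi]
  exact Connected.mk fun p q => (key p).trans (key q).symm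

lemma dist_lb {m : ℕ} (hm : 1 ≤ m) (i i' : Fin (m+1)) (hi : i ≠ 0) (hi' : i' ≠ 0) :
    m + (if i = i' then 0 else 1) ≤ (Gr m).dist (i, Fin.last m) (i', 0) := by
  obtain ⟨w, hw⟩ := (conn hm).exists_walk_length_eq_dist (i, Fin.last m) (i', 0)
  have := walk_lb i' w
  simp [cl, hi, hi'] at this
  rw [← hw]; simpa using this

lemma dom_card {m : ℕ} (D : Finset (Fin (m+1) × Fin (m+1)))
    (hD : ∀ u, u ∈ D ∨ ∃ v ∈ D, (Gr m).Adj u v)
    (hmin : ∀ D' ⊂ D, ¬ ∀ u, u ∈ D' ∨ ∃ v ∈ D', (Gr m).Adj u v) : D.card ≤ 2 * m + 2 := by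
  classical
  have meet : ∀ c < m, ∃ d ∈ D, cl d = c := fun c hc => by
    have e : cl ((0, ⟨c + 1, by omega⟩) : Fin (m+1) × Fin (m+1)) = c := by simp [cl]
    rcases hD (0, ⟨c + 1, by omega⟩) with h | ⟨v, hv, -, h | h⟩
    · exact ⟨_, h, e⟩
    · exact ⟨v, hv, h ▸ e⟩
    · exact absurd rfl h.2.1
  have clle : ∀ p : Fin (m+1) × Fin (m+1), cl p ≤ m := fun p => by
    have := p.2.isLt
    unfold cl; split_ifs <;> omega
  have key : ∀ d ∈ D, ∀ d' ∈ D, d ≠ d' → cl d = cl d' → d.2.val + 1 = m := by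
    intro d hd d' hd' hne hc
    have h1 := hmin (D.erase d) (Finset.erase_ssubset hd)
    push Not at h1
    obtain ⟨u, hu1, hu2⟩ := h1
    have same : ∀ e ∈ D, e ≠ d → cl u ≠ cl e := fun e he hed h => by
      by_cases hue : u = e
      · exact hu1 (Finset.mem_erase.2 ⟨hue ▸ hed, hue ▸ he⟩)
      · exact hu2 e (Finset.mem_erase.2 ⟨hed, he⟩) ⟨hue, Or.inl h⟩
    have hud : cl u ≠ cl d := fun h => same d' hd' hne.symm (h.trans hc)
    have hum : cl u = m := by
      by_contra h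
      obtain ⟨e, he, hec⟩ := meet (cl u) (lt_of_le_of_ne (clle u) h)
      exact same e he (fun h => hud (h ▸ hec.symm)) hec.symm
    rcases hD u with h | ⟨v, hv, hadj⟩
    · exact absurd rfl (same u h (fun h => hud (h ▸ rfl)))
    · by_cases hvd : v = d
      · subst hvd
        obtain ⟨-, h | ⟨h1, h2, h3⟩⟩ := hadj
        · exact absurd h hud
        · have : cl u = u.2.val := by simp [cl, h2]
          have := v.2.isLt
          omega
      · exact absurd hadj (hu2 v (Finset.mem_erase.2 ⟨hvd, hv⟩))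
  have c1 : (D.filter fun d => d.2.val + 1 = m).card ≤ m + 1 := by
    have := Finset.card_le_card_of_injOn (s := D.filter fun d => d.2.val + 1 = m)
      (t := (Finset.univ : Finset (Fin (m+1)))) Prod.fst (fun _ _ => by simp) (by
        intro a ha b hb h
        have ha := (Finset.mem_filter.1 ha).2
        have hb := (Finset.mem_filter.1 hb).2
        exact Prod.ext h (Fin.ext (by omega)))
    simpa using this
  have c2 : (D.filter fun d => ¬ d.2.val + 1 = m).card ≤ m + 1 := by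
    have := Finset.card_le_card_of_injOn (s := D.filter fun d => ¬ d.2.val + 1 = m)
      (t := Finset.range (m + 1)) cl (fun p _ => by simpa using Nat.lt_succ_of_le (clle p)) (by
        intro a ha b hb h
        have ha := Finset.mem_filter.1 ha
        have hb := Finset.mem_filter.1 hb
        by_contra hne
        exact ha.2 (key a ha.1 b hb.1 hne h))
    simpa using this
  have := Finset.card_filter_add_card_filter_not (s := D) (fun d => d.2.val + 1 = m)
  omega

end H18Bc
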