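import Mathlib

namespace H18Blas
open Complex Metric Set Filter Topology

lemma blaschke_div {f : ℂ → ℂ} {M : ℝ} (hd : DifferentiableOn ℂ f (ball 0 1))
    (hM : ∀ z ∈ ball (0:ℂ) 1, ‖f z‖ ≤ M) {a : ℂ} (ha : a ∈ ball (0:ℂ) 1) (h0 : f a = 0) :
    ∀ z ∈ ball (0:ℂ) 1, ‖dslope f a z * (1 - (starRingEnd ℂ) a * z)‖ ≤ M := by
  intro z hz
  have hM0 : 0 ≤ M := (norm_nonneg _).trans (hM a ha)
  have ha1 : ‖a‖ < 1 := by simpa using ha
  have hz1 : ‖z‖ < 1 := by simpa using hz
  have hdd : DifferentiableOn ℂ (fun z => dslope f a z * (1 - (starRingEnd ℂ) a * z)) (ball 0 1) := by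
    apply DifferentiableOn.mul
    · exact (Complex.differentiableOn_dslope (isOpen_ball.mem_nhds ha)).2 hd
    · fun_prop
  have key : ∀ r, ‖a‖ < r → ‖z‖ < r → r < 1 →
      ‖dslope f a z * (1 - (starRingEnd ℂ) a * z)‖ ≤ M * (1 + (1 - r ^ 2) / (r - ‖a‖) ^ 2) := by
    intro r h1 h2 h3
    have hr0 : 0 < r := (norm_nonneg _).trans_lt h1
    have hsub : closure (ball (0:ℂ) r) ⊆ ball 0 1 := by
      rw [closure_ball _ hr0.ne']; exact closedBall_subset_ball h3
    refine Complex.norm_le_of_forall_mem_frontier_norm_le (U := ball 0 r)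
      (f := fun z => dslope f a z * (1 - (starRingEnd ℂ) a * z)) isBounded_ball
      ((hdd.mono hsub).diffContOnCl) ?_ (subset_closure (by simpa using h2))
    intro w hw
    rw [frontier_ball _ hr0.ne'] at hw
    have hw' : ‖w‖ = r := by simpa using hw
    have hwa : w ≠ a := by rintro rfl; linarith
    have hlow : r - ‖a‖ ≤ ‖w - a‖ := by rw [← hw']; exact norm_sub_norm_le w a
    have hpos : 0 < r - ‖a‖ := by linarith
    have hpos' : 0 < ‖w - a‖ := by linarith
    rw [dslope_of_ne _ hwa, slope_def_field, h0, sub_zero, norm_mul, norm_div]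
    have hfw := hM w (by simp; linarith)
    have hid : ‖1 - (starRingEnd ℂ) a * w‖ ^ 2 = ‖w - a‖ ^ 2 + (1 - ‖a‖ ^ 2) * (1 - ‖w‖ ^ 2) := by
      simp only [Complex.sq_norm, Complex.normSq_apply]
      simp; ring
    rw [hw'] at hid
    have ht : 0 ≤ (1 - r ^ 2) / (r - ‖a‖) ^ 2 := by
      apply div_nonneg _ (sq_nonneg _); nlinarith
    have hb : ‖1 - (starRingEnd ℂ) a * w‖ ≤ ‖w - a‖ * (1 + (1 - r ^ 2) / (r - ‖a‖) ^ 2) := by
      set t := (1 - r ^ 2) / (r - ‖a‖) ^ 2 with htd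
      have h5 : 1 - r ^ 2 = t * (r - ‖a‖) ^ 2 := by rw [htd]; field_simp
      have h6 : (r - ‖a‖) ^ 2 ≤ ‖w - a‖ ^ 2 := by gcongr
      have h7 : (1 - ‖a‖ ^ 2) * (1 - r ^ 2) ≤ t * ‖w - a‖ ^ 2 := by
        have : 0 ≤ 1 - r ^ 2 := by nlinarith
        nlinarith [sq_nonneg ‖a‖, mul_le_mul_of_nonneg_left h6 ht]
      apply le_of_sq_le_sq _ (by positivity)
      rw [hid]; nlinarith [mul_nonneg ht (sq_nonneg ‖w - a‖), mul_nonneg (mul_nonneg ht ht) (sq_nonneg ‖w - a‖)]
    calc ‖f w‖ / ‖w - a‖ * ‖1 - (starRingEnd ℂ) a * w‖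
        ≤ M / ‖w - a‖ * (‖w - a‖ * (1 + (1 - r ^ 2) / (r - ‖a‖) ^ 2)) := by gcongr
      _ = _ := by field_simp
  have hc : ContinuousAt (fun r : ℝ => M * (1 + (1 - r ^ 2) / (r - ‖a‖) ^ 2)) 1 := by
    have : (1 - ‖a‖) ^ 2 ≠ 0 := by apply pow_ne_zero; linarith
    fun_prop (disch := assumption)
  have ht : Tendsto (fun r : ℝ => M * (1 + (1 - r ^ 2) / (r - ‖a‖) ^ 2)) (𝓝[<] 1) (𝓝 M) := by
    have := hc.tendsto.mono_left (nhdsWithin_le_nhds (s := Iio 1))
    simpa using this
  refine ge_of_tendsto ht ?_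
  filter_upwards [nhdsWithin_le_nhds (lt_mem_nhds ha1), nhdsWithin_le_nhds (lt_mem_nhds hz1),
    self_mem_nhdsWithin] with r h1 h2 h3 using key r h1 h2 h3

lemma prod_bound {M : ℝ} (F : Finset ℂ) : ∀ f : ℂ → ℂ, DifferentiableOn ℂ f (ball 0 1) →
    (∀ z ∈ ball (0:ℂ) 1, ‖f z‖ ≤ M) → (∀ a ∈ F, a ∈ ball (0:ℂ) 1 ∧ f a = 0) →
    ‖f 0‖ ≤ M * ∏ a ∈ F, ‖a‖ := by
  classical
  induction F using Finset.induction_on with
  | empty => intro f _ hM _; simpa using hM 0 (by simp)
  | insert a F haF ih =>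
    intro f hd hM hz
    obtain ⟨ha, h0⟩ := hz a (by simp)
    have hM0 : 0 ≤ M := (norm_nonneg _).trans (hM a ha)
    by_cases ha0 : a = 0
    · subst ha0; rw [h0, norm_zero]; positivity
    have h1 := ih (fun z => dslope f a z * (1 - (starRingEnd ℂ) a * z))
      (DifferentiableOn.mul ((Complex.differentiableOn_dslope (isOpen_ball.mem_nhds ha)).2 hd)
        (by fun_prop)) (blaschke_div hd hM ha h0) (by
        intro b hb
        obtain ⟨hb1, hb2⟩ := hz b (by simp [hb])
        refine ⟨hb1, ?_⟩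
        have : b ≠ a := by rintro rfl; exact haF hb
        simp [dslope_of_ne _ this, slope_def_field, h0, hb2])
    simp only [mul_zero, sub_zero, mul_one] at h1
    rw [dslope_of_ne _ (Ne.symm ha0), slope_def_field, h0, sub_zero, norm_div, zero_sub, norm_neg,
      div_le_iff₀ (norm_pos_iff.2 ha0)] at h1
    rw [Finset.prod_insert haF]
    linarith

lemma summable_zeros {f : ℂ → ℂ} {M : ℝ} (hd : DifferentiableOn ℂ f (ball 0 1))
    (hM : ∀ z ∈ ball (0:ℂ) 1, ‖f z‖ ≤ M) (h0 : f 0 ≠ 0) :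
    Summable (fun z : {z : ℂ | z ∈ ball (0:ℂ) 1 ∧ f z = 0} => 1 - ‖(z : ℂ)‖) := by
  classical
  have hpos : 0 < ‖f 0‖ := norm_pos_iff.2 h0
  have hM0 : 0 ≤ M := (norm_nonneg _).trans (hM 0 (by simp))
  refine summable_of_sum_le (c := M / ‖f 0‖) ?_ ?_
  · intro z
    have : ‖(z : ℂ)‖ < 1 := by simpa using z.2.1
    simp only [Pi.zero_apply]; linarith
  intro u
  have h1 := prod_bound (M := M) (u.map (Function.Embedding.subtype _)) f hd hM (by
    intro a ha
    obtain ⟨b, -, rfl⟩ := Finset.mem_map.1 ha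
    exact b.2)
  rw [Finset.prod_map] at h1
  simp only [Function.Embedding.coe_subtype] at h1
  have h2 : ∏ a ∈ u, ‖(a : ℂ)‖ ≤ ∏ a ∈ u, Real.exp (-(1 - ‖(a : ℂ)‖)) := by
    apply Finset.prod_le_prod (fun _ _ => norm_nonneg _)
    intro a _
    have := Real.add_one_le_exp (-(1 - ‖(a : ℂ)‖)); linarith
  rw [← Real.exp_sum, Finset.sum_neg_distrib] at h2
  set T := ∑ a ∈ u, (1 - ‖(a : ℂ)‖)
  have h3 : ‖f 0‖ ≤ M * Real.exp (-T) := h1.trans (by gcongr)
  have h4 : T ≤ Real.exp T := by have := Real.add_one_le_exp T; linarith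
  rw [le_div_iff₀ hpos]
  have h5 : Real.exp T * Real.exp (-T) = 1 := by rw [← Real.exp_add]; simp
  have h6 := Real.exp_pos T
  nlinarith [mul_le_mul_of_nonneg_left h3 h6.le]

lemma HP {h : ℂ → ℂ} (hd : DifferentiableOn ℂ h {s | 0 < s.re}) (b : ℝ → ℝ)
    (hb : Tendsto b (𝓝[>] 0) (𝓝 1))
    (ha : ∀ᶠ ε in 𝓝[>] (0:ℝ), ∀ s : ℂ, s.re = ε → ‖h s‖ ≤ b ε) (C : ℝ) (hC : 0 ≤ C)
    (hfar : ∀ R : ℝ, ∃ Y ≥ R, ∀ s : ℂ, 0 < s.re →
      ((|s.im| = Y ∧ s.re ≤ Y) ∨ (s.re = Y ∧ |s.im| ≤ Y)) → ‖h s‖ ≤ C * ‖s + 1‖) :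
    ∀ s : ℂ, 0 < s.re → ‖h s‖ ≤ 1 := by
  intro s hs
  have key : ∀ δ : ℝ, 0 < δ → δ ≤ 1 → ‖h s‖ ≤ ‖1 + δ * s‖ ^ 2 := by
    intro δ hδ hδ1
    have hlow : ∀ w : ℂ, 0 < w.re → 1 ≤ ‖1 + δ * w‖ ∧ δ * ‖w + 1‖ ≤ ‖1 + δ * w‖ := by
      intro w hw
      constructor
      · refine le_trans ?_ (Complex.re_le_norm _)
        simp; positivity
      · apply le_of_sq_le_sq _ (norm_nonneg _)
        rw [mul_pow]
        simp only [Complex.sq_norm, Complex.normSq_apply]
        simp
        have : δ * δ ≤ δ := by nlinarith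
        nlinarith [mul_le_mul_of_nonneg_right this hw.le]
    have step : ∀ᶠ ε in 𝓝[>] (0:ℝ), ‖h s‖ ≤ max (b ε) 1 * ‖1 + δ * s‖ ^ 2 := by
      filter_upwards [ha, self_mem_nhdsWithin, nhdsWithin_le_nhds (gt_mem_nhds hs)] with ε h1 h2 h3
      have h2 : 0 < ε := h2
      obtain ⟨Y, hY, hY2⟩ := hfar (max (‖s‖ + 1) (C / δ ^ 2))
      have hY3 : ‖s‖ + 1 ≤ Y := (le_max_left _ _).trans hY
      have hY4 : C / δ ^ 2 ≤ Y := (le_max_right _ _).trans hY
      set U : Set ℂ := {w | ε < w.re ∧ w.re < Y ∧ |w.im| < Y} with hU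
      have hUo : IsOpen U := by
        apply IsOpen.and (isOpen_lt (by fun_prop) (by fun_prop))
        exact IsOpen.and (isOpen_lt (by fun_prop) (by fun_prop)) (isOpen_lt (by fun_prop) (by fun_prop))
      have hcl : closure U ⊆ {w | ε ≤ w.re ∧ w.re ≤ Y ∧ |w.im| ≤ Y} := by
        apply closure_minimal
        · rintro w ⟨a1, a2, a3⟩; exact ⟨a1.le, a2.le, a3.le⟩
        · apply IsClosed.and (isClosed_le (by fun_prop) (by fun_prop))
          exact IsClosed.and (isClosed_le (by fun_prop) (by fun_prop))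
            (isClosed_le (by fun_prop) (by fun_prop))
      have hcl2 : closure U ⊆ {s | 0 < s.re} := fun w hw => h2.trans_le (hcl hw).1
      have hbd : Bornology.IsBounded U := by
        refine (isBounded_closedBall (x := (0:ℂ)) (r := 2 * Y)).subset ?_
        rintro w ⟨a1, a2, a3⟩
        have := Complex.norm_le_abs_re_add_abs_im w
        rw [abs_of_pos (h2.trans a1)] at this
        simp; linarith
      have hdd : DifferentiableOn ℂ (fun w => h w / (1 + δ * w) ^ 2) {s | 0 < s.re} := by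
        apply hd.div (by fun_prop)
        intro w hw
        apply pow_ne_zero
        have := (hlow w hw).1
        intro h0; rw [h0] at this; simp at this; linarith
      have hsU : s ∈ U := by
        refine ⟨h3, ?_, ?_⟩
        · have := Complex.re_le_norm s; linarith
        · have := Complex.abs_im_le_norm s; linarith
      have hmax := Complex.norm_le_of_forall_mem_frontier_norm_le (C := max (b ε) 1) hbd
        ((hdd.mono hcl2).diffContOnCl) (by
          intro w hw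
          rw [hUo.frontier_eq] at hw
          obtain ⟨hw1, hw2⟩ := hw
          obtain ⟨a1, a2, a3⟩ := hcl hw1
          have hw0 : 0 < w.re := hcl2 hw1
          obtain ⟨l1, l2⟩ := hlow w hw0
          rw [norm_div, norm_pow, div_le_iff₀ (by positivity)]
          by_cases c1 : w.re = ε
          · have := h1 w c1
            have h8 : (1:ℝ) ≤ ‖1 + δ * w‖ ^ 2 := one_le_pow₀ l1
            have h9 : b ε ≤ max (b ε) 1 := le_max_left _ _
            have h10 : (1:ℝ) ≤ max (b ε) 1 := le_max_right _ _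
            nlinarith
          · have hfa : (|w.im| = Y ∧ w.re ≤ Y) ∨ (w.re = Y ∧ |w.im| ≤ Y) := by
              by_contra hcon
              push Not at hcon
              apply hw2
              refine ⟨lt_of_le_of_ne a1 (Ne.symm c1), lt_of_le_of_ne a2 ?_, lt_of_le_of_ne a3 ?_⟩
              · intro e; have := hcon.2 e; linarith
              · intro e; have := hcon.1 e; linarith
            have h5 := hY2 w hw0 hfa
            have h6 : Y ≤ ‖w + 1‖ := by
              rcases hfa with ⟨e, -⟩ | ⟨e, -⟩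
              · have := Complex.abs_im_le_norm (w + 1); simp at this; linarith
              · have := Complex.re_le_norm (w + 1); simp at this; linarith
            have h7 : C ≤ δ ^ 2 * ‖w + 1‖ := by
              rw [div_le_iff₀ (by positivity)] at hY4
              nlinarith [sq_nonneg δ]
            have h8 : (δ * ‖w + 1‖) ^ 2 ≤ ‖1 + δ * w‖ ^ 2 := by gcongr
            have h10 : (1:ℝ) ≤ max (b ε) 1 := le_max_right _ _
            have h11 : C * ‖w + 1‖ ≤ δ ^ 2 * ‖w + 1‖ * ‖w + 1‖ := by gcongr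
            nlinarith [sq_nonneg ‖1 + δ * w‖]) (subset_closure hsU)
      have l1 := (hlow s hs).1
      rwa [norm_div, norm_pow, div_le_iff₀ (by positivity)] at hmax
    have ht : Tendsto (fun ε => max (b ε) 1 * ‖1 + δ * s‖ ^ 2) (𝓝[>] 0)
        (𝓝 (max 1 1 * ‖1 + δ * s‖ ^ 2)) := (hb.max tendsto_const_nhds).mul tendsto_const_nhds
    have := ge_of_tendsto ht step
    simpa using this
  have hc : Continuous (fun δ : ℝ => ‖1 + δ * s‖ ^ 2) := by fun_prop
  have ht : Tendsto (fun δ : ℝ => ‖1 + δ * s‖ ^ 2) (𝓝[>] 0) (𝓝 1) := by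
    have := (hc.tendsto 0).mono_left (nhdsWithin_le_nhds (s := Ioi 0))
    simpa using this
  refine ge_of_tendsto ht ?_
  filter_upwards [self_mem_nhdsWithin, nhdsWithin_le_nhds (gt_mem_nhds (zero_lt_one' ℝ))]
    with δ h1 h2 using key δ h1 h2.le

lemma quot {U : Set ℂ} (hU : IsOpen U) {p N : ℂ → ℂ} (hp : DifferentiableOn ℂ p U)
    (hN : DifferentiableOn ℂ N U) (hz : ∀ s ∈ U, N s = 0 → p s = 0 ∧ deriv N s ≠ 0) :
    ∃ k : ℂ → ℂ, DifferentiableOn ℂ k U ∧ ∀ s ∈ U, p s = k s * N s := by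
  classical
  refine ⟨fun s => if N s = 0 then deriv p s / deriv N s else p s / N s, ?_, ?_⟩
  · intro s hs
    apply DifferentiableAt.differentiableWithinAt
    have hUs := hU.mem_nhds hs
    by_cases h0 : N s = 0
    · obtain ⟨hp0, hdN⟩ := hz s hs h0
      have d1 := ((Complex.differentiableOn_dslope hUs).2 hp).differentiableAt hUs
      have d2 := ((Complex.differentiableOn_dslope hUs).2 hN).differentiableAt hUs
      have hne : dslope N s s ≠ 0 := by rwa [dslope_same]
      have hev := d2.continuousAt.eventually_ne hne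
      refine (d1.div d2 hne).congr_of_eventuallyEq ?_
      filter_upwards [hev] with w hw
      by_cases e : w = s
      · subst e; simp [h0, dslope_same]
      · have hws : w - s ≠ 0 := sub_ne_zero.2 e
        rw [dslope_of_ne _ e, slope_def_field, h0, sub_zero] at hw
        have hNw : N w ≠ 0 := by intro h; simp [h] at hw
        simp only [hNw, if_false, Pi.div_apply, dslope_of_ne _ e, slope_def_field, h0, hp0, sub_zero]
        field_simp
    · have d1 := hp.differentiableAt hUs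
      have d2 := hN.differentiableAt hUs
      refine (d1.div d2 h0).congr_of_eventuallyEq ?_
      filter_upwards [d2.continuousAt.eventually_ne h0] with w hw
      simp [hw]
  · intro s hs
    by_cases h0 : N s = 0
    · simp [h0, (hz s hs h0).1]
    · simp only [h0, if_false]; field_simp

end H18Blas
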