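import Pool.Agent.Lib.helper18.Blas

namespace H18Blas
open Complex Metric Set Filter Topology

lemma hconv : Convex ℝ {s : ℂ | 0 < s.re} := convex_halfSpace_re_gt 0

lemma hopen : IsOpen {s : ℂ | 0 < s.re} := isOpen_lt (by fun_prop) (by fun_prop)

lemma finish {h : ℂ → ℂ} (hd : DifferentiableOn ℂ h {s | 0 < s.re})
    (hle : ∀ s : ℂ, 0 < s.re → ‖h s‖ ≤ 1) (h1 : h 1 = 1) : ∀ s : ℂ, 0 < s.re → h s = 1 := by
  intro s hs
  have := Complex.eqOn_of_isPreconnected_of_isMaxOn_norm (c := 1) hconv.isPreconnected hopen hd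
    (by simp) (by
      intro w hw
      simp only [Function.comp, mem_setOf_eq, h1, norm_one]
      exact hle w hw) hs
  simpa [h1] using this

lemma norm_add_one {s : ℂ} (hs : 0 < s.re) : 1 ≤ ‖s + 1‖ ∧ ‖s - 1‖ ≤ ‖s + 1‖ := by
  constructor
  · have := Complex.re_le_norm (s + 1); simp at this; linarith
  · apply le_of_sq_le_sq _ (norm_nonneg _)
    simp only [Complex.sq_norm, Complex.normSq_apply]
    simp; nlinarith

lemma dn_id (s g : ℂ) : ‖s + 1 - 1 / 4 * g‖ ^ 2 - ‖(s - 1) * g + 1 / 4‖ ^ 2 =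
    4 * s.re - s.re * g.re + (1 - ‖g‖ ^ 2) * (‖s - 1‖ ^ 2 - 1 / 16) := by
  simp only [Complex.sq_norm, Complex.normSq_apply]
  simp; ring

lemma d_low {s g : ℂ} (hs : 0 < s.re) (hg : ‖g‖ ≤ 1) :
    3 / 4 * ‖s + 1‖ ≤ ‖s + 1 - 1 / 4 * g‖ ∧ ‖s + 1 - 1 / 4 * g‖ ≤ 5 / 4 * ‖s + 1‖ := by
  have h1 := (norm_add_one hs).1
  have h2 := norm_sub_norm_le (s + 1) (1 / 4 * g)
  have h3 := norm_sub_le (s + 1) (1 / 4 * g)
  have h4 : ‖1 / 4 * g‖ = 1 / 4 * ‖g‖ := by simp
  constructor <;> linarith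

lemma n_le_d {s g : ℂ} (hs : 0 < s.re) (hg : ‖g‖ ≤ 1) :
    ‖(s - 1) * g + 1 / 4‖ ≤ ‖s + 1 - 1 / 4 * g‖ := by
  apply le_of_sq_le_sq _ (norm_nonneg _)
  have h := dn_id s g
  have h1 : g.re ≤ 1 := (Complex.re_le_norm g).trans hg
  have h2 : 0 ≤ 1 - ‖g‖ ^ 2 := by nlinarith [norm_nonneg g]
  have h3 : s.re * g.re ≤ s.re := by nlinarith
  by_cases c : 1 / 2 ≤ s.re
  · nlinarith [mul_nonneg h2 (sq_nonneg ‖s - 1‖), sq_nonneg ‖g‖]
  · have h4 : 1 / 2 ≤ ‖s - 1‖ := by
      have := Complex.abs_re_le_norm (s - 1)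
      have h5 := neg_abs_le (s - 1).re
      simp at this h5; linarith
    have : 0 ≤ ‖s - 1‖ ^ 2 - 1 / 16 := by nlinarith
    nlinarith [mul_nonneg h2 this]

lemma norm_exp_neg {s : ℂ} (hs : 0 < s.re) : ‖cexp (-s)‖ ≤ 1 := by
  rw [Complex.norm_exp]; simp; linarith

lemma far (R : ℝ) : ∃ Y ≥ R, ∀ s : ℂ, 0 < s.re →
    ((|s.im| = Y ∧ s.re ≤ Y) ∨ (s.re = Y ∧ |s.im| ≤ Y)) →
    1 / 8 ≤ ‖(s - 1) * cexp (-s) + 1 / 4‖ := by
  obtain ⟨n, hn⟩ := exists_nat_ge (max R 50)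
  have hpi := Real.pi_gt_three
  have hn1 : R ≤ n := (le_max_left _ _).trans hn
  have hn2 : (50:ℝ) ≤ n := (le_max_right _ _).trans hn
  set Y : ℝ := Real.pi / 2 + n * (2 * Real.pi) with hY
  have hYn : n ≤ Y := by nlinarith
  have hcos : Real.cos Y = 0 := by rw [hY, Real.cos_add_nat_mul_two_pi]; simp
  have hsin : Real.sin Y = 1 := by rw [hY, Real.sin_add_nat_mul_two_pi]; simp
  refine ⟨Y, by linarith, ?_⟩
  intro s hs hc
  rcases hc with ⟨e, -⟩ | ⟨e, e2⟩
  · refine le_trans ?_ (Complex.re_le_norm _)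
    have hE := Real.exp_pos (-s.re)
    rcases abs_eq (by linarith : 0 ≤ Y) |>.1 e with e | e
    · simp [Complex.exp_re, Complex.exp_im, e, hcos, hsin]
      have : 0 ≤ Y * Real.exp (-s.re) := by positivity
      linarith
    · simp [Complex.exp_re, Complex.exp_im, e, hcos, hsin]
      have : 0 ≤ Y * Real.exp (-s.re) := by positivity
      linarith
  · have h1 : ‖(s - 1) * cexp (-s)‖ ≤ 1 / 8 := by
      rw [norm_mul, Complex.norm_exp]
      have h2 : ‖s - 1‖ ≤ 2 * Y + 1 := by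
        have := Complex.norm_le_abs_re_add_abs_im s
        rw [abs_of_pos hs] at this
        have h3 := norm_sub_le s 1
        simp at h3; linarith
      have h3 := Real.quadratic_le_exp_of_nonneg (by linarith : 0 ≤ Y)
      simp only [neg_re, e]
      rw [Real.exp_neg, ← div_eq_mul_inv, div_le_iff₀ (Real.exp_pos _)]
      nlinarith
    have h2 := norm_sub_norm_le (1 / 4 : ℂ) (-((s - 1) * cexp (-s)))
    have h3 : ‖(1 / 4 : ℂ)‖ = 1 / 4 := by simp
    rw [norm_neg, h3] at h2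
    have h4 : (1 / 4 : ℂ) - -((s - 1) * cexp (-s)) = (s - 1) * cexp (-s) + 1 / 4 := by ring
    rw [h4] at h2; linarith

lemma uniq_lambert {g : ℂ → ℂ} (hd : DifferentiableOn ℂ g {s | 0 < s.re})
    (hg : ∀ s : ℂ, 0 < s.re → ‖g s‖ ≤ 1)
    (hz : ∀ s : ℂ, 0 < s.re → (s - 1) * cexp (-s) + 1 / 4 = 0 → g s = cexp (-s))
    (h1 : g 1 = cexp (-1)) : ∀ s : ℂ, 0 < s.re → g s = cexp (-s) := by
  have hpd : DifferentiableOn ℂ (fun s => g s - cexp (-s)) {s | 0 < s.re} :=
    hd.sub (by fun_prop)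
  obtain ⟨k, hk, hk2⟩ := quot hopen (N := fun s => (s - 1) * cexp (-s) + 1 / 4) hpd (by fun_prop) (by
    intro s hs h0
    refine ⟨by rw [hz s hs h0, sub_self], ?_⟩
    have hder : HasDerivAt (fun s => (s - 1) * cexp (-s) + 1 / 4) ((2 - s) * cexp (-s)) s := by
      have := (((hasDerivAt_id s).sub_const 1).mul (hasDerivAt_neg s).cexp).add_const (1 / 4)
      refine HasDerivAt.congr_deriv this ?_
      simp; ring
    rw [hder.deriv]
    apply mul_ne_zero _ (Complex.exp_ne_zero _)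
    intro e
    have e2 : s = 2 := by linear_combination -e
    subst e2
    have := congrArg Complex.re h0
    norm_num [Complex.exp_re] at this
    have := Real.exp_pos (-2); linarith)
  have hD : ∀ s : ℂ, 0 < s.re → s + 1 - 1 / 4 * g s ≠ 0 := by
    intro s hs h0
    have := (d_low hs (hg s hs)).1
    have h2 := (norm_add_one hs).1
    rw [h0, norm_zero] at this; linarith
  set h : ℂ → ℂ := fun s => 1 + k s * (s ^ 2 - 15 / 16) / (s + 1 - 1 / 4 * g s) with hh
  have hhd : DifferentiableOn ℂ h {s | 0 < s.re} := by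
    apply DifferentiableOn.const_add
    exact (hk.mul (by fun_prop)).div ((by fun_prop : DifferentiableOn ℂ (fun s : ℂ => s + 1) _).sub
      (hd.const_mul _)) hD
  have hb : ∀ s : ℂ, 0 < s.re →
      ‖h s‖ * ‖(s - 1) * cexp (-s) + 1 / 4‖ ≤ ‖s + 1 - 1 / 4 * cexp (-s)‖ := by
    intro s hs
    have e := hk2 s hs
    have hDs := hD s hs
    have e2 : h s * ((s - 1) * cexp (-s) + 1 / 4) * (s + 1 - 1 / 4 * g s) =
        ((s - 1) * g s + 1 / 4) * (s + 1 - 1 / 4 * cexp (-s)) := by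
      have e3 : h s * (s + 1 - 1 / 4 * g s) = (s + 1 - 1 / 4 * g s) + k s * (s ^ 2 - 15 / 16) := by
        simp only [hh]; rw [add_mul, div_mul_cancel₀ _ hDs, one_mul]
      linear_combination ((s - 1) * cexp (-s) + 1 / 4) * e3 - (s ^ 2 - 15 / 16) * e
    have e4 := congrArg norm e2
    rw [norm_mul, norm_mul, norm_mul] at e4
    have h5 := n_le_d hs (hg s hs)
    have h6 := norm_pos_iff.2 hDs
    apply le_of_mul_le_mul_right _ h6
    rw [e4, mul_comm]; gcongr
  have hle := HP hhd (fun ε => 1 + 32 * ε) (by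
      have hc : Continuous (fun ε : ℝ => 1 + 32 * ε) := by fun_prop
      simpa using (hc.tendsto 0).mono_left (nhdsWithin_le_nhds (s := Ioi 0))) (by
      filter_upwards [self_mem_nhdsWithin,
        nhdsWithin_le_nhds (gt_mem_nhds (by norm_num : (0:ℝ) < 1 / 32))] with ε h0 h2 s hs
      have h0 : 0 < ε := h0
      have hs0 : 0 < s.re := hs ▸ h0
      have a1 := hb s hs0
      have a2 := dn_id s (cexp (-s))
      have a3 := d_low hs0 (norm_exp_neg hs0)
      have a4 := norm_add_one hs0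
      have a5 : 1 - 2 * ε ≤ ‖cexp (-s)‖ ^ 2 := by
        rw [Complex.norm_exp, ← Real.exp_nat_mul]
        have := Real.add_one_le_exp (((2:ℕ):ℝ) * (-s).re)
        simp [hs] at this ⊢; linarith
      have a6 : -1 ≤ (cexp (-s)).re := by
        have := Complex.abs_re_le_norm (cexp (-s))
        have h3 := neg_abs_le (cexp (-s)).re
        have := norm_exp_neg hs0; linarith
      have a7 : 0 ≤ 1 - ‖cexp (-s)‖ ^ 2 := by
        nlinarith [norm_exp_neg hs0, norm_nonneg (cexp (-s))]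
      set D := ‖s + 1 - 1 / 4 * cexp (-s)‖
      set N := ‖(s - 1) * cexp (-s) + 1 / 4‖
      have hN : 0 ≤ N := norm_nonneg _
      have b1 : ‖s - 1‖ ^ 2 ≤ ‖s + 1‖ ^ 2 := by gcongr; exact a4.2
      have b2 : 9 / 16 * ‖s + 1‖ ^ 2 ≤ D ^ 2 := by nlinarith [a3.1, a4.1]
      have b3 : 1 ≤ ‖s + 1‖ ^ 2 := by nlinarith [a4.1]
      have b4 : (1 - ‖cexp (-s)‖ ^ 2) * (‖s - 1‖ ^ 2 - 1 / 16) ≤ 2 * ε * ‖s + 1‖ ^ 2 := by
        nlinarith [mul_le_mul_of_nonneg_left b1 a7]
      have b5 : D ^ 2 - N ^ 2 ≤ 7 * ε * ‖s + 1‖ ^ 2 := by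
        rw [a2, hs]; nlinarith
      have b6 : (1 - 16 * ε) * D ^ 2 ≤ N ^ 2 := by nlinarith
      have hDp : 0 < D := by linarith [a3.1, a4.1]
      have b7 : (‖h s‖ * N) ^ 2 ≤ D ^ 2 := by gcongr
      have b8 : ‖h s‖ ^ 2 * (1 - 16 * ε) ≤ 1 := by
        apply le_of_mul_le_mul_right _ (pow_pos hDp 2)
        nlinarith [mul_le_mul_of_nonneg_left b6 (sq_nonneg ‖h s‖)]
      by_contra hcon
      push Not at hcon
      have b9 : (1 + 32 * ε) ^ 2 < ‖h s‖ ^ 2 := by gcongr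
      nlinarith [mul_pos h0 h0]) 10 (by norm_num) (by
      intro R
      obtain ⟨Y, hY, hY2⟩ := far R
      refine ⟨Y, hY, fun s hs hc => ?_⟩
      have a1 := hb s hs
      have a2 := hY2 s hs hc
      have a3 := (d_low hs (norm_exp_neg hs)).2
      nlinarith [norm_nonneg (h s)])
  have hk1 : k 1 = 0 := by
    have := hk2 1 (by simp)
    simp [h1] at this; exact this
  have hone := finish hhd hle (by simp [hh, hk1])
  have han := hpd.analyticOnNhd hopen
  have := han.eqOn_zero_of_preconnected_of_eventuallyEq_zero hconv.isPreconnected (z₀ := 1) (by simp) (by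
    have hc : ContinuousAt (fun s : ℂ => s ^ 2 - 15 / 16) 1 := by fun_prop
    filter_upwards [hopen.mem_nhds (show (1:ℂ) ∈ {s : ℂ | 0 < s.re} by simp),
      hc.eventually_ne (y := 0) (by norm_num)] with s hs hne
    have e := hone s hs
    simp only [hh] at e
    have e2 : k s * (s ^ 2 - 15 / 16) / (s + 1 - 1 / 4 * g s) = 0 := by linear_combination e
    have e3 : k s = 0 := by
      rcases div_eq_zero_iff.1 e2 with e | e
      · exact (mul_eq_zero.1 e).resolve_right hne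
      · exact absurd e (hD s hs)
    have := hk2 s hs
    simpa [e3] using this)
  intro s hs
  exact sub_eq_zero.1 (this hs)

end H18Blas
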