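import Mathlib

namespace H18Blas
open Complex Metric Set

/-- `g` is bounded and analytic on the open unit disc. -/
def Hinf (g : ℂ → ℂ) : Prop :=
  DifferentiableOn ℂ g (ball 0 1) ∧ ∃ M : ℝ, ∀ z ∈ ball (0 : ℂ) 1, ‖g z‖ ≤ M

/-- the supremum norm over the open unit disc -/
noncomputable def supN (g : ℂ → ℂ) : ℝ := sSup ((fun z => ‖g z‖) '' ball 0 1)

/-- Blaschke sequence of distinct points of the disc -/
def BSeq (z : ℕ → ℂ) : Prop :=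
  (∀ n, z n ∈ ball (0 : ℂ) 1) ∧ Function.Injective z ∧ Summable fun n => 1 - ‖z n‖

/-- `g` is a minimal-norm interpolant of `f` on the nodes `z`. -/
def MinInterp (f : ℂ → ℂ) (z : ℕ → ℂ) (g : ℂ → ℂ) : Prop :=
  Hinf g ∧ (∀ n, g (z n) = f (z n)) ∧
    ∀ g', Hinf g' → (∀ n, g' (z n) = f (z n)) → supN g ≤ supN g'

/-- `B` agrees on the disc with a (finite or infinite) Blaschke product. -/
def IsBlaschke (B : ℂ → ℂ) : Prop :=
  ∃ (θ : ℝ) (k : ℕ) (J : Set ℕ) (a : ℕ → ℂ), (∀ j ∈ J, a j ∈ ball (0 : ℂ) 1 ∧ a j ≠ 0) ∧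
    Summable (fun j : J => 1 - ‖a j‖) ∧
    ∀ w ∈ ball (0 : ℂ) 1, B w = cexp (θ * I) * w ^ k *
      ∏' j : J, ((‖a j‖ : ℂ) / a j * ((a j - w) / (1 - (starRingEnd ℂ) (a j) * w)))

end H18Blas
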