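import Pool.Agent.Lib.helper18.Blas2
import Pool.Agent.Lib.helper18.BlasDefs

namespace H18Blas
open Complex Metric Set Filter Topology

noncomputable def phi (z : ℂ) : ℂ := (1 + z) / (1 - z)
noncomputable def psi (s : ℂ) : ℂ := (s - 1) / (s + 1)
noncomputable def Sf (z : ℂ) : ℂ := cexp (-phi z)

lemma one_sub_ne {z : ℂ} (hz : z ∈ ball (0:ℂ) 1) : 1 - z ≠ 0 := by
  intro h
  have : z = 1 := by linear_combination -h
  subst this; simp at hz

lemma add_one_ne {s : ℂ} (hs : 0 < s.re) : s + 1 ≠ 0 := by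
  intro h; have := (norm_add_one hs).1; rw [h] at this; simp at this; linarith

lemma phi_re (z : ℂ) : (phi z).re = (1 - ‖z‖ ^ 2) / ‖1 - z‖ ^ 2 := by
  simp only [phi, Complex.div_re, Complex.sq_norm, Complex.normSq_apply]
  simp; ring

lemma phi_pos {z : ℂ} (hz : z ∈ ball (0:ℂ) 1) : 0 < (phi z).re := by
  rw [phi_re]
  have h1 : ‖z‖ < 1 := by simpa using hz
  have h2 := norm_pos_iff.2 (one_sub_ne hz)
  apply div_pos _ (by positivity)
  nlinarith [norm_nonneg z]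

lemma psi_phi {z : ℂ} (hz : z ∈ ball (0:ℂ) 1) : psi (phi z) = z := by
  have h1 := one_sub_ne hz
  have h2 := add_one_ne (phi_pos hz)
  rw [psi, div_eq_iff h2]
  simp only [phi]; field_simp; ring

lemma phi_psi {s : ℂ} (hs : 0 < s.re) : phi (psi s) = s := by
  have h1 := add_one_ne hs
  have h2 : 1 - psi s = 2 / (s + 1) := by simp only [psi]; field_simp; ring
  rw [phi, h2]; simp only [psi]; field_simp; ring

lemma psi_sq {s : ℂ} (hs : 0 < s.re) : 1 - ‖psi s‖ ^ 2 = 4 * s.re / ‖s + 1‖ ^ 2 := by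
  have h1 := norm_pos_iff.2 (add_one_ne hs)
  rw [psi, norm_div, div_pow]
  field_simp
  simp only [Complex.sq_norm, Complex.normSq_apply]
  simp; ring

lemma psi_mem {s : ℂ} (hs : 0 < s.re) : psi s ∈ ball (0:ℂ) 1 := by
  have h1 := norm_pos_iff.2 (add_one_ne hs)
  have h2 := psi_sq hs
  have h3 : 0 < 4 * s.re / ‖s + 1‖ ^ 2 := by positivity
  simp only [mem_ball, dist_zero_right]
  nlinarith [norm_nonneg (psi s)]

lemma comp_psi {g : ℂ → ℂ} (hd : DifferentiableOn ℂ g (ball 0 1)) :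
    DifferentiableOn ℂ (fun s => g (psi s)) {s | 0 < s.re} := by
  apply hd.comp (f := psi) _ (fun s hs => psi_mem hs)
  exact DifferentiableOn.div (by fun_prop) (by fun_prop) (fun s hs => add_one_ne hs)

lemma Sf_diff : DifferentiableOn ℂ Sf (ball 0 1) := by
  apply DifferentiableOn.cexp
  apply DifferentiableOn.neg
  exact DifferentiableOn.div (by fun_prop) (by fun_prop) (fun s hs => one_sub_ne hs)

lemma Sf_le {z : ℂ} (hz : z ∈ ball (0:ℂ) 1) : ‖Sf z‖ ≤ 1 := norm_exp_neg (phi_pos hz)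

lemma Sf_hinf : Hinf Sf := ⟨Sf_diff, 1, fun _ hz => Sf_le hz⟩

lemma le_supN {g : ℂ → ℂ} (hg : Hinf g) {z : ℂ} (hz : z ∈ ball (0:ℂ) 1) : ‖g z‖ ≤ supN g := by
  obtain ⟨M, hM⟩ := hg.2
  exact le_csSup ⟨M, by rintro _ ⟨w, hw, rfl⟩; exact hM w hw⟩ ⟨z, hz, rfl⟩

lemma supN_Sf : supN Sf ≤ 1 :=
  csSup_le ⟨_, 0, by simp, rfl⟩ (by rintro _ ⟨w, hw, rfl⟩; exact Sf_le hw)

lemma wrap (z : ℕ → ℂ) (hu : ∀ g : ℂ → ℂ, DifferentiableOn ℂ g (ball 0 1) →
    (∀ w ∈ ball (0:ℂ) 1, ‖g w‖ ≤ 1) → (∀ n, g (z n) = Sf (z n)) → EqOn g Sf (ball 0 1)) :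
    MinInterp Sf z Sf ∧ (∀ g', MinInterp Sf z g' → EqOn g' Sf (ball 0 1)) ∧
      ¬ ∃ (c : ℂ) (B : ℂ → ℂ), IsBlaschke B ∧ ∀ w ∈ ball (0 : ℂ) 1, Sf w = c * B w := by
  have h1 : ∀ g', Hinf g' → (∀ n, g' (z n) = Sf (z n)) → supN g' ≤ supN Sf →
      EqOn g' Sf (ball 0 1) := fun g' hg hi hle =>
    hu g' hg.1 (fun w hw => ((le_supN hg hw).trans hle).trans supN_Sf) hi
  refine ⟨⟨Sf_hinf, fun _ => rfl, fun g' hg hi => ?_⟩, fun g' hg => ?_, ?_⟩
  · by_contra hlt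
    push Not at hlt
    have := h1 g' hg hi hlt.le
    have e : supN g' = supN Sf := by
      unfold supN; congr 1; exact image_congr fun w hw => by rw [this hw]
    linarith
  · exact h1 g' hg.1 hg.2.1 (hg.2.2 Sf Sf_hinf fun _ => rfl)
  · rintro ⟨c, B, ⟨θ, k, J, a, ha, -, hB⟩, hc⟩
    have hne : ∀ w, Sf w ≠ 0 := fun w => Complex.exp_ne_zero _
    have hJ : IsEmpty J := by
      constructor
      intro j
      have hj := (ha j j.2).1
      apply hne (a j)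
      rw [hc _ hj, hB _ hj, tprod_of_exists_eq_zero ⟨j, by simp⟩]; simp
    have hk : k = 0 := by
      by_contra hk
      apply hne 0
      rw [hc 0 (by simp), hB 0 (by simp), zero_pow hk]; simp
    have e0 := hc 0 (by simp)
    have e1 := hc (1 / 2) (by norm_num)
    rw [hB _ (by simp)] at e0
    rw [hB _ (by norm_num)] at e1
    simp only [hk, pow_zero, tprod_empty] at e0 e1
    have e2 : ‖Sf 0‖ = ‖Sf (1 / 2)‖ := by rw [e0, e1]
    simp only [Sf, Complex.norm_exp, phi] at e2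
    have := Real.exp_injective e2
    norm_num at this

end H18Blas
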