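import Pool.Agent.Lib.helper18.Blas3

namespace H18Blas
open Complex Metric Set Filter Topology

noncomputable def fac (a w : ℂ) : ℂ := (‖a‖ : ℂ) / a * ((a - w) / (1 - (starRingEnd ℂ) a * w))

lemma den_low {a w : ℂ} (ha : a ∈ ball (0:ℂ) 1) : 1 - ‖w‖ ≤ ‖1 - (starRingEnd ℂ) a * w‖ := by
  have ha1 : ‖a‖ < 1 := by simpa using ha
  have := norm_sub_norm_le 1 ((starRingEnd ℂ) a * w)
  rw [norm_mul, Complex.norm_conj, norm_one] at this
  nlinarith [norm_nonneg w]

lemma den_ne {a w : ℂ} (ha : a ∈ ball (0:ℂ) 1) (hw : w ∈ ball (0:ℂ) 1) :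
    1 - (starRingEnd ℂ) a * w ≠ 0 := by
  have hw1 : ‖w‖ < 1 := by simpa using hw
  have := den_low (w := w) ha
  intro h; rw [h, norm_zero] at this; linarith

lemma norm_fac {a : ℂ} (h0 : a ≠ 0) (w : ℂ) :
    ‖fac a w‖ = ‖(w - a) / (1 - (starRingEnd ℂ) a * w)‖ := by
  have := norm_pos_iff.2 h0
  rw [fac, norm_mul, norm_div, norm_div, norm_div, norm_sub_rev a w, Complex.norm_real, norm_norm,
    div_self this.ne', one_mul]

lemma rho_le {a w : ℂ} (ha : a ∈ ball (0:ℂ) 1) (hw : w ∈ ball (0:ℂ) 1) :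
    ‖(w - a) / (1 - (starRingEnd ℂ) a * w)‖ ≤ 1 := by
  have ha1 : ‖a‖ < 1 := by simpa using ha
  have hw1 : ‖w‖ < 1 := by simpa using hw
  rw [norm_div, div_le_one (norm_pos_iff.2 (den_ne ha hw))]
  apply le_of_sq_le_sq _ (norm_nonneg _)
  have hid : ‖1 - (starRingEnd ℂ) a * w‖ ^ 2 = ‖w - a‖ ^ 2 + (1 - ‖a‖ ^ 2) * (1 - ‖w‖ ^ 2) := by
    simp only [Complex.sq_norm, Complex.normSq_apply]
    simp; ring
  have h1 : 0 ≤ 1 - ‖a‖ ^ 2 := by nlinarith [norm_nonneg a]
  have h2 : 0 ≤ 1 - ‖w‖ ^ 2 := by nlinarith [norm_nonneg w]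
  nlinarith [mul_nonneg h1 h2]

lemma fac_sub {a w : ℂ} (ha : a ∈ ball (0:ℂ) 1) (h0 : a ≠ 0) (hw : w ∈ ball (0:ℂ) 1) :
    ‖fac a w - 1‖ ≤ (1 - ‖a‖) * (2 / (1 - ‖w‖)) := by
  have ha1 : ‖a‖ < 1 := by simpa using ha
  have hw1 : ‖w‖ < 1 := by simpa using hw
  have hd := den_ne ha hw
  have hap := norm_pos_iff.2 h0
  have hm : a * (starRingEnd ℂ) a = (‖a‖ : ℂ) ^ 2 := by
    rw [Complex.mul_conj, Complex.normSq_eq_norm_sq]; push_cast; rfl
  have e : fac a w - 1 = -(((1 - ‖a‖ : ℝ) : ℂ) * ((a + ‖a‖ * w) / a) / (1 - (starRingEnd ℂ) a * w)) := by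
    have hd' : 1 - w * (starRingEnd ℂ) a ≠ 0 := by rwa [mul_comm] at hd
    rw [fac]; field_simp; push_cast; linear_combination w * hm
  rw [e, norm_neg, norm_div, norm_mul, Complex.norm_real, Real.norm_of_nonneg (by linarith),
    mul_div_assoc]
  gcongr
  · rw [norm_div, div_le_iff₀ hap]
    have := norm_add_le a (‖a‖ * w)
    rw [norm_mul, Complex.norm_real, norm_norm] at this
    nlinarith
  · exact den_low ha

lemma fac_diff {a : ℂ} (ha : a ∈ ball (0:ℂ) 1) : DifferentiableOn ℂ (fac a) (ball 0 1) :=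
  DifferentiableOn.const_mul
    (DifferentiableOn.div (by fun_prop) (by fun_prop) fun w hw => den_ne ha hw) _

lemma gen_prod {ι : Type*} {F : ι → ℂ → ℂ} {u : ι → ℝ} (hu : Summable u) (hu0 : ∀ i, 0 ≤ u i)
    (hF : ∀ i, DifferentiableOn ℂ (F i) (ball 0 1))
    (hb : ∀ i, ∀ w ∈ ball (0:ℂ) 1, ‖F i w - 1‖ ≤ u i * (2 / (1 - ‖w‖))) :
    DifferentiableOn ℂ (fun w => ∏' i, F i w) (ball 0 1) ∧
      ∀ w ∈ ball (0:ℂ) 1, Multipliable (fun i => F i w) ∧ ((∀ i, F i w ≠ 0) → ∏' i, F i w ≠ 0) := by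
  constructor
  · intro w hw
    have hw1 : ‖w‖ < 1 := by simpa using hw
    set r := (1 + ‖w‖) / 2 with hr
    have hr1 : r < 1 := by linarith
    have hsub : ball (0:ℂ) r ⊆ ball 0 1 := ball_subset_ball hr1.le
    have h1 := Summable.hasProdLocallyUniformlyOn_one_add (f := fun i w => F i w - 1)
      (K := ball (0:ℂ) r) isOpen_ball (hu.mul_right (2 / (1 - r))) (Eventually.of_forall (by
        intro i x hx
        have hx1 : ‖x‖ < r := by simpa using hx
        refine (hb i x (hsub hx)).trans ?_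
        have := hu0 i
        gcongr)) (fun i => (((hF i).mono hsub).continuousOn).sub continuousOn_const)
    simp only [add_sub_cancel] at h1
    have h2 := TendstoLocallyUniformlyOn.differentiableOn h1 (Eventually.of_forall fun s =>
      DifferentiableOn.fun_finset_prod fun i _ => (hF i).mono hsub) isOpen_ball
    exact (h2.differentiableAt (isOpen_ball.mem_nhds (by simp; linarith))).differentiableWithinAt
  · intro w hw
    have hs : Summable fun i => ‖F i w - 1‖ :=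
      Summable.of_nonneg_of_le (fun _ => norm_nonneg _) (fun i => hb i w hw) (hu.mul_right _)
    constructor
    · simpa using multipliable_one_add_of_summable hs
    · intro hne
      simpa using tprod_one_add_ne_zero_of_summable (f := fun i => F i w - 1) (by simpa using hne) hs

lemma tprod_le {ι : Type*} {g : ι → ℂ} (hm : Multipliable g) (h1 : ∀ i, ‖g i‖ ≤ 1) (F : Finset ι) :
    ‖∏' i, g i‖ ≤ ∏ i ∈ F, ‖g i‖ := by
  classical
  refine le_of_tendsto (Tendsto.norm hm.hasProd) ?_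
  simp only [SummationFilter.unconditional_filter]
  filter_upwards [eventually_ge_atTop F] with G hG
  rw [norm_prod]
  exact Finset.prod_le_prod_of_subset_of_le_one hG (fun _ _ => norm_nonneg _) (fun i _ _ => h1 i)

lemma le_tprod {ι : Type*} {g : ι → ℂ} (hm : Multipliable g) {x : ℝ}
    (h : ∀ F : Finset ι, x ≤ ∏ i ∈ F, ‖g i‖) : x ≤ ‖∏' i, g i‖ :=
  ge_of_tendsto' (Tendsto.norm hm.hasProd) fun F => by rw [norm_prod]; exact h F

lemma prod_bound' {ι : Type*} (a : ι → ℂ) (hinj : Function.Injective a) {w : ℂ}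
    (hw : w ∈ ball (0:ℂ) 1) (F : Finset ι) : ∀ f : ℂ → ℂ, DifferentiableOn ℂ f (ball 0 1) →
    (∀ z ∈ ball (0:ℂ) 1, ‖f z‖ ≤ 1) → (∀ i ∈ F, a i ∈ ball (0:ℂ) 1 ∧ f (a i) = 0) →
    ‖f w‖ ≤ ∏ i ∈ F, ‖(w - a i) / (1 - (starRingEnd ℂ) (a i) * w)‖ := by
  classical
  induction F using Finset.induction_on with
  | empty => intro f _ hM _; simpa using hM w hw
  | insert i F haF ih =>
    intro f hd hM hz
    obtain ⟨ha, h0⟩ := hz i (by simp)
    by_cases ha0 : w = a i
    · rw [ha0, h0, norm_zero]; positivity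
    have h1 := ih (fun z => dslope f (a i) z * (1 - (starRingEnd ℂ) (a i) * z))
      (DifferentiableOn.mul ((Complex.differentiableOn_dslope (isOpen_ball.mem_nhds ha)).2 hd)
        (by fun_prop)) (blaschke_div hd hM ha h0) (by
        intro b hb
        obtain ⟨hb1, hb2⟩ := hz b (by simp [hb])
        refine ⟨hb1, ?_⟩
        have : a b ≠ a i := by intro e; rw [hinj e] at hb; exact haF hb
        simp [dslope_of_ne _ this, slope_def_field, h0, hb2])
    rw [dslope_of_ne _ ha0, slope_def_field, h0, sub_zero] at h1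
    rw [Finset.prod_insert haF]
    have hd1 := den_ne ha hw
    have hd2 := sub_ne_zero.2 ha0
    have hd' : 1 - w * (starRingEnd ℂ) (a i) ≠ 0 := by rwa [mul_comm] at hd1
    have e : f w = (w - a i) / (1 - (starRingEnd ℂ) (a i) * w) *
        (f w / (w - a i) * (1 - (starRingEnd ℂ) (a i) * w)) := by field_simp
    rw [e, norm_mul]
    gcongr

noncomputable def BP {ι : Type*} (a : ι → ℂ) (w : ℂ) : ℂ := ∏' i, fac (a i) w

section
variable {ι : Type*} {a : ι → ℂ} (ha : ∀ i, a i ∈ ball (0:ℂ) 1 ∧ a i ≠ 0)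
  (hs : Summable fun i => 1 - ‖a i‖)
include ha hs

lemma BP_gen : DifferentiableOn ℂ (BP a) (ball 0 1) ∧ ∀ w ∈ ball (0:ℂ) 1,
    Multipliable (fun i => fac (a i) w) ∧ ((∀ i, fac (a i) w ≠ 0) → BP a w ≠ 0) :=
  gen_prod hs (fun i => by have : ‖a i‖ < 1 := by simpa using (ha i).1
                           linarith) (fun i => fac_diff (ha i).1)
    (fun i w hw => fac_sub (ha i).1 (ha i).2 hw)

lemma BP_le {w : ℂ} (hw : w ∈ ball (0:ℂ) 1) (F : Finset ι) :
    ‖BP a w‖ ≤ ∏ i ∈ F, ‖(w - a i) / (1 - (starRingEnd ℂ) (a i) * w)‖ := by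
  have := tprod_le ((BP_gen ha hs).2 w hw).1
    (fun i => by rw [norm_fac (ha i).2]; exact rho_le (ha i).1 hw) F
  simpa only [norm_fac (ha _).2, BP] using this

lemma BP_ne {w : ℂ} (hw : w ∈ ball (0:ℂ) 1) (h : ∀ i, w ≠ a i) : BP a w ≠ 0 := by
  refine ((BP_gen ha hs).2 w hw).2 fun i => ?_
  rw [← norm_ne_zero_iff, norm_fac (ha i).2, norm_ne_zero_iff]
  exact div_ne_zero (sub_ne_zero.2 (h i)) (den_ne (ha i).1 hw)

lemma le_BP (hinj : Function.Injective a) {f : ℂ → ℂ} (hd : DifferentiableOn ℂ f (ball 0 1))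
    (hM : ∀ z ∈ ball (0:ℂ) 1, ‖f z‖ ≤ 1) (hz : ∀ i, f (a i) = 0) {w : ℂ}
    (hw : w ∈ ball (0:ℂ) 1) : ‖f w‖ ≤ ‖BP a w‖ := by
  refine le_tprod ((BP_gen ha hs).2 w hw).1 fun F => ?_
  simp only [norm_fac (ha _).2]
  exact prod_bound' a hinj hw F f hd hM fun i _ => ⟨(ha i).1, hz i⟩

lemma BP_deriv (hinj : Function.Injective a) (i : ι) : deriv (BP a) (a i) ≠ 0 := by
  classical
  have hg := gen_prod (F := fun j w => if j = i then 1 else fac (a j) w) hs
    (fun i => by have : ‖a i‖ < 1 := by simpa using (ha i).1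
                 linarith)
    (fun j => by by_cases h : j = i
                 · simp [h]
                 · simpa [h] using fac_diff (ha j).1)
    (fun j w hw => by
      by_cases h : j = i
      · have h1 : ‖a i‖ < 1 := by simpa using (ha i).1
        have h2 : ‖w‖ < 1 := by simpa using hw
        simp only [h, if_true, sub_self, norm_zero]
        apply mul_nonneg (by linarith) (div_nonneg (by norm_num) (by linarith))
      · simpa [h] using fac_sub (ha j).1 (ha j).2 hw)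
  have hn := isOpen_ball.mem_nhds (ha i).1
  have hev : BP a =ᶠ[𝓝 (a i)] fun w => fac (a i) w * ∏' j, if j = i then 1 else fac (a j) w := by
    filter_upwards [hn] with w hw
    apply Multipliable.tprod_eq_mul_tprod_ite' i
    refine (hg.2 w hw).1.congr fun j => ?_
    simp [Function.update_apply]
  have d1 := (hg.1.differentiableAt hn).hasDerivAt
  have hden := den_ne (ha i).1 (ha i).1
  have d2 : HasDerivAt (fac (a i)) ((‖a i‖ : ℂ) / a i * (-1 / (1 - (starRingEnd ℂ) (a i) * a i)))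
      (a i) := by
    have := (((hasDerivAt_id (a i)).const_sub (a i)).div
      (((hasDerivAt_id (a i)).const_mul ((starRingEnd ℂ) (a i))).const_sub 1) hden).const_mul
      ((‖a i‖ : ℂ) / a i)
    refine HasDerivAt.congr_deriv this ?_
    simp only [id, sub_self, zero_mul, sub_zero]; field_simp
  rw [hev.deriv_eq, (d2.fun_mul d1).deriv]
  have e : fac (a i) (a i) = 0 := by simp [fac]
  rw [e, zero_mul, add_zero]
  refine mul_ne_zero (mul_ne_zero (div_ne_zero (by simpa using (ha i).2) (ha i).2)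
    (div_ne_zero (by simp) hden)) ((hg.2 _ (ha i).1).2 fun j => ?_)
  by_cases h : j = i
  · simp [h]
  · simp only [h, if_false]
    rw [← norm_ne_zero_iff, norm_fac (ha j).2, norm_ne_zero_iff]
    exact div_ne_zero (sub_ne_zero.2 fun e => h (hinj e).symm) (den_ne (ha j).1 (ha i).1)

lemma BP_div (hinj : Function.Injective a) {f : ℂ → ℂ} (hd : DifferentiableOn ℂ f (ball 0 1))
    (hM : ∀ z ∈ ball (0:ℂ) 1, ‖f z‖ ≤ 1) (hz : ∀ i, f (a i) = 0) :
    ∃ k : ℂ → ℂ, DifferentiableOn ℂ k (ball 0 1) ∧ (∀ z ∈ ball (0:ℂ) 1, ‖k z‖ ≤ 1) ∧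
      ∀ z ∈ ball (0:ℂ) 1, f z = k z * BP a z := by
  have hz' : ∀ s ∈ ball (0:ℂ) 1, BP a s = 0 → ∃ i, s = a i := by
    intro s hs' h0
    by_contra hc
    push Not at hc
    exact BP_ne ha hs hs' hc h0
  obtain ⟨k, hk, hk2⟩ := quot isOpen_ball hd (BP_gen ha hs).1 (by
    intro s hs' h0
    obtain ⟨i, rfl⟩ := hz' s hs' h0
    exact ⟨hz i, BP_deriv ha hs hinj i⟩)
  have h1 : ∀ z ∈ ball (0:ℂ) 1, BP a z ≠ 0 → ‖k z‖ ≤ 1 := by
    intro z hz1 hne
    have := le_BP ha hs hinj hd hM hz hz1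
    rw [hk2 z hz1, norm_mul] at this
    exact (mul_le_iff_le_one_left (norm_pos_iff.2 hne)).1 this
  refine ⟨k, hk, fun z hz1 => ?_, hk2⟩
  by_cases h0 : BP a z = 0
  · obtain ⟨i, rfl⟩ := hz' z hz1 h0
    have hn := isOpen_ball.mem_nhds hz1
    have hev := ((BP_gen ha hs).1.differentiableAt hn).hasDerivAt.eventually_ne (c := 0)
      (BP_deriv ha hs hinj i)
    have ht : Tendsto (fun w => ‖k w‖) (𝓝[≠] (a i)) (𝓝 ‖k (a i)‖) :=
      ((hk.differentiableAt hn).continuousAt.norm.tendsto).mono_left nhdsWithin_le_nhds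
    refine le_of_tendsto ht ?_
    filter_upwards [hev, nhdsWithin_le_nhds hn] with w h2 h3 using h1 w h3 h2
  · exact h1 z hz1 h0

lemma not_blaschke (hinj : Function.Injective a) {T : ℂ → ℂ}
    (hT : DifferentiableOn ℂ T (ball 0 1)) (hT0 : ∀ w, T w ≠ 0)
    (hsm : ∀ ε > 0, ∃ w ∈ ball (0:ℂ) 1, (∀ i, w ≠ a i) ∧ ‖T w‖ < ε) :
    ¬ ∃ (c : ℂ) (B : ℂ → ℂ), IsBlaschke B ∧ ∀ w ∈ ball (0 : ℂ) 1, BP a w * T w = c * B w := by
  classical
  rintro ⟨c, B, ⟨θ, k, J, b, hb, hsb, hB⟩, hc⟩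
  have hb' : ∀ j : J, b j ∈ ball (0:ℂ) 1 ∧ b j ≠ 0 := fun j => hb j j.2
  have hB' : ∀ w ∈ ball (0:ℂ) 1, B w = cexp (θ * I) * w ^ k * BP (fun j : J => b j) w := hB
  have h00 : BP a 0 * T 0 ≠ 0 := mul_ne_zero (BP_ne ha hs (by simp) fun i => (ha i).2.symm) (hT0 0)
  have hk : k = 0 := by
    by_contra hk
    apply h00
    rw [hc 0 (by simp), hB 0 (by simp), zero_pow hk]; simp
  have hc0 : c ≠ 0 := by
    rintro rfl
    apply h00; rw [hc 0 (by simp)]; simp
  have hn : ∀ w ∈ ball (0:ℂ) 1, ‖BP a w‖ * ‖T w‖ = ‖c‖ * ‖BP (fun j : J => b j) w‖ := by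
    intro w hw
    rw [← norm_mul, hc w hw, hB' w hw, hk]
    simp [Complex.norm_exp_ofReal_mul_I]
  have hz : ∀ j : J, BP a (b j) = 0 := by
    intro j
    have h1 := BP_le hb' hsb (hb' j).1 {j}
    simp only [Finset.prod_singleton, sub_self, zero_div, norm_zero] at h1
    have h2 := hn _ (hb' j).1
    rw [le_antisymm h1 (norm_nonneg _), mul_zero] at h2
    simpa [hT0] using h2
  have hbi : Function.Injective fun j : J => b j := by
    intro i j hij
    by_contra hne
    have hij : b i = b j := hij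
    obtain ⟨l, hl⟩ : ∃ l, b j = a l := by
      by_contra hcon
      push Not at hcon
      exact BP_ne ha hs (hb' j).1 hcon (hz j)
    have hnb := isOpen_ball.mem_nhds (hb' j).1
    have d1 := ((BP_gen ha hs).1.differentiableAt hnb).hasDerivAt
    have d2 := (hT.differentiableAt hnb).hasDerivAt
    have d3 := d1.fun_mul d2
    rw [hz j, zero_mul, add_zero, hasDerivAt_iff_tendsto_slope] at d3
    have hden := den_ne (hb' j).1 (hb' j).1
    have hcont : ContinuousAt (fun w => ‖c‖ * (‖w - b j‖ / ‖1 - (starRingEnd ℂ) (b j) * w‖ ^ 2))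
        (b j) := by
      have : ‖1 - (starRingEnd ℂ) (b j) * b j‖ ^ 2 ≠ 0 := pow_ne_zero _ (norm_ne_zero_iff.2 hden)
      fun_prop (disch := assumption)
    have ht := hcont.tendsto.mono_left (nhdsWithin_le_nhds (s := {b j}ᶜ))
    simp only [sub_self, norm_zero, zero_div, mul_zero] at ht
    have hle := le_of_tendsto_of_tendsto d3.norm ht (by
      filter_upwards [self_mem_nhdsWithin, nhdsWithin_le_nhds hnb] with w hw1 hw2
      have hw1 : w ≠ b j := hw1
      have hp := norm_pos_iff.2 (sub_ne_zero.2 hw1)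
      have hp2 := norm_pos_iff.2 (den_ne (hb' j).1 hw2)
      have h1 := BP_le hb' hsb hw2 {i, j}
      rw [Finset.prod_pair hne, hij, norm_div] at h1
      simp only [slope_def_field, hz j, zero_mul, sub_zero, norm_div, norm_mul, hn w hw2]
      rw [div_le_iff₀ hp]
      refine (mul_le_mul_of_nonneg_left h1 (norm_nonneg c)).trans (le_of_eq ?_)
      field_simp)
    have h3 : deriv (BP a) (b j) * T (b j) = 0 := norm_le_zero_iff.1 hle
    rw [hl] at h3
    exact mul_ne_zero (BP_deriv ha hs hinj l) (hT0 _) h3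
  obtain ⟨w, hw, hw2, hw3⟩ := hsm ‖c‖ (norm_pos_iff.2 hc0)
  have h1 := le_BP hb' hsb hbi (BP_gen ha hs).1 (fun z hz1 => by simpa using BP_le ha hs hz1 ∅) hz hw
  have h2 := hn w hw
  have h3 := norm_pos_iff.2 (BP_ne ha hs hw hw2)
  nlinarith [mul_lt_mul_of_pos_left hw3 h3, mul_le_mul_of_nonneg_left h1 (norm_nonneg c)]

end

lemma wrap' (f : ℂ → ℂ) (hf : DifferentiableOn ℂ f (ball 0 1)) (hf1 : ∀ w ∈ ball (0:ℂ) 1, ‖f w‖ ≤ 1)
    (z : ℕ → ℂ) (hu : ∀ g : ℂ → ℂ, DifferentiableOn ℂ g (ball 0 1) →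
    (∀ w ∈ ball (0:ℂ) 1, ‖g w‖ ≤ 1) → (∀ n, g (z n) = f (z n)) → EqOn g f (ball 0 1)) :
    MinInterp f z f ∧ (∀ g', MinInterp f z g' → EqOn g' f (ball 0 1)) := by
  have h0 : supN f ≤ 1 :=
    csSup_le ⟨_, 0, by simp, rfl⟩ (by rintro _ ⟨w, hw, rfl⟩; exact hf1 w hw)
  have hH : Hinf f := ⟨hf, 1, hf1⟩
  have h1 : ∀ g', Hinf g' → (∀ n, g' (z n) = f (z n)) → supN g' ≤ supN f →
      EqOn g' f (ball 0 1) := fun g' hg hi hle =>
    hu g' hg.1 (fun w hw => ((le_supN hg hw).trans hle).trans h0) hi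
  refine ⟨⟨hH, fun _ => rfl, fun g' hg hi => ?_⟩, fun g' hg => ?_⟩
  · by_contra hlt
    push Not at hlt
    have := h1 g' hg hi hlt.le
    have e : supN g' = supN f := by
      unfold supN; congr 1; exact image_congr fun w hw => by rw [this hw]
    linarith
  · exact h1 g' hg.1 hg.2.1 (hg.2.2 f hH fun _ => rfl)

lemma rho_psi {s t : ℂ} (hs : 0 < s.re) (ht : 0 < t.re) :
    ‖(psi s - psi t) / (1 - (starRingEnd ℂ) (psi t) * psi s)‖ ^ 2 =
      ((s.re - t.re) ^ 2 + (s.im - t.im) ^ 2) / ((s.re + t.re) ^ 2 + (s.im - t.im) ^ 2) := by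
  have h1 := add_one_ne hs
  have h2 := add_one_ne ht
  have h3 : (starRingEnd ℂ) t + 1 ≠ 0 := add_one_ne (by simpa using ht)
  have h4 : s + (starRingEnd ℂ) t ≠ 0 := by
    intro h; have := congrArg Complex.re h; simp at this; linarith
  have e1 : psi s - psi t = 2 * (s - t) / ((s + 1) * (t + 1)) := by
    simp only [psi]; field_simp; ring
  have e2 : 1 - (starRingEnd ℂ) (psi t) * psi s =
      2 * (s + (starRingEnd ℂ) t) / ((s + 1) * ((starRingEnd ℂ) t + 1)) := by
    simp only [psi, map_div₀, map_sub, map_add, map_one]; field_simp; ring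
  have e3 : ‖(starRingEnd ℂ) t + 1‖ = ‖t + 1‖ := by
    rw [← Complex.norm_conj]; simp
  have p1 := norm_pos_iff.2 h1
  have p2 := norm_pos_iff.2 h2
  have p4 := norm_pos_iff.2 h4
  have e4 : ‖(psi s - psi t) / (1 - (starRingEnd ℂ) (psi t) * psi s)‖ =
      ‖s - t‖ / ‖s + (starRingEnd ℂ) t‖ := by
    rw [e1, e2]; simp only [norm_div, norm_mul, e3]; field_simp
  rw [e4, div_pow]
  simp only [Complex.sq_norm, Complex.normSq_apply]
  simp; ring

lemma uniq_per {g : ℂ → ℂ} (hd : DifferentiableOn ℂ g {s | 0 < s.re})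
    (hg : ∀ s : ℂ, 0 < s.re → ‖g s‖ ≤ 1)
    (hz : ∀ k : ℤ, k ≠ 0 → g (1 + k * I) = cexp (-(Real.pi * (1 + k * I)))) :
    ∀ s : ℂ, 0 < s.re → g s = cexp (-(Real.pi * s)) := by
  have hpi := Real.pi_gt_three
  have hpi4 := Real.pi_lt_four
  obtain ⟨a, ha⟩ : ∃ a : ℝ, a = Real.exp (-Real.pi) := ⟨_, rfl⟩
  have ha0 : 0 < a := ha ▸ Real.exp_pos _
  have ha1 : a ≤ 1 / 2 := by
    rw [ha, Real.exp_neg, inv_le_comm₀ (Real.exp_pos _) (by norm_num)]
    have := Real.add_one_le_exp Real.pi; norm_num; linarith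
  have hE : ∀ s : ℂ, 0 < s.re → ‖cexp (-(Real.pi * s))‖ ≤ 1 := fun s hs =>
    norm_exp_neg (by simp; positivity)
  have hid : ∀ e : ℂ, ‖1 + a * e‖ ^ 2 - ‖e + a‖ ^ 2 = (1 - a ^ 2) * (1 - ‖e‖ ^ 2) := by
    intro e
    simp only [Complex.sq_norm, Complex.normSq_apply]
    simp; ring
  have hlow : ∀ e : ℂ, ‖e‖ ≤ 1 → 1 / 2 ≤ ‖1 + a * e‖ ∧ ‖1 + a * e‖ ≤ 2 := by
    intro e he
    have h1 := norm_sub_norm_le 1 (-(a * e))
    have h2 := norm_add_le 1 (a * e)
    simp only [norm_neg, norm_mul, Complex.norm_real, Real.norm_of_nonneg ha0.le, norm_one,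
      sub_neg_eq_add] at h1 h2
    constructor <;> nlinarith
  have hpd : DifferentiableOn ℂ (fun s => g s - cexp (-(Real.pi * s))) {s | 0 < s.re} :=
    hd.sub (by fun_prop)
  have hpc : (Real.pi : ℂ) ≠ 0 := by exact_mod_cast Real.pi_ne_zero
  obtain ⟨k, hk, hk2⟩ := quot hopen (N := fun s => cexp (-(Real.pi * s)) + a) hpd (by fun_prop) (by
    intro s hs h0
    constructor
    · have e : cexp (-(Real.pi * s)) = cexp (-Real.pi + Real.pi * I) := by
        rw [Complex.exp_add, Complex.exp_pi_mul_I]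
        have : (a : ℂ) = cexp (-Real.pi) := by rw [ha]; simp
        linear_combination h0 - this
      obtain ⟨n, hn⟩ := Complex.exp_eq_exp_iff_exists_int.1 e
      have e2 : s = 1 + ((-(2 * n + 1) : ℤ) : ℂ) * I := by
        apply mul_left_cancel₀ hpc
        push_cast; linear_combination -hn
      rw [e2, hz _ (by omega), sub_self]
    · have hder : HasDerivAt (fun s => cexp (-(Real.pi * s)) + a)
          (cexp (-(Real.pi * s)) * -(Real.pi * 1)) s :=
        (((hasDerivAt_id s).const_mul (Real.pi : ℂ)).neg.cexp).add_const (a : ℂ)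
      rw [hder.deriv]
      exact mul_ne_zero (Complex.exp_ne_zero _) (by simp))
  have hD : ∀ s : ℂ, 0 < s.re → 1 + a * g s ≠ 0 := by
    intro s hs h0
    have := (hlow _ (hg s hs)).1
    rw [h0, norm_zero] at this; linarith
  set h : ℂ → ℂ := fun s => 1 + k s * (1 - a ^ 2) / (1 + a * g s) with hh
  have hhd : DifferentiableOn ℂ h {s | 0 < s.re} := by
    apply DifferentiableOn.const_add
    exact (hk.mul (by fun_prop)).div ((hd.const_mul _).const_add _) hD
  have hb : ∀ s : ℂ, 0 < s.re →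
      ‖h s‖ * ‖cexp (-(Real.pi * s)) + a‖ ≤ ‖1 + a * cexp (-(Real.pi * s))‖ := by
    intro s hs
    have e := hk2 s hs
    have hDs := hD s hs
    have e2 : h s * (cexp (-(Real.pi * s)) + a) * (1 + a * g s) =
        (g s + a) * (1 + a * cexp (-(Real.pi * s))) := by
      have e3 : h s * (1 + a * g s) = (1 + a * g s) + k s * (1 - a ^ 2) := by
        simp only [hh]; rw [add_mul, div_mul_cancel₀ _ hDs, one_mul]
      linear_combination (cexp (-(Real.pi * s)) + a) * e3 - (1 - (a:ℂ) ^ 2) * e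
    have e4 := congrArg norm e2
    rw [norm_mul, norm_mul, norm_mul] at e4
    have h5 : ‖g s + a‖ ≤ ‖1 + a * g s‖ := by
      apply le_of_sq_le_sq _ (norm_nonneg _)
      have := hid (g s)
      have h1 : 0 ≤ 1 - ‖g s‖ ^ 2 := by nlinarith [hg s hs, norm_nonneg (g s)]
      have h2 : 0 ≤ 1 - a ^ 2 := by nlinarith
      nlinarith [mul_nonneg h1 h2]
    have h6 := norm_pos_iff.2 hDs
    apply le_of_mul_le_mul_right _ h6
    rw [e4, mul_comm]; gcongr
  have hle := HP hhd (fun ε => 1 + 64 * ε) (by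
      have hc : Continuous (fun ε : ℝ => 1 + 64 * ε) := by fun_prop
      simpa using (hc.tendsto 0).mono_left (nhdsWithin_le_nhds (s := Ioi 0))) (by
      filter_upwards [self_mem_nhdsWithin,
        nhdsWithin_le_nhds (gt_mem_nhds (by norm_num : (0:ℝ) < 1 / 64))] with ε h0 h2 s hs
      have h0 : 0 < ε := h0
      have hs0 : 0 < s.re := hs ▸ h0
      have a1 := hb s hs0
      have a2 := hid (cexp (-(Real.pi * s)))
      have a3 := (hlow _ (hE s hs0)).1
      have a5 : 1 - 8 * ε ≤ ‖cexp (-(Real.pi * s))‖ ^ 2 := by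
        rw [Complex.norm_exp, ← Real.exp_nat_mul]
        have := Real.add_one_le_exp (((2:ℕ):ℝ) * (-(Real.pi * s : ℂ)).re)
        simp [hs] at this ⊢; nlinarith
      have a7 : 0 ≤ 1 - ‖cexp (-(Real.pi * s))‖ ^ 2 := by
        nlinarith [hE s hs0, norm_nonneg (cexp (-(Real.pi * s)))]
      set D := ‖1 + a * cexp (-(Real.pi * s))‖
      set N := ‖cexp (-(Real.pi * s)) + a‖
      have hN : 0 ≤ N := norm_nonneg _
      have b5 : D ^ 2 - N ^ 2 ≤ 8 * ε := by
        rw [a2]; nlinarith [mul_nonneg (sq_nonneg a) a7]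
      have b2 : 1 / 4 ≤ D ^ 2 := by nlinarith
      have b6 : (1 - 32 * ε) * D ^ 2 ≤ N ^ 2 := by nlinarith
      have hDp : 0 < D := by linarith
      have b7 : (‖h s‖ * N) ^ 2 ≤ D ^ 2 := by gcongr
      have b8 : ‖h s‖ ^ 2 * (1 - 32 * ε) ≤ 1 := by
        apply le_of_mul_le_mul_right _ (pow_pos hDp 2)
        nlinarith [mul_le_mul_of_nonneg_left b6 (sq_nonneg ‖h s‖)]
      by_contra hcon
      push Not at hcon
      have b9 : (1 + 64 * ε) ^ 2 < ‖h s‖ ^ 2 := by gcongr
      nlinarith [mul_pos h0 h0]) (4 / a) (by positivity) (by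
      intro R
      obtain ⟨n, hn⟩ := exists_nat_ge (max R 1)
      have hn1 : R ≤ n := (le_max_left _ _).trans hn
      have hn2 : (1:ℝ) ≤ n := (le_max_right _ _).trans hn
      refine ⟨2 * n, by linarith, fun s hs hc => ?_⟩
      have a1 := hb s hs
      have a3 := (hlow _ (hE s hs)).2
      have a4 := (norm_add_one hs).1
      have a2 : a / 2 ≤ ‖cexp (-(Real.pi * s)) + a‖ := by
        rcases hc with ⟨e, -⟩ | ⟨e, -⟩
        · refine le_trans ?_ (Complex.re_le_norm _)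
          have hcos : Real.cos (Real.pi * s.im) = 1 := by
            rw [← Real.cos_abs, abs_mul, abs_of_pos Real.pi_pos, e, ← Real.cos_nat_mul_two_pi n]
            congr 1; ring
          simp [Complex.exp_re, hcos]
          have := Real.exp_pos (-(Real.pi * s.re)); linarith
        · have h1 : ‖cexp (-(Real.pi * s))‖ ≤ a * a := by
            rw [ha, ← Real.exp_add, Complex.norm_exp]
            simp [e]; nlinarith
          have h2 := norm_sub_norm_le (a : ℂ) (-cexp (-(Real.pi * s)))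
          rw [norm_neg, sub_neg_eq_add, add_comm, Complex.norm_real, Real.norm_of_nonneg ha0.le] at h2
          nlinarith
      have a5 : ‖h s‖ ≤ 4 / a := by
        rw [le_div_iff₀ ha0]; nlinarith [norm_nonneg (h s)]
      have : 0 ≤ 4 / a := by positivity
      nlinarith)
  have hk1 : k (1 + (2:ℤ) * I) = 0 := by
    have := hk2 (1 + (2:ℤ) * I) (by simp)
    rw [hz 2 (by norm_num), sub_self] at this
    refine (mul_eq_zero.1 this.symm).resolve_right fun h0 => ?_
    have h1 := congrArg Complex.re h0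
    have hcos : Real.cos (Real.pi * 2) = 1 := by rw [mul_comm]; exact Real.cos_two_pi
    simp [Complex.exp_re, hcos] at h1
    have := Real.exp_pos (-Real.pi); linarith
  have h1 : h (1 + (2:ℤ) * I) = 1 := by simp only [hh, hk1]; simp
  intro s hs
  have := Complex.eqOn_of_isPreconnected_of_isMaxOn_norm (c := 1 + (2:ℤ) * I) hconv.isPreconnected
    hopen hhd (by simp) (by
      intro w hw
      simp only [Function.comp, mem_setOf_eq, h1, norm_one]
      exact hle w hw) hs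
  simp only [Function.const, h1] at this
  have e2 : k s * (1 - a ^ 2) / (1 + a * g s) = 0 := by simp only [hh] at this; linear_combination this
  have hne : (1 - (a:ℂ) ^ 2) ≠ 0 := by
    have : (1 - a ^ 2 : ℝ) ≠ 0 := by nlinarith
    exact_mod_cast this
  have e3 : k s = 0 := by
    rcases div_eq_zero_iff.1 e2 with e | e
    · exact (mul_eq_zero.1 e).resolve_right hne
    · exact absurd e (hD s hs)
  have := hk2 s hs
  rw [e3, zero_mul] at this
  exact sub_eq_zero.1 this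

end H18Blas
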