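import Mathlib

open MeasureTheory Set Filter Topology ProbabilityTheory
open scoped ENNReal

namespace H18Cantor

abbrev Om := ℕ → Bool

def cons (b : Bool) (e : Om) : Om
  | 0 => b
  | n + 1 => e n

def sh (e : Om) : Om := fun n => e (n + 1)

lemma cons_cont (b : Bool) : Continuous (cons b) := by
  refine continuous_pi fun n => ?_
  cases n with
  | zero => exact continuous_const
  | succ n => exact continuous_apply n

lemma sh_cont : Continuous sh := continuous_pi fun n => continuous_apply (n + 1)

lemma sh_cons (b : Bool) (e : Om) : sh (cons b e) = e := rfl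

lemma cons_sh (e : Om) : cons (e 0) (sh e) = e := by
  funext n; cases n <;> rfl

noncomputable def P (β : Measure Bool) : Measure Om := Measure.infinitePi fun _ : ℕ => β

variable (β : Measure Bool) [IsProbabilityMeasure β]

instance : IsProbabilityMeasure (P β) := by unfold P; infer_instance

lemma bool_meas (t : Set Bool) :
    β t = β {true} * t.indicator 1 true + β {false} * t.indicator 1 false := by
  have h := measure_add_measure_compl (μ := β) (s := {true}) (by measurability)
  have hc : ({true} : Set Bool)ᶜ = {false} := by ext b; cases b <;> simp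
  rw [hc] at h
  by_cases h1 : true ∈ t <;> by_cases h2 : false ∈ t
  · have : t = univ := by ext b; cases b <;> simp [h1, h2]
    subst this; simpa using h.symm
  · have : t = {true} := by ext b; cases b <;> simp [h1, h2]
    subst this; simp
  · have : t = {false} := by ext b; cases b <;> simp [h1, h2]
    subst this; simp
  · have : t = ∅ := by ext b; cases b <;> simp [h1, h2]
    subst this; simp

lemma decomp : P β = β {true} • (P β).map (cons true) + β {false} • (P β).map (cons false) := by
  symm
  refine Measure.eq_infinitePi _ fun s t ht => ?_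
  classical
  set n := s.sup id
  set t' : ℕ → Set Bool := fun i => if i ∈ s then t i else univ with ht'
  have hs : s ⊆ Finset.range (n + 1) := fun i hi =>
    Finset.mem_range.2 (Nat.lt_succ_of_le (Finset.le_sup (f := id) hi))
  have e1 : Set.pi (s : Set ℕ) t = Set.pi (Finset.range (n + 1) : Set ℕ) t' := by
    ext x
    simp only [Set.mem_pi, Finset.mem_coe, ht']
    constructor
    · intro h i _
      split_ifs with hi
      · exact h i hi
      · trivial
    · intro h i hi
      have := h i (hs hi)
      rwa [if_pos hi] at this
  have e2 : ∏ i ∈ s, β (t i) = ∏ i ∈ Finset.range (n + 1), β (t' i) := by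
    rw [← Finset.prod_subset hs (f := fun i => β (t' i)) (fun i _ hi => by
      simp only [ht', if_neg hi, measure_univ])]
    exact Finset.prod_congr rfl fun i hi => by simp [ht', hi]
  have hm : MeasurableSet (Set.pi (Finset.range (n + 1) : Set ℕ) t') :=
    MeasurableSet.pi (Finset.countable_toSet _) fun _ _ => by measurability
  have e3 : ∀ b, (P β).map (cons b) (Set.pi (Finset.range (n + 1) : Set ℕ) t') =
      (t' 0).indicator 1 b * ∏ i ∈ Finset.range n, β (t' (i + 1)) := by
    intro b
    rw [Measure.map_apply (cons_cont b).measurable hm]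
    by_cases hb : b ∈ t' 0
    · have : cons b ⁻¹' Set.pi (Finset.range (n + 1) : Set ℕ) t' =
          Set.pi (Finset.range n : Set ℕ) fun i => t' (i + 1) := by
        ext x
        simp only [Set.mem_preimage, Set.mem_pi, Finset.mem_coe, Finset.mem_range]
        constructor
        · intro h i hi
          exact h (i + 1) (by omega)
        · intro h i hi
          cases i with
          | zero => exact hb
          | succ i => exact h i (by omega)
      rw [this, P, Measure.infinitePi_pi _ fun _ _ => by measurability]
      simp [hb]
    · have : cons b ⁻¹' Set.pi (Finset.range (n + 1) : Set ℕ) t' = ∅ := by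
        ext x
        simp only [Set.mem_preimage, Set.mem_pi, Finset.mem_coe, Finset.mem_range,
          mem_empty_iff_false, iff_false]
        exact fun h => hb (h 0 (by omega))
      rw [this]
      simp [hb]
  rw [e1, e2, Finset.prod_range_succ', Measure.add_apply, Measure.smul_apply, Measure.smul_apply,
    e3, e3, bool_meas β (t' 0), smul_eq_mul, smul_eq_mul]
  ring

lemma lint (f : Om → ℝ≥0∞) (hf : Measurable f) :
    ∫⁻ e, f e ∂P β = ∫⁻ e, (β {true} * f (cons true e) + β {false} * f (cons false e)) ∂P β := by
  conv_lhs => rw [decomp β]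
  rw [lintegral_add_measure, lintegral_smul_measure, lintegral_smul_measure,
    lintegral_map hf (cons_cont _).measurable, lintegral_map hf (cons_cont _).measurable,
    lintegral_add_left (f := fun e => β {true} * f (cons true e))
      ((hf.comp (cons_cont _).measurable).const_mul _),
    lintegral_const_mul' _ _ (measure_ne_top _ _), lintegral_const_mul' _ _ (measure_ne_top _ _)]
  rfl

lemma atom {r : ℝ≥0∞} (hr : r < 1) (h : ∀ b, β {b} ≤ r) (e : Om) : P β {e} = 0 := by
  have h1 : ∀ n : ℕ, P β {e} ≤ r ^ n := by
    intro n
    have : ({e} : Set Om) ⊆ Set.pi (Finset.range n : Set ℕ) fun i => {e i} := by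
      rintro _ rfl i _; rfl
    refine (measure_mono this).trans ?_
    rw [P, Measure.infinitePi_pi _ fun _ _ => by measurability]
    refine (Finset.prod_le_pow_card _ _ r fun i _ => h _).trans ?_
    simp
  exact le_antisymm (ge_of_tendsto' (ENNReal.tendsto_pow_atTop_nhds_zero_of_lt_one hr) h1) bot_le

lemma opos (h : ∀ b, 0 < β {b}) {U : Set Om} (hU : IsOpen U) (hne : U.Nonempty) : 0 < P β U := by
  obtain ⟨e, he⟩ := hne
  obtain ⟨I, u, hu, hI⟩ := isOpen_pi_iff.1 hU e he
  refine lt_of_lt_of_le ?_ (measure_mono hI)
  rw [P, Measure.infinitePi_pi _ fun _ _ => by measurability]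
  refine pos_iff_ne_zero.2 (Finset.prod_ne_zero_iff.2 fun i hi => ?_)
  exact ((h (e i)).trans_le (measure_mono (singleton_subset_iff.2 (hu i hi).2))).ne'

lemma slln : ∀ᵐ e ∂P β, Tendsto (fun n : ℕ => (∑ i ∈ Finset.range n, if e i then (1 : ℝ) else 0) / (n : ℝ))
    atTop (𝓝 (β {true}).toReal) := by
  set g : Bool → ℝ := fun b => if b then 1 else 0 with hg
  have mg : Measurable g := measurable_of_finite g
  have hmap : ∀ i : ℕ, (P β).map (fun e => g (e i)) = β.map g := by
    intro i
    conv_rhs => rw [← Measure.infinitePi_map_eval (fun _ : ℕ => β) i,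
      Measure.map_map mg (measurable_pi_apply i)]
    rfl
  have h := strong_law_ae_real (μ := P β) (fun i e => g (e i)) ?_ ?_ ?_
  · have e : ∫ e, g (e 0) ∂P β = (β {true}).toReal := by
      have : (fun e : Om => g (e 0)) = ((fun e : Om => e 0) ⁻¹' {true}).indicator 1 := by
        funext e
        by_cases h : e 0 = true <;> simp [hg, indicator, h]
      rw [this, integral_indicator_one (measurable_pi_apply 0 (by measurability)), Measure.real,
        ← Measure.map_apply (measurable_pi_apply 0) (by measurability), P,
        Measure.infinitePi_map_eval]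
    rw [← e]
    exact h
  · refine Integrable.of_bound (mg.comp (measurable_pi_apply 0)).aestronglyMeasurable 1
      (ae_of_all _ fun e => ?_)
    by_cases h : e 0 = true <;> simp [hg, h]
  · intro i j hij
    exact (iIndepFun_infinitePi (P := fun _ : ℕ => β) (X := fun _ => g) fun _ => mg).indepFun hij
  · intro i
    exact ⟨(mg.comp (measurable_pi_apply i)).aemeasurable,
      (mg.comp (measurable_pi_apply 0)).aemeasurable, by rw [hmap, hmap]⟩

lemma sing (γ : Measure Bool) [IsProbabilityMeasure γ] (h : β {true} ≠ γ {true}) :
    P β ⟂ₘ P γ := by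
  have h1 := slln β
  have h2 := slln γ
  rw [Measure.mutuallySingular_iff_disjoint_ae, Filter.disjoint_iff]
  refine ⟨_, h1, _, h2, Set.disjoint_left.2 fun e a b => h ?_⟩
  exact (ENNReal.toReal_eq_toReal_iff' (measure_ne_top _ _) (measure_ne_top _ _)).1
    (tendsto_nhds_unique (l := atTop) a b)

end H18Cantor
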