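import Pool.Agent.Lib.helper18.Widom3

open MeasureTheory Set Filter Topology
open scoped ENNReal

namespace H18Widom

noncomputable def Q (s : ℝ) (α β : Measure ℝ) : ℝ≥0∞ :=
  ∫⁻ x, ∫⁻ y, ENNReal.ofReal (s - |x - y|) ∂β ∂α

lemma tri (s x y : ℝ) : ENNReal.ofReal (s - |x - y|) =
    ∫⁻ u, (Icc u (u + s)).indicator 1 x * (Icc u (u + s)).indicator 1 y := by
  have e : ∀ u : ℝ, ((Icc u (u + s)).indicator (1 : ℝ → ℝ≥0∞) x * (Icc u (u + s)).indicator 1 y) =
      (Icc (max x y - s) (min x y)).indicator 1 u := by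
    intro u
    by_cases h : u ∈ Icc (max x y - s) (min x y)
    · have h1 := h.1
      have h2 := h.2
      rw [sub_le_iff_le_add, max_le_iff] at h1
      rw [le_min_iff] at h2
      rw [indicator_of_mem h, indicator_of_mem (mem_Icc.2 ⟨h2.1, h1.1⟩),
        indicator_of_mem (mem_Icc.2 ⟨h2.2, h1.2⟩)]
      simp
    · rw [indicator_of_notMem h]
      by_cases hx : x ∈ Icc u (u + s)
      · by_cases hy : y ∈ Icc u (u + s)
        · exact absurd (mem_Icc.2 ⟨sub_le_iff_le_add.2 (max_le hx.2 hy.2), le_min hx.1 hy.1⟩) h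
        · simp [indicator_of_notMem hy]
      · simp [indicator_of_notMem hx]
  simp only [e]
  rw [lintegral_indicator_one measurableSet_Icc, Real.volume_Icc]
  congr 1
  rw [← max_sub_min_eq_abs, max_comm y x, min_comm y x]
  ring

lemma ind_meas (s : ℝ) :
    Measurable fun p : ℝ × ℝ => (Icc p.1 (p.1 + s)).indicator (1 : ℝ → ℝ≥0∞) p.2 := by
  have : (fun p : ℝ × ℝ => (Icc p.1 (p.1 + s)).indicator (1 : ℝ → ℝ≥0∞) p.2) =
      {p : ℝ × ℝ | p.1 ≤ p.2 ∧ p.2 ≤ p.1 + s}.indicator 1 := by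
    ext p
    by_cases h : p.1 ≤ p.2 ∧ p.2 ≤ p.1 + s <;> simp [indicator, h]
  rw [this]
  refine measurable_one.indicator ?_
  exact (measurableSet_le measurable_fst measurable_snd).inter
    (measurableSet_le measurable_snd (measurable_fst.add_const s))

lemma Q_eq (s : ℝ) (α β : Measure ℝ) [SFinite α] [SFinite β] :
    Q s α β = ∫⁻ u, α (Icc u (u + s)) * β (Icc u (u + s)) := by
  have hm := ind_meas s
  have hβ : Measurable fun u => β (Icc u (u + s)) := by
    have := hm.lintegral_prod_right' (ν := β)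
    simpa only [lintegral_indicator_one measurableSet_Icc] using this
  have e1 : ∀ x, ∫⁻ y, ENNReal.ofReal (s - |x - y|) ∂β =
      ∫⁻ u, (Icc u (u + s)).indicator 1 x * β (Icc u (u + s)) := by
    intro x
    simp only [tri]
    rw [lintegral_lintegral_swap]
    · refine lintegral_congr fun u => ?_
      rw [lintegral_const_mul _ (measurable_one.indicator measurableSet_Icc),
        lintegral_indicator_one measurableSet_Icc]
    · refine Measurable.aemeasurable (Measurable.mul ?_ ?_)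
      · exact hm.comp (measurable_snd.prodMk measurable_const)
      · exact hm.comp measurable_swap
  simp only [Q, e1]
  rw [lintegral_lintegral_swap]
  · refine lintegral_congr fun u => ?_
    rw [lintegral_mul_const _ (measurable_one.indicator measurableSet_Icc),
      lintegral_indicator_one measurableSet_Icc]
  · refine Measurable.aemeasurable (Measurable.mul ?_ ?_)
    · exact hm.comp measurable_swap
    · exact hβ.comp measurable_snd

lemma Q_le (s : ℝ) (α β : Measure ℝ) [IsFiniteMeasure α] [IsFiniteMeasure β] :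
    2 * Q s α β ≤ Q s α α + Q s β β := by
  have hα : Measurable fun u => α (Icc u (u + s)) := by
    have := (ind_meas s).lintegral_prod_right' (ν := α)
    simpa only [lintegral_indicator_one measurableSet_Icc] using this
  rw [Q_eq, Q_eq, Q_eq, ← lintegral_const_mul' _ _ (by simp), ← lintegral_add_left (f := fun u => α (Icc u (u + s)) * α (Icc u (u + s))) (hα.mul hα)]
  refine lintegral_mono fun u => ?_
  have ha := measure_ne_top α (Icc u (u + s))
  have hb := measure_ne_top β (Icc u (u + s))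
  lift α (Icc u (u + s)) to NNReal using ha with a
  lift β (Icc u (u + s)) to NNReal using hb with b
  have := two_mul_le_add_sq a b
  rw [sq, sq, mul_assoc] at this
  exact_mod_cast this

noncomputable def k' (D x y : ℝ) : ℝ≥0∞ :=
  (∫⁻ s in Ioo 0 D, ENNReal.ofReal ((s ^ 2)⁻¹) * ENNReal.ofReal (s - |x - y|)) +
    ENNReal.ofReal D⁻¹ * ENNReal.ofReal (D - |x - y|)

lemma k'_eq {D x y : ℝ} (hD : 0 < D) (hxy : x ≠ y) (h : |x - y| ≤ D) : k' D x y = k D x y := by
  have h0 : 0 < |x - y| := abs_pos.2 (sub_ne_zero.2 hxy)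
  rw [k, if_neg hxy, k']
  set t := |x - y|
  have e : ∫⁻ s in Ioo 0 D, ENNReal.ofReal ((s ^ 2)⁻¹) * ENNReal.ofReal (s - t) =
      ∫⁻ s in Ioo t D, ENNReal.ofReal (s⁻¹ - t / s ^ 2) := by
    have e2 : ∀ s ∈ Ioo 0 D, ENNReal.ofReal ((s ^ 2)⁻¹) * ENNReal.ofReal (s - t) =
        (Ioi t).indicator (fun s => ENNReal.ofReal (s⁻¹ - t / s ^ 2)) s := by
      intro s hs
      by_cases hst : t < s
      · rw [indicator_of_mem (mem_Ioi.2 hst), ← ENNReal.ofReal_mul (by positivity)]
        congr 1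
        have := hs.1.ne'
        field_simp
      · rw [indicator_of_notMem (by simpa using hst), ENNReal.ofReal_of_nonpos (p := s - t)
          (by linarith [not_lt.1 hst]), mul_zero]
    rw [setLIntegral_congr_fun measurableSet_Ioo e2, lintegral_indicator measurableSet_Ioi,
      Measure.restrict_restrict measurableSet_Ioi]
    congr 2
    ext s
    simp only [mem_inter_iff, mem_Ioi, mem_Ioo]
    constructor
    · rintro ⟨a, _, b⟩; exact ⟨a, b⟩
    · rintro ⟨a, b⟩; exact ⟨a, h0.trans a, b⟩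
  rw [e, ftc h (fun s => Real.log s + t / s), ← ENNReal.ofReal_mul (by positivity),
    ← ENNReal.ofReal_add]
  · congr 1
    rw [Real.log_div hD.ne' h0.ne']
    field_simp
    ring
  · have := Real.one_sub_inv_le_log_of_pos (x := D / t) (by positivity)
    rw [Real.log_div hD.ne' h0.ne', inv_div] at this
    rw [div_self h0.ne']
    linarith
  · exact mul_nonneg (by positivity) (by linarith)
  · refine ContinuousOn.add (Real.continuousOn_log.mono fun s hs => (h0.trans_le hs.1).ne') ?_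
    exact continuousOn_const.div continuousOn_id fun s hs => (h0.trans_le hs.1).ne'
  · intro s hs
    have hs0 : s ≠ 0 := (h0.trans hs.1).ne'
    refine ((Real.hasDerivAt_log hs0).add ((hasDerivAt_inv hs0).const_mul t)).congr_deriv ?_
    ring
  · intro s hs
    have hs0 : 0 < s := h0.trans hs.1
    rw [sub_nonneg, div_le_iff₀ (by positivity)]
    have : s⁻¹ * s ^ 2 = s := by field_simp
    rw [this]; exact hs.1.le

noncomputable def En' (D : ℝ) (α β : Measure ℝ) : ℝ≥0∞ := ∫⁻ x, ∫⁻ y, k' D x y ∂β ∂α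

lemma En'_eq (D : ℝ) (α β : Measure ℝ) [SFinite α] [SFinite β] :
    En' D α β = (∫⁻ s in Ioo 0 D, ENNReal.ofReal ((s ^ 2)⁻¹) * Q s α β) +
      ENNReal.ofReal D⁻¹ * Q D α β := by
  have m1 : Measurable fun p : (ℝ × ℝ) × ℝ =>
      ENNReal.ofReal ((p.2 ^ 2)⁻¹) * ENNReal.ofReal (p.2 - |p.1.1 - p.1.2|) := by fun_prop
  have m2 : Measurable fun p : (ℝ × ℝ) × ℝ =>
      ENNReal.ofReal ((p.1.2 ^ 2)⁻¹) * ENNReal.ofReal (p.1.2 - |p.1.1 - p.2|) := by fun_prop
  have m3 : Measurable fun p : ℝ × ℝ => ENNReal.ofReal (D - |p.1 - p.2|) := by fun_prop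
  have e1 : ∀ x, ∫⁻ y, k' D x y ∂β =
      (∫⁻ s in Ioo 0 D, ∫⁻ y, ENNReal.ofReal ((s ^ 2)⁻¹) * ENNReal.ofReal (s - |x - y|) ∂β) +
        ENNReal.ofReal D⁻¹ * ∫⁻ y, ENNReal.ofReal (D - |x - y|) ∂β := by
    intro x
    unfold k'
    rw [lintegral_add_right _ (by fun_prop), lintegral_const_mul' _ _ ENNReal.ofReal_ne_top,
      lintegral_lintegral_swap (Measurable.aemeasurable (by fun_prop))]
  simp only [En', e1]
  rw [lintegral_add_right _ (m3.lintegral_prod_right'.const_mul _),
    lintegral_const_mul' _ _ ENNReal.ofReal_ne_top,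
    lintegral_lintegral_swap (m2.lintegral_prod_right'.aemeasurable)]
  congr 1
  refine lintegral_congr fun s => ?_
  simp only [lintegral_const_mul' _ _ ENNReal.ofReal_ne_top, Q]

lemma En'_le (D : ℝ) (α β : Measure ℝ) [IsFiniteMeasure α] [IsFiniteMeasure β] :
    2 * En' D α β ≤ En' D α α + En' D β β := by
  have m : Measurable fun s => ENNReal.ofReal ((s ^ 2)⁻¹) * Q s α α := by
    refine Measurable.mul (by fun_prop) ?_
    have m2 : Measurable fun p : (ℝ × ℝ) × ℝ =>
      ENNReal.ofReal (p.1.1 - |p.1.2 - p.2|) := by fun_prop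
    exact (m2.lintegral_prod_right' (ν := α)).lintegral_prod_right' (ν := α)
  rw [En'_eq, En'_eq, En'_eq, add_add_add_comm, mul_add, ← lintegral_add_left m,
    ← lintegral_const_mul' _ _ (by simp)]
  refine add_le_add (lintegral_mono fun s => ?_) ?_
  · rw [← mul_add, mul_left_comm]
    gcongr
    exact Q_le s α β
  · rw [← mul_add, mul_left_comm]
    gcongr
    exact Q_le D α β

theorem minimal {K : Set ℝ} {D : ℝ} (hD : 0 < D) (hKD : ∀ x ∈ K, ∀ y ∈ K, |x - y| ≤ D)
    (μ ν : Measure ℝ) [IsProbabilityMeasure μ] [IsProbabilityMeasure ν] (hμ : μ Kᶜ = 0)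
    (hν : ν Kᶜ = 0) {E : ℝ≥0∞} (hE : E ≠ ⊤) (hU : ∀ x ∈ K, U D μ x = E) :
    En D μ μ = E ∧ En D μ μ ≤ En D ν ν := by
  have hμ' : ∀ᵐ x ∂μ, x ∈ K := hμ
  have hν' : ∀ᵐ x ∂ν, x ∈ K := hν
  have h1 : ∀ α : Measure ℝ, IsProbabilityMeasure α → (∀ᵐ x ∂α, x ∈ K) → En D α μ = E := by
    intro α _ hα
    rw [En, lintegral_congr_ae (g := fun _ => E) (hα.mono hU)]
    simp
  have h2 : ∀ α : Measure ℝ, (∀ᵐ x ∂α, x ∈ K) → En' D α α ≤ En D α α := by
    intro α hα
    refine lintegral_mono_ae (hα.mono fun x hx => lintegral_mono_ae (hα.mono fun y hy => ?_))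
    by_cases h : x = y
    · simp [k, h]
    · exact (k'_eq hD h (hKD x hx y hy)).le
  have h3 : En D ν μ ≤ En' D ν μ := by
    refine lintegral_mono_ae (hν'.mono fun x hx => lintegral_mono_ae ?_)
    have : ∀ᵐ y ∂μ, k D x y < ⊤ := ae_lt_top (k_meas1 D x) (by
      have := hU x hx
      rw [U] at this
      rw [this]; exact hE)
    filter_upwards [this, hμ'] with y h4 hy
    have h : x ≠ y := by
      intro e; simp [k, e] at h4
    exact (k'_eq hD h (hKD x hx y hy)).ge
  have h4 := h1 μ inferInstance hμ'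
  refine ⟨h4, ?_⟩
  rw [h4]
  refine ENNReal.le_of_add_le_add_right hE ?_
  calc E + E = 2 * En D ν μ := by rw [h1 ν inferInstance hν', two_mul]
    _ ≤ 2 * En' D ν μ := by gcongr
    _ ≤ En' D ν ν + En' D μ μ := En'_le D ν μ
    _ ≤ En D ν ν + E := by
        rw [← h4]
        exact add_le_add (h2 ν hν') (h2 μ hμ')

end H18Widom
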