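import Pool.Agent.Lib.helper18.Cantor1
import Pool.Agent.Lib.helper18.Widom4

open MeasureTheory Set Filter Topology Polynomial
open scoped ENNReal BoundedContinuousFunction

namespace H18Cantor

structure Nest (φ : ℕ → Om → ℝ) : Prop where
  cont : ∀ k, Continuous (φ k)
  le : ∀ k e, |φ k e| ≤ 2 ^ (k + 3)
  ge : ∀ k e, 2 ^ (k + 2) ≤ φ k (cons true e)
  neg : ∀ k e, φ k (cons false e) = -φ k (cons true e)
  sq : ∀ k e, φ k (cons true e) ^ 2 = 3 * 4 ^ (k + 2) + φ (k + 1) e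

noncomputable def g (k : ℕ) (t : ℝ) : ℝ := √(3 + max (-2) (min 2 t) / 2 ^ (k + 1))

lemma g_aux (k : ℕ) (t : ℝ) : |max (-2) (min 2 t) / 2 ^ (k + 1)| ≤ (1 : ℝ) := by
  have h1 : (2 : ℝ) ≤ 2 ^ (k + 1) := le_self_pow₀ one_le_two (by omega)
  rw [abs_div, abs_of_pos (a := (2 : ℝ) ^ (k + 1)) (by positivity), div_le_one (by positivity)]
  refine le_trans (abs_le.2 ⟨le_max_left _ _, max_le (by norm_num) (min_le_left _ _)⟩) h1

lemma g_sq (k : ℕ) (t : ℝ) : g k t ^ 2 = 3 + max (-2) (min 2 t) / 2 ^ (k + 1) :=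
  Real.sq_sqrt (by linarith [(abs_le.1 (g_aux k t)).1])

lemma g_ge (k : ℕ) (t : ℝ) : 1 ≤ g k t :=
  Real.le_sqrt_of_sq_le (by linarith [(abs_le.1 (g_aux k t)).1])

lemma g_le (k : ℕ) (t : ℝ) : g k t ≤ 2 :=
  Real.sqrt_le_iff.2 ⟨by norm_num, by linarith [(abs_le.1 (g_aux k t)).2]⟩

lemma g_lip (k : ℕ) (s t : ℝ) : |g k s - g k t| ≤ 1 / 2 * |s - t| := by
  have h1 : (1 : ℝ) ≤ 2 ^ (k + 1) := one_le_pow₀ one_le_two
  have h2 : |max (-2) (min 2 s) - max (-2) (min 2 t)| ≤ |s - t| := by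
    refine (abs_max_sub_max_le_max _ _ _ _).trans (max_le (by simp) ?_)
    exact (abs_min_sub_min_le_max _ _ _ _).trans (max_le (by simp) le_rfl)
  have h3 : |g k s - g k t| * (g k s + g k t) ≤ |s - t| := by
    rw [← abs_of_pos (a := g k s + g k t) (by linarith [g_ge k s, g_ge k t]), ← abs_mul]
    have : (g k s - g k t) * (g k s + g k t) =
        (max (-2) (min 2 s) - max (-2) (min 2 t)) / 2 ^ (k + 1) := by
      linear_combination g_sq k s - g_sq k t
    rw [this, abs_div, abs_of_pos (a := (2 : ℝ) ^ (k + 1)) (by positivity)]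
    exact (div_le_self (abs_nonneg _) h1).trans h2
  nlinarith [g_ge k s, g_ge k t, abs_nonneg (g k s - g k t)]

def sg (b : Bool) : ℝ := if b then 1 else -1

lemma sg_abs (b : Bool) : |sg b| = 1 := by cases b <;> simp [sg]

noncomputable def T (F : (ℕ × Om) →ᵇ ℝ) : (ℕ × Om) →ᵇ ℝ :=
  BoundedContinuousFunction.ofNormedAddCommGroup
    (fun p => sg (p.2 0) * g p.1 (F (p.1 + 1, sh p.2)))
    (by
      refine continuous_prod_of_discrete_left.2 fun k => ?_
      refine Continuous.mul ((continuous_of_discreteTopology (f := sg)).comp (continuous_apply 0)) ?_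
      have := sh_cont
      simp only [g, div_eq_mul_inv]
      fun_prop)
    2 (fun p => by
      rw [Real.norm_eq_abs, abs_mul, sg_abs, one_mul, abs_of_pos (by linarith [g_ge p.1 (F (p.1 + 1, sh p.2))])]
      exact g_le _ _)

lemma T_con : ContractingWith (1 / 2) T := by
  refine ⟨by norm_num, LipschitzWith.of_dist_le_mul fun F G => ?_⟩
  refine (BoundedContinuousFunction.dist_le (by positivity)).2 fun p => ?_
  change dist (sg (p.2 0) * g p.1 (F (p.1 + 1, sh p.2))) (sg (p.2 0) * g p.1 (G (p.1 + 1, sh p.2))) ≤ _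
  rw [Real.dist_eq, ← mul_sub, abs_mul, sg_abs, one_mul]
  refine (g_lip _ _ _).trans ?_
  have := BoundedContinuousFunction.dist_coe_le_dist (f := F) (g := G) (p.1 + 1, sh p.2)
  rw [Real.dist_eq] at this
  push_cast
  linarith

theorem exists_nest : ∃ φ, Nest φ := by
  set F := T_con.fixedPoint T
  have hF : ∀ k e, F (k, e) = sg (e 0) * g k (F (k + 1, sh e)) := fun k e =>
    (DFunLike.congr_fun T_con.fixedPoint_isFixedPt.eq (k, e)).symm
  have hb : ∀ k e, |F (k, e)| ≤ 2 := fun k e => by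
    rw [hF, abs_mul, sg_abs, one_mul, abs_of_pos (by linarith [g_ge k (F (k + 1, sh e))])]
    exact g_le _ _
  have ht : ∀ k e, F (k, cons true e) = g k (F (k + 1, e)) := fun k e => by
    rw [hF]; simp [cons, sg, sh_cons]
  refine ⟨fun k e => 2 ^ (k + 2) * F (k, e), fun k => by fun_prop, fun k e => ?_, fun k e => ?_,
    fun k e => ?_, fun k e => ?_⟩
  · rw [abs_mul, abs_of_pos (by positivity), pow_succ 2 (k + 2)]
    gcongr
    exact hb k e
  · rw [ht]
    exact le_mul_of_one_le_right (by positivity) (g_ge _ _)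
  · rw [ht, hF]; simp [cons, sg, sh_cons]
  · rw [ht, mul_pow, g_sq, min_eq_right (abs_le.1 (hb _ _)).2, max_eq_right (abs_le.1 (hb _ _)).1,
      show (4 : ℝ) ^ (k + 2) = (2 ^ (k + 2)) ^ 2 by rw [← pow_mul, mul_comm, pow_mul]; norm_num]
    field_simp
    ring

variable {φ : ℕ → Om → ℝ} (h : Nest φ)
include h

lemma Nest.sq' (k : ℕ) (e : Om) : φ k e ^ 2 = 3 * 4 ^ (k + 2) + φ (k + 1) (sh e) := by
  conv_lhs => rw [← cons_sh e]
  cases e 0
  · rw [h.neg, neg_sq, h.sq]
  · rw [h.sq]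

lemma Nest.sign (k : ℕ) (e : Om) :
    (e 0 = true ∧ 2 ^ (k + 2) ≤ φ k e) ∨ (e 0 = false ∧ φ k e ≤ -2 ^ (k + 2)) := by
  have h1 := h.ge k (sh e)
  have h2 := h.neg k (sh e)
  have h3 := cons_sh e
  cases h4 : e 0 <;> rw [h4] at h3
  · right; rw [h3] at h2; exact ⟨rfl, by linarith⟩
  · left; rw [h3] at h1; exact ⟨rfl, h1⟩

lemma Nest.inj (k : ℕ) : Function.Injective (φ k) := by
  have : ∀ i k x y, φ k x = φ k y → x i = y i := by
    intro i
    induction i with
    | zero =>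
      intro k x y e
      have hp : (0 : ℝ) < 2 ^ (k + 2) := by positivity
      rcases h.sign k x with ⟨a, b⟩ | ⟨a, b⟩ <;> rcases h.sign k y with ⟨c, d⟩ | ⟨c, d⟩
      · rw [a, c]
      · linarith
      · linarith
      · rw [a, c]
    | succ i ih =>
      intro k x y e
      have h1 := h.sq' k x
      have h2 := h.sq' k y
      rw [e] at h1
      exact ih (k + 1) (sh x) (sh y) (by linarith)
  exact fun x y e => funext fun i => this i k x y e

lemma Nest.diam (k : ℕ) (x y : Om) : |φ k x - φ k y| ≤ 2 ^ (k + 4) := by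
  have := abs_sub (φ k x) (φ k y)
  rw [pow_succ 2 (k + 3)]
  linarith [h.le k x, h.le k y]

end H18Cantor
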