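import Pool.Agent.Lib.helper18.Cantor2

open MeasureTheory Set Filter Topology Polynomial
open scoped ENNReal

namespace H18Cantor

noncomputable def kk (φ : ℕ → Om → ℝ) (k : ℕ) (x y : Om) : ℝ≥0∞ :=
  H18Widom.k (2 ^ (k + 4)) (φ k x) (φ k y)

variable {φ : ℕ → Om → ℝ} (h : Nest φ)
include h

lemma Nest.kk_meas (k : ℕ) (x : Om) : Measurable (kk φ k x) :=
  (H18Widom.k_meas1 _ _).comp (h.cont k).measurable

lemma Nest.kk_add (k : ℕ) (x y : Om) : kk φ k x (cons true y) + kk φ k x (cons false y) =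
    ENNReal.ofReal ((k + 3) * Real.log 2) + kk φ (k + 1) (sh x) y := by
  have h1 := h.sq' k x
  have h2 := h.sq k y
  have h3 := h.neg k y
  have d1 := h.diam k x (cons true y)
  have d2 := h.diam k x (cons false y)
  have d3 := h.diam (k + 1) (sh x) y
  unfold kk H18Widom.k
  rw [h3] at d2 ⊢
  set a := φ k x
  set r := φ k (cons true y)
  set u := φ (k + 1) (sh x)
  set v := φ (k + 1) y
  have e : (a - r) * (a - -r) = u - v := by linear_combination h1 - h2
  by_cases huv : u = v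
  · rw [if_pos huv, add_top]
    rw [huv, sub_self, mul_eq_zero, sub_eq_zero, sub_eq_zero] at e
    rcases e with e | e
    · rw [if_pos e, top_add]
    · rw [if_pos e, add_top]
  · have h4 : a - r ≠ 0 := fun h0 => huv (by rw [h0, zero_mul] at e; linarith)
    have h5 : a - -r ≠ 0 := fun h0 => huv (by rw [h0, mul_zero] at e; linarith)
    have h6 : u - v ≠ 0 := sub_ne_zero.2 huv
    have l : ∀ {D t : ℝ}, t ≠ 0 → |t| ≤ D → 0 ≤ Real.log (D / |t|) := fun ht hD =>
      Real.log_nonneg ((one_le_div (abs_pos.2 ht)).2 hD)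
    have l2 := Real.log_pos one_lt_two
    rw [if_neg huv, if_neg (sub_ne_zero.1 h4), if_neg (sub_ne_zero.1 h5),
      ← ENNReal.ofReal_add (l h4 d1) (l h5 d2), ← ENNReal.ofReal_add (by positivity) (l h6 d3),
      Real.log_div (by positivity) (abs_ne_zero.2 h4), Real.log_div (by positivity) (abs_ne_zero.2 h5),
      Real.log_div (by positivity) (abs_ne_zero.2 h6), ← e, abs_mul,
      Real.log_mul (abs_ne_zero.2 h4) (abs_ne_zero.2 h5), Real.log_pow, Real.log_pow]
    congr 1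
    push_cast
    ring

lemma Nest.kk_small (k : ℕ) (x y : Om) :
    kk φ k x (cons true y) ≤ 1 ∨ kk φ k x (cons false y) ≤ 1 := by
  have h1 := h.ge k y
  have h3 := h.neg k y
  have hp : (0 : ℝ) < 2 ^ (k + 2) := by positivity
  have l : ∀ a b : ℝ, 2 * 2 ^ (k + 2) ≤ |a - b| → H18Widom.k (2 ^ (k + 4)) a b ≤ 1 := by
    intro a b hab
    have h0 : 0 < |a - b| := by linarith
    rw [H18Widom.k, if_neg (sub_ne_zero.1 (abs_pos.1 h0)), ENNReal.ofReal_le_one]
    refine (Real.log_le_sub_one_of_pos (by positivity)).trans ?_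
    rw [sub_le_iff_le_add, div_le_iff₀ h0, show k + 4 = k + 2 + 2 by ring, pow_add]
    linarith
  rcases h.sign k x with ⟨_, b⟩ | ⟨_, b⟩
  · exact Or.inr (l _ _ (le_trans (by linarith) (le_abs_self _)))
  · exact Or.inl (l _ _ (le_trans (by linarith) (neg_le_abs _)))

variable {β : Measure Bool} [IsProbabilityMeasure β]

omit h in
lemma two_mul_lint (hβ : ∀ b, β {b} = 2⁻¹) (f : Om → ℝ≥0∞) (hf : Measurable f) :
    2 * ∫⁻ e, f e ∂P β = ∫⁻ e, (f (cons true e) + f (cons false e)) ∂P β := by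
  rw [lint β f hf, ← lintegral_const_mul' _ _ (by simp)]
  refine lintegral_congr fun e => ?_
  rw [hβ, hβ, ← mul_add, ← mul_assoc, ENNReal.mul_inv_cancel (by simp) (by simp), one_mul]

lemma Nest.fin (hβ : ∀ b, β {b} = 2⁻¹) (k : ℕ) (x : Om) :
    ∫⁻ y, kk φ k x y ∂P β ≤ (k + 6 : ℕ) := by
  have hL : ∀ k : ℕ, ENNReal.ofReal ((k + 3) * Real.log 2) ≤ (k + 3 : ℕ) := by
    intro k
    rw [← ENNReal.ofReal_natCast]
    refine ENNReal.ofReal_le_ofReal ?_
    have := Real.log_two_lt_d9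
    push_cast
    exact mul_le_of_le_one_right (by positivity) (by linarith)
  have s1 : ∀ (N k : ℕ) (x : Om), 2 * ∫⁻ y, min (kk φ k x y) N ∂P β ≤
      (k + 4 : ℕ) + ∫⁻ y, min (kk φ (k + 1) (sh x) y) N ∂P β := by
    intro N k x
    rw [two_mul_lint hβ _ ((h.kk_meas k x).min measurable_const)]
    have : ((k + 4 : ℕ) : ℝ≥0∞) = ∫⁻ _, ((k + 4 : ℕ) : ℝ≥0∞) ∂P β := by simp
    rw [this, ← lintegral_add_left measurable_const]
    refine lintegral_mono fun y => ?_
    have e := h.kk_add k x y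
    have key : ∀ a b : ℝ≥0∞, a + b = ENNReal.ofReal ((k + 3) * Real.log 2) + kk φ (k + 1) (sh x) y →
        b ≤ 1 → min a N + min b N ≤ (k + 4 : ℕ) + min (kk φ (k + 1) (sh x) y) N := by
      intro a b e hb
      have h1 : a ≤ (k + 3 : ℕ) + kk φ (k + 1) (sh x) y :=
        le_self_add.trans (e.le.trans (add_le_add (hL k) le_rfl))
      have h2 : min a N ≤ (k + 3 : ℕ) + min (kk φ (k + 1) (sh x) y) N := by
        rw [← min_add_add_left]
        exact min_le_min h1 le_add_self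
      calc min a N + min b N ≤ ((k + 3 : ℕ) + min (kk φ (k + 1) (sh x) y) N) + 1 :=
            add_le_add h2 ((min_le_left _ _).trans hb)
        _ = _ := by push_cast; ring
    rcases h.kk_small k x y with hb | hb
    · rw [add_comm]
      exact key _ _ (by rw [add_comm, e]) hb
    · exact key _ _ e hb
  have s2 : ∀ (N n k : ℕ) (x : Om), 2 ^ n * ∫⁻ y, min (kk φ k x y) N ∂P β ≤
      2 ^ n * (k + 5 : ℕ) + N := by
    intro N n
    induction n with
    | zero =>
      intro k x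
      rw [pow_zero, one_mul]
      refine le_trans (lintegral_mono fun y => min_le_right _ _) ?_
      simp
    | succ n ih =>
      intro k x
      calc 2 ^ (n + 1) * ∫⁻ y, min (kk φ k x y) N ∂P β
          = 2 ^ n * (2 * ∫⁻ y, min (kk φ k x y) N ∂P β) := by ring
        _ ≤ 2 ^ n * ((k + 4 : ℕ) + ∫⁻ y, min (kk φ (k + 1) (sh x) y) N ∂P β) := by
          gcongr; exact s1 N k x
        _ ≤ 2 ^ n * (k + 4 : ℕ) + (2 ^ n * (k + 1 + 5 : ℕ) + N) := by
          rw [mul_add]; gcongr; exact ih _ _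
        _ = _ := by push_cast; ring
  have s3 : ∀ N : ℕ, ∫⁻ y, min (kk φ k x y) N ∂P β ≤ (k + 6 : ℕ) := by
    intro N
    have hN : (N : ℝ≥0∞) ≤ 2 ^ N := by exact_mod_cast Nat.lt_two_pow_self.le
    refine (ENNReal.mul_le_mul_iff_right (a := 2 ^ N) (by simp) (by simp)).1 ((s2 N N k x).trans ?_)
    calc _ ≤ 2 ^ N * ((k + 5 : ℕ) : ℝ≥0∞) + 2 ^ N := by gcongr
      _ = _ := by push_cast; ring
  have e : ∀ y, kk φ k x y = ⨆ N : ℕ, min (kk φ k x y) N := by
    intro y
    rw [← inf_iSup_eq, ENNReal.iSup_natCast, inf_top_eq]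
  rw [lintegral_congr e, lintegral_iSup (fun N => (h.kk_meas k x).min measurable_const)
    (fun a b hab y => min_le_min le_rfl (by exact_mod_cast hab))]
  exact iSup_le s3

theorem Nest.pot (hβ : ∀ b, β {b} = 2⁻¹) (x : Om) :
    ∫⁻ y, kk φ 0 x y ∂P β = ENNReal.ofReal (Real.log (2 ^ 4)) := by
  set d : ℕ → Om → ℝ := fun k x => (∫⁻ y, kk φ k x y ∂P β).toReal - (k + 4) * Real.log 2 with hd
  have ht : ∀ k x, ∫⁻ y, kk φ k x y ∂P β ≠ ⊤ := fun k x =>
    ne_top_of_le_ne_top (ENNReal.natCast_ne_top _) (h.fin hβ k x)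
  have l2 := Real.log_pos one_lt_two
  have l3 := Real.log_two_lt_d9
  have s1 : ∀ k x, 2 * d k x = d (k + 1) (sh x) := by
    intro k x
    have := two_mul_lint hβ _ (h.kk_meas k x)
    simp only [h.kk_add] at this
    rw [lintegral_add_left measurable_const, lintegral_const, measure_univ, mul_one] at this
    have := congrArg ENNReal.toReal this
    rw [ENNReal.toReal_add ENNReal.ofReal_ne_top (ht _ _), ENNReal.toReal_ofReal (by positivity),
      ENNReal.toReal_mul] at this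
    simp only [hd]
    push_cast
    norm_num at this
    linarith
  have s2 : ∀ k x, |d k x| ≤ k + 6 := by
    intro k x
    have h1 := ENNReal.toReal_mono (ENNReal.natCast_ne_top _) (h.fin hβ k x)
    rw [ENNReal.toReal_natCast] at h1
    push_cast at h1
    have h2 : 0 ≤ (∫⁻ y, kk φ k x y ∂P β).toReal := ENNReal.toReal_nonneg
    have h3 : (0 : ℝ) ≤ k := Nat.cast_nonneg k
    rw [abs_le]
    constructor <;> simp only [hd] <;> nlinarith
  have s3 : ∀ (n k : ℕ) (x : Om), 2 ^ n * |d k x| ≤ k + n + 6 := by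
    intro n
    induction n with
    | zero => intro k x; simpa using s2 k x
    | succ n ih =>
      intro k x
      have := ih (k + 1) (sh x)
      rw [← s1, abs_mul, abs_two] at this
      push_cast at this ⊢
      rw [pow_succ]
      linarith
  have s4 : d 0 x = 0 := by
    have t1 : Tendsto (fun n : ℕ => (n : ℝ) ^ 1 / 2 ^ n + 6 * ((n : ℝ) ^ 0 / 2 ^ n)) atTop
        (𝓝 (0 + 6 * 0)) :=
      (tendsto_pow_const_div_const_pow_of_one_lt 1 one_lt_two).add
        ((tendsto_pow_const_div_const_pow_of_one_lt 0 one_lt_two).const_mul 6)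
    have := ge_of_tendsto' (b := |d 0 x|) t1 fun n => by
      have := s3 n 0 x
      rw [← mul_div_assoc, ← add_div, le_div_iff₀ (by positivity)]
      push_cast at this
      linarith
    exact abs_nonpos_iff.1 (by simpa using this)
  rw [← ENNReal.ofReal_toReal (ht 0 x), Real.log_pow]
  congr 1
  simp only [hd] at s4
  push_cast at s4 ⊢
  linarith

omit h in
lemma split (Q : ℂ[X]) (z : ℂ) :
    Q.eval z = (contract 2 Q).eval (z ^ 2) + z * (contract 2 Q.divX).eval (z ^ 2) := by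
  have : Q = expand ℂ 2 (contract 2 Q) + X * expand ℂ 2 (contract 2 Q.divX) := by
    ext n
    rw [coeff_add, coeff_expand two_pos]
    rcases Nat.even_or_odd' n with ⟨m, rfl | rfl⟩
    · rw [if_pos (by omega), coeff_contract two_ne_zero, show 2 * m / 2 * 2 = 2 * m by omega]
      cases m with
      | zero => simp
      | succ m =>
        rw [show 2 * (m + 1) = 2 * m + 1 + 1 by ring, coeff_X_mul, coeff_expand two_pos,
          if_neg (by omega), add_zero]
    · rw [if_neg (by omega), coeff_X_mul, coeff_expand two_pos, if_pos (by omega),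
        coeff_contract two_ne_zero, coeff_divX, zero_add, show 2 * m / 2 * 2 = 2 * m by omega]
  conv_lhs => rw [this]
  simp [expand_eval]

omit h in
lemma contract_monic {Q : ℂ[X]} {m : ℕ} (h1 : Q.coeff (2 * m) = 1) (h2 : Q.natDegree ≤ 2 * m)
    (c : ℂ) : (taylor c (contract 2 Q)).Monic ∧ (taylor c (contract 2 Q)).natDegree = m := by
  have e1 : (contract 2 Q).coeff m = 1 := by rw [coeff_contract two_ne_zero, mul_comm, h1]
  have e2 : (contract 2 Q).natDegree ≤ m := natDegree_le_iff_coeff_eq_zero.2 fun i hi => by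
    rw [coeff_contract two_ne_zero]
    exact coeff_eq_zero_of_natDegree_lt (by omega)
  have e3 := monic_of_natDegree_le_of_coeff_eq_one m e2 e1
  refine ⟨by rw [Monic, leadingCoeff_taylor]; exact e3, ?_⟩
  rw [natDegree_taylor]
  exact natDegree_eq_of_le_of_coeff_ne_zero e2 (by rw [e1]; exact one_ne_zero)

theorem Nest.l2 (hβ : ∀ b, 4⁻¹ ≤ β {b}) (n : ℕ) : ∀ (k : ℕ) (Q : ℂ[X]), Q.Monic → Q.natDegree = n →
    (if n = 0 then 1 else 4 ^ k : ℝ≥0∞) ≤
      ∫⁻ e, ENNReal.ofReal (‖Q.eval (φ k e : ℂ)‖ ^ 2) ∂P β := by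
  induction n using Nat.strong_induction_on with
  | _ n ih =>
  intro k Q hQ hn
  have hm : ∀ (k : ℕ) (Q : ℂ[X]), Measurable fun e => ENNReal.ofReal (‖Q.eval (φ k e : ℂ)‖ ^ 2) := by
    intro k Q
    have := h.cont k
    refine ENNReal.measurable_ofReal.comp (Continuous.measurable ?_)
    fun_prop
  by_cases h0 : n = 0
  · rw [if_pos h0, hQ.natDegree_eq_zero.1 (hn.trans h0)]
    simp
  rw [if_neg h0]
  set c : ℂ := ((3 * 4 ^ (k + 2) : ℝ) : ℂ)
  set A := taylor c (contract 2 Q)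
  set B := taylor c (contract 2 Q.divX)
  have key : ∀ (R : ℂ[X]) (t : ℝ), 0 ≤ t → (∀ e, 2 * (t * ‖R.eval (φ (k + 1) e : ℂ)‖ ^ 2) ≤
      ‖A.eval (φ (k + 1) e : ℂ)‖ ^ 2 + 16 * 4 ^ k * ‖B.eval (φ (k + 1) e : ℂ)‖ ^ 2) →
      ENNReal.ofReal t * ∫⁻ e, ENNReal.ofReal (‖R.eval (φ (k + 1) e : ℂ)‖ ^ 2) ∂P β ≤
        ∫⁻ e, ENNReal.ofReal (‖Q.eval (φ k e : ℂ)‖ ^ 2) ∂P β := by
    intro R t ht hR
    rw [lint β _ (hm k Q), ← lintegral_const_mul' _ _ ENNReal.ofReal_ne_top]
    refine lintegral_mono fun e => ?_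
    have e1 := split Q (φ k (cons true e))
    have e2 := split Q (φ k (cons false e))
    have h1 : ((φ k (cons true e) : ℝ) : ℂ) ^ 2 = φ (k + 1) e + c := by
      rw [← Complex.ofReal_pow, h.sq]; simp only [c]; push_cast; ring
    rw [h.neg, Complex.ofReal_neg, neg_sq] at e2
    rw [h1, ← taylor_eval, ← taylor_eval] at e1 e2
    rw [h.neg, Complex.ofReal_neg, e1, e2, neg_mul, ← sub_eq_add_neg]
    have h2 := parallelogram_law_with_norm ℝ (A.eval (φ (k + 1) e : ℂ))
      ((φ k (cons true e) : ℂ) * B.eval (φ (k + 1) e : ℂ))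
    have h3 : 16 * 4 ^ k ≤ φ k (cons true e) ^ 2 := by
      have := pow_le_pow_left₀ (by positivity) (h.ge k e) 2
      rw [← pow_mul, mul_comm, pow_mul, pow_add, show (2 : ℝ) ^ 2 = 4 by norm_num] at this
      linarith
    have h4 := hR e
    rw [norm_mul, Complex.norm_real, Real.norm_eq_abs] at h2
    refine le_trans ?_ (add_le_add (mul_le_mul_left (hβ _) _) (mul_le_mul_left (hβ _) _))
    rw [← mul_add, ← ENNReal.ofReal_add (by positivity) (by positivity), ← ENNReal.ofReal_mul ht,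
      show (4⁻¹ : ℝ≥0∞) = ENNReal.ofReal 4⁻¹ by rw [ENNReal.ofReal_inv_of_pos (by norm_num)]; simp,
      ← ENNReal.ofReal_mul (by positivity)]
    refine ENNReal.ofReal_le_ofReal ?_
    have h5 := mul_le_mul_of_nonneg_right h3 (sq_nonneg ‖B.eval (φ (k + 1) e : ℂ)‖)
    have h6 := sq_abs (φ k (cons true e))
    nlinarith
  rcases Nat.even_or_odd' n with ⟨m, e | e⟩
  · obtain ⟨a1, a2⟩ := contract_monic (Q := Q) (m := m) (by rw [← e, ← hn]; exact hQ) (by omega) c
    have := ih m (by omega) (k + 1) A a1 a2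
    rw [if_neg (by omega)] at this
    refine le_trans ?_ (key A 4⁻¹ (by norm_num) fun e => ?_)
    · refine le_trans (le_of_eq ?_) (mul_le_mul_right this _)
      rw [ENNReal.ofReal_inv_of_pos (by norm_num), pow_succ', ← mul_assoc]
      simp [ENNReal.inv_mul_cancel]
    · have : 0 ≤ 16 * 4 ^ k * ‖B.eval (φ (k + 1) e : ℂ)‖ ^ 2 := by positivity
      nlinarith [sq_nonneg ‖A.eval (φ (k + 1) e : ℂ)‖]
  · obtain ⟨a1, a2⟩ := contract_monic (Q := Q.divX) (m := m)
      (by rw [coeff_divX, ← e, ← hn]; exact hQ) (by rw [natDegree_divX_eq_natDegree_tsub_one]; omega) c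
    have := ih m (by omega) (k + 1) B a1 a2
    have h1 : (1 : ℝ≥0∞) ≤ ∫⁻ e, ENNReal.ofReal (‖B.eval (φ (k + 1) e : ℂ)‖ ^ 2) ∂P β := by
      refine le_trans ?_ this
      split_ifs
      · exact le_rfl
      · exact one_le_pow₀ (by norm_num)
    refine le_trans ?_ (key B (4 ^ k) (by positivity) fun e => ?_)
    · refine le_trans (le_of_eq ?_) (mul_le_mul_right h1 _)
      rw [ENNReal.ofReal_pow (by norm_num)]
      simp
    · have : 0 ≤ 4 ^ k * ‖B.eval (φ (k + 1) e : ℂ)‖ ^ 2 := by positivity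
      nlinarith [sq_nonneg ‖A.eval (φ (k + 1) e : ℂ)‖]

end H18Cantor
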