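import Pool.Agent.Lib.helper18.Cantor3

open MeasureTheory Set Filter Topology Polynomial
open scoped ENNReal

namespace H18Cantor

noncomputable def bern (p q : ℝ≥0∞) : Measure Bool := p • Measure.dirac true + q • Measure.dirac false

lemma bern_true (p q : ℝ≥0∞) : bern p q {true} = p := by simp [bern]

lemma bern_false (p q : ℝ≥0∞) : bern p q {false} = q := by simp [bern]

lemma bern_prob {p q : ℝ≥0∞} (h : p + q = 1) : IsProbabilityMeasure (bern p q) :=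
  ⟨by simp [bern, h]⟩

lemma conv {K : Set ℂ} {D : ℝ} (hD : 0 < D) (hre : ∀ z ∈ K, (z.re : ℂ) = z)
    (hKD : ∀ x ∈ K, ∀ y ∈ K, ‖x - y‖ ≤ D) (ρ : Measure ℂ) [IsProbabilityMeasure ρ] [NullSingletonClass ρ]
    (hK : ρ Kᶜ = 0) :
    (∀ᵐ p ∂ρ.prod ρ, 0 ≤ Real.log D - Real.log ‖p.1 - p.2‖) ∧
    H18Widom.En D (ρ.map Complex.re) (ρ.map Complex.re) =
      ∫⁻ p, ENNReal.ofReal (Real.log D - Real.log ‖p.1 - p.2‖) ∂ρ.prod ρ := by
  have hK' : ∀ᵐ x ∂ρ, x ∈ K := hK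
  have h1 : ∀ᵐ p ∂ρ.prod ρ, p.1 ∈ K := Measure.quasiMeasurePreserving_fst.ae hK'
  have h2 : ∀ᵐ p ∂ρ.prod ρ, p.2 ∈ K := Measure.quasiMeasurePreserving_snd.ae hK'
  have h3 : ∀ᵐ p ∂ρ.prod ρ, p.1 ≠ p.2 := by
    refine (Measure.ae_prod_iff_ae_ae (p := fun p : ℂ × ℂ => p.1 ≠ p.2)
      (measurableSet_eq_fun measurable_fst measurable_snd).compl).2 ?_
    exact ae_of_all _ fun x => (Measure.ae_ne ρ x).mono fun y hy => hy.symm
  constructor
  · filter_upwards [h1, h2, h3] with p a b c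
    exact sub_nonneg.2 (Real.log_le_log (norm_pos_iff.2 (sub_ne_zero.2 c)) (hKD _ a _ b))
  · have m := H18Widom.k_meas D
    have mr := Complex.measurable_re
    rw [H18Widom.En, lintegral_map (H18Widom.U_meas D _) mr]
    simp only [H18Widom.U, lintegral_map (H18Widom.k_meas1 D _) mr]
    rw [← lintegral_prod (fun p : ℂ × ℂ => H18Widom.k D p.1.re p.2.re)
      (m.comp ((mr.comp measurable_fst).prodMk (mr.comp measurable_snd))).aemeasurable]
    refine lintegral_congr_ae ?_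
    filter_upwards [h1, h2, h3] with p a b c
    have e : |p.1.re - p.2.re| = ‖p.1 - p.2‖ := by
      conv_rhs => rw [← hre _ a, ← hre _ b, ← Complex.ofReal_sub, Complex.norm_real]
      rfl
    have c' := norm_pos_iff.2 (sub_ne_zero.2 c)
    rw [H18Widom.k, if_neg (sub_ne_zero.1 (abs_pos.1 (e ▸ c'))), e, Real.log_div hD.ne' c'.ne']

variable {φ : ℕ → Om → ℝ} (h : Nest φ)

noncomputable def ψ (φ : ℕ → Om → ℝ) (e : Om) : ℂ := φ 0 e

include h

lemma Nest.ψ_cont : Continuous (ψ φ) := Complex.continuous_ofReal.comp (h.cont 0)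

lemma Nest.ψ_emb : MeasurableEmbedding (ψ φ) :=
  (h.ψ_cont.isClosedEmbedding (Complex.ofReal_injective.comp (h.inj 0))).measurableEmbedding

variable (β : Measure Bool) [IsProbabilityMeasure β]

lemma Nest.null {r : ℝ≥0∞} (hr : r < 1) (hβ : ∀ b, β {b} ≤ r) :
    NullSingletonClass ((P β).map (ψ φ)) := by
  have : NullSingletonClass (P β) := ⟨atom β hr hβ⟩
  refine ⟨fun z => ?_⟩
  rw [h.ψ_emb.map_apply]
  exact (Set.subsingleton_singleton.preimage h.ψ_emb.injective).measure_zero _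

lemma Nest.supp : (P β).map (ψ φ) (range (ψ φ))ᶜ = 0 := by
  rw [h.ψ_emb.map_apply]
  simp

theorem Nest.equil (hβ : ∀ b, β {b} = 2⁻¹) :
    Integrable (fun p : ℂ × ℂ => Real.log ‖p.1 - p.2‖) (((P β).map (ψ φ)).prod ((P β).map (ψ φ))) ∧
    ∫ p, Real.log ‖p.1 - p.2‖ ∂(((P β).map (ψ φ)).prod ((P β).map (ψ φ))) = 0 ∧
    ∀ ρ : Measure ℂ, IsProbabilityMeasure ρ → ρ (range (ψ φ))ᶜ = 0 → NullSingletonClass ρ →
      Integrable (fun p : ℂ × ℂ => Real.log ‖p.1 - p.2‖) (ρ.prod ρ) →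
      ∫ p, Real.log ‖p.1 - p.2‖ ∂(ρ.prod ρ) ≤ 0 := by
  set ν := (P β).map (ψ φ) with hν
  have : IsProbabilityMeasure ν := Measure.isProbabilityMeasure_map h.ψ_emb.measurable.aemeasurable
  have := h.null β (r := 2⁻¹) (by simp) fun b => (hβ b).le
  have mr := Complex.measurable_re
  have hD : (0 : ℝ) < 2 ^ 4 := by positivity
  have hL : 0 ≤ Real.log (2 ^ 4) := Real.log_nonneg (by norm_num)
  have hre : ∀ z ∈ range (ψ φ), (z.re : ℂ) = z := by
    rintro _ ⟨e, rfl⟩; simp [ψ]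
  have hKD : ∀ x ∈ range (ψ φ), ∀ y ∈ range (ψ φ), ‖x - y‖ ≤ 2 ^ 4 := by
    rintro _ ⟨x, rfl⟩ _ ⟨y, rfl⟩
    rw [ψ, ψ, ← Complex.ofReal_sub, Complex.norm_real]
    exact h.diam 0 x y
  have hK : IsClosed (range (φ 0)) := (isCompact_range (h.cont 0)).isClosed
  have hs : ∀ ρ : Measure ℂ, ρ (range (ψ φ))ᶜ = 0 → ρ.map Complex.re (range (φ 0))ᶜ = 0 := by
    intro ρ hρ
    rw [Measure.map_apply mr hK.measurableSet.compl]
    refine measure_mono_null ?_ hρ
    rintro _ hz ⟨e, rfl⟩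
    exact hz ⟨e, by simp [ψ]⟩
  have hmin : ∀ ρ : Measure ℂ, IsProbabilityMeasure ρ → ρ (range (ψ φ))ᶜ = 0 →
      H18Widom.En (2 ^ 4) (ν.map Complex.re) (ν.map Complex.re) = ENNReal.ofReal (Real.log (2 ^ 4)) ∧
      H18Widom.En (2 ^ 4) (ν.map Complex.re) (ν.map Complex.re) ≤
        H18Widom.En (2 ^ 4) (ρ.map Complex.re) (ρ.map Complex.re) := by
    intro ρ _ hρ
    have : IsProbabilityMeasure (ν.map Complex.re) := Measure.isProbabilityMeasure_map mr.aemeasurable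
    have : IsProbabilityMeasure (ρ.map Complex.re) := Measure.isProbabilityMeasure_map mr.aemeasurable
    refine H18Widom.minimal (K := range (φ 0)) hD ?_ _ _ (hs ν (h.supp β)) (hs ρ hρ)
      ENNReal.ofReal_ne_top ?_
    · rintro _ ⟨x, rfl⟩ _ ⟨y, rfl⟩
      exact h.diam 0 x y
    · rintro _ ⟨x, rfl⟩
      rw [H18Widom.U, lintegral_map (H18Widom.k_meas1 _ _) mr, hν, h.ψ_emb.lintegral_map,
        ← h.pot hβ x]
      simp [ψ, kk]
  obtain ⟨c1, c2⟩ := conv hD hre hKD ν (h.supp β)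
  have c3 := (hmin ν inferInstance (h.supp β)).1
  rw [c2] at c3
  have i1 : Integrable (fun p : ℂ × ℂ => Real.log (2 ^ 4) - Real.log ‖p.1 - p.2‖) (ν.prod ν) := by
    refine ⟨Measurable.aestronglyMeasurable (by fun_prop), ?_⟩
    rw [hasFiniteIntegral_iff_ofReal c1, c3]
    exact ENNReal.ofReal_lt_top
  have i2 : Integrable (fun p : ℂ × ℂ => Real.log ‖p.1 - p.2‖) (ν.prod ν) := by
    refine ((integrable_const (Real.log (2 ^ 4))).sub i1).congr (ae_of_all _ fun p => ?_)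
    simp
  refine ⟨i2, ?_, fun ρ _ hρ _ i3 => ?_⟩
  · rw [← ofReal_integral_eq_lintegral_ofReal i1 c1,
      ENNReal.ofReal_eq_ofReal_iff (integral_nonneg_of_ae c1) hL,
      integral_sub (integrable_const _) i2] at c3
    simpa using c3
  · obtain ⟨d1, d2⟩ := conv hD hre hKD ρ hρ
    obtain ⟨d3, d4⟩ := hmin ρ inferInstance hρ
    rw [d3, d2, ← ofReal_integral_eq_lintegral_ofReal
        (f := fun p : ℂ × ℂ => Real.log (2 ^ 4) - Real.log ‖p.1 - p.2‖)
        ((integrable_const _).sub i3) d1,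
      ENNReal.ofReal_le_ofReal_iff (integral_nonneg_of_ae d1),
      integral_sub (integrable_const _) i3] at d4
    simpa using d4

theorem Nest.l2' (hβ : ∀ b, 4⁻¹ ≤ β {b}) (Q : ℂ[X]) (hQ : Q.Monic) :
    1 ≤ ∫ z, ‖Q.eval z‖ ^ 2 ∂(P β).map (ψ φ) := by
  have h1 := h.l2 hβ _ 0 Q hQ rfl
  have hc : Continuous fun e => ‖Q.eval (ψ φ e)‖ ^ 2 := by
    have := h.ψ_cont
    fun_prop
  rw [pow_zero, ite_self] at h1
  rw [h.ψ_emb.integral_map, ← ENNReal.one_le_ofReal, ofReal_integral_eq_lintegral_ofReal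
    (hc.integrable_of_hasCompactSupport (HasCompactSupport.of_compactSpace _))
    (ae_of_all _ fun e => by positivity)]
  exact h1

end H18Cantor
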