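import Mathlib

open Polynomial Filter Topology Finset Matrix

namespace H18Diam

noncomputable def vand {n : ℕ} (w : Fin n → ℂ) : ℝ :=
  ∏ μ : Fin n, ∏ ν ∈ Finset.Ioi μ, ‖w μ - w ν‖

noncomputable def dn (E : Set ℂ) (n : ℕ) : ℝ :=
  (sSup {x : ℝ | ∃ w : Fin n → ℂ, (∀ i, w i ∈ E) ∧ x = vand w}) ^ ((2 : ℝ) / (n * (n - 1)))

lemma vand_eq {n : ℕ} (w : Fin n → ℂ) : vand w = ‖(vandermonde w).det‖ := by
  rw [det_vandermonde, vand, norm_prod]
  refine Finset.prod_congr rfl fun i _ => ?_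
  rw [norm_prod]
  refine Finset.prod_congr rfl fun j _ => norm_sub_rev _ _

lemma vand_nonneg {n : ℕ} (w : Fin n → ℂ) : 0 ≤ vand w := by
  rw [vand_eq]; exact norm_nonneg _

lemma vand_cont (n : ℕ) : Continuous (fun w : Fin n → ℂ => vand w) := by
  unfold vand
  fun_prop

lemma exists_max {E : Set ℂ} (hE : IsCompact E) (hne : E.Nonempty) (n : ℕ) :
    ∃ a : Fin n → ℂ, (∀ i, a i ∈ E) ∧ (∀ w : Fin n → ℂ, (∀ i, w i ∈ E) → vand w ≤ vand a) ∧
      sSup {x : ℝ | ∃ w : Fin n → ℂ, (∀ i, w i ∈ E) ∧ x = vand w} = vand a := by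
  have hc : IsCompact (Set.pi Set.univ (fun _ : Fin n => E)) := isCompact_univ_pi fun _ => hE
  obtain ⟨e, he⟩ := hne
  obtain ⟨a, ha, hmax⟩ := hc.exists_isMaxOn ⟨fun _ => e, fun _ _ => he⟩ (vand_cont n).continuousOn
  have h1 : ∀ w : Fin n → ℂ, (∀ i, w i ∈ E) → vand w ≤ vand a := fun w hw =>
    hmax (fun i _ => hw i)
  refine ⟨a, fun i => ha i trivial, h1, ?_⟩
  apply IsGreatest.csSup_eq
  refine ⟨⟨a, fun i => ha i trivial, rfl⟩, ?_⟩
  rintro x ⟨w, hw, rfl⟩
  exact h1 w hw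

lemma det_bound {n : ℕ} (A : Matrix (Fin n) (Fin n) ℂ) (B : Fin n → ℝ)
    (h : ∀ i j, ‖A i j‖ ≤ B j) : ‖A.det‖ ≤ n.factorial * ∏ j, B j := by
  rw [det_apply']
  refine (norm_sum_le _ _).trans ?_
  have : ∀ σ : Equiv.Perm (Fin n), ‖((Equiv.Perm.sign σ : ℤ) : ℂ) * ∏ i, A (σ i) i‖ ≤ ∏ j, B j := by
    intro σ
    rw [norm_mul, norm_prod]
    have : ‖((Equiv.Perm.sign σ : ℤ) : ℂ)‖ = 1 := by
      rcases Int.units_eq_one_or (Equiv.Perm.sign σ) with h | h <;> simp [h]
    rw [this, one_mul]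
    exact Finset.prod_le_prod (fun _ _ => norm_nonneg _) fun j _ => h _ _
  refine (Finset.sum_le_sum fun σ _ => this σ).trans ?_
  simp [Fintype.card_perm]

/-- bound of the Vandermonde product through a small monic polynomial -/
lemma vand_le {E : Set ℂ} (q : ℂ[X]) (hq : q.Monic) (k : ℕ) (hk : q.natDegree = k) (hk0 : 0 < k)
    (θ R : ℝ) (hθ : 0 < θ) (hθ1 : θ ≤ 1) (hR : 1 ≤ R) (hqE : ∀ z ∈ E, ‖q.eval z‖ ≤ θ)
    (hRE : ∀ z ∈ E, ‖z‖ ≤ R) (N : ℕ) (w : Fin N → ℂ) (hw : ∀ i, w i ∈ E) :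
    vand w ≤ ((N : ℝ) * (R ^ k / θ)) ^ N * θ ^ (((N : ℝ) * (N - 1)) / (2 * k)) := by
  rw [vand_eq, det_eval_matrixOfPolynomials_eq_det_vandermonde w
    (fun j => q ^ ((j : ℕ) / k) * X ^ ((j : ℕ) % k))]
  · refine (det_bound _ (fun j => (R ^ k / θ) * θ ^ (((j : ℕ) : ℝ) / k)) ?_).trans ?_
    · intro i j
      simp only [of_apply, eval_mul, eval_pow, eval_X, norm_mul, norm_pow]
      have h1 : ‖q.eval (w i)‖ ^ ((j : ℕ) / k) ≤ θ ^ ((j : ℕ) / k) :=
        pow_le_pow_left₀ (norm_nonneg _) (hqE _ (hw i)) _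
      have h2 : ‖w i‖ ^ ((j : ℕ) % k) ≤ R ^ k :=
        (pow_le_pow_left₀ (norm_nonneg _) (hRE _ (hw i)) _).trans
          (pow_le_pow_right₀ hR (Nat.mod_lt _ hk0).le)
      have h3 : θ ^ ((j : ℕ) / k) ≤ θ ^ (((j : ℕ) : ℝ) / k) / θ := by
        rw [le_div_iff₀ hθ, ← pow_succ, ← Real.rpow_natCast]
        apply Real.rpow_le_rpow_of_exponent_ge hθ hθ1
        rw [div_le_iff₀ (by exact_mod_cast hk0)]
        have h4 := Nat.div_add_mod' (j : ℕ) k
        have h5 := Nat.mod_lt (j : ℕ) hk0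
        have h6 : (j : ℕ) ≤ ((j : ℕ) / k + 1) * k := by nlinarith
        exact_mod_cast h6
      calc _ ≤ θ ^ ((j : ℕ) / k) * R ^ k :=
            mul_le_mul h1 h2 (by positivity) (by positivity)
        _ ≤ (θ ^ (((j : ℕ) : ℝ) / k) / θ) * R ^ k := by gcongr
        _ = _ := by ring
    · rw [Finset.prod_mul_distrib, Finset.prod_const, Finset.card_univ, Fintype.card_fin,
        ← Real.rpow_sum_of_pos hθ, ← Finset.sum_div, mul_pow, mul_assoc]
      have hs : ∑ j : Fin N, ((j : ℕ) : ℝ) = (N : ℝ) * (N - 1) / 2 := by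
        rw [Fin.sum_univ_eq_sum_range (fun j => (j : ℝ)) N]
        clear hw w
        induction N with
        | zero => simp
        | succ N ih => rw [Finset.sum_range_succ, ih]; push_cast; ring
      rw [hs, div_div]
      gcongr
      exact_mod_cast Nat.factorial_le_pow N
  · intro j
    rw [Monic.natDegree_mul (hq.pow _) (monic_X_pow _), hq.natDegree_pow, natDegree_X_pow, hk]
    exact Nat.div_add_mod' _ _
  · intro j
    exact (hq.pow _).mul (monic_X_pow _)

lemma tendsto_aux (C : ℝ) (hC : 0 < C) :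
    Tendsto (fun N : ℕ => ((N : ℝ) * C) ^ ((2 : ℝ) / (N - 1))) atTop (𝓝 1) := by
  have h1 : Tendsto (fun x : ℝ => Real.log (x * C) * (2 / (x - 1))) atTop (𝓝 0) := by
    have h2 : Tendsto (fun x : ℝ => Real.log x / (x - 1)) atTop (𝓝 0) := by
      have := Real.tendsto_pow_log_div_mul_add_atTop 1 (-1) 1 one_ne_zero
      simpa [sub_eq_add_neg] using this
    have h3 : Tendsto (fun x : ℝ => Real.log C / (x - 1)) atTop (𝓝 0) :=
      tendsto_const_nhds.div_atTop (tendsto_atTop_add_const_right _ (-1) tendsto_id)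
    have h4 := (h2.add h3).const_mul 2
    simp only [add_zero, mul_zero] at h4
    refine h4.congr' ?_
    filter_upwards [eventually_gt_atTop 0] with x hx
    rw [Real.log_mul hx.ne' hC.ne']; ring
  have h5 := (Real.continuous_exp.tendsto 0).comp (h1.comp tendsto_natCast_atTop_atTop)
  rw [Real.exp_zero] at h5
  refine h5.congr' ?_
  filter_upwards [eventually_gt_atTop 0] with N hN
  have : (0 : ℝ) < N * C := by positivity
  simp only [Function.comp]
  rw [Real.rpow_def_of_pos this]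

lemma nonempty_of {E : Set ℂ} (h : Tendsto (dn E) atTop (𝓝 1)) : E.Nonempty := by
  by_contra hne
  rw [Set.not_nonempty_iff_eq_empty] at hne
  subst hne
  have : Tendsto (dn ∅) atTop (𝓝 0) := by
    refine tendsto_const_nhds.congr' ?_
    filter_upwards [eventually_ge_atTop 2] with N hN
    have e : {x : ℝ | ∃ w : Fin N → ℂ, (∀ i, w i ∈ (∅ : Set ℂ)) ∧ x = vand w} = ∅ := by
      ext x
      simp only [Set.mem_setOf_eq, Set.mem_empty_iff_false, iff_false]
      rintro ⟨w, hw, -⟩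
      exact hw ⟨0, by omega⟩
    have h2 : (2 : ℝ) ≤ N := by exact_mod_cast hN
    rw [dn, e, Real.sSup_empty, Real.zero_rpow]
    have : (0 : ℝ) < N * (N - 1) := by nlinarith
    positivity
  exact one_ne_zero (tendsto_nhds_unique h this)

/-- Chebyshev constants are at least one -/
lemma cheb {E : Set ℂ} (hE : IsCompact E) (h : Tendsto (dn E) atTop (𝓝 1)) (q : ℂ[X])
    (hq : q.Monic) : ∃ z ∈ E, 1 ≤ ‖q.eval z‖ := by
  have hne := nonempty_of h
  obtain ⟨z, hz, hmax⟩ := hE.exists_isMaxOn hne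
    (f := fun z => ‖q.eval z‖) (q.continuous.norm).continuousOn
  refine ⟨z, hz, ?_⟩
  by_contra hlt
  push Not at hlt
  rcases Nat.eq_zero_or_pos q.natDegree with h0 | hk0
  · rw [hq.natDegree_eq_zero.1 h0] at hlt
    simp at hlt
  obtain ⟨R0, hR0⟩ := hE.isBounded.exists_norm_le
  set k := q.natDegree
  set θ := max ‖q.eval z‖ (1 / 2) with hθdef
  have hθ : 0 < θ := lt_of_lt_of_le (by norm_num) (le_max_right _ _)
  have hθ1 : θ < 1 := max_lt hlt (by norm_num)
  set R := max R0 1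
  have hR : 1 ≤ R := le_max_right _ _
  have hC : 0 < R ^ k / θ := by positivity
  have hb : ∀ᶠ N : ℕ in atTop,
      dn E N ≤ ((N : ℝ) * (R ^ k / θ)) ^ ((2 : ℝ) / (N - 1)) * θ ^ ((1 : ℝ) / k) := by
    filter_upwards [eventually_ge_atTop 2] with N hN
    obtain ⟨a, ha, -, hs⟩ := exists_max hE hne N
    have h2 : (2 : ℝ) ≤ N := by exact_mod_cast hN
    have hN1 : (0 : ℝ) < N - 1 := by linarith
    have hN0 : (0 : ℝ) < N := by linarith
    have hk' : (0 : ℝ) < k := by exact_mod_cast hk0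
    rw [dn, hs]
    have := vand_le q hq k rfl hk0 θ R hθ hθ1.le hR
      (fun y hy => (hmax hy).trans (le_max_left _ _))
      (fun y hy => (hR0 y hy).trans (le_max_left _ _)) N a ha
    refine (Real.rpow_le_rpow (vand_nonneg a) this (by positivity)).trans (le_of_eq ?_)
    rw [Real.mul_rpow (by positivity) (by positivity), ← Real.rpow_natCast,
      ← Real.rpow_mul (by positivity), ← Real.rpow_mul hθ.le]
    congr 2 <;> field_simp
  have hlim := (tendsto_aux _ hC).mul_const (θ ^ ((1 : ℝ) / k))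
  have := le_of_tendsto_of_tendsto h hlim hb
  have h3 : θ ^ ((1 : ℝ) / k) < 1 := Real.rpow_lt_one hθ.le hθ1 (by
    have : (0 : ℝ) < k := by exact_mod_cast hk0
    positivity)
  linarith

lemma cheb' {E : Set ℂ} (hE : IsCompact E) (h : Tendsto (dn E) atTop (𝓝 1)) (k : ℕ) (p : ℂ[X])
    (hp : p.natDegree ≤ k) : ∃ z ∈ E, ‖p.coeff k‖ ≤ ‖p.eval z‖ := by
  by_cases h0 : p.coeff k = 0
  · obtain ⟨e, he⟩ := nonempty_of h
    exact ⟨e, he, by simp [h0]⟩
  have hd : p.natDegree = k := le_antisymm hp (le_natDegree_of_ne_zero h0)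
  have hm : (C (p.coeff k)⁻¹ * p).Monic := by
    apply monic_C_mul_of_mul_leadingCoeff_eq_one
    rw [leadingCoeff, hd, inv_mul_cancel₀ h0]
  obtain ⟨z, hz, h1⟩ := cheb hE h _ hm
  refine ⟨z, hz, ?_⟩
  rw [eval_mul, eval_C, norm_mul, norm_inv] at h1
  have : 0 < ‖p.coeff k‖ := norm_pos_iff.2 h0
  rw [inv_mul_eq_div, le_div_iff₀ this, one_mul] at h1
  exact h1

lemma infinite_of {E : Set ℂ} (hE : IsCompact E) (h : Tendsto (dn E) atTop (𝓝 1)) :
    E.Infinite := by
  intro hf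
  obtain ⟨z, hz, h1⟩ := cheb hE h (∏ e ∈ hf.toFinset, (X - C e))
    (monic_prod_of_monic _ _ fun e _ => monic_X_sub_C e)
  rw [eval_prod, Finset.prod_eq_zero (i := z) (by simpa using hz) (by simp)] at h1
  norm_num at h1

/-- the leading-coefficient functional at Fekete points -/
lemma functional {E : Set ℂ} (hE : IsCompact E) (h : Tendsto (dn E) atTop (𝓝 1)) (k : ℕ) :
    ∃ a c : Fin (k + 1) → ℂ, (∀ i, a i ∈ E) ∧ (∀ i, ‖c i‖ ≤ 1) ∧
      ∀ j : Fin (k + 1), ∑ i, c i * a i ^ (j : ℕ) = if j = Fin.last k then 1 else 0 := by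
  obtain ⟨a, ha, hmax, -⟩ := exists_max hE (nonempty_of h) (k + 1)
  have hpos : 0 < vand a := by
    let f := (infinite_of hE h).natEmbedding
    refine lt_of_lt_of_le ?_ (hmax (fun i => (f i : ℂ)) fun i => (f i).2)
    rw [vand_eq, norm_pos_iff, det_vandermonde_ne_zero_iff]
    intro i j hij
    exact Fin.ext (f.injective (Subtype.ext hij))
  set A := (vandermonde a)ᵀ with hA
  have hdet : ‖A.det‖ = vand a := by rw [hA, det_transpose, vand_eq]
  have hd0 : A.det ≠ 0 := by rw [← norm_pos_iff, hdet]; exact hpos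
  refine ⟨a, fun i => (A.det)⁻¹ * cramer A (Pi.single (Fin.last k) 1) i, ha, ?_, ?_⟩
  · intro i
    let p : ℂ[X] := ∑ j : Fin (k + 1), C (cramer A (Pi.single j 1) i) * X ^ (j : ℕ)
    have hp : p.natDegree ≤ k := by
      refine natDegree_sum_le_of_forall_le _ _ fun j _ => ?_
      exact (natDegree_C_mul_X_pow_le _ _).trans (Nat.lt_succ_iff.1 j.2)
    have hc : p.coeff k = cramer A (Pi.single (Fin.last k) 1) i := by
      simp only [p, finset_sum_coeff, coeff_C_mul_X_pow]
      rw [Finset.sum_eq_single (Fin.last k)]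
      · simp
      · intro j _ hj
        rw [if_neg]
        intro e
        exact hj (Fin.ext (by simp [← e]))
      · simp
    obtain ⟨z, hz, h1⟩ := cheb' hE h k p hp
    have he : p.eval z = (vandermonde (Function.update a i z)).det := by
      have e1 : (fun j : Fin (k + 1) => z ^ (j : ℕ)) =
          ∑ j : Fin (k + 1), z ^ (j : ℕ) • (Pi.single j (1 : ℂ) : Fin (k + 1) → ℂ) := by
        ext l
        simp [Finset.sum_apply, Pi.single_apply]
      have e2 : vandermonde (Function.update a i z) =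
          (vandermonde a).updateRow i (fun j : Fin (k + 1) => z ^ (j : ℕ)) := by
        ext l m
        by_cases hl : l = i
        · subst hl; simp
        · simp [updateRow_ne hl, Function.update_of_ne hl]
      rw [e2, ← cramer_transpose_apply, e1, map_sum]
      simp only [p, eval_finset_sum, eval_mul, eval_C, eval_pow, eval_X, Finset.sum_apply,
        map_smul, Pi.smul_apply, smul_eq_mul]
      exact Finset.sum_congr rfl fun j _ => mul_comm _ _
    have h2 := hmax (Function.update a i z) (by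
      intro l
      by_cases hl : l = i
      · subst hl; simpa using hz
      · simpa [Function.update_of_ne hl] using ha l)
    rw [vand_eq, ← he] at h2
    rw [norm_mul, norm_inv, hdet, ← hc, inv_mul_eq_div, div_le_one hpos]
    exact h1.trans h2
  · intro j
    have := congrFun (mulVec_cramer A (Pi.single (Fin.last k) 1)) j
    simp only [mulVec, dotProduct, hA, transpose_apply, vandermonde_apply, Pi.smul_apply,
      smul_eq_mul] at this
    simp only [mul_assoc, ← Finset.mul_sum]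
    rw [Finset.sum_congr rfl fun i _ => mul_comm _ _, this, ← mul_assoc, inv_mul_cancel₀ hd0,
      one_mul, Pi.single_apply]

lemma coeff_bound {E : Set ℂ} (hE : IsCompact E) (h : Tendsto (dn E) atTop (𝓝 1)) {n D : ℕ}
    (P : MvPolynomial (Fin n) ℂ) (hP : P.IsHomogeneous D) (B : ℝ)
    (hB : ∀ w : Fin n → ℂ, (∀ i, w i ∈ E) → ‖MvPolynomial.eval w P‖ ≤ B)
    (k : Fin n →₀ ℕ) (hk : k ∈ P.support) :
    ‖P.coeff k‖ ≤ (∏ j, ((k j : ℝ) + 1)) * B := by
  choose a c ha hc hac using functional hE h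
  have hdeg : ∀ α ∈ P.support, ∑ j, α j = D := by
    intro α hα
    have := hP (MvPolynomial.mem_support_iff.1 hα)
    rw [← this, Finsupp.weight_apply, Finsupp.sum_fintype _ _ (by simp)]
    simp
  have key : P.coeff k = ∑ i : (∀ j : Fin n, Fin (k j + 1)),
      (∏ j, c (k j) (i j)) * MvPolynomial.eval (fun j => a (k j) (i j)) P := by
    simp only [MvPolynomial.eval_eq', Finset.mul_sum]
    rw [Finset.sum_comm]
    have e : ∀ α : Fin n →₀ ℕ, ∑ i : (∀ j : Fin n, Fin (k j + 1)),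
        (∏ j, c (k j) (i j)) * (P.coeff α * ∏ j, a (k j) (i j) ^ α j) =
        P.coeff α * ∏ j, ∑ l : Fin (k j + 1), c (k j) l * a (k j) l ^ α j := by
      intro α
      rw [Finset.prod_univ_sum, Finset.mul_sum, Fintype.piFinset_univ]
      refine Finset.sum_congr rfl fun i _ => ?_
      rw [Finset.prod_mul_distrib]; ring
    simp only [e]
    rw [Finset.sum_eq_single k]
    · have : ∀ j, ∑ l : Fin (k j + 1), c (k j) l * a (k j) l ^ k j = 1 := by
        intro j
        simpa using hac (k j) (Fin.last _)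
      simp [this]
    · intro α hα hne
      have : ∃ j, α j < k j := by
        by_contra hcon
        push Not at hcon
        apply hne
        have h1 := hdeg α hα
        have h2 := hdeg k hk
        have := (Finset.sum_eq_sum_iff_of_le (s := Finset.univ) (f := fun j => k j)
          (g := fun j => α j) (fun j _ => hcon j)).1 (by rw [h1, h2])
        ext j
        exact (this j (Finset.mem_univ _)).symm
      obtain ⟨j, hj⟩ := this
      rw [Finset.prod_eq_zero (Finset.mem_univ j), mul_zero]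
      have := hac (k j) ⟨α j, by omega⟩
      rw [if_neg] at this
      · exact this
      · intro e
        have := congrArg Fin.val e
        simp at this
        omega
    · intro h; exact absurd hk h
  rw [key]
  refine (norm_sum_le _ _).trans ?_
  have : ∀ i : (∀ j : Fin n, Fin (k j + 1)),
      ‖(∏ j, c (k j) (i j)) * MvPolynomial.eval (fun j => a (k j) (i j)) P‖ ≤ B := by
    intro i
    rw [norm_mul, norm_prod]
    have h1 : ∏ j, ‖c (k j) (i j)‖ ≤ 1 :=
      Finset.prod_le_one (fun _ _ => norm_nonneg _) fun j _ => hc _ _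
    have h2 := hB (fun j => a (k j) (i j)) fun j => ha _ _
    calc _ ≤ 1 * B := mul_le_mul h1 h2 (norm_nonneg _) zero_le_one
      _ = B := one_mul _
  refine (Finset.sum_le_sum fun i _ => this i).trans (le_of_eq ?_)
  simp [Fintype.card_pi]

/-- product theorem for homogeneous polynomials -/
lemma torus_bound {E : Set ℂ} (hE : IsCompact E) (h : Tendsto (dn E) atTop (𝓝 1)) {n D : ℕ}
    (P : MvPolynomial (Fin n) ℂ) (hP : P.IsHomogeneous D) (B : ℝ) (hB0 : 0 ≤ B)
    (hB : ∀ w : Fin n → ℂ, (∀ i, w i ∈ E) → ‖MvPolynomial.eval w P‖ ≤ B)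
    (u : Fin n → ℂ) (hu : ∀ i, ‖u i‖ = 1) :
    ‖MvPolynomial.eval u P‖ ≤ ((D : ℝ) + 1) ^ (2 * n) * B := by
  have hle : ∀ α ∈ P.support, ∀ j, α j ≤ D := by
    intro α hα j
    have := hP (MvPolynomial.mem_support_iff.1 hα)
    rw [← this, Finsupp.weight_apply, Finsupp.sum_fintype _ _ (by simp)]
    simpa using Finset.single_le_sum (f := fun j => α j) (fun _ _ => Nat.zero_le _)
      (Finset.mem_univ j)
  have hcard : P.support.card ≤ (D + 1) ^ n := by
    have : P.support.card ≤ (Fintype.piFinset fun _ : Fin n => Finset.range (D + 1)).card := by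
      refine Finset.card_le_card_of_injOn (fun α => (α : Fin n → ℕ)) ?_ ?_
      · intro α hα
        simp only [Finset.mem_coe, Fintype.mem_piFinset, Finset.mem_range]
        intro j
        exact Nat.lt_succ_of_le (hle α hα j)
      · intro α _ β _ e
        exact DFunLike.coe_injective e
    simpa using this
  rw [MvPolynomial.eval_eq']
  refine (norm_sum_le _ _).trans ?_
  have : ∀ α ∈ P.support, ‖P.coeff α * ∏ j, u j ^ α j‖ ≤ ((D : ℝ) + 1) ^ n * B := by
    intro α hα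
    rw [norm_mul, norm_prod]
    simp only [norm_pow, hu, one_pow, Finset.prod_const_one, mul_one]
    refine (coeff_bound hE h P hP B hB α hα).trans ?_
    gcongr
    calc ∏ j, ((α j : ℝ) + 1) ≤ ∏ _j : Fin n, ((D : ℝ) + 1) := by
          refine Finset.prod_le_prod (fun _ _ => by positivity) fun j _ => ?_
          have : (α j : ℝ) ≤ D := by exact_mod_cast hle α hα j
          linarith
      _ = _ := by simp
  refine (Finset.sum_le_sum this).trans ?_
  rw [Finset.sum_const, nsmul_eq_mul, two_mul, pow_add, mul_assoc]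
  gcongr
  exact_mod_cast hcard

lemma le_of_pow_le (x B : ℝ) (hB : 0 ≤ B) (D r : ℕ)
    (h : ∀ m : ℕ, x ^ m ≤ (((m * D : ℕ) : ℝ) + 1) ^ r * B ^ m) : x ≤ B := by
  by_contra hlt
  push Not at hlt
  have hx : 0 < x := lt_of_le_of_lt hB hlt
  have ht : |B / x| < 1 := by
    rw [abs_of_nonneg (by positivity), div_lt_one hx]; exact hlt
  have hl := (tendsto_pow_const_mul_const_pow_of_abs_lt_one r ht).const_mul (((D : ℝ) + 1) ^ r)
  rw [mul_zero] at hl
  have : ∀ᶠ m : ℕ in atTop, (1 : ℝ) ≤ ((D : ℝ) + 1) ^ r * ((m : ℝ) ^ r * (B / x) ^ m) := by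
    filter_upwards [eventually_ge_atTop 1] with m hm
    have hm' : (1 : ℝ) ≤ m := by exact_mod_cast hm
    have h1 := h m
    have h2 : (((m * D : ℕ) : ℝ) + 1) ^ r ≤ ((D : ℝ) + 1) ^ r * (m : ℝ) ^ r := by
      rw [← mul_pow]
      gcongr
      push_cast
      nlinarith
    rw [div_pow, ← mul_assoc, ← mul_div_assoc, le_div_iff₀ (by positivity), one_mul]
    refine h1.trans ?_
    gcongr
  have := ge_of_tendsto hl this
  linarith

lemma torus_le {E : Set ℂ} (hE : IsCompact E) (h : Tendsto (dn E) atTop (𝓝 1)) {n D : ℕ}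
    (P : MvPolynomial (Fin n) ℂ) (hP : P.IsHomogeneous D) (B : ℝ) (hB0 : 0 ≤ B)
    (hB : ∀ w : Fin n → ℂ, (∀ i, w i ∈ E) → ‖MvPolynomial.eval w P‖ ≤ B)
    (u : Fin n → ℂ) (hu : ∀ i, ‖u i‖ = 1) : ‖MvPolynomial.eval u P‖ ≤ B := by
  refine le_of_pow_le _ B hB0 D (2 * n) fun m => ?_
  have := torus_bound hE h (P ^ m) (hP.pow m) (B ^ m) (by positivity) (by
    intro w hw
    rw [map_pow, norm_pow]
    exact pow_le_pow_left₀ (norm_nonneg _) (hB w hw) _) u hu
  rw [map_pow, norm_pow, mul_comm D m] at this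
  exact this

lemma vand_le_max {E : Set ℂ} (hE : IsCompact E) (h : Tendsto (dn E) atTop (𝓝 1)) {n : ℕ}
    (B : ℝ) (hB0 : 0 ≤ B) (hB : ∀ w : Fin n → ℂ, (∀ i, w i ∈ E) → vand w ≤ B)
    (u : Fin n → ℂ) (hu : ∀ i, ‖u i‖ = 1) : vand u ≤ B := by
  let P : MvPolynomial (Fin n) ℂ :=
    ∏ μ : Fin n, ∏ ν ∈ Finset.Ioi μ, (MvPolynomial.X μ - MvPolynomial.X ν)
  have hP : P.IsHomogeneous (∑ μ : Fin n, ∑ ν ∈ Finset.Ioi μ, 1) := by
    refine MvPolynomial.IsHomogeneous.prod _ _ _ fun μ _ => ?_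
    refine MvPolynomial.IsHomogeneous.prod _ _ _ fun ν _ => ?_
    exact (MvPolynomial.isHomogeneous_X _ _).sub (MvPolynomial.isHomogeneous_X _ _)
  have he : ∀ w : Fin n → ℂ, ‖MvPolynomial.eval w P‖ = vand w := by
    intro w
    simp [P, vand, norm_prod]
  rw [← he]
  exact torus_le hE h P hP B hB0 (fun w hw => by rw [he]; exact hB w hw) u hu

lemma roots_vand (n : ℕ) (hn : 0 < n) :
    ∃ u : Fin n → ℂ, (∀ i, ‖u i‖ = 1) ∧ vand u ^ 2 = (n : ℝ) ^ n := by
  have hω := Complex.isPrimitiveRoot_exp n hn.ne'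
  set ω := Complex.exp (2 * Real.pi * Complex.I / n)
  have hω1 : ‖ω‖ = 1 := hω.norm'_eq_one hn.ne'
  have hω0 : ω ≠ 0 := hω.ne_zero hn.ne'
  refine ⟨fun i => ω ^ (i : ℕ), fun i => by rw [norm_pow, hω1, one_pow], ?_⟩
  set V := vandermonde (fun i : Fin n => ω ^ (i : ℕ))
  have hV : Vᴴ * V = (n : ℂ) • (1 : Matrix (Fin n) (Fin n) ℂ) := by
    ext j k
    simp only [mul_apply, conjTranspose_apply, V, vandermonde_apply, Matrix.smul_apply,
      smul_eq_mul, star_pow]
    have hs : star ω = ω⁻¹ := by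
      rw [Complex.inv_def, Complex.normSq_eq_norm_sq, hω1]; simp
    have e : ∀ i : Fin n, (star ω ^ (i : ℕ)) ^ (j : ℕ) * (ω ^ (i : ℕ)) ^ (k : ℕ) =
        (ω ^ (k : ℕ) / ω ^ (j : ℕ)) ^ (i : ℕ) := by
      intro i
      rw [hs, div_pow, ← pow_mul, ← pow_mul, ← pow_mul, ← pow_mul, inv_pow, mul_comm (j : ℕ),
        mul_comm (k : ℕ)]
      field_simp
    simp only [e]
    rw [Fin.sum_univ_eq_sum_range (fun i => (ω ^ (k : ℕ) / ω ^ (j : ℕ)) ^ i) n]
    by_cases hjk : j = k
    · subst hjk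
      simp [div_self (pow_ne_zero _ hω0)]
    · have h1 : ω ^ (k : ℕ) / ω ^ (j : ℕ) ≠ 1 := by
        intro e
        rw [div_eq_one_iff_eq (pow_ne_zero _ hω0)] at e
        exact hjk (Fin.ext (hω.pow_inj k.2 j.2 e).symm)
      rw [geom_sum_eq h1, div_pow, ← pow_mul, ← pow_mul, mul_comm (k : ℕ), mul_comm (j : ℕ),
        pow_mul, pow_mul, hω.pow_eq_one]
      simp [one_apply_ne hjk]
  have := congrArg (fun M => ‖M.det‖) hV
  simp only [det_mul, det_conjTranspose, norm_mul, norm_star, det_smul, det_one, mul_one,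
    Fintype.card_fin, norm_pow, Complex.norm_natCast] at this
  rw [vand_eq, sq]
  exact this

theorem main {E : Set ℂ} (hE : IsCompact E) (h : Tendsto (dn E) atTop (𝓝 1)) (n : ℕ)
    (hn : 2 ≤ n) : (n : ℝ) ^ ((1 : ℝ) / (n - 1)) ≤ dn E n := by
  obtain ⟨a, ha, hmax, hs⟩ := exists_max hE (nonempty_of h) n
  obtain ⟨u, hu, hv⟩ := roots_vand n (by omega)
  have h1 := vand_le_max hE h (vand a) (vand_nonneg a) hmax u hu
  have h2 : (2 : ℝ) ≤ n := by exact_mod_cast hn
  have hN1 : (0 : ℝ) < n - 1 := by linarith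
  have hN0 : (0 : ℝ) < n := by linarith
  rw [dn, hs]
  refine le_trans (le_of_eq ?_) (Real.rpow_le_rpow (vand_nonneg u) h1 (by positivity))
  have e : (2 : ℝ) / (n * (n - 1)) = ((2 : ℕ) : ℝ) * (1 / (n * (n - 1))) := by
    push_cast; ring
  rw [e, Real.rpow_mul (vand_nonneg u), Real.rpow_natCast, hv, ← Real.rpow_natCast,
    ← Real.rpow_mul hN0.le]
  congr 1
  field_simp

end H18Diam
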