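import Mathlib

set_option autoImplicit false

open Classical Matrix Finset

namespace Pool.Agent.H18Dig

variable {V : Type} [Fintype V]

def rset (L : Matrix V V ℝ) : Set ℝ :=
  {t | ∃ x : V → ℝ, ∑ i, x i = 0 ∧ x ⬝ᵥ x = 1 ∧ x ⬝ᵥ (L *ᵥ x) = t}

lemma rset_bdd (L : Matrix V V ℝ) : ∀ t ∈ rset L, |t| ≤ ∑ i, ∑ j, |L i j| := by
  rintro t ⟨x, -, hx, rfl⟩
  have h1 : ∀ i, |x i| ≤ 1 := fun i => by
    have := Finset.single_le_sum (f := fun i => x i * x i) (fun i _ => mul_self_nonneg _)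
      (Finset.mem_univ i)
    exact abs_le_one_iff_mul_self_le_one.2 (this.trans hx.le)
  simp only [dotProduct, mulVec, Finset.mul_sum]
  refine (Finset.abs_sum_le_sum_abs _ _).trans (Finset.sum_le_sum fun i _ =>
    (Finset.abs_sum_le_sum_abs _ _).trans (Finset.sum_le_sum fun j _ => ?_))
  rw [abs_mul, abs_mul]
  have := h1 i
  have := h1 j
  have a1 := abs_nonneg (L i j)
  have a2 := abs_nonneg (x j)
  have : |L i j| * |x j| ≤ |L i j| := mul_le_of_le_one_right a1 (h1 j)
  exact (mul_le_of_le_one_left (by positivity) (h1 i)).trans this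

lemma ray (L : Matrix V V ℝ) (x : V → ℝ) (hx : ∑ i, x i = 0) :
    sInf (rset L) * (x ⬝ᵥ x) ≤ x ⬝ᵥ (L *ᵥ x) ∧ x ⬝ᵥ (L *ᵥ x) ≤ sSup (rset L) * (x ⬝ᵥ x) := by
  by_cases h0 : x = 0
  · simp [h0]
  have hp : 0 < x ⬝ᵥ x := by
    rcases (Finset.sum_nonneg fun i _ => mul_self_nonneg (x i) : 0 ≤ x ⬝ᵥ x).eq_or_lt with h | h
    · exact absurd (dotProduct_self_eq_zero.1 h.symm) h0
    · exact h
  set s := √(x ⬝ᵥ x)
  have hs : 0 < s := Real.sqrt_pos.2 hp
  have hss : s * s = x ⬝ᵥ x := Real.mul_self_sqrt hp.le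
  have hm : x ⬝ᵥ (L *ᵥ x) / (x ⬝ᵥ x) ∈ rset L := by
    refine ⟨s⁻¹ • x, ?_, ?_, ?_⟩
    · simp [← Finset.mul_sum, hx]
    · rw [smul_dotProduct, dotProduct_smul, ← hss]; simp only [smul_eq_mul]; field_simp
    · rw [smul_dotProduct, mulVec_smul, dotProduct_smul, ← hss]; simp only [smul_eq_mul]; field_simp
  constructor
  · rw [← le_div_iff₀ hp]
    exact csInf_le ⟨_, fun t ht => (abs_le.1 (rset_bdd L t ht)).1⟩ hm
  · rw [← div_le_iff₀ hp]
    exact le_csSup ⟨_, fun t ht => (abs_le.1 (rset_bdd L t ht)).2⟩ hm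

lemma sp_zero (L : Matrix V V ℝ) (κ : ℝ)
    (h : ∀ x : V → ℝ, ∑ i, x i = 0 → x ⬝ᵥ (L *ᵥ x) = κ * (x ⬝ᵥ x)) :
    sSup (rset L) - sInf (rset L) = 0 := by
  have : rset L ⊆ {κ} := by
    rintro t ⟨x, h1, h2, rfl⟩
    simp [h x h1, h2]
  rcases Set.subset_singleton_iff_eq.1 this with h | h <;> simp [h]

noncomputable def lap (a : V → V → Prop) : Matrix V V ℝ :=
  Matrix.of fun i j => (if i = j then (({k | a i k} : Set V).ncard : ℝ) else 0) -
    (if a i j then 1 else 0)

lemma ncard_eq (p : V → Prop) : (({k | p k} : Set V).ncard : ℤ) = ∑ k, if p k then 1 else 0 := by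
  rw [Finset.sum_boole, ← Set.ncard_coe_finset]; congr 2; ext k; simp

lemma quad (a : V → V → Prop) (x : V → ℝ) :
    x ⬝ᵥ (lap a *ᵥ x) = ∑ i, ∑ j, if a i j then x i * x i - x i * x j else 0 := by
  simp only [dotProduct, mulVec, lap, of_apply, sub_mul, Finset.sum_sub_distrib, ite_mul, zero_mul,
    Finset.sum_ite_eq, Finset.mem_univ, if_true, one_mul]
  refine Finset.sum_congr rfl fun i _ => ?_
  have : (({k | a i k} : Set V).ncard : ℝ) = ∑ k, if a i k then 1 else 0 := by
    have := ncard_eq (a i)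
    exact_mod_cast this
  rw [this, Finset.sum_mul, mul_sub, Finset.mul_sum, Finset.mul_sum, ← Finset.sum_sub_distrib]
  refine Finset.sum_congr rfl fun j _ => ?_
  split_ifs <;> simp

/-- Polarization step for a symmetric integer matrix with constant row sums. -/
lemma key (S : V → V → ℤ) (hs : ∀ i j, S i j = S j i) (h0 : ∀ i, S i i = 0) (σ : ℤ)
    (hσ : ∀ i, ∑ k, S i k = σ) (c r : ℝ)
    (hb : ∀ x : V → ℝ, ∑ i, x i = 0 →
      |∑ i, ∑ j, (S i j : ℝ) * (x i * x j) - c * (x ⬝ᵥ x)| ≤ r * (x ⬝ᵥ x))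
    (i j : V) (hij : i ≠ j) :
    (2 - r) * ((∑ k ∈ (univ.erase i).erase j, (S k i - S k j) ^ 2 : ℤ) + 2 * (S i j + c) ^ 2) ≤
      2 * r := by
  let M : Matrix V V ℝ := Matrix.of fun a b => (S a b : ℝ) - if a = b then c else 0
  have hM : ∀ x : V → ℝ, x ⬝ᵥ (M *ᵥ x) = ∑ i, ∑ j, (S i j : ℝ) * (x i * x j) - c * (x ⬝ᵥ x) := by
    intro x
    simp only [dotProduct, mulVec, M, of_apply, sub_mul, Finset.sum_sub_distrib, ite_mul, zero_mul,
      Finset.sum_ite_eq, Finset.mem_univ, if_true, mul_sub, Finset.mul_sum]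
    congr 1
    · exact Finset.sum_congr rfl fun i _ => Finset.sum_congr rfl fun j _ => by ring
    · exact Finset.sum_congr rfl fun i _ => by ring
  have hsym : ∀ x y : V → ℝ, x ⬝ᵥ (M *ᵥ y) = y ⬝ᵥ (M *ᵥ x) := by
    intro x y
    rw [dotProduct_mulVec, dotProduct_comm, ← mulVec_transpose]
    congr 2
    ext a b
    simp only [M, transpose_apply, of_apply, hs a b, eq_comm]
  let x : V → ℝ := Pi.single i 1 - Pi.single j 1
  let y : V → ℝ := M *ᵥ x
  have hy : ∀ k, y k = M k i - M k j := by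
    intro k; simp [y, x, mulVec_sub]
  have hx0 : ∑ k, x k = 0 := by simp [x, Finset.sum_sub_distrib]
  have hcol : ∀ b, ∑ k, M k b = σ - c := by
    intro b
    simp only [M, of_apply, Finset.sum_sub_distrib, Finset.sum_ite_eq', Finset.mem_univ, if_true]
    congr 1
    rw [← hσ b]; push_cast
    exact Finset.sum_congr rfl fun k _ => by rw [hs]
  have hy0 : ∑ k, y k = 0 := by simp [hy, Finset.sum_sub_distrib, hcol]
  have hxx : x ⬝ᵥ x = 2 := by
    simp [x, hij, hij.symm]; norm_num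
  have hyy : y ⬝ᵥ y = (∑ k ∈ (univ.erase i).erase j, (S k i - S k j) ^ 2 : ℤ) +
      2 * (S i j + c) ^ 2 := by
    unfold dotProduct
    rw [← Finset.add_sum_erase _ _ (Finset.mem_univ i),
      ← Finset.add_sum_erase _ _ (show j ∈ univ.erase i by simp [hij.symm])]
    have : ∑ k ∈ (univ.erase i).erase j, y k * y k =
        (∑ k ∈ (univ.erase i).erase j, (S k i - S k j) ^ 2 : ℤ) := by
      push_cast
      refine Finset.sum_congr rfl fun k hk => ?_
      simp only [Finset.mem_erase] at hk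
      simp only [hy, M, of_apply, if_neg hk.1, if_neg hk.2.1]; ring
    rw [this]
    simp only [hy, M, of_apply, if_true, if_neg hij, if_neg hij.symm, h0, hs j i]
    push_cast; ring
  have p1 := (abs_le.1 (hb (x + y) (by simp [Finset.sum_add_distrib, hx0, hy0]))).2
  have p2 := (abs_le.1 (hb (x - y) (by simp [Finset.sum_sub_distrib, hx0, hy0]))).1
  rw [← hM] at p1 p2
  simp only [mulVec_add, mulVec_sub, add_dotProduct, sub_dotProduct, dotProduct_add,
    dotProduct_sub, hsym x y, dotProduct_comm y x] at p1 p2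
  rw [← hyy]
  have e : y ⬝ᵥ (M *ᵥ x) = y ⬝ᵥ y := rfl
  rw [e, hxx] at p1 p2
  nlinarith

lemma twin (S : V → V → ℤ) (hs : ∀ i j, S i j = S j i) (h0 : ∀ i, S i i = 0) (σ : ℤ)
    (hσ : ∀ i, ∑ k, S i k = σ) (i j : V) (hij : i ≠ j)
    (ht : ∑ k ∈ (univ.erase i).erase j, (S k i - S k j) ^ 2 < 2) (k : V) (hi : k ≠ i) (hj : k ≠ j) :
    S k i = S k j := by
  have h1 : ∑ k ∈ (univ.erase i).erase j, (S k i - S k j) = 0 := by
    have : ∑ k, (S k i - S k j) = 0 := by
      rw [Finset.sum_sub_distrib]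
      simp only [hs _ i, hs _ j, hσ, sub_self]
    rw [← Finset.add_sum_erase _ _ (Finset.mem_univ i),
      ← Finset.add_sum_erase _ _ (show j ∈ univ.erase i by simp [hij.symm]), h0, h0, hs j i] at this
    linarith
  have h2 : Even (∑ k ∈ (univ.erase i).erase j, (S k i - S k j) ^ 2) := by
    rw [← add_zero (∑ k ∈ (univ.erase i).erase j, (S k i - S k j) ^ 2), ← h1,
      ← Finset.sum_add_distrib]
    refine Finset.even_sum _ fun k _ => ?_
    have := Int.even_mul_succ_self (S k i - S k j)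
    rwa [show (S k i - S k j) * (S k i - S k j + 1) = (S k i - S k j) ^ 2 + (S k i - S k j) by ring]
      at this
  have h3 : 0 ≤ ∑ k ∈ (univ.erase i).erase j, (S k i - S k j) ^ 2 :=
    Finset.sum_nonneg fun k _ => sq_nonneg _
  have h4 : ∑ k ∈ (univ.erase i).erase j, (S k i - S k j) ^ 2 = 0 := by
    obtain ⟨m, hm⟩ := h2; omega
  have := (Finset.sum_eq_zero_iff_of_nonneg fun k _ => sq_nonneg _).1 h4 k (by simp [hi, hj])
  exact sub_eq_zero.1 (pow_eq_zero_iff (by norm_num) |>.1 this)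

noncomputable def sg (a : V → V → Prop) (i j : V) : ℤ :=
  if i = j then 0 else (if a i j then 1 else 0) + (if a j i then 1 else 0) - 1

lemma sg_symm (a : V → V → Prop) (i j : V) : sg a i j = sg a j i := by
  unfold sg; by_cases h : i = j
  · simp [h]
  · rw [if_neg h, if_neg (Ne.symm h)]; ring

lemma sg_row (a : V → V → Prop) (ha : ∀ i, ¬ a i i) (i : V) : ∑ k, sg a i k =
    ({k | a i k} : Set V).ncard + ({k | a k i} : Set V).ncard - (Fintype.card V - 1 : ℤ) := by
  rw [ncard_eq, ncard_eq (fun k => a k i), ← Finset.sum_add_distrib]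
  have : ∀ k, sg a i k = ((if a i k then 1 else 0) + (if a k i then 1 else 0)) - 1 +
      if i = k then 1 else 0 := by
    intro k; unfold sg
    by_cases h : i = k
    · subst h; simp [ha]
    · simp [h]
  simp only [this, Finset.sum_add_distrib, Finset.sum_sub_distrib]
  simp; ring

lemma quad_reg (a : V → V → Prop) (ha : ∀ i, ¬ a i i) (d : ℕ)
    (hd : ∀ i, ({k | a i k} : Set V).ncard = d) (x : V → ℝ) (hx : ∑ i, x i = 0) :
    2 * (x ⬝ᵥ (lap a *ᵥ x)) = (2 * d + 1) * (x ⬝ᵥ x) - ∑ i, ∑ j, (sg a i j : ℝ) * (x i * x j) := by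
  have e1 : ∀ i j, (sg a i j : ℝ) * (x i * x j) = (if a i j then x i * x j else 0) +
      (if a j i then x j * x i else 0) - x i * x j + if i = j then x i * x j else 0 := by
    intro i j; unfold sg
    by_cases h : i = j
    · subst h; simp [ha]
    · simp only [if_neg h]; split_ifs <;> push_cast <;> ring
  have e2 : ∑ i, ∑ j, x i * x j = 0 := by simp [← Finset.mul_sum, hx]
  have e3 : ∑ i, ∑ j, (if a j i then x j * x i else 0) = ∑ i, ∑ j, if a i j then x i * x j else 0 :=
    Finset.sum_comm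
  have e4 : ∀ i, ∑ j, (if a i j then x i * x i - x i * x j else 0) =
      d * (x i * x i) - ∑ j, if a i j then x i * x j else 0 := by
    intro i
    have : (d : ℝ) = ∑ k, if a i k then 1 else 0 := by
      have := ncard_eq (a i)
      rw [hd] at this
      exact_mod_cast this
    rw [this, Finset.sum_mul, ← Finset.sum_sub_distrib]
    refine Finset.sum_congr rfl fun j _ => ?_
    split_ifs <;> simp
  rw [quad]
  simp only [e1, e4, Finset.sum_add_distrib, Finset.sum_sub_distrib, e2, e3, Finset.sum_ite_eq,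
    Finset.mem_univ, if_true, ← Finset.mul_sum, dotProduct, hx, mul_zero, Finset.sum_const_zero]
  ring

/-- A balanced digraph of spread at most one is regular. -/
lemma regular (a : V → V → Prop) (ha : ∀ i, ¬ a i i)
    (hb : ∀ i, ({k | a i k} : Set V).ncard = ({k | a k i} : Set V).ncard)
    (hsp : sSup (rset (lap a)) - sInf (rset (lap a)) ≤ 1) (i j : V) :
    ({k | a i k} : Set V).ncard = ({k | a j k} : Set V).ncard := by
  obtain ⟨n, hn⟩ : ∃ n : ℝ, n = (Fintype.card V : ℝ) := ⟨_, rfl⟩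
  have r1 : lap a *ᵥ (fun _ => (1 : ℝ)) = 0 := by
    ext i
    have : (({k | a i k} : Set V).ncard : ℝ) = ∑ k, if a i k then 1 else 0 := by
      have := ncard_eq (a i)
      exact_mod_cast this
    simp only [mulVec, dotProduct, lap, of_apply, mul_one, Finset.sum_sub_distrib,
      Finset.sum_ite_eq, Finset.mem_univ, if_true, this, sub_self, Pi.zero_apply]
  have r2 : ∀ i, ∑ k, lap a k i = 0 := by
    intro i
    have : (({k | a i k} : Set V).ncard : ℝ) = ∑ k, if a k i then 1 else 0 := by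
      have := ncard_eq (fun k => a k i)
      rw [← hb] at this
      exact_mod_cast this
    simp only [lap, of_apply, Finset.sum_sub_distrib, Finset.sum_ite_eq', Finset.mem_univ,
      if_true, this, sub_self]
  have t : ∀ i, sInf (rset (lap a)) * (n * n - n) ≤ n * n * ({k | a i k} : Set V).ncard ∧
      n * n * ({k | a i k} : Set V).ncard ≤ sSup (rset (lap a)) * (n * n - n) := by
    intro i
    have := ray (lap a) (n • Pi.single i 1 - fun _ => 1) (by
      simp [Finset.sum_sub_distrib, ← Finset.mul_sum, hn])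
    have e1 : (n • Pi.single i (1 : ℝ) - fun _ => (1 : ℝ) : V → ℝ) ⬝ᵥ
        (n • Pi.single i (1 : ℝ) - fun _ => (1 : ℝ)) = n * n - n := by
      simp only [sub_dotProduct, dotProduct_sub, smul_dotProduct, dotProduct_smul, single_dotProduct,
        dotProduct_single]
      simp [dotProduct, hn]; ring
    have e2 : (n • Pi.single i (1 : ℝ) - fun _ => (1 : ℝ) : V → ℝ) ⬝ᵥ
        (lap a *ᵥ (n • Pi.single i (1 : ℝ) - fun _ => (1 : ℝ))) =
        n * n * ({k | a i k} : Set V).ncard := by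
      rw [mulVec_sub, r1, sub_zero, mulVec_smul, dotProduct_smul, sub_dotProduct, smul_dotProduct,
        single_dotProduct]
      have : (fun _ => (1 : ℝ)) ⬝ᵥ (lap a *ᵥ Pi.single i 1) = 0 := by
        simp [dotProduct, r2]
      rw [this]
      simp [lap, ha]; ring
    rwa [e1, e2] at this
  have hn1 : 1 ≤ n := by rw [hn]; exact_mod_cast Fintype.card_pos_iff.2 ⟨i⟩
  have lt : ∀ i j, ({k | a i k} : Set V).ncard ≤ ({k | a j k} : Set V).ncard := by
    intro i j
    by_contra hc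
    have : (({k | a j k} : Set V).ncard : ℝ) + 1 ≤ ({k | a i k} : Set V).ncard := by
      exact_mod_cast not_le.1 hc
    have h1 := (t i).2
    have h2 := (t j).1
    have h3 : (sSup (rset (lap a)) - sInf (rset (lap a))) * (n * n - n) ≤ 1 * (n * n - n) :=
      mul_le_mul_of_nonneg_right hsp (by nlinarith)
    have h4 : n * n * ((({k | a j k} : Set V).ncard : ℝ) + 1) ≤
        n * n * ({k | a i k} : Set V).ncard := mul_le_mul_of_nonneg_left this (by positivity)
    nlinarith
  exact le_antisymm (lt i j) (lt j i)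

lemma bound (a : V → V → Prop) (ha : ∀ i, ¬ a i i) (d : ℕ)
    (hd : ∀ i, ({k | a i k} : Set V).ncard = d) (x : V → ℝ) (hx : ∑ i, x i = 0) :
    |∑ i, ∑ j, (sg a i j : ℝ) * (x i * x j) -
      (2 * d + 1 - sSup (rset (lap a)) - sInf (rset (lap a))) * (x ⬝ᵥ x)| ≤
      (sSup (rset (lap a)) - sInf (rset (lap a))) * (x ⬝ᵥ x) := by
  have h1 := quad_reg a ha d hd x hx
  have h2 := ray (lap a) x hx
  rw [abs_le]
  constructor <;> nlinarith [h2.1, h2.2]

lemma all_twin (a : V → V → Prop) (ha : ∀ i, ¬ a i i) (d : ℕ)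
    (hd : ∀ i, ({k | a i k} : Set V).ncard = d)
    (h : ∀ i j k, i ≠ j → k ≠ i → k ≠ j → sg a k i = sg a k j) :
    sSup (rset (lap a)) - sInf (rset (lap a)) = 0 := by
  have row : ∀ k i j, k ≠ i → k ≠ j → sg a k i = sg a k j := by
    intro k i j hi hj
    by_cases e : i = j
    · rw [e]
    · exact h i j k e hi hj
  obtain ⟨s, hs⟩ : ∃ s : ℤ, ∀ i j, i ≠ j → sg a i j = s := by
    by_cases hne : ∃ p q : V, p ≠ q
    · obtain ⟨p, q, hpq⟩ := hne
      refine ⟨sg a p q, fun i j hij => ?_⟩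
      by_cases e : i = p
      · subst e; exact row _ _ _ hij hpq
      · rw [row i j p hij e, sg_symm, row p i q (Ne.symm e) hpq]
    · exact ⟨0, fun i j hij => absurd ⟨i, j, hij⟩ hne⟩
  refine sp_zero _ ((2 * d + 1 + s) / 2) fun x hx => ?_
  have h1 := quad_reg a ha d hd x hx
  have e1 : ∀ i j, (sg a i j : ℝ) * (x i * x j) = s * (x i * x j) -
      if i = j then s * (x i * x j) else 0 := by
    intro i j
    by_cases e : i = j
    · simp [e, sg]
    · simp [e, hs i j e]
  simp only [e1, Finset.sum_sub_distrib, Finset.sum_ite_eq, Finset.mem_univ, if_true,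
    ← Finset.mul_sum, hx, mul_zero, Finset.sum_const_zero] at h1
  unfold dotProduct at h1 ⊢
  linarith

end Pool.Agent.H18Dig
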