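import Mathlib
import Pool.Agent.Lib.helper18.DigLap

set_option autoImplicit false

open Classical Matrix Finset

namespace Pool.Agent.H18Dig

variable {V : Type} [Fintype V]

lemma sg_self (a : V → V → Prop) (i : V) : sg a i i = 0 := by simp [sg]

theorem gap (a : V → V → Prop) (ha : ∀ i, ¬ a i i)
    (hb : ∀ i, ({k | a i k} : Set V).ncard = ({k | a k i} : Set V).ncard) (i0 : V)
    (h1 : sSup (rset (lap a)) - sInf (rset (lap a)) < 1) :
    sSup (rset (lap a)) - sInf (rset (lap a)) = 0 := by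
  have hd := fun i => regular a ha hb h1.le i i0
  have hσ : ∀ i, ∑ k, sg a i k = 2 * (({k | a i0 k} : Set V).ncard : ℤ) -
      (Fintype.card V - 1 : ℤ) := fun i => by
    rw [sg_row a ha, ← hb, hd]; ring
  refine all_twin a ha _ hd fun i j k hij hi hj => ?_
  refine twin _ (sg_symm a) (sg_self a) _ hσ i j hij ?_ k hi hj
  have := key _ (sg_symm a) (sg_self a) _ hσ _ _ (bound a ha _ hd) i j hij
  by_contra hc
  have h2 : (2 : ℝ) ≤ (∑ k ∈ (univ.erase i).erase j, (sg a k i - sg a k j) ^ 2 : ℤ) := by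
    exact_mod_cast not_lt.1 hc
  nlinarith [sq_nonneg ((sg a i j : ℝ) + (2 * (({k | a i0 k} : Set V).ncard : ℝ) + 1 -
    sSup (rset (lap a)) - sInf (rset (lap a))))]

/-- Combinatorial core of the spread one case. -/
lemma core (U : V → V → ℤ) (hs : ∀ i j, U i j = U j i) (h0 : ∀ i, U i i = 0) (ρ : ℤ)
    (hρ : ∀ i, ∑ k, U i k = ρ) (h1 : ∀ i j, U i j ≠ 0 → U i j ^ 2 = 1)
    (tw : ∀ i j k, U i j ≠ 0 → k ≠ i → k ≠ j → U k i = U k j) (p q : V) (hpq : p ≠ q)
    (hU : U p q = 0) (ht : ∑ k ∈ (univ.erase p).erase q, (U k p - U k q) ^ 2 = 2) :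
    ρ = 1 ∨ ρ = -1 := by
  have ne : ∀ i j, U i j ≠ 0 → i ≠ j := fun i j h e => h (e ▸ h0 i)
  have same : ∀ i k l, U i k * U i l = U i k ^ 2 * U i l ^ 2 := by
    intro i k l
    by_cases hk : U i k = 0
    · simp [hk]
    by_cases hl : U i l = 0
    · simp [hl]
    rw [h1 _ _ hk, h1 _ _ hl, one_mul, ← h1 _ _ hk, sq]
    congr 1
    by_cases e : k = l
    · rw [e]
    have a1 := tw i k l hk (ne _ _ hl).symm (Ne.symm e)
    have a2 := tw i l k hl (ne _ _ hk).symm e
    rw [hs i l, a1, hs l k, ← a2, hs]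
  have N : ∀ i, (∑ k, U i k ^ 2) ^ 2 = ρ ^ 2 := by
    intro i
    rw [← hρ i, sq, sq (∑ k, U i k), Finset.sum_mul_sum, Finset.sum_mul_sum]
    simp only [same]
  have dis : ∀ k, U k p * U k q = 0 := by
    intro k
    by_contra hc
    obtain ⟨a1, a2⟩ := mul_ne_zero_iff.1 hc
    have := tw k p q a1 (ne _ _ a2).symm hpq.symm
    rw [hs q k, hs q p, hU] at this
    exact a2 this
  have e : ∑ k, (U k p - U k q) ^ 2 = 2 := by
    rw [← Finset.add_sum_erase _ _ (Finset.mem_univ p),
      ← Finset.add_sum_erase _ _ (show q ∈ univ.erase p by simp [hpq.symm]), ht, h0, h0, hs q p, hU]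
    norm_num
  have e2 : ∑ k, (U k p - U k q) ^ 2 = ∑ k, U p k ^ 2 + ∑ k, U q k ^ 2 := by
    rw [← Finset.sum_add_distrib]
    refine Finset.sum_congr rfl fun k _ => ?_
    rw [hs p k, hs q k]
    linear_combination (-2) * dis k
  have n1 : 0 ≤ ∑ k, U p k ^ 2 := Finset.sum_nonneg fun _ _ => sq_nonneg _
  have n2 : 0 ≤ ∑ k, U q k ^ 2 := Finset.sum_nonneg fun _ _ => sq_nonneg _
  have e3 : ∑ k, U p k ^ 2 = ∑ k, U q k ^ 2 := by
    have := (N p).trans (N q).symm
    exact (pow_left_inj₀ n1 n2 (by norm_num)).1 this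
  have e4 : ∑ k, U p k ^ 2 = 1 := by omega
  have := N p
  rw [e4] at this
  have : (ρ - 1) * (ρ + 1) = 0 := by linear_combination -this
  rcases mul_eq_zero.1 this with h | h <;> omega

theorem one (a : V → V → Prop) (ha : ∀ i, ¬ a i i)
    (hb : ∀ i, ({k | a i k} : Set V).ncard = ({k | a k i} : Set V).ncard) (i0 : V)
    (h1 : sSup (rset (lap a)) - sInf (rset (lap a)) = 1) :
    ∃ d : ℕ, (∀ i, ({k | a i k} : Set V).ncard = d) ∧
      (2 * d = Fintype.card V ∨ 2 * d + 2 = Fintype.card V) := by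
  have hd := fun i => regular a ha hb h1.le i i0
  refine ⟨_, hd, ?_⟩
  obtain ⟨d, hd0⟩ : ∃ d, ({k | a i0 k} : Set V).ncard = d := ⟨_, rfl⟩
  rw [hd0] at hd ⊢
  have hσ : ∀ i, ∑ k, sg a i k = 2 * (d : ℤ) - (Fintype.card V - 1 : ℤ) := fun i => by
    rw [sg_row a ha, ← hb, hd]; ring
  have K := key _ (sg_symm a) (sg_self a) _ hσ _ _ (bound a ha _ hd)
  rw [h1] at K
  generalize (2 * (d : ℝ) + 1 - sSup (rset (lap a)) - sInf (rset (lap a))) = c at K
  have T := twin _ (sg_symm a) (sg_self a) _ hσ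
  obtain ⟨p, q, hpq, ht⟩ : ∃ p q, p ≠ q ∧
      2 ≤ ∑ k ∈ (univ.erase p).erase q, (sg a k p - sg a k q) ^ 2 := by
    by_contra hc
    push Not at hc
    have := all_twin a ha _ hd fun i j k hij hi hj => T i j hij (hc i j hij) k hi hj
    linarith
  have ht' : (2 : ℝ) ≤ (∑ k ∈ (univ.erase p).erase q, (sg a k p - sg a k q) ^ 2 : ℤ) := by
    exact_mod_cast ht
  have hc : c = -(sg a p q : ℝ) := by
    have := K p q hpq
    have : ((sg a p q : ℝ) + c) ^ 2 = 0 := le_antisymm (by linarith) (sq_nonneg _)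
    linarith [pow_eq_zero_iff (two_ne_zero) |>.1 this]
  have K2 : ∀ i j, i ≠ j → ∑ k ∈ (univ.erase i).erase j, (sg a k i - sg a k j) ^ 2 +
      2 * (sg a i j - sg a p q) ^ 2 ≤ 2 := by
    intro i j hij
    have := K i j hij
    rw [hc] at this
    have h : ((∑ k ∈ (univ.erase i).erase j, (sg a k i - sg a k j) ^ 2 : ℤ) : ℝ) +
      2 * ((sg a i j : ℝ) - sg a p q) ^ 2 ≤ 2 := by linarith
    exact_mod_cast h
  have nn : ∀ i j, 0 ≤ ∑ k ∈ (univ.erase i).erase j, (sg a k i - sg a k j) ^ 2 :=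
    fun i j => Finset.sum_nonneg fun _ _ => sq_nonneg _
  let U : V → V → ℤ := fun i j => if i = j then 0 else sg a i j - sg a p q
  have Une : ∀ i j, i ≠ j → U i j = sg a i j - sg a p q := fun i j h => if_neg h
  have U0 : ∀ i j, U i j ≠ 0 → i ≠ j := fun i j h e => h (if_pos e)
  have one_le : ∀ z : ℤ, z ≠ 0 → 1 ≤ z ^ 2 := fun z hz => by
    have := sq_pos_of_ne_zero hz; omega
  have := core U (fun i j => by
      by_cases h : i = j
      · rw [h]
      · rw [Une _ _ h, Une _ _ (Ne.symm h), sg_symm]) (fun i => if_pos rfl)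
    (2 * (d : ℤ) - (Fintype.card V - 1 : ℤ) - (Fintype.card V - 1 : ℤ) * sg a p q) (fun i => by
      have : ∀ k, U i k = sg a i k - sg a p q + if i = k then sg a p q else 0 := by
        intro k
        by_cases h : i = k
        · simp [U, h, sg_self]
        · simp [U, h]
      simp only [this, Finset.sum_add_distrib, Finset.sum_sub_distrib, hσ]
      simp; ring)
    (fun i j h => by
      have h2 := K2 i j (U0 _ _ h)
      have := one_le _ h
      have := nn i j
      rw [← Une _ _ (U0 _ _ h)] at h2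
      omega)
    (fun i j k h hi hj => by
      have h2 := K2 i j (U0 _ _ h)
      have := one_le _ h
      rw [← Une _ _ (U0 _ _ h)] at h2
      rw [Une _ _ hi, Une _ _ hj, T i j (U0 _ _ h) (by omega) k hi hj])
    p q hpq (by rw [Une _ _ hpq, sub_self]) (by
      have h2 := K2 p q hpq
      have : ∑ k ∈ (univ.erase p).erase q, (U k p - U k q) ^ 2 =
          ∑ k ∈ (univ.erase p).erase q, (sg a k p - sg a k q) ^ 2 := by
        refine Finset.sum_congr rfl fun k hk => ?_
        simp only [Finset.mem_erase] at hk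
        rw [Une _ _ hk.1, Une _ _ hk.2.1]; ring
      rw [this]
      simp only [sub_self] at h2
      omega)
  have hs : sg a p q = -1 ∨ sg a p q = 0 ∨ sg a p q = 1 := by
    unfold sg; split_ifs <;> simp
  rcases hs with hs | hs | hs <;> rw [hs] at this <;> omega

lemma compl_card (p : V → Prop) (i : V) (hp : ¬ p i) :
    ({k | i ≠ k ∧ ¬ p k} : Set V).ncard + ({k | p k} : Set V).ncard + 1 = Fintype.card V := by
  have h1 := ncard_eq (fun k => i ≠ k ∧ ¬ p k)
  have h2 := ncard_eq p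
  have : ∑ k, ((if (i ≠ k ∧ ¬ p k) then (1 : ℤ) else 0) + (if p k then 1 else 0) +
      if i = k then 1 else 0) = Fintype.card V := by
    rw [Finset.sum_congr rfl (g := fun _ => 1)]
    · simp
    · intro k _
      by_cases h : i = k
      · subst h; simp [hp]
      · by_cases h' : p k <;> simp [h, h']
  simp only [Finset.sum_add_distrib, Finset.sum_ite_eq, Finset.mem_univ, if_true] at this
  have h3 : (({k | i ≠ k ∧ ¬ p k} : Set V).ncard : ℤ) + ({k | p k} : Set V).ncard + 1 =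
      Fintype.card V := by rw [h1, h2]; convert this
  exact_mod_cast h3

end Pool.Agent.H18Dig
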