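import Pool.Agent.Lib.helper18.Lps2

set_option autoImplicit false

open MeasureTheory Set Metric H18Lps Matrix
open scoped InnerProductSpace NNReal

namespace H18Door

lemma reg {a b p q r s : ℝ} (hab : a ≤ b) (h : ∀ x ∈ Icc a b, p + q * x ≤ r + s * x) :
    volume {w : Fin 2 → ℝ | w 0 ∈ Icc a b ∧ w 1 ∈ Ioo (p + q * w 0) (r + s * w 0)} =
      ENNReal.ofReal ((r - p) * (b - a) + (s - q) * (b ^ 2 - a ^ 2) / 2) := by
  refine ((volume_preserving_finTwoArrow ℝ).measure_preimage_equiv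
    (regionBetween (fun x => p + q * x) (fun x => r + s * x) (Icc a b))).trans
      ((volume_regionBetween_eq_integral (Continuous.integrableOn_Icc (by fun_prop))
        (Continuous.integrableOn_Icc (by fun_prop)) measurableSet_Icc h).trans ?_)
  rw [integral_Icc_eq_integral_Ioc, ← intervalIntegral.integral_of_le hab,
    intervalIntegral.integral_eq_sub_of_hasDerivAt (f := fun x => (r - p) * x + (s - q) * x ^ 2 / 2)
      (fun x _ => ?_) (Continuous.intervalIntegrable (by fun_prop) _ _)]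
  · congr 1
    ring
  · refine (((hasDerivAt_id x).const_mul (r - p)).add
      (((hasDerivAt_pow 2 x).const_mul (s - q)).div_const 2)).congr_deriv ?_
    simp
    ring

lemma obl (i : Fin 3) {u : E 3} (hu : ‖u‖ = 1) (c : ℝ≥0) (hc : 1 ≤ c * |u i|) {K : Set (E 3)}
    {Q : Set (Fin 2 → ℝ)} (hQ : ∀ w ∈ Q, ∃ p ∈ K, ∀ j,
      w j = p (i.succAbove j) - p i / u i * u (i.succAbove j)) :
    volume Q ≤ c ^ 2 * μHE[2] ((fun x => x - ⟪x, u⟫_ℝ • u) '' K) := by
  have u0 : u i ≠ 0 := fun h => by norm_num [h] at hc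
  have hL : LipschitzOnWith c (fun q => pr i (q - (q i / u i) • u)) {q | ⟪q, u⟫_ℝ = 0} := by
    refine LipschitzOnWith.of_dist_le_mul fun x hx y hy => abs_le_of_sq_le_sq' ?_ (by positivity) |>.2
    have h0 : ⟪x - y, u⟫_ℝ = 0 := by rw [inner_sub_left, hx, hy, sub_self]
    have h1 := dpr i (x - (x i / u i) • u) (y - (y i / u i) • u)
    rw [dist_eq_norm, show x - (x i / u i) • u - (y - (y i / u i) • u) =
      x - y - ((x - y) i / u i) • u by simp only [PiLp.sub_apply]; module, norm_sub_sq_real,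
      real_inner_smul_right, h0, norm_smul, hu, mul_one, Real.norm_eq_abs, sq_abs, div_pow] at h1
    have h2 := real_inner_mul_inner_self_le (x - y) (EuclideanSpace.single i 1 - u i • u)
    rw [real_inner_self_eq_norm_sq, real_inner_self_eq_norm_sq, norm_sub_sq_real _ (u i • u), inner_sub_right,
      real_inner_smul_right, real_inner_smul_right, h0, norm_smul, hu] at h2
    simp only [EuclideanSpace.inner_single_right, EuclideanSpace.inner_single_left, PiLp.norm_single,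
      conj_trivial, one_mul, mul_zero, sub_zero, norm_one, Real.norm_eq_abs, mul_one, sq_abs] at h2
    have h3 : 0 < u i ^ 2 := by positivity
    have h4 : 1 ≤ (c : ℝ) ^ 2 * u i ^ 2 := by nlinarith [sq_abs (u i)]
    have h5 : (x - y) i ^ 2 / u i ^ 2 ≤ ‖x - y‖ ^ 2 * (c ^ 2 - 1) := by
      rw [div_le_iff₀ h3]
      nlinarith [mul_le_mul_of_nonneg_left h4 (sq_nonneg ‖x - y‖)]
    rw [dist_eq_norm x y]
    nlinarith [sq_nonneg ((x - (x i / u i) • u) i - (y - (y i / u i) • u) i)]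
  have := (hL.mono (s := (fun x => x - ⟪x, u⟫_ℝ • u) '' K) (by
    rintro _ ⟨x, -, rfl⟩
    simp [inner_sub_left, real_inner_smul_left, hu])).hausdorffMeasure_image_le zero_le_two
  refine le_trans (measure_mono fun w hw => ?_) (((PiLp.volume_preserving_toLp
    (Fin 2)).measure_preimage_le ((fun q => pr i (q - (q i / u i) • u)) ''
      ((fun x => x - ⟪x, u⟫_ℝ • u) '' K))).trans ?_)
  · obtain ⟨p, hp, e⟩ := hQ w hw
    refine ⟨_, ⟨p, hp, rfl⟩, ?_⟩
    ext j
    simp [pr, e]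
    field_simp
    ring
  · rw [← EuclideanSpace.euclideanHausdorffMeasure_eq_volume]
    simp only [Measure.euclideanHausdorffMeasure_def, Measure.smul_apply, ENNReal.smul_def,
      smul_eq_mul, mul_left_comm ((c : ENNReal) ^ 2)]
    gcongr
    simpa using this

def K : Set (E 3) := {p | |p 0| ≤ 1 + p 2 / 200 ∧ |p 1| ≤ 1 - p 2 / 200}

def D : Set (E 3) := {x | x 2 = 0 ∧ |x 0| + |x 1| ≤ 2 ∧ |x 0| ≤ 3 / 2}

lemma mD : μHE[2] D ≤ ENNReal.ofReal 7.56 := by
  have a := reg (a := 0) (b := 3 / 2) (p := -2.01) (q := 1) (r := 2.01) (s := -1) (by norm_num)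
    fun x hx => by linarith [hx.2]
  have b := reg (a := -(3 / 2)) (b := 0) (p := -2.01) (q := -1) (r := 2.01) (s := 1) (by norm_num)
    fun x hx => by linarith [hx.1]
  have c := ((PiLp.volume_preserving_ofLp (Fin 2)).measure_preimage_le _).trans
    ((measure_union_le _ _).trans (add_le_add a.le b.le))
  rw [← ENNReal.ofReal_add (by norm_num) (by norm_num),
    ← EuclideanSpace.euclideanHausdorffMeasure_eq_volume] at c
  refine le_trans ?_ (c.trans (le_of_eq (by norm_num)))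
  simp only [Measure.euclideanHausdorffMeasure_def, Measure.smul_apply, ENNReal.smul_def, smul_eq_mul]
  gcongr
  rw [Nat.cast_ofNat]
  refine up 2 0 fun x ⟨h0, h1, h2⟩ => ⟨h0, ?_⟩
  have h3 := abs_le.1 (le_sub_comm.1 (le_sub_iff_add_le.2 h1))
  rcases abs_cases (x 0) with h | h
  · exact .inl ⟨⟨h.2, h.1 ▸ h2⟩, show _ < x 1 by simp [pr]; linarith [h3.1],
      show x 1 < _ by simp [pr]; linarith [h3.2]⟩
  · exact .inr ⟨⟨show _ ≤ x 0 by linarith, h.2.le⟩, show _ < x 1 by simp [pr]; linarith [h3.1],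
      show x 1 < _ by simp [pr]; linarith [h3.2]⟩

lemma quad (a b : ℝ) : ENNReal.ofReal 7.98 ≤
    volume {w : Fin 2 → ℝ | ∃ p ∈ K, w 0 = p 0 - p 2 * a ∧ w 1 = p 1 - p 2 * b} := by
  set Q := {w : Fin 2 → ℝ | ∃ p ∈ K, w 0 = p 0 - p 2 * a ∧ w 1 = p 1 - p 2 * b}
  have t : ∀ (σ : ℝ) (S : Set (Fin 2 → ℝ)), |σ| = 1 → (∀ w, ∀ s < (1 : ℝ),
      w 0 - 200 * a = (1 - s) * (2 * σ - 400 * a) → w ∈ S) →
      ENNReal.ofReal (3.99 * |200 * a - σ|) ≤ volume (Q ∩ S) := fun σ S h1 h2 => by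
    have h := reg (a := 0) (b := 0.999) (p := 0) (q := -1) (r := 0) (s := 1) (by norm_num)
      fun x hx => by linarith [hx.1]
    have := Measure.addHaar_image_linearMap volume (toLin' !![400 * a - 2 * σ, 0; 400 * b, 2])
      {w : Fin 2 → ℝ | w 0 ∈ Icc 0 0.999 ∧ w 1 ∈ Ioo (0 + -1 * w 0) (0 + 1 * w 0)}
    rw [h, LinearMap.det_toLin', det_fin_two_of, ← measure_preimage_add _
      (-![2 * σ - 200 * a, -(200 * b)])] at this
    refine le_trans ?_ (this.ge.trans (measure_mono ?_))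
    · rw [show (400 * a - 2 * σ) * 2 - 0 * (400 * b) = 4 * (200 * a - σ) by ring, abs_mul,
        ← ENNReal.ofReal_mul (by positivity)]
      refine ENNReal.ofReal_le_ofReal ?_
      norm_num
      linarith [abs_nonneg (200 * a - σ)]
    rintro w ⟨v, ⟨h3, h4⟩, e⟩
    have h5 : v 0 < 1 := by linarith [h3.2]
    have e0 := congrFun e 0
    have e1 := congrFun e 1
    simp [mulVec, dotProduct] at e0 e1 h4
    refine ⟨⟨!₂[2 * σ * (1 - v 0), 2 * v 1, 200 * (1 - 2 * v 0)], ⟨?_, ?_⟩, ?_, ?_⟩, h2 w _ h5 ?_⟩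
    · simp [abs_mul, h1, abs_of_pos (sub_pos.2 h5)]
      linarith
    · simp [abs_le]
      constructor <;> linarith [h4.1, h4.2]
    all_goals
      try simp
      linarith
  rcases le_or_gt 1 (200 * a) with h | h
  · refine le_trans (ENNReal.ofReal_le_ofReal ?_) ((t (-1) univ (by simp) (by simp)).trans (by simp))
    linarith [le_abs_self (200 * a - -1)]
  rcases le_or_gt (200 * a) (-1) with h' | h'
  · refine le_trans (ENNReal.ofReal_le_ofReal ?_) ((t 1 univ (by simp) (by simp)).trans (by simp))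
    linarith [neg_le_abs (200 * a - 1)]
  rw [← measure_inter_add_diff Q (t := {w | 0 ≤ w 0 - 200 * a})
    (isClosed_le (by fun_prop) (by fun_prop)).measurableSet]
  refine le_trans (le_of_eq ?_) (add_le_add (t 1 _ (by simp) fun w s hs e => ?_)
    (t (-1) _ (by simp) fun w s hs e => ?_))
  · rw [← ENNReal.ofReal_add (by positivity) (by positivity), abs_of_neg (by linarith),
      abs_of_pos (by linarith)]
    congr 1
    ring
  · exact le_of_le_of_eq (mul_nonneg (by linarith) (by linarith)) e.symm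
  · exact not_le.2 (e ▸ mul_neg_of_pos_of_neg (by linarith) (by linarith))

lemma proj {u : E 3} (hu : ‖u‖ = 1) : μHE[2] D < μHE[2] ((fun x => x - ⟪x, u⟫_ℝ • u) '' K) := by
  refine mD.trans_lt (lt_of_not_ge fun h => ?_)
  have f : ∀ (c : ℝ≥0) (r : ℝ), ENNReal.ofReal r ≤ c ^ 2 * μHE[2] ((fun x => x - ⟪x, u⟫_ℝ • u) '' K) →
      r ≤ c ^ 2 * 7.56 := fun c r hr => by
    have := hr.trans (mul_le_mul_right h _)
    rwa [← ENNReal.ofReal_coe_nnreal, ← ENNReal.ofReal_pow c.coe_nonneg,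
      ← ENNReal.ofReal_mul (by positivity), ENNReal.ofReal_le_ofReal_iff (by positivity)] at this
  by_cases h0 : 1 ≤ 7 * |u 0|
  · have := f 7 _ ((reg (a := -1) (b := 1) (p := -200) (q := 0) (r := 0) (s := 0) (by norm_num)
      (by norm_num)).ge.trans (obl 0 hu 7 h0 fun w ⟨h1, h2⟩ => ⟨!₂[0, w 0, w 1], ?_, ?_⟩))
    · norm_num at this
    · simp [K, abs_le] at h2 ⊢
      refine ⟨⟨?_, ?_⟩, ?_, ?_⟩ <;> linarith [h1.1, h1.2, h2.1, h2.2]
    · simp
  by_cases h1 : 1 ≤ 7 * |u 1|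
  · have := f 7 _ ((reg (a := -1) (b := 1) (p := 0) (q := 0) (r := 200) (s := 0) (by norm_num)
      (by norm_num)).ge.trans (obl 1 hu 7 h1 fun w ⟨h1, h2⟩ => ⟨!₂[w 0, 0, w 1], ?_, ?_⟩))
    · norm_num at this
    · simp [K, abs_le] at h2 ⊢
      refine ⟨⟨?_, ?_⟩, ?_⟩ <;> linarith [h1.1, h1.2, h2.1, h2.2]
    · simp [Fin.succAbove]
  have e := EuclideanSpace.real_norm_sq_eq u
  rw [hu, Fin.sum_univ_three, ← sq_abs (u 0), ← sq_abs (u 1), ← sq_abs (u 2)] at e
  have := f 1.026 _ ((quad (u 0 / u 2) (u 1 / u 2)).trans (obl 2 hu 1.026 ?_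
    fun w ⟨p, hp, e0, e1⟩ => ⟨p, hp, ?_⟩))
  · norm_num at this
  · by_contra! h2
    norm_num at h2
    nlinarith [abs_nonneg (u 0), abs_nonneg (u 1), abs_nonneg (u 2)]
  · simp only [Fin.forall_fin_two, e0, e1]
    exact ⟨by simp [Fin.succAbove]; ring, by simp [Fin.succAbove]; ring⟩

end H18Door
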