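import Mathlib

open Polynomial Finset

namespace H18Erd

variable (L : ℝ[X] →ₗ[ℝ] ℝ)

noncomputable def P : ℕ → ℝ[X]
  | 0 => 1
  | 1 => X - C (L X / L 1)
  | n + 2 => (X - C (L (X * P (n + 1) ^ 2) / L (P (n + 1) ^ 2))) * P (n + 1) -
      C (L (P (n + 1) ^ 2) / L (P n ^ 2)) * P n

noncomputable def h (n : ℕ) : ℝ := L (P L n ^ 2)

noncomputable def b (n : ℕ) : ℝ := L (X * P L n ^ 2) / h L n

noncomputable def A (n : ℕ) : ℝ := h L (n + 1) / h L n

lemma P_one : P L 1 = X - C (b L 0) := by simp [P, b, h]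

lemma P_add (n : ℕ) : P L (n + 2) = (X - C (b L (n + 1))) * P L (n + 1) - C (A L n) * P L n := by
  rw [P]; rfl

lemma P_monic (n : ℕ) : (P L n).Monic ∧ (P L n).natDegree = n := by
  induction n using Nat.twoStepInduction with
  | zero => simp [P]
  | one => rw [P_one]; exact ⟨monic_X_sub_C _, natDegree_X_sub_C _⟩
  | more n h1 h2 =>
    have e1 : ((X - C (b L (n + 1))) * P L (n + 1)).natDegree = n + 2 := by
      rw [(monic_X_sub_C _).natDegree_mul h2.1, h2.2, natDegree_X_sub_C]; ring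
    have e2 : (C (A L n) * P L n).natDegree < ((X - C (b L (n + 1))) * P L (n + 1)).natDegree :=
      (natDegree_C_mul_le _ _).trans_lt (by rw [h1.2, e1]; omega)
    rw [P_add]
    exact ⟨((monic_X_sub_C _).mul h2.1).sub_of_left (degree_lt_degree e2),
      (natDegree_sub_eq_left_of_natDegree_lt e2).trans e1⟩

lemma peel (n : ℕ) (R : ℝ[X]) (hR : R.degree < ((n + 1 : ℕ) : WithBot ℕ)) :
    ∃ (c : ℝ) (R' : ℝ[X]), R'.degree < (n : WithBot ℕ) ∧ R = C c * P L n + R' := by
  refine ⟨R.coeff n, R - C (R.coeff n) * P L n, ?_, by ring⟩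
  rw [degree_lt_iff_coeff_zero] at hR ⊢
  intro m hm
  rw [coeff_sub, coeff_C_mul]
  rcases hm.eq_or_lt with rfl | hm
  · have := (P_monic L n).1.coeff_natDegree
    rw [(P_monic L n).2] at this
    rw [this]; ring
  · rw [hR m hm, coeff_eq_zero_of_natDegree_lt (p := P L n) (by rw [(P_monic L n).2]; exact hm)]; ring

lemma deg_X {n : ℕ} {R : ℝ[X]} (hR : R.degree < (n : WithBot ℕ)) : (X * R).degree < ((n + 1 : ℕ) : WithBot ℕ) := by
  rw [degree_lt_iff_coeff_zero] at hR ⊢
  intro m hm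
  obtain ⟨m, rfl⟩ : ∃ j, m = j + 1 := ⟨m - 1, by omega⟩
  rw [coeff_X_mul, hR m (by omega)]

lemma deg_P (n : ℕ) : (P L n).degree < ((n + 1 : ℕ) : WithBot ℕ) := by
  rw [degree_eq_natDegree (P_monic L n).1.ne_zero, (P_monic L n).2]
  exact_mod_cast n.lt_succ_self

lemma deg_mono {n : ℕ} {R : ℝ[X]} (hR : R.degree < (n : WithBot ℕ)) : R.degree < ((n + 1 : ℕ) : WithBot ℕ) :=
  hR.trans (by exact_mod_cast n.lt_succ_self)

lemma deg_XP (n : ℕ) : (X * P L n - P L (n + 1)).degree < ((n + 1 : ℕ) : WithBot ℕ) := by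
  have h1 := monic_X.mul (P_monic L n).1
  have h2 : (X * P L n).degree = ((n + 1 : ℕ) : WithBot ℕ) := by
    rw [degree_eq_natDegree h1.ne_zero, monic_X.natDegree_mul (P_monic L n).1, (P_monic L n).2,
      natDegree_X, add_comm]
  rw [← h2]
  refine degree_sub_lt ?_ h1.ne_zero (by rw [h1, (P_monic L (n + 1)).1])
  rw [h2, degree_eq_natDegree (P_monic L _).1.ne_zero, (P_monic L _).2]

lemma LC (c : ℝ) (R : ℝ[X]) : L (C c * R) = c * L R := by
  rw [← smul_eq_C_mul, map_smul, smul_eq_mul]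

variable {L} (hp : ∀ Q : ℝ[X], Q ≠ 0 → 0 < L (Q ^ 2))
include hp

lemma h_pos (n : ℕ) : 0 < h L n := hp _ (P_monic L n).1.ne_zero

lemma orth (n : ℕ) : ∀ R : ℝ[X], R.degree < (n : WithBot ℕ) → L (P L n * R) = 0 := by
  induction n using Nat.twoStepInduction with
  | zero => intro R hR; simp [degree_eq_bot.1 (Nat.WithBot.lt_zero_iff.1 hR)]
  | one =>
    intro R hR
    obtain ⟨c, R', h1, rfl⟩ := peel L 0 R hR
    have := (h_pos hp 0).ne'
    rw [degree_eq_bot.1 (Nat.WithBot.lt_zero_iff.1 h1), P_one,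
      show (X - C (b L 0)) * (C c * P L 0 + 0) = C c * (X * P L 0 ^ 2) - C (c * b L 0) * P L 0 ^ 2 by
        simp [P]; ring, map_sub, LC, LC, b, ← h]
    field_simp
    ring
  | more n h1 h2 =>
    intro R hR
    obtain ⟨c, R1, a1, rfl⟩ := peel L (n + 1) R hR
    obtain ⟨d, R2, a2, rfl⟩ := peel L n R1 a1
    have e : P L (n + 2) * (C c * P L (n + 1) + (C d * P L n + R2)) =
        C c * (X * P L (n + 1) ^ 2) - C (c * b L (n + 1)) * P L (n + 1) ^ 2
        + C d * P L (n + 1) ^ 2 - C (d * A L n) * P L n ^ 2 - C (A L n) * (P L n * R2)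
        + P L (n + 1) * (C d * (X * P L n - P L (n + 1)) + X * R2
          - (C (b L (n + 1)) * (C d * P L n + R2) + C (c * A L n) * P L n)) := by
      rw [P_add]; simp only [C_mul]; ring
    have a3 : (C d * (X * P L n - P L (n + 1)) + X * R2
        - (C (b L (n + 1)) * (C d * P L n + R2) + C (c * A L n) * P L n)).degree < ((n + 1 : ℕ) : WithBot ℕ) := by
      have m : ∀ (t : ℝ) (S : ℝ[X]), S.degree < ((n + 1 : ℕ) : WithBot ℕ) → (C t * S).degree < ((n + 1 : ℕ) : WithBot ℕ) :=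
        fun t S hS => by rw [← smul_eq_C_mul]; exact (degree_smul_le _ _).trans_lt hS
      exact (degree_sub_le _ _).trans_lt (max_lt ((degree_add_le _ _).trans_lt
        (max_lt (m _ _ (deg_XP L n)) (deg_X a2))) ((degree_add_le _ _).trans_lt
        (max_lt (m _ _ a1) (m _ _ (deg_P L n)))))
    have := (h_pos hp n).ne'
    have := (h_pos hp (n + 1)).ne'
    rw [e]
    simp only [map_add, map_sub, LC, h2 _ a3, h1 _ a2]
    rw [b, A, ← h, ← h]
    field_simp
    ring

lemma sq_nn (Q : ℝ[X]) : 0 ≤ L (Q ^ 2) := by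
  by_cases h : Q = 0
  · simp [h]
  · exact (hp Q h).le

lemma christoffel (x : ℝ) (k : ℕ) : ∀ Q : ℝ[X], Q.degree < (k : WithBot ℕ) →
    Q.eval x ^ 2 ≤ L (Q ^ 2) * ∑ j ∈ range k, (P L j).eval x ^ 2 / h L j := by
  induction k with
  | zero => intro Q hQ; simp [degree_eq_bot.1 (Nat.WithBot.lt_zero_iff.1 hQ)]
  | succ k ih =>
    intro Q hQ
    obtain ⟨c, R, a1, rfl⟩ := peel L k Q hQ
    have h1 := ih R a1
    have h2 := h_pos hp k
    have h3 := sq_nn hp R
    have h4 : 0 ≤ ∑ j ∈ range k, (P L j).eval x ^ 2 / h L j :=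
      sum_nonneg fun j _ => div_nonneg (sq_nonneg _) (h_pos hp j).le
    rw [show (C c * P L k + R) ^ 2 = C (c ^ 2) * P L k ^ 2 + C (2 * c) * (P L k * R) + R ^ 2 by
      simp only [C_mul, C_pow, map_ofNat]; ring, map_add, map_add, LC, LC, orth hp k R a1, ← h,
      sum_range_succ, eval_add, eval_mul, eval_C]
    generalize ∑ j ∈ range k, (P L j).eval x ^ 2 / h L j = S at h1 h4 ⊢
    generalize L (R ^ 2) = T at h1 h3 ⊢
    obtain ⟨p, hp'⟩ : ∃ p, (P L k).eval x = p * h L k := ⟨(P L k).eval x / h L k, by field_simp⟩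
    rw [hp', show (p * h L k) ^ 2 / h L k = p ^ 2 * h L k by field_simp]
    have h5 : 2 * (c * p * R.eval x) ≤ c ^ 2 * S + T * p ^ 2 := by
      refine abs_le_of_sq_le_sq' ?_ (by positivity) |>.2
      have := mul_le_mul_of_nonneg_left h1 (show 0 ≤ 4 * c ^ 2 * p ^ 2 by positivity)
      nlinarith [sq_nonneg (c ^ 2 * S - T * p ^ 2)]
    nlinarith [mul_le_mul_of_nonneg_left h5 h2.le]

noncomputable def V (L : ℝ[X] →ₗ[ℝ] ℝ) (v : ℕ → ℝ) (n : ℕ) : ℝ[X] :=
  ∑ j ∈ range n, C (v j / √(h L j)) * P L j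

lemma form (v : ℕ → ℝ) (n : ℕ) : (V L v (n + 1)).degree < ((n + 1 : ℕ) : WithBot ℕ) ∧
    L (V L v (n + 1) ^ 2) = ∑ j ∈ range (n + 1), v j ^ 2 ∧
    L (X * V L v (n + 1) ^ 2) = ∑ j ∈ range (n + 1), b L j * v j ^ 2 +
      ∑ j ∈ range n, 2 * √(A L j) * v j * v (j + 1) := by
  have m : ∀ (n : ℕ) (t : ℝ) (S : ℝ[X]), S.degree < (n : WithBot ℕ) → (C t * S).degree < (n : WithBot ℕ) :=
    fun n t S hS => by rw [← smul_eq_C_mul]; exact (degree_smul_le _ _).trans_lt hS
  have dV : ∀ n, (V L v n).degree < (n : WithBot ℕ) := by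
    intro n
    induction n with
    | zero => simp [V]
    | succ n ih =>
      rw [V, sum_range_succ]
      exact (degree_add_le _ _).trans_lt (max_lt (deg_mono ih) (m _ _ _ (deg_P L n)))
  have q : ∀ n, (v n / √(h L n)) ^ 2 * h L n = v n ^ 2 := fun n => by
    have := h_pos hp n
    rw [div_pow, Real.sq_sqrt this.le]; field_simp
  refine ⟨dV _, ?_⟩
  induction n with
  | zero =>
    have := (h_pos hp 0).ne'
    simp only [V, zero_add, range_one, sum_singleton, mul_pow, ← C_pow, range_zero, sum_empty,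
      add_zero, mul_left_comm X, LC]
    rw [← h, q, b, ← q]
    field_simp
    simp
  | succ n ih =>
    have e : V L v (n + 1 + 1) = V L v (n + 1) + C (v (n + 1) / √(h L (n + 1))) * P L (n + 1) :=
      sum_range_succ _ _
    have e' : V L v (n + 1) = V L v n + C (v n / √(h L n)) * P L n := sum_range_succ _ _
    set c := v (n + 1) / √(h L (n + 1)) with hc
    have a1 := h_pos hp n
    have a2 := h_pos hp (n + 1)
    have a3 : L (P L (n + 1) * (X * V L v (n + 1))) = v n / √(h L n) * h L (n + 1) := by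
      rw [e', show P L (n + 1) * (X * (V L v n + C (v n / √(h L n)) * P L n)) =
        P L (n + 1) * (X * V L v n) + C (v n / √(h L n)) * (P L (n + 1) * (X * P L n - P L (n + 1)))
          + C (v n / √(h L n)) * P L (n + 1) ^ 2 by ring, map_add, map_add, LC, LC,
        orth hp _ _ (deg_X (dV n)), orth hp _ _ (deg_XP L n), ← h]
      ring
    constructor
    · rw [e, show (V L v (n + 1) + C c * P L (n + 1)) ^ 2 = V L v (n + 1) ^ 2 +
        C (2 * c) * (P L (n + 1) * V L v (n + 1)) + C (c ^ 2) * P L (n + 1) ^ 2 by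
          simp only [C_mul, C_pow, map_ofNat]; ring, map_add, map_add, LC, LC, orth hp _ _ (dV _),
        ih.1, ← h, q, sum_range_succ _ (n + 1)]
      ring
    · rw [e, show X * (V L v (n + 1) + C c * P L (n + 1)) ^ 2 = X * V L v (n + 1) ^ 2 +
        C (2 * c) * (P L (n + 1) * (X * V L v (n + 1))) + C (c ^ 2) * (X * P L (n + 1) ^ 2) by
          simp only [C_mul, C_pow, map_ofNat]; ring, map_add, map_add, LC, LC, a3,
        ih.2, sum_range_succ _ (n + 1), sum_range_succ (fun j => 2 * √(A L j) * v j * v (j + 1)) n, b,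
        ← q (n + 1), A,
        Real.sqrt_div a2.le, hc]
      have a4 := Real.sqrt_pos.2 a1
      have a5 := Real.sqrt_pos.2 a2
      have a6 := Real.sq_sqrt a2.le
      field_simp
      rw [← a6]
      simp only [Real.sqrt_sq a5.le]
      ring

end H18Erd
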