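import Pool.Agent.Lib.helper18.Erd1

open Polynomial Finset

namespace H18Erd

lemma step {x γ β α u v : ℝ} (hx : |x| ≤ 1) (h0 : 0 < γ) (h1 : γ ≤ 1) (hβ : |β| ≤ 2) (hα : |α| ≤ 3) :
    (2 * x * u - v - (β * u + α * v)) ^ 2 - 2 * x * (2 * x * u - v - (β * u + α * v)) * u + u ^ 2 +
      γ ^ 2 * ((2 * x * u - v - (β * u + α * v)) ^ 2 + u ^ 2) ≤
    Real.exp (2 * γ + 24 * (|β| + |α|) / γ ^ 2) *
      (u ^ 2 - 2 * x * u * v + v ^ 2 + γ ^ 2 * (u ^ 2 + v ^ 2)) := by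
  set r := √(u ^ 2 + v ^ 2)
  have r0 : 0 ≤ r := Real.sqrt_nonneg _
  have r2 : r ^ 2 = u ^ 2 + v ^ 2 := Real.sq_sqrt (by positivity)
  have hu : |u| ≤ r := Real.abs_le_sqrt (by nlinarith)
  have hv : |v| ≤ r := Real.abs_le_sqrt (by nlinarith)
  have x2 : x ^ 2 ≤ 1 := by rw [← sq_abs]; exact pow_le_one₀ (abs_nonneg _) hx
  have hxu : |x * u| ≤ r := by rw [abs_mul]; nlinarith [abs_nonneg u, abs_nonneg x]
  set η := |β| + |α| with hη
  have η0 : 0 ≤ η := by positivity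
  have he : |β * u + α * v| ≤ η * r := by
    refine (abs_add_le _ _).trans ?_
    rw [abs_mul, abs_mul, hη, add_mul]
    gcongr
  generalize β * u + α * v = e at he ⊢
  have hw : |(1 + γ ^ 2) * (2 * x * u - v) - x * u| ≤ 7 * r := by
    have a1 : |2 * x * u - v| ≤ 3 * r := by
      refine (abs_sub _ _).trans ?_
      rw [mul_assoc, abs_mul, abs_two]; linarith
    refine (abs_sub _ _).trans ?_
    rw [abs_mul, abs_of_pos (show 0 < 1 + γ ^ 2 by positivity)]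
    nlinarith [abs_nonneg (2 * x * u - v), pow_le_one₀ (n := 2) h0.le h1]
  have a2 : -(e * ((1 + γ ^ 2) * (2 * x * u - v) - x * u)) ≤ η * r * (7 * r) := by
    refine (neg_le_abs _).trans ?_
    rw [abs_mul]
    gcongr
  have a3 : e ^ 2 ≤ 5 * η * r ^ 2 := by
    rw [← sq_abs]
    refine (pow_le_pow_left₀ (abs_nonneg _) he 2).trans ?_
    rw [mul_pow]
    gcongr
    nlinarith
  have a4 : 0 ≤ u ^ 2 - 2 * x * u * v + v ^ 2 := by nlinarith [sq_nonneg (x * u - v), sq_nonneg u]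
  have a5 : γ ^ 2 * (4 * (x * u) * (x * u - v)) ≤
      2 * γ * (u ^ 2 - 2 * x * u * v + v ^ 2 + γ ^ 2 * (u ^ 2 + v ^ 2)) := by
    have b1 : (x * u - v) ^ 2 ≤ u ^ 2 - 2 * x * u * v + v ^ 2 := by nlinarith [sq_nonneg u]
    have b2 : (x * u) ^ 2 ≤ u ^ 2 + v ^ 2 := by nlinarith [sq_nonneg u, sq_nonneg v]
    have b3 := mul_le_mul_of_nonneg_left b2 (sq_nonneg γ)
    have b4 : 2 * γ * (x * u) * (x * u - v) ≤ (x * u - v) ^ 2 + γ ^ 2 * (x * u) ^ 2 := by
      nlinarith [sq_nonneg (γ * (x * u) - (x * u - v))]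
    nlinarith
  have a6 : 24 * η * r ^ 2 ≤ 24 * η / γ ^ 2 *
      (u ^ 2 - 2 * x * u * v + v ^ 2 + γ ^ 2 * (u ^ 2 + v ^ 2)) := by
    rw [mul_add (24 * η / γ ^ 2), ← mul_assoc (24 * η / γ ^ 2) (γ ^ 2),
      div_mul_cancel₀ _ (by positivity), r2]
    have : 0 ≤ 24 * η / γ ^ 2 * (u ^ 2 - 2 * x * u * v + v ^ 2) := by positivity
    linarith
  refine le_trans ?_ (mul_le_mul_of_nonneg_right (Real.add_one_le_exp _) (by positivity))
  have a7 : (1 + γ ^ 2) * e ^ 2 ≤ 2 * (5 * η * r ^ 2) := by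
    gcongr
    nlinarith
  nlinarith

variable {L : ℝ[X] →ₗ[ℝ] ℝ} (hp : ∀ Q : ℝ[X], Q ≠ 0 → 0 < L (Q ^ 2))
  (hx : ∀ Q : ℝ[X], |L (X * Q ^ 2)| ≤ L (Q ^ 2)) (hx2 : ∀ Q : ℝ[X], L ((X * Q) ^ 2) ≤ L (Q ^ 2))
include hp

lemma A_pos (n : ℕ) : 0 < A L n := div_pos (h_pos hp _) (h_pos hp _)

lemma h_prod (n : ℕ) : ∑ j ∈ range n, Real.log (2 * √(A L j)) =
    (Real.log (4 ^ n * h L n) - Real.log (h L 0)) / 2 := by
  induction n with
  | zero => simp
  | succ n ih =>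
    have a1 := h_pos hp n
    have a2 := h_pos hp (n + 1)
    have a3 := A_pos hp n
    have e : Real.log 4 = 2 * Real.log 2 := by
      rw [show (4 : ℝ) = 2 ^ 2 by norm_num, Real.log_pow]; norm_num
    rw [sum_range_succ, ih, Real.log_mul two_ne_zero (Real.sqrt_pos.2 a3).ne', Real.log_sqrt a3.le, A,
      Real.log_div a2.ne' a1.ne', Real.log_mul (by positivity) a1.ne',
      Real.log_mul (by positivity) a2.ne', Real.log_pow, Real.log_pow, e]
    push_cast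
    ring

include hx2 in
lemma A_le (n : ℕ) : A L n ≤ 1 := by
  have h1 := hx2 (P L n)
  rw [show (X * P L n) ^ 2 = P L (n + 1) ^ 2 + C 2 * (P L (n + 1) * (X * P L n - P L (n + 1))) +
    (X * P L n - P L (n + 1)) ^ 2 by simp only [map_ofNat]; ring, map_add, map_add, LC,
    orth hp _ _ (deg_XP L n)] at h1
  rw [A, div_le_one (h_pos hp n), h, h]
  linarith [sq_nn hp (X * P L n - P L (n + 1))]

include hx

lemma b_le (n : ℕ) : |b L n| ≤ 1 := by
  rw [b, abs_div, abs_of_pos (h_pos hp n), div_le_one (h_pos hp n)]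
  exact hx _

lemma two_forms (v w : ℕ → ℝ) (n : ℕ) :
    ∑ j ∈ range (n + 1), b L j * (v j ^ 2 - w j ^ 2) +
      ∑ j ∈ range n, 2 * √(A L j) * (v j * v (j + 1) + w j * w (j + 1)) ≤
      ∑ j ∈ range (n + 1), (v j ^ 2 + w j ^ 2) := by
  obtain ⟨-, a1, a2⟩ := form hp v n
  obtain ⟨-, c1, c2⟩ := form hp (fun j => (-1) ^ j * w j) n
  have d1 := (abs_le.1 (hx (V L v (n + 1)))).2
  have d2 := (abs_le.1 (hx (V L (fun j => (-1) ^ j * w j) (n + 1)))).1
  rw [a1, a2] at d1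
  rw [c1, c2] at d2
  have e1 : ∀ j, ((-1 : ℝ) ^ j * w j) ^ 2 = w j ^ 2 := fun j => by
    rw [mul_pow, ← pow_mul, mul_comm j 2, pow_mul]; simp
  have e2 : ∀ j, 2 * √(A L j) * ((-1 : ℝ) ^ j * w j) * ((-1) ^ (j + 1) * w (j + 1)) =
      -(2 * √(A L j) * (w j * w (j + 1))) := fun j => by
    rcases neg_one_pow_eq_or ℝ j with h | h <;> rw [pow_succ, h] <;> ring
  simp only [e1, e2, sum_neg_distrib] at d2
  simp only [mul_sub, mul_add, sum_add_distrib, sum_sub_distrib, ← mul_assoc] at d1 d2 ⊢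
  linarith

include hx2

variable (hr : ∀ θ : ℝ, 0 < θ → ∃ c : ℝ, ∀ n : ℕ, -(θ * n) - c ≤ Real.log (4 ^ n * h L n))
include hr

lemma cesaro {ε : ℝ} (h0 : 0 < ε) (h1 : ε ≤ 1) : ∃ c : ℝ, ∀ n : ℕ,
    ∑ j ∈ range n, (|2 * b L (j + 1)| + |4 * A L j - 1|) ≤ 21 * ε * n + c := by
  obtain ⟨c, hc⟩ := hr (ε ^ 2) (by positivity)
  set c' := |c + Real.log (h L 0)| with hc'
  refine ⟨(2 + c') / ε + 9 * (1 + c') / ε, fun n => ?_⟩
  have n0 : (0 : ℝ) ≤ n := Nat.cast_nonneg n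
  have a1 : -(ε ^ 2 * n) - c' ≤ ∑ j ∈ range n, Real.log (2 * √(A L j)) := by
    rw [h_prod hp]
    have : 0 ≤ ε ^ 2 * n := by positivity
    linarith [hc n, le_abs_self (c + Real.log (h L 0)), abs_nonneg (c + Real.log (h L 0))]
  have α0 : ∀ j, 0 < 2 * √(A L j) := fun j => mul_pos two_pos (Real.sqrt_pos.2 (A_pos hp j))
  have a2 : ∑ j ∈ range n, 2 * √(A L j) ≤ n + 1 := by
    have := two_forms hp hx (fun _ => 1) (fun _ => 1) n
    simp only [sub_self, mul_zero, sum_const_zero, zero_add, ← sum_mul, sum_const, card_range,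
      nsmul_eq_mul] at this
    push_cast at this
    linarith
  have a3 : ∑ j ∈ range n, Real.log (2 * √(A L j)) ≤ ∑ j ∈ range n, 2 * √(A L j) - n := by
    refine (sum_le_sum fun j _ => Real.log_le_sub_one_of_pos (α0 j)).trans ?_
    simp
  have a4 : ∑ j ∈ range n, |4 * A L j - 1| ≤ 9 * ε * n +
      9 / ε * (∑ j ∈ range n, 2 * √(A L j) - n - ∑ j ∈ range n, Real.log (2 * √(A L j))) := by
    have : ∀ j, |4 * A L j - 1| ≤ 9 * ε + 9 / ε * (2 * √(A L j) - 1 - Real.log (2 * √(A L j))) := by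
      intro j
      have b1 : 2 * √(A L j) ≤ 2 := by linarith [Real.sqrt_le_one.2 (A_le hp hx2 j)]
      have b2 : 4 * A L j = (2 * √(A L j)) ^ 2 := by
        rw [mul_pow, Real.sq_sqrt (A_pos hp j).le]; norm_num
      obtain ⟨s, s0, hs⟩ : ∃ s, 0 < s ∧ 2 * √(A L j) = s ^ 2 :=
        ⟨√(2 * √(A L j)), Real.sqrt_pos.2 (α0 j), (Real.sq_sqrt (α0 j).le).symm⟩
      rw [b2, hs, Real.log_pow]
      rw [hs] at b1
      have b3 := Real.log_le_sub_one_of_pos s0
      have b4 : |(s ^ 2) ^ 2 - 1| ≤ 9 * |s - 1| := by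
        rw [show (s ^ 2) ^ 2 - 1 = ((s ^ 2 + 1) * (s + 1)) * (s - 1) by ring, abs_mul,
          abs_of_pos (by positivity)]
        gcongr
        nlinarith
      have b5 : |s - 1| ≤ ε + (s - 1) ^ 2 / ε := by
        rw [← sq_abs, ← sub_le_iff_le_add', le_div_iff₀ h0]
        nlinarith [sq_nonneg (|s - 1| - ε), abs_nonneg (s - 1)]
      have b6 : (s - 1) ^ 2 / ε ≤ (s ^ 2 - 1 - (2 : ℕ) * Real.log s) / ε := by
        gcongr
        push_cast
        linarith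
      rw [div_mul_eq_mul_div, mul_div_assoc]
      linarith
    refine (sum_le_sum fun j _ => this j).trans (le_of_eq ?_)
    simp only [sum_add_distrib, ← mul_sum, sum_sub_distrib, sum_const, card_range, nsmul_eq_mul]
    ring
  have a5 : 4 * ε * ∑ j ∈ range (n + 1), |b L j| + 2 * (1 - ε ^ 2) * ∑ j ∈ range n, 2 * √(A L j) ≤
      2 * (1 + ε ^ 2) * (n + 1) := by
    set s : ℕ → ℝ := fun j => if 0 ≤ b L j then 1 else -1 with hs
    have s1 : ∀ j, s j ^ 2 = 1 := fun j => by simp only [hs]; split_ifs <;> norm_num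
    have s2 : ∀ j, b L j * s j = |b L j| := fun j => by
      simp only [hs]
      split_ifs with h
      · rw [abs_of_nonneg h, mul_one]
      · rw [abs_of_neg (not_le.1 h)]; ring
    have := two_forms hp hx (fun j => 1 + ε * s j) (fun j => 1 - ε * s j) n
    rw [mul_sum, mul_sum]
    refine le_trans (add_le_add (le_of_eq (sum_congr rfl fun j _ => ?_)) (sum_le_sum fun j _ => ?_))
      (this.trans (le_of_eq ?_))
    · rw [← s2]; ring
    · rw [mul_comm]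
      refine mul_le_mul_of_nonneg_left ?_ (α0 j).le
      have : -1 ≤ s j * s (j + 1) := by nlinarith [s1 j, s1 (j + 1), sq_nonneg (s j + s (j + 1))]
      nlinarith [mul_le_mul_of_nonneg_left this (sq_nonneg ε)]
    · rw [sum_congr rfl (g := fun _ => 2 * (1 + ε ^ 2)) fun j _ => by
        linear_combination 2 * ε ^ 2 * s1 j]
      simp [mul_comm]
  have a6 : ∑ j ∈ range n, |2 * b L (j + 1)| ≤ 2 * ∑ j ∈ range (n + 1), |b L j| := by
    simp only [abs_mul, abs_two, ← mul_sum, sum_range_succ' _ n]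
    linarith [abs_nonneg (b L 0)]
  have c0 : 0 ≤ c' := abs_nonneg _
  have e1 : ε ^ 2 ≤ 1 := pow_le_one₀ h0.le h1
  have a7 : 2 * ∑ j ∈ range (n + 1), |b L j| ≤ 3 * ε * n + (2 + c') / ε := by
    rw [← sub_le_iff_le_add', le_div_iff₀ h0]
    have b1 : n - ε ^ 2 * n - c' ≤ ∑ j ∈ range n, 2 * √(A L j) := by linarith
    have b2 := mul_le_mul_of_nonneg_left b1 (sub_nonneg.2 e1)
    have b3 : 0 ≤ ε ^ 2 * (ε ^ 2 * n + c') := by positivity
    nlinarith
  have a8 : 9 / ε * (∑ j ∈ range n, 2 * √(A L j) - n - ∑ j ∈ range n, Real.log (2 * √(A L j))) ≤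
      9 / ε * (1 + c' + ε ^ 2 * n) := by
    gcongr
    linarith
  have a9 : 9 / ε * (1 + c' + ε ^ 2 * n) = 9 * (1 + c') / ε + 9 * ε * n := by field_simp
  rw [sum_add_distrib]
  linarith

lemma growth {γ : ℝ} (h0 : 0 < γ) (h1 : γ ≤ 1) : ∃ c : ℝ, ∀ (n : ℕ) (x : ℝ), |x| ≤ 1 →
    (P L n).eval x ^ 2 / h L n ≤ Real.exp (507 * γ * n + c) := by
  obtain ⟨c, hc⟩ := cesaro hp hx hx2 hr (ε := γ ^ 3) (by positivity) (pow_le_one₀ h0.le h1)
  obtain ⟨c', hc'⟩ := hr γ h0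
  refine ⟨24 * c / γ ^ 2 + c' + Real.log (42 / γ ^ 2), fun n x hxx => ?_⟩
  set y : ℕ → ℝ := fun j => 2 ^ j * (P L j).eval x with hy
  have key : ∀ n : ℕ, y (n + 1) ^ 2 - 2 * x * y (n + 1) * y n + y n ^ 2 +
      γ ^ 2 * (y (n + 1) ^ 2 + y n ^ 2) ≤ 42 * Real.exp (2 * γ * n +
        24 * (∑ j ∈ range n, (|2 * b L (j + 1)| + |4 * A L j - 1|)) / γ ^ 2) := by
    intro n
    induction n with
    | zero =>
      have a1 := abs_le.1 (b_le hp hx 0)
      have a2 := abs_le.1 hxx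
      have a3 : γ ^ 2 ≤ 1 := pow_le_one₀ h0.le h1
      have a4 : (x - b L 0) ^ 2 ≤ 4 := by nlinarith
      simp only [hy, zero_add, P_one, show P L 0 = 1 from rfl]
      simp only [pow_one, eval_sub, eval_X, eval_C, pow_zero, eval_one, mul_one, one_pow,
        Nat.cast_zero, mul_zero, range_zero, sum_empty, zero_div, add_zero, Real.exp_zero]
      nlinarith
    | succ n ih =>
      have e : y (n + 1 + 1) = 2 * x * y (n + 1) - y n -
          (2 * b L (n + 1) * y (n + 1) + (4 * A L n - 1) * y n) := by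
        simp only [hy, P_add, eval_sub, eval_mul, eval_X, eval_C]; ring
      rw [e]
      refine (step hxx h0 h1 ?_ ?_).trans ((mul_le_mul_of_nonneg_left ih (Real.exp_pos _).le).trans
        (le_of_eq ?_))
      · rw [abs_mul, abs_two]; linarith [b_le hp hx (n + 1)]
      · rw [abs_le]; constructor <;> linarith [A_pos hp n, A_le hp hx2 n]
      · rw [mul_left_comm, ← Real.exp_add, sum_range_succ]
        push_cast
        ring_nf
  have a1 := key n
  have a2 : 0 ≤ y (n + 1) ^ 2 - 2 * x * y (n + 1) * y n + y n ^ 2 := by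
    have x2 : x ^ 2 ≤ 1 := by rw [← sq_abs]; exact pow_le_one₀ (abs_nonneg _) hxx
    nlinarith [sq_nonneg (x * y (n + 1) - y n), sq_nonneg (y (n + 1))]
  have a3 : y n ^ 2 ≤ 42 / γ ^ 2 * Real.exp (2 * γ * n + 24 * (21 * γ ^ 3 * n + c) / γ ^ 2) := by
    rw [div_mul_eq_mul_div, le_div_iff₀ (by positivity)]
    refine le_trans ?_ (a1.trans (by gcongr; exact hc n))
    nlinarith [sq_nonneg (γ * y (n + 1))]
  have a4 := h_pos hp n
  have a5 := (Real.le_log_iff_exp_le (by positivity)).1 (hc' n)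
  have a6 : (P L n).eval x ^ 2 / h L n = y n ^ 2 / (4 ^ n * h L n) := by
    simp only [hy]
    rw [mul_pow, ← pow_mul, mul_comm n 2, pow_mul, show (2 : ℝ) ^ 2 = 4 by norm_num]
    field_simp
  rw [a6]
  refine (div_le_div₀ (by positivity) a3 (Real.exp_pos _) a5).trans (le_of_eq ?_)
  rw [← Real.exp_log (show 0 < 42 / γ ^ 2 by positivity), ← Real.exp_add, ← Real.exp_sub,
    Real.log_exp]
  congr 1
  field_simp
  ring

theorem bm {γ : ℝ} (h0 : 0 < γ) : ∃ c : ℝ, ∀ (k : ℕ) (Q : ℝ[X]) (x : ℝ), Q.natDegree ≤ k →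
    |x| ≤ 1 → Q.eval x ^ 2 ≤ L (Q ^ 2) * ((k + 1) * Real.exp (γ * k + c)) := by
  obtain ⟨c, hc⟩ := growth hp hx hx2 hr (γ := min 1 (γ / 507)) (by positivity) (min_le_left _ _)
  refine ⟨c, fun k Q x hQ hxx => (christoffel hp x (k + 1) Q
    ((degree_le_of_natDegree_le hQ).trans_lt (by exact_mod_cast k.lt_succ_self))).trans ?_⟩
  refine mul_le_mul_of_nonneg_left ?_ (sq_nn hp Q)
  refine (sum_le_card_nsmul _ _ (Real.exp (γ * k + c)) fun j hj => (hc j x hxx).trans ?_).trans ?_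
  · have h1 : (j : ℝ) ≤ k := by exact_mod_cast Nat.lt_succ_iff.1 (mem_range.1 hj)
    have h2 := min_le_right 1 (γ / 507)
    gcongr
    linarith
  · simp

end H18Erd
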