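import Mathlib

open Polynomial Finset

namespace H18Erd

lemma inter (a b : ℕ → ℝ) (x : ℝ) (hab : ∀ j, a j ≤ b j) (hba : ∀ j, b j ≤ a (j + 1))
    (h0 : |x - a 0| ≤ 2) (k : ℕ) :
    ∃ j ∈ range (k + 1), (∏ i ∈ range (k + 1), |x - a i|) * |x - b j| ≤
      2 * ∏ i ∈ range (k + 1), |x - b i| := by
  have R : ∀ k, a k ≤ x → ∏ i ∈ range (k + 1), |x - a i| ≤ 2 * ∏ i ∈ range k, |x - b i| := by
    intro k
    induction k with
    | zero => intro _; simpa using h0
    | succ k ih =>
      intro hk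
      rw [prod_range_succ, prod_range_succ (fun i => |x - b i|), ← mul_assoc]
      have h1 := hab k
      have h2 := hba k
      refine mul_le_mul (ih (by linarith)) ?_ (abs_nonneg _) (by positivity)
      rw [abs_of_nonneg (by linarith), abs_of_nonneg (by linarith)]; linarith
  induction k with
  | zero => exact ⟨0, by simp, by simpa using mul_le_mul_of_nonneg_right h0 (abs_nonneg _)⟩
  | succ k ih =>
    rcases le_total (a (k + 1)) x with h | h
    · refine ⟨k + 1, by simp, ?_⟩
      rw [prod_range_succ (fun i => |x - b i|), ← mul_assoc]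
      exact mul_le_mul_of_nonneg_right (R _ h) (abs_nonneg _)
    · obtain ⟨j, hj, h1⟩ := ih
      refine ⟨j, by simp at hj ⊢; omega, ?_⟩
      rw [prod_range_succ, prod_range_succ (fun i => |x - b i|), ← mul_assoc, mul_right_comm]
      have h2 := hab (k + 1)
      refine mul_le_mul h1 ?_ (abs_nonneg _) (by positivity)
      rw [abs_of_nonpos (by linarith), abs_of_nonpos (by linarith)]; linarith

lemma sorted (T : Multiset ℝ) (hT : ∀ t ∈ T, |t| ≤ 1) : ∃ s : ℕ → ℝ, Monotone s ∧
    (∀ i, |s i| ≤ 1) ∧ ∀ f : ℝ → ℝ, ∏ i ∈ range T.card, f (s i) = (T.map f).prod := by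
  set l := T.sort (· ≤ ·)
  have hl : ∀ i (hi : i < l.length), |l[i]| ≤ 1 := fun i hi =>
    hT _ ((Multiset.mem_sort _).1 (List.getElem_mem hi))
  have hb : ∀ i, |l.getD i 1| ≤ 1 := fun i => by
    by_cases hi : i < l.length
    · rw [List.getD_eq_getElem _ _ hi]; exact hl i hi
    · rw [List.getD_eq_default _ _ (not_lt.1 hi)]; simp
  refine ⟨fun i => l.getD i 1, monotone_nat_of_le_succ fun i => ?_, hb, fun f => ?_⟩
  · by_cases hi : i + 1 < l.length
    · rw [List.getD_eq_getElem _ _ hi, List.getD_eq_getElem _ _ (show i < l.length by omega)]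
      exact List.pairwise_iff_getElem.1 (Multiset.pairwise_sort T (· ≤ ·)) _ _ _ _ i.lt_succ_self
    · rw [List.getD_eq_default _ _ (not_lt.1 hi)]; exact (abs_le.1 (hb i)).2
  · have : (T.map f).prod = (l.map f).prod := by
      rw [← Multiset.prod_coe, ← Multiset.map_coe, Multiset.sort_eq]
    rw [this, ← Fin.prod_univ_fun_getElem, ← Multiset.length_sort (· ≤ ·),
      ← Fin.prod_univ_eq_prod_range (fun i => f (l.getD i 1))]
    exact prod_congr rfl fun i _ => by rw [List.getD_eq_getElem _ _ i.2]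

lemma proj (q : ℝ[X]) (hq : q.Monic) : ∃ T : Multiset ℝ, T.card = q.natDegree ∧
    (∀ t ∈ T, |t| ≤ 1) ∧ ∀ x, |x| ≤ 1 → (T.map fun t => |x - t|).prod ≤ |q.eval x| := by
  set p := q.map (algebraMap ℝ ℂ)
  have hs : p.Splits := IsAlgClosed.splits p
  refine ⟨p.roots.map fun z => max (-1) (min 1 z.re), ?_, ?_, fun x hx => ?_⟩
  · rw [Multiset.card_map, ← hs.natDegree_eq_card_roots, hq.natDegree_map]
  · intro t ht
    obtain ⟨z, -, rfl⟩ := Multiset.mem_map.1 ht
    exact abs_le.2 ⟨le_max_left _ _, max_le (by norm_num) (min_le_left _ _)⟩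
  · have e : p.eval (x : ℂ) = ((q.eval x : ℝ) : ℂ) := by
      rw [← Complex.coe_algebraMap, eval_map, eval₂_at_apply]
    have e2 : |q.eval x| = (p.roots.map fun z => ‖(x : ℂ) - z‖).prod := by
      rw [← Real.norm_eq_abs, ← Complex.norm_real, ← e, hs.eval_eq_prod_roots_of_monic (hq.map _)]
      have := map_multiset_prod (normHom (α := ℂ)) (p.roots.map fun z => (x : ℂ) - z)
      simpa [Multiset.map_map] using this
    rw [e2, Multiset.map_map]
    refine Multiset.prod_map_le_prod_map₀ _ _ (fun _ _ => abs_nonneg _) fun z _ => ?_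
    refine le_trans ?_ (Complex.abs_re_le_norm _)
    have := abs_le.1 hx
    simp only [Function.comp, Complex.sub_re, Complex.ofReal_re]
    rcases le_total 1 z.re with h | h
    · rw [min_eq_left h, max_eq_right (by norm_num), abs_of_nonpos (by linarith),
        abs_of_nonpos (by linarith)]; linarith
    · rw [min_eq_right h]
      rcases le_total (-1) z.re with h' | h'
      · rw [max_eq_right h']
      · rw [max_eq_left h', abs_of_nonneg (by linarith), abs_of_nonneg (by linarith)]; linarith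

lemma reidx (f : ℕ → ℝ) (n k : ℕ) :
    ∏ i ∈ range (k * n), f i = ∏ r ∈ range n, ∏ j ∈ range k, f (j * n + r) := by
  rw [prod_comm]
  induction k with
  | zero => simp
  | succ k ih => rw [add_mul, one_mul, prod_range_add, ih, prod_range_succ]

lemma amgm (z : ℕ → ℝ) (n : ℕ) (G : ℝ) (hG : 0 < G) (hz : ∀ r, 0 ≤ z r)
    (h : ∑ r ∈ range n, z r ≤ n * G) : ∏ r ∈ range n, z r ≤ G ^ n := by
  have h1 : ∏ r ∈ range n, z r ≤ ∏ r ∈ range n, (G * Real.exp (z r / G - 1)) := by
    refine prod_le_prod (fun r _ => hz r) fun r _ => ?_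
    have := Real.add_one_le_exp (z r / G - 1)
    rw [sub_add_cancel, div_le_iff₀' hG] at this
    exact this
  refine h1.trans ?_
  rw [prod_mul_distrib, prod_const, card_range, ← Real.exp_sum]
  refine mul_le_of_le_one_right (by positivity) (Real.exp_le_one_iff.2 ?_)
  rw [sum_sub_distrib, ← sum_div, sum_const, card_range, nsmul_eq_mul, mul_one, sub_nonpos,
    div_le_iff₀ hG]
  exact h

noncomputable def g (t : ℝ) : ℝ := |t| ^ (-(1 / 2) : ℝ)

lemma g_nn (t : ℝ) : 0 ≤ g t := Real.rpow_nonneg (abs_nonneg _) _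

lemma g_sq {t : ℝ} (ht : t ≠ 0) : g t ^ 2 * |t| = 1 := by
  rw [g, ← Real.rpow_natCast, ← Real.rpow_mul (abs_nonneg _)]
  norm_num
  rw [Real.rpow_neg_one, inv_mul_cancel₀ (abs_ne_zero.2 ht)]

lemma disc (q : ℝ[X]) (hq : q.Monic) (hn : 1 ≤ q.natDegree) (k : ℕ) :
    ∃ (Q : ℝ[X]) (s : ℕ → ℕ → ℝ), Q.Monic ∧ Q.natDegree = k + 1 ∧ (∀ r j, |s r j| ≤ 1) ∧
      ∀ (c x : ℝ), 0 ≤ c → |x| ≤ 1 → |q.eval x| ≤ c ^ q.natDegree → (∀ r j, x ≠ s r j) →
      |Q.eval x| ≤ 2 * c ^ (k + 1) *
        ((∑ r ∈ range q.natDegree, ∑ j ∈ range (k + 1), g (x - s r j)) / q.natDegree) ^ 2 := by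
  obtain ⟨T, hT, hT1, hT2⟩ := proj q hq
  set n := q.natDegree
  obtain ⟨s, hs, hs1, hs2⟩ := sorted ((k + 1) • T) fun t ht => hT1 t (Multiset.mem_of_mem_nsmul ht)
  refine ⟨∏ j ∈ range (k + 1), (X - C (s (j * n))), fun r j => s (j * n + r),
    monic_prod_of_monic _ _ fun _ _ => monic_X_sub_C _, ?_, fun r j => hs1 _,
    fun c x hc hx hqx hne => ?_⟩
  · rw [natDegree_prod_of_monic _ _ fun _ _ => monic_X_sub_C _]; simp
  have e1 := hs2 fun t => |x - t|
  rw [Multiset.card_nsmul, hT, reidx (fun i => |x - s i|), Multiset.map_nsmul,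
    Multiset.prod_nsmul] at e1
  have e2 : ∏ r ∈ range n, ∏ j ∈ range (k + 1), |x - s (j * n + r)| ≤ (c ^ n) ^ (k + 1) := by
    rw [e1]
    exact pow_le_pow_left₀ (Multiset.prod_nonneg fun a ha => by
      obtain ⟨_, -, rfl⟩ := Multiset.mem_map.1 ha; exact abs_nonneg _) ((hT2 x hx).trans hqx) _
  have e3 : ∀ r, r < n → ∃ j ∈ range (k + 1), (∏ i ∈ range (k + 1), |x - s (i * n)|) *
      |x - s (j * n + r)| ≤ 2 * ∏ i ∈ range (k + 1), |x - s (i * n + r)| := fun r hr =>
    inter (fun j => s (j * n)) (fun j => s (j * n + r)) x (fun j => hs (by omega))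
      (fun j => hs (by rw [add_mul]; omega))
      ((abs_sub _ _).trans (by linarith [hs1 (0 * n)])) k
  choose! J hJ hJ2 using e3
  rw [eval_prod, abs_prod]
  simp only [eval_sub, eval_X, eval_C]
  set Y := ∏ i ∈ range (k + 1), |x - s (i * n)|
  set G := (∑ r ∈ range n, ∑ j ∈ range (k + 1), g (x - s (j * n + r))) / n with hG
  have n0 : (0 : ℝ) < n := by exact_mod_cast hn
  have gp : ∀ r j, 0 < g (x - s (j * n + r)) := fun r j =>
    Real.rpow_pos_of_pos (abs_pos.2 (sub_ne_zero.2 (hne r j))) _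
  have G0 : 0 < G := div_pos (sum_pos (fun r _ => sum_pos (fun j _ => gp r j) (by simp))
    (nonempty_range_iff.2 (by omega))) n0
  have e4 := amgm (fun r => g (x - s (J r * n + r))) n G G0 (fun r => g_nn _) (by
    rw [hG, mul_div_cancel₀ _ n0.ne']
    exact sum_le_sum fun r hr => single_le_sum (f := fun j => g (x - s (j * n + r)))
      (fun j _ => g_nn _) (hJ r (mem_range.1 hr)))
  refine le_of_pow_le_pow_left₀ (n := n) (by omega) (by positivity) ?_
  have e5 : Y ^ n ≤ ∏ r ∈ range n, (2 * (∏ i ∈ range (k + 1), |x - s (i * n + r)|) *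
      g (x - s (J r * n + r)) ^ 2) := by
    rw [← card_range n, ← prod_const, card_range]
    refine prod_le_prod (fun _ _ => by positivity) fun r hr => ?_
    have := mul_le_mul_of_nonneg_right (hJ2 r (mem_range.1 hr)) (sq_nonneg (g (x - s (J r * n + r))))
    rwa [mul_assoc, mul_comm (|_|), g_sq (sub_ne_zero.2 (hne r _)), mul_one] at this
  refine e5.trans ?_
  rw [prod_mul_distrib, prod_mul_distrib, prod_const, card_range, prod_pow, mul_pow, mul_pow,
    ← pow_mul c, ← pow_mul G, mul_comm (k + 1), mul_comm 2 n, pow_mul, pow_mul]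
  gcongr
  exact prod_nonneg fun _ _ => g_nn _

lemma g_int : IntervalIntegrable g MeasureTheory.volume (-2) 2 := by
  have h : IntervalIntegrable g MeasureTheory.volume 0 2 := by
    refine (intervalIntegral.intervalIntegrable_rpow' (r := -(1 / 2)) (by norm_num)).congr ?_
    intro t ht
    rw [Set.uIoc_of_le (by norm_num)] at ht
    simp only [g, abs_of_pos ht.1]
  refine IntervalIntegrable.trans (b := 0) ?_ h
  rw [IntervalIntegrable.iff_comp_neg (by simp)]
  have e : (fun x => g (-x)) = g := funext fun x => by simp only [g, abs_neg]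
  rw [e]
  simpa using h.symm

lemma g_shift {s : ℝ} (hs : |s| ≤ 1) :
    IntervalIntegrable (fun x => g (x - s)) MeasureTheory.volume (-1) 1 ∧
      ∫ x in (-1 : ℝ)..1, g (x - s) ≤ ∫ x in (-2 : ℝ)..2, g x := by
  have := abs_le.1 hs
  constructor
  · have h : IntervalIntegrable g MeasureTheory.volume (-1 - s) (1 - s) := by
      refine g_int.mono_set ?_
      rw [Set.uIcc_of_le (by linarith), Set.uIcc_of_le (by linarith)]
      exact Set.Icc_subset_Icc (by linarith) (by linarith)
    simpa using h.comp_sub_right s (by simp)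
  · rw [intervalIntegral.integral_comp_sub_right]
    exact intervalIntegral.integral_mono_interval (by linarith) (by linarith) (by linarith)
      (Filter.Eventually.of_forall fun t => g_nn t) g_int

end H18Erd
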