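import Pool.Agent.Lib.helper18.Erd2
import Pool.Agent.Lib.helper18.Erd3

open Polynomial Finset MeasureTheory

namespace H18Erd

variable {w : ℝ → ℝ} (hw : IntervalIntegrable w volume (-1) 1)
include hw

lemma ii (Q : ℝ[X]) : IntervalIntegrable (fun x => Q.eval x * w x) volume (-1) 1 :=
  hw.continuousOn_mul Q.continuous.continuousOn

noncomputable def Lw : ℝ[X] →ₗ[ℝ] ℝ where
  toFun Q := ∫ x in (-1 : ℝ)..1, Q.eval x * w x
  map_add' Q R := by
    rw [← intervalIntegral.integral_add (ii hw Q) (ii hw R)]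
    simp only [eval_add, add_mul]
  map_smul' c Q := by
    simp only [eval_smul, smul_eq_mul, mul_assoc, RingHom.id_apply]
    exact intervalIntegral.integral_const_mul _ _

lemma Lw_mono {Q R : ℝ[X]} (h0 : ∀ x, 0 ≤ w x) (h : ∀ x, |x| ≤ 1 → Q.eval x ≤ R.eval x) :
    Lw hw Q ≤ Lw hw R :=
  intervalIntegral.integral_mono_on (by norm_num) (ii hw Q) (ii hw R) fun x hx =>
    mul_le_mul_of_nonneg_right (h x (abs_le.2 hx)) (h0 x)

lemma Lw_pos (h0 : ∀ x, 0 ≤ w x) (hs : 0 < ∫ x in (-1 : ℝ)..1, w x) (Q : ℝ[X]) (hQ : Q ≠ 0) :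
    0 < Lw hw (Q ^ 2) := by
  have nn : ∀ x, 0 ≤ (Q ^ 2).eval x * w x := fun x => by
    rw [eval_pow]; exact mul_nonneg (sq_nonneg _) (h0 x)
  refine (intervalIntegral.integral_nonneg_of_forall (by norm_num) nn).lt_of_ne' fun h => hs.ne' ?_
  rw [intervalIntegral.integral_eq_zero_iff_of_le_of_nonneg_ae (by norm_num)
    (Filter.Eventually.of_forall nn) (ii hw _)] at h
  rw [intervalIntegral.integral_eq_zero_iff_of_le_of_nonneg_ae (by norm_num)
    (Filter.Eventually.of_forall h0) hw]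
  filter_upwards [h, ae_restrict_of_ae ((finite_setOf_isRoot hQ).countable.ae_notMem volume)]
    with x h1 h2
  simp only [eval_pow, Pi.zero_apply, mul_eq_zero, pow_eq_zero_iff two_ne_zero] at h1
  exact h1.resolve_left h2

lemma core {M S D τ ε : ℝ} (h0 : ∀ x, 0 ≤ w x) (hM : ∀ x, w x ≤ M) {N : Set ℝ}
    (hN : MeasurableSet N) (hε : 0 ≤ ε) (hv : volume N ≤ ENNReal.ofReal ε) {Q : ℝ[X]}
    (hS : ∀ x, |x| ≤ 1 → Q.eval x ^ 2 ≤ S) {G : ℝ → ℝ} (hG : IntervalIntegrable G volume (-1) 1)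
    (G0 : ∀ x, 0 ≤ G x) (hτ : 0 < τ) (hD : 0 ≤ D)
    (h : ∀ᵐ x, |x| ≤ 1 → 0 < w x → x ∉ N → |Q.eval x| ≤ D * G x ^ 2) :
    Lw hw (Q ^ 2) ≤ M * (S * (ε + τ * ∫ x in (-1 : ℝ)..1, G x) + 2 * (D / τ ^ 2) ^ 2) := by
  have M0 : 0 ≤ M := (h0 0).trans (hM 0)
  have S0 : 0 ≤ S := (sq_nonneg _).trans (hS 0 (by simp))
  have i1 : IntervalIntegrable (N.indicator fun _ => (1 : ℝ)) volume (-1) 1 :=
    ⟨(integrable_const _).indicator hN, (integrable_const _).indicator hN⟩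
  have i2 := (i1.add (hG.const_mul τ)).const_mul S
  have i3 : IntervalIntegrable (fun _ => (D / τ ^ 2) ^ 2) volume (-1 : ℝ) 1 :=
    intervalIntegrable_const
  have e1 : ∫ x in (-1 : ℝ)..1, N.indicator (fun _ => (1 : ℝ)) x ≤ ε := by
    rw [intervalIntegral.integral_of_le (by norm_num), integral_indicator hN, setIntegral_const,
      smul_eq_mul, mul_one]
    exact ENNReal.toReal_le_of_le_ofReal hε ((Measure.restrict_apply_le _ _).trans hv)
  refine (intervalIntegral.integral_mono_ae_restrict (by norm_num) (ii hw _)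
    ((i2.add i3).const_mul M) ?_).trans ?_
  · filter_upwards [ae_restrict_of_ae h, ae_restrict_mem measurableSet_Icc] with x h1 h2
    have hx := abs_le.2 h2
    have t0 : 0 ≤ N.indicator (fun _ => (1 : ℝ)) x := Set.indicator_nonneg (by simp) _
    have g0 := G0 x
    rw [eval_pow]
    rcases (h0 x).eq_or_lt with h3 | h3
    · rw [← h3, mul_zero]; positivity
    rw [mul_comm]
    refine mul_le_mul (hM x) ?_ (sq_nonneg _) M0
    have s1 := hS x hx
    by_cases h4 : x ∈ N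
    · rw [Set.indicator_of_mem h4]
      have : 0 ≤ S * (τ * G x) := by positivity
      nlinarith [sq_nonneg (D / τ ^ 2)]
    rw [Set.indicator_of_notMem h4, zero_add]
    rcases le_total 1 (τ * G x) with h5 | h5
    · nlinarith [sq_nonneg (D / τ ^ 2)]
    · refine le_add_of_nonneg_of_le (by positivity) ?_
      rw [← sq_abs]
      refine pow_le_pow_left₀ (abs_nonneg _) ((h1 hx h3 h4).trans ?_) 2
      rw [le_div_iff₀ (by positivity), mul_assoc, ← mul_pow, mul_comm (G x)]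
      exact mul_le_of_le_one_right hD (pow_le_one₀ (by positivity) h5)
  · rw [intervalIntegral.integral_const_mul, intervalIntegral.integral_add i2 i3,
      intervalIntegral.integral_const_mul, intervalIntegral.integral_add i1 (hG.const_mul τ),
      intervalIntegral.integral_const_mul, intervalIntegral.integral_const, smul_eq_mul]
    norm_num
    gcongr

lemma bmw (h0 : ∀ x, 0 ≤ w x) (hs : 0 < ∫ x in (-1 : ℝ)..1, w x)
    (low : ∀ θ > 0, ∃ N : ℕ, ∀ Q : ℝ[X], Q.Monic → N ≤ Q.natDegree →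
      Real.exp (-(θ * Q.natDegree)) ≤ 4 ^ Q.natDegree * Lw hw (Q ^ 2)) {γ : ℝ} (γ0 : 0 < γ) :
    ∃ c : ℝ, ∀ (k : ℕ) (Q : ℝ[X]) (x : ℝ), Q.natDegree ≤ k →
      |x| ≤ 1 → Q.eval x ^ 2 ≤ Lw hw (Q ^ 2) * ((k + 1) * Real.exp (γ * k + c)) := by
  have hp := Lw_pos hw h0 hs
  refine bm (L := Lw hw) hp (fun Q => ?_) (fun Q => Lw_mono hw h0 fun x hx => ?_)
    (fun θ hθ => ?_) γ0
  · rw [abs_le, neg_le, ← map_neg]
    constructor <;> refine Lw_mono hw h0 fun x hx => ?_ <;>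
    · simp only [eval_neg, eval_mul, eval_X, eval_pow]
      nlinarith [abs_le.1 hx, sq_nonneg (Q.eval x)]
  · simp only [eval_mul, eval_X, eval_pow, mul_pow]
    exact mul_le_of_le_one_left (sq_nonneg _) ((sq_le_one_iff_abs_le_one _).2 hx)
  obtain ⟨N, hN⟩ := low θ hθ
  refine ⟨∑ n ∈ range N, |Real.log (4 ^ n * h (Lw hw) n)|, fun n => ?_⟩
  have t0 : 0 ≤ θ * n := by positivity
  rcases lt_or_ge n N with hn | hn
  · have := single_le_sum (f := fun n => |Real.log (4 ^ n * h (Lw hw) n)|)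
      (fun _ _ => abs_nonneg _) (mem_range.2 hn)
    linarith [neg_abs_le (Real.log (4 ^ n * h (Lw hw) n))]
  · have := hN _ (P_monic (Lw hw) n).1 (by rw [(P_monic _ n).2]; exact hn)
    rw [(P_monic _ n).2, ← Real.le_log_iff_exp_le
      (mul_pos (by positivity) (hp _ (P_monic (Lw hw) n).1.ne_zero))] at this
    have t1 : 0 ≤ ∑ n ∈ range N, |Real.log (4 ^ n * h (Lw hw) n)| := by positivity
    rw [h]; linarith

omit hw in
lemma arith {M C ρ c a Y I B y : ℝ} {k : ℕ} (M0 : 0 ≤ M) (C0 : 0 < C) (ρ0 : 0 < ρ) (a0 : 0 < a)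
    (c0 : 0 < c) (Y0 : 0 < Y) (I0 : 0 ≤ I) (hy : y = k + 1) (hρ : 2 * c = Real.exp (-ρ))
    (hB : B = (y + 1) * (Real.exp (ρ / 8 * y) * a)) (hI : I ≤ y * C)
    (e1 : Real.exp (-(ρ / 2 * y)) ≤ 4 ^ (k + 1) * Y)
    (e : Y ≤ M * (Y * B * (1 / (4 * (M + 1) * B) + 1 / (4 * (M + 1) * B * (y * C)) * I) +
      2 * (2 * c ^ (k + 1) / (1 / (4 * (M + 1) * B * (y * C))) ^ 2) ^ 2)) :
    y ≤ 16 * (M + 1) * (4 * (M + 1) * (2 * a) * C) ^ 4 * (Nat.factorial 9) / ρ ^ 9 := by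
  have y1 : 1 ≤ y := by simp [hy]
  have B0 : 0 < B := by rw [hB]; positivity
  have e2 : Y ≤ 16 * (M + 1) * (c ^ (k + 1)) ^ 2 * (4 * (M + 1) * B * (y * C)) ^ 4 := by
    have a1 : M * (Y * B * (1 / (4 * (M + 1) * B) + 1 / (4 * (M + 1) * B * (y * C)) * I)) ≤
        Y / 2 := by
      calc _ ≤ (M + 1) * (Y * B * (1 / (4 * (M + 1) * B) +
            1 / (4 * (M + 1) * B * (y * C)) * (y * C))) := by gcongr; linarith
        _ = Y / 2 := by field_simp; ring
    have a2 : M * (2 * (2 * c ^ (k + 1) / (1 / (4 * (M + 1) * B * (y * C))) ^ 2) ^ 2) ≤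
        8 * (M + 1) * (c ^ (k + 1)) ^ 2 * (4 * (M + 1) * B * (y * C)) ^ 4 := by
      calc _ ≤ (M + 1) * (2 * (2 * c ^ (k + 1) /
            (1 / (4 * (M + 1) * B * (y * C))) ^ 2) ^ 2) := by gcongr; linarith
        _ = _ := by field_simp; ring
    rw [mul_add] at e
    linarith
  have e3 : B ≤ y * (2 * a) * Real.exp (ρ / 8 * y) := by
    have : 0 ≤ (y - 1) * (Real.exp (ρ / 8 * y) * a) := mul_nonneg (by linarith) (by positivity)
    rw [hB]; linarith
  have e4 : (4 : ℝ) ^ (k + 1) * (c ^ (k + 1)) ^ 2 = Real.exp (-(2 * ρ * y)) := by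
    rw [← pow_mul, mul_comm (k + 1), pow_mul, ← mul_pow, show 4 * c ^ 2 = (2 * c) ^ 2 by ring, hρ,
      ← pow_mul, ← Real.exp_nat_mul]
    congr 1; push_cast; rw [hy]; ring
  set K := 16 * (M + 1) * (4 * (M + 1) * (2 * a) * C) ^ 4 with hK
  have e5 : Real.exp (ρ * y) ≤ K * y ^ 8 := by
    calc Real.exp (ρ * y) = Real.exp (-(ρ / 2 * y)) * Real.exp (3 / 2 * ρ * y) := by
          rw [← Real.exp_add]; congr 1; ring
      _ ≤ 4 ^ (k + 1) * (16 * (M + 1) * (c ^ (k + 1)) ^ 2 * (4 * (M + 1) *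
          (y * (2 * a) * Real.exp (ρ / 8 * y)) * (y * C)) ^ 4) * Real.exp (3 / 2 * ρ * y) := by
          refine mul_le_mul_of_nonneg_right (e1.trans (mul_le_mul_of_nonneg_left (e2.trans ?_)
            (by positivity))) (by positivity)
          gcongr
      _ = K * y ^ 8 * ((4 ^ (k + 1) * (c ^ (k + 1)) ^ 2) * Real.exp (ρ / 8 * y) ^ 4 *
          Real.exp (3 / 2 * ρ * y)) := by rw [hK]; ring
      _ = K * y ^ 8 := by
          rw [e4, ← Real.exp_nat_mul, ← Real.exp_add, ← Real.exp_add]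
          push_cast
          rw [show -(2 * ρ * y) + 4 * (ρ / 8 * y) + 3 / 2 * ρ * y = 0 by ring, Real.exp_zero,
            mul_one]
  have e6 := (Real.pow_div_factorial_le_exp (ρ * y) (by positivity) 9).trans e5
  rw [div_le_iff₀ (by positivity)] at e6
  rw [le_div_iff₀ (by positivity)]
  refine le_of_mul_le_mul_right (a := y ^ 8) ?_ (by positivity)
  linarith

theorem main (hm : Measurable w) {M : ℝ} (h0 : ∀ x, 0 ≤ w x) (hM : ∀ x, w x ≤ M)
    (hs : 0 < ∫ x in (-1 : ℝ)..1, w x)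
    (low : ∀ θ > 0, ∃ N : ℕ, ∀ Q : ℝ[X], Q.Monic → N ≤ Q.natDegree →
      Real.exp (-(θ * Q.natDegree)) ≤ 4 ^ Q.natDegree * Lw hw (Q ^ 2))
    {c : ℝ} (c0 : 0 < c) (c1 : c < 1 / 2) : ∃ ε > 0, ∀ F : Set ℝ, MeasurableSet F →
      volume ({x : ℝ | x ∈ Set.Icc (-1 : ℝ) 1 ∧ 0 < w x} \ F) ≤ ENNReal.ofReal ε →
      ∀ q : ℝ[X], q.Monic → 1 ≤ q.natDegree → ¬ ∀ x ∈ F, |q.eval x| ≤ c ^ q.natDegree := by
  obtain ⟨ρ, ρ0, hρ⟩ : ∃ ρ > 0, 2 * c = Real.exp (-ρ) :=
    ⟨-Real.log (2 * c), neg_pos.2 (Real.log_neg (by positivity) (by linarith)),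
      by rw [neg_neg, Real.exp_log (by positivity)]⟩
  obtain ⟨c2, hB⟩ := bmw hw h0 hs low (γ := ρ / 8) (by positivity)
  obtain ⟨N, hN⟩ := low (ρ / 2) (by positivity)
  obtain ⟨C, C0, hC⟩ : ∃ C > 0, ∫ x in (-2 : ℝ)..2, g x ≤ C := ⟨_, lt_max_of_lt_left one_pos,
    le_max_right _ _⟩
  have M0 : 0 ≤ M := (h0 0).trans (hM 0)
  obtain ⟨k, hk⟩ := exists_nat_gt (max (N : ℝ)
    (16 * (M + 1) * (4 * (M + 1) * (2 * Real.exp c2) * C) ^ 4 * (Nat.factorial 9) / ρ ^ 9))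
  obtain ⟨y, hy⟩ : ∃ y : ℝ, y = k + 1 := ⟨_, rfl⟩
  have y0 : 0 < y := by rw [hy]; positivity
  obtain ⟨B, hBd⟩ : ∃ B, B = (y + 1) * (Real.exp (ρ / 8 * y) * Real.exp c2) := ⟨_, rfl⟩
  have B0 : 0 < B := by rw [hBd]; positivity
  refine ⟨1 / (4 * (M + 1) * B), by positivity, fun F hF hv q hq hn hc => ?_⟩
  obtain ⟨Q, s, hQ, hd, hs1, hs2⟩ := disc q hq hn k
  generalize q.natDegree = n at *
  have n0 : (0 : ℝ) < n := by exact_mod_cast hn
  have i1 : ∀ r, IntervalIntegrable (fun x => ∑ j ∈ range (k + 1), g (x - s r j)) volume (-1) 1 :=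
    fun r => by
      have := IntervalIntegrable.sum (range (k + 1)) fun j _ => (g_shift (hs1 r j)).1
      rwa [Finset.sum_fn] at this
  have i2 : IntervalIntegrable (fun x => ∑ r ∈ range n, ∑ j ∈ range (k + 1), g (x - s r j))
      volume (-1) 1 := by
    have := IntervalIntegrable.sum (range n) fun r _ => i1 r
    rwa [Finset.sum_fn] at this
  have i3 : ∫ x in (-1 : ℝ)..1, (∑ r ∈ range n, ∑ j ∈ range (k + 1), g (x - s r j)) / n ≤
      y * C := by
    rw [intervalIntegral.integral_div, intervalIntegral.integral_finsetSum fun r _ => i1 r,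
      div_le_iff₀' n0]
    refine (sum_le_card_nsmul _ _ (y * C) fun r _ => ?_).trans (by simp)
    rw [intervalIntegral.integral_finsetSum fun j _ => (g_shift (hs1 r j)).1]
    exact (sum_le_card_nsmul _ _ C fun j _ => (g_shift (hs1 r j)).2.trans hC).trans (by simp [hy])
  have g0 : ∀ x, 0 ≤ (∑ r ∈ range n, ∑ j ∈ range (k + 1), g (x - s r j)) / n :=
    fun x => div_nonneg (sum_nonneg fun _ _ => sum_nonneg fun _ _ => g_nn _) n0.le
  have e := core hw (S := Lw hw (Q ^ 2) * B) (D := 2 * c ^ (k + 1))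
    (τ := 1 / (4 * (M + 1) * B * (y * C))) h0 hM
    ((measurableSet_Icc.inter (measurableSet_lt measurable_const hm)).diff hF) (by positivity) hv
    (fun x hx => by
      have := hB (k + 1) Q x hd.le hx
      rwa [Nat.cast_succ, ← hy, Real.exp_add, ← hBd] at this) (i2.div_const n) g0
    (by positivity) (by positivity) (by
      filter_upwards [(Set.countable_range fun p : ℕ × ℕ => s p.1 p.2).ae_notMem volume]
        with x h1 h2 h3 h4
      refine hs2 c x c0.le h2 (hc x ?_) fun r j e => h1 ⟨(r, j), e.symm⟩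
      by_contra h5
      exact h4 ⟨⟨abs_le.1 h2, h3⟩, h5⟩)
  have e1 := hN Q hQ (by
    rw [hd]
    exact (Nat.cast_lt.1 ((le_max_left _ _).trans_lt hk)).le.trans k.le_succ)
  rw [hd, Nat.cast_succ, ← hy] at e1
  have := arith M0 C0 ρ0 (Real.exp_pos c2) c0 (Lw_pos hw h0 hs Q hQ.ne_zero)
    (intervalIntegral.integral_nonneg_of_forall (by norm_num) g0) hy hρ hBd i3 e1 e
  linarith [(le_max_right _ _).trans_lt hk]

end H18Erd
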