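import Mathlib

set_option autoImplicit false

namespace H18Fat

/-- `m` disjoint stars with `r + 1` leaves each -/
def St (m r : ℕ) : SimpleGraph (Fin m × Option (Fin (r + 1))) where
  Adj := fun x y => x.1 = y.1 ∧ x.2.isSome ≠ y.2.isSome
  symm := ⟨fun _ _ h => ⟨h.1.symm, h.2.symm⟩⟩
  loopless := ⟨fun _ h => h.2 rfl⟩

lemma adj (m r : ℕ) (x y : Fin m × Option (Fin (r + 1))) :
    (St m r).Adj x y ↔ x.1 = y.1 ∧ x.2.isSome ≠ y.2.isSome := Iff.rfl

def Ps (m r : ℕ) (s : Fin m → Bool) : Setoid (Fin m × Option (Fin (r + 1))) :=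
  Setoid.ker fun x => xor x.2.isSome (s x.1)

lemma ps (m r : ℕ) (s : Fin m → Bool) (x y : Fin m × Option (Fin (r + 1))) :
    Ps m r s x y ↔ xor x.2.isSome (s x.1) = xor y.2.isSome (s y.1) := Iff.rfl

def Cp (m r : ℕ) : Setoid (Fin m × Option (Fin (r + 1))) := Setoid.ker Prod.fst

lemma cp (m r : ℕ) (x y : Fin m × Option (Fin (r + 1))) : Cp m r x y ↔ x.1 = y.1 := Iff.rfl

def g (s : Fin 2 → Bool) (x : Fin 2 × Option (Fin (0 + 1))) : Fin 2 × Option (Fin (0 + 1)) :=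
  (x.1, if xor x.2.isSome (s x.1) then some 0 else none)

lemma g1 : ∀ s x, g s (g s x) = x := by decide

lemma g2 : ∀ s x y, ((g s x).1 = (g s y).1 ∧ (g s x).2.isSome ≠ (g s y).2.isSome) ↔
    (x.1 = y.1 ∧ x.2.isSome ≠ y.2.isSome) := by decide

lemma g3 : ∀ (s : Fin 2 → Bool) (x y : Fin 2 × Option (Fin (0 + 1))),
    xor x.2.isSome (s x.1) = xor y.2.isSome (s y.1) ↔
    xor (g s x).2.isSome false = xor (g s y).2.isSome false := by decide

lemma leaf (m r : ℕ) (i : Fin m) (t : Fin (r + 1)) :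
    {u | (St m r).Adj (i, some t) u} = {(i, none)} := by
  ext ⟨j, a⟩
  rw [Set.mem_setOf_eq, adj, Set.mem_singleton_iff, Prod.ext_iff]
  cases a
  · exact ⟨fun h => ⟨h.1.symm, rfl⟩, fun h => ⟨h.1.symm, by simp⟩⟩
  · simp

end H18Fat
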