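import Mathlib

set_option autoImplicit false

open Matrix

namespace Pool.Agent.H18Gr

section energy
variable {n : Type*} [Fintype n] [DecidableEq n]

theorem trace_mul_eq {A : Matrix n n ℝ} (hA : A.IsHermitian) (U : Matrix n n ℝ) :
    trace (A * U) = ∑ i, hA.eigenvalues i *
      ((fun k => (hA.eigenvectorUnitary : Matrix n n ℝ) k i) ⬝ᵥ
        (U *ᵥ fun k => (hA.eigenvectorUnitary : Matrix n n ℝ) k i)) := by
  conv_lhs => rw [hA.spectral_theorem, Unitary.conjStarAlgAut_apply, Matrix.mul_assoc,
    Matrix.mul_assoc, trace_mul_comm, Matrix.mul_assoc]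
  simp only [trace, diag, diagonal_mul, Function.comp, RCLike.ofReal_real_eq_id, id]
  refine Finset.sum_congr rfl fun i _ => ?_
  congr 1
  rw [Matrix.mul_assoc]
  simp [mul_apply, dotProduct, mulVec, star_apply]

theorem col_norm {A : Matrix n n ℝ} (hA : A.IsHermitian) (i : n) :
    ((fun k => (hA.eigenvectorUnitary : Matrix n n ℝ) k i) ⬝ᵥ
        (fun k => (hA.eigenvectorUnitary : Matrix n n ℝ) k i)) = 1 := by
  have h : star (hA.eigenvectorUnitary : Matrix n n ℝ) * (hA.eigenvectorUnitary : Matrix n n ℝ) = 1 :=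
    Unitary.star_mul_self_of_mem hA.eigenvectorUnitary.2
  have := congrFun (congrFun h i) i
  rw [mul_apply, one_apply_eq] at this
  simpa [dotProduct, star_apply] using this

theorem energy_eq {A : Matrix n n ℝ} (hA : A.IsHermitian) :
    (A.charpoly.roots.map (fun t => |t|)).sum = ∑ i, |hA.eigenvalues i| := by
  rw [hA.roots_charpoly_eq_eigenvalues, Multiset.map_map]
  rfl

/-- Lower bound for the energy from a numerical contraction. -/
theorem trace_le_energy {A : Matrix n n ℝ} (hA : A.IsHermitian) (U : Matrix n n ℝ)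
    (hU : ∀ x : n → ℝ, |x ⬝ᵥ (U *ᵥ x)| ≤ x ⬝ᵥ x) :
    trace (A * U) ≤ (A.charpoly.roots.map (fun t => |t|)).sum := by
  rw [energy_eq hA, trace_mul_eq hA]
  refine Finset.sum_le_sum fun i _ => (le_abs_self _).trans ?_
  rw [abs_mul]
  have := hU (fun k => (hA.eigenvectorUnitary : Matrix n n ℝ) k i)
  rw [col_norm hA] at this
  exact mul_le_of_le_one_right (abs_nonneg _) this

theorem perm_contr (σ : Equiv.Perm n) (x : n → ℝ) : |∑ i, x i * x (σ i)| ≤ x ⬝ᵥ x := by
  have h : ∑ i, x (σ i) * x (σ i) = ∑ i, x i * x i := Equiv.sum_comp σ (fun i => x i * x i)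
  have h2 : ∑ i, |x i * x (σ i)| ≤ ∑ i, (x i * x i + x (σ i) * x (σ i)) / 2 :=
    Finset.sum_le_sum fun i _ => abs_le.2 ⟨by nlinarith [sq_nonneg (x i + x (σ i))],
      by nlinarith [sq_nonneg (x i - x (σ i))]⟩
  rw [← Finset.sum_div, Finset.sum_add_distrib, h] at h2
  refine (Finset.abs_sum_le_sum_abs _ _).trans (h2.trans ?_)
  simp [dotProduct]

/-- A permutation gives a lower bound of the energy. -/
theorem perm_le_energy {A : Matrix n n ℝ} (hA : A.IsHermitian) (σ : Equiv.Perm n) :
    ∑ i, A (σ i) i ≤ (A.charpoly.roots.map (fun t => |t|)).sum := by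
  have := trace_le_energy hA (Matrix.of fun i j => if j = σ i then 1 else 0) (fun x => by
    have := perm_contr σ x
    simpa [dotProduct, mulVec] using this)
  refine le_trans (le_of_eq ?_) this
  simp only [trace, diag, mul_apply, of_apply, mul_ite, mul_one, mul_zero]
  rw [Finset.sum_comm]
  simp

end energy

section graph
variable {V : Type*}

/-- Graph from a Boolean table. -/
def mk (f : V → V → Bool) (hs : ∀ a b, f a b = f b a) (hl : ∀ a, f a a = false) :
    SimpleGraph V where
  Adj a b := f a b = true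
  symm := ⟨fun a b h => by rw [hs]; exact h⟩
  loopless := ⟨fun a h => by simp [hl] at h⟩

@[simp] theorem mk_adj (f : V → V → Bool) (hs hl) (a b : V) :
    (mk f hs hl).Adj a b ↔ f a b = true := Iff.rfl

/-- Integer 0/1 matrix of a Boolean table. -/
def zm (f : V → V → Bool) : Matrix V V ℤ := Matrix.of fun a b => if f a b then 1 else 0

theorem adjMatrix_mk (f : V → V → Bool) (hs hl) [DecidableRel (mk f hs hl).Adj] (R : Type*)
    [CommRing R] : (mk f hs hl).adjMatrix R = (zm f).map (Int.cast) := by
  ext a b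
  by_cases h : f a b = true <;> simp [zm, h]

theorem herm [Fintype V] (G : SimpleGraph V) [DecidableRel G.Adj] :
    (G.adjMatrix ℝ).IsHermitian := by
  ext i j; simp [SimpleGraph.adj_comm]

theorem conn_of_parent (G : SimpleGraph V) (r : V) (par : V → V) (h : V → ℕ)
    (hp : ∀ v, v = r ∨ (G.Adj v (par v) ∧ h (par v) < h v)) : G.Connected := by
  have key : ∀ k v, h v < k → G.Reachable v r := by
    intro k
    induction k with
    | zero => intro v hv; omega
    | succ k ih =>
      intro v hv
      rcases hp v with rfl | ⟨h1, h2⟩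
      · rfl
      · exact h1.reachable.trans (ih _ (by omega))
  haveI : Nonempty V := ⟨r⟩
  exact ⟨fun a b => (key _ a (Nat.lt_succ_self _)).trans (key _ b (Nat.lt_succ_self _)).symm⟩

theorem ncard_nbr [Fintype V] (f : V → V → Bool) (hs hl) (v : V) :
    ((mk f hs hl).neighborSet v).ncard = (Finset.univ.filter (fun w => f v w = true)).card := by
  rw [← Set.ncard_coe_finset]; congr 1; ext w; simp

theorem two_edges [Fintype V] (f : V → V → Bool) (hs hl) :
    2 * (mk f hs hl).edgeSet.ncard =
      ∑ v, (Finset.univ.filter (fun w => f v w = true)).card := by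
  classical
  rw [← SimpleGraph.coe_edgeFinset, Set.ncard_coe_finset,
    ← SimpleGraph.sum_degrees_eq_twice_card_edges]
  refine Finset.sum_congr rfl fun v _ => ?_
  rw [← SimpleGraph.card_neighborFinset_eq_degree]
  congr 1; ext w; simp

/-- Distance certificate. -/
theorem dist_eq (G : SimpleGraph V) (u : V) (d : V → ℕ) (h0 : d u = 0)
    (h1 : ∀ v w, G.Adj v w → d w ≤ d v + 1)
    (h2 : ∀ w, w = u ∨ ∃ v, G.Adj v w ∧ d v + 1 = d w) (w : V) :
    G.Reachable u w ∧ G.dist u w = d w := by
  have up : ∀ k w, d w = k → ∃ p : G.Walk u w, p.length = k := by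
    intro k
    induction k with
    | zero =>
      intro w hw
      rcases h2 w with rfl | ⟨v, -, h⟩
      · exact ⟨.nil, rfl⟩
      · omega
    | succ k ih =>
      intro w hw
      rcases h2 w with rfl | ⟨v, hv, h⟩
      · omega
      · obtain ⟨p, hp⟩ := ih v (by omega)
        exact ⟨p.concat hv, by simp [hp]⟩
  have lo : ∀ (a b : V) (p : G.Walk a b), d b ≤ d a + p.length := by
    intro a b p
    induction p with
    | nil => simp
    | cons h p ih => have := h1 _ _ h; simp only [SimpleGraph.Walk.length_cons]; omega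
  obtain ⟨p, hp⟩ := up _ w rfl
  refine ⟨⟨p⟩, le_antisymm (hp ▸ SimpleGraph.dist_le p) ?_⟩
  obtain ⟨q, hq⟩ := SimpleGraph.Reachable.exists_walk_length_eq_dist ⟨p⟩
  have := lo _ _ q
  omega

end graph

end Pool.Agent.H18Gr
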