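import Mathlib

set_option autoImplicit false

namespace Pool.Agent.H18Spec

open Matrix

variable {n : Type} [Fintype n] [DecidableEq n]

theorem exists_eigvec {A : Matrix n n ℝ} {μ : ℝ} (h : μ ∈ spectrum ℝ A) :
    ∃ x : n → ℝ, x ≠ 0 ∧ A *ᵥ x = μ • x := by
  rw [spectrum.mem_iff, Matrix.isUnit_iff_isUnit_det, isUnit_iff_ne_zero, not_not,
    ← Matrix.exists_mulVec_eq_zero_iff] at h
  obtain ⟨x, hx, h⟩ := h
  refine ⟨x, hx, ?_⟩
  rw [Matrix.sub_mulVec, Algebra.algebraMap_eq_smul_one, Matrix.smul_mulVec,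
      Matrix.one_mulVec, sub_eq_zero] at h
  exact h.symm

theorem mem_spectrum_of_eigvec {A : Matrix n n ℝ} {μ : ℝ} {x : n → ℝ} (hx : x ≠ 0)
    (h : A *ᵥ x = μ • x) : μ ∈ spectrum ℝ A := by
  rw [spectrum.mem_iff, Matrix.isUnit_iff_isUnit_det, isUnit_iff_ne_zero, not_not,
    ← Matrix.exists_mulVec_eq_zero_iff]
  refine ⟨x, hx, ?_⟩
  rw [Matrix.sub_mulVec, h, Algebra.algebraMap_eq_smul_one, Matrix.smul_mulVec,
      Matrix.one_mulVec, sub_self]

/-- Rayleigh bound from an upper bound of the spectrum. -/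
theorem rayleigh_le {A : Matrix n n ℝ} (hA : A.IsHermitian) {s : ℝ}
    (hs : ∀ μ ∈ spectrum ℝ A, μ ≤ s) (x : n → ℝ) : x ⬝ᵥ (A *ᵥ x) ≤ s * (x ⬝ᵥ x) := by
  have hP : (s • (1 : Matrix n n ℝ) - A).PosSemidef := by
    rw [Matrix.posSemidef_iff_isHermitian_and_spectrum_nonneg]
    refine ⟨?_, ?_⟩
    · refine IsHermitian.sub ?_ hA
      simp [IsHermitian]
    · intro μ hμ
      obtain ⟨y, hy, h⟩ := exists_eigvec hμ
      have h2 : A *ᵥ y = (s - μ) • y := by
        rw [Matrix.sub_mulVec, Matrix.smul_mulVec, Matrix.one_mulVec] at h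
        rw [sub_smul, ← h]
        abel
      have := hs _ (mem_spectrum_of_eigvec hy h2)
      show 0 ≤ μ
      linarith
  have := hP.dotProduct_mulVec_nonneg x
  rw [Matrix.sub_mulVec, Matrix.smul_mulVec, Matrix.one_mulVec, dotProduct_sub,
    dotProduct_smul] at this
  simp only [star_trivial, smul_eq_mul] at this
  linarith

theorem rayleigh_le_sSup {A : Matrix n n ℝ} (hA : A.IsHermitian) (x : n → ℝ) :
    x ⬝ᵥ (A *ᵥ x) ≤ sSup (spectrum ℝ A) * (x ⬝ᵥ x) :=
  rayleigh_le hA (fun _ hμ => le_csSup (Matrix.finite_real_spectrum (A := A)).bddAbove hμ) x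

/-- Collatz-Wielandt upper bound for nonnegative matrices. -/
theorem spec_le_of_pos_vec {A : Matrix n n ℝ} (hA : ∀ i j, 0 ≤ A i j) {w : n → ℝ}
    (hw : ∀ i, 0 < w i) {s : ℝ} (hs : ∀ i, (A *ᵥ w) i ≤ s * w i) {μ : ℝ}
    (hμ : μ ∈ spectrum ℝ A) : |μ| ≤ s := by
  obtain ⟨x, hx, h⟩ := exists_eigvec hμ
  have hne : Nonempty n := by
    by_contra hn
    apply hx
    funext i
    exact (hn ⟨i⟩).elim
  obtain ⟨i, -, hi⟩ := Finset.exists_max_image Finset.univ (fun i => |x i| / w i)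
    Finset.univ_nonempty
  set t := |x i| / w i with ht
  have hxi : |x i| = t * w i := by rw [ht, div_mul_cancel₀ _ (hw i).ne']
  have hle : ∀ j, |x j| ≤ t * w j := fun j => by
    have := hi j (Finset.mem_univ _)
    rwa [div_le_iff₀ (hw j)] at this
  have htpos : 0 < t := by
    by_contra hc
    apply hx
    funext j
    have h1 := hle j
    have h2 : t * w j ≤ 0 := mul_nonpos_of_nonpos_of_nonneg (not_lt.mp hc) (hw j).le
    exact abs_nonpos_iff.mp (h1.trans h2)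
  have h1 : |μ| * |x i| = |(A *ᵥ x) i| := by rw [h, ← abs_mul]; simp
  have h2 : |(A *ᵥ x) i| ≤ t * (A *ᵥ w) i := by
    simp only [Matrix.mulVec, dotProduct]
    rw [Finset.mul_sum]
    refine (Finset.abs_sum_le_sum_abs _ _).trans (Finset.sum_le_sum fun j _ => ?_)
    rw [abs_mul, abs_of_nonneg (hA i j)]
    have := mul_le_mul_of_nonneg_left (hle j) (hA i j)
    linarith
  have h3 : t * (A *ᵥ w) i ≤ t * (s * w i) := mul_le_mul_of_nonneg_left (hs i) htpos.le
  have h4 : |μ| * (t * w i) ≤ s * (t * w i) := by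
    calc |μ| * (t * w i) = |μ| * |x i| := by rw [hxi]
      _ ≤ t * (s * w i) := by rw [h1]; exact h2.trans h3
      _ = s * (t * w i) := by ring
  exact le_of_mul_le_mul_right h4 (mul_pos htpos (hw i))

end Pool.Agent.H18Spec
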