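import Mathlib
import Pool.Agent.Lib.helper18.Gr
import Pool.Agent.Lib.helper18.Spec

set_option autoImplicit false

open Matrix

namespace Pool.Agent.H18Gr

variable {n : Type} [Fintype n] [DecidableEq n]

theorem trace_pow_succ {A : Matrix n n ℝ} (hA : A.IsHermitian) (k : ℕ) :
    trace (A ^ (k + 1)) = (A.charpoly.roots.map (fun t => t ^ (k + 1))).sum := by
  rw [hA.roots_charpoly_eq_eigenvalues, Multiset.map_map, pow_succ', trace_mul_eq hA]
  refine Finset.sum_congr rfl fun i _ => ?_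
  have h1 : A *ᵥ (fun k => (hA.eigenvectorUnitary : Matrix n n ℝ) k i) =
      hA.eigenvalues i • (fun k => (hA.eigenvectorUnitary : Matrix n n ℝ) k i) :=
    hA.mulVec_eigenvectorBasis i
  have h2 : ∀ m : ℕ, (A ^ m) *ᵥ (fun k => (hA.eigenvectorUnitary : Matrix n n ℝ) k i) =
      hA.eigenvalues i ^ m • (fun k => (hA.eigenvectorUnitary : Matrix n n ℝ) k i) := by
    intro m
    induction m with
    | zero => simp
    | succ m ih => rw [pow_succ, ← mulVec_mulVec, h1, mulVec_smul, ih, smul_smul, pow_succ']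
  rw [h2, dotProduct_smul, col_norm hA]
  simp [pow_succ']

theorem mem_roots_of_eigvec {A : Matrix n n ℝ} {μ : ℝ} {x : n → ℝ} (hx : x ≠ 0)
    (h : A *ᵥ x = μ • x) : μ ∈ A.charpoly.roots := by
  rw [Polynomial.mem_roots A.charpoly_monic.ne_zero, ← Matrix.mem_spectrum_iff_isRoot_charpoly]
  exact H18Spec.mem_spectrum_of_eigvec hx h

theorem eigvec_of_mem_roots {A : Matrix n n ℝ} {μ : ℝ} (h : μ ∈ A.charpoly.roots) :
    ∃ x : n → ℝ, x ≠ 0 ∧ A *ᵥ x = μ • x := by
  rw [Polynomial.mem_roots A.charpoly_monic.ne_zero, ← Matrix.mem_spectrum_iff_isRoot_charpoly] at h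
  exact H18Spec.exists_eigvec h

theorem trace_pow_cast (M : Matrix n n ℤ) (k : ℕ) :
    trace ((M.map (Int.cast : ℤ → ℝ)) ^ k) = (trace (M ^ k) : ℤ) := by
  have : (M.map (Int.cast : ℤ → ℝ)) ^ k = (M ^ k).map (Int.cast : ℤ → ℝ) :=
    ((Int.castRingHom ℝ).mapMatrix.map_pow M k).symm
  rw [this]
  simp [trace]

theorem not_conn {V : Type*} (G : SimpleGraph V) (φ : V → Bool) (h : ∀ x y, G.Adj x y → φ x = φ y)
    (a b : V) (hab : G.Reachable a b) : φ a = φ b := by
  obtain ⟨p⟩ := hab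
  induction p with
  | nil => rfl
  | cons hadj _ ih => exact (h _ _ hadj).trans ih

end Pool.Agent.H18Gr
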