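import Mathlib
import Pool.Agent.Lib.helper18.Gr2

set_option autoImplicit false

open Matrix

namespace Pool.Agent.H18Gr

variable {n : Type} [Fintype n] [DecidableEq n]

theorem charpoly_conj {K : Type*} [Field K] (A B P Q : Matrix n n K) (hQ : Q * P = 1)
    (h : A * P = P * B) : A.charpoly = B.charpoly := by
  have h1 : P * Q = 1 := mul_eq_one_comm.1 hQ
  have : A = P * (B * Q) := by rw [← Matrix.mul_assoc, ← h, Matrix.mul_assoc, h1, Matrix.mul_one]
  rw [this, charpoly_mul_comm, Matrix.mul_assoc, hQ, Matrix.mul_one]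

theorem roots_diagonal (d : n → ℝ) : (diagonal d).charpoly.roots = Finset.univ.val.map d := by
  rw [charpoly_diagonal]
  have := Polynomial.roots_multiset_prod_X_sub_C (Finset.univ.val.map d)
  rw [Multiset.map_map] at this
  exact this

/-- Integer similarity certificate. -/
theorem charpoly_cert (M N P Q : Matrix n n ℤ) (c : ℤ) (hc : c ≠ 0)
    (hQ : ∀ i j, ∑ k, Q i k * P k j = if i = j then c else 0)
    (h : ∀ i j, ∑ k, M i k * P k j = ∑ k, P i k * N k j) :
    (M.map (Int.cast : ℤ → ℝ)).charpoly = (N.map (Int.cast : ℤ → ℝ)).charpoly := by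
  have hc' : (c : ℝ) ≠ 0 := by exact_mod_cast hc
  refine charpoly_conj _ _ (P.map Int.cast) ((c : ℝ)⁻¹ • Q.map Int.cast) ?_ ?_
  · ext i j
    have := congrArg (Int.cast : ℤ → ℝ) (hQ i j)
    simp only [Int.cast_sum, Int.cast_mul, Int.cast_ite, Int.cast_zero] at this
    rw [Matrix.smul_mul, Matrix.smul_apply, mul_apply]
    simp only [map_apply, this, one_apply, smul_eq_mul]
    split_ifs <;> simp [hc']
  · ext i j
    have := congrArg (Int.cast : ℤ → ℝ) (h i j)
    simpa [mul_apply] using this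

theorem roots_cert (M P Q : Matrix n n ℤ) (d : n → ℤ) (c : ℤ) (hc : c ≠ 0)
    (hQ : ∀ i j, ∑ k, Q i k * P k j = if i = j then c else 0)
    (h : ∀ i j, ∑ k, M i k * P k j = P i j * d j) :
    (M.map (Int.cast : ℤ → ℝ)).charpoly.roots = (Finset.univ.val.map d).map Int.cast := by
  rw [charpoly_cert M (diagonal d) P Q c hc hQ (fun i j => by
    rw [h]; exact (mul_diagonal d P i j).symm), diagonal_map (by simp), roots_diagonal,
    Multiset.map_map]
  rfl

theorem diam_eq {V : Type*} [Finite V] (G : SimpleGraph V) (hc : G.Connected) (D : ℕ)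
    (h : ∀ u v, G.dist u v ≤ D) (a b : V) (hab : G.dist a b = D) : G.diam = D := by
  have : Nonempty V := ⟨a⟩
  obtain ⟨u, v, huv⟩ := G.exists_dist_eq_diam
  exact le_antisymm (huv ▸ h u v)
    (hab ▸ SimpleGraph.dist_le_diam (SimpleGraph.connected_iff_ediam_ne_top.1 hc))

/-- All distances from a table. -/
theorem dist_table {V : Type*} (G : SimpleGraph V) (d : V → V → ℕ) (h0 : ∀ u, d u u = 0)
    (h1 : ∀ u v w, G.Adj v w → d u w ≤ d u v + 1)
    (h2 : ∀ u w, w = u ∨ ∃ v, G.Adj v w ∧ d u v + 1 = d u w) :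
    G.Preconnected ∧ ∀ u w, G.dist u w = d u w :=
  ⟨fun u w => (dist_eq G u (d u) (h0 u) (h1 u) (h2 u) w).1,
    fun u w => (dist_eq G u (d u) (h0 u) (h1 u) (h2 u) w).2⟩

end Pool.Agent.H18Gr
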