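import Pool.Agent.Lib.helper18.Jac6

open MeasureTheory Set Filter Topology H18Cantor
open scoped ENNReal NNReal BoundedContinuousFunction

namespace H18Hm

def S : ℕ → ℕ
  | 0 => 0
  | k + 1 => S k + if S k ≤ 2 * k then k + 3 else 1

def ex (k : ℕ) : ℕ := if S k ≤ 2 * k then k + 3 else 1

noncomputable def l (k : ℕ) : ℝ := (1 / 2) ^ ex k

lemma S_succ (k : ℕ) : S (k + 1) = S k + ex k := rfl

lemma ex_bd (k : ℕ) : 1 ≤ ex k ∧ ex k ≤ k + 3 := by unfold ex; split_ifs <;> omega

lemma S_le (k : ℕ) : S k ≤ 3 * k + 3 := by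
  induction k with
  | zero => simp [S]
  | succ k ih => rw [S]; split_ifs <;> omega

lemma special (M : ℕ) : ∃ s, M ≤ s ∧ S s ≤ 2 * s := by
  by_contra! h
  have : ∀ j, S (M + j) = S M + j := by
    intro j
    induction j with
    | zero => rfl
    | succ j ih => rw [← add_assoc, S, if_neg (not_le.2 (h _ (by omega))), ih]; ring
  have h1 := h (M + S M) (by omega)
  rw [this] at h1
  omega

lemma l_pos (k : ℕ) : 0 < l k := by unfold l; positivity

lemma l_le (k : ℕ) : l k ≤ 1 / 2 := pow_le_of_le_one (by norm_num) (by norm_num)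
  (by have := ex_bd k; omega)

structure Nest (φ : ℕ → Om → ℝ) : Prop where
  cont : ∀ k, Continuous (φ k)
  le : ∀ k e, |φ k e| ≤ 2
  nn : ∀ k e, 0 ≤ φ k (cons true e)
  neg : ∀ k e, φ k (cons false e) = -φ k (cons true e)
  sq : ∀ k e, φ k (cons true e) ^ 2 = 4 - 2 * l k + l k * φ (k + 1) e

noncomputable def g (k : ℕ) (t : ℝ) : ℝ := √(4 - 2 * l k + l k * max (-2) (min 2 t))

lemma clip (t : ℝ) : -2 ≤ max (-2) (min 2 t) ∧ max (-2) (min 2 t) ≤ (2 : ℝ) :=
  ⟨le_max_left _ _, max_le (by norm_num) (min_le_left _ _)⟩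

lemma g_sq (k : ℕ) (t : ℝ) : g k t ^ 2 = 4 - 2 * l k + l k * max (-2) (min 2 t) :=
  Real.sq_sqrt (by nlinarith [clip t, l_pos k, l_le k])

lemma g_ge (k : ℕ) (t : ℝ) : 1 ≤ g k t :=
  Real.le_sqrt_of_sq_le (by nlinarith [clip t, l_pos k, l_le k])

lemma g_le (k : ℕ) (t : ℝ) : g k t ≤ 2 :=
  Real.sqrt_le_iff.2 ⟨by norm_num, by nlinarith [clip t, l_pos k, l_le k]⟩

lemma g_lip (k : ℕ) (s t : ℝ) : |g k s - g k t| ≤ 1 / 2 * |s - t| := by
  have h2 : |max (-2) (min 2 s) - max (-2) (min 2 t)| ≤ |s - t| := by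
    refine (abs_max_sub_max_le_max _ _ _ _).trans (max_le (by simp) ?_)
    exact (abs_min_sub_min_le_max _ _ _ _).trans (max_le (by simp) le_rfl)
  have h3 : |g k s - g k t| * (g k s + g k t) ≤ |s - t| := by
    rw [← abs_of_pos (a := g k s + g k t) (by linarith [g_ge k s, g_ge k t]), ← abs_mul]
    have : (g k s - g k t) * (g k s + g k t) = l k * (max (-2) (min 2 s) - max (-2) (min 2 t)) := by
      linear_combination g_sq k s - g_sq k t
    rw [this, abs_mul, abs_of_pos (l_pos k)]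
    nlinarith [l_le k, abs_nonneg (s - t), l_pos k]
  nlinarith [g_ge k s, g_ge k t, abs_nonneg (g k s - g k t)]

noncomputable def T (F : (ℕ × Om) →ᵇ ℝ) : (ℕ × Om) →ᵇ ℝ :=
  BoundedContinuousFunction.ofNormedAddCommGroup
    (fun p => sg (p.2 0) * g p.1 (F (p.1 + 1, sh p.2)))
    (by
      refine continuous_prod_of_discrete_left.2 fun k => ?_
      refine Continuous.mul ((continuous_of_discreteTopology (f := sg)).comp (continuous_apply 0)) ?_
      have := sh_cont
      simp only [g]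
      fun_prop)
    2 (fun p => by
      rw [Real.norm_eq_abs, abs_mul, sg_abs, one_mul,
        abs_of_pos (by linarith [g_ge p.1 (F (p.1 + 1, sh p.2))])]
      exact g_le _ _)

lemma T_con : ContractingWith (1 / 2) T := by
  refine ⟨by norm_num, LipschitzWith.of_dist_le_mul fun F G => ?_⟩
  refine (BoundedContinuousFunction.dist_le (by positivity)).2 fun p => ?_
  change dist (sg (p.2 0) * g p.1 (F (p.1 + 1, sh p.2))) (sg (p.2 0) * g p.1 (G (p.1 + 1, sh p.2))) ≤ _
  rw [Real.dist_eq, ← mul_sub, abs_mul, sg_abs, one_mul]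
  refine (g_lip _ _ _).trans ?_
  have := BoundedContinuousFunction.dist_coe_le_dist (f := F) (g := G) (p.1 + 1, sh p.2)
  rw [Real.dist_eq] at this
  push_cast
  linarith

theorem exists_nest : ∃ φ, Nest φ := by
  set F := T_con.fixedPoint T
  have hF : ∀ k e, F (k, e) = sg (e 0) * g k (F (k + 1, sh e)) := fun k e =>
    (DFunLike.congr_fun T_con.fixedPoint_isFixedPt.eq (k, e)).symm
  have hb : ∀ k e, |F (k, e)| ≤ 2 := fun k e => by
    rw [hF, abs_mul, sg_abs, one_mul, abs_of_pos (by linarith [g_ge k (F (k + 1, sh e))])]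
    exact g_le _ _
  have ht : ∀ k e, F (k, cons true e) = g k (F (k + 1, e)) := fun k e => by
    rw [hF]; simp [cons, sg, sh_cons]
  refine ⟨fun k e => F (k, e), fun k => by fun_prop, hb, fun k e => ?_, fun k e => ?_, fun k e => ?_⟩
  · rw [ht]; linarith [g_ge k (F (k + 1, e))]
  · rw [ht, hF]; simp [cons, sg, sh_cons]
  · rw [ht, g_sq, min_eq_right (abs_le.1 (hb _ _)).2, max_eq_right (abs_le.1 (hb _ _)).1]

variable {φ : ℕ → Om → ℝ} (s : Nest φ)
include s

lemma Nest.sq' (k : ℕ) (e : Om) : φ k e ^ 2 = 4 - 2 * l k + l k * φ (k + 1) (sh e) := by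
  conv_lhs => rw [← cons_sh e]
  cases e 0
  · rw [s.neg, neg_sq, s.sq]
  · rw [s.sq]

lemma Nest.ge (k : ℕ) (e : Om) : 1 ≤ φ k (cons true e) := by
  refine (pow_le_pow_iff_left₀ zero_le_one (s.nn k e) two_ne_zero).1 ?_
  rw [s.sq]
  nlinarith [l_pos k, l_le k, abs_le.1 (s.le (k + 1) e)]

lemma Nest.sign (k : ℕ) (e : Om) : (e 0 = true ∧ 1 ≤ φ k e) ∨ (e 0 = false ∧ φ k e ≤ -1) := by
  have h1 := s.ge k (sh e)
  have h2 := s.neg k (sh e)
  have h3 := cons_sh e
  cases h4 : e 0 <;> rw [h4] at h3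
  · right; rw [h3] at h2; exact ⟨rfl, by linarith⟩
  · left; rw [h3] at h1; exact ⟨rfl, h1⟩

lemma Nest.diam (k : ℕ) (x y : Om) : |φ k x - φ k y| ≤ 4 := by
  have := abs_sub (φ k x) (φ k y)
  linarith [s.le k x, s.le k y]

lemma Nest.same (k : ℕ) {x y : Om} (h : x 0 = y 0) :
    2 * |φ k x - φ k y| ≤ l k * |φ (k + 1) (sh x) - φ (k + 1) (sh y)| ∧
    l k * |φ (k + 1) (sh x) - φ (k + 1) (sh y)| ≤ 4 * |φ k x - φ k y| := by
  have e : (φ k x + φ k y) * (φ k x - φ k y) = l k * (φ (k + 1) (sh x) - φ (k + 1) (sh y)) := by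
    linear_combination s.sq' k x - s.sq' k y
  have h1 : |φ k x + φ k y| ≤ 4 := by linarith [abs_add_le (φ k x) (φ k y), s.le k x, s.le k y]
  have h2 : 2 ≤ |φ k x + φ k y| := by
    rcases s.sign k x with ⟨a, b⟩ | ⟨a, b⟩ <;> rcases s.sign k y with ⟨c, d⟩ | ⟨c, d⟩
    · exact le_trans (by linarith) (le_abs_self _)
    · simp [h, c] at a
    · simp [h, c] at a
    · exact le_trans (by linarith) (neg_le_abs _)
  rw [← abs_of_pos (l_pos k), ← abs_mul, ← e, abs_mul]
  constructor <;> gcongr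

lemma Nest.diff (k : ℕ) {x y : Om} (h : x 0 ≠ y 0) : 2 ≤ |φ k x - φ k y| := by
  rcases s.sign k x with ⟨a, b⟩ | ⟨a, b⟩ <;> rcases s.sign k y with ⟨c, d⟩ | ⟨c, d⟩
  · exact absurd (a.trans c.symm) h
  · exact le_trans (by linarith) (le_abs_self _)
  · exact le_trans (by linarith) (neg_le_abs _)
  · exact absurd (a.trans c.symm) h

lemma Nest.upper (n : ℕ) : ∀ k x y, (∀ i < n, x i = y i) →
    (1 / 2) ^ (S k + k) * |φ k x - φ k y| ≤ 4 * (1 / 2) ^ (S (k + n) + (k + n)) := by
  induction n with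
  | zero => 
    intro k x y _
    rw [mul_comm]
    exact mul_le_mul_of_nonneg_right (s.diam k x y) (by positivity)
  | succ n ih =>
    intro k x y h
    have h1 := ih (k + 1) (sh x) (sh y) fun i hi => h (i + 1) (by omega)
    have h2 := (s.same k (h 0 (by omega))).1
    rw [show k + 1 + n = k + (n + 1) by ring, S_succ,
      show S k + ex k + (k + 1) = S k + k + ex k + 1 by ring, pow_succ, pow_add] at h1
    refine le_trans ?_ h1
    rw [l] at h2
    have : (0 : ℝ) < (1 / 2) ^ (S k + k) := by positivity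
    nlinarith

lemma Nest.lower (n : ℕ) : ∀ k x y, (∃ i ≤ n, x i ≠ y i) →
    2 * (1 / 2) ^ (S (k + n) + 2 * (k + n)) ≤ (1 / 2) ^ (S k + 2 * k) * |φ k x - φ k y| := by
  have hS : Monotone S := monotone_nat_of_le_succ fun k => Nat.le_add_right _ _
  have base : ∀ n k x y, x 0 ≠ y 0 →
      2 * (1 / 2) ^ (S (k + n) + 2 * (k + n)) ≤ (1 / 2) ^ (S k + 2 * k) * |φ k x - φ k y| := by
    intro n k x y h
    rw [mul_comm]
    refine mul_le_mul (pow_le_pow_of_le_one (by norm_num) (by norm_num) ?_) (s.diff k h)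
      (by norm_num) (by positivity)
    have := hS (Nat.le_add_right k n)
    omega
  induction n with
  | zero => rintro k x y ⟨i, hi, h⟩; exact base 0 k x y (by rwa [Nat.le_zero.1 hi] at h)
  | succ n ih =>
    rintro k x y ⟨i, hi, h⟩
    by_cases h0 : x 0 = y 0
    · obtain ⟨i, rfl⟩ : ∃ j, i = j + 1 := Nat.exists_eq_succ_of_ne_zero fun e => h (e ▸ h0)
      have h1 := ih (k + 1) (sh x) (sh y) ⟨i, by omega, h⟩
      have h2 := (s.same k h0).2
      rw [show k + 1 + n = k + (n + 1) by ring, S_succ k,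
        show S k + ex k + 2 * (k + 1) = S k + 2 * k + ex k + 2 by ring, pow_add _ _ 2,
        pow_add _ _ (ex k)] at h1
      refine le_trans h1 ?_
      rw [l] at h2
      have : (0 : ℝ) < (1 / 2) ^ (S k + 2 * k) := by positivity
      nlinarith
    · exact base _ k x y h0

lemma Nest.inj : Function.Injective (φ 0) := by
  intro x y e
  funext i
  by_contra h
  have := s.lower i 0 x y ⟨i, le_rfl, h⟩
  rw [e, sub_self, abs_zero, mul_zero] at this
  have : (0 : ℝ) < 2 * (1 / 2) ^ (S (0 + i) + 2 * (0 + i)) := by positivity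
  linarith

lemma Nest.emb : MeasurableEmbedding (φ 0) := ((s.cont 0).isClosedEmbedding s.inj).measurableEmbedding

lemma Nest.sep (n : ℕ) (A : Set ℝ)
    (hA : ∀ a ∈ A, ∀ b ∈ A, |a - b| < 2 * (1 / 2) ^ (S n + 2 * n)) :
    (P H18Jac.fair).map (φ 0) A ≤ 2⁻¹ ^ (n + 1) := by
  rw [s.emb.map_apply]
  rcases (φ 0 ⁻¹' A).eq_empty_or_nonempty with h | ⟨e, he⟩
  · simp [h]
  have : φ 0 ⁻¹' A ⊆ Set.pi (Finset.range (n + 1) : Set ℕ) fun i => {e i} := by
    intro x hx i hi
    by_contra h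
    have := s.lower n 0 x e ⟨i, by simpa [Nat.lt_succ_iff] using hi, h⟩
    have h2 := hA _ hx _ he
    simp only [zero_add, S, mul_zero, pow_zero, one_mul] at this
    linarith
  refine (measure_mono this).trans ?_
  rw [P, Measure.infinitePi_pi _ fun _ _ => by measurability]
  simp [H18Jac.fair_eq]

theorem Nest.pot {D : ℝ} (hD : 4 ≤ D) :
    ∃ E : ℝ≥0∞, E ≠ ⊤ ∧ ∀ x, ∫⁻ y, H18Widom.k D (φ 0 x) (φ 0 y) ∂P H18Jac.fair = E := by
  obtain ⟨C, hC⟩ := exists_nat_ge (D + 3)
  have hD0 : 0 < D := by linarith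
  have lD : Real.log D ≤ D := (Real.log_le_sub_one_of_pos hD0).trans (by linarith)
  refine H18Jac.pot_gen H18Jac.fair_eq (fun k x y => H18Widom.k D (φ k x) (φ k y))
    (fun k => ENNReal.ofReal (Real.log (D / l k))) C
    (fun k x => (H18Widom.k_meas1 _ _).comp (s.cont k).measurable) (fun k x y => ?_) (fun k => ?_)
    fun k x y => ?_
  · have h1 := s.sq' k x
    have h2 := s.sq k y
    have h3 := s.neg k y
    have d1 := (s.diam k x (cons true y)).trans hD
    have d2 := (s.diam k x (cons false y)).trans hD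
    have d3 := (s.diam (k + 1) (sh x) y).trans hD
    have hl := l_pos k
    unfold H18Widom.k
    rw [h3] at d2 ⊢
    set a := φ k x
    set r := φ k (cons true y)
    set u := φ (k + 1) (sh x)
    set v := φ (k + 1) y
    have e : (a - r) * (a - -r) = l k * (u - v) := by linear_combination h1 - h2
    by_cases huv : u = v
    · rw [if_pos huv, add_top]
      rw [huv, sub_self, mul_zero, mul_eq_zero, sub_eq_zero, sub_eq_zero] at e
      rcases e with e | e
      · rw [if_pos e, top_add]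
      · rw [if_pos e, add_top]
    · have h6 : u - v ≠ 0 := sub_ne_zero.2 huv
      have h7 := mul_ne_zero hl.ne' h6
      rw [← e] at h7
      have h4 := left_ne_zero_of_mul h7
      have h5 := right_ne_zero_of_mul h7
      have l1 : ∀ {t : ℝ}, t ≠ 0 → |t| ≤ D → 0 ≤ Real.log (D / |t|) := fun ht hD =>
        Real.log_nonneg ((one_le_div (abs_pos.2 ht)).2 hD)
      have l2 : 0 ≤ Real.log (D / l k) :=
        Real.log_nonneg ((one_le_div hl).2 (by linarith [l_le k]))
      have e2 := congrArg (fun t => Real.log |t|) e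
      simp only [abs_mul, abs_of_pos hl] at e2
      rw [Real.log_mul (abs_ne_zero.2 h4) (abs_ne_zero.2 h5),
        Real.log_mul hl.ne' (abs_ne_zero.2 h6)] at e2
      rw [if_neg huv, if_neg (sub_ne_zero.1 h4), if_neg (sub_ne_zero.1 h5),
        ← ENNReal.ofReal_add (l1 h4 d1) (l1 h5 d2), ← ENNReal.ofReal_add l2 (l1 h6 d3),
        Real.log_div hD0.ne' (abs_ne_zero.2 h4), Real.log_div hD0.ne' (abs_ne_zero.2 h5),
        Real.log_div hD0.ne' (abs_ne_zero.2 h6), Real.log_div hD0.ne' hl.ne']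
      congr 1
      linarith
  · rw [← ENNReal.ofReal_natCast]
    refine ENNReal.ofReal_le_ofReal ?_
    have h1 : (ex k : ℝ) ≤ k + 3 := by exact_mod_cast (ex_bd k).2
    have h2 := Real.log_two_lt_d9
    have h3 := Real.log_pos one_lt_two
    rw [Real.log_div hD0.ne' (l_pos k).ne', l, Real.log_pow, one_div, Real.log_inv]
    push_cast
    nlinarith [(Nat.cast_nonneg k : (0 : ℝ) ≤ k)]
  · have l1 : ∀ a b : ℝ, 2 ≤ |a - b| → H18Widom.k D a b ≤ (C * (k + 1) : ℕ) := by
      intro a b hab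
      have h0 : 0 < |a - b| := by linarith
      rw [H18Widom.k, if_neg (sub_ne_zero.1 (abs_pos.1 h0)), ← ENNReal.ofReal_natCast]
      refine ENNReal.ofReal_le_ofReal ?_
      have h5 := Real.log_nonneg (show 1 ≤ |a - b| by linarith)
      rw [Real.log_div hD0.ne' h0.ne']
      push_cast
      nlinarith [(Nat.cast_nonneg k : (0 : ℝ) ≤ k)]
    cases h : x 0
    · exact Or.inl (l1 _ _ (s.diff k (by simp [h, cons])))
    · exact Or.inr (l1 _ _ (s.diff k (by simp [h, cons])))

end H18Hm
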