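import Mathlib

set_option autoImplicit false

open Matrix

namespace Pool.Agent.H18Inertia

variable {n : Type*} [Fintype n] [DecidableEq n]

theorem quad_eq {A : Matrix n n ℝ} (hA : A.IsHermitian) (y : n → ℝ) :
    y ⬝ᵥ (A *ᵥ y) = ∑ i, hA.eigenvalues i *
      ((star (hA.eigenvectorUnitary : Matrix n n ℝ) *ᵥ y) i) ^ 2 := by
  conv_lhs => rw [hA.spectral_theorem, Unitary.conjStarAlgAut_apply, ← mulVec_mulVec,
    ← mulVec_mulVec, dotProduct_mulVec]
  have e : y ᵥ* (hA.eigenvectorUnitary : Matrix n n ℝ) =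
      star (hA.eigenvectorUnitary : Matrix n n ℝ) *ᵥ y := by
    rw [star_eq_conjTranspose, conjTranspose_eq_transpose_of_trivial, mulVec_transpose]
  rw [e]
  simp only [dotProduct, mulVec_diagonal, Function.comp, RCLike.ofReal_real_eq_id, id]
  exact Finset.sum_congr rfl fun i _ => by ring

/-- A positive definite `k`-dimensional compression forces `k` positive eigenvalues. -/
theorem le_card_pos {A : Matrix n n ℝ} (hA : A.IsHermitian) {k : ℕ} (P : Matrix n (Fin k) ℝ)
    (h : ∀ x : Fin k → ℝ, x ≠ 0 → 0 < (P *ᵥ x) ⬝ᵥ (A *ᵥ (P *ᵥ x))) :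
    k ≤ (A.charpoly.roots.filter (0 < ·)).card := by
  have e : (A.charpoly.roots.filter (0 < ·)).card = Fintype.card {i // 0 < hA.eigenvalues i} := by
    rw [hA.roots_charpoly_eq_eigenvalues, Multiset.filter_map, Multiset.card_map,
      Fintype.card_subtype]
    rfl
  rw [e]
  by_contra hc
  let f : (Fin k → ℝ) →ₗ[ℝ] ({i // 0 < hA.eigenvalues i} → ℝ) :=
    (LinearMap.funLeft ℝ ℝ Subtype.val) ∘ₗ
      Matrix.toLin' (star (hA.eigenvectorUnitary : Matrix n n ℝ) * P)
  obtain ⟨x, hx, hx0⟩ := Submodule.exists_mem_ne_zero_of_ne_bot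
    (LinearMap.ker_ne_bot_of_finrank_lt (f := f) (by simpa using hc))
  have h1 := h x hx0
  rw [quad_eq hA] at h1
  refine absurd h1 (not_lt.2 (Finset.sum_nonpos fun i _ => ?_))
  by_cases hi : 0 < hA.eigenvalues i
  · have := congrFun (LinearMap.mem_ker.1 hx) ⟨i, hi⟩
    simp only [f, LinearMap.comp_apply, LinearMap.funLeft_apply, toLin'_apply, Pi.zero_apply,
      ← mulVec_mulVec] at this
    rw [this]; simp
  · exact mul_nonpos_of_nonpos_of_nonneg (not_lt.1 hi) (sq_nonneg _)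

end Pool.Agent.H18Inertia
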