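import Mathlib

open Finset MeasureTheory

namespace H18Iso

noncomputable def G (d j : ℕ) : ℝ := ∏ i ∈ range j, (4 * i + 2 * d) / (i + 1 : ℝ)

lemma G_succ (d j : ℕ) : (j + 1) * G d (j + 1) = (4 * j + 2 * d) * G d j := by
  rw [G, prod_range_succ, ← G]; field_simp

lemma G_conv (d j : ℕ) : ∑ p ∈ antidiagonal j, G d p.1 * G 1 p.2 = G (d + 1) j := by
  induction j with
  | zero => simp [G]
  | succ j ih =>
    refine mul_left_cancel₀ (show (j + 1 : ℝ) ≠ 0 by positivity) ?_
    have e : ∀ p ∈ antidiagonal (j + 1), (j + 1 : ℝ) * (G d p.1 * G 1 p.2) =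
        p.1 * G d p.1 * G 1 p.2 + G d p.1 * (p.2 * G 1 p.2) := fun p hp => by
      have : (j + 1 : ℝ) = p.1 + p.2 := by exact_mod_cast (mem_antidiagonal.1 hp).symm
      rw [this]; ring
    rw [G_succ, ← ih, mul_sum, mul_sum, sum_congr rfl e, sum_add_distrib,
      Nat.sum_antidiagonal_succ, Nat.sum_antidiagonal_succ']
    simp only [Nat.cast_zero, zero_mul, mul_zero, zero_add, Nat.cast_succ, G_succ,
      ← sum_add_distrib]
    refine sum_congr rfl fun p hp => ?_
    have : (j : ℝ) = p.1 + p.2 := by exact_mod_cast (mem_antidiagonal.1 hp).symm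
    rw [this]; ring

lemma G_one (j : ℕ) : G 1 j = (j + j).choose j := by
  induction j with
  | zero => simp [G]
  | succ j ih =>
    refine mul_left_cancel₀ (show (j + 1 : ℝ) ≠ 0 by positivity) ?_
    have := Nat.succ_mul_centralBinom_succ j
    rw [Nat.centralBinom, Nat.centralBinom, two_mul, two_mul j] at this
    rw [G_succ, ih]
    have h := congrArg (Nat.cast (R := ℝ)) this
    push_cast at h ⊢
    linarith

variable {X : Type*} [TopologicalSpace X] [MeasurableSpace X] (μ : Measure X) [SFinite μ]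
  (v : ℕ → X → ℝ)

noncomputable def Q (d k : ℕ) (f : X → ℝ) : ℝ :=
  ∫ z : X × X, f z.1 * f z.2 * (∑ i ∈ range d, v i z.1 * v i z.2) ^ k ∂μ.prod μ

variable {μ v} (h1 : ∀ g : X → ℝ, Continuous g → Integrable g μ)
  (h2 : ∀ g : X × X → ℝ, Continuous g → Integrable g (μ.prod μ)) (hv : ∀ i, Continuous (v i))
include h2 hv

lemma Q_succ (d k : ℕ) {f : X → ℝ} (hf : Continuous f) : Q μ v (d + 1) k f =
    ∑ p ∈ antidiagonal k, k.choose p.1 * Q μ v d p.1 fun x => f x * v d x ^ p.2 := by
  simp only [Q, ← integral_const_mul]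
  rw [← integral_finsetSum _ fun p _ => h2 _ (by fun_prop)]
  congr 1
  ext z
  rw [sum_range_succ, (Commute.all _ _).add_pow', mul_sum]
  exact sum_congr rfl fun p _ => by rw [nsmul_eq_mul]; ring

lemma Q_nn (d : ℕ) : ∀ (k : ℕ) (f : X → ℝ), Continuous f → 0 ≤ Q μ v d k f := by
  induction d with
  | zero =>
    intro k f _
    simp only [Q, range_zero, sum_empty, integral_mul_const, integral_prod_mul]
    exact mul_nonneg (mul_self_nonneg _) (by positivity)
  | succ d ih =>
    intro k f hf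
    rw [Q_succ h2 hv d k hf]
    exact sum_nonneg fun p _ => mul_nonneg (by positivity) (ih _ _ (by fun_prop))

lemma Q_mono (d k : ℕ) {f : X → ℝ} (hf : Continuous f) : Q μ v d k f ≤ Q μ v (d + 1) k f := by
  rw [Q_succ h2 hv d k hf]
  refine le_trans (by simp) (single_le_sum (fun p _ => mul_nonneg (by positivity)
    (Q_nn h2 hv d _ _ (by fun_prop))) (show (k, 0) ∈ _ by simp))

include h1

lemma Q_ge (d : ℕ) : ∀ (j : ℕ) (f : X → ℝ) (l : ℝ), Continuous f →
    2 * l * ∫ x, f x * (∑ i ∈ range d, v i x ^ 2) ^ j ∂μ - l ^ 2 * (G d j / G 1 j) ≤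
      Q μ v d (j + j) f := by
  induction d with
  | zero =>
    intro j f l _
    simp only [Q, range_zero, sum_empty, integral_mul_const, integral_prod_mul]
    rcases j with _ | j
    · simp only [G, range_zero, prod_empty]; nlinarith [sq_nonneg (∫ x, f x ∂μ - l)]
    · simp [G, prod_range_succ']
  | succ d ih =>
    intro j f l hf
    rw [Q_succ h2 hv d _ hf]
    refine le_trans ?_ (sum_le_sum_of_subset_of_nonneg (s := (antidiagonal j).map
      ⟨fun p : ℕ × ℕ => (p.1 + p.1, p.2 + p.2), fun p q h => by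
        simp only [Prod.mk.injEq] at h; ext <;> omega⟩) (fun p hp => by
        obtain ⟨q, hq, rfl⟩ := mem_map.1 hp
        simp at hq ⊢; omega)
      fun p _ _ => mul_nonneg (by positivity) (Q_nn h2 hv d _ _ (by fun_prop)))
    have e : ∫ x, f x * (∑ i ∈ range (d + 1), v i x ^ 2) ^ j ∂μ = ∑ p ∈ antidiagonal j,
        j.choose p.1 * ∫ x, f x * v d x ^ (p.2 + p.2) * (∑ i ∈ range d, v i x ^ 2) ^ p.1 ∂μ := by
      simp only [← integral_const_mul]
      rw [← integral_finsetSum _ fun p _ => h1 _ (by fun_prop)]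
      congr 1
      ext z
      rw [sum_range_succ, (Commute.all _ _).add_pow', mul_sum]
      exact sum_congr rfl fun p _ => by rw [nsmul_eq_mul]; ring
    rw [sum_map, e, ← G_conv, sum_div, mul_sum, mul_sum, ← sum_sub_distrib]
    refine sum_le_sum fun p hp => ?_
    obtain ⟨a, b⟩ := p
    obtain rfl : a + b = j := mem_antidiagonal.1 hp
    have c0 : (0 : ℝ) < (a + b + (a + b)).choose (a + a) := by
      exact_mod_cast Nat.choose_pos (by omega)
    refine le_trans (le_of_eq ?_) (mul_le_mul_of_nonneg_left (ih a (fun x => f x * v d x ^ (b + b))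
      (l * (a + b).choose a / (a + b + (a + b)).choose (a + a)) (by fun_prop)) c0.le)
    simp only [G_one, Function.Embedding.coeFn_mk]
    rw [show a + b + (a + b) = a + a + (b + b) from by ring] at c0 ⊢
    have e2 : ((a + a + (b + b)).choose (a + b) : ℝ) = (a + a + (b + b)).factorial /
        ((a + b).factorial * (a + b).factorial) := by
      rw [← show a + b + (a + b) = a + a + (b + b) from by ring, Nat.cast_add_choose]
    rw [e2]
    simp only [Nat.cast_add_choose]
    field_simp

omit h1 h2 hv in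
lemma log_ge (J : ℕ) {t : ℝ} (ht : t < 1) :
    ∑ k ∈ range (2 * J + 1), t ^ (k + 1) / (k + 1) ≤ -Real.log (1 - t) := by
  have hs : ∀ s ∈ Set.Icc (0 : ℝ) 1, 0 < 1 - s * t := fun s hs => by
    rcases le_total t 0 with h | h <;> nlinarith [hs.1, hs.2]
  have hd : ∀ s ∈ Set.Icc (0 : ℝ) 1, HasDerivAt (fun s => -Real.log (1 - s * t) -
      ∑ k ∈ range (2 * J + 1), (s * t) ^ (k + 1) / (k + 1))
      (s ^ (2 * J + 1) * (t ^ (J + 1)) ^ 2 / (1 - s * t)) s := fun s h => by
    have := (((hasDerivAt_mul_const (x := s) t).const_sub 1).log (hs s h).ne').neg.sub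
      (HasDerivAt.fun_sum (u := range (2 * J + 1)) fun k _ =>
        ((hasDerivAt_mul_const (x := s) t).fun_pow (k + 1)).div_const (k + 1 : ℝ))
    refine this.congr_deriv (Eq.symm ?_)
    have e : ∑ k ∈ range (2 * J + 1), ((k + 1 : ℕ) : ℝ) * (s * t) ^ (k + 1 - 1) * t / (k + 1) =
        (∑ k ∈ range (2 * J + 1), (s * t) ^ k) * t := by
      rw [sum_mul]
      exact sum_congr rfl fun k _ => by push_cast; field_simp
    rw [e, geom_sum_eq (by linarith [hs s h])]
    have := (hs s h).ne'
    have : s * t - 1 ≠ 0 := by linarith [hs s h] |> fun (h : s * t - 1 < 0) => h.ne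
    field_simp
    ring
  obtain ⟨s, h, e⟩ := exists_hasDerivAt_eq_slope _ _ zero_lt_one
    (fun s h => (hd s h).continuousAt.continuousWithinAt) fun s h => hd s ⟨h.1.le, h.2.le⟩
  have := hs s ⟨h.1.le, h.2.le⟩
  have h0 := h.1
  have : 0 ≤ s ^ (2 * J + 1) * (t ^ (J + 1)) ^ 2 / (1 - s * t) := by positivity
  rw [e] at this
  simpa using this

end H18Iso
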