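import Pool.Agent.Lib.helper18.Iso1

open Finset MeasureTheory Real

namespace H18Iso

open Classical in
noncomputable def k {X : Type*} [NormedAddCommGroup X] (x y : X) : ENNReal :=
  if x = y then ⊤ else ENNReal.ofReal (Real.log (2 / ‖x - y‖))

lemma int_of {X : Type*} [TopologicalSpace X] [T2Space X] [MeasurableSpace X] [BorelSpace X]
    {K : Set X} (hK : IsCompact K) {ν : Measure X} [IsFiniteMeasure ν] (h : ∀ᵐ x ∂ν, x ∈ K)
    (g : X → ℝ) (hg : Continuous g) : Integrable g ν := by
  rw [← Measure.restrict_eq_self_of_ae_mem h]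
  exact hg.continuousOn.integrableOn_compact hK

variable {n : ℕ}

noncomputable def c (x : EuclideanSpace ℝ (Fin n)) : ℝ := (1 - ‖x‖ ^ 2) / (1 + ‖x‖ ^ 2)

noncomputable def v (i : ℕ) (x : EuclideanSpace ℝ (Fin n)) : ℝ :=
  if h : i < n then 2 * x ⟨i, h⟩ / (1 + ‖x‖ ^ 2) else c x

lemma c_cont : Continuous (c (n := n)) := by
  unfold c; fun_prop (disch := intro _; positivity)

lemma v_cont (i : ℕ) : Continuous (v (n := n) i) := by
  unfold v
  split_ifs
  · fun_prop (disch := intro _; positivity)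
  · exact c_cont

lemma v_sum (x y : EuclideanSpace ℝ (Fin n)) : ∑ i ∈ range n, v i x * v i y =
    2 * (‖x‖ ^ 2 + ‖y‖ ^ 2 - ‖x - y‖ ^ 2) / ((1 + ‖x‖ ^ 2) * (1 + ‖y‖ ^ 2)) := by
  rw [eq_div_iff (by positivity), sum_range, sum_mul]
  nth_rewrite 2 [EuclideanSpace.real_norm_sq_eq x, EuclideanSpace.real_norm_sq_eq y]
  rw [EuclideanSpace.real_norm_sq_eq (x - y), ← sum_add_distrib, ← sum_sub_distrib, mul_sum]
  refine sum_congr rfl fun i _ => ?_
  simp only [v, i.2, dif_pos, PiLp.sub_apply, Fin.eta]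
  field_simp
  ring

theorem ball (hn : n ≠ 0) (J : ℕ)
    (hJ : ∑ j ∈ range J, G 1 (j + 1) / G n (j + 1) / (2 * j + 2) * ((j + 5) / 4) ≤ 2 / 3)
    (μ : Measure (EuclideanSpace ℝ (Fin n))) [IsProbabilityMeasure μ]
    (hμ : ∀ᵐ x ∂μ, x ∈ Metric.closedBall 0 1) :
    ENNReal.ofReal ((Real.log 2 + ∑ j ∈ range J, G 1 (j + 1) / G n (j + 1) / (2 * j + 2)) / 2) ≤
      ∫⁻ x, ∫⁻ y, k x y ∂μ ∂μ := by
  have h1 := int_of (isCompact_closedBall _ _) hμ
  have h2 := int_of (ν := μ.prod μ) ((isCompact_closedBall 0 1).prod (isCompact_closedBall 0 1))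
    ((Measure.quasiMeasurePreserving_fst.ae hμ).and (Measure.quasiMeasurePreserving_snd.ae hμ))
  have hv := v_cont (n := n)
  have c1 : ∀ x : EuclideanSpace ℝ (Fin n), 1 + c x = 2 / (1 + ‖x‖ ^ 2) := fun x => by
    rw [c]; field_simp; ring
  have c2 : Continuous fun x : EuclideanSpace ℝ (Fin n) => Real.log (1 + c x) :=
    Continuous.log (f := fun x => 1 + c x) (continuous_const.add c_cont) fun x => by
      rw [c1]; positivity
  obtain ⟨L, hL⟩ : ∃ L : EuclideanSpace ℝ (Fin n) → ℝ, L = fun x => Real.log (1 + c x) := ⟨_, rfl⟩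
  rw [← hL] at c2
  have gp : ∀ d j, d ≠ 0 → 0 < G d j := fun d j hd => prod_pos fun i _ => by positivity
  let F : EuclideanSpace ℝ (Fin n) × EuclideanSpace ℝ (Fin n) → ℝ := fun z =>
    (Real.log 2 + (L z.1 + L z.2) + ∑ k ∈ range (2 * J + 1),
      1 * 1 * (∑ i ∈ range (n + 1), v i z.1 * v i z.2) ^ (k + 1) / (k + 1)) / 2
  have hF : Continuous F := by fun_prop
  refine le_trans (ENNReal.ofReal_le_ofReal (show _ ≤ ∫ z, F z ∂μ.prod μ from ?_)) ?_
  · rw [integral_div, integral_add (h2 _ (by fun_prop)) (h2 _ (by fun_prop)),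
      integral_add (h2 _ (by fun_prop)) (h2 _ (by fun_prop)),
      integral_add (h2 _ (by fun_prop)) (h2 _ (by fun_prop)),
      integral_finsetSum _ fun k _ => h2 _ (by fun_prop), integral_const,
      integral_fun_fst L, integral_fun_snd L]
    simp only [integral_div, probReal_univ, one_smul]
    have a1 : ∑ j ∈ range J, G 1 (j + 1) / G n (j + 1) / (2 * j + 2) *
        (2 * ∫ x, (1 - c x ^ 2) ^ (j + 1) ∂μ - 1) ≤
        ∑ k ∈ range (2 * J + 1), Q μ v (n + 1) (k + 1) (fun _ => 1) / (k + 1) := by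
      refine le_trans ?_ (sum_le_sum_of_subset_of_nonneg (s := (range J).map
        ⟨fun j => 2 * j + 1, fun p q h => by simpa using h⟩) (fun p hp => by
          obtain ⟨q, hq, rfl⟩ := mem_map.1 hp
          simp at hq ⊢; omega) fun p _ _ => div_nonneg (Q_nn h2 hv _ _ _ continuous_const)
          (by positivity))
      rw [sum_map]
      refine sum_le_sum fun j _ => ?_
      have := (Q_ge h1 h2 hv n (j + 1) _ (G 1 (j + 1) / G n (j + 1)) (continuous_const (y := 1))).trans
        (Q_mono h2 hv n _ continuous_const)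
      have e : ∀ x : EuclideanSpace ℝ (Fin n), ∑ i ∈ range n, v i x ^ 2 = 1 - c x ^ 2 := fun x => by
        simp only [sq (v _ _), v_sum, c, sub_self, norm_zero]; field_simp; ring
      simp only [e, one_mul] at this
      simp only [Function.Embedding.coeFn_mk]
      rw [show 2 * j + 1 + 1 = j + 1 + (j + 1) by ring, le_div_iff₀ (by positivity)]
      refine le_trans (le_of_eq ?_) this
      have := gp 1 (j + 1) one_ne_zero
      have := gp n (j + 1) hn
      push_cast
      field_simp
      ring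
    have cc := c_cont (n := n)
    have a2 : ∑ j ∈ range J, G 1 (j + 1) / G n (j + 1) / (2 * j + 2) *
        (1 - ∫ x, (1 - c x ^ 2) ^ (j + 1) ∂μ) ≤ ∫ x, L x ∂μ := by
      have e : ∀ j, 1 - ∫ x, (1 - c x ^ 2) ^ (j + 1) ∂μ = ∫ x, (1 - (1 - c x ^ 2) ^ (j + 1)) ∂μ :=
        fun j => by rw [integral_sub (integrable_const _) (h1 _ (by fun_prop))]; simp
      simp only [e, ← integral_const_mul]
      rw [← integral_finsetSum _ fun k _ => h1 _ (by fun_prop)]
      refine integral_mono_ae (h1 _ (by fun_prop)) (h1 _ c2) (hμ.mono fun x hx => ?_)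
      have x1 : ‖x‖ ^ 2 ≤ 1 := pow_le_one₀ (norm_nonneg _) (by simpa using hx)
      have b0 : 0 ≤ c x := div_nonneg (by linarith) (by positivity)
      have b1 : c x ≤ 1 := (div_le_one (by positivity)).2 (by nlinarith [sq_nonneg ‖x‖])
      rw [hL]
      beta_reduce
      generalize c x = t at b0 b1
      refine le_trans ?_ (le_trans (show 2 / 3 * t ≤ 2 * t / (t + 2) by
        rw [le_div_iff₀ (by positivity)]; nlinarith) (Real.le_log_one_add_of_nonneg b0))
      refine le_trans ?_ (mul_le_mul_of_nonneg_right hJ b0)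
      rw [sum_mul]
      refine sum_le_sum fun j _ => ?_
      rw [mul_assoc]
      refine mul_le_mul_of_nonneg_left ?_ (by
        have := gp 1 (j + 1) one_ne_zero
        have := gp n (j + 1) hn
        positivity)
      have t1 : t ^ 2 ≤ 1 := pow_le_one₀ b0 b1
      have d1 := one_add_mul_le_pow (a := -t ^ 2) (by linarith) (j + 1)
      have d2 : 0 ≤ (1 - t ^ 2) ^ (j + 1) := pow_nonneg (by linarith) _
      have d3 : (1 - t ^ 2) ^ (j + 1) ≤ 1 := pow_le_one₀ (by linarith) (by nlinarith)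
      rw [← sub_eq_add_neg] at d1
      push_cast at d1
      refine abs_le_of_sq_le_sq' ?_ (by positivity) |>.2
      nlinarith [mul_nonneg (sq_nonneg ((j : ℝ) - 3)) (sq_nonneg t)]
    simp only [mul_sub, sum_sub_distrib, mul_one, mul_left_comm _ (2 : ℝ), ← mul_sum] at a1 a2
    simp only [Q] at a1
    linarith
  rw [integral_eq_lintegral_pos_part_sub_lintegral_neg_part (h2 _ hF)]
  refine (ENNReal.ofReal_le_ofReal (sub_le_self _ ENNReal.toReal_nonneg)).trans
    (ENNReal.ofReal_toReal_le.trans ?_)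
  rw [lintegral_prod _ hF.measurable.ennreal_ofReal.aemeasurable]
  refine lintegral_mono fun x => lintegral_mono fun y => ?_
  simp only [k]
  split_ifs with h
  · exact le_top
  refine ENNReal.ofReal_le_ofReal ?_
  have d0 : 0 < ‖x - y‖ := norm_pos_iff.2 (sub_ne_zero.2 h)
  have e : 1 - ∑ i ∈ range (n + 1), v i x * v i y =
      2 / ((2 / ‖x - y‖) ^ 2 / ((1 + c x) * (1 + c y))) := by
    rw [sum_range_succ, v_sum, c1, c1]
    simp only [v, lt_irrefl, dif_neg, not_false_eq_true, c]
    field_simp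
    ring
  have p1 : 0 < 1 + c x := by rw [c1]; positivity
  have p2 : 0 < 1 + c y := by rw [c1]; positivity
  have := log_ge J (t := ∑ i ∈ range (n + 1), v i x * v i y) (by
    rw [← sub_pos, e]; positivity)
  rw [e, Real.log_div two_ne_zero (by positivity), Real.log_div (by positivity) (by positivity),
    Real.log_mul p1.ne' p2.ne', Real.log_pow] at this
  simp only [F, one_mul, hL]
  push_cast at this
  linarith

end H18Iso
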