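import Pool.Agent.Lib.helper18.Iso2

open Finset MeasureTheory Real

namespace H18Iso

variable {X : Type*} [NormedAddCommGroup X]

lemma ring1 {x : X} {c : ℝ → X} {θ H p a : ℝ} (p0 : 0 < p) (a0 : 0 < a)
    (hc : ∀ φ, ‖x - c φ‖ ^ 2 = H - 2 * p * cos (θ - φ)) (h4 : H + 2 * p ≤ 4)
    (ha : a ^ 2 + (p / a) ^ 2 ≤ H) :
    ∫⁻ φ in Set.Ioc 0 (2 * π), k x (c φ) ≤ ENNReal.ofReal (2 * π * Real.log (2 / a)) := by
  have b0 : 0 < p / a := by positivity
  have h1 : ∀ φ, ‖circleMap 0 (p / a) φ - circleMap 0 a θ‖ ≤ ‖x - c φ‖ := fun φ => by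
    refine abs_le_of_sq_le_sq' ?_ (norm_nonneg _) |>.2
    rw [hc, Complex.sq_norm, Complex.normSq_apply, cos_sub]
    simp only [circleMap, zero_add, Complex.sub_re, Complex.sub_im, Complex.re_ofReal_mul,
      Complex.im_ofReal_mul, Complex.exp_ofReal_mul_I_re, Complex.exp_ofReal_mul_I_im]
    have e : p = p / a * a := by field_simp
    generalize p / a = b at *
    subst e
    nlinarith [sin_sq_add_cos_sq θ, sin_sq_add_cos_sq φ]
  have h2 : ∀ φ, ‖x - c φ‖ ≤ 2 := fun φ => by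
    refine abs_le_of_sq_le_sq' ?_ zero_le_two |>.2
    nlinarith [hc φ, neg_one_le_cos (θ - φ)]
  have i1 : IntervalIntegrable (fun φ => Real.log ‖circleMap 0 (p / a) φ - circleMap 0 a θ‖)
      volume 0 (2 * π) := circleIntegrable_log_norm_sub_const (a := circleMap 0 a θ) (c := 0) (p / a)
  have i2 := (intervalIntegrable_const (c := Real.log 2)).sub i1
  refine (lintegral_mono_ae (g := fun φ => ENNReal.ofReal (Real.log 2 -
    Real.log ‖circleMap 0 (p / a) φ - circleMap 0 a θ‖)) ?_).trans ?_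
  · filter_upwards [ae_restrict_of_ae (((Set.countable_singleton (circleMap 0 a θ)).preimage_circleMap
      0 b0.ne').ae_notMem volume)] with φ h
    have h3 : 0 < ‖circleMap 0 (p / a) φ - circleMap 0 a θ‖ := norm_pos_iff.2 (sub_ne_zero.2 h)
    have h4 := h3.trans_le (h1 φ)
    rw [k, if_neg (sub_ne_zero.1 (norm_pos_iff.1 h4)), Real.log_div two_ne_zero h4.ne']
    exact ENNReal.ofReal_le_ofReal (sub_le_sub_left (Real.log_le_log h3 (h1 φ)) _)
  rw [← ofReal_integral_eq_lintegral_ofReal i2.1 (Filter.Eventually.of_forall fun φ => by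
      refine sub_nonneg.2 ?_
      rcases (norm_nonneg (circleMap 0 (p / a) φ - circleMap 0 a θ)).eq_or_lt with h | h
      · rw [← h, Real.log_zero]; positivity
      · exact Real.log_le_log h ((h1 φ).trans (h2 φ))),
    ← intervalIntegral.integral_of_le two_pi_pos.le,
    intervalIntegral.integral_sub intervalIntegrable_const i1]
  refine ENNReal.ofReal_le_ofReal ?_
  have e := circleAverage_log_norm_sub_const_eq_log_radius_add_posLog (a := circleMap 0 a θ)
    (c := 0) b0.ne'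
  rw [Real.circleAverage_def, smul_eq_mul, inv_mul_eq_iff_eq_mul₀ two_pi_pos.ne'] at e
  rw [e, intervalIntegral.integral_const, sub_zero, smul_eq_mul, ← mul_sub,
    Real.log_div two_ne_zero a0.ne']
  gcongr
  rw [zero_sub, norm_neg, norm_circleMap_zero, abs_of_pos a0]
  have : Real.log ((p / a)⁻¹ * a) ≤ Real.posLog ((p / a)⁻¹ * a) := le_max_right 0 _
  generalize Real.posLog ((p / a)⁻¹ * a) = t at this ⊢
  rw [Real.log_mul (by positivity) a0.ne', Real.log_inv] at this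
  exact sub_le_iff_le_add'.1 (by rwa [neg_add_eq_sub] at this)

theorem rings [MeasurableSpace X] [BorelSpace X] {ι : Type} [Fintype ι] (c : ι → ℝ → X)
    (hc : ∀ i, Continuous (c i)) (r w : ι → ℝ) (H a l : ι → ι → ℝ) (r0 : ∀ i, 0 < r i)
    (w0 : ∀ i, 0 ≤ w i) (w1 : ∑ i, w i = 1)
    (h : ∀ i j θ φ, ‖c i θ - c j φ‖ ^ 2 = H i j - 2 * (r i * r j) * cos (θ - φ))
    (h4 : ∀ i j, H i j + 2 * (r i * r j) ≤ 4) (a0 : ∀ i j, 0 < a i j)
    (ha : ∀ i j, a i j ^ 2 + (r i * r j / a i j) ^ 2 ≤ H i j)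
    (hl : ∀ i j, Real.log (2 / a i j) ≤ l i j) :
    ∃ K : Set X, IsCompact K ∧ (∀ x ∈ K, ∀ y ∈ K, dist x y ≤ 2) ∧
      (∀ i, c i 0 ∈ K ∧ c i π ∈ K) ∧ ∃ μ : Measure X, IsProbabilityMeasure μ ∧ μ Kᶜ = 0 ∧
      ∫⁻ x, ∫⁻ y, k x y ∂μ ∂μ ≤ ENNReal.ofReal (∑ i, ∑ j, w i * w j * l i j) := by
  have hK : IsCompact (⋃ i, c i '' Set.Icc 0 (2 * π)) :=
    isCompact_iUnion fun i => isCompact_Icc.image (hc i)
  have l0 : ∀ i j, 0 ≤ l i j := fun i j => by
    refine le_trans (Real.log_nonneg ((one_le_div (a0 i j)).2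
      (abs_le_of_sq_le_sq' ?_ zero_le_two).2)) (hl i j)
    linarith [ha i j, h4 i j, mul_pos (r0 i) (r0 j), sq_nonneg (r i * r j / a i j)]
  have e : ∀ i (t : ℝ), ENNReal.ofReal (w i / (2 * π)) * ENNReal.ofReal (2 * π * t) =
      ENNReal.ofReal (w i * t) := fun i t => by
    rw [← ENNReal.ofReal_mul (div_nonneg (w0 i) two_pi_pos.le)]
    congr 1; field_simp
  refine ⟨_, hK, ?_, fun i => ⟨Set.mem_iUnion.2 ⟨i, 0, ⟨le_rfl, two_pi_pos.le⟩, rfl⟩,
    Set.mem_iUnion.2 ⟨i, π, ⟨pi_pos.le, by linarith [pi_pos]⟩, rfl⟩⟩,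
    ∑ i, ENNReal.ofReal (w i / (2 * π)) • (volume.restrict (Set.Ioc 0 (2 * π))).map (c i),
    ⟨?_⟩, ?_, ?_⟩
  · simp only [Set.mem_iUnion]
    rintro _ ⟨i, θ, -, rfl⟩ _ ⟨j, φ, -, rfl⟩
    rw [dist_eq_norm]
    refine abs_le_of_sq_le_sq' ?_ zero_le_two |>.2
    nlinarith [h i j θ φ, neg_one_le_cos (θ - φ), h4 i j, mul_pos (r0 i) (r0 j)]
  · simp only [Measure.coe_finsetSum, Finset.sum_apply, Measure.smul_apply, smul_eq_mul,
      Measure.map_apply (hc _).measurable MeasurableSet.univ, Set.preimage_univ,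
      Measure.restrict_apply_univ, Real.volume_Ioc, sub_zero]
    have := fun i => e i 1
    simp only [mul_one] at this
    simp only [this]
    rw [← ENNReal.ofReal_sum_of_nonneg fun i _ => w0 i, w1, ENNReal.ofReal_one]
  · simp only [Measure.coe_finsetSum, Finset.sum_apply, Measure.smul_apply, smul_eq_mul]
    refine sum_eq_zero fun i _ => mul_eq_zero_of_right _ ?_
    rw [Measure.map_apply (hc _).measurable hK.measurableSet.compl,
      Measure.restrict_apply' measurableSet_Ioc]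
    refine measure_mono_null (t := ∅) (fun θ hθ => hθ.1 (Set.mem_iUnion.2
      ⟨i, θ, Set.Ioc_subset_Icc_self hθ.2, rfl⟩)) measure_empty
  · simp only [lintegral_finsetSum_measure, lintegral_smul_measure, smul_eq_mul]
    rw [ENNReal.ofReal_sum_of_nonneg fun i _ => sum_nonneg fun j _ =>
      mul_nonneg (mul_nonneg (w0 i) (w0 j)) (l0 i j)]
    refine sum_le_sum fun i _ => ?_
    simp only [mul_assoc, ← mul_sum]
    rw [← e]
    refine mul_le_mul_right ((lintegral_map_le _ _).trans ?_) _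
    refine le_of_le_of_eq (lintegral_mono (g := fun _ : ℝ =>
      ENNReal.ofReal (∑ j, w j * l i j)) fun θ => ?_) ?_
    · beta_reduce
      rw [ENNReal.ofReal_sum_of_nonneg fun j _ => mul_nonneg (w0 j) (l0 i j)]
      refine sum_le_sum fun j _ => ?_
      rw [← e]
      exact mul_le_mul_right ((lintegral_map_le _ _).trans ((ring1 (mul_pos (r0 i) (r0 j)) (a0 i j)
        (h i j θ) (h4 i j) (ha i j)).trans (ENNReal.ofReal_le_ofReal
          (mul_le_mul_of_nonneg_left (hl i j) two_pi_pos.le)))) _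
    · rw [lintegral_const, Measure.restrict_apply_univ, Real.volume_Ioc, sub_zero, mul_comm,
        ENNReal.ofReal_mul two_pi_pos.le]

def kk (a : ℚ) : ℕ := Nat.log2 (2 * a.den / a.num.toNat)

def zz (a : ℚ) : ℚ := (2 - 2 ^ kk a * a) / (2 + 2 ^ kk a * a)

def ub (a : ℚ) : ℚ := kk a * (6931471808 / 10 ^ 10) +
  2 * (∑ i ∈ range 5, zz a ^ (2 * i + 1) / (2 * i + 1) + zz a ^ (2 * 5 + 1) / (1 - zz a ^ 2))

lemma log_le_ub {a : ℚ} (a0 : 0 < a) (h : 2 ^ kk a * a ≤ 2) : Real.log (2 / a) ≤ ub a := by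
  have a1 : (0 : ℝ) < a := by exact_mod_cast a0
  have h1 : (2 : ℝ) ^ kk a * a ≤ 2 := by exact_mod_cast h
  have z : (zz a : ℝ) = (2 - 2 ^ kk a * a) / (2 + 2 ^ kk a * a) := by simp [zz]
  have p : (0 : ℝ) < 2 ^ kk a * a := by positivity
  have := Real.log_div_le_sum_range_add (x := zz a) (by rw [z]; exact div_nonneg (by linarith) (by positivity))
    (by rw [z, div_lt_one (by positivity)]; linarith) 5
  have e : (2 : ℝ) / a = 2 ^ kk a * ((1 + zz a) / (1 - zz a)) := by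
    rw [z]; field_simp; ring
  have e2 : ((1 : ℝ) + zz a) / (1 - zz a) ≠ 0 := fun h0 => by
    rw [h0, mul_zero] at e; exact (div_pos two_pos a1).ne' e
  rw [e, Real.log_mul (by positivity) e2, Real.log_pow, ub]
  have := mul_le_mul_of_nonneg_left Real.log_two_lt_d9.le (kk a).cast_nonneg
  push_cast at *
  norm_num at *
  linarith

end H18Iso
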