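import Mathlib

namespace H18Jac

noncomputable def R (l : ℕ → ℝ) (k : ℕ) : ℕ → ℝ
  | 0 => 0
  | n + 1 => if n % 2 = 0 then 4 - 2 * l k - R l k n
      else l k ^ 2 * R l (k + 1) ((n + 1) / 2) / R l k n
termination_by n => n
decreasing_by all_goals omega

noncomputable def ρ (l : ℕ → ℝ) (k : ℕ) : ℕ → ℝ → ℝ
  | 0, x => x
  | n + 1, x => x - R l k (n + 1) / ρ l k n x

noncomputable def E (l : ℕ → ℝ) (k : ℕ) : ℝ := 4 / l k - 2

noncomputable def f (l : ℕ → ℝ) (k : ℕ) (x : ℝ) : ℝ := (x ^ 2 - 4) / l k + 2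

variable {l : ℕ → ℝ}

lemma R_zero (k : ℕ) : R l k 0 = 0 := by rw [R]

lemma R_odd (k m : ℕ) : R l k (2 * m + 1) = 4 - 2 * l k - R l k (2 * m) := by
  rw [R, if_pos (by omega)]

lemma R_even (k m : ℕ) :
    R l k (2 * m + 2) = l k ^ 2 * R l (k + 1) (m + 1) / R l k (2 * m + 1) := by
  rw [R, if_neg (by omega), show (2 * m + 1 + 1) / 2 = m + 1 by omega]

def Ok (l : ℕ → ℝ) : Prop := ∀ k, 1 / 2 ≤ l k ∧ l k < 1

variable (h : Ok l)
include h

lemma Ok.pos (k : ℕ) : 0 < l k := by linarith [(h k).1]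

lemma Ok.E_ge (k : ℕ) : 2 ≤ E l k := by
  have := h.pos k
  rw [E, le_sub_iff_add_le, le_div_iff₀ this]
  linarith [(h k).2]

lemma Ok.f_ge (k : ℕ) {x : ℝ} (hx : 2 ≤ x) : x ≤ f l k x := by
  have := h.pos k
  rw [f, ← sub_le_iff_le_add, le_div_iff₀ this]
  nlinarith [(h k).2]

lemma Ok.R_rho (k m : ℕ) : R l k (2 * m + 1) = l k * ρ l (k + 1) m (E l k) := by
  have := (h.pos k).ne'
  induction m with
  | zero => rw [R_odd, R_zero, ρ, E]; field_simp; ring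
  | succ m ih =>
    rw [R_odd, show 2 * (m + 1) = 2 * m + 2 by ring, R_even, ih, ρ, E, sq, mul_assoc,
      mul_div_mul_left _ _ this]
    field_simp

lemma Ok.bin (k m : ℕ) {x : ℝ} (hx : 2 ≤ x)
    (hp : ∀ i < m, ∀ y, 2 ≤ y → 0 < ρ l (k + 1) i y) :
    ρ l k (2 * m) x = l k * (ρ l (k + 1) m (f l k x) + ρ l (k + 1) m (E l k)) / x ∧
    ((∀ y, 2 ≤ y → 0 < ρ l (k + 1) m y) → ρ l k (2 * m + 1) x =
      x * ρ l (k + 1) m (f l k x) / (ρ l (k + 1) m (f l k x) + ρ l (k + 1) m (E l k))) := by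
  have hl := (h.pos k).ne'
  have hx0 : x ≠ 0 := by linarith
  have hf := hx.trans (h.f_ge k hx)
  have key : ∀ m, ρ l k (2 * m) x = l k * (ρ l (k + 1) m (f l k x) + ρ l (k + 1) m (E l k)) / x →
      (∀ y, 2 ≤ y → 0 < ρ l (k + 1) m y) → ρ l k (2 * m + 1) x =
      x * ρ l (k + 1) m (f l k x) / (ρ l (k + 1) m (f l k x) + ρ l (k + 1) m (E l k)) := by
    intro m e hm
    have h1 := hm _ hf
    have h2 := hm _ (h.E_ge k)
    rw [ρ, e, h.R_rho]
    field_simp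
    ring
  refine ⟨?_, key m ?_⟩ <;>
  induction m with
  | zero => simp only [ρ, mul_zero, f, E]; field_simp; ring
  | succ m ih =>
    have h1 := hp m m.lt_succ_self _ hf
    have h2 := hp m m.lt_succ_self _ (h.E_ge k)
    rw [show 2 * (m + 1) = 2 * m + 1 + 1 by ring, ρ,
      key m (ih fun i hi => hp i (by omega)) (hp m m.lt_succ_self), R_even, h.R_rho, ρ, ρ]
    have e : x ^ 2 = l k * (f l k x + E l k) := by rw [f, E]; field_simp; ring
    field_simp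
    rw [e]
    ring

lemma Ok.ρ_pos (n : ℕ) : ∀ k x, 2 ≤ x → 0 < ρ l k n x := by
  induction n using Nat.strong_induction_on with
  | _ n ih =>
  intro k x hx
  have hf := hx.trans (h.f_ge k hx)
  have := h.pos k
  rcases Nat.eq_zero_or_pos n with rfl | hn
  · rw [ρ]; linarith
  rcases Nat.even_or_odd' n with ⟨m, e | e⟩
  · have h1 := ih m (by omega) (k + 1) _ hf
    have h2 := ih m (by omega) (k + 1) _ (h.E_ge k)
    rw [e, (h.bin k m hx fun i hi => ih i (by omega) _).1]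
    positivity
  · have h1 := ih m (by omega) (k + 1) _ hf
    have h2 := ih m (by omega) (k + 1) _ (h.E_ge k)
    rw [e, (h.bin k m hx fun i hi => ih i (by omega) _).2 (ih m (by omega) _)]
    positivity

lemma Ok.R_pos (n : ℕ) : ∀ k, 0 < R l k (n + 1) := by
  induction n using Nat.strong_induction_on with
  | _ n ih =>
  intro k
  have := h.pos k
  rcases Nat.even_or_odd' n with ⟨m, rfl | rfl⟩
  · rw [h.R_rho]
    exact mul_pos this (h.ρ_pos _ _ _ (h.E_ge k))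
  · have h1 := ih m (by omega) (k + 1)
    have h2 := ih (2 * m) (by omega) k
    rw [R_even]
    positivity

lemma Ok.ρ_mono (n k : ℕ) {x y : ℝ} (hx : 2 ≤ x) (hxy : x ≤ y) :
    ρ l k n x - x ≤ ρ l k n y - y := by
  induction n with
  | zero => simp [ρ]
  | succ n ih =>
    have h1 := h.ρ_pos n k x hx
    have := div_le_div_of_nonneg_left (h.R_pos n k).le h1 (show ρ l k n x ≤ ρ l k n y by linarith)
    rw [ρ, ρ]
    linarith

lemma Ok.ρ_le (n k : ℕ) {x : ℝ} (hx : 2 ≤ x) : ρ l k n x ≤ x := by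
  cases n with
  | zero => simp [ρ]
  | succ n =>
    have := div_pos (h.R_pos n k) (h.ρ_pos n k x hx)
    rw [ρ]
    linarith

omit h in
structure Chain (l : ℕ → ℝ) (r : ℕ → ℝ → ℝ) (b : ℕ → ℕ) : Prop where
  pos : ∀ k x, 2 ≤ x → 0 < r k x
  mono : ∀ k x y, 2 ≤ x → x ≤ y → r k x ≤ r k y
  lo : ∀ k x, 2 ≤ x → x - 2 ≤ r k x
  hi : ∀ k x, 2 ≤ x → r k x ≤ x
  zero : ∀ k x, 2 ≤ x → b k = 0 → r k x = l k * (r (k + 1) (f l k x) + r (k + 1) (E l k)) / x
  one : ∀ k x, 2 ≤ x → b k = 1 →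
    r k x = x * r (k + 1) (f l k x) / (r (k + 1) (f l k x) + r (k + 1) (E l k))

lemma Ok.chain (n : ℕ) : Chain l (fun k => ρ l k (n / 2 ^ k)) (fun k => n / 2 ^ k % 2) := by
  have e : ∀ k, n / 2 ^ (k + 1) = n / 2 ^ k / 2 := fun k => by
    rw [pow_succ, Nat.div_div_eq_div_mul]
  refine ⟨fun k x => h.ρ_pos _ k x, fun k x y hx hxy => ?_, fun k x hx => ?_,
    fun k x => h.ρ_le _ k, fun k x hx hb => ?_, fun k x hx hb => ?_⟩
  · linarith [h.ρ_mono (n / 2 ^ k) k hx hxy]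
  · linarith [h.ρ_mono (n / 2 ^ k) k le_rfl hx, h.ρ_pos (n / 2 ^ k) k 2 le_rfl]
  · simp only [e]
    rw [← (h.bin k _ hx fun i _ => h.ρ_pos i _).1]
    congr 1
    omega
  · simp only [e]
    rw [← (h.bin k _ hx fun i _ => h.ρ_pos i _).2 (h.ρ_pos _ _)]
    congr 1
    omega

end H18Jac
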