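import Pool.Agent.Lib.helper18.Jac1

namespace H18Jac

noncomputable def ε (m : ℕ) : ℝ := (1 / 16) ^ m

noncomputable def T (m : ℕ) : ℝ := 2 + ε m

lemma ε_pos (m : ℕ) : 0 < ε m := by unfold ε; positivity

lemma ε_anti {m n : ℕ} (h : m ≤ n) : ε n ≤ ε m :=
  pow_le_pow_of_le_one (by norm_num) (by norm_num) h

lemma ε_succ (m : ℕ) : ε (m + 1) = ε m / 16 := by unfold ε; ring

lemma ε_add (m n : ℕ) : ε (m + n) = ε m * ε n := pow_add _ _ _

lemma ε_le (m : ℕ) : ε m ≤ 1 := pow_le_one₀ (by norm_num) (by norm_num)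

lemma T_ge (m : ℕ) : 2 ≤ T m := by linarith [ε_pos m, show T m = 2 + ε m from rfl]

lemma T_le (m : ℕ) : T m ≤ 3 := by linarith [ε_le m, show T m = 2 + ε m from rfl]

lemma T_anti {m n : ℕ} (h : m ≤ n) : T n ≤ T m := by unfold T; linarith [ε_anti h]

structure Gen (l : ℕ → ℝ) (N : ℕ) : Prop where
  pos : 1 ≤ N
  H : ∀ k, N ≤ k → k < 11 * N → l k = 1 - ε (95 * N + 2 + 1)
  A : l (11 * N) = 1 - ε (21 * N + 1)
  B : ∀ k, 11 * N < k → k < 32 * N → l k = 1 / 2

variable {l : ℕ → ℝ} (h : Ok l)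
include h

lemma Ok.fT (k m : ℕ) : f l k (T (m + 1)) ≤ T m := by
  have h1 := ε_pos m
  have h2 := ε_le m
  rw [f, T, T, ε_succ, add_comm, add_le_add_iff_left, div_le_iff₀ (h.pos k)]
  nlinarith [(h k).1]

lemma Ok.ET {k m : ℕ} (e : l k = 1 - ε (m + 1)) : E l k ≤ T m ∧ 4 * ε (m + 1) ≤ E l k - 2 := by
  have h1 := ε_pos m
  have h2 := ε_le m
  have h3 := h.pos k
  rw [E, T, sub_le_iff_le_add, div_le_iff₀ h3, sub_sub, le_sub_iff_add_le, le_div_iff₀ h3, e, ε_succ]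
  constructor <;> nlinarith

lemma Ok.f_two (k : ℕ) : f l k 2 = 2 := by rw [f]; norm_num

lemma Ok.f_mono (k : ℕ) {x y : ℝ} (hx : 2 ≤ x) (hxy : x ≤ y) : f l k x ≤ f l k y := by
  unfold f
  have := h.pos k
  gcongr

variable {r : ℕ → ℝ → ℝ} {b : ℕ → ℕ} (c : Chain l r b)
include c

lemma Ok.zero_le {k : ℕ} {x y : ℝ} (hb : b k = 0) (hx : 2 ≤ x) (h1 : f l k x ≤ y) (h2 : E l k ≤ y) :
    r k x ≤ r (k + 1) y := by
  have h3 := c.mono (k + 1) _ _ (hx.trans (h.f_ge k hx)) h1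
  have h4 := c.mono (k + 1) _ _ (h.E_ge k) h2
  have h5 := c.pos (k + 1) y ((h.E_ge k).trans h2)
  rw [c.zero k x hx hb, div_le_iff₀ (by linarith)]
  nlinarith [(h k).2, h.pos k]

lemma Ok.zero_ge {k : ℕ} (hb : b k = 0) :
    l k * r (k + 1) 2 ≤ r k 2 ∧ l k * r (k + 1) (E l k) / 2 ≤ r k 2 := by
  have h3 := c.mono (k + 1) _ _ le_rfl (h.E_ge k)
  have h5 := c.pos (k + 1) 2 le_rfl
  rw [c.zero k 2 le_rfl hb, h.f_two]
  constructor <;> nlinarith [h.pos k]

variable {N : ℕ} (g : Gen l N)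
include g

lemma Ok.lowH {a : ℕ} (h1 : N ≤ a) (h2 : a ≤ 11 * N) (hb : ∀ k, N ≤ k → k < a → b k = 0) :
    9 / 10 * r a 2 ≤ r N 2 := by
  set δ := ε (95 * N + 2 + 1)
  have hδ : 0 < δ := ε_pos _
  have hδ1 : δ ≤ 1 := ε_le _
  have key : ∀ i, N + i ≤ a → (1 - δ) ^ i * r (N + i) 2 ≤ r N 2 := by
    intro i
    induction i with
    | zero => simp
    | succ i ih =>
      intro hi
      have e := (h.zero_ge c (hb (N + i) (by omega) (by omega))).1
      rw [g.H _ (by omega) (by omega)] at e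
      refine le_trans ?_ (ih (by omega))
      rw [pow_succ, mul_assoc]
      exact mul_le_mul_of_nonneg_left e (pow_nonneg (by linarith) _)
  have h3 := key (a - N) (by omega)
  rw [show N + (a - N) = a by omega] at h3
  refine le_trans (mul_le_mul_of_nonneg_right ?_ (c.pos a 2 le_rfl).le) h3
  have h4 := one_add_mul_le_pow (a := -δ) (by linarith) (a - N)
  have h5 : ((a - N : ℕ) : ℝ) ≤ 10 * N := by exact_mod_cast (by omega : a - N ≤ 10 * N)
  have h6 : (N : ℝ) * ε N ≤ 1 := by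
    have : (N : ℝ) ≤ 16 ^ N := by exact_mod_cast (Nat.lt_pow_self (by norm_num)).le
    rw [ε, one_div, inv_pow, ← div_eq_mul_inv, div_le_one (by positivity)]
    exact this
  have h7 : δ ≤ ε N / 16 / 16 := by
    rw [← ε_succ, ← ε_succ]; exact ε_anti (by omega)
  rw [← sub_eq_add_neg] at h4
  have h8 : ((a - N : ℕ) : ℝ) * δ ≤ 10 * N * (ε N / 16 / 16) := by gcongr
  nlinarith

lemma Ok.lowH1 {v : ℕ} (h1 : N ≤ v) (h2 : v + 1 < 11 * N) (hb : ∀ k, N ≤ k → k ≤ v → b k = 0)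
    (hv : b (v + 1) = 1) : 1 / 5 ≤ r N 2 := by
  have h3 := h.lowH c g h1 (by omega) fun k a b => hb k a b.le
  have h4 := (h.zero_ge c (hb v h1 le_rfl)).2
  have e : E l v = E l (v + 1) := by rw [E, E, g.H v h1 (by omega), g.H (v + 1) (by omega) h2]
  have h5 := h.E_ge (v + 1)
  have h6 := c.mono (v + 1 + 1) _ _ h5 (h.f_ge (v + 1) h5)
  have h7 := c.pos (v + 1 + 1) _ h5
  have h8 : 1 ≤ r (v + 1) (E l v) := by
    rw [e, c.one _ _ h5 hv, le_div_iff₀ (by linarith)]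
    nlinarith
  nlinarith [(h v).1]

lemma Ok.lowGen {v : ℕ} (h1 : 11 * N < v) (h2 : v ≤ 32 * N)
    (hb : ∀ k, N ≤ k → k < 11 * N → b k = 0) (hb' : ∀ k, 11 * N ≤ k → k < v → b k = 1)
    (hQ : r v (T 1) ≤ 67 / 10 * r v 2) : 1 / 5 ≤ r N 2 := by
  have key : ∀ i k, k + i = v → 11 * N < k →
      r k (T (i + 1)) ≤ (1 + ε 1 - ε (i + 1)) * (67 / 10) * r k 2 := by
    intro i
    induction i with
    | zero => rintro k rfl _; simpa using hQ
    | succ i ih =>
      intro k hk hk'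
      have e := ih (k + 1) (by omega) (by omega)
      have p1 := c.mono (k + 1) _ _ ((T_ge _).trans (h.f_ge k (T_ge (i + 1 + 1)))) (h.fT k (i + 1))
      have p2 := c.mono (k + 1) _ _ le_rfl ((T_ge _).trans (h.f_ge k (T_ge (i + 1 + 1))))
      have p3 := c.pos (k + 1) 2 le_rfl
      have p4 := c.pos (k + 1) _ (h.E_ge k)
      rw [c.one k _ (T_ge _) (hb' k hk'.le (by omega)), c.one k _ le_rfl (hb' k hk'.le (by omega)),
        h.f_two, ← mul_div_assoc]
      refine div_le_div₀ ?_ ?_ (by linarith) (by linarith)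
      · have := ε_le (i + 1 + 1)
        have := ε_pos 1
        have : 0 ≤ 1 + ε 1 - ε (i + 1 + 1) := by linarith
        positivity
      · have q1 := ε_pos (i + 1)
        have q2 := ε_le 1
        have q3 : T (i + 1 + 1) * (1 + ε 1 - ε (i + 1)) ≤ (1 + ε 1 - ε (i + 1 + 1)) * 2 := by
          rw [T, ε_succ (i + 1)]
          nlinarith
        calc _ ≤ T (i + 1 + 1) * ((1 + ε 1 - ε (i + 1)) * (67 / 10) * r (k + 1) 2) :=
            mul_le_mul_of_nonneg_left (p1.trans e) (by linarith [T_ge (i + 1 + 1)])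
          _ = T (i + 1 + 1) * (1 + ε 1 - ε (i + 1)) * (67 / 10 * r (k + 1) 2) := by ring
          _ ≤ (1 + ε 1 - ε (i + 1 + 1)) * 2 * (67 / 10 * r (k + 1) 2) := by gcongr
          _ = _ := by ring
  have h3 := key (v - (11 * N + 1)) (11 * N + 1) (by omega) (by omega)
  have h4 := c.mono (11 * N + 1) _ _ (h.E_ge _)
    ((h.ET g.A).1.trans (T_anti (show v - (11 * N + 1) + 1 ≤ 21 * N by omega)))
  have h5 := h.lowH c g (a := 11 * N) (by omega) le_rfl hb
  have h6 := c.pos (11 * N + 1) 2 le_rfl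
  have h7 := c.pos (11 * N + 1) _ (h.E_ge (11 * N))
  have h8 : 2 / 9 ≤ r (11 * N) 2 := by
    rw [c.one _ _ le_rfl (hb' _ le_rfl h1), h.f_two, le_div_iff₀ (by linarith)]
    have := ε_pos (v - (11 * N + 1) + 1)
    have e : ε 1 = 1 / 16 := by norm_num [ε]
    rw [e] at h3
    nlinarith
  linarith

omit g in
lemma Ok.Q0 {v : ℕ} (hb : b v = 0) (hv : 1 / 5 ≤ r v 2 ∨ l v = 1 / 2) :
    r v (T 1) ≤ 67 / 10 * r v 2 := by
  have h1 := (h.zero_ge c hb).2
  have h2 := c.hi (v + 1) _ ((T_ge 1).trans (h.f_ge v (T_ge 1)))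
  have h3 := c.pos (v + 1) _ (h.E_ge v)
  have h4 := h.pos v
  have e : T 1 = 33 / 16 := by norm_num [T, ε]
  have h5 : l v * f l v (T 1) ≤ (33 / 16) ^ 2 - 2 := by
    rw [f, e, mul_add, mul_div_cancel₀ _ h4.ne']
    linarith [(h v).2]
  have h6 : 1 / 5 ≤ r v 2 := by
    rcases hv with hv | hv
    · exact hv
    · have := c.lo (v + 1) _ (h.E_ge v)
      rw [E, hv] at this h1
      linarith
  rw [c.zero v _ (T_ge 1) hb, div_le_iff₀ (by linarith [T_ge 1])]
  have h7 := mul_le_mul_of_nonneg_left h2 h4.le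
  rw [e] at h5 h7 ⊢
  nlinarith

lemma Ok.upH (hb : ∀ k, N ≤ k → k < 11 * N → b k = 0) (hM : r (11 * N) (T (85 * N + 2)) ≤ ε N / 3) :
    r N (T (2 * N + 2)) ≤ ε N := by
  set M := r (11 * N) (T (85 * N + 2))
  have k1 : ∀ i k, k + i = 11 * N → N ≤ k → r k (T (85 * N + 2 + i)) ≤ M := by
    intro i
    induction i with
    | zero => rintro k hk _; rw [show k = 11 * N by omega]
    | succ i ih =>
      intro k hk hk'
      refine le_trans (h.zero_le c (hb k hk' (by omega)) (T_ge _) (h.fT k _) ?_)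
        (ih (k + 1) (by omega) (by omega))
      exact (h.ET (g.H k hk' (by omega))).1.trans
        (T_anti (show 85 * N + 2 + i ≤ 95 * N + 2 by omega))
  have k2 : ∀ i k, k + i = 11 * N → N ≤ k → ∀ x, 2 ≤ x →
      r k x ≤ √(x ^ 2 - 4) + 2 * (1 / 2) ^ i + M := by
    intro i
    induction i with
    | zero =>
      intro k _ _ x hx
      have h1 : x - 2 ≤ √(x ^ 2 - 4) := Real.le_sqrt_of_sq_le (by nlinarith)
      have h2 : 0 < M := c.pos _ _ (T_ge _)
      linarith [c.hi k x hx]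
    | succ i ih =>
      intro k hk hk' x hx
      have h1 := ih (k + 1) (by omega) (by omega) _ (hx.trans (h.f_ge k hx))
      have h2 := (c.mono (k + 1) _ _ (h.E_ge k) ((h.ET (g.H k hk' (by omega))).1.trans
        (T_anti (by omega)))).trans (k1 i (k + 1) (by omega) (by omega))
      have h3 := h.pos k
      have h4 := (h k).2
      have h5 : l k * √(f l k x ^ 2 - 4) ≤ x * √(x ^ 2 - 4) := by
        have hf := hx.trans (h.f_ge k hx)
        refine abs_le_of_sq_le_sq' ?_ (by positivity) |>.2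
        rw [mul_pow, mul_pow, Real.sq_sqrt (by nlinarith), Real.sq_sqrt (by nlinarith)]
        have e : l k ^ 2 * (f l k x ^ 2 - 4) = (x ^ 2 - 4 + 4 * l k) * (x ^ 2 - 4) := by
          rw [f]; field_simp; ring
        rw [e]
        exact mul_le_mul_of_nonneg_right (by linarith) (by nlinarith)
      have h6 : 0 < M := c.pos _ _ (T_ge _)
      have h7 : (0 : ℝ) < (1 / 2) ^ i := by positivity
      rw [c.zero k x hx (hb k hk' (by omega)), div_le_iff₀ (by linarith), pow_succ (1 / 2 : ℝ)]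
      have h8 := mul_le_mul_of_nonneg_left (add_le_add h1 h2) h3.le
      have h9 : l k * (2 * (1 / 2) ^ i + M + M) ≤ 1 * (2 * (1 / 2) ^ i + M + M) := by gcongr
      have h10 : ((1 / 2) ^ i + M) * 2 ≤ ((1 / 2) ^ i + M) * x := by gcongr
      nlinarith
  have h1 := k2 (10 * N) N (by omega) le_rfl _ (T_ge (2 * N + 2))
  have h2 := ε_pos N
  have h3 : √(T (2 * N + 2) ^ 2 - 4) ≤ ε N / 3 := by
    refine Real.sqrt_le_iff.2 ⟨by positivity, ?_⟩
    have e : ε (2 * N + 2) = ε N * ε N / 16 / 16 := by rw [ε_succ, ε_succ, two_mul, ε_add]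
    have := ε_le (2 * N + 2)
    have := ε_pos (2 * N + 2)
    rw [T]
    nlinarith
  have h4 : ((1 : ℝ) / 2) ^ (10 * N) ≤ ε N / 16 := by
    rw [← ε_succ, ε, show (1 / 16 : ℝ) = (1 / 2) ^ 4 by norm_num, ← pow_mul]
    exact pow_le_pow_of_le_one (by norm_num) (by norm_num) (by have := g.pos; omega)
  linarith

lemma Ok.upB (hb : ∀ k, 11 * N < k → k < 32 * N → b k = 1) (m : ℕ) : ∀ i k, k + i = 32 * N →
    11 * N < k → r k (T (m + i)) ≤ (3 / 4) ^ i * r (32 * N) (T m) := by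
  intro i
  induction i with
  | zero => intro k hk _; simp [← hk]
  | succ i ih =>
    intro k hk hk'
    have h0 := (T_ge _).trans (h.f_ge k (T_ge (m + i + 1)))
    have h1 := (c.mono (k + 1) _ _ h0 (h.fT k (m + i))).trans (ih (k + 1) (by omega) (by omega))
    have h2 := c.lo (k + 1) _ (h.E_ge k)
    have h3 := c.pos (k + 1) _ h0
    have h4 : E l k = 6 := by rw [E, g.B k hk' (by omega)]; norm_num
    rw [← add_assoc, c.one k _ (T_ge _) (hb k hk' (by omega)), div_le_iff₀ (by linarith), pow_succ]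
    nlinarith [T_le (m + i + 1)]

lemma Ok.upLink (hb : ∀ k, 11 * N ≤ k → k < 32 * N → b k = 1)
    (hS : r (32 * N) (T (2 * (32 * N) + 2)) ≤ ε (32 * N)) :
    r (11 * N) (T (85 * N + 2)) ≤ ε N / 3 := by
  have hN := g.pos
  have h0 := (T_ge _).trans (h.f_ge (11 * N) (T_ge (85 * N + 1 + 1)))
  have h1 := h.upB c g (fun k a b => hb k a.le b) (2 * (32 * N) + 2) (21 * N - 1) (11 * N + 1)
    (by omega) (by omega)
  rw [show 2 * (32 * N) + 2 + (21 * N - 1) = 85 * N + 1 by omega] at h1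
  have h2 := (c.mono (11 * N + 1) _ _ h0 (h.fT _ _)).trans h1
  have h3 := (h.ET g.A).2.trans (c.lo (11 * N + 1) _ (h.E_ge _))
  have h4 := c.pos (11 * N + 1) _ h0
  have h5 : ((3 : ℝ) / 4) ^ (21 * N - 1) ≤ 1 := pow_le_one₀ (by norm_num) (by norm_num)
  have h6 := c.pos (32 * N) _ (T_ge (2 * (32 * N) + 2))
  have h7 : ε (32 * N) ≤ ε N * ε (21 * N + 1) / 16 := by
    rw [← ε_add, ← ε_succ]; exact ε_anti (by omega)
  have h8 := ε_pos N
  have h9 := ε_pos (21 * N + 1)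
  rw [c.one _ _ (T_ge _) (hb _ le_rfl (by omega)), div_le_iff₀ (by linarith)]
  have h10 : r (11 * N + 1) (f l (11 * N) (T (85 * N + 1 + 1))) ≤ ε N * ε (21 * N + 1) / 16 := by
    nlinarith
  nlinarith [T_le (85 * N + 2), T_ge (85 * N + 2)]

lemma Ok.upFin (hA : b (11 * N) = 0) (hb : ∀ k, 11 * N < k → k < 32 * N → b k = 1) :
    r (11 * N) (T (85 * N + 2)) ≤ ε N / 3 := by
  have hN := g.pos
  have h1 := h.upB c g hb 1 (21 * N - 1) (11 * N + 1) (by omega) (by omega)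
  rw [show 1 + (21 * N - 1) = 21 * N by omega] at h1
  have h2 := h.zero_le c hA (T_ge _) ((h.fT _ (85 * N + 1)).trans (T_anti (by omega))) (h.ET g.A).1
  have h3 := (c.hi (32 * N) _ (T_ge 1)).trans (T_le 1)
  have h4 : ((3 : ℝ) / 4) ^ (21 * N - 1) ≤ ε N / 16 := by
    rw [← ε_succ]
    calc ((3 : ℝ) / 4) ^ (21 * N - 1) ≤ (3 / 4) ^ (10 * (N + 1)) :=
          pow_le_pow_of_le_one (by norm_num) (by norm_num) (by omega)
      _ ≤ _ := by rw [pow_mul]; exact pow_le_pow_left₀ (by norm_num) (by norm_num) _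
  have h5 := c.pos (32 * N) _ (T_ge 1)
  have h6 := ε_pos N
  nlinarith

end H18Jac
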