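import Pool.Agent.Lib.helper18.Jac2

open Filter Topology

namespace H18Jac

noncomputable def δ (k : ℕ) : ℝ :=
  if k = 0 then ε 5 else if k < 11 * 32 ^ Nat.log 32 k then ε (95 * 32 ^ Nat.log 32 k + 2 + 1)
  else if k = 11 * 32 ^ Nat.log 32 k then ε (21 * 32 ^ Nat.log 32 k + 1) else 1 / 2

noncomputable def lam (k : ℕ) : ℝ := 1 - δ k

def ω (k : ℕ) : ℕ := if k = 0 then 1 else if k < 11 * 32 ^ Nat.log 32 k then 0 else 1

lemma ε_half (m : ℕ) : ε (m + 1) ≤ 1 / 2 := by rw [ε_succ]; linarith [ε_le m]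

lemma δ_bd (k : ℕ) : ε (98 * (k + 1)) ≤ δ k ∧ δ k ≤ 1 / 2 := by
  unfold δ
  split_ifs with h1 h2 h3
  · exact ⟨ε_anti (by omega), ε_half 4⟩
  · have := Nat.pow_log_le_self 32 h1
    exact ⟨ε_anti (by omega), ε_half _⟩
  · exact ⟨ε_anti (by omega), ε_half _⟩
  · exact ⟨(ε_anti (by omega)).trans (ε_half 0), le_rfl⟩

lemma ok : Ok lam := fun k => by
  have := δ_bd k
  have := ε_pos (98 * (k + 1))
  unfold lam
  constructor <;> linarith

lemma lg {i k : ℕ} (h1 : 32 ^ i ≤ k) (h2 : k < 32 * 32 ^ i) : Nat.log 32 k = i :=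
  Nat.log_eq_of_pow_le_of_lt_pow h1 (by rw [pow_succ']; exact h2)

lemma p32 (i : ℕ) : 1 ≤ 32 ^ i := Nat.one_le_pow _ _ (by norm_num)

lemma gen (i : ℕ) : Gen lam (32 ^ i) := by
  have := p32 i
  refine ⟨this, fun k h1 h2 => ?_, ?_, fun k h1 h2 => ?_⟩
  · rw [lam, δ, lg h1 (by omega), if_neg (by omega), if_pos h2]
  · rw [lam, δ, lg (i := i) (by omega) (by omega), if_neg (by omega), if_neg (by omega), if_pos rfl]
  · rw [lam, δ, lg (i := i) (by omega) h2, if_neg (by omega), if_neg (by omega), if_neg (by omega)]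
    norm_num

lemma ω0 (i k : ℕ) (h1 : 32 ^ i ≤ k) (h2 : k < 11 * 32 ^ i) : ω k = 0 := by
  have := p32 i
  rw [ω, lg h1 (by omega), if_neg (by omega), if_pos h2]

lemma ω1 (i k : ℕ) (h1 : 11 * 32 ^ i ≤ k) (h2 : k < 32 * 32 ^ i) : ω k = 1 := by
  have := p32 i
  rw [ω, lg (i := i) (by omega) h2, if_neg (by omega), if_neg (by omega)]

variable {r : ℕ → ℝ → ℝ} {b : ℕ → ℕ} (c : Chain lam r b)
include c

lemma low_down (i : ℕ) : (∀ k ≤ 32 ^ i, b k = ω k) → 1 / 5 ≤ r (32 ^ i) 2 → 1 / 5 ≤ r 1 2 := by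
  induction i with
  | zero => exact fun _ h => h
  | succ i ih =>
    intro hb hr
    have := p32 i
    rw [pow_succ'] at hb hr
    refine ih (fun k hk => hb k (by omega)) ?_
    refine ok.lowGen c (gen i) (v := 32 * 32 ^ i) (by omega) le_rfl
      (fun k h1 h2 => (hb k (by omega)).trans (ω0 i k h1 h2))
      (fun k h1 h2 => (hb k h2.le).trans (ω1 i k h1 h2)) (ok.Q0 c ?_ (Or.inl hr))
    rw [hb _ le_rfl, ω0 (i + 1) _ (by rw [pow_succ']) (by rw [pow_succ']; omega)]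

def Good (v : ℕ) : Prop :=
  ∃ i, (32 ^ i < v ∧ v < 11 * 32 ^ i) ∨ (11 * 32 ^ i < v ∧ v < 32 * 32 ^ i)

omit c in
lemma good (v : ℕ) : Good (v + 1) ∨ Good (v + 2) := by
  have h1 := Nat.pow_log_le_self 32 (x := v + 1) (by omega)
  have h2 := Nat.lt_pow_succ_log_self (b := 32) (by norm_num) (v + 1)
  rw [Nat.succ_eq_add_one, pow_succ'] at h2
  set i := Nat.log 32 (v + 1)
  have := p32 i
  by_cases h3 : v + 1 = 32 ^ i ∨ v + 1 = 11 * 32 ^ i
  · exact Or.inr ⟨i, by omega⟩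
  · exact Or.inl ⟨i, by omega⟩

lemma low {v : ℕ} (hv : Good v) (hb : ∀ k < v, b k = ω k) (hb' : b v + ω v = 1) :
    1 / 5 ≤ r 1 2 := by
  obtain ⟨i, hi⟩ := hv
  have := p32 i
  refine low_down c i (fun k hk => hb k (by omega)) ?_
  rcases hi with ⟨h1, h2⟩ | ⟨h1, h2⟩
  · obtain ⟨v, rfl⟩ : ∃ u, v = u + 1 := ⟨v - 1, by omega⟩
    rw [ω0 i _ h1.le h2] at hb'
    exact ok.lowH1 c (gen i) (by omega) h2
      (fun k a a' => (hb k (by omega)).trans (ω0 i k a (by omega))) hb'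
  · rw [ω1 i _ h1.le h2] at hb'
    exact ok.lowGen c (gen i) h1 h2.le (fun k a a' => (hb k (by omega)).trans (ω0 i k a a'))
      (fun k a a' => (hb k a').trans (ω1 i k a (by omega)))
      (ok.Q0 c (by omega) (Or.inr ((gen i).B v h1 h2)))

lemma up (G : ℕ) (hb : ∀ k < 32 * 32 ^ G, b k = if k = 11 * 32 ^ G then 0 else ω k) :
    r 1 (T 4) ≤ 1 / 16 := by
  have key : ∀ j i, i + j = G → r (32 ^ i) (T (2 * 32 ^ i + 2)) ≤ ε (32 ^ i) := by
    intro j
    induction j with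
    | zero =>
      rintro i rfl
      have := p32 i
      simp only [add_zero] at hb
      refine ok.upH c (gen i) (fun k a a' => ?_) (ok.upFin c (gen i) ?_ fun k a a' => ?_)
      · rw [hb k (by omega), if_neg (by omega), ω0 i k a a']
      · rw [hb _ (by omega), if_pos rfl]
      · rw [hb k a', if_neg (by omega), ω1 i k a.le a']
    | succ j ih =>
      intro i hi
      have := p32 i
      have h1 : 32 * 32 ^ i ≤ 32 ^ G := by
        rw [← pow_succ']; exact Nat.pow_le_pow_right (by norm_num) (by omega)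
      refine ok.upH c (gen i) (fun k a a' => ?_) (ok.upLink c (gen i) (fun k a a' => ?_) ?_)
      · rw [hb k (by omega), if_neg (by omega), ω0 i k a a']
      · rw [hb k (by omega), if_neg (by omega), ω1 i k a a']
      · rw [← pow_succ']
        exact ih (i + 1) (by omega)
  simpa [ε] using key G 0 (by omega)

omit c

lemma digits (K : ℕ) : ∀ (d : ℕ → ℕ), (∀ k, d k < 2) → ∀ M, ∃ n, M ≤ n ∧ ∀ k < K, n / 2 ^ k % 2 = d k := by
  induction K with
  | zero => exact fun _ _ M => ⟨M, le_rfl, by simp⟩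
  | succ K ih =>
    intro d hd M
    obtain ⟨n, h1, h2⟩ := ih (fun k => d (k + 1)) (fun k => hd _) M
    have := hd 0
    refine ⟨2 * n + d 0, by omega, fun k hk => ?_⟩
    cases k with
    | zero => simp; omega
    | succ k =>
      rw [pow_succ', ← Nat.div_div_eq_div_mul, show (2 * n + d 0) / 2 = n by omega]
      exact h2 k (by omega)

lemma obs {n : ℕ} (hn : n / 2 ^ 0 % 2 = 1) : R lam 0 n = lam 0 * ρ lam 1 (n / 2 ^ 1) (E lam 0) := by
  rw [← ok.R_rho]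
  congr 1
  simp only [pow_zero, pow_one, Nat.div_one] at hn ⊢
  omega

theorem noper {v : ℕ} (hv : Good v) (q M : ℕ) :
    ∃ n, M ≤ n ∧ R lam 0 n ≤ 1 / 16 ∧ 1 / 10 ≤ R lam 0 (n + 2 ^ v * (2 * q + 1)) := by
  have hω : ∀ k, ω k < 2 := fun k => by unfold ω; split_ifs <;> omega
  obtain ⟨n, h1, h2⟩ := digits (32 * 32 ^ v) (fun k => if k = 11 * 32 ^ v then 0 else ω k)
    (fun k => by have := hω k; split_ifs <;> omega) M
  have h3 : v < 32 ^ v := Nat.lt_pow_self (by norm_num)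
  have h4 : ∀ k ≤ v, n / 2 ^ k % 2 = ω k := fun k hk => by
    rw [h2 k (by omega), if_neg (by omega)]
  have h5 : ∀ k ≤ v, (n + 2 ^ v * (2 * q + 1)) / 2 ^ k = n / 2 ^ k + 2 ^ (v - k) * (2 * q + 1) := by
    intro k hk
    rw [← Nat.add_mul_div_left _ _ (Nat.two_pow_pos k), ← mul_assoc, ← pow_add,
      show k + (v - k) = v by omega]
  have h6 : ∀ k < v, (n + 2 ^ v * (2 * q + 1)) / 2 ^ k % 2 = ω k := by
    intro k hk
    rw [h5 k hk.le, ← h4 k hk.le, show v - k = v - k - 1 + 1 by omega, pow_succ', mul_assoc]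
    omega
  have h0 : 0 < v := by
    obtain ⟨i, hi⟩ := hv
    omega
  have hl := ok 0
  refine ⟨n, h1, ?_, ?_⟩
  · have c := ok.chain n
    have e1 := up c v h2
    have e2 := c.mono 1 _ _ (ok.E_ge 0) (ok.ET (k := 0) (m := 4) (by simp [lam, δ])).1
    have e3 := c.pos 1 _ (ok.E_ge 0)
    rw [obs (h4 0 h0.le)]
    nlinarith
  · have c := ok.chain (n + 2 ^ v * (2 * q + 1))
    have e1 := low c hv h6 (by
      have := h4 v le_rfl
      have := hω v
      simp only [h5 v le_rfl, Nat.sub_self, pow_zero]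
      omega)
    have e2 := c.mono 1 _ _ le_rfl (ok.E_ge 0)
    rw [obs (h6 0 h0)]
    nlinarith

theorem not_ap {κ : ℝ} (hκ : 0 < κ) (a : ℕ → ℝ) (ha : ∀ n, a n = κ * √(R lam 0 (n + 1)))
    (c : ℤ → ℝ) (hc : ∀ e : ℝ, 0 < e → ∃ τ : ℤ, 1 ≤ τ ∧ ∀ n : ℤ, |c (n + τ) - c n| < e)
    (ht : Tendsto (fun n : ℕ => a n - c n) atTop (𝓝 0)) : False := by
  obtain ⟨τ, h1, h2⟩ := hc (κ / 200) (by positivity)
  obtain ⟨M, hM⟩ := Metric.tendsto_atTop.1 ht (κ / 200) (by positivity)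
  simp only [Real.dist_eq, sub_zero] at hM
  lift τ to ℕ using by omega
  obtain ⟨v, q', hq, rfl⟩ := Nat.exists_eq_two_pow_mul_odd (n := τ) (by omega)
  obtain ⟨q, rfl⟩ := hq
  set τ := 2 ^ v * (2 * q + 1) with hτ
  have h3 : ∀ (j : ℕ) (n : ℤ), |c (n + j * τ) - c n| ≤ j * (κ / 200) := by
    intro j n
    induction j with
    | zero => simp
    | succ j ih =>
      have := h2 (n + j * τ)
      have e := abs_sub_le (c (n + j * τ + τ)) (c (n + j * τ)) (c n)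
      push_cast
      rw [add_mul, one_mul, ← add_assoc]
      linarith
  have h4 : ∀ j : ℕ, j ≤ 4 → ∀ n, M + 1 ≤ n → R lam 0 n ≤ 1 / 16 → 1 / 10 ≤ R lam 0 (n + j * τ) →
      False := by
    intro j hj n hn a1 a2
    obtain ⟨n, rfl⟩ : ∃ m, n = m + 1 := ⟨n - 1, by omega⟩
    have b1 := abs_lt.1 (hM n (by omega))
    have b2 := abs_lt.1 (hM (n + j * τ) (by omega))
    have b3 := abs_le.1 (h3 j n)
    have b4 : √(R lam 0 (n + 1)) ≤ 1 / 4 := Real.sqrt_le_iff.2 ⟨by norm_num, by linarith⟩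
    have b5 : 3 / 10 ≤ √(R lam 0 (n + j * τ + 1)) :=
      Real.le_sqrt_of_sq_le (by rw [add_right_comm]; linarith)
    have b6 : (j : ℝ) ≤ 4 := by exact_mod_cast hj
    rw [ha] at b1 b2
    push_cast at b2
    nlinarith
  rcases good v with g | g
  · obtain ⟨n, a1, a2, a3⟩ := noper g q (M + 1)
    exact h4 2 (by norm_num) n a1 a2 (by rwa [hτ, ← mul_assoc, ← pow_succ'])
  · obtain ⟨n, a1, a2, a3⟩ := noper g q (M + 1)
    exact h4 4 le_rfl n a1 a2 (by rwa [hτ, ← mul_assoc, show 4 * 2 ^ v = 2 ^ (v + 2) by ring])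

end H18Jac
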