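import Pool.Agent.Lib.helper18.Jac1
import Pool.Agent.Lib.helper18.Cantor4

open MeasureTheory Set Filter Topology Real H18Cantor
open scoped BoundedContinuousFunction

namespace H18Jac

noncomputable def g (l : ℕ → ℝ) (k : ℕ) (t : ℝ) : ℝ := |arcsin (√(l k) * sin (t / 2))|

structure Ang (l : ℕ → ℝ) (θ : ℕ → Om → ℝ) : Prop where
  cont : ∀ k, Continuous (θ k)
  eq : ∀ k e, θ k e = π / 2 - sg (e 0) * (π / 2 - g l k (θ (k + 1) (sh e)))

variable {l : ℕ → ℝ}

lemma g_nn (k : ℕ) (t : ℝ) : 0 ≤ g l k t := abs_nonneg _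

lemma g_le (k : ℕ) (t : ℝ) : g l k t ≤ π / 2 :=
  abs_le.2 ⟨neg_pi_div_two_le_arcsin _, arcsin_le_pi_div_two _⟩

lemma g_cont (k : ℕ) : Continuous (g l k) := by
  unfold g
  exact (continuous_arcsin.comp (by fun_prop)).abs

variable (h : Ok l)
include h

lemma Ok.sq_lt (k : ℕ) (t : ℝ) : (√(l k) * sin t) ^ 2 ≤ l k ∧ cos t ^ 2 ≤ 1 - (√(l k) * sin t) ^ 2 := by
  rw [mul_pow, sq_sqrt (h.pos k).le]
  have := sin_sq_add_cos_sq t
  constructor <;> nlinarith [h.pos k, (h k).2, sq_nonneg (sin t), sq_nonneg (cos t)]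

lemma Ok.g_lip (k : ℕ) (s t : ℝ) : |g l k s - g l k t| ≤ √(l k) / 2 * |s - t| := by
  refine (abs_abs_sub_abs_le_abs_sub _ _).trans ?_
  have hd : ∀ t, HasDerivAt (fun t => arcsin (√(l k) * sin (t / 2)))
      (1 / √(1 - (√(l k) * sin (t / 2)) ^ 2) * (√(l k) * (cos (t / 2) * (1 / 2)))) t := by
    intro t
    have h1 := (h.sq_lt k (t / 2)).1.trans_lt (h k).2
    refine (hasDerivAt_arcsin ?_ ?_).comp t (((hasDerivAt_id t).div_const 2).sin.const_mul _)
    · intro e; rw [e] at h1; norm_num at h1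
    · intro e; rw [e] at h1; norm_num at h1
  have := Convex.norm_image_sub_le_of_norm_hasDerivWithin_le (s := univ) (C := √(l k) / 2)
    (fun t _ => (hd t).hasDerivWithinAt) (fun t _ => ?_) convex_univ (mem_univ t) (mem_univ s)
  · exact this
  have h1 := (h.sq_lt k (t / 2)).1.trans_lt (h k).2
  have h2 : 0 < √(1 - (√(l k) * sin (t / 2)) ^ 2) := sqrt_pos.2 (by linarith)
  have h3 : |cos (t / 2)| ≤ √(1 - (√(l k) * sin (t / 2)) ^ 2) := abs_le_sqrt (h.sq_lt k (t / 2)).2
  rw [Real.norm_eq_abs, abs_mul, abs_mul, abs_mul, abs_of_pos (one_div_pos.2 h2),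
    abs_of_nonneg (sqrt_nonneg _), abs_of_pos (one_half_pos (α := ℝ)), one_div_mul_eq_div, div_le_iff₀ h2]
  have := mul_le_mul_of_nonneg_left h3 (sqrt_nonneg (l k))
  linarith

lemma Ok.g_lip' (k : ℕ) (s t : ℝ) : |g l k s - g l k t| ≤ 1 / 2 * |s - t| := by
  refine (h.g_lip k s t).trans ?_
  gcongr
  exact sqrt_le_one.2 (h k).2.le

lemma Ok.cos_g (k : ℕ) (t : ℝ) :
    0 ≤ cos (g l k t) ∧ (2 * cos (g l k t)) ^ 2 = 4 - 2 * l k + l k * (2 * cos t) := by
  have h1 := (h.sq_lt k (t / 2)).1.trans_lt (h k).2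
  rw [g, cos_abs, cos_arcsin, mul_pow 2, sq_sqrt (sub_pos.2 h1).le, mul_pow, sq_sqrt (h.pos k).le]
  refine ⟨sqrt_nonneg _, ?_⟩
  have := sin_sq_eq_half_sub (t / 2)
  rw [this, mul_div_cancel₀ _ two_ne_zero]
  ring

omit h in
noncomputable def TT (l : ℕ → ℝ) (F : (ℕ × Om) →ᵇ ℝ) : (ℕ × Om) →ᵇ ℝ :=
  BoundedContinuousFunction.ofNormedAddCommGroup
    (fun p => π / 2 - sg (p.2 0) * (π / 2 - g l p.1 (F (p.1 + 1, sh p.2))))
    (by
      refine continuous_prod_of_discrete_left.2 fun k => ?_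
      have h1 : Continuous fun e : Om => g l k (F (k + 1, sh e)) :=
        (g_cont k).comp (F.continuous.comp (continuous_const.prodMk sh_cont))
      exact continuous_const.sub (((continuous_of_discreteTopology (f := sg)).comp
        (continuous_apply 0)).mul (continuous_const.sub h1)))
    π (fun p => by
      have h1 := g_nn (l := l) p.1 (F (p.1 + 1, sh p.2))
      have h2 := g_le (l := l) p.1 (F (p.1 + 1, sh p.2))
      rw [Real.norm_eq_abs, abs_le]
      cases p.2 0 <;> simp only [sg] <;> norm_num <;> constructor <;> linarith [pi_pos])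

lemma Ok.step (k : ℕ) (b : Bool) (s t : ℝ) :
    |π / 2 - sg b * (π / 2 - g l k s) - (π / 2 - sg b * (π / 2 - g l k t))| ≤ 1 / 2 * |s - t| := by
  rw [show π / 2 - sg b * (π / 2 - g l k s) - (π / 2 - sg b * (π / 2 - g l k t)) =
    sg b * (g l k s - g l k t) by ring, abs_mul, sg_abs, one_mul]
  exact h.g_lip' k s t

theorem Ok.exists_ang : ∃ θ, Ang l θ := by
  have hc : ContractingWith (1 / 2) (TT l) := by
    refine ⟨by norm_num, LipschitzWith.of_dist_le_mul fun F G => ?_⟩
    refine (BoundedContinuousFunction.dist_le (by positivity)).2 fun p => ?_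
    refine (h.step p.1 (p.2 0) (F (p.1 + 1, sh p.2)) (G (p.1 + 1, sh p.2))).trans ?_
    have := BoundedContinuousFunction.dist_coe_le_dist (f := F) (g := G) (p.1 + 1, sh p.2)
    rw [Real.dist_eq] at this
    push_cast
    linarith
  set F := hc.fixedPoint (TT l)
  exact ⟨fun k e => F (k, e), fun k => by fun_prop, fun k e =>
    (DFunLike.congr_fun hc.fixedPoint_isFixedPt.eq (k, e)).symm⟩

omit h in
structure Nest (l : ℕ → ℝ) (φ : ℕ → Om → ℝ) : Prop where
  cont : ∀ k, Continuous (φ k)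
  le : ∀ k e, |φ k e| ≤ 2
  nn : ∀ k e, 0 ≤ φ k (cons true e)
  neg : ∀ k e, φ k (cons false e) = -φ k (cons true e)
  sq : ∀ k e, φ k (cons true e) ^ 2 = 4 - 2 * l k + l k * φ (k + 1) e
  surj : ∀ x : ℕ → ℝ, (∀ k, |x k| ≤ 2) → (∀ k, x (k + 1) = f l k (x k)) → ∃ e, φ 0 e = x 0

omit h in
lemma Ang.mem {θ : ℕ → Om → ℝ} (a : Ang l θ) (k : ℕ) (e : Om) : 0 ≤ θ k e ∧ θ k e ≤ π := by
  have h1 := g_nn (l := l) k (θ (k + 1) (sh e))
  have h2 := g_le (l := l) k (θ (k + 1) (sh e))
  rw [a.eq]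
  cases e 0 <;> simp only [sg] <;> norm_num <;> constructor <;> linarith [pi_pos]

theorem Ok.nest {θ : ℕ → Om → ℝ} (a : Ang l θ) : Nest l fun k e => 2 * cos (θ k e) := by
  have e1 : ∀ k e, θ k (cons true e) = g l k (θ (k + 1) e) := fun k e => by
    rw [a.eq]; simp [cons, sg, sh_cons]
  have e2 : ∀ k e, θ k (cons false e) = π - g l k (θ (k + 1) e) := fun k e => by
    rw [a.eq]; simp only [cons, sg, sh_cons]; norm_num; ring
  refine ⟨fun k => by have := a.cont k; fun_prop, fun k e => ?_, fun k e => ?_, fun k e => ?_,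
    fun k e => ?_, fun x h1 h2 => ?_⟩
  · rw [abs_mul, abs_two]; linarith [abs_cos_le_one (θ k e)]
  · rw [e1]; linarith [(h.cos_g k (θ (k + 1) e)).1]
  · rw [e1, e2, cos_pi_sub]; ring
  · rw [e1]; exact (h.cos_g k _).2
  · set α := fun k => arccos (x k / 2) with hα
    have c1 : ∀ k, 2 * cos (α k) = x k := fun k => by
      have := abs_le.1 (h1 k)
      rw [hα, cos_arccos (by linarith) (by linarith)]; ring
    have c2 : ∀ k, α k = π / 2 - sg (decide (0 ≤ x k)) * (π / 2 - g l k (α (k + 1))) := by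
      intro k
      obtain ⟨p1, p2⟩ := h.cos_g k (α (k + 1))
      have hl := (h.pos k).ne'
      rw [c1, h2, f] at p2
      have p3 : cos (g l k (α (k + 1))) = |x k| / 2 := by
        rw [← sq_eq_sq₀ p1 (by positivity), div_pow, sq_abs]
        field_simp at p2
        linarith
      have p4 : arccos (|x k| / 2) = g l k (α (k + 1)) := by
        rw [← p3, arccos_cos (g_nn _ _) ((g_le _ _).trans (by linarith [pi_pos]))]
      rw [← p4]
      by_cases hx : 0 ≤ x k
      · simp [hx, sg, abs_of_nonneg hx, hα]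
      · simp only [hx, sg, abs_of_neg (not_le.1 hx), hα, neg_div, arccos_neg]
        norm_num
        ring
    have c3 : ∀ n k : ℕ, |α k - θ k fun i => decide (0 ≤ x (k + i))| ≤ π * (1 / 2) ^ n := by
      intro n
      induction n with
      | zero =>
        intro k
        have := a.mem k fun i => decide (0 ≤ x (k + i))
        have p1 := arccos_nonneg (x k / 2)
        have p2 := arccos_le_pi (x k / 2)
        rw [pow_zero, mul_one, abs_le]
        constructor <;> linarith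
      | succ n ih =>
        intro k
        rw [a.eq, c2 k]
        refine (h.step k _ _ _).trans ?_
        have : (sh fun i => decide (0 ≤ x (k + i))) = fun i => decide (0 ≤ x (k + 1 + i)) := by
          funext i; simp only [sh]; rw [add_right_comm, add_assoc]
        rw [this, pow_succ]
        linarith [ih (k + 1)]
    refine ⟨fun i => decide (0 ≤ x (0 + i)), ?_⟩
    have t := (tendsto_pow_atTop_nhds_zero_of_lt_one (r := (1 / 2 : ℝ)) (by norm_num)
      (by norm_num)).const_mul π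
    have := ge_of_tendsto' t fun n => c3 n 0
    rw [mul_zero, abs_nonpos_iff, sub_eq_zero] at this
    simp only [← this, c1]

variable {φ : ℕ → Om → ℝ} (s : Nest l φ)
include s

omit h in
lemma Nest.sq' (k : ℕ) (e : Om) : φ k e ^ 2 = 4 - 2 * l k + l k * φ (k + 1) (sh e) := by
  conv_lhs => rw [← cons_sh e]
  cases e 0
  · rw [s.neg, neg_sq, s.sq]
  · rw [s.sq]

lemma Ok.f_φ (k : ℕ) (e : Om) : f l k (φ k e) = φ (k + 1) (sh e) := by
  have := (h.pos k).ne'
  rw [f, s.sq']; field_simp; ring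

lemma Ok.φ_sq (k : ℕ) (e : Om) : 4 * (1 - l k) ≤ φ k e ^ 2 := by
  rw [s.sq']
  nlinarith [h.pos k, (abs_le.1 (s.le (k + 1) (sh e))).1]

lemma Ok.sign (k : ℕ) (e : Om) : (e 0 = true ∧ 0 < φ k e) ∨ (e 0 = false ∧ φ k e < 0) := by
  have h1 := s.nn k (sh e)
  have h2 := s.neg k (sh e)
  have h3 := cons_sh e
  have h5 : φ k e ≠ 0 := fun h0 => by
    have := h.φ_sq s k e
    rw [h0] at this
    linarith [(h k).2]
  cases h4 : e 0 <;> rw [h4] at h3
  · right; rw [h3] at h2; exact ⟨rfl, lt_of_le_of_ne (by linarith) h5⟩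
  · left; rw [h3] at h1; exact ⟨rfl, lt_of_le_of_ne h1 h5.symm⟩

lemma Ok.inj (k : ℕ) : Function.Injective (φ k) := by
  have : ∀ i k x y, φ k x = φ k y → x i = y i := by
    intro i
    induction i with
    | zero =>
      intro k x y e
      rcases h.sign s k x with ⟨a, b⟩ | ⟨a, b⟩ <;> rcases h.sign s k y with ⟨c, d⟩ | ⟨c, d⟩
      · rw [a, c]
      · linarith
      · linarith
      · rw [a, c]
    | succ i ih =>
      intro k x y e
      exact ih (k + 1) (sh x) (sh y) (by rw [← h.f_φ s, ← h.f_φ s, e])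
  exact fun x y e => funext fun i => this i k x y e

omit h in
lemma Nest.diam (k : ℕ) (x y : Om) : |φ k x - φ k y| ≤ 4 := by
  have := abs_sub (φ k x) (φ k y)
  linarith [s.le k x, s.le k y]

end H18Jac
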