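import Pool.Agent.Lib.helper18.Jac3
import Pool.Agent.Lib.helper18.Jac4

open MeasureTheory Set Filter Topology Polynomial H18Cantor
open scoped ENNReal

namespace H18Jac

variable {β : Measure Bool} [IsProbabilityMeasure β]

lemma pot_gen (hβ : ∀ b, β {b} = 2⁻¹) (κ : ℕ → Om → Om → ℝ≥0∞) (L : ℕ → ℝ≥0∞) (C : ℕ)
    (hm : ∀ k x, Measurable (κ k x))
    (hadd : ∀ k x y, κ k x (cons true y) + κ k x (cons false y) = L k + κ (k + 1) (sh x) y)
    (hL : ∀ k, L k ≤ (C * (k + 1) : ℕ))
    (hs : ∀ k x y, κ k x (cons true y) ≤ (C * (k + 1) : ℕ) ∨ κ k x (cons false y) ≤ (C * (k + 1) : ℕ)) :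
    ∃ E : ℝ≥0∞, E ≠ ⊤ ∧ ∀ x, ∫⁻ y, κ 0 x y ∂P β = E := by
  have s1 : ∀ (N k : ℕ) (x : Om), 2 * ∫⁻ y, min (κ k x y) N ∂P β ≤
      (2 * (C * (k + 1)) : ℕ) + ∫⁻ y, min (κ (k + 1) (sh x) y) N ∂P β := by
    intro N k x
    rw [two_mul_lint hβ _ ((hm k x).min measurable_const)]
    have : ((2 * (C * (k + 1)) : ℕ) : ℝ≥0∞) = ∫⁻ _, ((2 * (C * (k + 1)) : ℕ) : ℝ≥0∞) ∂P β := by simp
    rw [this, ← lintegral_add_left measurable_const]
    refine lintegral_mono fun y => ?_
    have e := hadd k x y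
    have key : ∀ a b : ℝ≥0∞, a + b = L k + κ (k + 1) (sh x) y → b ≤ (C * (k + 1) : ℕ) →
        min a N + min b N ≤ (2 * (C * (k + 1)) : ℕ) + min (κ (k + 1) (sh x) y) N := by
      intro a b e hb
      have h1 : a ≤ (C * (k + 1) : ℕ) + κ (k + 1) (sh x) y :=
        le_self_add.trans (e.le.trans (add_le_add (hL k) le_rfl))
      have h2 : min a N ≤ (C * (k + 1) : ℕ) + min (κ (k + 1) (sh x) y) N := by
        rw [← min_add_add_left]
        exact min_le_min h1 le_add_self
      calc min a N + min b N ≤ ((C * (k + 1) : ℕ) + min (κ (k + 1) (sh x) y) N) + (C * (k + 1) : ℕ) :=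
            add_le_add h2 ((min_le_left _ _).trans hb)
        _ = _ := by push_cast; ring
    rcases hs k x y with hb | hb
    · rw [add_comm]
      exact key _ _ (by rw [add_comm, e]) hb
    · exact key _ _ e hb
  have s2 : ∀ (N n k : ℕ) (x : Om), 2 ^ n * ∫⁻ y, min (κ k x y) N ∂P β ≤
      2 ^ n * (2 * (C * (k + 2)) : ℕ) + N := by
    intro N n
    induction n with
    | zero =>
      intro k x
      rw [pow_zero, one_mul]
      refine le_trans (lintegral_mono fun y => min_le_right _ _) ?_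
      simp
    | succ n ih =>
      intro k x
      calc 2 ^ (n + 1) * ∫⁻ y, min (κ k x y) N ∂P β
          = 2 ^ n * (2 * ∫⁻ y, min (κ k x y) N ∂P β) := by ring
        _ ≤ 2 ^ n * ((2 * (C * (k + 1)) : ℕ) + ∫⁻ y, min (κ (k + 1) (sh x) y) N ∂P β) := by
          gcongr; exact s1 N k x
        _ ≤ 2 ^ n * (2 * (C * (k + 1)) : ℕ) + (2 ^ n * (2 * (C * (k + 1 + 2)) : ℕ) + N) := by
          rw [mul_add]; gcongr; exact ih _ _
        _ = _ := by push_cast; ring
  have fin : ∀ k x, ∫⁻ y, κ k x y ∂P β ≤ (2 * (C * (k + 2)) + 1 : ℕ) := by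
    intro k x
    have s3 : ∀ N : ℕ, ∫⁻ y, min (κ k x y) N ∂P β ≤ (2 * (C * (k + 2)) + 1 : ℕ) := by
      intro N
      have hN : (N : ℝ≥0∞) ≤ 2 ^ N := by exact_mod_cast Nat.lt_two_pow_self.le
      refine (ENNReal.mul_le_mul_iff_right (a := 2 ^ N) (by simp) (by simp)).1
        ((s2 N N k x).trans ?_)
      calc _ ≤ 2 ^ N * ((2 * (C * (k + 2)) : ℕ) : ℝ≥0∞) + 2 ^ N := by gcongr
        _ = _ := by push_cast; ring
    have e : ∀ y, κ k x y = ⨆ N : ℕ, min (κ k x y) N := by
      intro y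
      rw [← inf_iSup_eq, ENNReal.iSup_natCast, inf_top_eq]
    rw [lintegral_congr e, lintegral_iSup (fun N => (hm k x).min measurable_const)
      (fun a b hab y => min_le_min le_rfl (by exact_mod_cast hab))]
    exact iSup_le s3
  have ht : ∀ k x, ∫⁻ y, κ k x y ∂P β ≠ ⊤ := fun k x =>
    ne_top_of_le_ne_top (ENNReal.natCast_ne_top _) (fin k x)
  set v : ℕ → Om → ℝ := fun k x => (∫⁻ y, κ k x y ∂P β).toReal with hv
  have t1 : ∀ k x, 2 * v k x = (L k).toReal + v (k + 1) (sh x) := by
    intro k x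
    have := two_mul_lint hβ _ (hm k x)
    simp only [hadd] at this
    rw [lintegral_add_left measurable_const, lintegral_const, measure_univ, mul_one] at this
    have := congrArg ENNReal.toReal this
    rw [ENNReal.toReal_add (ne_top_of_le_ne_top (ENNReal.natCast_ne_top _) (hL k)) (ht _ _),
      ENNReal.toReal_mul] at this
    simpa using this
  have t2 : ∀ k x, 0 ≤ v k x ∧ v k x ≤ 2 * (C * (k + 2)) + 1 := by
    intro k x
    have h1 := ENNReal.toReal_mono (ENNReal.natCast_ne_top _) (fin k x)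
    rw [ENNReal.toReal_natCast] at h1
    push_cast at h1
    exact ⟨ENNReal.toReal_nonneg, h1⟩
  have t3 : ∀ (n k : ℕ) (x y : Om), 2 ^ n * (v k x - v k y) ≤ 2 * (C * (k + n + 2)) + 1 := by
    intro n
    induction n with
    | zero => intro k x y; simp only [pow_zero, Nat.cast_zero]; linarith [t2 k x, t2 k y]
    | succ n ih =>
      intro k x y
      have := ih (k + 1) (sh x) (sh y)
      have e : v (k + 1) (sh x) - v (k + 1) (sh y) = 2 * (v k x - v k y) := by
        linarith [t1 k x, t1 k y]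
      rw [e] at this
      push_cast at this ⊢
      rw [pow_succ]
      linarith
  have t4 : ∀ x y, v 0 x - v 0 y ≤ 0 := by
    intro x y
    have t : Tendsto (fun n : ℕ => 2 * C * ((n : ℝ) ^ 1 / 2 ^ n) + (4 * C + 1) * ((n : ℝ) ^ 0 / 2 ^ n))
        atTop (𝓝 (2 * C * 0 + (4 * C + 1) * 0 : ℝ)) :=
      ((tendsto_pow_const_div_const_pow_of_one_lt 1 one_lt_two).const_mul _).add
        ((tendsto_pow_const_div_const_pow_of_one_lt 0 one_lt_two).const_mul _)
    have := ge_of_tendsto' (b := v 0 x - v 0 y) t fun n => by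
      have := t3 n 0 x y
      rw [← mul_div_assoc, ← mul_div_assoc, ← add_div, le_div_iff₀ (by positivity)]
      push_cast at this
      linarith
    simpa using this
  refine ⟨_, ht 0 fun _ => true, fun x => ?_⟩
  rw [← ENNReal.toReal_eq_toReal_iff' (ht _ _) (ht _ _)]
  exact le_antisymm (sub_nonpos.1 (t4 _ _)) (sub_nonpos.1 (t4 _ _))

variable {φ : ℕ → Om → ℝ} (s : Nest lam φ)
include s

theorem pot (hβ : ∀ b, β {b} = 2⁻¹) {D : ℝ} (hD : 4 ≤ D) :
    ∃ E : ℝ≥0∞, E ≠ ⊤ ∧ ∀ x, ∫⁻ y, H18Widom.k D (φ 0 x) (φ 0 y) ∂P β = E := by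
  obtain ⟨C, hC⟩ := exists_nat_ge (D + 800)
  have hD0 : 0 < D := by linarith
  have lD : Real.log D ≤ D := (Real.log_le_sub_one_of_pos hD0).trans (by linarith)
  refine pot_gen hβ (fun k x y => H18Widom.k D (φ k x) (φ k y))
    (fun k => ENNReal.ofReal (Real.log (D / lam k))) C
    (fun k x => (H18Widom.k_meas1 _ _).comp (s.cont k).measurable) (fun k x y => ?_) (fun k => ?_)
    fun k x y => ?_
  · have h1 := s.sq' k x
    have h2 := s.sq k y
    have h3 := s.neg k y
    have d1 := (s.diam k x (cons true y)).trans hD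
    have d2 := (s.diam k x (cons false y)).trans hD
    have d3 := (s.diam (k + 1) (sh x) y).trans hD
    have hl := ok.pos k
    unfold H18Widom.k
    rw [h3] at d2 ⊢
    set a := φ k x
    set r := φ k (cons true y)
    set u := φ (k + 1) (sh x)
    set v := φ (k + 1) y
    have e : (a - r) * (a - -r) = lam k * (u - v) := by linear_combination h1 - h2
    by_cases huv : u = v
    · rw [if_pos huv, add_top]
      rw [huv, sub_self, mul_zero, mul_eq_zero, sub_eq_zero, sub_eq_zero] at e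
      rcases e with e | e
      · rw [if_pos e, top_add]
      · rw [if_pos e, add_top]
    · have h6 : u - v ≠ 0 := sub_ne_zero.2 huv
      have h7 := mul_ne_zero hl.ne' h6
      rw [← e] at h7
      have h4 := left_ne_zero_of_mul h7
      have h5 := right_ne_zero_of_mul h7
      have l : ∀ {t : ℝ}, t ≠ 0 → |t| ≤ D → 0 ≤ Real.log (D / |t|) := fun ht hD =>
        Real.log_nonneg ((one_le_div (abs_pos.2 ht)).2 hD)
      have l2 : 0 ≤ Real.log (D / lam k) :=
        Real.log_nonneg ((one_le_div hl).2 (by linarith [(ok k).2]))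
      have e2 := congrArg (fun t => Real.log |t|) e
      simp only [abs_mul, abs_of_pos hl] at e2
      rw [Real.log_mul (abs_ne_zero.2 h4) (abs_ne_zero.2 h5),
        Real.log_mul hl.ne' (abs_ne_zero.2 h6)] at e2
      rw [if_neg huv, if_neg (sub_ne_zero.1 h4), if_neg (sub_ne_zero.1 h5),
        ← ENNReal.ofReal_add (l h4 d1) (l h5 d2), ← ENNReal.ofReal_add l2 (l h6 d3),
        Real.log_div hD0.ne' (abs_ne_zero.2 h4), Real.log_div hD0.ne' (abs_ne_zero.2 h5),
        Real.log_div hD0.ne' (abs_ne_zero.2 h6), Real.log_div hD0.ne' hl.ne']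
      congr 1
      linarith
  · rw [← ENNReal.ofReal_natCast]
    refine ENNReal.ofReal_le_ofReal ?_
    have hl := ok.pos k
    have h1 := Real.one_sub_inv_le_log_of_pos hl
    have h2 : (lam k)⁻¹ ≤ 2 := by rw [inv_le_comm₀ hl two_pos]; linarith [(ok k).1]
    rw [Real.log_div hD0.ne' hl.ne']
    push_cast
    nlinarith [(Nat.cast_nonneg k : (0 : ℝ) ≤ k)]
  · have h1 := s.nn k y
    have h3 := s.neg k y
    have h4 : ε (49 * (k + 1)) ≤ φ k (cons true y) := by
      refine (pow_le_pow_iff_left₀ (ε_pos _).le h1 two_ne_zero).1 (le_trans ?_ (ok.φ_sq s k _))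
      rw [sq, ← ε_add, lam, show 49 * (k + 1) + 49 * (k + 1) = 98 * (k + 1) by ring]
      linarith [(δ_bd k).1, ε_pos (98 * (k + 1))]
    have l : ∀ a b : ℝ, ε (49 * (k + 1)) ≤ |a - b| → H18Widom.k D a b ≤ (C * (k + 1) : ℕ) := by
      intro a b hab
      have h0 : 0 < |a - b| := (ε_pos _).trans_le hab
      rw [H18Widom.k, if_neg (sub_ne_zero.1 (abs_pos.1 h0)), ← ENNReal.ofReal_natCast]
      refine ENNReal.ofReal_le_ofReal ?_
      have h5 := Real.log_le_log (ε_pos _) hab
      have h6 := Real.log_le_sub_one_of_pos (x := 16) (by norm_num)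
      rw [ε, Real.log_pow, one_div, Real.log_inv] at h5
      rw [Real.log_div hD0.ne' h0.ne']
      push_cast at h5 ⊢
      nlinarith [(Nat.cast_nonneg k : (0 : ℝ) ≤ k)]
    rcases le_total 0 (φ k x) with b | b
    · exact Or.inr (l _ _ (le_trans (by linarith) (le_abs_self _)))
    · exact Or.inl (l _ _ (le_trans (by linarith) (neg_le_abs _)))

omit s

noncomputable def Q (k : ℕ) : ℕ → ℝ[X]
  | 0 => 1
  | 1 => X
  | n + 2 => X * Q k (n + 1) - C (R lam k (n + 1)) * Q k n

lemma Q_rec (k n : ℕ) (x : ℝ) :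
    x * (Q k n).eval x = (Q k (n + 1)).eval x + R lam k n * (Q k (n - 1)).eval x := by
  cases n with
  | zero => simp [Q, R_zero]
  | succ n => simp [Q]

lemma Q_monic (k n : ℕ) : (Q k n).Monic ∧ (Q k n).natDegree = n := by
  induction n using Nat.twoStepInduction with
  | zero => simp [Q]
  | one => simp [Q, monic_X]
  | more n h1 h2 =>
    have e1 : (X * Q k (n + 1)).natDegree = n + 2 := by
      rw [monic_X.natDegree_mul h2.1, h2.2, natDegree_X]; ring
    have e2 : (C (R lam k (n + 1)) * Q k n).natDegree < (X * Q k (n + 1)).natDegree :=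
      (natDegree_C_mul_le _ _).trans_lt (by rw [h1.2, e1]; omega)
    rw [Q]
    exact ⟨(monic_X.mul h2.1).sub_of_left (degree_lt_degree e2),
      (natDegree_sub_eq_left_of_natDegree_lt e2).trans e1⟩

lemma Q_neg (k n : ℕ) (x : ℝ) : (Q k n).eval (-x) = (-1) ^ n * (Q k n).eval x := by
  induction n using Nat.twoStepInduction with
  | zero => simp [Q]
  | one => simp [Q]
  | more n h1 h2 => simp only [Q, eval_sub, eval_mul, eval_X, eval_C, h1, h2]; ring

lemma Q_even (k m : ℕ) (x : ℝ) :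
    (Q k (2 * m)).eval x = lam k ^ m * (Q (k + 1) m).eval (f lam k x) := by
  have hl := (ok.pos k).ne'
  have hx : x ^ 2 = lam k * f lam k x + (4 - 2 * lam k) := by rw [f]; field_simp; ring
  induction m using Nat.twoStepInduction with
  | zero => simp [Q]
  | one =>
    have := R_odd (l := lam) k 0
    simp only [mul_zero, zero_add, R_zero] at this
    simp only [Q, mul_one, eval_sub, eval_mul, eval_X, eval_C, zero_add, this, pow_one]
    linarith
  | more m h1 h2 =>
    have a1 := Q_rec k (2 * m + 3) x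
    have a2 := Q_rec k (2 * m + 2) x
    have a3 := Q_rec k (2 * m + 1) x
    have a4 := Q_rec (k + 1) (m + 1) (f lam k x)
    have b1 := R_odd (l := lam) k (m + 1)
    have b2 := R_even (l := lam) k m
    rw [eq_div_iff (ok.R_pos _ _).ne'] at b2
    simp only [Nat.add_sub_cancel, show 2 * m + 3 - 1 = 2 * m + 2 from rfl,
      show 2 * m + 2 - 1 = 2 * m + 1 from rfl] at a1 a2 a3 a4
    rw [show 2 * (m + 1) = 2 * m + 2 by ring] at h2 b1
    rw [show 2 * (m + 2) = 2 * m + 3 + 1 by ring]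
    rw [h1] at a3
    rw [h2] at a1 a2 a3
    linear_combination -a1 - x * a2 - R lam k (2 * m + 2) * a3 + lam k ^ (m + 2) * a4 +
      lam k ^ (m + 1) * (Q (k + 1) (m + 1)).eval (f lam k x) * (hx - b1) -
      lam k ^ m * (Q (k + 1) m).eval (f lam k x) * b2

lemma two_mul_int (hβ : ∀ b, β {b} = 2⁻¹) (F : Om → ℝ) (hF : Continuous F) :
    2 * ∫ e, F e ∂P β = ∫ e, (F (cons true e) + F (cons false e)) ∂P β := by
  have i : ∀ {G : Om → ℝ} (μ : Measure Om) [IsFiniteMeasure μ], Continuous G → Integrable G μ :=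
    fun μ _ hG => hG.integrable_of_hasCompactSupport (HasCompactSupport.of_compactSpace _)
  conv_lhs => rw [decomp β]
  rw [integral_add_measure ((i _ hF).smul_measure (measure_ne_top _ _))
    ((i _ hF).smul_measure (measure_ne_top _ _)), integral_smul_measure, integral_smul_measure,
    integral_map (cons_cont _).measurable.aemeasurable hF.aestronglyMeasurable,
    integral_map (cons_cont _).measurable.aemeasurable hF.aestronglyMeasurable, hβ, hβ,
    integral_add (f := fun e => F (cons true e)) (g := fun e => F (cons false e)) (i _ (hF.comp (cons_cont _)))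
      (i _ (hF.comp (cons_cont _)))]
  simp only [ENNReal.toReal_inv, ENNReal.toReal_ofNat, smul_eq_mul]
  ring

include s

lemma mean (hβ : ∀ b, β {b} = 2⁻¹) (n : ℕ) :
    ∀ k, n ≠ 0 → ∫ e, (Q k n).eval (φ k e) ∂P β = 0 := by
  induction n using Nat.strong_induction_on with
  | _ n ih =>
  intro k hn
  have h1 := two_mul_int hβ _ ((Q k n).continuous.comp (s.cont k))
  simp only [Function.comp, s.neg, Q_neg] at h1
  rcases Nat.even_or_odd' n with ⟨m, rfl | rfl⟩
  · have h2 := ih m (by omega) (k + 1) (by omega)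
    simp only [Q_even, ok.f_φ s, sh_cons, pow_mul, neg_one_sq, one_pow, one_mul, ← two_mul,
      integral_const_mul] at h1
    simp only [Q_even, ok.f_φ s, integral_const_mul]
    rw [h2] at h1
    linarith
  · simp only [pow_succ, pow_mul, neg_one_sq, one_pow] at h1
    simpa using h1

noncomputable def I (β : Measure Bool) (φ : ℕ → Om → ℝ) (m n : ℕ) : ℝ :=
  ∫ e, (Q 0 m).eval (φ 0 e) * (Q 0 n).eval (φ 0 e) ∂P β

lemma I_x (m n : ℕ) : ∫ e, φ 0 e * (Q 0 m).eval (φ 0 e) * (Q 0 n).eval (φ 0 e) ∂P β =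
    I β φ (m + 1) n + R lam 0 m * I β φ (m - 1) n := by
  have i : ∀ m n, Integrable (fun e => (Q 0 m).eval (φ 0 e) * (Q 0 n).eval (φ 0 e)) (P β) :=
    fun m n => Continuous.integrable_of_hasCompactSupport (by have := s.cont 0; fun_prop)
      (HasCompactSupport.of_compactSpace _)
  rw [I, I, ← integral_const_mul, ← integral_add (i _ _) ((i _ _).const_mul _)]
  simp only [Q_rec]
  congr 1
  funext e
  ring

lemma I_rec (m n : ℕ) : I β φ (m + 1) n + R lam 0 m * I β φ (m - 1) n =
    I β φ m (n + 1) + R lam 0 n * I β φ m (n - 1) := by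
  have e : ∀ m n, I β φ m n = I β φ n m := fun m n => by simp only [I, mul_comm]
  rw [← I_x s, e m, e m, ← I_x s]
  simp only [mul_right_comm]

lemma I_lt (hβ : ∀ b, β {b} = 2⁻¹) (m : ℕ) : ∀ n, m < n → I β φ m n = 0 := by
  induction m using Nat.strong_induction_on with
  | _ m ih =>
  intro n hn
  cases m with
  | zero => simpa [I, Q] using mean s hβ n 0 (by omega)
  | succ m =>
    have h1 := I_rec (β := β) s m n
    rw [ih m (by omega) _ (by omega), ih m (by omega) _ (by omega), ih (m - 1) (by omega) _ (by omega)]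
      at h1
    simpa using h1

lemma I_ne (hβ : ∀ b, β {b} = 2⁻¹) {m n : ℕ} (h : m ≠ n) : I β φ m n = 0 := by
  rcases lt_or_gt_of_ne h with h | h
  · exact I_lt s hβ m n h
  · rw [← I_lt s hβ n m h]; simp only [I, mul_comm]

lemma I_succ (hβ : ∀ b, β {b} = 2⁻¹) (n : ℕ) :
    I β φ (n + 1) (n + 1) = R lam 0 (n + 1) * I β φ n n := by
  have h1 := I_rec (β := β) s n (n + 1)
  rw [I_lt s hβ (n - 1) _ (by omega), I_lt s hβ n _ (by omega)] at h1
  simpa using h1

lemma I_pos (hβ : ∀ b, β {b} = 2⁻¹) (n : ℕ) : 0 < I β φ n n := by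
  induction n with
  | zero => simp [I, Q]
  | succ n ih => rw [I_succ s hβ]; exact mul_pos (ok.R_pos _ _) ih

end H18Jac
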