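import Pool.Agent.Lib.helper18.Jac5

open MeasureTheory Set Filter Topology Polynomial H18Cantor
open scoped ENNReal

namespace H18Jac

noncomputable def orb (x : ℝ) : ℕ → ℝ
  | 0 => x
  | k + 1 => f lam k (orb x k)

noncomputable def fair : Measure Bool := bern 2⁻¹ 2⁻¹

instance : IsProbabilityMeasure fair := bern_prob ENNReal.inv_two_add_inv_two

lemma fair_eq (b : Bool) : fair {b} = 2⁻¹ := by
  cases b
  · exact bern_false _ _
  · exact bern_true _ _

lemma exists_nest : ∃ φ, Nest lam φ := by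
  obtain ⟨θ, a⟩ := ok.exists_ang
  exact ⟨_, ok.nest a⟩

variable {φ : ℕ → Om → ℝ} (s : Nest lam φ)
include s

lemma mem_iff (x : ℝ) : x ∈ range (φ 0) ↔ ∀ k, |orb x (k + 1)| ≤ 2 := by
  constructor
  · rintro ⟨e, rfl⟩ k
    have : ∀ k, orb (φ 0 e) k = φ k (sh^[k] e) := by
      intro k
      induction k with
      | zero => rfl
      | succ k ih => rw [orb, ih, ok.f_φ s, Function.iterate_succ_apply']
    rw [this]
    exact s.le _ _
  · intro h
    refine s.surj (orb x) (fun k => ?_) fun k => rfl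
    cases k with
    | succ k => exact h k
    | zero =>
      have h1 := (abs_le.1 (h 0)).2
      rw [orb, f, add_le_iff_nonpos_left, div_nonpos_iff] at h1
      have := ok.pos 0
      refine abs_le_of_sq_le_sq' ?_ two_pos.le |> abs_le.2
      rcases h1 with h1 | h1 <;> linarith [h1.1, h1.2]

lemma emb {X : Type*} [TopologicalSpace X] [T2Space X] [MeasurableSpace X] [BorelSpace X]
    {j : ℝ → X} (hj : Continuous j) (hi : Function.Injective j) :
    MeasurableEmbedding fun e => j (φ 0 e) :=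
  ((hj.comp (s.cont 0)).isClosedEmbedding (hi.comp (ok.inj s 0))).measurableEmbedding

noncomputable def q (φ : ℕ → Om → ℝ) (n : ℕ) : ℝ[X] := C (√(I fair φ n n))⁻¹ * Q 0 n

lemma q_deg (n : ℕ) : (q φ n).natDegree = n ∧ 0 < (q φ n).leadingCoeff := by
  have h := Real.sqrt_pos.2 (I_pos s fair_eq n)
  rw [q, natDegree_C_mul (inv_pos.2 h).ne', leadingCoeff_mul, leadingCoeff_C, (Q_monic 0 n).1, mul_one]
  exact ⟨(Q_monic 0 n).2, inv_pos.2 h⟩

lemma q_orth (m n : ℕ) :
    ∫ e, (q φ m).eval (φ 0 e) * (q φ n).eval (φ 0 e) ∂P fair = if m = n then 1 else 0 := by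
  simp only [q, eval_mul, eval_C, mul_mul_mul_comm _ ((Q 0 m).eval _), integral_const_mul]
  change _ * I fair φ m n = _
  split_ifs with h
  · have := I_pos s fair_eq n
    rw [h, ← mul_inv, Real.mul_self_sqrt this.le, inv_mul_cancel₀ this.ne']
  · rw [I_ne s fair_eq h, mul_zero]

lemma q_x (n : ℕ) : ∫ e, φ 0 e * (q φ n).eval (φ 0 e) * (q φ (n + 1)).eval (φ 0 e) ∂P fair =
    √(R lam 0 (n + 1)) := by
  have e : ∀ e, φ 0 e * (q φ n).eval (φ 0 e) * (q φ (n + 1)).eval (φ 0 e) =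
      ((√(I fair φ n n))⁻¹ * (√(I fair φ (n + 1) (n + 1)))⁻¹) *
        (φ 0 e * (Q 0 n).eval (φ 0 e) * (Q 0 (n + 1)).eval (φ 0 e)) := fun e => by
    simp only [q, eval_mul, eval_C]; ring
  have h1 := I_pos s fair_eq n
  have h2 := ok.R_pos n 0
  have h3 := Real.sqrt_pos.2 h1
  have h4 := Real.sqrt_pos.2 h2
  simp only [e]
  rw [integral_const_mul, I_x s, I_lt s fair_eq (n - 1) _ (by omega), I_succ s fair_eq,
    Real.sqrt_mul h2.le]
  conv_lhs => enter [2, 1]; rw [← Real.mul_self_sqrt h1.le, ← Real.mul_self_sqrt h2.le]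
  field_simp
  ring

end H18Jac
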