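import Pool.Agent.Lib.helper18.Jac6

open MeasureTheory Set Filter Topology H18Cantor
open scoped ENNReal NNReal

namespace H18Jac

lemma vol_lip {F : ℝ → ℝ} {c : ℝ} (hc : 0 ≤ c) (h : ∀ s t, |F s - F t| ≤ c * |s - t|) (S : Set ℝ) :
    volume (F '' S) ≤ ENNReal.ofReal c * volume S := by
  have : LipschitzWith (Real.toNNReal c) F := LipschitzWith.of_dist_le' h
  have := this.hausdorffMeasure_image_le zero_le_one S
  rwa [hausdorffMeasure_real, ENNReal.rpow_one] at this

lemma null_ang {θ : ℕ → Om → ℝ} (a : Ang lam θ) : volume (range (θ 0)) = 0 := by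
  have s1 : ∀ k, volume (range (θ k)) ≤ ENNReal.ofReal √(lam k) * volume (range (θ (k + 1))) := by
    intro k
    have hs : range (θ k) ⊆ g lam k '' range (θ (k + 1)) ∪
        (fun t => Real.pi - g lam k t) '' range (θ (k + 1)) := by
      rintro _ ⟨e, rfl⟩
      rw [a.eq]
      cases e 0
      · exact Or.inr ⟨_, ⟨sh e, rfl⟩, by simp only [sg]; norm_num; ring⟩
      · exact Or.inl ⟨_, ⟨sh e, rfl⟩, by simp [sg]⟩
    refine (measure_mono hs).trans ((measure_union_le _ _).trans ?_)
    refine (add_le_add (vol_lip (by positivity) (ok.g_lip k) _)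
      (vol_lip (c := √(lam k) / 2) (by positivity) (fun s t => ?_) _)).trans (le_of_eq ?_)
    · rw [sub_sub_sub_cancel_left, abs_sub_comm]; exact ok.g_lip k s t
    · rw [← add_mul, ← ENNReal.ofReal_add (by positivity) (by positivity), add_halves]
  have s2 : Monotone fun k => volume (range (θ k)) := monotone_nat_of_le_succ fun k =>
    (s1 k).trans (mul_le_of_le_one_left bot_le
      (ENNReal.ofReal_le_one.2 (Real.sqrt_le_one.2 (ok k).2.le)))
  have s3 : ∀ i, volume (range (θ 0)) ≤ ENNReal.ofReal (3 / 4) ^ i * volume (range (θ (12 * 32 ^ i))) := by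
    intro i
    induction i with
    | zero => simpa using s2 (Nat.zero_le 12)
    | succ i ih =>
      have := p32 i
      refine ih.trans ?_
      rw [pow_succ, mul_assoc]
      gcongr
      refine (s1 _).trans (mul_le_mul' (ENNReal.ofReal_le_ofReal ?_) (s2 (by rw [pow_succ]; omega)))
      rw [(gen i).B _ (by omega) (by omega)]
      exact Real.sqrt_le_iff.2 ⟨by norm_num, by norm_num⟩
  have s4 : ∀ k, volume (range (θ k)) ≤ ENNReal.ofReal Real.pi := fun k => by
    refine (measure_mono (t := Icc 0 Real.pi) ?_).trans (by simp)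
    rintro _ ⟨e, rfl⟩
    exact a.mem k e
  have t := ENNReal.Tendsto.mul_const (b := ENNReal.ofReal Real.pi)
    (ENNReal.tendsto_pow_atTop_nhds_zero_of_lt_one (r := ENNReal.ofReal (3 / 4))
      (ENNReal.ofReal_lt_one.2 (by norm_num))) (Or.inr ENNReal.ofReal_ne_top)
  rw [zero_mul] at t
  exact le_antisymm (ge_of_tendsto' t fun i => (s3 i).trans (mul_le_mul_right (s4 _) _)) bot_le

lemma exists_null : ∃ φ, Nest lam φ ∧ volume (range fun e => φ 0 e / 8) = 0 := by
  obtain ⟨θ, a⟩ := ok.exists_ang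
  refine ⟨_, ok.nest a, ?_⟩
  have := vol_lip (F := fun t => 2 * Real.cos t / 8) zero_le_one (fun s t => by
    have := Real.abs_cos_sub_cos_le s t
    rw [← sub_div, ← mul_sub, abs_div, abs_mul, abs_two, abs_of_pos (show (0 : ℝ) < 8 by norm_num)]
    linarith [abs_nonneg (s - t)]) (range (θ 0))
  rw [null_ang a, mul_zero, ← range_comp] at this
  exact le_antisymm this bot_le

lemma regular {μ : Measure ℝ} {E : ℝ≥0∞} (hU : ∀ x, H18Widom.U 1 μ x ≤ E) {x : ℝ}
    (hx : H18Widom.U 1 μ x = E) :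
    Tendsto (fun z : ℂ => ∫⁻ y : ℝ, H18Widom.k 1 ‖z - y‖ 0 ∂μ) (𝓝 x) (𝓝 E) := by
  have hm : ∀ z : ℂ, Measurable fun y : ℝ => H18Widom.k 1 ‖z - y‖ 0 := fun z =>
    (H18Widom.k_meas 1).comp (f := fun y : ℝ => (‖z - y‖, (0 : ℝ))) (by fun_prop)
  have hk : ∀ a y : ℝ, H18Widom.k 1 |a - y| 0 = H18Widom.k 1 a y := fun a y => by
    simp [H18Widom.k, sub_eq_zero]
  have h1 : ∀ z : ℂ, ∫⁻ y : ℝ, H18Widom.k 1 ‖z - y‖ 0 ∂μ ≤ E := by
    intro z
    refine le_trans (lintegral_mono fun y => ?_) (hU z.re)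
    rw [← hk z.re y]
    have e : |z.re - y| ≤ ‖z - y‖ := by simpa using Complex.abs_re_le_norm (z - y)
    by_cases h : ‖z - y‖ = 0
    · rw [h] at e ⊢
      rw [abs_nonpos_iff.1 e, abs_zero]
    · exact H18Widom.k_mono one_pos (by simpa using e) h
  rw [tendsto_iff_seq_tendsto]
  intro u hu
  refine tendsto_of_le_liminf_of_limsup_le ?_ (limsup_le_of_le (h := .of_forall fun n => h1 _))
  refine le_trans (le_of_eq ?_) (lintegral_liminf_le fun n => hm (u n))
  rw [← hx, H18Widom.U]
  refine lintegral_congr fun y => ?_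
  have : Tendsto (fun n => ‖u n - y‖) atTop (𝓝 |x - y|) := by
    have := (hu.sub_const (y : ℂ)).norm
    rwa [← Complex.ofReal_sub, Complex.norm_real] at this
  rw [← hk]
  exact ((H18Widom.k_tendsto one_pos _ 0).comp this).liminf_eq.symm

end H18Jac
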