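import Mathlib

set_option autoImplicit false

open Set
open scoped InnerProductSpace Pointwise

namespace H18Kak

abbrev E3 := EuclideanSpace ℝ (Fin 3)

noncomputable def w : Fin 3 → E3 :=
  ![!₂[1, 0, 0], !₂[-1 / 2, √3 / 2, 0], !₂[-1 / 2, -(√3 / 2), 0]]

noncomputable def ep (n : ℕ) : ℝ := (1 / 8000) ^ (n + 1)

noncomputable def aa (n : ℕ) : ℝ := (6 * ep n + √(4 - 3 * (6 * ep n) ^ 2)) / 2

noncomputable def ee (n : ℕ) (i j : Fin 3) : E3 := aa n • w i + (6 * ep n) • w j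

def D : Set E3 := {p | ‖p‖ ≤ 1 ∧ ∀ n i j, i ≠ j → ⟪p, ee n i j⟫_ℝ ≤ 1 - ep n ^ 2 / 2}

def S : Set E3 := D + (1 / 10 ^ 6 : ℝ) • convexHull ℝ (range w)

def K : Set E3 := {y | ‖y‖ ≤ 20 ∧ (∀ i, ⟪y, w i⟫_ℝ ≤ 1 + 1 / 10 ^ 6) ∧ ∀ n i j, i ≠ j →
  ⟪y, ee n i j⟫_ℝ ≤ 1 + 1 / 10 ^ 6 + ep n ^ 2 / 2000 * ((-1) ^ n * y 2 - 4)}

lemma ww (i j : Fin 3) : ⟪w i, w j⟫_ℝ = if i = j then 1 else -1 / 2 := by
  have := Real.sq_sqrt (show (0 : ℝ) ≤ 3 by norm_num)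
  rw [PiLp.inner_apply, Fin.sum_univ_three]
  fin_cases i <;> fin_cases j <;> simp [w, abs_of_nonneg (Real.sqrt_nonneg 3)] <;> nlinarith

lemma w2 (i : Fin 3) : w i 2 = 0 := by fin_cases i <;> simp [w]

lemma wsum (i : Fin 3) : w i = -w (i + 1) - w (i + 2) := by
  ext k
  fin_cases i <;> fin_cases k <;> simp [w] <;> norm_num

lemma wn (i : Fin 3) : ‖w i‖ = 1 := by
  have := ww i i
  rw [real_inner_self_eq_norm_sq, if_pos rfl] at this
  nlinarith [norm_nonneg (w i)]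

lemma wd {i j : Fin 3} (h : i ≠ j) : 1 ≤ ‖w i - w j‖ := by
  have := norm_sub_sq_real (w i) (w j)
  rw [ww, if_neg h, wn, wn] at this
  nlinarith [norm_nonneg (w i - w j)]

lemma ep0 (n : ℕ) : 0 < ep n := by unfold ep; positivity

lemma eps (n : ℕ) : ep (n + 1) = ep n / 8000 := by unfold ep; ring

lemma epm {m n : ℕ} (h : m ≤ n) : ep n ≤ ep m :=
  pow_le_pow_of_le_one (by norm_num) (by norm_num) (by omega)

lemma ep1 (n : ℕ) : ep n ≤ 1 / 8000 := (epm n.zero_le).trans (by simp [ep])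

lemma aq (n : ℕ) : aa n ^ 2 - aa n * (6 * ep n) + (6 * ep n) ^ 2 = 1 ∧ 1 ≤ aa n ∧
    aa n ≤ 1 + 3 * ep n := by
  have h0 := ep0 n
  have h1 := ep1 n
  have h := Real.sq_sqrt (show (0 : ℝ) ≤ 4 - 3 * (6 * ep n) ^ 2 by nlinarith)
  have h2 : 2 - 6 * ep n ≤ √(4 - 3 * (6 * ep n) ^ 2) := Real.le_sqrt_of_sq_le (by nlinarith)
  have h3 : √(4 - 3 * (6 * ep n) ^ 2) ≤ 2 := Real.sqrt_le_iff.2 ⟨by norm_num, by nlinarith⟩
  unfold aa
  exact ⟨by nlinarith, by linarith, by linarith⟩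

lemma en (n : ℕ) {i j : Fin 3} (h : i ≠ j) : ‖ee n i j‖ = 1 := by
  have := norm_add_sq_real (aa n • w i) ((6 * ep n) • w j)
  rw [real_inner_smul_left, real_inner_smul_right, ww, if_neg h, norm_smul, norm_smul, wn, wn,
    Real.norm_eq_abs, Real.norm_eq_abs, mul_one, mul_one, sq_abs, sq_abs] at this
  have h2 : ‖ee n i j‖ ^ 2 = 1 := by rw [ee, this]; linarith [(aq n).1]
  nlinarith [norm_nonneg (ee n i j)]

lemma cmb {a b : ℝ} (ha : 0 ≤ a) (hb : 0 ≤ b) (u v : E3) :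
    ‖a • u + b • v‖ ≤ a * ‖u‖ + b * ‖v‖ ∧ a * ‖u‖ - b * ‖v‖ ≤ ‖a • u + b • v‖ ∧
      b * ‖v‖ - a * ‖u‖ ≤ ‖a • u + b • v‖ := by
  have h1 := norm_add_le (a • u) (b • v)
  have h2 := norm_sub_le (a • u + b • v) (b • v)
  have h3 := norm_sub_le (a • u + b • v) (a • u)
  simp only [add_sub_cancel_right, add_sub_cancel_left, norm_smul, Real.norm_eq_abs,
    abs_of_nonneg ha, abs_of_nonneg hb] at *
  exact ⟨h1, by linarith, by linarith⟩

lemma ew (n : ℕ) (i j : Fin 3) : 3 * ep n ≤ ‖ee n i j - w i‖ ∧ ‖ee n i j - w i‖ ≤ 9 * ep n := by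
  obtain ⟨-, h1, h2⟩ := aq n
  have := cmb (sub_nonneg.2 h1) (by linarith [ep0 n] : 0 ≤ 6 * ep n) (w i) (w j)
  rw [wn, wn, show (aa n - 1) • w i + (6 * ep n) • w j = ee n i j - w i by unfold ee; module] at this
  exact ⟨by linarith [this.2.2], by linarith [this.1]⟩

lemma inn {u v : E3} (hu : ‖u‖ = 1) (hv : ‖v‖ = 1) : ⟪u, v⟫_ℝ = 1 - ‖u - v‖ ^ 2 / 2 := by
  rw [norm_sub_sq_real, hu, hv]
  ring

lemma key {P f e : E3} (hP : ‖P‖ ≤ 1) (hf : ‖f‖ = 1) (he : ‖e‖ = 1) {t c : ℝ} (ht : 0 ≤ t)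
    (hc : 0 ≤ c) (h : 2 * t * c = 1) :
    ⟪P, e⟫_ℝ ≤ 1 - (1 - t) * (1 - ⟪P, f⟫_ℝ) + c * ‖e - f‖ ^ 2 := by
  have h1 := real_inner_le_norm (P - f) (e - f)
  have h2 := norm_sub_sq_real P f
  have h3 := real_inner_le_norm f e
  have h4 := mul_nonneg hc (sq_nonneg (t * ‖P - f‖ - ‖e - f‖))
  have h5 : ‖P - f‖ ^ 2 ≤ 2 * (1 - ⟪P, f⟫_ℝ) := by rw [h2, hf]; nlinarith [norm_nonneg P]
  have h6 : c * (t * ‖P - f‖ - ‖e - f‖) ^ 2 = (2 * t * c) * (t / 2 * ‖P - f‖ ^ 2 - ‖P - f‖ * ‖e - f‖)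
    + c * ‖e - f‖ ^ 2 := by ring
  rw [inner_sub_left, inner_sub_right, inner_sub_right, real_inner_self_eq_norm_sq, hf] at h1
  rw [hf, he] at h3
  rw [h6, h] at h4
  nlinarith [mul_le_mul_of_nonneg_left h5 ht]

lemma memD {u : E3} (hu : ‖u‖ = 1) (n : ℕ) (k : Fin 3) (h1 : ‖u - w k‖ ≤ 12 * ep n)
    (h2 : ∀ j, k ≠ j → ep n ≤ ‖u - ee n k j‖) : (1 - ep (n + 1) ^ 2 / 2) • u ∈ D := by
  have c0 : ∀ m, 0 ≤ 1 - ep m ^ 2 / 2 := fun m => by nlinarith [ep0 m, ep1 m]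
  refine ⟨by
    rw [norm_smul, hu, Real.norm_of_nonneg (c0 _)]
    nlinarith, fun m i j hij => ?_⟩
  rw [real_inner_smul_left, inn hu (en m hij)]
  rcases lt_or_ge n m with h | h
  · have := epm (show n + 1 ≤ m from h)
    nlinarith [mul_nonneg (c0 (n + 1)) (sq_nonneg ‖u - ee m i j‖), ep0 m]
  have f : ep m ≤ ‖u - ee m i j‖ := by
    have e := ew m i j
    by_cases hk : k = i
    · subst hk
      rcases h.eq_or_lt with rfl | h
      · exact h2 j hij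
      have := norm_sub_le_norm_sub_add_norm_sub (ee m k j) u (w k)
      have h3 := epm (show m + 1 ≤ n from h)
      rw [eps] at h3
      rw [norm_sub_rev] at this
      rw [norm_sub_rev] at e
      rw [norm_sub_rev (ee m k j)] at this
      linarith [ep0 m]
    · have a := norm_sub_le_norm_sub_add_norm_sub (w k) u (w i)
      have b := norm_sub_le_norm_sub_add_norm_sub u (ee m i j) (w i)
      rw [norm_sub_rev (w k) u] at a
      linarith [wd hk, ep1 n, ep1 m]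
  have g : 1 - ‖u - ee m i j‖ ^ 2 / 2 ≤ 1 - ep m ^ 2 / 2 := by nlinarith [ep0 m]
  nlinarith [mul_le_mul_of_nonneg_left g (c0 (n + 1)), mul_nonneg (c0 m) (sq_nonneg (ep (n + 1)))]

lemma co (v : E3) : |v 2| ≤ ‖v‖ := PiLp.norm_apply_le v 2

lemma force (L : E3 ≃ₗᵢ[ℝ] E3) (x : E3) (n : ℕ) (h1 : ∀ k, ‖L (w k) - w k‖ ≤ 2 * ep n) (i : Fin 3)
    (h2 : 2 * ep n ≤ ‖L (w i) - w i‖) (hK : ∀ s ∈ S, L s + x ∈ K) : 1 ≤ (-1) ^ n * x 2 := by
  have p0 := ep0 n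
  have p1 := ep1 n
  obtain ⟨-, a1, a2⟩ := aq n
  have sy : ∀ u v : E3, ‖L.symm u - v‖ = ‖u - L v‖ := fun u v => by
    rw [← L.norm_map, map_sub, L.apply_symm_apply]
  have mk : ∀ (u : E3) (k : Fin 3), ‖u‖ = 1 → ‖u - L (w k)‖ ≤ 12 * ep n →
      (∀ j, k ≠ j → ep n ≤ ‖u - L (ee n k j)‖) →
      (1 - ep (n + 1) ^ 2 / 2) • u + (1 / 10 ^ 6 : ℝ) • L (w k) + x ∈ K := fun u k hu h3 h4 => by
    simpa using hK _ (add_mem_add (memD (u := L.symm u) (by simpa using hu) n k (by rwa [sy])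
      (by simpa only [sy] using h4)) (smul_mem_smul_set (subset_convexHull ℝ _ ⟨k, rfl⟩)))
  have lw : ∀ k, ‖L (w k)‖ = 1 := fun k => by rw [L.norm_map, wn]
  have nu : ∀ k, ⟪x, w k⟫_ℝ ≤ ep n ^ 2 * (3 / 10 ^ 6) := fun k => by
    have := (mk (w k) k (wn k) (by rw [norm_sub_rev]; linarith [h1 k]) fun j _ => by
      have a := norm_sub_le_norm_sub_add_norm_sub (L (w k)) (w k) (L (ee n k j))
      rw [← map_sub, L.norm_map, norm_sub_rev] at a
      linarith [(ew n k j).1, h1 k]).2.1 k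
    rw [inner_add_left, inner_add_left, real_inner_smul_left, real_inner_smul_left, ww, if_pos rfl,
      inn (lw k) (wn k), eps] at this
    nlinarith [pow_le_pow_left₀ (norm_nonneg _) (h1 k) 2]
  have hij : i ≠ i + 1 := by fin_cases i <;> simp
  have cb := cmb (by linarith : 0 ≤ aa n) (by linarith : 0 ≤ 6 * ep n) (L (w i) - w i)
    (L (w (i + 1)) - w (i + 1))
  rw [show aa n • (L (w i) - w i) + (6 * ep n) • (L (w (i + 1)) - w (i + 1)) =
    -(ee n i (i + 1) - L (ee n i (i + 1))) by simp only [ee, map_add, map_smul]; module, norm_neg] at cb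
  have c1 : ‖ee n i (i + 1) - L (ee n i (i + 1))‖ ≤ 3 * ep n := by
    nlinarith [h1 i, h1 (i + 1), cb.1]
  have c2 : ‖ee n i (i + 1) - L (w i)‖ ≤ 11 * ep n := by
    have a := norm_sub_le_norm_sub_add_norm_sub (ee n i (i + 1)) (w i) (L (w i))
    rw [norm_sub_rev (w i)] at a
    linarith [(ew n i (i + 1)).2, h1 i]
  have := (mk (ee n i (i + 1)) i (en n hij) (by linarith) fun j hj => by
    by_cases h : i + 1 = j
    · subst h
      nlinarith [h1 (i + 1), cb.2.1]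
    have a := norm_sub_le_norm_sub_add_norm_sub (L (ee n i (i + 1))) (ee n i (i + 1)) (L (ee n i j))
    rw [← map_sub, L.norm_map, norm_sub_rev (L _), show ee n i (i + 1) - ee n i j =
      (6 * ep n) • (w (i + 1) - w j) by unfold ee; module, norm_smul,
      Real.norm_of_nonneg (by linarith)] at a
    nlinarith [wd h]).2.2 n i (i + 1) hij
  have x1 : ⟪x, ee n i (i + 1)⟫_ℝ = -(aa n - 6 * ep n) * ⟪x, w (i + 1)⟫_ℝ - aa n * ⟪x, w (i + 2)⟫_ℝ := by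
    rw [ee, wsum i]
    simp only [inner_add_right, inner_sub_right, inner_neg_right, real_inner_smul_right]
    ring
  have x2 : -(ep n ^ 2 * (9 / 10 ^ 6)) ≤ ⟪x, ee n i (i + 1)⟫_ℝ := by
    rw [x1]
    nlinarith [mul_le_mul_of_nonneg_left (nu (i + 1)) (by linarith : 0 ≤ aa n - 6 * ep n),
      mul_le_mul_of_nonneg_left (nu (i + 2)) (by linarith : 0 ≤ aa n), sq_nonneg (ep n)]
  have z : ee n i (i + 1) 2 = 0 := by simp [ee, w2]
  have q := co (L (w i))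
  rw [inner_add_left, inner_add_left, real_inner_smul_left, real_inner_smul_left,
    real_inner_self_eq_norm_sq, en n hij, inn (lw i) (en n hij), norm_sub_rev, eps] at this
  simp only [PiLp.add_apply, PiLp.smul_apply, z, smul_eq_mul] at this
  rw [lw] at q
  have q2 : (-1) ^ n * L (w i) 2 ≤ 1 := (le_abs_self _).trans (by simpa [abs_mul] using q)
  by_contra! hh
  nlinarith [pow_le_pow_left₀ (norm_nonneg _) c2 2, mul_pos (pow_pos p0 2) (sub_pos.2 hh),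
    mul_nonneg (sq_nonneg (ep n)) (sub_nonneg.2 q2), pow_pos p0 2]

lemma fit (L : E3 ≃ₗᵢ[ℝ] E3) : ∃ x, ∀ s ∈ S, L s + x ∈ K := by
  have lw : ∀ k, ‖L (w k)‖ = 1 := fun k => by rw [L.norm_map, wn]
  choose J hJ using fun i => Finite.exists_max fun j => ⟪L (w j), w i⟫_ℝ
  obtain ⟨g, hg⟩ : ∃ g : Fin 3 → ℝ, ∀ i, g i = ‖L (w (J i)) - w i‖ ^ 2 / 2 := ⟨_, fun _ => rfl⟩
  have g0 : ∀ i, 0 ≤ g i := fun i => by rw [hg]; positivity
  have g2 : ∀ i, g i ≤ 2 := fun i => by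
    have := norm_sub_le (L (w (J i))) (w i)
    rw [lw, wn] at this
    rw [hg]
    nlinarith [norm_nonneg (L (w (J i)) - w i)]
  obtain ⟨G, hG⟩ : ∃ G, G = g 0 + g 1 + g 2 := ⟨_, rfl⟩
  have gG : ∀ i, g i ≤ G := fun i => by
    fin_cases i <;> simp [hG] <;> linarith [g0 0, g0 1, g0 2]
  have G0 : 0 ≤ G := (g0 0).trans (gG 0)
  have G6 : G ≤ 6 := by linarith [g2 0, g2 1, g2 2]
  obtain ⟨z, z1, z2, z3⟩ : ∃ z : E3, ‖z‖ ≤ G ∧ z 2 = 0 ∧ ∀ i, ⟪z, w i⟫_ℝ = g i - G / 3 := by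
    refine ⟨(2 / 3 * g 0) • w 0 + (2 / 3 * g 1) • w 1 + (2 / 3 * g 2) • w 2,
      (norm_add₃_le).trans ?_, by simp [w2], fun i => ?_⟩
    · simp only [norm_smul, wn, Real.norm_eq_abs, abs_mul, abs_of_nonneg (g0 _)]
      norm_num
      linarith
    simp only [inner_add_left, real_inner_smul_left, ww]
    fin_cases i <;> simp [hG] <;> ring
  obtain ⟨s, s1, s2⟩ : ∃ s : ℝ, |s| = 7 ∧ ∀ n, ep n ^ 2 / 64 < G → G < ep n ^ 2 * 10 ^ 6 →
      (-1) ^ n * s = 7 := by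
    by_cases h : ∃ n, ep n ^ 2 / 64 < G ∧ G < ep n ^ 2 * 10 ^ 6
    · obtain ⟨n, h1, h2⟩ := h
      have u : ∀ m k, m < k → ep m ^ 2 / 64 < G → G < ep k ^ 2 * 10 ^ 6 → False := fun m k h a b => by
        have := pow_le_pow_left₀ (ep0 k).le (epm (show m + 1 ≤ k from h)) 2
        rw [eps] at this
        nlinarith
      refine ⟨(-1) ^ n * 7, by simp [abs_mul], fun m a b => ?_⟩
      obtain rfl : m = n := le_antisymm (not_lt.1 fun h => u n m h h1 b) (not_lt.1 fun h => u m n h a h2)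
      rw [← mul_assoc, ← mul_pow]
      simp
    exact ⟨7, by simp, fun n a b => (h ⟨n, a, b⟩).elim⟩
  refine ⟨(1 / 10 ^ 6 : ℝ) • z + EuclideanSpace.single 2 s, ?_⟩
  rintro _ ⟨p, ⟨hp, hp'⟩, _, ⟨τ, hτ, rfl⟩, rfl⟩
  have t1 : ‖L τ‖ ≤ 1 := by
    rw [L.norm_map]
    exact mem_closedBall_zero_iff.1 (convexHull_min (by
      rintro _ ⟨i, rfl⟩
      simp [wn]) (convex_closedBall 0 1) hτ)
  have t2 : ∀ i, ⟪L τ, w i⟫_ℝ ≤ 1 - g i := fun i =>
    convexHull_min (t := {τ | ⟪L τ, w i⟫_ℝ ≤ 1 - g i}) (by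
      rintro _ ⟨j, rfl⟩
      exact (hJ i j).trans_eq (by rw [inn (lw _) (wn _), hg])) (convex_halfSpace_le
      ⟨fun a b => by simp [inner_add_left], fun a b => by simp [inner_smul_left]⟩ _) hτ
  have lp : ‖L p‖ ≤ 1 := by rwa [L.norm_map]
  have ex : ∀ v : E3, v 2 = 0 → ⟪L (p + (1 / 10 ^ 6 : ℝ) • τ) + ((1 / 10 ^ 6 : ℝ) • z +
      EuclideanSpace.single 2 s), v⟫_ℝ = ⟪L p, v⟫_ℝ + 1 / 10 ^ 6 * (⟪L τ, v⟫_ℝ + ⟪z, v⟫_ℝ) :=
    fun v hv => by
      simp only [map_add, map_smul, inner_add_left, real_inner_smul_left,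
        EuclideanSpace.inner_single_left, hv]
      simp
      ring
  refine ⟨?_, fun i => ?_, fun n i j hij => ?_⟩
  · simp only [map_add, map_smul]
    refine (norm_add_le_of_le (norm_add_le _ _) (norm_add_le _ _)).trans ?_
    simp only [norm_smul, EuclideanSpace.norm_single, Real.norm_eq_abs, s1]
    norm_num at t1 ⊢
    linarith
  · have := real_inner_le_norm (L p) (w i)
    simp only
    rw [ex _ (w2 i), z3]
    rw [wn] at this
    linarith [t2 i]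
  have p0 := ep0 n
  have p1 := ep1 n
  have pp := pow_pos p0 2
  obtain ⟨-, a1, a2⟩ := aq n
  have e1 := (ew n i j).2
  have b1 := key t1 (wn i) (en n hij) (t := 1 / 12) (c := 6) (by norm_num) (by norm_num) (by norm_num)
  have b2 := real_inner_le_norm z (ee n i j - w i)
  rw [inner_sub_right, z3] at b2
  have b3 : ⟪L τ, ee n i j⟫_ℝ + ⟪z, ee n i j⟫_ℝ ≤ 1 - G / 6 + 486 * ep n ^ 2 := by
    nlinarith [mul_le_mul z1 e1 (norm_nonneg _) G0, pow_le_pow_left₀ (norm_nonneg _) e1 2, t2 i, gG i,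
      mul_le_mul_of_nonneg_left p1 G0]
  have b4 := real_inner_le_norm (L p) (ee n i j)
  rw [en n hij] at b4
  have y2 : (-1) ^ n * s - 2 ≤ (-1) ^ n * (L (p + (1 / 10 ^ 6 : ℝ) • τ) + ((1 / 10 ^ 6 : ℝ) • z +
      EuclideanSpace.single 2 s) : E3) 2 := by
    have u : ∀ v : E3, ‖v‖ ≤ 1 → -1 ≤ (-1) ^ n * v 2 := fun v hv =>
      (abs_le.1 (by simpa [abs_mul] using (co v).trans hv)).1
    simp only [map_add, map_smul, PiLp.add_apply, PiLp.smul_apply, z2, smul_eq_mul]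
    simp
    nlinarith [u _ t1, u _ lp]
  simp only
  rw [ex _ (by simp [ee, w2])]
  have y3 : -7 ≤ (-1) ^ n * s := (abs_le.1 (by simp [abs_mul, s1])).1
  have y4 := mul_le_mul_of_nonneg_left y2 pp.le
  by_cases c1 : G < ep n ^ 2 * 10 ^ 6
  swap
  · nlinarith [mul_le_mul_of_nonneg_left y3 pp.le]
  by_cases c2 : ep n ^ 2 / 64 < G
  · rw [s2 n c2 c1] at y4
    nlinarith
  have q : ∀ k, ‖w k - L (w (J k))‖ ≤ ep n / 5 := fun k =>
    abs_le_of_sq_le_sq' (by rw [norm_sub_rev]; nlinarith [hg k, gG k]) (by linarith) |>.2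
  have hJ' : J i ≠ J j := fun h => by
    have := norm_sub_le_norm_sub_add_norm_sub (w i) (L (w (J i))) (w j)
    rw [norm_sub_rev (L _) (w j)] at this
    have q2 := q j
    rw [← h] at q2
    linarith [q i, wd hij]
  have b5 := key lp (f := L (ee n (J i) (J j))) (by rw [L.norm_map, en n hJ']) (en n hij) (t := 1 / 2)
    (c := 1) (by norm_num) (by norm_num) (by norm_num)
  have cb := (cmb (by linarith : 0 ≤ aa n) (by linarith : 0 ≤ 6 * ep n) (w i - L (w (J i)))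
    (w j - L (w (J j)))).1
  rw [show aa n • (w i - L (w (J i))) + (6 * ep n) • (w j - L (w (J j))) =
    ee n i j - L (ee n (J i) (J j)) by simp only [ee, map_add, map_smul]; module] at cb
  have b6 : ‖ee n i j - L (ee n (J i) (J j))‖ ≤ 3 / 10 * ep n := by nlinarith [q i, q j]
  rw [L.inner_map_map] at b5
  nlinarith [hp' n _ _ hJ', pow_le_pow_left₀ (norm_nonneg _) b6 2,
    mul_le_mul_of_nonneg_left y3 pp.le]

end H18Kak
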