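import Mathlib

set_option autoImplicit false

open MeasureTheory Set Metric
open scoped InnerProductSpace NNReal

namespace H18Lps

abbrev E (n : ℕ) := EuclideanSpace ℝ (Fin n)

noncomputable def phi (A : Set (E 3)) (x : E 3) : ℝ :=
  sSup {t : ℝ | ∃ u : E 3, ‖u‖ = 1 ∧ (∀ y ∈ A, ⟪y, u⟫_ℝ ≤ ⟪x, u⟫_ℝ) ∧ t = ⟪x, u⟫_ℝ}

variable {A : Set (E 3)}

lemma phi_nonneg (h0 : 0 ∈ A) (x : E 3) : 0 ≤ phi A x :=
  Real.sSup_nonneg fun _ ⟨u, _, h, e⟩ => by simpa [e] using h 0 h0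

lemma inn {x u : E 3} (h : ‖u‖ = 1) : ⟪x, u⟫_ℝ ≤ ‖x‖ := by
  simpa [h] using real_inner_le_norm x u

lemma phi_le (x : E 3) : phi A x ≤ ‖x‖ :=
  Real.sSup_le (fun _ ⟨_, h, _, e⟩ => e ▸ inn h) (norm_nonneg _)

lemma le_phi {x u : E 3} (h : ‖u‖ = 1) (h1 : ∀ y ∈ A, ⟪y, u⟫_ℝ ≤ ⟪x, u⟫_ℝ) : ⟪x, u⟫_ℝ ≤ phi A x :=
  le_csSup ⟨‖x‖, fun _ ⟨_, h, _, e⟩ => e ▸ inn h⟩ ⟨u, h, h1, rfl⟩

lemma phi_meas (h0 : 0 ∈ A) : Measurable (phi A) := by
  refine measurable_of_Ici fun a => ?_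
  rcases le_or_gt a 0 with ha | ha
  · rw [eq_univ_of_forall fun x => show x ∈ phi A ⁻¹' Ici a from ha.trans (phi_nonneg h0 x)]
    exact .univ
  have hT : IsClosed {q : E 3 × sphere (0 : E 3) 1 | ∀ y ∈ A, ⟪y, q.2.1⟫_ℝ ≤ ⟪q.1, q.2.1⟫_ℝ} := by
    simp only [setOf_forall]
    exact isClosed_iInter fun y => isClosed_iInter fun _ => isClosed_le (by fun_prop) (by fun_prop)
  convert (isClosedMap_fst_of_compactSpace _ (hT.inter (isClosed_le (f := fun _ => a) continuous_const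
    (by fun_prop : Continuous fun q : E 3 × sphere (0 : E 3) 1 => ⟪q.1, q.2.1⟫_ℝ)))).measurableSet using 1
  ext x
  constructor
  · intro hx
    have hc : IsCompact ((fun u : sphere (0 : E 3) 1 => ⟪x, u.1⟫_ℝ) ''
        {u | ∀ y ∈ A, ⟪y, u.1⟫_ℝ ≤ ⟪x, u.1⟫_ℝ}) :=
      (hT.preimage (by fun_prop : Continuous fun u => (x, u))).isCompact.image (by fun_prop)
    have e : phi A x = sSup ((fun u : sphere (0 : E 3) 1 => ⟪x, u.1⟫_ℝ) ''
        {u | ∀ y ∈ A, ⟪y, u.1⟫_ℝ ≤ ⟪x, u.1⟫_ℝ}) := by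
      unfold phi
      congr 1
      ext t
      exact ⟨fun ⟨u, h, h1, e⟩ => ⟨⟨u, by simpa⟩, h1, e.symm⟩,
        fun ⟨u, h1, e⟩ => ⟨u, by simpa using u.2, h1, e.symm⟩⟩
    have hx : a ≤ phi A x := hx
    obtain ⟨u, h1, e1⟩ := hc.sSup_mem (by
      by_contra hn
      rw [e, not_nonempty_iff_eq_empty.1 hn, Real.sSup_empty] at hx
      linarith)
    exact ⟨(x, u), ⟨h1, hx.trans (e.trans e1.symm).le⟩, rfl⟩
  · rintro ⟨⟨_, u⟩, ⟨h1, h2⟩, rfl⟩
    exact le_trans h2 (le_phi (by simpa using u.2) h1)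

lemma phi_ge (h0 : 0 ∈ A) {x v : E 3} (hx : x ∈ A) (hv : ‖v‖ ≤ 2) (hp : 0 < ⟪x, v⟫_ℝ)
    (h : ∀ y ∈ A, ⟪y, v⟫_ℝ ≤ ⟪x, v⟫_ℝ) : x ∈ frontier A ∧ ⟪x, v⟫_ℝ / 2 ≤ phi A x := by
  have v0 : 0 < ‖v‖ := norm_pos_iff.2 fun e => by simp [e] at hp
  refine ⟨⟨subset_closure hx, fun hi => ?_⟩, le_trans ?_ (le_phi (u := ‖v‖⁻¹ • v)
    (by rw [norm_smul]; simp [v0.ne']) fun y hy => ?_)⟩
  · have := (isOpen_interior.preimage (by fun_prop : Continuous fun s : ℝ => s • x)).mem_nhds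
      (show (1 : ℝ) ∈ _ by simpa using hi)
    obtain ⟨s, hs, h1⟩ := (((frequently_gt_nhds (1 : ℝ)).and_eventually this)).exists
    have := h _ (interior_subset h1)
    rw [real_inner_smul_left] at this
    nlinarith
  · rw [real_inner_smul_right, inv_mul_eq_div]
    gcongr
  · rw [real_inner_smul_right, real_inner_smul_right]
    gcongr
    exact h y hy

def B : Set (E 3) := {y | |y 0| ≤ 2 ∧ |y 1| ≤ 2 ∧ |y 2 - 1 / 100| ≤ 1 / 100}

def Y : Set (E 3) := {y | y ∈ B ∧ (|y 0| = 2 ∨ |y 1| = 2 ∨ |y 2 - 1 / 100| = 1 / 100)}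

lemma nB {y : E 3} (h : y ∈ B) : ‖y‖ ≤ 3 := by
  refine abs_le_of_sq_le_sq' ?_ (by norm_num) |>.2
  obtain ⟨h1, h2, h3⟩ := h
  rw [EuclideanSpace.real_norm_sq_eq, Fin.sum_univ_three]
  rw [abs_le] at h1 h2 h3
  nlinarith [h1.1, h1.2, h2.1, h2.2, h3.1, h3.2]

lemma cover (h1 : Convex ℝ A) (h2 : IsClosed A) (h3 : (interior A).Nonempty) (h4 : A ⊆ B)
    {Z : Set (E 3)} (hZ : Z ⊆ A) : μH[2] (frontier A \ Z) ≤ μH[2] (Y \ Z) := by
  let T : E 3 → E 3 → Prop := fun y x => x ∈ A ∧ ∀ m ∈ A, ⟪y - x, m - x⟫_ℝ ≤ 0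
  have key : ∀ y x y' x', T y x → T y' x' → ‖x - x'‖ ≤ ‖y - y'‖ := fun y x y' x' h h' => by
    have a := h.2 x' h'.1
    have b := h'.2 x h.1
    have c := real_inner_le_norm (y - y') (x - x')
    have d : ‖x - x'‖ ^ 2 ≤ ⟪y - y', x - x'⟫_ℝ := by
      rw [← real_inner_self_eq_norm_sq]
      simp only [inner_sub_left, inner_sub_right] at a b ⊢
      linarith
    by_contra hn
    nlinarith [norm_nonneg (y - y')]
  choose! f hf using fun y (h : ∃ x, T y x) => h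
  have hL : LipschitzOnWith 1 f {y | ∃ x, T y x} := LipschitzOnWith.of_dist_le_mul fun y hy y' hy' => by
    simpa [dist_eq_norm] using key _ _ _ _ (hf y hy) (hf y' hy')
  refine le_trans (measure_mono fun x hx => ?_) (((hL.mono inter_subset_right).hausdorffMeasure_image_le
    (s := (Y \ Z) ∩ _) zero_le_two).trans (by simpa using measure_mono inter_subset_left))
  have hx1 : x ∈ A := h2.frontier_subset hx.1
  obtain ⟨g, hg⟩ := geometric_hahn_banach_open_point h1.interior isOpen_interior hx.1.2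
  have g1 : ∀ m ∈ A, g m ≤ g x := fun m hm => closure_minimal (fun a ha => (hg a ha).le)
    (isClosed_le g.continuous continuous_const)
    (h1.closure_interior_eq_closure_of_nonempty_interior h3 ▸ subset_closure hm)
  set u := (InnerProductSpace.toDual ℝ (E 3)).symm g
  have u0 : 0 < ‖u‖ := norm_pos_iff.2 fun e => by
    obtain ⟨a, ha⟩ := h3
    have := hg a ha
    rw [← InnerProductSpace.toDual_symm_apply, ← InnerProductSpace.toDual_symm_apply] at this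
    simp [show (InnerProductSpace.toDual ℝ (E 3)).symm g = 0 from e] at this
  let F : E 3 → ℝ := fun y => max |y 0| (max |y 1| (200 * |y 2 - 1 / 100|))
  have hF : ∀ y, F y ≤ 2 ↔ y ∈ B := fun y => by
    simp only [F, max_le_iff, B, mem_setOf_eq]
    exact and_congr_right' (and_congr_right' ⟨fun _ => by linarith, fun _ => by linarith⟩)
  obtain ⟨s, hs, e⟩ := intermediate_value_Icc (f := fun s : ℝ => F (x + s • u))
    (show 0 ≤ 10 / ‖u‖ by positivity) (by fun_prop) (show 2 ∈ _ from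
      ⟨by simpa using (hF x).2 (h4 hx1), le_of_not_ge fun h => by
        have a := nB ((hF _).1 h)
        have b := norm_sub_le (x + (10 / ‖u‖) • u) x
        rw [add_sub_cancel_left, norm_smul, Real.norm_of_nonneg (by positivity),
          div_mul_cancel₀ _ u0.ne'] at b
        linarith [nB (h4 hx1)]⟩)
  have t : T (x + s • u) x := ⟨hx1, fun m hm => by
    rw [add_sub_cancel_left, real_inner_smul_left, InnerProductSpace.toDual_symm_apply, map_sub]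
    exact mul_nonpos_of_nonneg_of_nonpos hs.1 (sub_nonpos.2 (g1 m hm))⟩
  have uq : ∀ z, T (x + s • u) z → z = x := fun z hz => by
    simpa [sub_eq_zero] using key _ _ _ _ hz t
  refine ⟨x + s • u, ⟨⟨⟨(hF _).1 e.le, ?_⟩, fun hz => hx.2 ?_⟩, x, t⟩, uq _ (hf _ ⟨x, t⟩)⟩
  · simp only [F, max_eq_iff] at e
    rcases e with e | ⟨e | e, -⟩
    · exact .inl e.1
    · exact .inr (.inl e.1)
    · exact .inr (.inr (by linarith [e.1]))
  · exact uq _ ⟨hZ hz, by simp⟩ ▸ hz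

end H18Lps
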