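import Pool.Agent.Lib.helper18.Lps1

set_option autoImplicit false

open MeasureTheory Set Metric
open scoped InnerProductSpace NNReal

namespace H18Lps

lemma area : ∃ c : ℝ≥0, 0 < c ∧ (μH[2] : Measure (E 2)) = c • volume := by
  have : (μH[2] : Measure (E 2)).IsAddHaarMeasure := by
    simpa using isAddHaarMeasure_hausdorffMeasure (E := E 2)
  exact ⟨_, Measure.addHaarScalarFactor_pos_of_isAddHaarMeasure _ _,
    Measure.isAddLeftInvariant_eq_smul _ _⟩

def R (a b : ℝ) : Set (E 2) := {w | |w 0| ≤ a ∧ |w 1| ≤ b}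

lemma clR (a b : ℝ) : MeasurableSet (R a b) :=
  IsClosed.measurableSet (IsClosed.and (isClosed_le (by fun_prop) continuous_const)
    (isClosed_le (by fun_prop) continuous_const))

lemma volR {a b : ℝ} (ha : 0 ≤ a) : volume (R a b) = ENNReal.ofReal (4 * a * b) := by
  rw [← (PiLp.volume_preserving_toLp (Fin 2)).measure_preimage (clR a b).nullMeasurableSet,
    show WithLp.toLp 2 ⁻¹' R a b = Icc ![-a, -b] ![a, b] by
      ext w; simp [R, abs_le, Pi.le_def, Fin.forall_fin_two]; tauto,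
    Real.volume_Icc_pi, Fin.prod_univ_two, ← ENNReal.ofReal_mul (by simpa using by linarith)]
  congr 1
  simp
  ring

def pr (i : Fin 3) (x : E 3) : E 2 := WithLp.toLp 2 fun j => x (i.succAbove j)

lemma dpr (i : Fin 3) (x y : E 3) :
    dist x y ^ 2 = (x i - y i) ^ 2 + dist (pr i x) (pr i y) ^ 2 := by
  rw [dist_eq_norm, dist_eq_norm, EuclideanSpace.real_norm_sq_eq, EuclideanSpace.real_norm_sq_eq,
    Fin.sum_univ_succAbove _ i]
  simp [pr]

lemma lo (i : Fin 3) {S : Set (E 3)} {P : Set (E 2)} (h : P ⊆ pr i '' S) : μH[2] P ≤ μH[2] S := by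
  have : LipschitzWith 1 (pr i) := LipschitzWith.of_dist_le_mul fun x y => by
    simpa using (abs_le_of_sq_le_sq' (by rw [dpr i x y]; nlinarith) dist_nonneg).2
  simpa using (measure_mono h).trans (this.hausdorffMeasure_image_le zero_le_two S)

lemma up (i : Fin 3) (h : ℝ) {S : Set (E 3)} {P : Set (E 2)} (hS : ∀ x ∈ S, x i = h ∧ pr i x ∈ P) :
    μH[2] S ≤ μH[2] P := by
  let f : E 2 → E 3 := fun w => WithLp.toLp 2 (Fin.insertNth i h fun j => w j)
  have e : ∀ w, pr i (f w) = w := fun w => by ext j; simp [pr, f]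
  have : LipschitzWith 1 f := LipschitzWith.of_dist_le_mul fun x y => by
    simpa using (abs_le_of_sq_le_sq' (by rw [dpr i, e, e]; simp [f]) dist_nonneg).2
  refine le_trans (measure_mono (t := f '' P) fun x hx => ⟨_, (hS x hx).2, ?_⟩)
    (by simpa using this.hausdorffMeasure_image_le zero_le_two P)
  refine dist_eq_zero.1 (pow_eq_zero_iff two_ne_zero |>.1 ?_)
  rw [dpr i, e]
  simp [f, (hS x hx).1]

def Z : Set (E 3) := {x | x 2 = 0 ∧ pr 2 x ∈ R 1 1}

variable {c : ℝ≥0} (hc : (μH[2] : Measure (E 2)) = c • volume)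
include hc

lemma mR {a b : ℝ} (ha : 0 ≤ a) : μH[2] (R a b) = ENNReal.ofReal (c * (4 * a * b)) := by
  rw [hc, Measure.smul_apply, volR ha, ENNReal.ofReal_mul c.coe_nonneg]
  simp [ENNReal.smul_def]

lemma mD {a b a' b' : ℝ} (h0 : 0 ≤ a) (h1 : 0 ≤ b) (ha : a ≤ a') (hb : b ≤ b') :
    μH[2] (R a' b' \ R a b) = ENNReal.ofReal (c * (4 * a' * b') - c * (4 * a * b)) := by
  rw [measure_diff (s₂ := R a b) (s₁ := R a' b') (fun w hw => ⟨hw.1.trans ha, hw.2.trans hb⟩) (clR a b).nullMeasurableSet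
    (by rw [mR hc h0]; finiteness), mR hc h0, mR hc (h0.trans ha), ENNReal.ofReal_sub _ (by positivity)]

lemma mY : μH[2] (Y \ Z) ≤ ENNReal.ofReal (c * 28.64) := by
  have w : ∀ (i : Fin 3) (h : ℝ), i ≠ 2 → μH[2] {x ∈ B | x i = h} ≤
      ENNReal.ofReal (c * (4 * 2 * (2 / 100))) := fun i h hi => by
    rw [← mR hc zero_le_two]
    refine up i h fun x hx => ⟨hx.2, ?_⟩
    obtain ⟨⟨h1, h2, h3⟩, -⟩ := hx
    have : |x 2| ≤ 2 / 100 := by rw [abs_le] at *; constructor <;> linarith [h3.1, h3.2]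
    fin_cases i
    · exact ⟨h2, this⟩
    · exact ⟨h1, this⟩
    · simp at hi
  have t : μH[2] {x ∈ B | x 2 = 2 / 100} ≤ μH[2] (R 2 2) :=
    up 2 _ fun x hx => ⟨hx.2, hx.1.1, hx.1.2.1⟩
  have b : μH[2] ({x ∈ B | x 2 = 0} \ Z) ≤ μH[2] (R 2 2 \ R 1 1) :=
    up 2 0 fun x hx => ⟨hx.1.2, ⟨hx.1.1.1, hx.1.1.2.1⟩, fun h => hx.2 ⟨hx.1.2, h⟩⟩
  rw [mR hc zero_le_two] at t
  rw [mD hc zero_le_one zero_le_one one_le_two one_le_two] at b
  refine le_trans (measure_mono (t := {x ∈ B | x 0 = 2} ∪ {x ∈ B | x 0 = -2} ∪ {x ∈ B | x 1 = 2} ∪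
    {x ∈ B | x 1 = -2} ∪ {x ∈ B | x 2 = 2 / 100} ∪ ({x ∈ B | x 2 = 0} \ Z)) ?_) ?_
  · rintro x ⟨⟨h1, h2⟩, h3⟩
    simp only [abs_eq (zero_le_two (α := ℝ)), abs_eq (show (0 : ℝ) ≤ 1 / 100 by norm_num)] at h2
    simp only [mem_union, mem_diff, mem_setOf_eq, h1, h3, true_and, not_false_eq_true, and_true]
    rcases h2 with (h | h) | (h | h) | (h | h)
    · tauto
    · tauto
    · tauto
    · tauto
    · exact .inl (.inr (by linarith))
    · exact .inr (by linarith)
  · refine le_trans ((measure_union_le _ _).trans (add_le_add ((measure_union_le _ _).trans (add_le_add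
      ((measure_union_le _ _).trans (add_le_add ((measure_union_le _ _).trans (add_le_add
      ((measure_union_le _ _).trans (add_le_add (w 0 _ (by simp)) (w 0 _ (by simp))))
      (w 1 _ (by simp)))) (w 1 _ (by simp)))) t)) b)) (le_of_eq ?_)
    have := c.coe_nonneg
    repeat rw [← ENNReal.ofReal_add (by positivity) (by linarith)]
    congr 1
    ring

variable {A : Set (E 3)} (h0 : 0 ∈ A) (h1 : Convex ℝ A) (h2 : IsClosed A)
  (h3 : (interior A).Nonempty) (h4 : A ⊆ B)
include h1 h2 h3 h4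

lemma fin : IsFiniteMeasure (μH[2].restrict (frontier A)) := by
  have := cover h1 h2 h3 h4 (empty_subset _)
  simp only [diff_empty] at this
  refine isFiniteMeasure_restrict.2 (ne_top_of_le_ne_top ?_ (this.trans ((measure_le_inter_add_diff _ _ Z).trans
    (add_le_add ((up 2 0 fun x hx => hx.2).trans (mR hc zero_le_one).le) (mY hc)))))
  finiteness

include h0

lemma upper {e : ℝ} (he : 0 < e) (hZ : ∀ x ∈ Z, (1.1 : ℝ) • x ∈ A) :
    ∫ x in frontier A, phi A x ^ e ∂μH[2] ≤ 3 ^ e * (c * 28.64) := by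
  haveI := fin hc h1 h2 h3 h4
  have mZ : MeasurableSet Z := (isClosed_eq (by fun_prop) continuous_const).measurableSet.inter
    ((clR 1 1).preimage (by unfold pr; fun_prop))
  refine (integral_mono_of_nonneg (.of_forall fun x => Real.rpow_nonneg (phi_nonneg h0 x) _)
    ((integrable_const ((3 : ℝ) ^ e)).indicator mZ.compl)
    (ae_restrict_of_forall_mem isClosed_frontier.measurableSet fun x hx => ?_)).trans ?_
  · by_cases h : x ∈ Z
    · have : phi A x = 0 := le_antisymm (Real.sSup_le (fun _ ⟨u, _, h5, e⟩ => by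
        have := h5 _ (hZ x h)
        rw [real_inner_smul_left] at this
        linarith) le_rfl) (phi_nonneg h0 x)
      simp [h, this, he.ne']
    · simpa [h] using Real.rpow_le_rpow (phi_nonneg h0 x)
        ((phi_le x).trans (nB (h4 (h2.frontier_subset hx)))) he.le
  · rw [integral_indicator_const _ mZ.compl, measureReal_restrict_apply mZ.compl, inter_comm,
      smul_eq_mul, mul_comm]
    gcongr
    refine ENNReal.toReal_le_of_le_ofReal (by positivity) ((cover h1 h2 h3 h4 fun x hx => ?_).trans (mY hc))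
    simpa [smul_smul, inv_mul_cancel₀ (show (1.1 : ℝ) ≠ 0 by norm_num)] using h1.smul_mem_of_zero_mem h0 (hZ x hx) (t := 1.1⁻¹) ⟨by norm_num, by norm_num⟩

lemma lower {e m r : ℝ} (he : 0 < e) (hm : 0 ≤ m) (hr : 0 ≤ r) {W : Set (E 3)} (mW : MeasurableSet W)
    (hW : ∀ x ∈ W, x ∈ frontier A ∧ m ≤ phi A x) (h : ENNReal.ofReal r ≤ μH[2] W) :
    m ^ e * r ≤ ∫ x in frontier A, phi A x ^ e ∂μH[2] := by
  haveI := fin hc h1 h2 h3 h4
  refine le_trans ?_ (integral_mono_of_nonneg (f := W.indicator fun _ => m ^ e)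
    (.of_forall fun x => indicator_nonneg (fun _ _ => by positivity) _)
    (.of_bound ((phi_meas h0).pow_const e).aestronglyMeasurable (3 ^ e)
      (ae_restrict_of_forall_mem isClosed_frontier.measurableSet fun x hx => ?_))
    (.of_forall fun x => ?_))
  · rw [integral_indicator_const _ mW, smul_eq_mul, mul_comm]
    gcongr
    refine (ENNReal.ofReal_le_iff_le_toReal (measure_ne_top _ _)).1 ?_
    rwa [Measure.restrict_apply mW, inter_eq_left.2 fun x hx => (hW x hx).1]
  · rw [Real.norm_of_nonneg (Real.rpow_nonneg (phi_nonneg h0 x) _)]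
    exact Real.rpow_le_rpow (phi_nonneg h0 x)
      ((phi_le x).trans (nB (h4 (h2.frontier_subset hx)))) he.le
  · by_cases h : x ∈ W
    · simpa [h] using Real.rpow_le_rpow hm (hW x h).2 he.le
    · simpa [h] using Real.rpow_nonneg (phi_nonneg h0 x) _

end H18Lps
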