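import Mathlib

set_option autoImplicit false

open Matrix Finset Filter Topology

namespace H18Lw

variable {m : ℕ}

abbrev Mt (m : ℕ) := Matrix (Fin m) (Fin m) ℝ

def pw (S : Finset (Fin m)) (M A : Mt m) : Mt m := of fun i => if i ∈ S then M i else A i

noncomputable def Q (M A : Mt m) (k : ℕ) : ℝ := ∑ S ∈ powersetCard k univ, (pw S M A).det

lemma pw_smul (c : Fin m → ℝ) (S : Finset (Fin m)) (M A : Mt m) :
    (pw S (of fun i => c i • M i) A).det = (∏ i ∈ S, c i) * (pw S M A).det := by
  refine Eq.trans (congrArg det ?_) ((detRowAlternating (n := Fin m)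
    (R := ℝ)).toMultilinearMap.map_piecewise_smul c (pw S M A) S)
  ext i j
  by_cases h : i ∈ S <;> simp [pw, h]

lemma expand (r : ℝ) (M A : Mt m) :
    (r • M + A).det = ∑ k ∈ range (m + 1), r ^ k * Q M A k := by
  have := (detRowAlternating (n := Fin m) (R := ℝ)).toMultilinearMap.map_add_univ (r • M) A
  refine this.trans ?_
  rw [← powerset_univ, sum_powerset, card_univ, Fintype.card_fin]
  refine sum_congr rfl fun k _ => ?_
  rw [Q, mul_sum]
  refine sum_congr rfl fun S hS => ?_
  rw [← (mem_powersetCard.1 hS).2, ← prod_const, ← pw_smul]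
  refine congrArg det ?_
  ext i j
  by_cases h : i ∈ S <;> simp [pw, h]

lemma coef {x : ℕ → ℕ → ℝ} {y : ℕ → ℝ} (h : ∀ r : ℝ, 0 < r → Tendsto
    (fun q => ∑ k ∈ range (m + 1), r ^ k * x q k) atTop (𝓝 (∑ k ∈ range (m + 1), r ^ k * y k)))
    {k : ℕ} (hk : k ≤ m) : Tendsto (x · k) atTop (𝓝 (y k)) := by
  set V := vandermonde fun i : Fin (m + 1) => (i : ℝ) + 1
  have hV : V⁻¹ * V = 1 := nonsing_inv_mul _ (Ne.isUnit (det_vandermonde_ne_zero_iff.2
    fun i j h => Fin.ext (by simpa using h)))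
  have e : ∀ z : ℕ → ℝ, z k = (V⁻¹ *ᵥ fun i : Fin (m + 1) =>
      ∑ k ∈ range (m + 1), ((i : ℝ) + 1) ^ k * z k) ⟨k, by omega⟩ := fun z => by
    have : (fun i : Fin (m + 1) => ∑ k ∈ range (m + 1), ((i : ℝ) + 1) ^ k * z k) =
        V *ᵥ fun k => z k := by
      ext i
      simp [V, mulVec, dotProduct, sum_range]
    rw [this, mulVec_mulVec, hV, one_mulVec]
  rw [e y, funext fun q => e (x q)]
  simp only [mulVec, dotProduct]
  exact tendsto_finset_sum _ fun i _ => (h _ (by positivity)).const_mul _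

lemma uniq {x y : ℕ → ℝ} (h : ∀ r : ℝ, 0 < r →
    ∑ k ∈ range (m + 1), r ^ k * x k = ∑ k ∈ range (m + 1), r ^ k * y k)
    {k : ℕ} (hk : k ≤ m) : x k = y k :=
  tendsto_const_nhds_iff.1 (coef (x := fun _ => x) (fun r hr => h r hr ▸ tendsto_const_nhds) hk)

def Mon (A : Mt m) : Prop := ∀ x, 0 ≤ x ⬝ᵥ A *ᵥ x

lemma minor {A : Mt m} (hA : Mon A) (S : Finset (Fin m)) : 0 ≤ (pw S 1 A).det := by
  by_contra! hn
  have c : Continuous fun t : ℝ => (pw S 1 ((1 - t) • 1 + t • A)).det := by
    refine Continuous.matrix_det (continuous_matrix fun i j => ?_)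
    by_cases h : i ∈ S <;> simp [pw, h] <;> fun_prop
  obtain ⟨t, ht, e⟩ := intermediate_value_Icc' zero_le_one c.continuousOn (show 0 ∈ _ from
    ⟨by simpa using hn.le, by
      rw [show pw S 1 ((1 - 0 : ℝ) • 1 + (0 : ℝ) • A) = 1 by ext i j; simp [pw]]; simp⟩)
  have t1 : t < 1 := ht.2.lt_of_ne fun h => by simp [h, hn.ne] at e
  obtain ⟨x, x0, hx⟩ := exists_mulVec_eq_zero_iff.2 e
  have : x ⬝ᵥ ((1 - t) • 1 + t • A) *ᵥ x = 0 := by
    refine sum_eq_zero fun i _ => ?_
    have := congrFun hx i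
    by_cases h : i ∈ S
    · have : x i = 0 := by simpa [pw, h, mulVec, dotProduct, one_apply] using this
      simp [this]
    · exact mul_eq_zero_of_right _ (by simpa [pw, h, mulVec] using this)
  simp only [add_mulVec, smul_mulVec, one_mulVec, dotProduct_add, dotProduct_smul, smul_eq_mul] at this
  have h1 : 0 < x ⬝ᵥ x := by simpa using dotProduct_star_self_pos_iff.2 x0
  nlinarith [mul_nonneg ht.1 (hA x), mul_pos (sub_pos.2 t1) h1]

lemma Q_nonneg {M A : Mt m} (hM : M.PosSemidef) (hA : Mon A) (k : ℕ) : 0 ≤ Q M A k := by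
  rcases lt_or_ge m k with hk | hk
  · simp [Q, powersetCard_eq_empty.2 (by simpa using hk : #(univ : Finset (Fin m)) < k)]
  set U : Mt m := hM.1.eigenvectorUnitary.1
  have u1 : U * star U = 1 := hM.1.eigenvectorUnitary.2.2
  have e : M = U * diagonal hM.1.eigenvalues * star U := by
    simpa [Unitary.conjStarAlgAut_apply] using hM.1.spectral_theorem
  rw [uniq (x := Q M A) (y := Q (diagonal hM.1.eigenvalues) (star U * A * U)) (fun r _ => ?_) hk]
  · refine sum_nonneg fun S _ => ?_
    rw [show diagonal hM.1.eigenvalues = of fun i => hM.1.eigenvalues i • (1 : Mt m) i by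
      ext i j; by_cases h : i = j <;> simp [h], pw_smul]
    refine mul_nonneg (prod_nonneg fun i _ => hM.eigenvalues_nonneg i) (minor (fun x => ?_) S)
    convert hA (U *ᵥ x) using 1
    rw [← mulVec_mulVec, ← mulVec_mulVec, dotProduct_mulVec, star_eq_conjTranspose,
      conjTranspose_eq_transpose_of_trivial, vecMul_transpose]
  · rw [← expand, ← expand]
    have : r • M + A = U * (r • diagonal hM.1.eigenvalues + star U * A * U) * star U := by
      conv_lhs => rw [e]
      simp only [mul_add, add_mul, Matrix.mul_smul, Matrix.smul_mul, ← mul_assoc, u1, one_mul]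
      rw [mul_assoc A, u1, mul_one]
    rw [this, det_mul, det_mul, mul_right_comm, ← det_mul, u1, det_one, one_mul]

lemma Q_sum (A : Mt m) (k : ℕ) :
    ∑ i, Q 1 (of fun a b => if a = i ∨ b = i then 0 else A a b) k = k * Q 1 A k := by
  simp only [Q]
  rw [sum_comm, mul_sum]
  refine sum_congr rfl fun S hS => ?_
  rw [← (mem_powersetCard.1 hS).2, ← nsmul_eq_mul, ← sum_const, ← sum_subset (subset_univ S)]
  · refine sum_congr rfl fun i hi => (det_eq_of_forall_row_eq_smul_add_const
      (fun a => if a ∈ S then 0 else A a i) i (by simp [hi]) fun a b => ?_).symm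
    by_cases h : a ∈ S
    · simp [pw, h]
    · have : a ≠ i := fun e => h (e ▸ hi)
      by_cases h' : b = i
      · simp [pw, h, hi, h']
      · simp [pw, h, hi, h', this, one_apply_ne (Ne.symm h')]
  · exact fun i _ hi => det_eq_zero_of_row_eq_zero i fun j => by simp [pw, hi]

end H18Lw
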