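import Pool.Agent.Lib.helper18.Lw1

set_option autoImplicit false

open Matrix Finset Filter Topology MeasureTheory Metric
open scoped InnerProductSpace NNReal

namespace H18Lw

variable {m : ℕ}

abbrev E (m : ℕ) := EuclideanSpace ℝ (Fin m)

noncomputable def mat (A : E m →L[ℝ] E m) : Mt m :=
  LinearMap.toMatrix (EuclideanSpace.basisFun _ ℝ).toBasis (EuclideanSpace.basisFun _ ℝ).toBasis
    (A : E m →ₗ[ℝ] E m)

lemma mat_apply (A : E m →L[ℝ] E m) (a c : Fin m) : mat A a c = A (EuclideanSpace.single c 1) a := by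
  simp [mat, LinearMap.toMatrix_apply]

def Mo (F : E m → E m) : Prop := ∀ x y, 0 ≤ ⟪F x - F y, x - y⟫_ℝ

lemma Mo.mon {F : E m → E m} (h : Mo F) {w : E m} (hd : DifferentiableAt ℝ F w) :
    Mon (mat (fderiv ℝ F w)) := fun x => by
  set v : E m := WithLp.toLp 2 x
  have h1 : HasDerivAt (fun t : ℝ => ⟪F (w + t • v), v⟫_ℝ) ⟪fderiv ℝ F w v, v⟫_ℝ 0 := by
    have := (HasFDerivAt.comp_hasDerivAt (0 : ℝ) (l := F) (f := fun t : ℝ => w + t • v)
      (by simpa using hd.hasFDerivAt) (((hasDerivAt_id (0 : ℝ)).smul_const v).const_add w)).inner ℝ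
      (hasDerivAt_const (0 : ℝ) v)
    simpa using this
  refine (h1.nonneg_of_monotone fun s t hst => ?_).trans (le_of_eq (Eq.symm ?_))
  swap
  · have := LinearMap.toMatrix_mulVec_repr (EuclideanSpace.basisFun _ ℝ).toBasis
      (EuclideanSpace.basisFun _ ℝ).toBasis (fderiv ℝ F w : E m →ₗ[ℝ] E m) v
    rw [show ⇑((EuclideanSpace.basisFun _ ℝ).toBasis.repr v) = x by ext; simp [v]] at this
    rw [mat, this]
    simp [dotProduct, PiLp.inner_apply, v]
  · rcases hst.eq_or_lt with rfl | hst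
    · rfl
    have := h (w + t • v) (w + s • v)
    rw [add_sub_add_left_eq_sub, ← sub_smul, real_inner_smul_right, inner_sub_left] at this
    exact sub_nonneg.1 (nonneg_of_mul_nonneg_right this (sub_pos.2 hst))

noncomputable def q (g F : E m → E m) (k : ℕ) (w : E m) : ENNReal :=
  ENNReal.ofReal (Q (mat (fderiv ℝ g w)) (mat (fderiv ℝ F w)) k)

lemma q_meas (g F : E m → E m) (k : ℕ) : Measurable (q g F k) := by
  have : Continuous fun p : (E m →L[ℝ] E m) × (E m →L[ℝ] E m) => Q (mat p.1) (mat p.2) k := by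
    refine continuous_finset_sum _ fun S _ => Continuous.matrix_det (continuous_matrix fun i j => ?_)
    by_cases h : i ∈ S <;> simp [pw, h, mat_apply] <;> fun_prop
  exact (this.measurable.comp ((measurable_fderiv ℝ g).prodMk (measurable_fderiv ℝ F))).ennreal_ofReal

lemma cv {g F : E m → E m} {S : Set (E m)} (hS : MeasurableSet S) (hF : Differentiable ℝ F)
    (mF : Mo F) (hg : ∀ w ∈ S, DifferentiableAt ℝ g w ∧ (mat (fderiv ℝ g w)).PosSemidef) {r : ℝ}
    (hr : 0 < r) (inj : Set.InjOn (fun w => r • g w + F w) S)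
    (fin : volume ((fun w => r • g w + F w) '' S) ≠ ⊤) :
    (∀ k ≤ m, ∫⁻ w in S, q g F k w ≠ ⊤) ∧ (volume ((fun w => r • g w + F w) '' S)).toReal =
      ∑ k ∈ range (m + 1), r ^ k * (∫⁻ w in S, q g F k w).toReal := by
  have e : volume ((fun w => r • g w + F w) '' S) =
      ∑ k ∈ range (m + 1), ENNReal.ofReal (r ^ k) * ∫⁻ w in S, q g F k w := by
    rw [← lintegral_abs_det_fderiv_eq_addHaar_image volume (f := fun w => r • g w + F w) hS (fun w hw =>
      (((hg w hw).1.hasFDerivAt.const_smul r).add (hF w).hasFDerivAt).hasFDerivWithinAt) inj]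
    simp_rw [← lintegral_const_mul _ (q_meas g F _)]
    rw [← lintegral_finset_sum _ fun k _ => (q_meas g F k).const_mul _]
    refine setLIntegral_congr_fun hS fun w hw => ?_
    have p := Q_nonneg (hg w hw).2 (mF.mon (hF w))
    have : (r • fderiv ℝ g w + fderiv ℝ F w).det = ∑ k ∈ range (m + 1),
        r ^ k * Q (mat (fderiv ℝ g w)) (mat (fderiv ℝ F w)) k := by
      rw [← expand, ContinuousLinearMap.det,
        ← LinearMap.det_toMatrix (EuclideanSpace.basisFun _ ℝ).toBasis]
      simp [mat]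
    simp only [this, q]
    rw [abs_of_nonneg (sum_nonneg fun k _ => mul_nonneg (by positivity) (p k)),
      ENNReal.ofReal_sum_of_nonneg fun k _ => mul_nonneg (by positivity) (p k)]
    exact sum_congr rfl fun k _ => ENNReal.ofReal_mul (by positivity)
  rw [e] at fin ⊢
  have f := ENNReal.sum_ne_top.1 fin
  refine ⟨fun k hk h => f k (by simpa using by omega) ?_, ?_⟩
  · rw [h, ENNReal.mul_top (by simpa using by positivity)]
  · rw [ENNReal.toReal_sum f]
    exact sum_congr rfl fun k _ => by rw [ENNReal.toReal_mul, ENNReal.toReal_ofReal (by positivity)]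

lemma bij {G : E m → E m} {Λ : ℝ≥0} (hL : LipschitzWith Λ G) {μ : ℝ} (h0 : 0 < μ)
    (h : ∀ x y, μ * ‖x - y‖ ^ 2 ≤ ⟪G x - G y, x - y⟫_ℝ) : Function.Bijective G := by
  refine ⟨fun x y e => ?_, fun z => ?_⟩
  · have := h x y
    rw [e, sub_self, inner_zero_left] at this
    exact sub_eq_zero.1 (norm_eq_zero.1 (pow_eq_zero_iff two_ne_zero |>.1 (le_antisymm
      (nonpos_of_mul_nonpos_right this h0) (by positivity))))
  set τ := μ / (Λ ^ 2 + μ ^ 2 + 1) with hτ
  have t0 : 0 < τ := by positivity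
  have t1 : τ * (Λ ^ 2 + μ ^ 2 + 1) = μ := div_mul_cancel₀ _ (by positivity)
  have t2 : τ * μ < 1 := by
    rw [hτ, div_mul_eq_mul_div, div_lt_one (by positivity)]
    nlinarith [sq_nonneg (Λ : ℝ)]
  have hc : ContractingWith (√(1 - τ * μ)).toNNReal fun w => w - τ • (G w - z) := by
    refine ⟨by simpa [Real.sqrt_lt' one_pos] using mul_pos t0 h0,
      LipschitzWith.of_dist_le_mul fun x y => ?_⟩
    rw [dist_eq_norm, dist_eq_norm, Real.coe_toNNReal _ (Real.sqrt_nonneg _),
      ← Real.sqrt_sq (norm_nonneg (x - y)), ← Real.sqrt_mul (by linarith), show x - τ • (G x - z) - (y - τ • (G y - z)) =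
        x - y - τ • (G x - G y) by module]
    refine Real.le_sqrt_of_sq_le ?_
    have h1 := hL.norm_sub_le x y
    have h2 : ‖G x - G y‖ ^ 2 ≤ (Λ * ‖x - y‖) ^ 2 := by gcongr
    rw [norm_sub_sq_real, real_inner_smul_right, real_inner_comm, norm_smul, Real.norm_of_nonneg t0.le]
    have h3 : τ * Λ ^ 2 ≤ μ := by nlinarith [sq_nonneg μ]
    nlinarith [mul_le_mul_of_nonneg_left (h x y) t0.le, mul_le_mul_of_nonneg_left h2 (sq_nonneg τ),
      mul_le_mul_of_nonneg_right h3 (mul_nonneg t0.le (sq_nonneg ‖x - y‖))]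
  have := hc.fixedPoint_isFixedPt
  exact ⟨_, by simpa [Function.IsFixedPt, t0.ne', sub_eq_zero] using this⟩

lemma firm {K : Set (E m)} {p : E m → E m} (h1 : ∀ x, p x ∈ K)
    (h2 : ∀ x, ∀ z ∈ K, ⟪x - p x, z - p x⟫_ℝ ≤ 0) : LipschitzWith 1 p ∧ Mo p := by
  have d : ∀ x y, ‖p x - p y‖ ^ 2 ≤ ⟪p x - p y, x - y⟫_ℝ := fun x y => by
    have a := h2 x _ (h1 y)
    have b := h2 y _ (h1 x)
    rw [← real_inner_self_eq_norm_sq]
    simp only [inner_sub_left, inner_sub_right] at a b ⊢
    linarith [real_inner_comm x (p x), real_inner_comm x (p y), real_inner_comm y (p x),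
      real_inner_comm y (p y)]
  refine ⟨LipschitzWith.of_dist_le_mul fun x y => ?_, fun x y => (sq_nonneg _).trans (d x y)⟩
  have c := real_inner_le_norm (p x - p y) (x - y)
  simp only [dist_eq_norm, NNReal.coe_one, one_mul]
  by_contra hn
  nlinarith [norm_nonneg (x - y), d x y]

end H18Lw
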