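import Pool.Agent.Lib.helper18.Lw2

set_option autoImplicit false

open Matrix Finset Filter Topology MeasureTheory Metric
open scoped InnerProductSpace NNReal

namespace H18Lw

variable {m : ℕ}

structure Adm (L : Set (E m)) (C : ℝ) (F : E m → E m) : Prop where
  d : Differentiable ℝ F
  mo : Mo F
  lip : ∃ Λ, LipschitzWith Λ F
  mem : ∀ u, F u ∈ L
  nor : ∀ p ∈ L, ∀ u, ⟪p - F u, u⟫_ℝ ≤ C

variable {L : Set (E m)} {C : ℝ} {F : E m → E m}

lemma Adm.bij (h : Adm L C F) {p : E m → E m} (hp : LipschitzWith 1 p ∧ Mo p) {a b : ℝ} (ha : 0 < a)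
    (hb : 0 ≤ b) : Function.Bijective fun w => a • w + b • p w + F w := by
  obtain ⟨Λ, hΛ⟩ := h.lip
  refine H18Lw.bij ((((lipschitzWith_smul a).comp .id).add
    ((lipschitzWith_smul b).comp hp.1)).add hΛ) ha fun x y => ?_
  rw [show a • x + b • p x + F x - (a • y + b • p y + F y) =
    a • (x - y) + b • (p x - p y) + (F x - F y) by module, inner_add_left, inner_add_left,
    real_inner_smul_left, real_inner_smul_left, real_inner_self_eq_norm_sq]
  linarith [h.mo x y, mul_nonneg hb (hp.2 x y)]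

lemma Adm.bij' (h : Adm L C F) {a : ℝ} (ha : 0 < a) : Function.Bijective fun w => a • w + F w := by
  simpa using h.bij (p := id) ⟨.id, fun x y => real_inner_self_nonneg⟩ ha le_rfl

lemma mat_id (w : E m) : mat (fderiv ℝ id w) = 1 := by
  rw [fderiv_id, mat]
  exact LinearMap.toMatrix_id _

noncomputable def y (F : E m → E m) (k : ℕ) (ρ : ℝ) : ENNReal := ∫⁻ w in closedBall 0 ρ, q id F k w

lemma Adm.ball (h : Adm L C F) (ρ : ℝ) {r : ℝ} (hr : 0 < r) : (∀ k ≤ m, y F k ρ ≠ ⊤) ∧
    (volume ((fun w => r • w + F w) '' closedBall 0 ρ)).toReal =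
      ∑ k ∈ range (m + 1), r ^ k * (y F k ρ).toReal :=
  cv (g := id) measurableSet_closedBall h.d h.mo (fun w _ => ⟨differentiableAt_id,
    mat_id w ▸ PosSemidef.one⟩) hr (h.bij' hr).1.injOn (((isCompact_closedBall _ _).image
      (by have := h.d.continuous; fun_prop)).measure_lt_top.ne)

noncomputable def pr (ρ : ℝ) (w : E m) : E m := (ρ / max ‖w‖ ρ) • w

lemma pr_in {ρ : ℝ} (h : 0 < ρ) {w : E m} (hw : ‖w‖ ≤ ρ) : pr ρ w = w := by
  simp [pr, hw, h.ne']

lemma pr_out {ρ : ℝ} (h : 0 < ρ) {w : E m} (hw : ρ ≤ ‖w‖) : ρ⁻¹ • pr ρ w = ‖w‖⁻¹ • w := by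
  simp [pr, hw, smul_smul, div_eq_mul_inv, h.ne']

lemma pr_firm {ρ : ℝ} (h : 0 < ρ) : LipschitzWith 1 (pr (m := m) ρ) ∧ Mo (pr (m := m) ρ) := by
  refine firm (K := closedBall 0 ρ) (fun x => ?_) fun x z hz => ?_
  · rw [mem_closedBall_zero_iff, pr, norm_smul, Real.norm_of_nonneg (by positivity),
      div_mul_eq_mul_div, div_le_iff₀ (by positivity)]
    gcongr
    exact le_max_left _ _
  rcases le_total ‖x‖ ρ with hx | hx
  · simp [pr_in h hx]
  have x0 := h.trans_le hx
  rw [pr, max_eq_left hx, show x - (ρ / ‖x‖) • x = (1 - ρ / ‖x‖) • x by module, real_inner_smul_left,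
    inner_sub_right, real_inner_smul_right, real_inner_self_eq_norm_sq]
  refine mul_nonpos_of_nonneg_of_nonpos (sub_nonneg.2 ((div_le_one x0).2 hx)) (sub_nonpos.2
    ((real_inner_le_norm x z).trans ((mul_le_mul_of_nonneg_left (mem_closedBall_zero_iff.1 hz)
      x0.le).trans (le_of_eq ?_))))
  field_simp

lemma psd {ρ δ : ℝ} (h : 0 < ρ) (hδ : 0 ≤ δ) {w : E m} (hw : ρ < ‖w‖) :
    DifferentiableAt ℝ (fun w => δ • w + ρ⁻¹ • pr ρ w) w ∧
      (mat (fderiv ℝ (fun w => δ • w + ρ⁻¹ • pr ρ w) w)).PosSemidef := by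
  have w0 := h.trans hw
  obtain ⟨c, hc⟩ : ∃ c : ℝ, HasFDerivAt (fun w : E m => ‖w‖⁻¹) (c • innerSL ℝ w) w := by
    have := ((hasDerivAt_inv (x := √(‖w‖ ^ 2)) (by simpa using w0.ne')).comp_hasFDerivAt w
      ((hasStrictFDerivAt_norm_sq w).hasFDerivAt.sqrt (by positivity)))
    simp only [← Nat.cast_smul_eq_nsmul ℝ, smul_smul] at this
    exact ⟨_, this.congr_of_eventuallyEq (.of_forall fun v => by simp)⟩
  have hd := (((hasFDerivAt_id w).const_smul δ).add (hc.smul (hasFDerivAt_id w))).congr_of_eventuallyEq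
    (f₁ := fun w => δ • w + ρ⁻¹ • pr ρ w) (by
      filter_upwards [(isOpen_lt continuous_const continuous_norm).mem_nhds hw] with v hv
      simp [pr_out h hv.le])
  refine ⟨hd.differentiableAt, .of_dotProduct_mulVec_nonneg ?_ (Mo.mon (fun x y => ?_)
    hd.differentiableAt)⟩
  · ext a b
    simp [hd.fderiv, mat_apply, EuclideanSpace.inner_single_right, Pi.single_apply, eq_comm]
    ring
  · rw [show δ • x + ρ⁻¹ • pr ρ x - (δ • y + ρ⁻¹ • pr ρ y) = δ • (x - y) + ρ⁻¹ • (pr ρ x - pr ρ y) by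
      module, inner_add_left, real_inner_smul_left, real_inner_smul_left]
    exact add_nonneg (mul_nonneg hδ real_inner_self_nonneg)
      (mul_nonneg (by positivity) ((pr_firm h).2 x y))

lemma Adm.mono (h : Adm L C F) {a b : ℝ} (ha : 0 < a) (hab : a ≤ b) {k : ℕ} (hk : k ≤ m) :
    (y F k a).toReal / a ^ k ≤ (y F k b).toReal / b ^ k := by
  have hb := ha.trans_le hab
  have key : ∀ δ : ℝ, 0 < δ → (δ + a⁻¹) ^ k * (y F k a).toReal ≤ (δ + b⁻¹) ^ k * (y F k b).toReal := by
    intro δ hδ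
    set g : E m → E m := fun w => δ • w + a⁻¹ • pr a w
    have := uniq (x := fun k => (δ + b⁻¹) ^ k * (y F k b).toReal) (y := fun k => (δ + a⁻¹) ^ k *
      (y F k a).toReal + (∫⁻ w in closedBall 0 b \ closedBall 0 a, q g F k w).toReal) (fun r hr => ?_) hk
    · linarith [ENNReal.toReal_nonneg (a := ∫⁻ w in closedBall 0 b \ closedBall 0 a, q g F k w)]
    let G : ℝ → E m → E m := fun ρ w => r • (δ • w + ρ⁻¹ • pr ρ w) + F w
    have bi : ∀ ρ, 0 < ρ → (G ρ).Bijective := fun ρ hρ => by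
      simpa only [G, smul_add, smul_smul] using
        h.bij (pr_firm hρ) (mul_pos hr hδ) (b := r * ρ⁻¹) (by positivity)
    have ba : ∀ ρ, 0 < ρ → (volume (G ρ '' closedBall 0 ρ)).toReal =
        ∑ k ∈ range (m + 1), r ^ k * ((δ + ρ⁻¹) ^ k * (y F k ρ).toReal) := fun ρ hρ => by
      simp only [← mul_assoc, ← mul_pow]
      rw [← (h.ball ρ (by positivity)).2]
      congr 2
      refine Set.image_congr fun w hw => ?_
      simp only [G, pr_in hρ (mem_closedBall_zero_iff.1 hw)]
      module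
    have co : ∀ ρ, IsCompact (G a '' closedBall 0 ρ) := fun ρ => (isCompact_closedBall _ _).image (by
      have := h.d.continuous
      have := (pr_firm (m := m) ha).1.continuous
      fun_prop)
    have e : G b '' closedBall 0 b = G a '' closedBall 0 b := by
      refine compl_injective ?_
      rw [← Set.image_compl_eq (bi a ha), ← Set.image_compl_eq (bi b hb)]
      refine Set.image_congr fun w hw => ?_
      have : b ≤ ‖w‖ := le_of_lt (by simpa using hw)
      simp only [G, pr_out hb this, pr_out ha (hab.trans this)]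
    have fi := ne_top_of_le_ne_top (co b).measure_lt_top.ne
      (measure_mono (μ := volume) (Set.image_mono (Set.diff_subset (t := closedBall 0 a))))
    simp only [mul_add, sum_add_distrib]
    rw [← ba a ha, ← ba b hb, e, ← (cv (measurableSet_closedBall.diff measurableSet_closedBall) h.d h.mo
      (fun w hw => psd ha hδ.le (by simpa using hw.2)) hr (bi a ha).1.injOn fi).2,
      ← ENNReal.toReal_add (co a).measure_lt_top.ne fi, ← measure_union' (Set.disjoint_image_of_injective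
        (bi a ha).1 Set.disjoint_sdiff_right) (co a).measurableSet, ← Set.image_union,
      Set.union_diff_cancel (closedBall_subset_closedBall hab)]
  have t : ∀ a x : ℝ, Tendsto (fun δ : ℝ => (δ + a⁻¹) ^ k * x) (𝓝[>] 0) (𝓝 (x / a ^ k)) := fun a x =>
    ((by fun_prop : Continuous fun δ : ℝ => (δ + a⁻¹) ^ k * x).tendsto' 0 _
      (by simp [div_eq_inv_mul])).mono_left nhdsWithin_le_nhds
  exact le_of_tendsto_of_tendsto (t _ _) (t _ _) (eventually_nhdsWithin_of_forall key)

variable (hL : IsCompact L) {c : ℕ → ℝ}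
  (hc : ∀ t : ℝ, 0 ≤ t → (volume (cthickening t L)).toReal = ∑ k ∈ range (m + 1), t ^ k * c k)
include hL hc

lemma lim {F : ℕ → E m → E m} {C ρ : ℕ → ℝ} (h : ∀ j, Adm L (C j) (F j)) (hρ : ∀ j, 0 < ρ j)
    (h0 : Tendsto (fun j => C j / ρ j) atTop (𝓝 0)) {k : ℕ} (hk : k ≤ m) :
    Tendsto (fun j => (y (F j) k (ρ j)).toReal / ρ j ^ k) atTop (𝓝 (c k)) := by
  refine coef (x := fun j k => (y (F j) k (ρ j)).toReal / ρ j ^ k) (fun r hr => ?_) hk
  have e : ∀ j, ∑ k ∈ range (m + 1), r ^ k * ((y (F j) k (ρ j)).toReal / ρ j ^ k) =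
      (volume ((fun w => (r / ρ j) • w + F j w) '' closedBall 0 (ρ j))).toReal := fun j => by
    rw [((h j).ball _ (div_pos hr (hρ j))).2]
    exact sum_congr rfl fun k _ => by ring
  have s : ∀ j, (fun w => (r / ρ j) • w + F j w) '' closedBall 0 (ρ j) ⊆ cthickening r L := by
    rintro j _ ⟨w, hw, rfl⟩
    refine mem_cthickening_of_dist_le _ _ _ _ ((h j).mem w) ?_
    have := hρ j
    rw [dist_eq_norm, add_sub_cancel_right, norm_smul, Real.norm_of_nonneg (by positivity),
      div_mul_eq_mul_div, div_le_iff₀ this]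
    gcongr
    exact mem_closedBall_zero_iff.1 hw
  have f := (hL.cthickening (r := r)).measure_lt_top (μ := volume)
  simp only [e]
  refine tendsto_of_tendsto_of_tendsto_of_le_of_le' (((by fun_prop : Continuous fun t : ℝ =>
    ∑ k ∈ range (m + 1), (r - t) ^ k * c k).tendsto' 0 _ (by simp)).comp h0) tendsto_const_nhds ?_
      (.of_forall fun j => (ENNReal.toReal_mono f.ne (measure_mono (s j))).trans (hc r hr.le).le)
  filter_upwards [h0.eventually (gt_mem_nhds hr)] with j hj
  have p := sub_nonneg.2 hj.le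
  refine (hc _ p).ge.trans (ENNReal.toReal_mono (ne_top_of_le_ne_top f.ne (measure_mono (s j)))
    (measure_mono fun z hz => ?_))
  rw [hL.cthickening_eq_biUnion_closedBall p] at hz
  simp only [Set.mem_iUnion, mem_closedBall_iff_norm] at hz
  obtain ⟨p, hp, hz⟩ := hz
  have r0 := hρ j
  obtain ⟨w, rfl⟩ := ((h j).bij' (div_pos hr r0)).2 z
  refine ⟨w, mem_closedBall_zero_iff.2 (le_of_not_gt fun hw => ?_), rfl⟩
  have h1 := (h j).nor p hp w
  have h2 := (real_inner_le_norm _ w).trans (mul_le_mul_of_nonneg_right hz (norm_nonneg w))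
  have h3 : 0 ≤ C j := by simpa using (h j).nor _ ((h j).mem 0) 0
  simp only [inner_sub_left, inner_add_left, real_inner_smul_left, real_inner_self_eq_norm_sq] at h1 h2
  have h4 := div_mul_cancel₀ r r0.ne'
  have h5 := div_mul_cancel₀ (C j) r0.ne'
  nlinarith [mul_pos (mul_pos (div_pos hr r0) (sub_pos.2 hw)) (r0.trans hw),
    mul_nonneg (div_nonneg h3 r0.le) (sub_pos.2 hw).le]

lemma Adm.le (h : Adm L C F) {ρ : ℝ} (hρ : 0 < ρ) {k : ℕ} (hk : k ≤ m) :
    0 ≤ c k ∧ y F k ρ ≤ ENNReal.ofReal (c k * ρ ^ k) := by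
  have := ge_of_tendsto' (lim hL hc (F := fun _ => F) (ρ := fun j => ρ + j) (fun _ => h)
    (fun j => by positivity) (tendsto_const_nhds.div_atTop (tendsto_atTop_add_const_left _ _
      tendsto_natCast_atTop_atTop)) hk) fun j => h.mono hρ (by simp) hk
  exact ⟨le_trans (by positivity) this, (ENNReal.le_ofReal_iff_toReal_le ((h.ball ρ one_pos).1 k hk)
    (mul_nonneg (le_trans (by positivity) this) (by positivity))).2 ((div_le_iff₀ (by positivity)).1 this)⟩

end H18Lw
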