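import Pool.Agent.Lib.helper18.Lw3

set_option autoImplicit false

open Matrix Finset Filter Topology MeasureTheory Metric
open scoped InnerProductSpace NNReal

namespace H18Lw

variable {m : ℕ} {L : Set (E m)} {C R : ℝ} {F : E m → E m}

lemma exists_adm (h1 : IsCompact L) (h2 : Convex ℝ L) (h3 : L.Nonempty) (hR : ∀ x ∈ L, ‖x‖ ≤ R) :
    ∃ C F, Adm L C F := by
  choose p p1 p2 using exists_norm_eq_iInf_of_complete_convex h3 h1.isComplete h2
  replace p2 := fun u => (norm_eq_iInf_iff_real_inner_le_zero h2 (p1 u)).1 (p2 u)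
  obtain ⟨p3, p4⟩ := firm p1 p2
  have p5 := p3.continuous
  let φ : ContDiffBump (0 : E m) := ⟨1, 2, one_pos, one_lt_two⟩
  have f1 := φ.continuous_normed (μ := volume)
  let ν := volume.withDensity fun t => ENNReal.ofReal (φ.normed volume t)
  haveI : IsProbabilityMeasure ν := ⟨by
    rw [withDensity_apply _ .univ, Measure.restrict_univ, ← ofReal_integral_eq_lintegral_ofReal
      φ.integrable_normed (.of_forall φ.nonneg_normed), φ.integral_normed, ENNReal.ofReal_one]⟩
  have i : ∀ u, Integrable (fun t => p (u - t)) ν := fun u =>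
    .of_bound (by fun_prop) R (.of_forall fun t => hR _ (p1 _))
  have s : ∀ᵐ t ∂ν, ‖t‖ < 2 := (ae_withDensity_iff (by fun_prop)).2 (.of_forall fun t ht => by
    have : t ∈ Function.support (φ.normed volume) := fun h => ht (by simp [h])
    simpa [φ.support_normed_eq] using this)
  refine ⟨2 * R * (R + 2), fun u => ∫ t, p (u - t) ∂ν, ?_, fun x y => ?_,
    ⟨1, .of_dist_le_mul fun x y => ?_⟩, fun u => h2.integral_mem h1.isClosed
      (.of_forall fun t => p1 _) (i u), fun z hz u => ?_⟩
  · have := (φ.hasCompactSupport_normed.contDiff_convolution_left (ContinuousLinearMap.lsmul ℝ ℝ)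
      (φ.contDiff_normed (n := 1) (μ := volume)) (p5.locallyIntegrable (μ := volume))).differentiable
      one_ne_zero
    refine fun u => (this u).congr_of_eventuallyEq (.of_forall fun u => ?_)
    simp only [ν]
    rw [integral_withDensity_eq_integral_toReal_smul (by fun_prop) (by simp), convolution_lsmul]
    simp [φ.nonneg_normed]
  · rw [← integral_sub (i x) (i y), real_inner_comm, ← integral_inner ((i x).sub' (i y))]
    exact integral_nonneg fun t => by simpa [real_inner_comm] using p4 (x - t) (y - t)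
  · rw [dist_eq_norm, ← integral_sub (i x) (i y)]
    simpa using norm_integral_le_of_norm_le_const (μ := ν) (C := dist x y) (.of_forall fun t => by
      simpa [dist_eq_norm] using p3.norm_sub_le (x - t) (y - t))
  · have e : z - ∫ t, p (u - t) ∂ν = ∫ t, z - p (u - t) ∂ν := by
      rw [integral_sub (integrable_const _) (i u)]
      simp
    rw [e, real_inner_comm, ← integral_inner ((integrable_const _).sub' (i u))]
    refine (integral_mono_ae (((integrable_const _).sub' (i u)).const_inner u) (integrable_const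
      (2 * R * (R + 2))) (s.mono fun t ht => ?_)).trans (by simp)
    have a := p2 (u - t) z hz
    have b := real_inner_le_norm (p (u - t) + t) (z - p (u - t))
    have c := hR _ (p1 (u - t))
    have d : ‖p (u - t) + t‖ * ‖z - p (u - t)‖ ≤ (R + 2) * (R + R) := mul_le_mul
      (norm_add_le_of_le c ht.le) (norm_sub_le_of_le (hR z hz) c) (norm_nonneg _)
      (by linarith [norm_nonneg (p (u - t))])
    simp only [inner_sub_left, inner_add_left, Pi.sub_apply] at a b ⊢
    linarith

lemma Adm.scale (h : Adm L C F) {a : ℝ} (ha : 0 < a) : Adm L (C / a) fun u => F (a • u) := by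
  refine ⟨h.d.comp (by fun_prop), fun x y => ?_, h.lip.elim fun _ hΛ =>
    ⟨_, hΛ.comp (lipschitzWith_smul a)⟩, fun u => h.mem _, fun p hp u => ?_⟩
  · have := h.mo (a • x) (a • y)
    rw [← smul_sub, real_inner_smul_right] at this
    exact nonneg_of_mul_nonneg_right this ha
  · have := h.nor p hp (a • u)
    rwa [real_inner_smul_right, mul_comm, ← le_div_iff₀ ha] at this

noncomputable abbrev ee (i : Fin m) : E m := EuclideanSpace.single i 1

noncomputable def P (i : Fin m) : E m →L[ℝ] E m := .id ℝ _ - (innerSL ℝ (ee i)).smulRight (ee i)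

lemma P_eq (i : Fin m) (x : E m) : P i x = x - x i • ee i := by
  simp [P, EuclideanSpace.inner_single_left]

lemma P_adj (i : Fin m) (x y : E m) : ⟪P i x, y⟫_ℝ = ⟪x, P i y⟫_ℝ := by
  simp [P_eq, inner_sub_left, inner_sub_right, real_inner_smul_left, real_inner_smul_right,
    EuclideanSpace.inner_single_left, EuclideanSpace.inner_single_right, mul_comm]

lemma Adm.slice (h : Adm L C F) (hR : ∀ x ∈ L, ‖x‖ ≤ R) (i : Fin m) (s : ℝ) :
    Adm (P i '' L) (C + |s| * (R + R)) fun u => P i (F (P i u + s • ee i)) := by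
  refine ⟨by have := h.d; fun_prop, fun x y => ?_, h.lip.elim fun _ hΛ =>
    ⟨_, (P i).lipschitz.comp (hΛ.comp ((P i).lipschitz.add (.const _)))⟩,
      fun u => ⟨_, h.mem _, rfl⟩, ?_⟩
  · simpa [← map_sub, P_adj] using h.mo (P i x + s • ee i) (P i y + s • ee i)
  · rintro _ ⟨p, hp, rfl⟩ u
    have a := h.nor p hp (P i u + s • ee i)
    have b := abs_real_inner_le_norm (p - F (P i u + s • ee i)) (s • ee i)
    have c := norm_sub_le_of_le (hR p hp) (hR _ (h.mem (P i u + s • ee i)))
    rw [inner_add_right] at a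
    rw [← map_sub, P_adj]
    simp only [norm_smul, Real.norm_eq_abs, PiLp.norm_single, norm_one, mul_one] at b
    nlinarith [neg_abs_le ⟪p - F (P i u + s • ee i), s • ee i⟫_ℝ, abs_nonneg s]

noncomputable def qi (i : Fin m) (F : E m → E m) (k : ℕ) (z : E m) : ℝ :=
  Q 1 (of fun a b => if a = i ∨ b = i then 0 else mat (fderiv ℝ F z) a b) k

lemma slice_q (h : Differentiable ℝ F) (i : Fin m) (s : ℝ) (u : E m) (k : ℕ) :
    Q 1 (mat (fderiv ℝ (fun u => P i (F (P i u + s • ee i))) u)) k = qi i F k (P i u + s • ee i) := by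
  rw [HasFDerivAt.fderiv (f := fun u => P i (F (P i u + s • ee i))) ((P i).hasFDerivAt.comp u
    ((h _).hasFDerivAt.comp u ((P i).hasFDerivAt.add_const (s • ee i)))), qi]
  congr 1
  ext a b
  by_cases ha : a = i <;> by_cases hb : b = i <;> simp [mat_apply, P_eq, ha, hb, Ne.symm]

lemma Adm.sum (h : Adm L C F) (hR : ∀ x ∈ L, ‖x‖ ≤ R) (k : ℕ) (z : E m) :
    ∑ i, ENNReal.ofReal (qi i F k z) = k * q id F k z := by
  rw [← ENNReal.ofReal_sum_of_nonneg fun i _ => ?_, q, mat_id, ← ENNReal.ofReal_natCast,
    ← ENNReal.ofReal_mul (by positivity), ← Q_sum]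
  · rfl
  · have := Q_nonneg PosSemidef.one ((h.slice hR i (z i)).mo.mon ((h.slice hR i (z i)).d z)) k
    rwa [slice_q h.d, P_eq, sub_add_cancel] at this

end H18Lw
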