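import Pool.Agent.Lib.helper18.Lw4

set_option autoImplicit false

open Matrix Finset Filter Topology MeasureTheory Metric
open scoped InnerProductSpace NNReal

namespace H18Lw

variable {m : ℕ} {L : Set (E m)} {C R : ℝ} {F : E m → E m}

noncomputable def N (f : E m → ENNReal) : ENNReal :=
  ∫⁻ u, ENNReal.ofReal (Real.exp (-‖u‖ ^ 2)) * f u

lemma layer {f : E m → ENNReal} (hf : Measurable f) :
    N f = ∫⁻ t in Set.Ioo (0 : ℝ) 1, ∫⁻ u in closedBall 0 √(-Real.log t), f u := by
  have hs : MeasurableSet {p : ℝ × E m | ‖p.2‖ ≤ √(-Real.log p.1)} :=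
    measurableSet_le (by fun_prop) (by fun_prop)
  have e : ∀ t, ∫⁻ u in closedBall 0 √(-Real.log t), f u =
      ∫⁻ u, {p : ℝ × E m | ‖p.2‖ ≤ √(-Real.log p.1)}.indicator (fun p => f p.2) (t, u) := fun t => by
    rw [← lintegral_indicator measurableSet_closedBall]
    exact lintegral_congr fun u => by simp [Set.indicator]
  simp only [e]
  rw [setLIntegral_congr Ioo_ae_eq_Ioc, lintegral_lintegral_swap
    (by exact ((hf.comp measurable_snd).indicator hs).aemeasurable)]
  refine lintegral_congr fun u => ?_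
  have h1 : Real.exp (-‖u‖ ^ 2) ≤ 1 := Real.exp_le_one_iff.2 (by simp)
  rw [setLIntegral_congr_fun measurableSet_Ioc (g := (Set.Iic (Real.exp (-‖u‖ ^ 2))).indicator
    fun _ => f u) fun t ht => ?_, lintegral_indicator_const measurableSet_Iic,
    Measure.restrict_apply measurableSet_Iic, Set.inter_comm, Set.Ioc_inter_Iic, min_eq_right h1,
    Real.volume_Ioc, sub_zero, mul_comm]
  simp only [Set.indicator, Set.mem_setOf_eq, Set.mem_Iic]
  refine if_congr ?_ rfl rfl
  rw [Real.le_sqrt (norm_nonneg _) (neg_nonneg.2 (Real.log_nonpos ht.1.le ht.2)), le_neg,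
    Real.log_le_iff_le_exp ht.1]

noncomputable def Γ (k : ℕ) : ENNReal := ∫⁻ t in Set.Ioo (0 : ℝ) 1, ENNReal.ofReal (√(-Real.log t) ^ k)

lemma rp {t : ℝ} (h : t ∈ Set.Ioo (0 : ℝ) 1) : 0 < √(-Real.log t) :=
  Real.sqrt_pos.2 (neg_pos.2 (Real.log_neg h.1 h.2))

lemma Γ0 (k : ℕ) : Γ k ≠ 0 := by
  refine ((setLIntegral_pos_iff (by fun_prop)).2 ?_).ne'
  exact lt_of_lt_of_le (by simp) (measure_mono (s := Set.Ioo 0 1) fun t ht =>
    ⟨(ENNReal.ofReal_pos.2 (pow_pos (rp ht) k)).ne', ht⟩)

lemma Γt (k : ℕ) : Γ k ≠ ⊤ := by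
  refine ne_top_of_le_ne_top (((intervalIntegral.integrableOn_Ioo_rpow_iff one_pos (s := -(1 / 2))).2
    (by norm_num)).const_mul (k.factorial * Real.exp (1 / 2))).lintegral_lt_top.ne
      (setLIntegral_mono' measurableSet_Ioo fun t ht => ENNReal.ofReal_le_ofReal ?_)
  have := Real.pow_div_factorial_le_exp _ (rp ht).le k
  rw [div_le_iff₀' (by positivity)] at this
  rw [Real.rpow_def_of_pos ht.1, mul_assoc, ← Real.exp_add]
  refine this.trans (by
    gcongr
    nlinarith [Real.sq_sqrt (neg_nonneg.2 (Real.log_nonpos ht.1.le ht.2.le)),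
      sq_nonneg (√(-Real.log t) - 1)])

noncomputable def g (s : ℝ) : ENNReal := ENNReal.ofReal (Real.exp (-s ^ 2))

lemma swap {f : E m → ENNReal} (hf : Measurable f) (i : Fin m) :
    ∫⁻ s, g s * N (fun u => f (P i u + s • ee i)) = (∫⁻ s, g s) * N f := by
  have mg : Measurable g := by unfold g; fun_prop
  let Φ : E m → ENNReal := fun u => ENNReal.ofReal (Real.exp (-‖u‖ ^ 2)) * f u
  have mΦ : Measurable Φ := by fun_prop
  calc _ = ∫⁻ s, ∫⁻ v : E m, g (v i - s) * Φ (P i v + s • ee i) := lintegral_congr fun s => ?_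
    _ = ∫⁻ v : E m, ∫⁻ s, g s * Φ (v - s • ee i) := ?_
    _ = _ := ?_
  · rw [N, ← lintegral_const_mul _ (by fun_prop), ← lintegral_sub_right_eq_self _ (s • ee i)]
    refine lintegral_congr fun v => ?_
    simp only [Φ, g, ← mul_assoc, ← ENNReal.ofReal_mul (Real.exp_pos _).le, ← Real.exp_add]
    have e : P i (v - s • ee i) = P i v := by simp [P_eq, sub_smul]
    rw [e, P_eq, sub_add, ← sub_smul]
    congr 3
    simp [norm_sub_sq_real, real_inner_smul_right, norm_smul, EuclideanSpace.inner_single_right]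
    ring
  · rw [lintegral_lintegral_swap (Measurable.aemeasurable (by unfold Function.uncurry; fun_prop))]
    refine lintegral_congr fun v => ?_
    rw [← lintegral_sub_left_eq_self _ (v i)]
    simp [P_eq, sub_smul]
  · rw [lintegral_lintegral_swap (Measurable.aemeasurable (by unfold Function.uncurry; fun_prop)),
      ← lintegral_mul_const _ mg]
    refine lintegral_congr fun s => ?_
    rw [lintegral_const_mul _ (by fun_prop), lintegral_sub_right_eq_self Φ]
    rfl

variable {c : ℕ → ℝ} {k : ℕ}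

lemma Adm.up (h : Adm L C F) (hL : IsCompact L) (hc : ∀ t : ℝ, 0 ≤ t →
    (volume (cthickening t L)).toReal = ∑ k ∈ range (m + 1), t ^ k * c k) (hk : k ≤ m) :
    N (q id F k) ≤ ENNReal.ofReal (c k) * Γ k := by
  rw [layer (q_meas _ _ _), Γ, ← lintegral_const_mul _ (by fun_prop)]
  refine setLIntegral_mono' measurableSet_Ioo fun t ht => ?_
  have := h.le hL hc (rp ht) hk
  exact this.2.trans_eq (ENNReal.ofReal_mul this.1)

theorem main (h1 : IsCompact L) (h2 : Convex ℝ L) (h3 : L.Nonempty) (hc : ∀ t : ℝ, 0 ≤ t →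
    (volume (cthickening t L)).toReal = ∑ k ∈ range (m + 1), t ^ k * c k) {d : Fin m → ℕ → ℝ}
    (hd : ∀ i, ∀ t : ℝ, 0 ≤ t →
      (volume (cthickening t (P i '' L))).toReal = ∑ k ∈ range (m + 1), t ^ k * d i k)
    (hk : k ≤ m) (k0 : k ≠ 0) : k * c k ≤ ∑ i, d i k := by
  obtain ⟨R, hR⟩ := isBounded_iff_forall_norm_le.1 h1.isBounded
  obtain ⟨C, F, h⟩ := exists_adm h1 h2 h3 hR
  have hP := fun i => h1.image (P i).continuous
  have d0 := fun i => ((h.slice hR i 0).le (hP i) (hd i) one_pos hk).1
  have key : ∀ {C F}, Adm L C F → N (q id F k) ≤ (∑ i, ENNReal.ofReal (d i k)) * Γ k / k := by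
    intro C F h
    have mq : ∀ i, Measurable fun z => ENNReal.ofReal (qi i F k z) := fun i => by
      have c : Continuous fun A : E m →L[ℝ] E m =>
          Q 1 (of fun a b => if a = i ∨ b = i then 0 else mat A a b) k := by
        refine continuous_finset_sum _ fun S _ => Continuous.matrix_det (continuous_matrix fun a b => ?_)
        by_cases h : a ∈ S <;> by_cases h' : a = i ∨ b = i <;> simp [pw, h, h', mat_apply] <;> fun_prop
      exact (c.measurable.comp (measurable_fderiv ℝ F)).ennreal_ofReal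
    rw [ENNReal.le_div_iff_mul_le (.inl (by simpa)) (.inl (by simp)), N,
      ← lintegral_mul_const _ (by have := q_meas id F k; fun_prop), sum_mul]
    simp only [mul_assoc, mul_comm (q id F k _), ← h.sum hR, mul_sum]
    rw [lintegral_finset_sum _ fun i _ => by have := mq i; fun_prop]
    refine sum_le_sum fun i _ => ?_
    have gi : Integrable fun s : ℝ => Real.exp (-s ^ 2) := by
      simpa using integrable_exp_neg_mul_sq one_pos
    refine (ENNReal.mul_le_mul_iff_right (a := ∫⁻ s, g s) ((lintegral_pos_iff_support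
      (by unfold g; fun_prop)).2 ?_).ne' gi.lintegral_lt_top.ne).1 ((swap (mq i) i).ge.trans ?_)
    · rw [Set.eq_univ_of_forall (s := Function.support g) fun s => by simpa [g] using Real.exp_pos _]
      simp
    rw [← lintegral_mul_const _ (by unfold g; fun_prop)]
    refine lintegral_mono fun s => mul_le_mul_right (le_of_eq_of_le ?_
      ((h.slice hR i s).up (hP i) (hd i) hk)) _
    simp only [← slice_q h.d, N, q, mat_id]
  have ad := fun j : ℕ => h.scale (a := j + 1) (by positivity)
  have low : ENNReal.ofReal (c k) * Γ k ≤ liminf (fun j : ℕ =>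
      N (q id (fun u => F (((j : ℝ) + 1) • u)) k)) atTop := by
    simp only [layer (q_meas _ _ _)]
    refine le_trans ?_ (lintegral_liminf_le fun j => (Monotone.measurable (f := y _ k) fun a b hab =>
      lintegral_mono_set (closedBall_subset_closedBall hab)).comp (by fun_prop))
    rw [Γ, ← lintegral_const_mul _ (by fun_prop)]
    refine setLIntegral_mono' measurableSet_Ioo fun t ht => (Tendsto.liminf_eq ?_).ge
    have r := rp ht
    have := ENNReal.tendsto_ofReal ((lim h1 hc ad (fun _ => r) (by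
      simpa using (tendsto_const_nhds.div_atTop (tendsto_atTop_add_const_right _ (1 : ℝ)
        tendsto_natCast_atTop_atTop)).div_const _) hk).mul_const (√(-Real.log t) ^ k))
    rw [← ENNReal.ofReal_mul (h.le h1 hc one_pos hk).1]
    refine this.congr fun j => ?_
    rw [div_mul_cancel₀ _ (by positivity), ENNReal.ofReal_toReal (((ad j).ball _ one_pos).1 k hk)]
    rfl
  have := low.trans (liminf_le_of_frequently_le' (.of_forall fun j => key (ad j)))
  rw [ENNReal.le_div_iff_mul_le (.inl (by simpa)) (.inl (by simp)), mul_right_comm,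
    ENNReal.mul_le_mul_iff_left (Γ0 k) (Γt k), ← ENNReal.ofReal_sum_of_nonneg fun i _ => d0 i,
    ← ENNReal.ofReal_natCast, ← ENNReal.ofReal_mul' (by positivity),
    ENNReal.ofReal_le_ofReal_iff (sum_nonneg fun i _ => d0 i)] at this
  linarith

end H18Lw
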