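import Mathlib

set_option autoImplicit false

open MeasureTheory ProbabilityTheory
open scoped ENNReal

namespace Pool.Agent.H18Markov

variable {S U : Type*}

/-- Chain driven by the noise sequence `ω`. -/
def chain (step : S → U → S) (y0 : S) (ω : ℕ → U) : ℕ → S
  | 0 => y0
  | n + 1 => step (chain step y0 ω n) (ω n)

lemma chain_congr (step : S → U → S) (y0 : S) (ω ω' : ℕ → U) (n : ℕ) (h : ∀ i < n, ω i = ω' i) :
    chain step y0 ω n = chain step y0 ω' n := by
  induction n with
  | zero => rfl
  | succ n ih => simp only [chain, ih fun i hi => h i (by omega), h n (by omega)]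

variable [MeasurableSpace S] [DiscreteMeasurableSpace S] [Countable S] [MeasurableSpace U]

lemma meas_step {step : S → U → S} (hm : ∀ s, Measurable (step s)) :
    Measurable fun p : S × U => step p.1 p.2 :=
  measurable_from_prod_countable_right hm

lemma meas_chain {step : S → U → S} (hm : ∀ s, Measurable (step s)) (y0 : S) (n : ℕ) :
    Measurable fun ω => chain step y0 ω n := by
  induction n with
  | zero => exact measurable_const
  | succ n ih => exact (meas_step hm).comp (ih.prodMk (measurable_pi_apply n))

theorem superm [Nonempty U] (ν : Measure U) [IsProbabilityMeasure ν] {step : S → U → S}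
    (hm : ∀ s, Measurable (step s)) (φ : S → ℝ≥0∞) (h : ∀ s, ∫⁻ u, φ (step s u) ∂ν ≤ φ s)
    (y0 : S) (n : ℕ) :
    ∫⁻ ω, φ (chain step y0 ω n) ∂(Measure.infinitePi fun _ : ℕ => ν) ≤ φ y0 := by
  induction n with
  | zero => simp [chain]
  | succ n ih =>
    refine le_trans ?_ ih
    set P := Measure.infinitePi fun _ : ℕ => ν with hP
    have hφ : Measurable φ := Measurable.of_discrete
    have hi : iIndepFun (fun (i : ℕ) (ω : ℕ → U) => ω i) P :=
      iIndepFun_infinitePi (X := fun _ u => u) fun _ => measurable_id
    have h1 := hi.indepFun_finset (Finset.range n) {n} (by simp) fun i => measurable_pi_apply i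
    classical
    have h2 := h1.comp (_mγ := inferInstance) (_mγ' := inferInstance)
      (φ := fun v : Finset.range n → U => chain step y0
        (fun i => if h : i ∈ Finset.range n then v ⟨i, h⟩ else Classical.arbitrary U) n)
      (ψ := fun v : ({n} : Finset ℕ) → U => v ⟨n, by simp⟩)
      ((meas_chain hm y0 n).comp (measurable_pi_lambda _ fun i => by
        split_ifs
        · exact measurable_pi_apply _
        · exact measurable_const)) (measurable_pi_apply (⟨n, by simp⟩ : ({n} : Finset ℕ)))
    have h3 : IndepFun (fun ω => chain step y0 ω n) (fun ω : ℕ → U => ω n) P := by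
      convert h2 using 1
      · funext ω
        exact chain_congr _ _ _ _ _ fun i hi => by simp [hi]
      · rfl
    rw [indepFun_iff_map_prod_eq_prod_map_map (meas_chain hm y0 n).aemeasurable
      (measurable_pi_apply n).aemeasurable, hP, Measure.infinitePi_map_eval, ← hP] at h3
    have h4 : ∫⁻ ω, φ (chain step y0 ω (n + 1)) ∂P =
        ∫⁻ p, φ (step p.1 p.2) ∂(P.map fun ω => (chain step y0 ω n, ω n)) :=
      (lintegral_map (hφ.comp (meas_step hm))
        ((meas_chain hm y0 n).prodMk (measurable_pi_apply n))).symm
    rw [h4, h3, lintegral_prod (fun p : S × U => φ (step p.1 p.2)) (hφ.comp (meas_step hm)).aemeasurable,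
      ← lintegral_map hφ (meas_chain hm y0 n)]
    exact lintegral_mono h

end Pool.Agent.H18Markov
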