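import Mathlib

open Polynomial Finset Complex
open scoped ComplexConjugate

namespace H18Poch

def IsNeg (z : ℂ) : Prop := z.im = 0 ∧ z.re < 0

def Z (u : ℂ) (t : ℝ) (p : ℂ[X]) : Prop := ∀ y, p.eval y = 0 → (conj u * y).re < t

lemma step {u : ℂ} {t : ℝ} {p : ℂ[X]} (h : Z u t p) {c : ℂ} (hc : 0 < (conj u * c).re) :
    Z u t (p + C c * derivative p) := by
  intro y hy
  by_contra hlt
  push Not at hlt
  have hp : p.eval y ≠ 0 := fun e => absurd (h y e) (not_lt.2 hlt)
  have hp0 : p ≠ 0 := by rintro rfl; simp at hp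
  have hc0 : c ≠ 0 := by rintro rfl; simp at hc
  have h1 := (IsAlgClosed.splits p).eval_derivative_div_eval_of_ne_zero hp
  have h2 : p.derivative.eval y / p.eval y = -1 / c := by
    simp only [eval_add, eval_mul, eval_C] at hy
    field_simp
    linear_combination hy
  have h3 : ∀ s : Multiset ℂ, (∀ r ∈ s, (conj u * r).re < t) →
      0 ≤ (u * (s.map fun z => 1 / (y - z)).sum).re := by
    intro s
    induction s using Multiset.induction_on with
    | empty => simp
    | cons a s ih =>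
      intro hs
      rw [Multiset.map_cons, Multiset.sum_cons, mul_add, add_re]
      refine add_nonneg ?_ (ih fun r hr => hs r (Multiset.mem_cons_of_mem hr))
      have h4 := hs a (Multiset.mem_cons_self _ _)
      have h5 : 0 ≤ (conj u * (y - a)).re := by rw [mul_sub, sub_re]; linarith
      rw [mul_one_div, Complex.div_re, ← add_div]
      refine div_nonneg ?_ (normSq_nonneg _)
      simpa using h5
  have h4 := h3 p.roots fun r hr => h r ((mem_roots hp0).1 hr)
  rw [← h1, h2, ← mul_div_assoc, Complex.div_re, ← add_div] at h4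
  have h5 : 0 < normSq c := normSq_pos.2 hc0
  rw [le_div_iff₀ h5] at h4
  simp at h4 hc
  linarith

lemma Z.smul {u : ℂ} {t : ℝ} {p : ℂ[X]} (h : Z u t p) {c : ℂ} (hc : c ≠ 0) : Z u t (c • p) := by
  intro y hy
  rw [eval_smul, smul_eq_mul, mul_eq_zero] at hy
  exact h y (hy.resolve_left hc)

lemma hp_mult {u x : ℂ} {t : ℝ} (hx : 0 < (conj u * x).re) {p : ℂ[X]} (h : Z u t p)
    (s : Multiset ℂ) (hs : ∀ r ∈ s, IsNeg r) :
    Z u t (aeval (x • (derivative : ℂ[X] →ₗ[ℂ] ℂ[X])) (s.map (X - C ·)).prod p) := by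
  induction s using Multiset.induction_on with
  | empty => simpa using h
  | cons a s ih =>
    have ha := hs a (Multiset.mem_cons_self _ _)
    have ih' := ih fun r hr => hs r (Multiset.mem_cons_of_mem hr)
    rw [Multiset.map_cons, Multiset.prod_cons, map_mul, Module.End.mul_apply]
    set q := aeval (x • (derivative : ℂ[X] →ₗ[ℂ] ℂ[X])) (s.map (X - C ·)).prod p
    have ea : a = (a.re : ℂ) := Complex.ext rfl (by simpa using ha.1)
    have ha0 : a ≠ 0 := by rw [ea]; exact_mod_cast ha.2.ne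
    have e : aeval (x • (derivative : ℂ[X] →ₗ[ℂ] ℂ[X])) (X - C a) q =
        (-a) • (q + C (x / (-a)) * derivative q) := by
      simp only [map_sub, aeval_X, aeval_C, LinearMap.sub_apply, LinearMap.smul_apply,
        Module.algebraMap_end_apply, smul_add, ← smul_eq_C_mul, smul_smul]
      rw [mul_div_cancel₀ _ (neg_ne_zero.2 ha0), neg_smul]
      ring
    rw [e]
    refine (step ih' ?_).smul (neg_ne_zero.2 ha0)
    rw [← mul_div_assoc, ea, ← ofReal_neg, div_ofReal_re]
    exact div_pos hx (by linarith [ha.2])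

def Neg (n : ℕ) (a : ℕ → ℂ) : Prop :=
  a n ≠ 0 ∧ ∀ z, ∑ k ∈ range (n + 1), a k * z ^ k = 0 → IsNeg z

noncomputable def toP (n : ℕ) (a : ℕ → ℂ) : ℂ[X] := ∑ k ∈ range (n + 1), C (a k) * X ^ k

lemma toP_coeff (n : ℕ) (a : ℕ → ℂ) {k : ℕ} (hk : k ≤ n) : (toP n a).coeff k = a k := by
  simp [toP, finsetSum_coeff, coeff_X_pow, Nat.lt_succ_iff, hk]

lemma toP_deg (n : ℕ) (a : ℕ → ℂ) : (toP n a).natDegree ≤ n :=
  natDegree_sum_le_of_forall_le _ _ fun k hk =>
    (natDegree_C_mul_X_pow_le _ _).trans (Nat.lt_succ_iff.1 (mem_range.1 hk))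

lemma toP_eval (n : ℕ) (a : ℕ → ℂ) (z : ℂ) :
    (toP n a).eval z = ∑ k ∈ range (n + 1), a k * z ^ k := by
  simp [toP, eval_finsetSum]

lemma hp {n : ℕ} {a : ℕ → ℂ} (ha : Neg n a) {u x : ℂ} {t : ℝ} (hx : 0 < (conj u * x).re)
    {p : ℂ[X]} (h : Z u t p) (y : ℂ) (hy : t ≤ (conj u * y).re) :
    ∑ k ∈ range (n + 1), a k * x ^ k * (derivative^[k] p).eval y ≠ 0 := by
  have h0 : toP n a ≠ 0 := fun e => ha.1 (by rw [← toP_coeff n a le_rfl, e, coeff_zero])
  have h1 := (hp_mult hx h (toP n a).roots fun r hr =>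
    ha.2 r (by rw [← toP_eval]; exact (mem_roots h0).1 hr)).smul (leadingCoeff_ne_zero.2 h0)
  have e : (toP n a).leadingCoeff • aeval (x • (derivative : ℂ[X] →ₗ[ℂ] ℂ[X]))
      ((toP n a).roots.map (X - C ·)).prod p =
      aeval (x • (derivative : ℂ[X] →ₗ[ℂ] ℂ[X])) (toP n a) p := by
    conv_rhs => rw [(IsAlgClosed.splits (toP n a)).eq_prod_roots]
    rw [map_mul, aeval_C, Module.End.mul_apply, Module.algebraMap_end_apply]
  rw [e, aeval_eq_sum_range' (Nat.lt_succ_of_le (toP_deg n a))] at h1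
  intro hz
  refine absurd (h1 y ?_) (not_lt.2 hy)
  rw [← hz, LinearMap.sum_apply, eval_finsetSum]
  refine sum_congr rfl fun k hk => ?_
  rw [toP_coeff n a (Nat.lt_succ_iff.1 (mem_range.1 hk)), _root_.smul_pow, LinearMap.smul_apply,
    LinearMap.smul_apply, Module.End.pow_apply, eval_smul, eval_smul, smul_eq_mul, smul_eq_mul,
    mul_assoc]

lemma dir {x : ℂ} (h0 : x ≠ 0) (h : ¬ IsNeg x) :
    ∃ u : ℂ, 0 < u.re ∧ 0 < (conj u * x).re := by
  have h1 : 0 < ‖x‖ + x.re := by
    have := abs_re_le_norm x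
    have h2 := neg_abs_le x.re
    refine lt_of_le_of_ne (by linarith) fun e => h ?_
    have h3 : ‖x‖ ^ 2 = x.re ^ 2 + x.im ^ 2 := by rw [Complex.sq_norm, normSq_apply]; ring
    have h4 : x.re = -‖x‖ := by linarith
    have h5 := norm_pos_iff.2 h0
    refine ⟨?_, by linarith⟩
    rw [h4] at h3
    nlinarith
  refine ⟨‖x‖ + x, by simpa using h1, ?_⟩
  have h3 : ‖x‖ ^ 2 = x.re ^ 2 + x.im ^ 2 := by rw [Complex.sq_norm, normSq_apply]; ring
  have h5 := norm_pos_iff.2 h0
  simp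
  nlinarith

lemma Neg.zero {n : ℕ} {a : ℕ → ℂ} (ha : Neg n a) : a 0 ≠ 0 := by
  intro h
  have := (ha.2 0 (by simp [sum_range_succ', h])).2
  simp at this

lemma Neg.congr {n : ℕ} {a b : ℕ → ℂ} (ha : Neg n a) (c : ℂ) (hc : c ≠ 0)
    (h : ∀ k ≤ n, b k = c * a k) : Neg n b := by
  refine ⟨by rw [h n le_rfl]; exact mul_ne_zero hc ha.1, fun z hz => ha.2 z ?_⟩
  rw [sum_congr rfl fun k hk => by rw [h k (Nat.lt_succ_iff.1 (mem_range.1 hk)), mul_assoc],
    ← mul_sum] at hz
  exact (mul_eq_zero.1 hz).resolve_left hc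

lemma Neg.schur {n : ℕ} {a b : ℕ → ℂ} (ha : Neg n a) (hb : Neg n b) :
    Neg n fun k => k.factorial * a k * b k := by
  refine ⟨mul_ne_zero (mul_ne_zero (by exact_mod_cast n.factorial_ne_zero) ha.1) hb.1,
    fun x hx => ?_⟩
  by_contra hn
  have h0 : x ≠ 0 := by
    rintro rfl
    simp [sum_range_succ', ha.zero, hb.zero] at hx
  obtain ⟨u, hu, hux⟩ := dir h0 hn
  refine hp ha hux (t := 0) (p := toP n b) ?_ 0 (by simp) ?_
  · intro y hy
    obtain ⟨h1, h2⟩ := hb.2 y (by rwa [← toP_eval])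
    simp [h1]
    nlinarith
  · refine Eq.trans (sum_congr rfl fun k hk => ?_) hx
    beta_reduce
    rw [← coeff_zero_eq_eval_zero, coeff_iterate_derivative, zero_add,
      toP_coeff n b (Nat.lt_succ_iff.1 (mem_range.1 hk)), Nat.descFactorial_self, nsmul_eq_mul]
    ring

lemma Neg.lag {n : ℕ} {a : ℕ → ℂ} (ha : Neg n a) : Neg n fun k => a (n - k) / k.factorial := by
  refine ⟨div_ne_zero (by simpa using ha.zero) (by exact_mod_cast n.factorial_ne_zero),
    fun x hx => ?_⟩
  by_contra hn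
  have h0 : x ≠ 0 := by
    rintro rfl
    simp [sum_range_succ', ha.1] at hx
  obtain ⟨u, hu, hux⟩ := dir h0 hn
  refine hp ha (u := u) (x := 1) (by simpa using hu) (t := (conj u * x).re) (p := X ^ n) ?_ x
    le_rfl ?_
  · intro y hy
    have : y = 0 := by
      rw [eval_pow, eval_X] at hy
      exact eq_zero_of_pow_eq_zero hy
    rw [this]; simpa using hux
  · rw [← sum_range_reflect] at hx
    rw [← mul_zero (n.factorial : ℂ), ← hx, mul_sum]
    refine sum_congr rfl fun k hk => ?_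
    have hk' := Nat.lt_succ_iff.1 (mem_range.1 hk)
    beta_reduce
    rw [iterate_derivative_X_pow_eq_C_mul, Nat.add_sub_cancel, Nat.sub_sub_self hk',
      ← Nat.factorial_mul_descFactorial hk']
    have : ((n - k).factorial : ℂ) ≠ 0 := by exact_mod_cast Nat.factorial_ne_zero _
    simp
    field_simp

lemma Neg.rev {n : ℕ} {a : ℕ → ℂ} (ha : Neg n a) : Neg n fun k => a (n - k) := by
  refine ⟨by simpa using ha.zero, fun x hx => ?_⟩
  have h0 : x ≠ 0 := by
    rintro rfl
    simp [sum_range_succ', ha.1] at hx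
  have := ha.2 x⁻¹ (by
    rw [← sum_range_reflect] at hx
    refine mul_left_cancel₀ (pow_ne_zero n h0) ?_
    rw [mul_zero, ← hx, mul_sum]
    refine sum_congr rfl fun k hk => ?_
    have hk' := Nat.lt_succ_iff.1 (mem_range.1 hk)
    beta_reduce
    rw [Nat.add_sub_cancel, Nat.sub_sub_self hk', pow_sub₀ _ h0 hk', inv_pow]
    ring)
  have h5 : 0 < normSq x := normSq_pos.2 h0
  obtain ⟨h1, h2⟩ := this
  rw [inv_im, div_eq_zero_iff] at h1
  rw [inv_re, div_neg_iff] at h2
  exact ⟨by simpa [h5.ne'] using h1, by rcases h2 with h2 | h2 <;> linarith [h2.1, h2.2]⟩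

theorem Neg.pal {n : ℕ} {a : ℕ → ℂ} (ha : Neg n a) :
    Neg n fun k => a k * a (n - k) * n.choose k := by
  refine (ha.lag.rev.schur ha.lag.rev.lag).congr n.factorial
    (by exact_mod_cast n.factorial_ne_zero) fun k hk => ?_
  simp only [Nat.sub_sub_self hk, Nat.sub_sub_self (Nat.sub_le n k)]
  rw [← Nat.choose_mul_factorial_mul_factorial hk]
  have h1 : ((n - k).factorial : ℂ) ≠ 0 := by exact_mod_cast Nat.factorial_ne_zero _
  have h2 : (k.factorial : ℂ) ≠ 0 := by exact_mod_cast Nat.factorial_ne_zero _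
  push_cast
  field_simp

end H18Poch
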