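import Pool.Agent.Lib.helper18.Poch1

open Polynomial Finset Complex

namespace H18Poch

noncomputable def R (a : ℕ) (x : ℂ) : ℂ := ∏ i ∈ range a, (x + i)

lemma poch (a : ℕ) (x : ℂ) : (ascPochhammer ℂ a).eval x = R a x := by
  induction a with
  | zero => simp [R]
  | succ a ih => rw [ascPochhammer_succ_eval, ih, R, R, prod_range_succ]

lemma R_succ (a : ℕ) (x : ℂ) : R (a + 1) x = R a x * (x + a) := prod_range_succ _ _
lemma R_succ' (a : ℕ) (x : ℂ) : R (a + 1) x = x * R a (x + 1) := by
  rw [R, prod_range_succ', R, mul_comm]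
  simp only [Nat.cast_zero, add_zero]
  congr 1
  exact prod_congr rfl fun i _ => by push_cast; ring
lemma R_add (a b : ℕ) (x : ℂ) : R (a + b) x = R a x * R b (x + a) := by
  induction b with
  | zero => simp [R]
  | succ b ih => rw [← add_assoc, R_succ, ih, R_succ]; push_cast; ring

lemma R_neg (a : ℕ) (z : ℂ) (c d : ℝ) (hc : 0 < c) (hd : 0 < d) (h : R a (c * z + d) = 0) :
    IsNeg z := by
  obtain ⟨i, -, hi⟩ := prod_eq_zero_iff.1 h
  have h1 := congrArg im hi
  have h2 := congrArg re hi
  simp [hc.ne'] at h1 h2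
  refine ⟨h1, ?_⟩
  have : (0 : ℝ) ≤ i := i.cast_nonneg
  by_contra h3
  push Not at h3
  nlinarith

noncomputable def L (n : ℕ) (a b : ℂ) (H : ℂ[X]) : ℂ :=
  ∑ k ∈ range (n + 1), H.coeff k * R k a * R (n - k) b

lemma L_mul (m : ℕ) (a b : ℂ) (H : ℂ[X]) (h : H.natDegree ≤ m) :
    L (m + 1) a b ((1 + X) * H) = (a + b + m) * L m a b H := by
  rw [add_mul (1 : ℂ[X]), one_mul]
  simp only [L, coeff_add, add_mul (H.coeff _), add_mul (H.coeff _ * _), sum_add_distrib]
  rw [sum_range_succ, coeff_eq_zero_of_natDegree_lt (Nat.lt_succ_of_le h),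
    sum_range_succ' _ (m + 1), mul_sum]
  simp only [coeff_X_mul, mul_coeff_zero, coeff_X_zero, zero_mul, add_zero, ← sum_add_distrib]
  refine sum_congr rfl fun k hk => ?_
  have hk' := Nat.lt_succ_iff.1 (mem_range.1 hk)
  rw [Nat.succ_sub hk', Nat.add_sub_add_right, R_succ, R_succ, Nat.cast_sub hk']
  ring

lemma L_basis (j e : ℕ) (a b : ℂ) :
    L (2 * j + e) a b (X ^ j * (1 + X) ^ e) = R j a * R j b * R e (a + b + 2 * j) := by
  induction e with
  | zero =>
    simp only [L, pow_zero, mul_one, coeff_X_pow, add_zero]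
    rw [sum_eq_single j]
    · simp [R, two_mul]
    · intro k _ hk; simp [hk]
    · intro h; exact absurd (mem_range.2 (by omega)) h
  | succ e ih =>
    rw [pow_succ', mul_left_comm, ← add_assoc, L_mul, ih, R_succ]
    · push_cast; ring
    · refine natDegree_mul_le.trans ?_
      have h1 : ((1 + X : ℂ[X]) ^ e).natDegree ≤ e := by
        refine natDegree_pow_le.trans ?_
        rw [add_comm, ← C_1, natDegree_X_add_C, mul_one]
      rw [natDegree_X_pow]; omega

lemma gamma (n : ℕ) : ∀ H : ℂ[X], H.natDegree ≤ n → (∀ k ≤ n, H.coeff k = H.coeff (n - k)) →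
    ∃ γ : ℕ → ℂ, H = ∑ j ∈ range (n / 2 + 1), C (γ j) * (X ^ j * (1 + X) ^ (n - 2 * j)) := by
  induction n using Nat.twoStepInduction with
  | zero =>
    intro H h _
    exact ⟨fun _ => H.coeff 0, by simpa using eq_C_of_natDegree_le_zero h⟩
  | one =>
    intro H h hp
    refine ⟨fun _ => H.coeff 0, ?_⟩
    conv_lhs => rw [eq_X_add_C_of_natDegree_le_one h, hp 1 le_rfl]
    simp
    ring
  | more n ih _ =>
    intro H h hp
    set G := H - C (H.coeff 0) * (1 + X) ^ (n + 2) with hG
    have hc : ∀ k, G.coeff k = H.coeff k - H.coeff 0 * (n + 2).choose k := by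
      intro k; rw [hG, coeff_sub, coeff_C_mul, coeff_one_add_X_pow]
    obtain ⟨γ, hγ⟩ := ih G.divX (by
      rw [natDegree_le_iff_coeff_eq_zero]
      intro k hk
      rw [coeff_divX, hc]
      rcases Nat.lt_or_eq_of_le (show n + 2 ≤ k + 1 by omega) with h1 | h1
      · rw [coeff_eq_zero_of_natDegree_lt (h.trans_lt h1), Nat.choose_eq_zero_of_lt h1]; simp
      · rw [← h1, hp _ le_rfl]; simp) (by
      intro k hk
      rw [coeff_divX, coeff_divX, hc, hc, hp (k + 1) (by omega),
        ← Nat.choose_symm (show k + 1 ≤ n + 2 by omega),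
        show n + 2 - (k + 1) = n - k + 1 by omega])
    refine ⟨fun j => if j = 0 then H.coeff 0 else γ (j - 1), ?_⟩
    have h0 := divX_mul_X_add G
    rw [hc, hγ] at h0
    rw [show (n + 2) / 2 = n / 2 + 1 by omega, sum_range_succ']
    have e : H = G + C (H.coeff 0) * (1 + X) ^ (n + 2) := by rw [hG]; ring
    conv_lhs => rw [e, ← h0]
    simp only [Nat.choose_zero_right, Nat.cast_one, mul_one, sub_self, map_zero, add_zero,
      Nat.add_eq_zero_iff, one_ne_zero, and_false, if_false, Nat.add_sub_cancel, if_true, pow_zero,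
      one_mul, mul_zero, Nat.sub_zero, sum_mul]
    congr 1
    refine sum_congr rfl fun j _ => ?_
    rw [show n + 2 - 2 * (j + 1) = n - 2 * j by omega]
    ring

lemma gamma_neg {n : ℕ} {h γ : ℕ → ℂ} (hh : Neg n h)
    (e : toP n h = ∑ j ∈ range (n / 2 + 1), C (γ j) * (X ^ j * (1 + X) ^ (n - 2 * j)))
    (t : ℂ) (ht : (toP (n / 2) γ).eval t = 0) : IsNeg t := by
  have key : ∀ x : ℂ, t * (1 + x) ^ 2 = x → IsNeg x := by
    intro x hx
    refine hh.2 x ?_
    rw [← toP_eval, e, eval_finsetSum, ← mul_zero ((1 + x) ^ n), ← ht, toP_eval, mul_sum]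
    refine sum_congr rfl fun j hj => ?_
    have hj' : 2 * j ≤ n := by have := mem_range.1 hj; omega
    simp only [eval_mul, eval_C, eval_pow, eval_X, eval_add, eval_one]
    conv_rhs => rw [show n = 2 * j + (n - 2 * j) by omega, pow_add, pow_mul]
    conv_lhs => rw [← congrArg (· ^ j) hx, mul_pow]
    ring
  have t0 : t ≠ 0 := by
    rintro rfl
    have := (key 0 (by simp)).2
    simp at this
  obtain ⟨x, hx⟩ := exists_quadratic_eq_zero (b := 2 * t - 1) (c := t) t0
    (IsAlgClosed.exists_eq_mul_self _)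
  have hx' : t * (1 + x) ^ 2 = x := by linear_combination hx
  obtain ⟨h1, h2⟩ := key x hx'
  have ex : x = (x.re : ℂ) := Complex.ext rfl (by simpa using h1)
  have h3 : 1 + x ≠ 0 := by
    intro h0
    rw [h0] at hx'
    rw [← hx'] at h0
    simp at h0
  have h4 : 1 + x.re ≠ 0 := by
    intro h0; apply h3; rw [ex]; exact_mod_cast h0
  have et : t = ((x.re / (1 + x.re) ^ 2 : ℝ) : ℂ) := by
    push_cast
    rw [← ex, eq_div_iff (pow_ne_zero 2 h3), hx']
  rw [et]
  exact ⟨ofReal_im _, by rw [ofReal_re]; exact div_neg_of_neg_of_pos h2 (by positivity)⟩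

lemma sign (i : ℕ) (t : ℕ → ℝ) : ∀ m, i ≤ m → (∀ l < i, t l < 0) → (∀ l < m, i ≤ l → 0 < t l) →
    0 < (-1) ^ i * ∏ l ∈ range m, t l := by
  intro m him h1 h2
  obtain ⟨e, rfl⟩ := Nat.exists_eq_add_of_le him
  have a1 : 0 < ∏ l ∈ range i, -t l := prod_pos fun l hl => neg_pos.2 (h1 l (mem_range.1 hl))
  have a2 : 0 < ∏ l ∈ range e, t (i + l) :=
    prod_pos fun l hl => h2 _ (by have := mem_range.1 hl; omega) (by omega)
  rw [prod_neg, card_range] at a1
  rw [prod_range_add, ← mul_assoc]
  exact mul_pos a1 a2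

lemma interlace (d : ℕ) (lo hi : ℕ → ℝ) (h1 : ∀ i ≤ d, lo i < hi i)
    (h2 : ∀ i < d, hi (i + 1) < lo i) (α β : ℝ) (hα : 0 < α) (hβ : 0 < β) :
    ∃ y : ℕ → ℝ, (∀ i ≤ d, lo i < y i ∧ y i < hi i) ∧ ∀ z : ℂ,
      α * ∏ l ∈ range (d + 1), (z - hi l) + β * ∏ l ∈ range (d + 1), (z - lo l) =
        (α + β) * ∏ l ∈ range (d + 1), (z - y l) := by
  have mono : ∀ i l, i < l → l ≤ d → hi l < lo i := by
    intro i l hil hl
    induction l with
    | zero => omega
    | succ l ih =>
      rcases Nat.lt_or_eq_of_le (Nat.lt_succ_iff.1 hil) with h | h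
      · exact (h2 l hl).trans ((h1 l (by omega)).trans (ih h (by omega)))
      · subst h; exact h2 i hl
  set g : ℝ → ℝ := fun u =>
    α * ∏ l ∈ range (d + 1), (u - hi l) + β * ∏ l ∈ range (d + 1), (u - lo l) with hg
  have hgc : Continuous g := by rw [hg]; fun_prop
  have ex : ∀ i, ∃ y, i ≤ d → (lo i < y ∧ y < hi i) ∧ g y = 0 := by
    intro i
    by_cases hi' : i ≤ d
    swap
    · exact ⟨0, fun h => absurd h hi'⟩
    have a1 : 0 < (-1) ^ i * g (hi i) := by
      have := sign i (fun l => hi i - lo l) (d + 1) (by omega)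
        (fun l hl => sub_neg.2 (mono l i hl hi')) (fun l hl hil => sub_pos.2 (by
          rcases Nat.lt_or_eq_of_le hil with h | h
          · exact (h1 l (by omega)).trans ((mono i l h (by omega)).trans (h1 i hi'))
          · subst h; exact h1 i hi'))
      simp only [hg]
      rw [prod_eq_zero (i := i) (mem_range.2 (by omega)) (sub_self _), mul_zero, zero_add,
        mul_left_comm]
      exact mul_pos hβ this
    have a2 : (-1) ^ i * g (lo i) < 0 := by
      have := sign (i + 1) (fun l => lo i - hi l) (d + 1) (by omega)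
        (fun l hl => sub_neg.2 (by
          rcases Nat.lt_or_eq_of_le (Nat.lt_succ_iff.1 hl) with h | h
          · exact (h1 i hi').trans ((mono l i h hi').trans (h1 l (by omega)))
          · subst h; exact h1 l hi')) (fun l hl hil => sub_pos.2 (mono i l hil (by omega)))
      simp only [hg]
      rw [prod_eq_zero (i := i) (f := fun l => lo i - lo l) (mem_range.2 (by omega)) (sub_self _),
        mul_zero, add_zero, mul_left_comm]
      rw [pow_succ] at this
      nlinarith
    obtain ⟨y, hy, e⟩ := intermediate_value_Ioo (h1 i hi').le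
      (f := fun u => (-1) ^ i * g u) (by fun_prop) ⟨a2, a1⟩
    exact ⟨y, fun _ => ⟨hy, (mul_eq_zero.1 e).resolve_left (by positivity)⟩⟩
  choose y hy using ex
  refine ⟨y, fun i hi => (hy i hi).1, fun z => ?_⟩
  have hm : ∀ v : ℕ → ℝ, (∏ l ∈ range (d + 1), (X - C (v l : ℂ))).Monic := fun v =>
    monic_prod_of_monic _ _ fun l _ => monic_X_sub_C _
  have hd : ∀ v : ℕ → ℝ, (∏ l ∈ range (d + 1), (X - C (v l : ℂ))).natDegree = d + 1 := fun v => by
    rw [natDegree_finsetProd_X_sub_C_eq_card, card_range]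
  have key : C (α : ℂ) * ∏ l ∈ range (d + 1), (X - C (hi l : ℂ)) +
      C (β : ℂ) * ∏ l ∈ range (d + 1), (X - C (lo l : ℂ)) =
      C (α + β : ℂ) * ∏ l ∈ range (d + 1), (X - C (y l : ℂ)) := by
    refine eq_of_degree_sub_lt_of_eval_index_eq (s := range (d + 1)) (v := fun l => (y l : ℂ))
      ?_ ?_ ?_
    · intro i hi j hj e
      have hi' : i ≤ d := Nat.lt_succ_iff.1 (mem_range.1 hi)
      have hj' : j ≤ d := Nat.lt_succ_iff.1 (mem_range.1 hj)
      have e' : y i = y j := ofReal_injective e
      by_contra hne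
      rcases lt_or_gt_of_ne hne with h | h
      · linarith [mono i j h hj', (hy i hi').1.1, (hy j hj').1.2]
      · linarith [mono j i h hi', (hy j hj').1.1, (hy i hi').1.2]
    · rw [card_range, degree_lt_iff_coeff_zero]
      intro k hk
      simp only [coeff_sub, coeff_add, coeff_C_mul]
      rcases Nat.lt_or_eq_of_le hk with h | h
      · simp [coeff_eq_zero_of_natDegree_lt ((hd _).trans_lt h)]
      · have : ∀ v : ℕ → ℝ, (∏ l ∈ range (d + 1), (X - C (v l : ℂ))).coeff k = 1 := fun v => by
          have := (hm v).coeff_natDegree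
          rw [hd v] at this
          exact h ▸ this
        simp [this]
    · intro i hi
      have := (hy i (Nat.lt_succ_iff.1 (mem_range.1 hi))).2
      simp only [hg] at this
      simp only [eval_add, eval_mul, eval_C, eval_prod, eval_sub, eval_X]
      rw [prod_eq_zero (f := fun l => (y i : ℂ) - y l) hi (sub_self _), mul_zero]
      exact_mod_cast this
  simpa [eval_prod] using congrArg (eval z) key

noncomputable def Ps (d : ℕ) (Q : ℂ[X]) (z : ℂ) : ℂ :=
  ∑ i ∈ range (d + 1), Q.coeff i * (R i z * R i (z + 1) * R (2 * (d - i)) (2 * z + 2 + 2 * i))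

lemma Ps_mul (d : ℕ) (Q : ℂ[X]) (h : Q.natDegree ≤ d) (r z : ℂ) :
    Ps (d + 1) ((X - C r) * Q) z = z * (z + 1) * Ps d Q (z + 1) -
      r * ((2 * z + 2 + 2 * d) * (2 * z + 3 + 2 * d)) * Ps d Q z := by
  rw [sub_mul]
  simp only [Ps, coeff_sub, sub_mul, sum_sub_distrib, coeff_C_mul]
  rw [sum_range_succ' _ (d + 1), sum_range_succ _ (d + 1),
    coeff_eq_zero_of_natDegree_lt (Nat.lt_succ_of_le h), mul_sum, mul_sum]
  simp only [coeff_X_mul, mul_coeff_zero, coeff_X_zero, zero_mul, add_zero, mul_zero]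
  congr 1
  · refine sum_congr rfl fun k hk => ?_
    rw [R_succ', R_succ', Nat.add_sub_add_right]
    push_cast
    rw [show 2 * z + 2 + 2 * ((k : ℂ) + 1) = 2 * (z + 1) + 2 + 2 * k by ring]
    ring
  · refine sum_congr rfl fun k hk => ?_
    have hk' := Nat.lt_succ_iff.1 (mem_range.1 hk)
    rw [show 2 * (d + 1 - k) = 2 * (d - k) + 1 + 1 by omega, R_succ, R_succ]
    push_cast [Nat.cast_sub hk']
    ring

lemma Ps_prod (s : Multiset ℂ) (hs : ∀ r ∈ s, IsNeg r) :
    ∃ (x : ℕ → ℝ) (c : ℝ), 0 < c ∧ (∀ i < s.card, -(s.card + 1 / 2) < x i ∧ x i < 0) ∧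
      (∀ i, i + 1 < s.card → x (i + 1) + 1 < x i) ∧ ∀ z : ℂ,
      Ps s.card (s.map (X - C ·)).prod z =
        R s.card (z + 1) * (c * ∏ l ∈ range s.card, (z - x l)) := by
  induction s using Multiset.induction_on with
  | empty => exact ⟨fun _ => 0, 1, one_pos, by simp, by simp, by simp [Ps, R]⟩
  | cons a s ih =>
    obtain ⟨x, c, hc, h1, h2, h3⟩ := ih fun r hr => hs r (Multiset.mem_cons_of_mem hr)
    have ha := hs a (Multiset.mem_cons_self _ _)
    have ea : a = (a.re : ℂ) := Complex.ext rfl (by simpa using ha.1)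
    set d := s.card with hd
    have hd0 : (0 : ℝ) ≤ d := d.cast_nonneg
    obtain ⟨y, hy, e⟩ := interlace d (fun i => if i < d then x i else -(d + 3 / 2))
      (fun i => if i = 0 then 0 else x (i - 1) - 1) (by
        intro i hi
        rcases i with _ | i
        · by_cases h : 0 < d
          · simpa [h] using (h1 0 h).2
          · simp only [h, if_false, if_true]; linarith
        · by_cases h : i + 1 < d
          · simp only [h, if_true, Nat.add_eq_zero_iff, one_ne_zero, and_false, if_false,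
              Nat.add_sub_cancel]
            linarith [h2 i h]
          · simp only [h, if_false, Nat.add_eq_zero_iff, one_ne_zero, and_false,
              Nat.add_sub_cancel]
            linarith [(h1 i hi).1]) (by
        intro i hi
        simp [hi]) c (4 * -a.re * c) hc (by have := neg_pos.2 ha.2; positivity)
    refine ⟨y, c + 4 * -a.re * c, by have := neg_pos.2 ha.2; positivity, ?_, ?_, ?_⟩
    · intro i hi
      rw [Multiset.card_cons] at hi ⊢
      obtain ⟨a1, a2⟩ := hy i (by omega)
      push_cast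
      constructor
      · split_ifs at a1 with h
        · linarith [(h1 i h).1]
        · linarith
      · split_ifs at a2 with h
        · exact a2
        · linarith [(h1 (i - 1) (by omega)).2]
    · intro i hi
      rw [Multiset.card_cons] at hi
      have a1 := (hy i (by omega)).1
      have a2 := (hy (i + 1) (by omega)).2
      rw [if_pos (by omega)] at a1
      rw [if_neg (by omega), Nat.add_sub_cancel] at a2
      linarith
    · intro z
      rw [Multiset.card_cons, Multiset.map_cons, Multiset.prod_cons, Ps_mul, h3, h3]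
      · have e' := e z
        rw [prod_range_succ', prod_range_succ] at e'
        simp only [Nat.add_eq_zero_iff, one_ne_zero, and_false, if_false, Nat.add_sub_cancel,
          if_true, lt_self_iff_false] at e'
        have e3 : ∏ l ∈ range d, (z - ((if l < d then x l else -(d + 3 / 2) : ℝ) : ℂ)) =
            ∏ l ∈ range d, (z - (x l : ℂ)) :=
          prod_congr rfl fun l hl => by rw [if_pos (mem_range.1 hl)]
        rw [e3] at e'
        have e2 : ∏ l ∈ range d, (z + 1 - (x l : ℂ)) = ∏ l ∈ range d, (z - ((x l - 1 : ℝ) : ℂ)) :=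
          prod_congr rfl fun l _ => by push_cast; ring
        have r1 := R_succ d (z + 1)
        have r2 := R_succ' d (z + 1)
        rw [e2]
        push_cast at e' ⊢
        rw [← e', ← ea]
        linear_combination (-(c * z * ∏ l ∈ range d, (z - ((x l : ℂ) - 1)))) * r2 +
          (4 * a * c * (z + d + 3 / 2) * ∏ l ∈ range d, (z - (x l : ℂ))) * r1
      · rw [natDegree_multiset_prod_X_sub_C_eq_card]

theorem main {n : ℕ} {f : ℕ → ℂ} (hf : Neg n f) :
    let P := fun z : ℂ => ∑ k ∈ range (n + 1), f k * f (n - k) * n.choose k *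
      (R k z * R (n - k) z - R k (z + 1) * R (n - k) (z - 1))
    (∀ z, P z = 0) ∨ ∀ z, P z = 0 → IsNeg z := by
  intro P
  have hh := hf.pal
  obtain ⟨γ, hγ⟩ := gamma n (toP n fun k => f k * f (n - k) * n.choose k) (toP_deg _ _) (by
    intro k hk
    rw [toP_coeff _ _ hk, toP_coeff _ _ (Nat.sub_le n k), Nat.sub_sub_self hk, Nat.choose_symm hk]
    ring)
  have hΓ := gamma_neg hh hγ
  have hP : ∀ z, P z = ∑ i ∈ range (n / 2), (toP (n / 2) γ).derivative.coeff i *
      (R i z * R i (z + 1) * R (n - 2 * (i + 1)) (2 * z + 2 + 2 * i)) := by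
    intro z
    have e1 : P z = L n z z (toP n fun k => f k * f (n - k) * n.choose k) -
        L n (z + 1) (z - 1) (toP n fun k => f k * f (n - k) * n.choose k) := by
      simp only [P, L, ← sum_sub_distrib]
      refine sum_congr rfl fun k hk => ?_
      rw [toP_coeff _ _ (Nat.lt_succ_iff.1 (mem_range.1 hk))]
      ring
    have e2 : ∀ a b, L n a b (toP n fun k => f k * f (n - k) * n.choose k) =
        ∑ j ∈ range (n / 2 + 1), γ j * (R j a * R j b * R (n - 2 * j) (a + b + 2 * j)) := by
      intro a b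
      rw [hγ]
      simp only [L, finsetSum_coeff, coeff_C_mul, sum_mul]
      rw [sum_comm]
      refine sum_congr rfl fun j hj => ?_
      have hj' : 2 * j ≤ n := by have := mem_range.1 hj; omega
      rw [← L_basis, Nat.add_sub_cancel' hj', L, mul_sum]
      exact sum_congr rfl fun k _ => by ring
    rw [e1, e2, e2, ← sum_sub_distrib, sum_range_succ']
    simp only [show z + 1 + (z - 1) = z + z by ring, R, range_zero, prod_empty, sub_self, add_zero]
    refine sum_congr rfl fun i hi => ?_
    rw [coeff_derivative, toP_coeff _ _ (mem_range.1 hi)]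
    have r1 := R_succ i z
    have r2 := R_succ' i z
    have r3 := R_succ i (z + 1)
    have r4 := R_succ' i (z - 1)
    rw [sub_add_cancel] at r4
    simp only [R] at r1 r2 r3 r4
    rw [r3, r4]
    nth_rewrite 1 [r1]
    rw [r2]
    push_cast
    rw [show z + z + 2 * ((i : ℂ) + 1) = 2 * z + 2 + 2 * i by ring]
    ring
  set Q := (toP (n / 2) γ).derivative with hQ
  by_cases h0 : Q = 0
  · left; intro z; simp [hP, h0]
  right
  have hdeg : 0 < (toP (n / 2) γ).natDegree := by
    by_contra h
    exact h0 (derivative_of_natDegree_zero (by omega))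
  have hlt : Q.natDegree < n / 2 := (natDegree_derivative_lt hdeg.ne').trans_le (toP_deg _ _)
  have hr : ∀ r ∈ Q.roots, IsNeg r := by
    intro r hr
    have h1 : r ∈ Q.rootSet ℂ := by
      rw [mem_rootSet]; exact ⟨h0, by simpa using (mem_roots h0).1 hr⟩
    have hconv : Convex ℝ {z : ℂ | IsNeg z} :=
      (convex_hyperplane imLm.isLinear 0).inter (convex_halfSpace_re_lt 0)
    refine convexHull_min ?_ hconv
      (rootSet_derivative_subset_convexHull_rootSet (natDegree_pos_iff_degree_pos.1 hdeg) h1)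
    intro w hw
    rw [mem_rootSet] at hw
    exact hΓ w (by simpa using hw.2)
  obtain ⟨x, c, hc, h1, -, h3⟩ := Ps_prod Q.roots hr
  have hcard : Q.roots.card = Q.natDegree := (IsAlgClosed.splits Q).natDegree_eq_card_roots.symm
  rw [hcard] at h1 h3
  set d := Q.natDegree
  intro z hz
  have e : P z = Q.leadingCoeff * Ps d (Q.roots.map (X - C ·)).prod z *
      R (n - 2 * (d + 1)) (2 * z + 2 + 2 * d) := by
    rw [hP, Ps, mul_sum, sum_mul, ← sum_subset (range_subset_range.2 (show d + 1 ≤ n / 2 by omega))]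
    · refine sum_congr rfl fun i hi => ?_
      have hi' := Nat.lt_succ_iff.1 (mem_range.1 hi)
      conv_lhs => rw [(IsAlgClosed.splits Q).eq_prod_roots, coeff_C_mul]
      rw [show n - 2 * (i + 1) = 2 * (d - i) + (n - 2 * (d + 1)) by omega, R_add]
      push_cast [Nat.cast_sub hi']
      rw [show 2 * z + 2 + 2 * (i : ℂ) + 2 * (d - i) = 2 * z + 2 + 2 * d by ring]
      ring
    · intro i _ hi
      rw [coeff_eq_zero_of_natDegree_lt (by simpa using hi), zero_mul]
  rw [e, h3] at hz
  simp only [mul_eq_zero, leadingCoeff_eq_zero, h0, false_or, ofReal_eq_zero, hc.ne'] at hz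
  rcases hz with (hz | hz) | hz
  · exact R_neg d z 1 1 one_pos one_pos (by simpa using hz)
  · obtain ⟨i, hi, e⟩ := prod_eq_zero_iff.1 hz
    rw [sub_eq_zero.1 e]
    exact ⟨ofReal_im _, by simpa using (h1 i (mem_range.1 hi)).2⟩
  · exact R_neg _ z 2 (2 + 2 * d) two_pos (by positivity) (by push_cast; rwa [← add_assoc])

end H18Poch
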