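import Mathlib

namespace H18Ptak
open Complex Metric Set Filter Topology MeasureTheory

noncomputable abbrev e (θ : ℝ) : ℂ := circleMap 0 1 θ

lemma norm_e (θ : ℝ) : ‖e θ‖ = 1 := by simp [e]

lemma e_sub_ne {a : ℂ} (ha : ‖a‖ < 1) (θ : ℝ) : e θ - a ≠ 0 := by
  intro h
  have := norm_e θ
  rw [sub_eq_zero.1 h] at this; linarith

lemma L_pos {a : ℂ} (ha : ‖a‖ < 1) (θ : ℝ) : 0 < ‖e θ - a‖ ^ 2 :=
  pow_pos (norm_pos_iff.2 (e_sub_ne ha θ)) 2

lemma feyn {X Y : ℝ} (hX : 0 < X) (hY : 0 < Y) (k : ℕ) :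
    ∫ t in (0:ℝ)..1, (k + 1) * t ^ k / (t * X + (1 - t) * Y) ^ (k + 2) = 1 / (X ^ (k + 1) * Y) := by
  have hD : ∀ t ∈ uIcc (0:ℝ) 1, 0 < t * X + (1 - t) * Y := by
    intro t ht
    rw [uIcc_of_le zero_le_one] at ht
    rcases le_total X Y with h | h <;> nlinarith [ht.1, ht.2]
  rw [intervalIntegral.integral_eq_sub_of_hasDerivAt
    (f := fun t => (t / (t * X + (1 - t) * Y)) ^ (k + 1) / Y)]
  · simp; ring
  · intro t ht
    have h0 := (hD t ht).ne'
    have h1 : HasDerivAt (fun t => t * X + (1 - t) * Y) (1 * X + -1 * Y) t :=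
      ((hasDerivAt_id t).mul_const X).add (((hasDerivAt_id t).const_sub 1).mul_const Y)
    have h2 := (((hasDerivAt_id t).div h1 h0).pow (k + 1)).div_const Y
    refine HasDerivAt.congr_deriv h2 ?_
    simp only [id, Pi.div_apply, Nat.add_sub_cancel, div_pow]
    push_cast
    field_simp; ring
  · apply ContinuousOn.intervalIntegrable
    exact ContinuousOn.div (by fun_prop) (by fun_prop) fun t ht => pow_ne_zero _ (hD t ht).ne'

lemma step {X Y ψ : ℝ → ℝ} (hX : ∀ θ, 0 < X θ) (hY : ∀ θ, 0 < Y θ) (cX : Continuous X)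
    (cY : Continuous Y) (cψ : Continuous ψ) (k : ℕ) (b : ℝ)
    (h : ∀ t ∈ Icc (0:ℝ) 1, ∫ θ in (0:ℝ)..b, ψ θ / (t * X θ + (1 - t) * Y θ) ^ (k + 2) ≤ 0) :
    ∫ θ in (0:ℝ)..b, ψ θ / (X θ ^ (k + 1) * Y θ) ≤ 0 := by
  have hD : ∀ θ, ∀ t ∈ uIcc (0:ℝ) 1, 0 < t * X θ + (1 - t) * Y θ := by
    intro θ t ht
    rw [uIcc_of_le zero_le_one] at ht
    rcases le_total (X θ) (Y θ) with h | h <;> nlinarith [ht.1, ht.2, hX θ, hY θ]
  have e1 : ∀ θ, ψ θ / (X θ ^ (k + 1) * Y θ) = ∫ t in (0:ℝ)..1,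
      (k + 1) * t ^ k * (ψ θ / (t * X θ + (1 - t) * Y θ) ^ (k + 2)) := by
    intro θ
    rw [div_eq_mul_one_div, ← feyn (hX θ) (hY θ), ← intervalIntegral.integral_const_mul]
    congr 1; ext t; ring
  simp_rw [e1]
  rw [intervalIntegral_intervalIntegral_swap]
  · simp_rw [intervalIntegral.integral_const_mul]
    rw [← neg_nonneg, ← intervalIntegral.integral_neg]
    refine intervalIntegral.integral_nonneg zero_le_one fun t ht => ?_
    have := h t ht
    have h2 : 0 ≤ ((k:ℝ) + 1) * t ^ k := by have := ht.1; positivity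
    nlinarith
  · refine (ContinuousOn.integrableOn_compact (isCompact_uIcc.prod isCompact_uIcc) ?_).mono_set
      (prod_mono uIoc_subset_uIcc uIoc_subset_uIcc)
    refine ContinuousOn.mul (by fun_prop) (ContinuousOn.div (by fun_prop) (by fun_prop) ?_)
    rintro ⟨θ, t⟩ hp
    exact pow_ne_zero _ (hD θ t hp.2).ne'

lemma cone {r : ℝ} (hr0 : 0 < r) (hr : r < 1) {a b : ℂ} (ha : ‖a‖ ≤ r) (hb : ‖b‖ ≤ r) {t : ℝ}
    (ht : t ∈ Icc (0:ℝ) 1) : ∃ κ > 0, ∃ c : ℂ, ‖c‖ ≤ r ∧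
      ∀ θ, t * ‖e θ - a‖ ^ 2 + (1 - t) * ‖e θ - b‖ ^ 2 = κ * ‖e θ - c‖ ^ 2 := by
  obtain ⟨t0, t1⟩ := ht
  set α : ℝ := t * (1 + ‖a‖ ^ 2) + (1 - t) * (1 + ‖b‖ ^ 2) with hα
  set β : ℂ := t * a + (1 - t : ℝ) * b with hβ
  have hm : ∀ x : ℝ, 0 ≤ x → x ≤ r → x * (1 + r ^ 2) ≤ (1 + x ^ 2) * r := by
    intro x h0 h1
    nlinarith [mul_nonneg (sub_nonneg.2 h1) (by nlinarith : 0 ≤ 1 - r * x)]
  have hβ1 : ‖β‖ ≤ t * ‖a‖ + (1 - t) * ‖b‖ := by
    refine (norm_add_le _ _).trans (le_of_eq ?_)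
    rw [norm_mul, norm_mul, Complex.norm_real, Complex.norm_real, Real.norm_of_nonneg t0,
      Real.norm_of_nonneg (by linarith)]
  have h1 : ‖β‖ * (1 + r ^ 2) ≤ α * r := by
    have h2 := mul_le_mul_of_nonneg_left (hm _ (norm_nonneg a) ha) t0
    have h3 := mul_le_mul_of_nonneg_left (hm _ (norm_nonneg b) hb) (by linarith : 0 ≤ 1 - t)
    have h4 := mul_le_mul_of_nonneg_right hβ1 (by positivity : 0 ≤ 1 + r ^ 2)
    rw [hα]; nlinarith
  have hα0 : 0 < α := by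
    have h2 := mul_nonneg t0 (sq_nonneg ‖a‖)
    have h3 := mul_nonneg (by linarith : 0 ≤ 1 - t) (sq_nonneg ‖b‖)
    rw [hα]; nlinarith
  have hb0 := norm_nonneg β
  have h2 : 2 * ‖β‖ ≤ α := by
    by_contra hc
    push Not at hc
    nlinarith [mul_pos hα0 (by nlinarith : 0 < 1 + r ^ 2 - 2 * r),
      mul_lt_mul_of_pos_right hc (by positivity : 0 < 1 + r ^ 2)]
  obtain ⟨s, hs0, hs⟩ : ∃ s : ℝ, 0 ≤ s ∧ s ^ 2 = α ^ 2 - 4 * ‖β‖ ^ 2 :=
    ⟨√(α ^ 2 - 4 * ‖β‖ ^ 2), Real.sqrt_nonneg _, Real.sq_sqrt (by nlinarith)⟩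
  set κ := (α + s) / 2 with hκ
  have hκ0 : 0 < κ := by positivity
  have hq : κ ^ 2 - α * κ + ‖β‖ ^ 2 = 0 := by rw [hκ]; nlinarith
  have hκc : (κ : ℂ) ≠ 0 := by exact_mod_cast hκ0.ne'
  have hn : ‖β / κ‖ = ‖β‖ / κ := by rw [norm_div, Complex.norm_real, Real.norm_of_nonneg hκ0.le]
  refine ⟨κ, hκ0, β / κ, ?_, fun θ => ?_⟩
  · rw [hn, div_le_iff₀ hκ0]
    by_contra hc
    push Not at hc
    have h3 : ‖β‖ ≤ κ := by rw [hκ]; linarith
    have h4 : r * ‖β‖ < κ := by nlinarith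
    have h5 := mul_pos (sub_pos.2 hc) (sub_pos.2 h4)
    nlinarith [mul_le_mul_of_nonneg_left h1 hκ0.le]
  · have hL : ∀ c : ℂ, ‖e θ - c‖ ^ 2 = 1 + ‖c‖ ^ 2 - 2 * ((e θ).re * c.re + (e θ).im * c.im) := by
      intro c
      have h0 : ‖e θ‖ ^ 2 = 1 := by rw [norm_e]; norm_num
      rw [← h0]
      simp only [Complex.sq_norm, Complex.normSq_apply]; simp; ring
    rw [hL, hL, hL, hn, Complex.div_ofReal_re, Complex.div_ofReal_im]
    have r1 : β.re = t * a.re + (1 - t) * b.re := by simp [hβ]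
    have r2 : β.im = t * a.im + (1 - t) * b.im := by simp [hβ]
    rw [r1, r2]
    field_simp
    rw [hα] at hq
    linear_combination (-1) * hq

lemma cL (a : ℂ) : Continuous fun θ => ‖e θ - a‖ ^ 2 := by fun_prop

lemma cW (l : Multiset ℂ) : Continuous fun θ => (l.map fun a => ‖e θ - a‖ ^ 2).prod :=
  continuous_multiset_prod _ fun a _ => cL a

lemma W_pos {l : Multiset ℂ} (hl : ∀ a ∈ l, ‖a‖ < 1) (θ : ℝ) :
    0 < (l.map fun a => ‖e θ - a‖ ^ 2).prod := by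
  apply Multiset.prod_pos
  intro x hx
  obtain ⟨a, ha, rfl⟩ := Multiset.mem_map.1 hx
  exact L_pos (hl a ha) θ

lemma mix {r : ℝ} (hr0 : 0 < r) (hr : r < 1) (b : ℝ) (l : Multiset ℂ) : ∀ ψ : ℝ → ℝ, Continuous ψ →
    (∀ a ∈ l, ‖a‖ ≤ r) →
    (∀ c : ℂ, ‖c‖ ≤ r → ∫ θ in (0:ℝ)..b, ψ θ / (‖e θ - c‖ ^ 2) ^ l.card ≤ 0) →
    ∫ θ in (0:ℝ)..b, ψ θ / (l.map fun a => ‖e θ - a‖ ^ 2).prod ≤ 0 := by
  induction l using Multiset.induction_on with
  | empty => intro ψ _ _ h; simpa using h 0 (by simpa using hr0.le)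
  | cons y l ih =>
    intro ψ cψ hl h
    have hy : ‖y‖ ≤ r := hl y (by simp)
    have hY := L_pos (hy.trans_lt hr)
    have := ih (fun θ => ψ θ / ‖e θ - y‖ ^ 2) (cψ.div (cL y) fun θ => (hY θ).ne')
      (fun a ha => hl a (by simp [ha])) (by
        intro c hc
        rcases hk : l.card with _ | k
        · simpa [hk] using h y hy
        · have hX := L_pos (hc.trans_lt hr)
          have := step hX hY (cL c) (cL y) cψ k b (by
            intro t ht
            obtain ⟨κ, hκ, d, hd, hd2⟩ := cone hr0 hr hc hy ht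
            have h2 := h d hd
            simp only [Multiset.card_cons, hk] at h2
            simp_rw [hd2, mul_pow, mul_comm (κ ^ (k + 2)), ← div_div]
            rw [intervalIntegral.integral_div]
            exact div_nonpos_of_nonpos_of_nonneg h2 (by positivity))
          simpa only [div_div, mul_comm] using this)
    simpa only [Multiset.map_cons, Multiset.prod_cons, div_div] using this

lemma harm {r : ℝ} (hr : r < 1) {g : ℂ → ℝ} (cg : Continuous fun θ => g (e θ))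
    (h : ∀ a : ℂ, ‖a‖ ≤ r → ∫ θ in (0:ℝ)..2 * Real.pi, g (e θ) / ‖e θ - a‖ ^ 2 ≤ 0)
    {c : ℂ} (hc : ‖c‖ < r) (h0 : ∫ θ in (0:ℝ)..2 * Real.pi, g (e θ) / ‖e θ - c‖ ^ 2 = 0)
    {a : ℂ} (ha : ‖a‖ ≤ r) : ∫ θ in (0:ℝ)..2 * Real.pi, g (e θ) / ‖e θ - a‖ ^ 2 = 0 := by
  have hr0 : 0 < r := (norm_nonneg _).trans_lt hc
  have hg : CircleIntegrable g 0 1 := cg.intervalIntegrable _ _
  have hg' : CircleIntegrable (fun ζ => (g ζ : ℂ)) 0 1 :=
    (Complex.continuous_ofReal.comp cg).intervalIntegrable _ _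
  set H : ℂ → ℂ := fun w => Real.circleAverage (fun ζ => herglotzRieszKernel 0 w ζ • (g ζ : ℂ)) 0 1
  have hH : DifferentiableOn ℂ H (ball 0 1) :=
    differentiableOn_circleAverage_herglotzRieszKernel_smul hg'
  have hre : ∀ w : ℂ, ‖w‖ ≤ r → (H w).re = (2 * Real.pi)⁻¹ * (1 - ‖w‖ ^ 2) *
      ∫ θ in (0:ℝ)..2 * Real.pi, g (e θ) / ‖e θ - w‖ ^ 2 := by
    intro w hw
    rw [re_circleAverage_herglotzRieszKernel_smul hg (by simp; linarith),
      ← poissonKernel_eq_re_herglotzRieszKernel, Real.circleAverage_def, smul_eq_mul, mul_assoc]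
    congr 1
    rw [← intervalIntegral.integral_const_mul]
    congr 1; ext θ
    simp [poissonKernel_def]; ring
  have hpos : ∀ w : ℂ, ‖w‖ ≤ r → 0 < (2 * Real.pi)⁻¹ * (1 - ‖w‖ ^ 2) := by
    intro w hw
    have := Real.pi_pos
    have : 0 < 1 - ‖w‖ ^ 2 := by nlinarith [norm_nonneg w]
    positivity
  have hcl : closure (ball (0:ℂ) r) ⊆ ball 0 1 := by
    rw [closure_ball _ hr0.ne']; exact closedBall_subset_ball hr
  have key := Complex.norm_eqOn_closure_of_isPreconnected_of_isMaxOn (f := fun w => cexp (H w))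
    (c := c) (convex_ball (0:ℂ) r).isPreconnected isOpen_ball
    ((hH.cexp.mono hcl).diffContOnCl) (by simpa using hc) (by
      intro w hw
      have hw' : ‖w‖ ≤ r := le_of_lt (by simpa using hw)
      simp only [Function.comp, mem_setOf_eq, Complex.norm_exp, Real.exp_le_exp]
      rw [hre w hw', hre c hc.le, h0, mul_zero]
      exact mul_nonpos_of_nonneg_of_nonpos (hpos w hw').le (h w hw'))
    (x := a) (by rw [closure_ball _ hr0.ne']; simpa using ha)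
  simp only [Function.comp, Function.const, Complex.norm_exp, Real.exp_eq_exp] at key
  rw [hre a ha, hre c hc.le, h0, mul_zero] at key
  exact (mul_eq_zero.1 key).resolve_left (hpos a ha).ne'

lemma harm_iter {r : ℝ} (hr : r < 1) (n : ℕ) {g : ℂ → ℝ} (cg : Continuous fun θ => g (e θ))
    (h : ∀ l : Multiset ℂ, l.card = n → (∀ a ∈ l, ‖a‖ ≤ r) →
      ∫ θ in (0:ℝ)..2 * Real.pi, g (e θ) / (l.map fun a => ‖e θ - a‖ ^ 2).prod ≤ 0)
    {c : ℂ} (hc : ‖c‖ < r)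
    (h0 : ∫ θ in (0:ℝ)..2 * Real.pi, g (e θ) / (‖e θ - c‖ ^ 2) ^ n = 0) {a : ℂ} (ha : ‖a‖ ≤ r) :
    ∫ θ in (0:ℝ)..2 * Real.pi, g (e θ) / (‖e θ - a‖ ^ 2) ^ n = 0 := by
  have key : ∀ k j, j + k = n → ∫ θ in (0:ℝ)..2 * Real.pi,
      g (e θ) / ((‖e θ - c‖ ^ 2) ^ j * (‖e θ - a‖ ^ 2) ^ k) = 0 := by
    intro k
    induction k with
    | zero => intro j hj; simpa [← hj] using h0
    | succ k ih =>
      intro j hj
      have h1 := ih (j + 1) (by omega)
      have := harm hr (g := fun ζ => g ζ / ((‖ζ - c‖ ^ 2) ^ j * (‖ζ - a‖ ^ 2) ^ k))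
        (cg.div (by fun_prop) fun θ => (mul_pos (pow_pos (L_pos (hc.trans hr) θ) _)
          (pow_pos (L_pos (ha.trans_lt hr) θ) _)).ne') (by
          intro d hd
          have := h (d ::ₘ (Multiset.replicate j c + Multiset.replicate k a)) (by simp; omega) (by
            intro x hx
            simp only [Multiset.mem_cons, Multiset.mem_add, Multiset.mem_replicate] at hx
            rcases hx with rfl | ⟨-, rfl⟩ | ⟨-, rfl⟩
            exacts [hd, hc.le, ha])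
          simpa only [Multiset.map_cons, Multiset.prod_cons, Multiset.map_add, Multiset.prod_add,
            Multiset.map_replicate, Multiset.prod_replicate, div_div, mul_comm] using this)
        hc (by
          rw [← h1]; congr 1; ext θ; rw [div_div]; congr 1; ring) ha
      rw [← this]; congr 1; ext θ; rw [div_div]; congr 1; ring
  simpa using key n 0 (by simp)

end H18Ptak
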