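import Pool.Agent.Lib.helper18.Ptak1

namespace H18Ptak
open Complex Metric Set Filter Topology MeasureTheory Polynomial

noncomputable def pl (l : Multiset ℂ) : ℂ[X] := (l.map fun a => X - C a).prod

lemma pl_eval (l : Multiset ℂ) (z : ℂ) : (pl l).eval z = (l.map fun a => z - a).prod := by
  simp [pl, eval_multiset_prod, Multiset.map_map]

lemma pl_norm (l : Multiset ℂ) (z : ℂ) :
    ‖(pl l).eval z‖ ^ 2 = (l.map fun a => ‖z - a‖ ^ 2).prod := by
  rw [pl_eval]
  induction l using Multiset.induction_on with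
  | empty => simp
  | cons a l ih => simp only [Multiset.map_cons, Multiset.prod_cons, norm_mul, mul_pow, ih]

lemma pl_ne {l : Multiset ℂ} (hl : ∀ a ∈ l, ‖a‖ < 1) (θ : ℝ) : (pl l).eval (e θ) ≠ 0 := by
  have := W_pos hl θ
  rw [← pl_norm] at this
  intro h; simp [h] at this

lemma scalar_zero {l : Multiset ℂ} (hl : ∀ a ∈ l, ‖a‖ < 1) (m i : ℕ) (hi : i < l.card) :
    ∫ θ in (0:ℝ)..2 * Real.pi, (e θ)⁻¹ ^ m * (((pl l).eval (e θ))⁻¹ * e θ ^ i) = 0 := by
  have hd : Differentiable ℂ fun η : ℂ => (l.map fun a => 1 - a * η).prod := by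
    clear hl hi
    induction l using Multiset.induction_on with
    | empty => simp
    | cons a l ih => simp only [Multiset.map_cons, Multiset.prod_cons]; fun_prop
  have hne : ∀ η ∈ closure (ball (0:ℂ) |1|), (l.map fun a => 1 - a * η).prod ≠ 0 := by
    intro η hη
    rw [abs_one, closure_ball _ one_ne_zero] at hη
    have h1 : ‖η‖ ≤ 1 := by simpa using hη
    apply Multiset.prod_ne_zero
    intro h
    obtain ⟨a, ha, h2⟩ := Multiset.mem_map.1 h
    have h3 : ‖a * η‖ = 1 := by rw [← sub_eq_zero.1 h2]; simp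
    rw [norm_mul] at h3
    nlinarith [hl a ha, norm_nonneg a]
  obtain ⟨j, hj⟩ := Nat.exists_eq_add_of_lt hi
  have h1 := DiffContOnCl.circleAverage (c := 0) (R := 1)
    (f := fun η : ℂ => η ^ (m + j + 1) / (l.map fun a => 1 - a * η).prod)
    (DifferentiableOn.diffContOnCl (DifferentiableOn.div (by fun_prop) hd.differentiableOn hne))
  rw [← Real.circleAverage_zero_one_congr_inv, Real.circleAverage_def] at h1
  simp only [ne_eq, Nat.add_eq_zero_iff, one_ne_zero, and_false, not_false_eq_true, zero_pow,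
    zero_div, smul_eq_zero] at h1
  rw [← h1.resolve_left (by have := Real.pi_pos; positivity)]
  congr 1; ext θ
  have h0 : e θ ≠ 0 := by simp [e]
  have h2 : (pl l).eval (e θ) = (l.map fun a => 1 - a * (e θ)⁻¹).prod * e θ ^ l.card := by
    rw [pl_eval, ← Multiset.prod_replicate, ← Multiset.map_const', ← Multiset.prod_map_mul]
    congr 2; ext a; field_simp
  have h3 := pl_ne hl θ
  rw [h2] at h3 ⊢
  have h4 := left_ne_zero_of_mul h3
  show _ = (e θ)⁻¹ ^ (m + j + 1) / _
  generalize (l.map fun a => 1 - a * (e θ)⁻¹).prod = P at h4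
  rw [hj]; simp only [inv_pow]; field_simp; ring

variable {H : Type*} [NormedAddCommGroup H] [InnerProductSpace ℂ H]

lemma exists_S (T : H →L[ℂ] H) (p : ℂ[X]) (n : ℕ) (hn : p.natDegree ≤ n) (hp : aeval T p = 0) :
    ∃ S : Fin n → H →L[ℂ] H, (∀ i x, S i (T x) = T (S i x)) ∧ ∀ (z : ℂ) x,
      z • (∑ i : Fin n, z ^ (i : ℕ) • S i x) - T (∑ i : Fin n, z ^ (i : ℕ) • S i x) = p.eval z • x := by
  refine ⟨fun i => ∑ k ∈ Finset.range (n + 1), if (i : ℕ) < k then p.coeff k • T ^ (k - 1 - i) else 0,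
    fun i x => ?_, fun z x => ?_⟩
  · have : Commute (∑ k ∈ Finset.range (n + 1),
        if (i : ℕ) < k then p.coeff k • T ^ (k - 1 - i) else 0) T := by
      apply Commute.sum_left
      intro k _
      split_ifs
      · exact ((Commute.refl T).pow_left _).smul_left _
      · exact Commute.zero_left _
    exact congrArg (fun A : H →L[ℂ] H => A x) this.eq
  have h1 : (∑ i : Fin n, z ^ (i : ℕ) • ∑ k ∈ Finset.range (n + 1),
      if (i : ℕ) < k then p.coeff k • T ^ (k - 1 - i) else 0) = ∑ k ∈ Finset.range (n + 1),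
        p.coeff k • ∑ i ∈ Finset.range k, (z • (1 : H →L[ℂ] H)) ^ i * T ^ (k - 1 - i) := by
    rw [Fin.sum_univ_eq_sum_range (fun i => z ^ i • ∑ k ∈ Finset.range (n + 1),
      if i < k then p.coeff k • T ^ (k - 1 - i) else 0)]
    simp_rw [Finset.smul_sum]
    rw [Finset.sum_comm]
    refine Finset.sum_congr rfl fun k hk => ?_
    have hk' : Finset.range k = (Finset.range n).filter (· < k) := by
      ext i; simp at hk ⊢; omega
    rw [hk', Finset.sum_filter]
    refine Finset.sum_congr rfl fun i _ => ?_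
    split_ifs
    · rw [_root_.smul_pow, one_pow, smul_mul_assoc, one_mul, smul_comm]
    · simp
  have h2 : (z • (1 : H →L[ℂ] H) - T) * ∑ k ∈ Finset.range (n + 1),
      p.coeff k • ∑ i ∈ Finset.range k, (z • (1 : H →L[ℂ] H)) ^ i * T ^ (k - 1 - i) =
      p.eval z • 1 := by
    rw [Finset.mul_sum]
    simp_rw [mul_smul_comm, ((Commute.one_left T).smul_left z).mul_geom_sum₂, smul_sub]
    rw [Finset.sum_sub_distrib, ← aeval_eq_sum_range' (Nat.lt_succ_of_le hn) T, hp, sub_zero,
      eval_eq_sum_range' (Nat.lt_succ_of_le hn), Finset.sum_smul]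
    refine Finset.sum_congr rfl fun k _ => ?_
    rw [_root_.smul_pow, one_pow, smul_smul]
  rw [← h1] at h2
  have h3 := congrArg (fun A : H →L[ℂ] H => A x) h2
  simpa [ContinuousLinearMap.sum_apply, -map_sum] using h3

noncomputable def q {n : ℕ} (v : Fin n → ℂ) (z : ℂ) : ℂ := ∑ i : Fin n, z ^ (i : ℕ) * v i

noncomputable def φ {n : ℕ} (f : ℂ[X]) (M : ℝ) (v w : Fin n → ℂ) (z : ℂ) : ℝ :=
  (f.eval z * ((starRingEnd ℂ) (q w z) * q v z)).re - M / 2 * (‖q v z‖ ^ 2 + ‖q w z‖ ^ 2)

lemma cφ {n : ℕ} (f : ℂ[X]) (M : ℝ) (v w : Fin n → ℂ) : Continuous fun θ => φ f M v w (e θ) := by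
  unfold φ q
  fun_prop

lemma ident (T : H →L[ℂ] H) (l : Multiset ℂ) (hl : ∀ a ∈ l, ‖a‖ < 1) (hp : aeval T (pl l) = 0)
    {ι : Type*} [Fintype ι] (d : ι → H →L[ℂ] ℂ)
    (hd : ∀ u v, inner ℂ v u - inner ℂ (T v) (T u) = ∑ j, (starRingEnd ℂ) (d j v) * d j u)
    {n : ℕ} (hn : l.card = n) :
    ∃ U : ι → H →ₗ[ℂ] (Fin n → ℂ), ∀ (f : ℂ[X]) (M : ℝ) x y,
      2 * Real.pi * ((inner ℂ y (aeval T f x)).re - M / 2 * (‖x‖ ^ 2 + ‖y‖ ^ 2)) =
        ∑ j, ∫ θ in (0:ℝ)..2 * Real.pi,
          φ f M (U j x) (U j y) (e θ) / (l.map fun a => ‖e θ - a‖ ^ 2).prod := by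
  obtain ⟨S, hS, hS2⟩ := exists_S T (pl l) n
    (by rw [pl, natDegree_multiset_prod_X_sub_C_eq_card, hn]) hp
  set u : H → ℝ → H := fun x θ => ((pl l).eval (e θ))⁻¹ • ∑ i : Fin n, e θ ^ (i : ℕ) • S i x with hu
  have hP := pl_ne hl
  have cP : Continuous fun θ => ((pl l).eval (e θ))⁻¹ := Continuous.inv₀ (by fun_prop) hP
  have cu : ∀ x, Continuous (u x) := fun x => cP.smul (by fun_prop)
  have h0 : ∀ θ, e θ ≠ 0 := by simp [e]
  have ce : Continuous fun θ => (e θ)⁻¹ := Continuous.inv₀ (by fun_prop) h0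
  have hconj : ∀ θ, (starRingEnd ℂ) (e θ) = (e θ)⁻¹ := fun θ => (Complex.inv_eq_conj (norm_e θ)).symm
  have r1 : ∀ x θ, T (u x θ) = e θ • u x θ - x := by
    intro x θ
    have := hS2 (e θ) x
    simp only [hu, map_smul]
    have h2 : T (∑ i : Fin n, e θ ^ (i : ℕ) • S i x) =
        e θ • (∑ i : Fin n, e θ ^ (i : ℕ) • S i x) - (pl l).eval (e θ) • x := by rw [← this]; abel
    rw [h2, smul_sub, smul_smul _ _ x, inv_mul_cancel₀ (hP θ), one_smul, smul_comm]
  have r2 : ∀ x θ, u (T x) θ = T (u x θ) := by intro x θ; simp [hu, hS]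
  have z1 : ∀ m x y, ∫ θ in (0:ℝ)..2 * Real.pi, (e θ)⁻¹ ^ m * inner ℂ y (u x θ) = 0 := by
    intro m x y
    have : ∀ θ, (e θ)⁻¹ ^ m * inner ℂ y (u x θ) = ∑ i : Fin n,
        (e θ)⁻¹ ^ m * (((pl l).eval (e θ))⁻¹ * e θ ^ (i : ℕ)) * inner ℂ y (S i x) := by
      intro θ
      simp only [hu, inner_smul_right, inner_sum, Finset.mul_sum, mul_assoc]
    simp_rw [this]
    rw [intervalIntegral.integral_finsetSum fun i _ => Continuous.intervalIntegrable (by fun_prop) _ _]
    refine Finset.sum_eq_zero fun i _ => ?_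
    rw [intervalIntegral.integral_mul_const, scalar_zero hl m i (hn ▸ i.2), zero_mul]
  have z0 : ∀ m : ℕ, ∫ θ in (0:ℝ)..2 * Real.pi, e θ ^ (m + 1) = 0 := by
    intro m
    have h1 := DiffContOnCl.circleAverage (c := 0) (R := 1) (f := fun η : ℂ => η ^ (m + 1))
      (Differentiable.diffContOnCl (by fun_prop))
    rw [Real.circleAverage_def] at h1
    simpa using h1
  have z2 : ∀ (m : ℕ) x y, ∫ θ in (0:ℝ)..2 * Real.pi, e θ ^ (m + 1) * inner ℂ y (u x θ) =
      2 * Real.pi * inner ℂ y ((T ^ m) x) := by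
    intro m
    have hs : ∀ (k : ℕ) x y θ, e θ ^ (k + 1) * inner ℂ y (u x θ) =
        e θ ^ k * inner ℂ y x + e θ ^ k * inner ℂ y (u (T x) θ) := by
      intro k x y θ
      rw [r2, r1, inner_sub_right, inner_smul_right _ (u x θ)]; ring
    induction m with
    | zero =>
      intro x y
      simp_rw [hs]
      have := cu (T x)
      rw [intervalIntegral.integral_add (Continuous.intervalIntegrable (by fun_prop) _ _)
        (Continuous.intervalIntegrable (by fun_prop) _ _)]
      have h2 := z1 0 (T x) y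
      simp only [pow_zero] at h2 ⊢
      rw [h2]; simp
    | succ m ih =>
      intro x y
      simp_rw [hs (m + 1)]
      have := cu (T x)
      rw [intervalIntegral.integral_add (Continuous.intervalIntegrable (by fun_prop) _ _)
        (Continuous.intervalIntegrable (by fun_prop) _ _), ih, intervalIntegral.integral_mul_const,
        z0, pow_succ]
      simp
  set K : H → H → ℝ → ℂ := fun x y θ => inner ℂ (u y θ) (u x θ) - inner ℂ (T (u y θ)) (T (u x θ))
    with hK
  have cK : ∀ x y, Continuous (K x y) := fun x y => by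
    have := cu x; have := cu y; simp only [hK]; fun_prop
  have k1 : ∀ x y θ, K x y θ = e θ * inner ℂ y (u x θ) +
      (starRingEnd ℂ) (e θ * inner ℂ x (u y θ)) - inner ℂ y x := by
    intro x y θ
    simp only [hK, r1, inner_sub_left, inner_sub_right, inner_smul_left, inner_smul_right, map_mul,
      inner_conj_symm, hconj]
    have := h0 θ
    field_simp; ring
  have z3 : ∀ (m : ℕ) x y, ∫ θ in (0:ℝ)..2 * Real.pi, e θ ^ m * K x y θ =
      2 * Real.pi * inner ℂ y ((T ^ m) x) := by
    intro m x y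
    have c1 := cu x
    have c2 := cu y
    have hs : ∀ θ, e θ ^ m * K x y θ = e θ ^ (m + 1) * inner ℂ y (u x θ) +
        ((starRingEnd ℂ) ((e θ)⁻¹ ^ m * (e θ * inner ℂ x (u y θ))) - e θ ^ m * inner ℂ y x) := by
      intro θ
      rw [k1, map_mul _ ((e θ)⁻¹ ^ m), map_pow, map_inv₀, hconj, inv_inv]; ring
    simp_rw [hs]
    rw [intervalIntegral.integral_add (Continuous.intervalIntegrable (by fun_prop) _ _)
        (Continuous.intervalIntegrable (by fun_prop) _ _), z2,
      intervalIntegral.integral_sub (Continuous.intervalIntegrable (by fun_prop) _ _)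
        (Continuous.intervalIntegrable (by fun_prop) _ _), intervalIntegral.intervalIntegral_conj]
    rcases m with _ | m
    · have := z2 0 y x
      simp only [pow_zero, one_mul, zero_add, pow_one] at this ⊢
      rw [this]; simp [map_ofNat]
    · have h2 : ∀ θ, (e θ)⁻¹ ^ (m + 1) * (e θ * inner ℂ x (u y θ)) =
          (e θ)⁻¹ ^ m * inner ℂ x (u y θ) := by
        intro θ; have := h0 θ; rw [pow_succ]; field_simp
      simp_rw [h2]
      rw [z1, intervalIntegral.integral_mul_const, z0]; simp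
  have z4 : ∀ (f : ℂ[X]) x y, ∫ θ in (0:ℝ)..2 * Real.pi, f.eval (e θ) * K x y θ =
      2 * Real.pi * inner ℂ y (aeval T f x) := by
    intro f x y
    have := cK x y
    induction f using Polynomial.induction_on' with
    | add f g hf hg =>
      simp_rw [eval_add, add_mul]
      rw [intervalIntegral.integral_add (Continuous.intervalIntegrable (by fun_prop) _ _)
        (Continuous.intervalIntegrable (by fun_prop) _ _), hf, hg]
      simp [inner_add_right, mul_add]
    | monomial m a =>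
      simp_rw [eval_monomial, mul_assoc]
      rw [intervalIntegral.integral_const_mul, z3, aeval_monomial]
      simp [Algebra.algebraMap_eq_smul_one, inner_smul_right]; ring
  refine ⟨fun j => LinearMap.pi fun i => (d j).toLinearMap ∘ₗ (S i).toLinearMap, fun f M x y => ?_⟩
  set U : ι → H →ₗ[ℂ] (Fin n → ℂ) :=
    fun j => LinearMap.pi fun i => (d j).toLinearMap ∘ₗ (S i).toLinearMap with hU
  have k2 : ∀ x y θ, K x y θ = ∑ j, (starRingEnd ℂ) (q (U j y) (e θ)) * q (U j x) (e θ) /
      ((l.map fun a => ‖e θ - a‖ ^ 2).prod : ℝ) := by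
    intro x y θ
    simp only [hK, hd]
    refine Finset.sum_congr rfl fun j _ => ?_
    have a1 : ∀ x, d j (u x θ) = ((pl l).eval (e θ))⁻¹ * q (U j x) (e θ) := by
      intro x; simp [hu, hU, q]
    rw [a1, a1, ← pl_norm, map_mul, map_inv₀, ← Complex.normSq_eq_norm_sq,
      Complex.normSq_eq_conj_mul_self]
    have a2 := hP θ
    have a3 : (starRingEnd ℂ) ((pl l).eval (e θ)) ≠ 0 := by simpa using a2
    field_simp
  have cW' := cW l
  have hW := W_pos hl
  rw [← intervalIntegral.integral_finsetSum (f := fun j θ =>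
    φ f M (U j x) (U j y) (e θ) / (l.map fun a => ‖e θ - a‖ ^ 2).prod)
    fun j _ => Continuous.intervalIntegrable ((cφ _ _ _ _).div cW' fun θ => (hW θ).ne') _ _]
  have k3 : ∀ θ, ∑ j, φ f M (U j x) (U j y) (e θ) / (l.map fun a => ‖e θ - a‖ ^ 2).prod =
      Complex.reCLM (f.eval (e θ) * K x y θ - (M / 2 : ℝ) * (K x x θ + K y y θ)) := by
    intro θ
    simp only [k2, ← Finset.sum_add_distrib, Finset.mul_sum, ← Finset.sum_sub_distrib, map_sum]
    refine Finset.sum_congr rfl fun j _ => ?_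
    simp only [← Complex.normSq_eq_conj_mul_self, Complex.normSq_eq_norm_sq, Complex.reCLM_apply,
      ← mul_div_assoc, ← add_div, ← sub_div, Complex.div_ofReal_re, φ, Complex.sub_re,
      ← Complex.ofReal_add, ← Complex.ofReal_mul, Complex.ofReal_re]
  simp_rw [k3]
  have c1 := cK x y
  have c2 := cK x x
  have c3 := cK y y
  have y1 := z3 0 x x
  have y2 := z3 0 y y
  simp only [pow_zero, one_mul, ContinuousLinearMap.one_apply, inner_self_eq_norm_sq_to_K] at y1 y2
  rw [ContinuousLinearMap.intervalIntegral_comp_comm _ (Continuous.intervalIntegrable (by fun_prop) _ _),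
    intervalIntegral.integral_sub (Continuous.intervalIntegrable (by fun_prop) _ _)
        (Continuous.intervalIntegrable (by fun_prop) _ _), z4, intervalIntegral.integral_const_mul,
    intervalIntegral.integral_add (c2.intervalIntegrable _ _) (c3.intervalIntegrable _ _), y1, y2]
  simp [← Complex.ofReal_pow]; ring

end H18Ptak
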