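import Pool.Agent.Lib.helper18.Ptak2

namespace H18Ptak
open Complex Metric Set Filter Topology MeasureTheory Polynomial

abbrev E (n : ℕ) := EuclideanSpace ℂ (Fin n)

noncomputable def J (m : ℕ) : E (m + 1) →L[ℂ] E (m + 1) :=
  LinearMap.toContinuousLinearMap
    { toFun := fun u => WithLp.toLp 2 fun i => Fin.cases 0 (fun j => u j.castSucc) i
      map_add' := fun u v => by ext i; cases i using Fin.cases <;> simp
      map_smul' := fun c u => by ext i; cases i using Fin.cases <;> simp }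

lemma J_zero (m : ℕ) (u : E (m + 1)) : J m u 0 = 0 := rfl
lemma J_succ (m : ℕ) (u : E (m + 1)) (j : Fin m) : J m u j.succ = u j.castSucc := rfl

lemma J_inner (m : ℕ) (u v : E (m + 1)) : inner ℂ v u - inner ℂ (J m v) (J m u) =
    (starRingEnd ℂ) (v (Fin.last m)) * u (Fin.last m) := by
  simp only [PiLp.inner_apply]
  rw [Fin.sum_univ_castSucc, Fin.sum_univ_succ]
  simp [J_zero, J_succ, mul_comm]

lemma J_pow (m : ℕ) : J m ^ (m + 1) = 0 := by
  have : ∀ k (u : E (m + 1)) (i : Fin (m + 1)), (i : ℕ) < k → (J m ^ k) u i = 0 := by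
    intro k
    induction k with
    | zero => intro u i h; omega
    | succ k ih =>
      intro u i h
      rw [pow_succ', ContinuousLinearMap.mul_apply]
      cases i using Fin.cases with
      | zero => exact J_zero _ _
      | succ j => rw [J_succ]; exact ih u _ (by simpa using h)
  ext u i
  simpa using this (m + 1) u i i.2

noncomputable def R (m : ℕ) (c : ℂ) : E (m + 1) →L[ℂ] E (m + 1) :=
  ∑ k ∈ Finset.range (m + 1), (-(starRingEnd ℂ) c • J m) ^ k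

noncomputable def Tm (m : ℕ) (c : ℂ) : E (m + 1) →L[ℂ] E (m + 1) := (J m + c • 1) * R m c

lemma R_inv (m : ℕ) (c : ℂ) : (1 + (starRingEnd ℂ) c • J m) * R m c = 1 := by
  have := mul_neg_geom_sum (-(starRingEnd ℂ) c • J m) (m + 1)
  have h : (-(starRingEnd ℂ) c • J m) ^ (m + 1) = 0 := by
    rw [_root_.smul_pow, J_pow]; ext u i; simp
  have h2 : 1 + (starRingEnd ℂ) c • J m = 1 - -(starRingEnd ℂ) c • J m := by module
  rw [h, sub_zero] at this
  rw [h2, R, this]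

lemma cTm (m : ℕ) : Continuous (Tm m) := by unfold Tm R; fun_prop

lemma Tm_nil (m : ℕ) (c : ℂ) : (Tm m c - c • 1) ^ (m + 1) = 0 := by
  have h1 : Tm m c - c • 1 = (1 - c * (starRingEnd ℂ) c) • (J m * R m c) := by
    have h2 : c • (1 : E (m + 1) →L[ℂ] E (m + 1)) = c • ((1 + (starRingEnd ℂ) c • J m) * R m c) := by
      rw [R_inv]
    rw [Tm]; nth_rewrite 2 [h2]
    simp only [add_mul, smul_mul_assoc, one_mul, smul_add, sub_smul, one_smul, smul_smul]; module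
  have h3 : Commute (J m) (R m c) :=
    Commute.sum_right _ _ _ fun k _ => ((Commute.refl _).smul_right _).pow_right _
  rw [h1, _root_.smul_pow, h3.mul_pow, J_pow, zero_mul, smul_zero]

lemma Tm_aeval (m : ℕ) (c : ℂ) : aeval (Tm m c) ((X - C c) ^ (m + 1)) = 0 := by
  simpa [Algebra.algebraMap_eq_smul_one] using Tm_nil m c

noncomputable def dm (m : ℕ) (c : ℂ) : E (m + 1) →L[ℂ] ℂ :=
  ((√(1 - ‖c‖ ^ 2) : ℝ) : ℂ) • (EuclideanSpace.proj (Fin.last m)).comp (R m c)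

lemma Tm_def (m : ℕ) {c : ℂ} (hc : ‖c‖ < 1) (u v : E (m + 1)) :
    inner ℂ v u - inner ℂ (Tm m c v) (Tm m c u) = (starRingEnd ℂ) (dm m c v) * dm m c u := by
  have h1 : ∀ u, u = R m c u + (starRingEnd ℂ) c • J m (R m c u) := by
    intro u
    simpa using (congrArg (fun A : E (m + 1) →L[ℂ] E (m + 1) => A u) (R_inv m c)).symm
  have h2 : ∀ u, Tm m c u = J m (R m c u) + c • R m c u := by intro u; simp [Tm]
  have h3 := J_inner m (R m c u) (R m c v)
  have h4 : ((√(1 - ‖c‖ ^ 2) : ℝ) : ℂ) * ((√(1 - ‖c‖ ^ 2) : ℝ) : ℂ) = 1 - (starRingEnd ℂ) c * c := by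
    rw [← Complex.ofReal_mul, Real.mul_self_sqrt (by nlinarith [norm_nonneg c]),
      ← Complex.normSq_eq_conj_mul_self, Complex.normSq_eq_norm_sq]; simp
  have h5 : ∀ u, dm m c u = ((√(1 - ‖c‖ ^ 2) : ℝ) : ℂ) * R m c u (Fin.last m) := by
    intro u; simp [dm]
  rw [h2, h2, h5, h5]
  nth_rewrite 1 [h1 u, h1 v]
  simp only [inner_add_left, inner_add_right, inner_smul_left, inner_smul_right, map_mul,
    Complex.conj_ofReal, Complex.conj_conj]
  linear_combination (1 - (starRingEnd ℂ) c * c) * h3 -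
    (starRingEnd ℂ) (R m c v (Fin.last m)) * R m c u (Fin.last m) * h4

lemma Tm_le (m : ℕ) {c : ℂ} (hc : ‖c‖ < 1) : ‖Tm m c‖ ≤ 1 := by
  refine ContinuousLinearMap.opNorm_le_bound _ zero_le_one fun u => ?_
  have := Tm_def m hc u u
  rw [inner_self_eq_norm_sq_to_K, inner_self_eq_norm_sq_to_K, ← Complex.normSq_eq_conj_mul_self] at this
  have h2 : ‖u‖ ^ 2 - ‖Tm m c u‖ ^ 2 = normSq (dm m c u) := by
    have h3 := congrArg Complex.re this
    simpa [← Complex.ofReal_pow] using h3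
  rw [one_mul]
  apply le_of_sq_le_sq _ (norm_nonneg _)
  linarith [normSq_nonneg (dm m c u)]

lemma model (m : ℕ) {c : ℂ} (hc : ‖c‖ < 1) : ∃ U : E (m + 1) →ₗ[ℂ] (Fin (m + 1) → ℂ),
    Function.Bijective U ∧ ∀ (f : ℂ[X]) (M : ℝ) x y,
      2 * Real.pi * ((inner ℂ y (aeval (Tm m c) f x)).re - M / 2 * (‖x‖ ^ 2 + ‖y‖ ^ 2)) =
        ∫ θ in (0:ℝ)..2 * Real.pi, φ f M (U x) (U y) (e θ) / (‖e θ - c‖ ^ 2) ^ (m + 1) := by
  obtain ⟨U, hU⟩ := ident (Tm m c) (Multiset.replicate (m + 1) c)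
    (fun a ha => by rwa [Multiset.eq_of_mem_replicate ha])
    (by rw [pl, Multiset.map_replicate, Multiset.prod_replicate]; exact Tm_aeval m c)
    (fun _ : Unit => dm m c) (fun u v => by simpa using Tm_def m hc u v) (Multiset.card_replicate _ _)
  simp only [Finset.univ_unique, Finset.sum_singleton, Multiset.map_replicate,
    Multiset.prod_replicate] at hU
  have hi : Function.Injective (U default) := by
    rw [injective_iff_map_eq_zero]
    intro x hx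
    have := hU 0 1 x x
    simpa [hx, φ, q] using this
  exact ⟨U default, ⟨hi, (LinearMap.injective_iff_surjective_of_finrank_eq_finrank (by simp)).1 hi⟩, hU⟩

variable {H : Type*} [NormedAddCommGroup H] [InnerProductSpace ℂ H]

lemma re_le (A : H →L[ℂ] H) (x y : H) :
    (inner ℂ y (A x)).re ≤ ‖A‖ / 2 * (‖x‖ ^ 2 + ‖y‖ ^ 2) := by
  have h1 := (Complex.re_le_norm (inner ℂ y (A x))).trans (norm_inner_le_norm y (A x))
  have h2 := mul_le_mul_of_nonneg_left (A.le_opNorm x) (norm_nonneg y)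
  nlinarith [mul_nonneg (norm_nonneg A) (sq_nonneg (‖x‖ - ‖y‖))]

lemma unit_vec (z : H) (hz : z ≠ 0) : ∃ y : H, ‖y‖ = 1 ∧ (inner ℂ y z).re = ‖z‖ := by
  have h := norm_pos_iff.2 hz
  refine ⟨((‖z‖⁻¹ : ℝ) : ℂ) • z, ?_, ?_⟩
  · rw [norm_smul, Complex.norm_real, norm_inv, norm_norm, inv_mul_cancel₀ h.ne']
  · rw [inner_smul_left, Complex.conj_ofReal, Complex.re_ofReal_mul, inner_self_eq_norm_sq_to_K]
    simp only [Complex.coe_algebraMap, ← Complex.ofReal_pow, Complex.ofReal_re]; field_simp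

lemma le_of_re (A : H →L[ℂ] H) {M : ℝ} (hM : 0 ≤ M)
    (h : ∀ x y, (inner ℂ y (A x)).re ≤ M / 2 * (‖x‖ ^ 2 + ‖y‖ ^ 2)) : ‖A‖ ≤ M := by
  refine ContinuousLinearMap.opNorm_le_of_unit_norm hM fun x hx => ?_
  by_cases h0 : A x = 0
  · simpa [h0] using hM
  obtain ⟨y, hy, hy2⟩ := unit_vec _ h0
  have := h x y
  rw [hx, hy, hy2] at this; linarith

lemma lemB {r : ℝ} (hr0 : 0 < r) (hr : r < 1) (m : ℕ) (f : ℂ[X]) {M : ℝ}
    (hM : ∀ c : ℂ, ‖c‖ ≤ r → ‖aeval (Tm m c) f‖ ≤ M) (l : Multiset ℂ) (hl : l.card = m + 1)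
    (hl2 : ∀ a ∈ l, ‖a‖ ≤ r) (v w : Fin (m + 1) → ℂ) :
    ∫ θ in (0:ℝ)..2 * Real.pi, φ f M v w (e θ) / (l.map fun a => ‖e θ - a‖ ^ 2).prod ≤ 0 := by
  refine mix hr0 hr _ l _ (cφ _ _ _ _) hl2 fun c hc => ?_
  obtain ⟨U, hU, hU2⟩ := model m (hc.trans_lt hr)
  obtain ⟨x, rfl⟩ := hU.2 v
  obtain ⟨y, rfl⟩ := hU.2 w
  rw [hl, ← hU2]
  have h1 := re_le (aeval (Tm m c) f) x y
  have h2 := mul_le_mul_of_nonneg_right (hM c hc) (by positivity : 0 ≤ ‖x‖ ^ 2 + ‖y‖ ^ 2)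
  exact mul_nonpos_of_nonneg_of_nonpos (by positivity) (by linarith)

lemma lemC {r : ℝ} (hr0 : 0 < r) (hr : r < 1) (m : ℕ) (f : ℂ[X]) {M : ℝ}
    (hM : ∀ c : ℂ, ‖c‖ ≤ r → ‖aeval (Tm m c) f‖ ≤ M) (p : ℂ[X]) (hp : p.degree = (m + 1 : ℕ))
    (hp2 : ∀ z, p.IsRoot z → ‖z‖ ≤ r) (T : E (m + 1) →L[ℂ] E (m + 1)) (hT : ‖T‖ ≤ 1)
    (hT2 : aeval T p = 0) : ‖aeval T f‖ ≤ M := by
  have hp0 : p ≠ 0 := by rintro rfl; exact WithBot.bot_ne_coe hp
  have hc : p.roots.card = m + 1 := by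
    rw [IsAlgClosed.card_roots_eq_natDegree, natDegree_eq_of_degree_eq_some hp]
  have hl2 : ∀ a ∈ p.roots, ‖a‖ ≤ r := fun a ha => hp2 a (isRoot_of_mem_roots ha)
  have h1 : aeval T (pl p.roots) = 0 := by
    rw [(IsAlgClosed.splits p).eq_prod_roots, map_mul, aeval_C, Algebra.algebraMap_eq_smul_one,
      smul_mul_assoc, one_mul, smul_eq_zero] at hT2
    exact hT2.resolve_left (leadingCoeff_ne_zero.2 hp0)
  have h2 : 0 ≤ 1 - star T * T := by
    rw [sub_nonneg]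
    refine CStarAlgebra.star_mul_le_algebraMap_norm_sq.trans ?_
    rw [← map_one (algebraMap ℝ (E (m + 1) →L[ℂ] E (m + 1)))]
    exact algebraMap_mono _ (by nlinarith [norm_nonneg T])
  obtain ⟨B, hB⟩ := CStarAlgebra.nonneg_iff_eq_star_mul_self.1 h2
  obtain ⟨U, hU⟩ := ident T p.roots (fun a ha => (hl2 a ha).trans_lt hr) h1
    (fun j => (EuclideanSpace.proj j).comp B) (fun u v => by
      have h3 := congrArg (fun A : E (m + 1) →L[ℂ] E (m + 1) => inner ℂ v (A u)) hB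
      simp only [ContinuousLinearMap.sub_apply, ContinuousLinearMap.one_apply,
        ContinuousLinearMap.mul_apply, ContinuousLinearMap.star_eq_adjoint, inner_sub_right,
        ContinuousLinearMap.adjoint_inner_right] at h3
      rw [h3, PiLp.inner_apply]
      simp [mul_comm]) hc
  refine le_of_re _ ((norm_nonneg _).trans (hM 0 (by simpa using hr0.le))) fun x y => ?_
  have h3 := hU f M x y
  have h4 := Finset.sum_nonpos fun j (_ : j ∈ Finset.univ) =>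
    lemB hr0 hr m f hM p.roots hc hl2 (U j x) (U j y)
  rw [← h3] at h4
  have := Real.pi_pos
  by_contra hcon
  push Not at hcon
  nlinarith

lemma lemD {r : ℝ} (hr0 : 0 < r) (hr : r < 1) (m : ℕ) (f : ℂ[X]) :
    ∃ a : ℂ, ‖a‖ = r ∧ ∀ c : ℂ, ‖c‖ ≤ r → ‖aeval (Tm m c) f‖ ≤ ‖aeval (Tm m a) f‖ := by
  obtain ⟨c, hc, hmax⟩ := (isCompact_closedBall (0:ℂ) r).exists_isMaxOn
    (nonempty_closedBall.2 hr0.le) (f := fun c => ‖aeval (Tm m c) f‖)
    ((f.continuous_aeval.comp (cTm m)).norm.continuousOn)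
  have hc' : ‖c‖ ≤ r := by simpa using hc
  have hM : ∀ d : ℂ, ‖d‖ ≤ r → ‖aeval (Tm m d) f‖ ≤ ‖aeval (Tm m c) f‖ :=
    fun d hd => hmax (by simpa using hd)
  rcases hc'.eq_or_lt with h | h
  · exact ⟨c, h, hM⟩
  have ha : ‖(r : ℂ)‖ = r := by simp [hr0.le]
  refine ⟨r, ha, fun d hd => (hM d hd).trans ?_⟩
  set A := aeval (Tm m c) f
  obtain ⟨x, hx, hx2⟩ := (isCompact_sphere (0 : E (m + 1)) 1).exists_isMaxOn
    (NormedSpace.sphere_nonempty.2 zero_le_one) (f := fun x => ‖A x‖) (by fun_prop)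
  have hx1 : ‖x‖ = 1 := by simpa using hx
  have hA : ‖A‖ = ‖A x‖ := le_antisymm
    (ContinuousLinearMap.opNorm_le_of_unit_norm (norm_nonneg _) fun y hy => hx2 (by simpa using hy))
    (by simpa [hx1] using A.le_opNorm x)
  by_cases h0 : A x = 0
  · rw [hA, h0, norm_zero]; exact norm_nonneg _
  obtain ⟨y, hy, hy2⟩ := unit_vec _ h0
  obtain ⟨U, hU, hU2⟩ := model m (h.trans hr)
  obtain ⟨V, hV, hV2⟩ := model m (ha.trans_lt hr)
  have h1 := hU2 f ‖A‖ x y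
  rw [hy2, hx1, hy, ← hA] at h1
  have h2 := harm_iter hr (m + 1) (cφ f ‖A‖ (U x) (U y))
    (fun l hl hl2 => lemB hr0 hr m f hM l hl hl2 _ _) h (by rw [← h1]; ring) ha.le
  obtain ⟨x', hx'⟩ := hV.2 (U x)
  obtain ⟨y', hy'⟩ := hV.2 (U y)
  rw [← hx', ← hy', ← hV2] at h2
  have h3 := re_le (aeval (Tm m r) f) x' y'
  have h4 : x' ≠ 0 := by
    rintro rfl
    rw [map_zero, ← map_zero U] at hx'
    rw [← hU.1 hx'] at hx1; simp at hx1
  have h5 : 0 < ‖x'‖ ^ 2 + ‖y'‖ ^ 2 := by have := norm_pos_iff.2 h4; positivity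
  have h6 := (mul_eq_zero.1 h2).resolve_left (by have := Real.pi_pos; positivity)
  by_contra hcon
  push Not at hcon
  nlinarith

lemma pow_bound {r s : ℝ} (hr0 : 0 < r) (hrs : r < s) (hs : s < 1) (m : ℕ) :
    ∃ K : ℝ, ∀ c : ℂ, ‖c‖ ≤ r → ∀ k, ‖Tm m c ^ k‖ ≤ K * s ^ k := by
  obtain ⟨ε, hε, rfl⟩ : ∃ ε > 0, s = ε + r := ⟨s - r, by linarith, by ring⟩
  refine ⟨(2 / ε) ^ (m + 1), fun c hc k => ?_⟩
  set N := Tm m c - c • 1 with hN
  have h1 : ‖N‖ ≤ 2 := by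
    refine (norm_sub_le _ _).trans ?_
    have := Tm_le m (c := c) (by linarith)
    rw [norm_smul, norm_one]; linarith
  have h2 : ∀ j, ‖N ^ j‖ ≤ (2 / ε) ^ (m + 1) * ε ^ j := by
    intro j
    by_cases hj : m + 1 ≤ j
    · rw [pow_eq_zero_of_le hj (Tm_nil m c), norm_zero]; positivity
    · calc ‖N ^ j‖ ≤ 2 ^ j := (norm_pow_le _ _).trans (by gcongr)
        _ = (2 / ε) ^ j * ε ^ j := by rw [← mul_pow]; congr 1; field_simp
        _ ≤ _ := by
          gcongr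
          · rw [le_div_iff₀ hε]; linarith
          · omega
  have h3 : Tm m c = N + c • 1 := by simp [hN]
  rw [h3, ((Commute.one_right N).smul_right c).add_pow, add_pow, Finset.mul_sum]
  refine (norm_sum_le _ _).trans (Finset.sum_le_sum fun j _ => ?_)
  rw [_root_.smul_pow, one_pow, mul_smul_comm, mul_one, ← nsmul_eq_mul', ← Nat.cast_smul_eq_nsmul ℝ, norm_smul, norm_smul, norm_pow,
    Real.norm_natCast]
  have := h2 j
  calc _ ≤ (k.choose j : ℝ) * (r ^ (k - j) * ((2 / ε) ^ (m + 1) * ε ^ j)) := by gcongr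
    _ = _ := by ring

theorem main {r : ℝ} (hr0 : 0 < r) (hr : r < 1) (m : ℕ) (a : ℕ → ℂ)
    (ha : ∀ s : ℝ, 0 < s → s < 1 → Summable fun k => ‖a k‖ * s ^ k) :
    ∃ c : ℂ, ‖c‖ = r ∧ ∃ F₀, HasSum (fun k => a k • Tm m c ^ k) F₀ ∧
      ∀ p : ℂ[X], p.degree = (m + 1 : ℕ) → (∀ z, p.IsRoot z → ‖z‖ ≤ r) →
        ∀ T : E (m + 1) →L[ℂ] E (m + 1), ‖T‖ ≤ 1 → aeval T p = 0 →
          ∃ F, HasSum (fun k => a k • T ^ k) F ∧ ‖F‖ ≤ ‖F₀‖ := by
  obtain ⟨K, hK⟩ := pow_bound (s := (r + 1) / 2) hr0 (by linarith) (by linarith) m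
  have hu := (ha ((r + 1) / 2) (by linarith) (by linarith)).mul_left K
  set u : ℕ → ℝ := fun k => K * (‖a k‖ * ((r + 1) / 2) ^ k) with hu'
  have hb : ∀ T : E (m + 1) →L[ℂ] E (m + 1), (∀ k, ‖T ^ k‖ ≤ K * ((r + 1) / 2) ^ k) →
      ∀ k, ‖a k • T ^ k‖ ≤ u k := by
    intro T hT k
    rw [norm_smul, hu']
    have := mul_le_mul_of_nonneg_left (hT k) (norm_nonneg (a k))
    simp only; linarith
  have hT := cTm m
  obtain ⟨c, hc, hmax⟩ := (isCompact_sphere (0:ℂ) r).exists_isMaxOn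
    (NormedSpace.sphere_nonempty.2 hr0.le) (f := fun c => ‖∑' k, a k • Tm m c ^ k‖)
    (ContinuousOn.norm (continuousOn_tsum (fun k => by fun_prop) hu
      fun k c hc => hb _ (hK c (le_of_eq (by simpa using hc))) k))
  have hc' : ‖c‖ = r := by simpa using hc
  refine ⟨c, hc', _, (hu.of_norm_bounded (hb _ (hK c hc'.le))).hasSum, fun p hp hp2 T hT1 hT2 => ?_⟩
  have h1 := hu.of_norm_bounded (hb T fun k => by
    simpa using lemC hr0 hr m (X ^ k) (fun c hc => by simpa using hK c hc k) p hp hp2 T hT1 hT2)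
  refine ⟨_, h1.hasSum, ?_⟩
  have h2 := (tendsto_const_nhds (x := ‖∑' k, a k • Tm m c ^ k‖)).add (tendsto_sum_nat_add u)
  rw [add_zero] at h2
  refine le_of_tendsto_of_tendsto' h1.hasSum.tendsto_sum_nat.norm h2 fun N => ?_
  have hf : ∀ T : E (m + 1) →L[ℂ] E (m + 1), aeval T (∑ k ∈ Finset.range N, monomial k (a k)) =
      ∑ k ∈ Finset.range N, a k • T ^ k := by
    intro T; simp [aeval_monomial, Algebra.algebraMap_eq_smul_one]
  obtain ⟨d, hd, hd2⟩ := lemD hr0 hr m (∑ k ∈ Finset.range N, monomial k (a k))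
  have h3 := lemC hr0 hr m _ hd2 p hp hp2 T hT1 hT2
  rw [hf, hf] at h3
  refine h3.trans ?_
  have h4 := hb _ (hK d hd.le)
  rw [← eq_sub_iff_add_eq.2 ((hu.of_norm_bounded h4).sum_add_tsum_nat_add N) |>.symm]
  refine (norm_sub_le _ _).trans (add_le_add (hmax (by simpa using hd)) ?_)
  exact tsum_of_norm_bounded ((summable_nat_add_iff N).2 hu).hasSum fun k => h4 _

end H18Ptak
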