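import Mathlib
set_option autoImplicit false
open Classical
namespace H18Twist

abbrev E := EuclideanSpace ℝ (Fin 2)
def px : Fin 6 → ℝ := ![1, 5, 1, 0, 8, 0]
def py : Fin 6 → ℝ := ![1, 2, 5, 0, 0, 8]
noncomputable def p (i : Fin 6) : E := !₂[px i, py i]
noncomputable def x0 : E := !₂[2, 3]
def fac : Finset (Finset (Fin 6)) :=
  {{0, 1, 2}, {0, 1, 3}, {1, 3, 4}, {1, 2, 4}, {2, 4, 5}, {0, 2, 5}, {0, 3, 5}}
def Dl : Finset (Finset (Fin 6)) := fac.biUnion Finset.powerset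

@[simp] lemma p0 (i : Fin 6) : p i 0 = px i := rfl
@[simp] lemma p1 (i : Fin 6) : p i 1 = py i := rfl
@[simp] lemma x00 : x0 0 = 2 := rfl
@[simp] lemma x01 : x0 1 = 3 := rfl

lemma mem_hull (S : Finset (Fin 6)) (y : E) :
    y ∈ convexHull ℝ (p '' (S : Set (Fin 6))) ↔
      ∃ w : Fin 6 → ℝ, (∀ i, 0 ≤ w i) ∧ (∀ i, i ∉ S → w i = 0) ∧ ∑ i, w i = 1 ∧
        ∑ i, w i * px i = y 0 ∧ ∑ i, w i * py i = y 1 := by
  constructor
  · intro hy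
    refine convexHull_min (t := {y : E | ∃ w : Fin 6 → ℝ, (∀ i, 0 ≤ w i) ∧ (∀ i, i ∉ S → w i = 0) ∧
        ∑ i, w i = 1 ∧ ∑ i, w i * px i = y 0 ∧ ∑ i, w i * py i = y 1}) ?_ ?_ hy
    · rintro _ ⟨i, hi, rfl⟩
      refine ⟨Pi.single i 1, ?_, ?_, ?_, ?_, ?_⟩
      · intro j; by_cases h : j = i <;> simp [Pi.single_apply, h]
      · intro j hj
        have : j ≠ i := fun h => hj (h ▸ hi)
        simp [Pi.single_apply, this]
      · simp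
      · simp [Pi.single_apply]
      · simp [Pi.single_apply]
    · rintro u ⟨w, h1, h2, h3, h4, h5⟩ v ⟨w', g1, g2, g3, g4, g5⟩ a b ha hb hab
      refine ⟨fun i => a * w i + b * w' i, ?_, ?_, ?_, ?_, ?_⟩
      · intro i; have := h1 i; have := g1 i; positivity
      · intro i hi; simp [h2 i hi, g2 i hi]
      · rw [Finset.sum_add_distrib, ← Finset.mul_sum, ← Finset.mul_sum, h3, g3]; linarith
      · simp only [add_mul, mul_assoc]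
        rw [Finset.sum_add_distrib, ← Finset.mul_sum, ← Finset.mul_sum, h4, g4]; simp
      · simp only [add_mul, mul_assoc]
        rw [Finset.sum_add_distrib, ← Finset.mul_sum, ← Finset.mul_sum, h5, g5]; simp
  · rintro ⟨w, h1, h2, h3, h4, h5⟩
    have hs : ∀ g : Fin 6 → ℝ, ∑ i ∈ S, w i * g i = ∑ i, w i * g i := by
      intro g
      apply Finset.sum_subset (Finset.subset_univ _)
      intro i _ hi; simp [h2 i hi]
    have hy : y = ∑ i ∈ S, w i • p i := by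
      ext j
      fin_cases j
      · simp [← h4, ← hs]
      · simp [← h5, ← hs]
    rw [hy]
    refine Convex.sum_mem (convex_convexHull ℝ _) (fun i _ => h1 i) ?_ ?_
    · have := hs (fun _ => 1); simp at this; rw [this, h3]
    · intro i hi; exact subset_convexHull ℝ _ ⟨i, hi, rfl⟩

lemma sub_fac {S : Finset (Fin 6)} (hS : S ∈ Dl) : ∃ F ∈ fac, S ⊆ F := by
  simpa [Dl] using hS

lemma fac_cases {F : Finset (Fin 6)} (hF : F ∈ fac) (w : Fin 6 → ℝ) (h : ∀ i, i ∉ F → w i = 0) :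
    (w 3 = 0 ∧ w 4 = 0 ∧ w 5 = 0) ∨ (w 2 = 0 ∧ w 4 = 0 ∧ w 5 = 0) ∨ (w 0 = 0 ∧ w 2 = 0 ∧ w 5 = 0) ∨
    (w 0 = 0 ∧ w 3 = 0 ∧ w 5 = 0) ∨ (w 0 = 0 ∧ w 1 = 0 ∧ w 3 = 0) ∨ (w 1 = 0 ∧ w 3 = 0 ∧ w 4 = 0) ∨
    (w 1 = 0 ∧ w 2 = 0 ∧ w 4 = 0) := by
  simp only [fac, Finset.mem_insert, Finset.mem_singleton] at hF
  rcases hF with rfl | rfl | rfl | rfl | rfl | rfl | rfl
  · exact Or.inl ⟨h _ (by decide), h _ (by decide), h _ (by decide)⟩
  · exact Or.inr (Or.inl ⟨h _ (by decide), h _ (by decide), h _ (by decide)⟩)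
  · exact Or.inr (Or.inr (Or.inl ⟨h _ (by decide), h _ (by decide), h _ (by decide)⟩))
  · exact Or.inr (Or.inr (Or.inr (Or.inl ⟨h _ (by decide), h _ (by decide), h _ (by decide)⟩)))
  · exact Or.inr (Or.inr (Or.inr (Or.inr (Or.inl ⟨h _ (by decide), h _ (by decide), h _ (by decide)⟩))))
  · exact Or.inr (Or.inr (Or.inr (Or.inr (Or.inr (Or.inl
      ⟨h _ (by decide), h _ (by decide), h _ (by decide)⟩)))))
  · exact Or.inr (Or.inr (Or.inr (Or.inr (Or.inr (Or.inr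
      ⟨h _ (by decide), h _ (by decide), h _ (by decide)⟩)))))

lemma uniq_aux (a0 a1 a2 a3 a4 a5 b0 b1 b2 b3 b4 b5 : ℝ)
    (h0 : 0 ≤ a0) (h1 : 0 ≤ a1) (h2 : 0 ≤ a2) (h3 : 0 ≤ a3) (h4 : 0 ≤ a4) (h5 : 0 ≤ a5)
    (g0 : 0 ≤ b0) (g1 : 0 ≤ b1) (g2 : 0 ≤ b2) (g3 : 0 ≤ b3) (g4 : 0 ≤ b4) (g5 : 0 ≤ b5)
    (e1 : a0 + a1 + a2 + a3 + a4 + a5 = b0 + b1 + b2 + b3 + b4 + b5)
    (e2 : a0 + 5 * a1 + a2 + 8 * a4 = b0 + 5 * b1 + b2 + 8 * b4)
    (e3 : a0 + 2 * a1 + 5 * a2 + 8 * a5 = b0 + 2 * b1 + 5 * b2 + 8 * b5)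
    (ha : (a3 = 0 ∧ a4 = 0 ∧ a5 = 0) ∨ (a2 = 0 ∧ a4 = 0 ∧ a5 = 0) ∨ (a0 = 0 ∧ a2 = 0 ∧ a5 = 0) ∨
      (a0 = 0 ∧ a3 = 0 ∧ a5 = 0) ∨ (a0 = 0 ∧ a1 = 0 ∧ a3 = 0) ∨ (a1 = 0 ∧ a3 = 0 ∧ a4 = 0) ∨
      (a1 = 0 ∧ a2 = 0 ∧ a4 = 0))
    (hb : (b3 = 0 ∧ b4 = 0 ∧ b5 = 0) ∨ (b2 = 0 ∧ b4 = 0 ∧ b5 = 0) ∨ (b0 = 0 ∧ b2 = 0 ∧ b5 = 0) ∨
      (b0 = 0 ∧ b3 = 0 ∧ b5 = 0) ∨ (b0 = 0 ∧ b1 = 0 ∧ b3 = 0) ∨ (b1 = 0 ∧ b3 = 0 ∧ b4 = 0) ∨
      (b1 = 0 ∧ b2 = 0 ∧ b4 = 0)) :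
    a0 = b0 ∧ a1 = b1 ∧ a2 = b2 ∧ a3 = b3 ∧ a4 = b4 ∧ a5 = b5 := by
  rcases ha with ⟨rfl, rfl, rfl⟩ | ⟨rfl, rfl, rfl⟩ | ⟨rfl, rfl, rfl⟩ | ⟨rfl, rfl, rfl⟩ |
    ⟨rfl, rfl, rfl⟩ | ⟨rfl, rfl, rfl⟩ | ⟨rfl, rfl, rfl⟩ <;>
  rcases hb with ⟨rfl, rfl, rfl⟩ | ⟨rfl, rfl, rfl⟩ | ⟨rfl, rfl, rfl⟩ | ⟨rfl, rfl, rfl⟩ |
    ⟨rfl, rfl, rfl⟩ | ⟨rfl, rfl, rfl⟩ | ⟨rfl, rfl, rfl⟩ <;>
  refine ⟨?_, ?_, ?_, ?_, ?_, ?_⟩ <;> first | rfl | linarith

lemma inter_prop (S : Finset (Fin 6)) (hS : S ∈ Dl) (T : Finset (Fin 6)) (hT : T ∈ Dl) :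
    convexHull ℝ (p '' (S : Set (Fin 6))) ∩ convexHull ℝ (p '' (T : Set (Fin 6))) =
      convexHull ℝ (p '' ((S ∩ T : Finset (Fin 6)) : Set (Fin 6))) := by
  apply Set.Subset.antisymm
  · rintro y ⟨hy1, hy2⟩
    obtain ⟨w, h1, h2, h3, h4, h5⟩ := (mem_hull _ _).1 hy1
    obtain ⟨w', g1, g2, g3, g4, g5⟩ := (mem_hull _ _).1 hy2
    obtain ⟨F, hF, hSF⟩ := sub_fac hS
    obtain ⟨F', hF', hTF⟩ := sub_fac hT
    have c1 := fac_cases hF w (fun i hi => h2 i (fun h => hi (hSF h)))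
    have c2 := fac_cases hF' w' (fun i hi => g2 i (fun h => hi (hTF h)))
    have h3' := h3
    have h4' := h4
    have h5' := h5
    simp [Fin.sum_univ_succ, px, py] at h3' h4' h5' g3 g4 g5
    have key := uniq_aux (w 0) (w 1) (w 2) (w 3) (w 4) (w 5) (w' 0) (w' 1) (w' 2) (w' 3) (w' 4) (w' 5)
      (h1 _) (h1 _) (h1 _) (h1 _) (h1 _) (h1 _) (g1 _) (g1 _) (g1 _) (g1 _) (g1 _) (g1 _)
      (by linarith) (by linarith) (by linarith) c1 c2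
    have hw : ∀ i, w i = w' i := by
      intro i; fin_cases i
      · exact key.1
      · exact key.2.1
      · exact key.2.2.1
      · exact key.2.2.2.1
      · exact key.2.2.2.2.1
      · exact key.2.2.2.2.2
    refine (mem_hull _ _).2 ⟨w, h1, ?_, h3, h4, h5⟩
    intro i hi
    by_cases hiS : i ∈ S
    · rw [hw]; exact g2 i (fun h => hi (Finset.mem_inter.2 ⟨hiS, h⟩))
    · exact h2 i hiS
  · apply Set.subset_inter
    · exact convexHull_mono (Set.image_mono (by intro i hi; simp at hi ⊢; exact hi.1))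
    · exact convexHull_mono (Set.image_mono (by intro i hi; simp at hi ⊢; exact hi.2))

lemma leaf0 (y : E) (h0 : 0 ≤ (-3/16) * y 0 + (-1/4) * y 1 + (23/16)) (h1 : 0 ≤ (1/4) * y 0 + (0/1) * y 1 + (-1/4)) (h2 : 0 ≤ (-1/16) * y 0 + (1/4) * y 1 + (-3/16)) :
    ∃ S ∈ Dl, y ∈ convexHull ℝ (p '' ((S : Finset (Fin 6)) : Set (Fin 6))) := by
  refine ⟨{0, 1, 2}, by decide +kernel, (mem_hull _ _).2 ⟨![(-3/16) * y 0 + (-1/4) * y 1 + (23/16), (1/4) * y 0 + (0/1) * y 1 + (-1/4), (-1/16) * y 0 + (1/4) * y 1 + (-3/16), 0, 0, 0], ?_, ?_, ?_, ?_, ?_⟩⟩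
  · intro i; fin_cases i <;> simp <;> linarith
  · intro i; fin_cases i <;> simp
  · simp [Fin.sum_univ_succ] <;> ring
  · simp [Fin.sum_univ_succ, px] <;> ring
  · simp [Fin.sum_univ_succ, py] <;> ring

lemma leaf1 (y : E) (h0 : 0 ≤ (-2/3) * y 0 + (5/3) * y 1 + (0/1)) (h1 : 0 ≤ (1/3) * y 0 + (-1/3) * y 1 + (0/1)) (h3 : 0 ≤ (1/3) * y 0 + (-4/3) * y 1 + (1/1)) :
    ∃ S ∈ Dl, y ∈ convexHull ℝ (p '' ((S : Finset (Fin 6)) : Set (Fin 6))) := by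
  refine ⟨{0, 1, 3}, by decide +kernel, (mem_hull _ _).2 ⟨![(-2/3) * y 0 + (5/3) * y 1 + (0/1), (1/3) * y 0 + (-1/3) * y 1 + (0/1), 0, (1/3) * y 0 + (-4/3) * y 1 + (1/1), 0, 0], ?_, ?_, ?_, ?_, ?_⟩⟩
  · intro i; fin_cases i <;> simp <;> linarith
  · intro i; fin_cases i <;> simp
  · simp [Fin.sum_univ_succ] <;> ring
  · simp [Fin.sum_univ_succ, px] <;> ring
  · simp [Fin.sum_univ_succ, py] <;> ring

lemma leaf2 (y : E) (h1 : 0 ≤ (0/1) * y 0 + (1/2) * y 1 + (0/1)) (h3 : 0 ≤ (-1/8) * y 0 + (-3/16) * y 1 + (1/1)) (h4 : 0 ≤ (1/8) * y 0 + (-5/16) * y 1 + (0/1)) :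
    ∃ S ∈ Dl, y ∈ convexHull ℝ (p '' ((S : Finset (Fin 6)) : Set (Fin 6))) := by
  refine ⟨{1, 3, 4}, by decide +kernel, (mem_hull _ _).2 ⟨![0, (0/1) * y 0 + (1/2) * y 1 + (0/1), 0, (-1/8) * y 0 + (-3/16) * y 1 + (1/1), (1/8) * y 0 + (-5/16) * y 1 + (0/1), 0], ?_, ?_, ?_, ?_, ?_⟩⟩
  · intro i; fin_cases i <;> simp <;> linarith
  · intro i; fin_cases i <;> simp
  · simp [Fin.sum_univ_succ] <;> ring
  · simp [Fin.sum_univ_succ, px] <;> ring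
  · simp [Fin.sum_univ_succ, py] <;> ring

lemma leaf3 (y : E) (h1 : 0 ≤ (-5/1) * y 0 + (-7/1) * y 1 + (40/1)) (h2 : 0 ≤ (2/1) * y 0 + (3/1) * y 1 + (-16/1)) (h4 : 0 ≤ (3/1) * y 0 + (4/1) * y 1 + (-23/1)) :
    ∃ S ∈ Dl, y ∈ convexHull ℝ (p '' ((S : Finset (Fin 6)) : Set (Fin 6))) := by
  refine ⟨{1, 2, 4}, by decide +kernel, (mem_hull _ _).2 ⟨![0, (-5/1) * y 0 + (-7/1) * y 1 + (40/1), (2/1) * y 0 + (3/1) * y 1 + (-16/1), 0, (3/1) * y 0 + (4/1) * y 1 + (-23/1), 0], ?_, ?_, ?_, ?_, ?_⟩⟩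
  · intro i; fin_cases i <;> simp <;> linarith
  · intro i; fin_cases i <;> simp
  · simp [Fin.sum_univ_succ] <;> ring
  · simp [Fin.sum_univ_succ, px] <;> ring
  · simp [Fin.sum_univ_succ, py] <;> ring

lemma leaf4 (y : E) (h2 : 0 ≤ (-1/2) * y 0 + (-1/2) * y 1 + (4/1)) (h4 : 0 ≤ (3/16) * y 0 + (1/16) * y 1 + (-1/2)) (h5 : 0 ≤ (5/16) * y 0 + (7/16) * y 1 + (-5/2)) :
    ∃ S ∈ Dl, y ∈ convexHull ℝ (p '' ((S : Finset (Fin 6)) : Set (Fin 6))) := by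
  refine ⟨{2, 4, 5}, by decide +kernel, (mem_hull _ _).2 ⟨![0, 0, (-1/2) * y 0 + (-1/2) * y 1 + (4/1), 0, (3/16) * y 0 + (1/16) * y 1 + (-1/2), (5/16) * y 0 + (7/16) * y 1 + (-5/2)], ?_, ?_, ?_, ?_, ?_⟩⟩
  · intro i; fin_cases i <;> simp <;> linarith
  · intro i; fin_cases i <;> simp
  · simp [Fin.sum_univ_succ] <;> ring
  · simp [Fin.sum_univ_succ, px] <;> ring
  · simp [Fin.sum_univ_succ, py] <;> ring

lemma leaf5 (y : E) (h0 : 0 ≤ (-3/4) * y 0 + (-1/4) * y 1 + (2/1)) (h2 : 0 ≤ (7/4) * y 0 + (1/4) * y 1 + (-2/1)) (h5 : 0 ≤ (-1/1) * y 0 + (0/1) * y 1 + (1/1)) :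
    ∃ S ∈ Dl, y ∈ convexHull ℝ (p '' ((S : Finset (Fin 6)) : Set (Fin 6))) := by
  refine ⟨{0, 2, 5}, by decide +kernel, (mem_hull _ _).2 ⟨![(-3/4) * y 0 + (-1/4) * y 1 + (2/1), 0, (7/4) * y 0 + (1/4) * y 1 + (-2/1), 0, 0, (-1/1) * y 0 + (0/1) * y 1 + (1/1)], ?_, ?_, ?_, ?_, ?_⟩⟩
  · intro i; fin_cases i <;> simp <;> linarith
  · intro i; fin_cases i <;> simp
  · simp [Fin.sum_univ_succ] <;> ring
  · simp [Fin.sum_univ_succ, px] <;> ring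
  · simp [Fin.sum_univ_succ, py] <;> ring

lemma leaf6 (y : E) (h0 : 0 ≤ (1/1) * y 0 + (0/1) * y 1 + (0/1)) (h3 : 0 ≤ (-7/8) * y 0 + (-1/8) * y 1 + (1/1)) (h5 : 0 ≤ (-1/8) * y 0 + (1/8) * y 1 + (0/1)) :
    ∃ S ∈ Dl, y ∈ convexHull ℝ (p '' ((S : Finset (Fin 6)) : Set (Fin 6))) := by
  refine ⟨{0, 3, 5}, by decide +kernel, (mem_hull _ _).2 ⟨![(1/1) * y 0 + (0/1) * y 1 + (0/1), 0, 0, (-7/8) * y 0 + (-1/8) * y 1 + (1/1), 0, (-1/8) * y 0 + (1/8) * y 1 + (0/1)], ?_, ?_, ?_, ?_, ?_⟩⟩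
  · intro i; fin_cases i <;> simp <;> linarith
  · intro i; fin_cases i <;> simp
  · simp [Fin.sum_univ_succ] <;> ring
  · simp [Fin.sum_univ_succ, px] <;> ring
  · simp [Fin.sum_univ_succ, py] <;> ring


lemma cover (y : E) (k0 : 0 ≤ y 0) (k1 : 0 ≤ y 1) (k2 : y 0 + y 1 ≤ 8) :
    ∃ S ∈ Dl, y ∈ convexHull ℝ (p '' ((S : Finset (Fin 6)) : Set (Fin 6))) := by
  rcases le_total 0 ((-1) * y 0 + (4) * y 1 + (-3)) with h1 | h1
  · rcases le_total 0 ((-4) * y 0 + (0) * y 1 + (4)) with h2 | h2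
    · rcases le_total 0 ((-7) * y 0 + (-1) * y 1 + (8)) with h3 | h3
      · exact leaf6 y (by linarith) (by linarith) (by linarith)
      · rcases le_total 0 ((-3) * y 0 + (-1) * y 1 + (8)) with h4 | h4
        · exact leaf5 y (by linarith) (by linarith) (by linarith)
        · exact leaf4 y (by linarith) (by linarith) (by linarith)
    · rcases le_total 0 ((-3) * y 0 + (-4) * y 1 + (23)) with h3 | h3
      · exact leaf0 y (by linarith) (by linarith) (by linarith)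
      · rcases le_total 0 ((5) * y 0 + (7) * y 1 + (-40)) with h4 | h4
        · exact leaf4 y (by linarith) (by linarith) (by linarith)
        · exact leaf3 y (by linarith) (by linarith) (by linarith)
  · rcases le_total 0 ((1) * y 0 + (-1) * y 1 + (0)) with h2 | h2
    · rcases le_total 0 ((2) * y 0 + (-5) * y 1 + (0)) with h3 | h3
      · rcases le_total 0 ((2) * y 0 + (3) * y 1 + (-16)) with h4 | h4
        · rcases le_total 0 ((5) * y 0 + (7) * y 1 + (-40)) with h5 | h5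
          · exact leaf4 y (by linarith) (by linarith) (by linarith)
          · exact leaf3 y (by linarith) (by linarith) (by linarith)
        · exact leaf2 y (by linarith) (by linarith) (by linarith)
      · exact leaf1 y (by linarith) (by linarith) (by linarith)
    · exact leaf6 y (by linarith) (by linarith) (by linarith)

lemma union_eq : (⋃ S ∈ Dl, convexHull ℝ (p '' ((S : Finset (Fin 6)) : Set (Fin 6)))) =
    {y : E | 0 ≤ y 0 ∧ 0 ≤ y 1 ∧ y 0 + y 1 ≤ 8} := by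
  ext y
  simp only [Set.mem_iUnion, Set.mem_setOf_eq, exists_prop]
  constructor
  · rintro ⟨S, -, hy⟩
    obtain ⟨w, h1, -, h3, h4, h5⟩ := (mem_hull _ _).1 hy
    simp [Fin.sum_univ_succ, px, py] at h3 h4 h5
    have := h1 0; have := h1 1; have := h1 2; have := h1 3; have := h1 4; have := h1 5
    refine ⟨by linarith, by linarith, by linarith⟩
  · rintro ⟨k0, k1, k2⟩
    exact cover y k0 k1 k2

lemma conv : Convex ℝ {y : E | 0 ≤ y 0 ∧ 0 ≤ y 1 ∧ y 0 + y 1 ≤ 8} := by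
  rintro u ⟨u0, u1, u2⟩ v ⟨v0, v1, v2⟩ a b ha hb hab
  simp only [Set.mem_setOf_eq, PiLp.add_apply, PiLp.smul_apply, smul_eq_mul]
  refine ⟨by positivity, by positivity, by nlinarith⟩

lemma aff_ind (S : Finset (Fin 6)) (hS : S ∈ Dl) :
    AffineIndependent ℝ (fun i : (S : Set (Fin 6)) => p i) := by
  rw [affineIndependent_iff]
  intro s w hw hsum e he
  obtain ⟨F, hF, hSF⟩ := sub_fac hS
  let w' : Fin 6 → ℝ := fun i => ∑ e ∈ s, if (e : Fin 6) = i then w e else 0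
  have hs : ∀ g : Fin 6 → ℝ, ∑ i, w' i * g i = ∑ e ∈ s, w e * g e := by
    intro g
    simp only [w', Finset.sum_mul]
    rw [Finset.sum_comm]
    apply Finset.sum_congr rfl
    intro e _
    simp [ite_mul]
  have h0 : ∀ i, i ∉ F → w' i = 0 := by
    intro i hi
    apply Finset.sum_eq_zero
    intro e _
    rw [if_neg]
    rintro rfl
    exact hi (hSF e.2)
  have c := fac_cases hF w' h0
  have e1 := hs (fun _ => 1)
  have e2 := hs px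
  have e3 := hs py
  have f2 : ∑ e ∈ s, w e * px e = 0 := by
    have := congrArg (fun y : E => y 0) hsum
    simpa using this
  have f3 : ∑ e ∈ s, w e * py e = 0 := by
    have := congrArg (fun y : E => y 1) hsum
    simpa using this
  rw [f2] at e2
  rw [f3] at e3
  simp only [mul_one] at e1
  rw [hw] at e1
  simp [Fin.sum_univ_succ, px, py] at e1 e2 e3
  have hz : ∀ i, w' i = 0 := by
    intro i
    rcases c with ⟨c1, c2, c3⟩ | ⟨c1, c2, c3⟩ | ⟨c1, c2, c3⟩ | ⟨c1, c2, c3⟩ | ⟨c1, c2, c3⟩ |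
      ⟨c1, c2, c3⟩ | ⟨c1, c2, c3⟩ <;> fin_cases i <;> simp <;> linarith
  have := hz e
  simp only [w'] at this
  rw [Finset.sum_eq_single e] at this
  · simpa using this
  · intro b _ hb
    rw [if_neg]
    exact fun h => hb (Subtype.ext h)
  · intro h; exact absurd he h

lemma span_zero (H : Finset (Fin 6)) (a b c : ℝ) (h : ∀ v ∈ H, a * px v + b * py v + c = 0) (y : E)
    (hy : y ∈ affineSpan ℝ (p '' (H : Set (Fin 6)))) : a * y 0 + b * y 1 + c = 0 := by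
  induction hy using affineSpan_induction' with
  | mem x hx =>
    obtain ⟨v, hv, rfl⟩ := hx
    exact h v hv
  | smul_vsub_vadd t u _ v _ w _ hu hv hw =>
    simp only [vsub_eq_sub, vadd_eq_add, PiLp.add_apply, PiLp.smul_apply, PiLp.sub_apply, smul_eq_mul]
    linear_combination t * hu - t * hv + hw

lemma not_opp (H : Finset (Fin 6)) (v : Fin 6) (a b c : ℝ)
    (h : ∀ v ∈ H, a * px v + b * py v + c = 0) (hx : 0 < a * 2 + b * 3 + c)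
    (hv : 0 < a * px v + b * py v + c) :
    ¬ (affineSpan ℝ (p '' (H : Set (Fin 6)))).SOppSide x0 (p v) := by
  intro hs
  obtain ⟨q, hq, t, ⟨ht0, ht1⟩, rfl⟩ := AffineSubspace.wOppSide_iff_exists_wbtw.1 hs.wOppSide
  have := span_zero H a b c h _ hq
  simp [AffineMap.lineMap_apply] at this
  have e : a * (t * (px v - 2) + 2) + b * (t * (py v - 3) + 3) + c =
      (1 - t) * (a * 2 + b * 3 + c) + t * (a * px v + b * py v + c) := by ring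
  rw [e] at this
  rcases eq_or_lt_of_le ht0 with h0 | h0
  · subst h0; linarith
  · have : 0 ≤ (1 - t) * (a * 2 + b * 3 + c) := mul_nonneg (by linarith) hx.le
    have : 0 < t * (a * px v + b * py v + c) := mul_pos h0 hv
    linarith

end H18Twist
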