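import Mathlib

open Finset Matrix

namespace H18Vdm

variable {X ι : Type*} [Fintype ι] [DecidableEq ι]

noncomputable def D (e : ι → X → ℂ) (x : ι → X) : ℂ := det (of fun a b => e b (x a))

lemma D_le (e : ι → X → ℂ) (x : ι → X) :
    ‖D e x‖ ≤ ∑ σ : Equiv.Perm ι, ∏ b, ‖e b (x (σ b))‖ := by
  rw [D, det_apply']
  refine (norm_sum_le _ _).trans (sum_le_sum fun σ _ => ?_)
  rw [norm_mul, norm_prod]
  rcases Int.units_eq_one_or (Equiv.Perm.sign σ) with h | h <;> simp [h]

lemma D_le' (e : ι → X → ℂ) (x : ι → X) (s : ι → ℝ) (h : ∀ a b, ‖e b (x a)‖ ≤ s b) :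
    ‖D e x‖ ≤ (Fintype.card ι).factorial * ∏ b, s b := by
  refine (D_le e x).trans ((sum_le_card_nsmul _ _ (∏ b, s b) fun σ _ =>
    prod_le_prod (fun _ _ => norm_nonneg _) fun b _ => h _ _).trans ?_)
  simp [Fintype.card_perm]

lemma D_mul (e : ι → X → ℂ) (c : Matrix ι ι ℂ) (x : ι → X) :
    D (fun b y => ∑ a, e a y * c a b) x = D e x * c.det := by
  rw [D, D, ← det_mul]
  rfl

lemma D_cramer (e : ι → X → ℂ) (x : ι → X) (i : ι) (y : X) : D e (Function.update x i y) =
    cramer (of fun a b => e b (x a))ᵀ (fun b => e b y) i := by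
  rw [cramer_transpose_apply, D]
  congr 1
  ext a b
  by_cases h : a = i
  · subst h; simp
  · simp [updateRow_ne h, Function.update_of_ne h]

lemma upd (e : ι → X → ℂ) (x : ι → X) (i : ι) : ∃ c : ι → ℂ, ∀ y,
    D e (Function.update x i y) = ∑ b, c b * e b y :=
  ⟨_, fun y => by rw [D_cramer, cramer_eq_adjugate_mulVec]; rfl⟩

lemma lagr (e : ι → X → ℂ) (x : ι → X) (y : X) (b : ι) :
    ∑ a, D e (Function.update x a y) * e b (x a) = D e x * e b y := by
  have := congrFun (mulVec_cramer (of fun a b => e b (x a))ᵀ fun b => e b y) b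
  rw [det_transpose] at this
  refine Eq.trans ?_ this
  simp only [D_cramer, mulVec, dotProduct, transpose_apply, of_apply, mul_comm]

lemma greedy (K : Set X) (N : ℕ) (e : Fin N → X → ℂ) (Y : Fin N → ℝ) (hY : ∀ i, 0 < Y i)
    (h : ∀ i (c : Fin N → ℂ), c i = 1 → (∀ j, i < j → c j = 0) →
      ∃ x ∈ K, Y i ≤ ‖∑ j, c j * e j x‖) :
    ∃ x : Fin N → X, (∀ a, x a ∈ K) ∧ ∏ i, Y i ≤ ‖D e x‖ := by
  induction N with
  | zero => exact ⟨fun i => i.elim0, fun i => i.elim0, by simp [D]⟩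
  | succ N ih =>
    obtain ⟨x, hx, h1⟩ := ih (fun i => e i.castSucc) (fun i => Y i.castSucc) (fun i => hY _)
      fun i c h1 h2 => by
        obtain ⟨x, hx, h3⟩ := h i.castSucc (Fin.snoc c 0) (by simpa using h1) fun j => by
          refine Fin.lastCases (fun _ => by simp) (fun j hj => ?_) j
          simpa using h2 j (by simpa using hj)
        exact ⟨x, hx, by simpa [Fin.sum_univ_castSucc] using h3⟩
    have h2 : D (fun i => e i.castSucc) x ≠ 0 :=
      norm_pos_iff.1 ((prod_pos fun i _ => hY _).trans_le h1)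
    obtain ⟨y, hy, h3⟩ := h (Fin.last N) (fun j => (-1) ^ (N + j : ℕ) *
      D (fun i => e (j.succAbove i)) x / D (fun i => e i.castSucc) x)
      (by simp [← two_mul, h2]) fun j hj => absurd hj (Fin.le_last j).not_gt
    refine ⟨Fin.snoc x y, fun a => Fin.lastCases (by simpa) (fun a => by simpa using hx a) a, ?_⟩
    have e1 : D e (Fin.snoc x y) = D (fun i => e i.castSucc) x * ∑ j : Fin (N + 1),
        (-1) ^ (N + j : ℕ) * D (fun i => e (j.succAbove i)) x / D (fun i => e i.castSucc) x *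
          e j y := by
      rw [D, det_succ_row _ (Fin.last N), mul_sum]
      refine sum_congr rfl fun j _ => ?_
      have : (of fun a b => e b ((Fin.snoc x y : Fin (N + 1) → X) a)).submatrix
          (Fin.last N).succAbove j.succAbove = of fun a b => e (j.succAbove b) (x a) := by
        ext a b; simp
      rw [this, ← D.eq_1 (fun i => e (j.succAbove i))]
      simp only [of_apply, Fin.snoc_last, Fin.val_last]
      field_simp
    rw [e1, Fin.prod_univ_castSucc, norm_mul]
    exact mul_le_mul h1 h3 (hY _).le (norm_nonneg _)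

lemma greedy' {S : Type*} [LinearOrder S] (key : ι → S) (hk : Function.Injective key) (K : Set X)
    (e : ι → X → ℂ) (Y : ι → ℝ) (hY : ∀ i, 0 < Y i)
    (h : ∀ i (c : ι → ℂ), c i = 1 → (∀ j, key i < key j → c j = 0) →
      ∃ x ∈ K, Y i ≤ ‖∑ j, c j * e j x‖) :
    ∃ x : ι → X, (∀ a, x a ∈ K) ∧ ∏ i, Y i ≤ ‖D e x‖ := by
  letI := LinearOrder.lift' key hk
  let φ := monoEquivOfFin ι rfl
  obtain ⟨x, hx, h1⟩ := greedy K _ (fun i => e (φ i)) (fun i => Y (φ i)) (fun _ => hY _)
    fun i c h1 h2 => by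
      obtain ⟨x, hx, h3⟩ := h (φ i) (fun j => c (φ.symm j)) (by simpa) fun j hj =>
        h2 _ (φ.lt_symm_apply.2 hj)
      refine ⟨x, hx, h3.trans_eq ?_⟩
      rw [← Equiv.sum_comp φ.toEquiv]; simp
  refine ⟨fun a => x (φ.symm a), fun a => hx _, ?_⟩
  rw [← Equiv.prod_comp φ.toEquiv, D, ← det_submatrix_equiv_self φ.toEquiv]
  refine h1.trans_eq ?_
  rw [D]; congr 2; ext a b; simp

lemma tri {S : Type*} [LinearOrder S] (key : ι → S) (hk : Function.Injective key)
    (c : Matrix ι ι ℂ) (h1 : ∀ a, c a a = 1) (h2 : ∀ a b, key b < key a → c a b = 0) :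
    c.det = 1 := by
  letI := LinearOrder.lift' key hk
  have := det_of_isUpperTriangular (M := c) fun a b h => h2 a b h
  simp only [h1, prod_const_one] at this
  convert this

lemma echelon {κ : Type*} [Fintype κ] (T : (κ → ℂ) →ₗ[ℂ] (ι → ℂ)) (hT : ∀ c, T c = 0 → c = 0)
    (r : ℕ) (hr : r ≤ Fintype.card κ) : ∃ (J : Finset ι) (B : Matrix ι ι ℂ), J.card = r ∧
      B.det = 1 ∧ (∀ a b, ‖B a b‖ ≤ 1) ∧ (∀ b ∈ J, ∃ c, ∀ a, B a b = T c a) ∧
      ∀ b ∉ J, ∀ a, B a b = if a = b then 1 else 0 := by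
  induction r with
  | zero =>
    refine ⟨∅, 1, rfl, det_one, fun a b => ?_, by simp, fun b _ a => one_apply⟩
    rw [one_apply]; split_ifs <;> simp
  | succ r ih =>
    obtain ⟨J, B, h1, h2, h3, h4, h5⟩ := ih (by omega)
    obtain ⟨c, hc, c0⟩ := (Submodule.ne_bot_iff _).1 (LinearMap.ker_ne_bot_of_finrank_lt
      (f := LinearMap.funLeft ℂ ℂ (Subtype.val : J → ι) ∘ₗ T) (by simp [h1]; omega))
    have hJ : ∀ a ∈ J, T c a = 0 := fun a ha => congrFun hc ⟨a, ha⟩
    obtain ⟨a0, ha0⟩ := Function.ne_iff.1 fun h => c0 (hT c h)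
    obtain ⟨j, -, hj⟩ := exists_max_image univ (fun a => ‖T c a‖) ⟨a0, mem_univ _⟩
    have j0 : T c j ≠ 0 := norm_pos_iff.1 ((norm_pos_iff.2 ha0).trans_le (hj _ (mem_univ _)))
    have jJ : j ∉ J := fun h => j0 (hJ j h)
    refine ⟨insert j J, B.updateCol j fun a => T c a / T c j, by rw [card_insert_of_notMem jJ, h1],
      ?_, fun a b => ?_, fun b hb => ?_, fun b hb a => ?_⟩
    · have := det_updateCol_sum B j fun a => T c a / T c j
      rw [div_self j0, one_smul, h2] at this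
      rw [← this]
      congr 2
      ext a
      rw [sum_congr rfl (g := fun i => if a = i then T c i / T c j else 0) fun i _ => ?_]
      · simp
      by_cases hi : i ∈ J
      · simp [hJ i hi]
      · simp [h5 i hi]
    · rw [updateCol_apply]
      split_ifs
      · rw [norm_div]; exact div_le_one_of_le₀ (hj _ (mem_univ _)) (norm_nonneg _)
      · exact h3 a b
    · by_cases h : b = j
      · exact ⟨(T c j)⁻¹ • c, fun a => by simp [h, div_eq_inv_mul]⟩
      · obtain ⟨c', hc'⟩ := h4 b ((mem_insert.1 hb).resolve_left h)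
        exact ⟨c', fun a => by rw [updateCol_ne h, hc']⟩
    · rw [mem_insert, not_or] at hb
      rw [updateCol_ne hb.1, h5 b hb.2]

end H18Vdm
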