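import Mathlib

open Finset Filter Topology

namespace H18Vdm

abbrev I (n k : ℕ) := {α : Fin n → Fin (k + 1) // ∑ i, (α i : ℕ) ≤ k}

variable {n : ℕ}

def mk' {k : ℕ} (α : Fin n → ℕ) (h : ∑ i, α i ≤ k) : I n k :=
  ⟨fun i => ⟨α i, Nat.lt_succ_of_le ((single_le_sum (fun _ _ => Nat.zero_le _)
    (mem_univ i)).trans h)⟩, h⟩

lemma card_le (k : ℕ) : Fintype.card (I n k) ≤ (k + 1) ^ n :=
  (Fintype.card_subtype_le _).trans (by simp)

lemma lim_of {u e : ℕ → ℝ} (u0 : ∀ k, 0 ≤ u k) (e0 : ∀ k, 0 ≤ e k) (he : Tendsto e atTop (𝓝 0))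
    (h : ∀ m, 1 ≤ m → ∀ᶠ k in atTop, u k ≤ u m + e m) : ∃ L, Tendsto u atTop (𝓝 L) := by
  have hb : BddBelow (Set.range fun m => u (m + 1) + e (m + 1)) :=
    ⟨0, by rintro _ ⟨m, rfl⟩; exact add_nonneg (u0 _) (e0 _)⟩
  refine ⟨⨅ m, (u (m + 1) + e (m + 1)), tendsto_order.2 ⟨fun a ha => ?_, fun a ha => ?_⟩⟩
  · filter_upwards [he.eventually_lt_const (sub_pos.2 ha), eventually_ge_atTop 1] with k h1 h2
    obtain ⟨k, rfl⟩ := Nat.exists_eq_add_of_le' h2
    linarith [ciInf_le hb k]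
  · obtain ⟨m, hm⟩ := exists_lt_of_ciInf_lt ha
    exact (h (m + 1) (by omega)).mono fun k hk => hk.trans_lt hm

lemma small : Tendsto (fun k : ℕ => (Fintype.card (I n k) : ℝ) *
    (Real.log (Fintype.card (I n k)) + 1) / k ^ (n + 1)) atTop (𝓝 0) := by
  have h1 : Tendsto (fun k : ℕ => (2 : ℝ) ^ n * (2 * n * (Real.log (k + 1 : ℕ) / (k + 1 : ℕ)) +
      1 / k)) atTop (𝓝 (2 ^ n * (2 * n * 0 + 0))) := by
    refine ((Tendsto.const_mul _ ?_).add tendsto_one_div_atTop_nhds_zero_nat).const_mul _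
    have := (Real.tendsto_pow_log_div_mul_add_atTop 1 0 1 one_ne_zero).comp
      (tendsto_natCast_atTop_atTop.comp (tendsto_add_atTop_nat 1))
    simpa [Function.comp_def] using this
  rw [mul_zero, add_zero, mul_zero] at h1
  refine squeeze_zero' (Eventually.of_forall fun k => ?_) ?_ h1
  · have := Real.log_natCast_nonneg (Fintype.card (I n k))
    positivity
  filter_upwards [eventually_ge_atTop 1] with k hk
  have k1 : (1 : ℝ) ≤ k := by exact_mod_cast hk
  have c1 : (Fintype.card (I n k) : ℝ) ≤ (k + 1) ^ n := by exact_mod_cast card_le k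
  have c0 : (0 : ℝ) < Fintype.card (I n k) := by
    exact_mod_cast Fintype.card_pos_iff.2 ⟨mk' 0 (by simp)⟩
  have c2 := Real.log_le_log c0 c1
  rw [Real.log_pow] at c2
  have c3 : ((k : ℝ) + 1) ^ n ≤ (2 * k) ^ n := by gcongr; linarith
  have l0 := Real.log_nonneg (show (1 : ℝ) ≤ k + 1 by linarith)
  have l1 := Real.log_natCast_nonneg (Fintype.card (I n k))
  push_cast
  calc _ ≤ (2 * k) ^ n * (n * Real.log (k + 1) + 1) / (k : ℝ) ^ (n + 1) := by
        gcongr; exact c1.trans c3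
    _ = 2 ^ n * (2 * n * (Real.log (k + 1) / (2 * k)) + 1 / k) := by
        rw [mul_pow]; field_simp; ring
    _ ≤ _ := by gcongr; linarith

lemma small' : Tendsto (fun k : ℕ => (Fintype.card (I n k) : ℝ) / k ^ (n + 1)) atTop (𝓝 0) :=
  squeeze_zero (fun k => by positivity) (fun k => by
    have := Real.log_natCast_nonneg (Fintype.card (I n k))
    gcongr
    exact le_mul_of_one_le_right (by positivity) (by linarith)) small

lemma zah (f : (Fin n → ℕ) → ℝ) (C : ℝ) (C0 : 0 ≤ C) (f0 : ∀ α, 0 ≤ f α)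
    (fa : ∀ α β, f (α + β) ≤ f α + f β) (fC : ∀ α, f α ≤ C * ∑ i, (α i : ℝ)) :
    ∃ L, Tendsto (fun k : ℕ => (∑ a : I n k, f fun i => a.1 i) / k ^ (n + 1)) atTop (𝓝 L) := by
  have ft : ∀ (t : ℕ) β, f (t • β) ≤ t * f β := fun t β => by
    induction t with
    | zero => simpa using fC 0
    | succ t ih => rw [succ_nsmul]; push_cast; linarith [fa (t • β) β]
  refine lim_of (e := fun k => C * n * ((Fintype.card (I n k) : ℝ) / k ^ (n + 1)))
    (fun k => div_nonneg (sum_nonneg fun _ _ => f0 _) (by positivity)) (fun k => by positivity)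
    (by simpa using small'.const_mul (C * n)) fun m hm => ?_
  filter_upwards [eventually_ge_atTop ((m + 1) * m)] with k hk
  obtain ⟨t, ht⟩ : ∃ t, t = k / m := ⟨_, rfl⟩
  have t1 : m + 1 ≤ t := ht ▸ (Nat.le_div_iff_mul_le hm).2 hk
  have t2 : t * m ≤ k := ht ▸ Nat.div_mul_le_self k m
  have t3 : k < m * (t + 1) := ht ▸ Nat.lt_mul_div_succ k hm
  have hβ : ∀ a : I n k, ∑ i, (a.1 i : ℕ) / t ≤ m := fun a => by
    have h1 : (∑ i, (a.1 i : ℕ) / t) * t ≤ k := by
      rw [sum_mul]; exact (sum_le_sum fun i _ => Nat.div_mul_le_self _ _).trans a.2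
    by_contra h2
    have := Nat.mul_le_mul_right t (not_le.1 h2)
    nlinarith
  let φ : I n k → I n m × (Fin n → Fin t) := fun a =>
    (mk' (fun i => a.1 i / t) (hβ a), fun i => ⟨a.1 i % t, Nat.mod_lt _ (by omega)⟩)
  have hφ : Function.Injective φ := fun a b h => by
    refine Subtype.ext (funext fun i => Fin.ext ?_)
    have h1 : (a.1 i : ℕ) / t = b.1 i / t :=
      congrArg Fin.val (congrFun (congrArg Subtype.val (congrArg Prod.fst h)) i)
    have h2 : (a.1 i : ℕ) % t = b.1 i % t := congrArg Fin.val (congrFun (congrArg Prod.snd h) i)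
    rw [← Nat.div_add_mod (a.1 i) t, h1, h2, Nat.div_add_mod]
  let g : I n m × (Fin n → Fin t) → ℝ := fun y => t * (f (fun i => y.1.1 i) + C * n)
  have h1 : ∑ a : I n k, f (fun i => a.1 i) ≤ ∑ y, g y := by
    refine le_trans (sum_le_sum fun a _ => ?_) ((sum_map univ ⟨φ, hφ⟩ g).symm.trans_le
      (sum_le_sum_of_subset_of_nonneg (subset_univ _) fun y _ _ =>
        mul_nonneg (by positivity) (add_nonneg (f0 _) (by positivity))))
    have e : (fun i => (a.1 i : ℕ)) = t • (fun i => (a.1 i : ℕ) / t) + fun i => (a.1 i : ℕ) % t :=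
      funext fun i => (Nat.div_add_mod _ _).symm
    have e2 : ∑ i, (((a.1 i : ℕ) % t : ℕ) : ℝ) ≤ n * t := by
      refine (sum_le_card_nsmul _ _ (t : ℝ) fun i _ => ?_).trans (by simp)
      exact_mod_cast (Nat.mod_lt _ (by omega)).le
    rw [e]
    refine (fa _ _).trans ?_
    have := (fC fun i => (a.1 i : ℕ) % t).trans (mul_le_mul_of_nonneg_left e2 C0)
    have e3 := ft t fun i => (a.1 i : ℕ) / t
    change _ ≤ t * (f (fun i => (a.1 i : ℕ) / t) + C * n)
    linarith
  have h2 : ∑ y, g y = t ^ (n + 1) *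
      (∑ a : I n m, f (fun i => a.1 i) + C * n * Fintype.card (I n m)) := by
    rw [Fintype.sum_prod_type]
    simp only [g, sum_const, card_univ, Fintype.card_fun, Fintype.card_fin, nsmul_eq_mul,
      ← mul_sum, sum_add_distrib]
    push_cast; ring
  have m0 : (0 : ℝ) < m := by exact_mod_cast hm
  have k0 : (0 : ℝ) < k := by
    have : 0 < k := lt_of_lt_of_le (by positivity) hk
    exact_mod_cast this
  rw [← mul_div_assoc, ← add_div, div_le_div_iff₀ (by positivity) (by positivity)]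
  refine (mul_le_mul_of_nonneg_right (h1.trans_eq h2) (by positivity)).trans ?_
  rw [mul_right_comm, ← mul_pow, mul_comm]
  have := sum_nonneg fun (a : I n m) (_ : a ∈ univ) => f0 fun i => a.1 i
  gcongr
  exact_mod_cast t2

noncomputable def l (n k : ℕ) : ℝ := ∑ a : I n k, ∑ i, ((a.1 i : ℕ) : ℝ)

lemma l_le (k : ℕ) : l n k ≤ k * (k + 1) ^ n := by
  refine (sum_le_card_nsmul _ _ (k : ℝ) fun a _ => by exact_mod_cast a.2).trans ?_
  rw [nsmul_eq_mul, mul_comm]
  gcongr
  exact_mod_cast card_le k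

lemma l_lim (hn : 1 ≤ n) : ∃ L, 0 < L ∧ Tendsto (fun k : ℕ => l n k / k ^ (n + 1)) atTop (𝓝 L) := by
  obtain ⟨L, hL⟩ := zah (n := n) (fun α => ∑ i, (α i : ℝ)) 1 zero_le_one (fun _ => by positivity)
    (fun α β => by simp [sum_add_distrib]) (by simp)
  refine ⟨L, lt_of_lt_of_le (by positivity : (0 : ℝ) < 1 / (4 * n) ^ (n + 1))
    (ge_of_tendsto hL ?_), hL⟩
  filter_upwards [eventually_ge_atTop (2 * n)] with k hk
  obtain ⟨s, hs⟩ : ∃ s, s = k / (2 * n) := ⟨_, rfl⟩
  have t1 : 1 ≤ s := hs ▸ (Nat.le_div_iff_mul_le (by omega)).2 (by omega)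
  have t2 : s * (2 * n) ≤ k := hs ▸ Nat.div_mul_le_self k _
  have t3 : k < 2 * n * (s + 1) := hs ▸ Nat.lt_mul_div_succ k (by omega)
  let φ : (Fin n → Fin s) → I n k := fun ρ => mk' (fun i => s + ρ i)
    ((sum_le_card_nsmul _ _ (2 * s) fun i _ => by have := (ρ i).2; omega).trans (by
      simp only [card_univ, Fintype.card_fin, smul_eq_mul]; linarith))
  have hφ : Function.Injective φ := fun a b h => funext fun i => Fin.ext
    (Nat.add_left_cancel (congrArg Fin.val (congrFun (congrArg Subtype.val h) i)))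
  have h1 : (s : ℝ) ^ (n + 1) ≤ ∑ a : I n k, ∑ i, ((a.1 i : ℕ) : ℝ) := by
    refine le_trans ?_ ((sum_map univ ⟨φ, hφ⟩ _).symm.trans_le
      (sum_le_sum_of_subset_of_nonneg (subset_univ _) fun y _ _ => by positivity))
    refine le_trans (by simp [pow_succ]) (card_nsmul_le_sum _ _ (s : ℝ) fun ρ _ => ?_)
    refine le_trans ?_ (single_le_sum (fun _ _ => by positivity) (mem_univ ⟨0, hn⟩))
    simp [φ, mk']
  have k0 : (0 : ℝ) < k := by
    have : 0 < k := by omega
    exact_mod_cast this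
  have n0 : (0 : ℝ) < n := by exact_mod_cast hn
  rw [div_le_div_iff₀ (by positivity) (by positivity), one_mul]
  refine le_trans ?_ (mul_le_mul_of_nonneg_right h1 (by positivity))
  rw [← mul_pow]
  gcongr
  have : k ≤ s * (4 * n) := by nlinarith
  exact_mod_cast this

end H18Vdm
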