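import Pool.Agent.Lib.helper18.Vdm1
import Pool.Agent.Lib.helper18.Vdm2

open Finset Filter Topology MvPolynomial MonomialOrder

namespace H18Vdm

variable {n k : ℕ}

noncomputable def fs (α : Fin n → ℕ) : Fin n →₀ ℕ := Finsupp.equivFunOnFinite.symm α

noncomputable def ex (a : I n k) : Fin n →₀ ℕ := fs fun i => a.1 i

def E (n k : ℕ) (b : I n k) (z : Fin n → ℂ) : ℂ := ∏ i, z i ^ (b.1 i : ℕ)

noncomputable def poly (c : I n k → ℂ) : MvPolynomial (Fin n) ℂ := ∑ b, monomial (ex b) (c b)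

lemma ex_inj : Function.Injective (ex : I n k → _) := fun _ _ h =>
  Subtype.ext (funext fun i => Fin.ext (DFunLike.congr_fun h i))

lemma ex_deg (a : I n k) : (ex a).degree = ∑ i, (a.1 i : ℕ) := Finsupp.degree_eq_sum _

lemma ex_surj {α : Fin n →₀ ℕ} (h : α.degree ≤ k) : ∃ a : I n k, ex a = α :=
  ⟨mk' α (by rwa [← Finsupp.degree_eq_sum]), Finsupp.ext fun _ => rfl⟩

lemma poly_coeff (c : I n k → ℂ) (a : I n k) : (poly c).coeff (ex a) = c a := by
  simp [poly, coeff_sum, coeff_monomial, ex_inj.eq_iff]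

lemma poly_supp {c : I n k → ℂ} {α : Fin n →₀ ℕ} (h : α ∈ (poly c).support) :
    ∃ a, ex a = α ∧ c a ≠ 0 := by
  rw [mem_support_iff, poly, coeff_sum] at h
  obtain ⟨a, -, ha⟩ := exists_ne_zero_of_sum_ne_zero h
  rw [coeff_monomial] at ha
  exact ⟨a, by aesop⟩

lemma poly_deg (c : I n k → ℂ) : (poly c).totalDegree ≤ k :=
  Finset.sup_le fun _ h => by
    obtain ⟨a, rfl, -⟩ := poly_supp h
    exact (ex_deg a).trans_le a.2

lemma poly_eval (c : I n k → ℂ) (z : Fin n → ℂ) : eval z (poly c) = ∑ b, c b * E n k b z := by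
  simp only [poly, map_sum, eval_monomial]
  exact sum_congr rfl fun b _ => by rw [Finsupp.prod_fintype _ _ (by simp)]; rfl

lemma ev_eq {p : MvPolynomial (Fin n) ℂ} (hp : p.totalDegree ≤ k) (z : Fin n → ℂ) :
    eval z p = ∑ b : I n k, p.coeff (ex b) * E n k b z := by
  rw [← poly_eval]
  congr 1
  ext α
  by_cases h : ∃ a : I n k, ex a = α
  · obtain ⟨a, rfl⟩ := h
    rw [poly_coeff]
  · rw [notMem_support_iff.1 fun h1 => h (ex_surj ((le_totalDegree h1).trans hp)),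
      notMem_support_iff.1 fun h1 => h ((poly_supp h1).imp fun _ h => h.1)]

lemma cauchy (c : I n k → ℂ) (s : ℝ) (h : ∀ z : Fin n → ℂ, ‖z‖ ≤ 1 → ‖∑ b, c b * E n k b z‖ ≤ s)
    (a : I n k) : ‖c a‖ ≤ s := by
  obtain ⟨ω, hω⟩ : ∃ ω : ℂ, IsPrimitiveRoot ω (k + 1) := ⟨_, Complex.isPrimitiveRoot_exp _ (by omega)⟩
  have w1 : ‖ω‖ = 1 := hω.norm'_eq_one (by omega)
  have w0 : ω ≠ 0 := hω.ne_zero (by omega)
  have h1 : ∀ u v : Fin (k + 1), ∑ t : Fin (k + 1), (ω ^ (t : ℕ)) ^ (u : ℕ) *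
      ((ω ^ (t : ℕ)) ^ (v : ℕ))⁻¹ = if u = v then ((k + 1 : ℕ) : ℂ) else 0 := fun u v => by
    have e : ∀ t : ℕ, (ω ^ t) ^ (u : ℕ) * ((ω ^ t) ^ (v : ℕ))⁻¹ = (ω ^ (u : ℕ) * (ω ^ (v : ℕ))⁻¹) ^ t :=
      fun t => by rw [mul_pow, inv_pow, ← pow_mul, ← pow_mul, ← pow_mul, ← pow_mul, mul_comm t, mul_comm t]
    simp only [e]
    split_ifs with huv
    · simp [huv, w0]
    · rw [Fin.sum_univ_eq_sum_range (fun t => (ω ^ (u : ℕ) * (ω ^ (v : ℕ))⁻¹) ^ t), geom_sum_eq,
        ← e, hω.pow_eq_one]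
      · simp
      · intro h
        rw [mul_inv_eq_one₀ (pow_ne_zero _ w0)] at h
        exact huv (Fin.ext (hω.pow_inj u.2 v.2 h))
  have h2 : ∑ j : Fin n → Fin (k + 1), (∑ b, c b * E n k b fun i => ω ^ (j i : ℕ)) *
      ∏ i, ((ω ^ (j i : ℕ)) ^ (a.1 i : ℕ))⁻¹ = c a * (k + 1 : ℕ) ^ n := by
    simp only [sum_mul, E, mul_assoc, ← prod_mul_distrib]
    rw [sum_comm]
    simp only [← mul_sum]
    rw [sum_eq_single a, ← Fintype.piFinset_univ, ← prod_univ_sum (fun _ => univ)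
      (fun i (t : Fin (k + 1)) => (ω ^ (t : ℕ)) ^ (a.1 i : ℕ) * ((ω ^ (t : ℕ)) ^ (a.1 i : ℕ))⁻¹)]
    · simp [h1]
    · intro b _ hb
      rw [← Fintype.piFinset_univ, ← prod_univ_sum (fun _ => univ)
        (fun i (t : Fin (k + 1)) => (ω ^ (t : ℕ)) ^ (b.1 i : ℕ) * ((ω ^ (t : ℕ)) ^ (a.1 i : ℕ))⁻¹)]
      obtain ⟨i, hi⟩ := Function.ne_iff.1 fun h => hb (Subtype.ext h)
      rw [prod_eq_zero (mem_univ i) (by rw [h1, if_neg hi]), mul_zero]
    · simp
  have h3 := (congrArg norm h2).symm.trans_le ((norm_sum_le _ _).trans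
    (sum_le_card_nsmul _ _ s fun j _ => by
      rw [norm_mul, norm_prod]
      simp only [norm_inv, norm_pow, w1, one_pow, inv_one, prod_const_one, mul_one]
      exact h _ ((pi_norm_le_iff_of_nonneg zero_le_one).2 fun i => by simp [w1])))
  simp only [norm_mul, norm_pow, Complex.norm_natCast, card_univ, Fintype.card_fun,
    Fintype.card_fin, nsmul_eq_mul, Nat.cast_pow] at h3
  rw [mul_comm] at h3
  exact le_of_mul_le_mul_left h3 (by positivity)

lemma uni {r : ℝ} (r0 : 0 < r) (S : ℝ) (d : ℕ) : ∀ (Q : Polynomial ℂ) (P : ℂ → ℂ),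
    Differentiable ℂ P → Q.natDegree ≤ d → (∀ t, ‖t‖ = r → ‖P t * Q.eval t‖ ≤ S) →
    ‖P 0‖ * ‖Q.eval 1‖ ≤ ((1 + r) / r) ^ d * S := by
  have base : ∀ (Q : Polynomial ℂ) (P : ℂ → ℂ), Differentiable ℂ P → Q.natDegree = 0 →
      (∀ t, ‖t‖ = r → ‖P t * Q.eval t‖ ≤ S) → ‖P 0‖ * ‖Q.eval 1‖ ≤ S := fun Q P hP hQ h => by
    rw [Polynomial.eq_C_of_natDegree_eq_zero hQ] at h ⊢
    simp only [Polynomial.eval_C] at h ⊢
    rw [← norm_mul]
    refine Complex.norm_le_of_forall_mem_frontier_norm_le (U := Metric.ball 0 r)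
      Metric.isBounded_ball (hP.mul_const _).diffContOnCl (fun z hz => h z ?_)
      (subset_closure (Metric.mem_ball_self r0))
    simpa [frontier_ball _ r0.ne'] using hz
  induction d with
  | zero => intro Q P hP hQ h; simpa using base Q P hP (by omega) h
  | succ d ih =>
    intro Q P hP hQ h
    have S0 : 0 ≤ S := (norm_nonneg _).trans (h r (by simp [r0.le]))
    have r1 : 1 ≤ (1 + r) / r := (one_le_div r0).2 (by linarith)
    rcases Nat.eq_zero_or_pos Q.natDegree with h0 | h0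
    · exact (base Q P hP h0 h).trans (le_mul_of_one_le_left S0 (one_le_pow₀ r1))
    obtain ⟨a, ha⟩ := Complex.exists_root (Polynomial.natDegree_pos_iff_degree_pos.1 h0)
    obtain ⟨R, rfl⟩ := Polynomial.dvd_iff_isRoot.2 ha
    have R0 : R ≠ 0 := by rintro rfl; simp at h0
    rw [Polynomial.natDegree_mul (Polynomial.X_sub_C_ne_zero a) R0,
      Polynomial.natDegree_X_sub_C] at hQ
    obtain ⟨L, L1, L2, L3⟩ : ∃ L : ℂ → ℂ, Differentiable ℂ L ∧ (∀ t, ‖t‖ = r → ‖L t‖ = ‖t - a‖) ∧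
        ‖1 - a‖ ≤ (1 + r) / r * ‖L 0‖ := by
      have a1 : ‖1 - a‖ ≤ 1 + ‖a‖ := by simpa using norm_sub_le 1 a
      rcases le_total r ‖a‖ with h1 | h1
      · refine ⟨fun t => t - a, by fun_prop, fun _ _ => rfl, a1.trans ?_⟩
        beta_reduce
        rw [zero_sub, norm_neg, div_mul_eq_mul_div, le_div_iff₀ r0]; nlinarith
      · refine ⟨fun t => (r ^ 2 - (starRingEnd ℂ) a * t) / r, by fun_prop, fun t ht => ?_, ?_⟩
        · have : (r : ℂ) ^ 2 - (starRingEnd ℂ) a * t = t * (starRingEnd ℂ) (t - a) := by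
            rw [map_sub, mul_sub, Complex.mul_conj', ht]; ring
          beta_reduce
          rw [this, norm_div, norm_mul, ht, Complex.norm_conj, Complex.norm_real,
            Real.norm_of_nonneg r0.le, mul_div_cancel_left₀ _ r0.ne']
        · simp only [mul_zero, sub_zero, norm_div, norm_pow, Complex.norm_real,
            Real.norm_of_nonneg r0.le]
          field_simp; linarith
    have := ih R (fun t => P t * L t) (hP.mul L1) (by omega) fun t ht => by
      have := h t ht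
      simp only [Polynomial.eval_mul, Polynomial.eval_sub, Polynomial.eval_X, Polynomial.eval_C,
        norm_mul, L2 t ht, mul_assoc] at this ⊢
      exact this
    simp only [Polynomial.eval_mul, Polynomial.eval_sub, Polynomial.eval_X, Polynomial.eval_C,
      norm_mul] at this ⊢
    calc _ ≤ ‖P 0‖ * ((1 + r) / r * ‖L 0‖ * ‖R.eval 1‖) := by gcongr
      _ = (1 + r) / r * (‖P 0‖ * ‖L 0‖ * ‖R.eval 1‖) := by ring
      _ ≤ (1 + r) / r * (((1 + r) / r) ^ d * S) := by gcongr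
      _ = _ := by ring

lemma line (q : MvPolynomial (Fin n) ℂ) (x v : Fin n → ℂ) : ∃ Q : Polynomial ℂ,
    Q.natDegree ≤ q.totalDegree ∧ ∀ t, Q.eval t = eval (x + t • v) q := by
  refine ⟨aeval (fun i => Polynomial.C (x i) + Polynomial.C (v i) * Polynomial.X) q, ?_, fun t => ?_⟩
  · simpa using aeval_natDegree_le q le_rfl
      (fun i => Polynomial.C (x i) + Polynomial.C (v i) * Polynomial.X) (n := 1) fun i => by
        compute_degree
  · induction q using MvPolynomial.induction_on <;> simp [*, mul_comm t]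

end H18Vdm
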