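import Pool.Agent.Lib.helper18.Vdm3

open Finset Filter Topology MvPolynomial MonomialOrder

namespace H18Vdm

variable {n k : ℕ}

def Ys (K : Set (Fin n → ℂ)) (α : Fin n →₀ ℕ) : Set ℝ :=
  {s | ∃ f : MvPolynomial (Fin n) ℂ, degLex.Monic f ∧ degLex.degree f = α ∧ ∀ x ∈ K, ‖eval x f‖ ≤ s}

def Vs (K : Set (Fin n → ℂ)) (k : ℕ) : Set ℝ :=
  {s | ∃ z : I n k → (Fin n → ℂ), (∀ a, z a ∈ K) ∧ s = ‖D (E n k) z‖}

def Bd (K : Set (Fin n → ℂ)) (z : Fin n → ℂ) (W : ℝ) : Prop :=
  ∀ (k : ℕ) (p : MvPolynomial (Fin n) ℂ) (s : ℝ), p.totalDegree ≤ k → (∀ x ∈ K, ‖eval x p‖ ≤ s) →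
    ‖eval z p‖ ≤ s * Real.exp (k * W)

lemma D_poly (f : I n k → MvPolynomial (Fin n) ℂ) (hf : ∀ a, (f a).totalDegree ≤ k)
    (x : I n k → Fin n → ℂ) : D (fun b y => eval y (f b)) x =
      D (E n k) x * (Matrix.of fun a b => (f b).coeff (ex a)).det := by
  rw [← D_mul]
  congr 1
  ext b y
  rw [ev_eq (hf b)]
  simp [mul_comm]

variable {K : Set (Fin n → ℂ)} (hK : IsCompact K)
include hK

lemma mono_mem : ∃ R, 0 ≤ R ∧ ∀ α : Fin n →₀ ℕ, Real.exp (R * α.degree) ∈ Ys K α := by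
  obtain ⟨R, R0, hR⟩ := hK.isBounded.exists_pos_norm_le
  refine ⟨R, R0.le, fun α => ⟨monomial α 1, monic_monomial_one, by
    classical simp [degree_monomial], fun x hx => ?_⟩⟩
  rw [eval_monomial, one_mul, Finsupp.prod_fintype _ _ (by simp), norm_prod, Finsupp.degree_eq_sum,
    Nat.cast_sum, mul_sum, Real.exp_sum]
  refine prod_le_prod (fun _ _ => norm_nonneg _) fun i _ => ?_
  rw [norm_pow, mul_comm, Real.exp_nat_mul]
  exact pow_le_pow_left₀ (norm_nonneg _) ((norm_le_pi_norm x i).trans ((hR x hx).trans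
    (by linarith [Real.add_one_le_exp R]))) _

lemma Vs_bdd (k : ℕ) : BddAbove (Vs K k) := by
  obtain ⟨R, R0, hR⟩ := hK.isBounded.exists_pos_norm_le
  refine ⟨(Fintype.card (I n k)).factorial * ∏ b : I n k, ∏ i, R ^ (b.1 i : ℕ), ?_⟩
  rintro _ ⟨z, hz, rfl⟩
  refine D_le' _ _ (fun b : I n k => ∏ i, R ^ (b.1 i : ℕ)) fun a b => ?_
  rw [E, norm_prod]
  refine prod_le_prod (fun _ _ => norm_nonneg _) fun i _ => ?_
  rw [norm_pow]
  exact pow_le_pow_left₀ (norm_nonneg _) ((norm_le_pi_norm _ i).trans (hR _ (hz a))) _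

variable (ne : K.Nonempty) {M : ℝ} (hM : ∀ z, ‖z‖ ≤ 1 → Bd K z M)
include hM

omit hK in
lemma Y_low {α : Fin n →₀ ℕ} {s : ℝ} (h : s ∈ Ys K α) : Real.exp (-(α.degree * M)) ≤ s := by
  obtain ⟨f, h1, rfl, h2⟩ := h
  obtain ⟨a, ha⟩ := ex_surj (le_refl (degLex.degree f).degree)
  have := cauchy (fun b => f.coeff (ex b)) (s * Real.exp ((degLex.degree f).degree * M))
    (fun z hz => by
      rw [← ev_eq degree_degLexDegree.ge]
      exact hM z hz _ f s degree_degLexDegree.ge h2) a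
  rw [ha, h1.coeff_degree, norm_one] at this
  rwa [Real.exp_neg, inv_le_iff_one_le_mul₀ (Real.exp_pos _)]

lemma Y_pos (α : Fin n →₀ ℕ) : Real.exp (-(α.degree * M)) ≤ sInf (Ys K α) :=
  le_csInf ((mono_mem hK).elim fun _ h => ⟨_, h.2 α⟩) fun _ h => Y_low hM h

lemma Y_add (α β : Fin n →₀ ℕ) : sInf (Ys K (α + β)) ≤ sInf (Ys K α) * sInf (Ys K β) := by
  obtain ⟨R, -, hR⟩ := mono_mem hK
  have p := fun α => (Real.exp_pos _).trans_le (Y_pos hK hM α)
  rw [← div_le_iff₀ (p β)]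
  refine le_csInf ⟨_, hR α⟩ fun s hs => ?_
  rw [div_le_iff₀ (p β), ← div_le_iff₀' ((Real.exp_pos _).trans_le (Y_low hM hs))]
  refine le_csInf ⟨_, hR β⟩ fun t ht => ?_
  have s0 := (Real.exp_pos _).trans_le (Y_low hM hs)
  rw [div_le_iff₀' s0]
  obtain ⟨f, f1, rfl, f2⟩ := hs
  obtain ⟨g, g1, rfl, g2⟩ := ht
  refine csInf_le ⟨_, fun _ h => Y_low hM h⟩ ⟨f * g, f1.mul g1, degree_mul f1.ne_zero g1.ne_zero,
    fun x hx => ?_⟩
  rw [map_mul, norm_mul]
  exact mul_le_mul (f2 x hx) (g2 x hx) (norm_nonneg _) s0.le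

include ne

lemma V_low (k : ℕ) : ∏ a : I n k, sInf (Ys K (ex a)) ≤ sSup (Vs K k) := by
  obtain ⟨x, hx, h⟩ := greedy' (fun a : I n k => degLex.toSyn (ex a))
    (degLex.toSyn.injective.comp ex_inj) K (E n k) (fun a => sInf (Ys K (ex a)))
    (fun a => (Real.exp_pos _).trans_le (Y_pos hK hM _)) fun i c h1 h2 => by
      obtain ⟨x, hx, h⟩ := hK.exists_isMaxOn ne (f := fun x => ‖eval x (poly c)‖)
        (MvPolynomial.continuous_eval _).norm.continuousOn
      have hd : degLex.degree (poly c) = ex i := degLex.toSyn.injective (le_antisymm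
        (degree_le_iff.2 fun α hα => by
          obtain ⟨a, rfl, ha⟩ := poly_supp hα
          exact not_lt.1 fun h => ha (h2 a h))
        (le_degree (by rw [mem_support_iff, poly_coeff, h1]; simp)))
      refine ⟨x, hx, csInf_le ⟨_, fun _ h => Y_low hM h⟩ ⟨poly c, ?_, hd, fun y hy => ?_⟩⟩
      · rw [MonomialOrder.Monic, leadingCoeff, hd, poly_coeff, h1]
      · rw [← poly_eval]; exact h hy
  exact h.trans (le_csSup (Vs_bdd hK k) ⟨x, hx, rfl⟩)

lemma V_exp (k : ℕ) : Real.exp (-(l n k * M)) ≤ sSup (Vs K k) := by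
  refine le_trans ?_ ((prod_le_prod (fun _ _ => (Real.exp_pos _).le) fun a _ =>
    Y_pos hK hM (ex a)).trans (V_low hK ne hM k))
  rw [← Real.exp_sum, l, sum_mul, ← sum_neg_distrib]
  simp [ex_deg]

omit ne in
lemma V_up (k : ℕ) : sSup (Vs K k) ≤ (Fintype.card (I n k)).factorial *
    ∏ a : I n k, (2 * sInf (Ys K (ex a))) := by
  have p := fun α => (Real.exp_pos _).trans_le (Y_pos hK hM α)
  obtain ⟨R, -, hR⟩ := mono_mem hK
  refine Real.sSup_le ?_ (mul_nonneg (by positivity) (prod_nonneg fun a _ => by linarith [p (ex a)]))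
  rintro _ ⟨z, hz, rfl⟩
  have : ∀ a : I n k, 2 * sInf (Ys K (ex a)) ∈ Ys K (ex a) := fun a => by
    obtain ⟨s, ⟨f, h1, h2, h3⟩, hs⟩ := exists_lt_of_csInf_lt ⟨_, hR (ex a)⟩
      (lt_two_mul_self (p (ex a)))
    exact ⟨f, h1, h2, fun x hx => (h3 x hx).trans hs.le⟩
  choose f h1 h2 h3 using this
  have e := D_poly f (fun a => by rw [← degree_degLexDegree, h2, ex_deg]; exact a.2) z
  rw [tri (fun a : I n k => degLex.toSyn (ex a)) (degLex.toSyn.injective.comp ex_inj)
    (Matrix.of fun a b => (f b).coeff (ex a)) (fun a => by rw [Matrix.of_apply, ← h2, (h1 a).coeff_degree])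
    (fun a b h => degLex.coeff_eq_zero_of_lt (f := f b) (by rwa [h2])), mul_one] at e
  rw [← e]
  exact D_le' _ _ _ fun a b => h3 b _ (hz a)

theorem zaharjuta (hn : 1 ≤ n) :
    ∃ δ, Tendsto (fun k => Real.log (sSup (Vs K k)) / l n k) atTop (𝓝 δ) := by
  have p := fun α => (Real.exp_pos _).trans_le (Y_pos hK hM α)
  obtain ⟨R, R0, hR⟩ := mono_mem hK
  have dg : ∀ α : Fin n → ℕ, ((fs α).degree : ℝ) = ∑ i, (α i : ℝ) := fun α => by
    rw [Finsupp.degree_eq_sum, Nat.cast_sum]; rfl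
  obtain ⟨σ, hσ⟩ := zah (fun α : Fin n → ℕ => Real.log (sInf (Ys K (fs α))) + (∑ i, (α i : ℝ)) * |M|)
    (R + |M|) (by positivity) (fun α => by
      have := (Real.le_log_iff_exp_le (p _)).2 (Y_pos hK hM (fs α))
      rw [dg] at this
      nlinarith [le_abs_self M, (by positivity : 0 ≤ ∑ i, (α i : ℝ))]) (fun α β => by
      have e : fs (α + β) = fs α + fs β := Finsupp.ext fun _ => rfl
      have := Real.log_le_log (p _) (Y_add hK hM (fs α) (fs β))
      rw [Real.log_mul (p _).ne' (p _).ne'] at this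
      simp only [e, Pi.add_apply, Nat.cast_add, sum_add_distrib]
      linarith) fun α => by
      have := (Real.log_le_iff_le_exp (p _)).2 (csInf_le ⟨_, fun _ h => Y_low hM h⟩ (hR (fs α)))
      rw [dg] at this
      linarith
  obtain ⟨L, L0, hL⟩ := l_lim hn
  have e1 : ∀ k, Real.log (∏ a : I n k, sInf (Ys K (ex a))) = (∑ a : I n k,
      (Real.log (sInf (Ys K (fs fun i => a.1 i))) + (∑ i, ((a.1 i : ℕ) : ℝ)) * |M|)) - l n k * |M| :=
    fun k => by rw [Real.log_prod fun a _ => (p _).ne', sum_add_distrib, ← sum_mul, l]; simp [ex]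
  have h1 : Tendsto (fun k : ℕ => Real.log (∏ a : I n k, sInf (Ys K (ex a))) / k ^ (n + 1)) atTop
      (𝓝 (σ - L * |M|)) := by
    refine (hσ.sub (hL.mul_const |M|)).congr fun k => ?_
    rw [e1]; ring
  have h2 : Tendsto (fun k : ℕ => Real.log (sSup (Vs K k)) / k ^ (n + 1)) atTop
      (𝓝 (σ - L * |M|)) := by
    refine tendsto_of_tendsto_of_tendsto_of_le_of_le h1 (by simpa using h1.add (small (n := n)))
      (fun k => ?_) fun k => ?_
    · exact div_le_div_of_nonneg_right (Real.log_le_log (prod_pos fun _ _ => p _)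
        (V_low hK ne hM k)) (by positivity)
    · beta_reduce
      rw [← add_div]
      refine div_le_div_of_nonneg_right ?_ (by positivity)
      refine (Real.log_le_log ((Real.exp_pos _).trans_le (V_exp hK ne hM k)) (V_up hK hM k)).trans ?_
      rw [prod_mul_distrib, Real.log_mul (by positivity) (mul_pos (by positivity)
        (prod_pos fun _ _ => p _)).ne', Real.log_mul (by positivity) (prod_pos fun _ _ => p _).ne',
        prod_const, card_univ, Real.log_pow]
      generalize Fintype.card (I n k) = N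
      have a1 := Real.log_le_log (by positivity) (Nat.cast_le (α := ℝ).2 N.factorial_le_pow)
      rw [Nat.cast_pow, Real.log_pow] at a1
      have a2 := mul_le_mul_of_nonneg_left (Real.log_two_lt_d9.le.trans (by norm_num : _ ≤ (1 : ℝ)))
        N.cast_nonneg
      linarith
  refine ⟨_, (h2.div hL L0.ne').congr' ?_⟩
  filter_upwards [eventually_ge_atTop 1] with k hk
  exact div_div_div_cancel_right₀ (by positivity) _ _

end H18Vdm
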