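import Pool.Agent.Lib.helper18.Vdm4

open Finset Filter Topology MvPolynomial MeasureTheory

namespace H18Vdm

variable {n k : ℕ}

noncomputable def Z (ν : Measure (Fin n → ℂ)) (k : ℕ) : ℝ :=
  ∫ z, ‖D (E n k) z‖ ^ 2 ∂(Measure.pi fun _ : I n k => ν)

lemma D_cont : Continuous (D (E n k)) :=
  Continuous.matrix_det (continuous_matrix fun a b => by
    simp only [Matrix.of_apply, E]; fun_prop)

lemma int_of {X : Type*} [TopologicalSpace X] [T2Space X] [MeasurableSpace X] [BorelSpace X]
    {K : Set X} (hK : IsCompact K) {ν : Measure X} [IsFiniteMeasure ν] (h : ∀ᵐ x ∂ν, x ∈ K)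
    {g : X → ℝ} (hg : Continuous g) : Integrable g ν := by
  rw [← Measure.restrict_eq_self_of_ae_mem h]
  exact hg.continuousOn.integrableOn_compact hK

variable {K : Set (Fin n → ℂ)} (hK : IsCompact K) {ν : Measure (Fin n → ℂ)} [IsFiniteMeasure ν]
  (hν : ∀ᵐ x ∂ν, x ∈ K)
include hν

lemma ae_pi : ∀ᵐ z ∂(Measure.pi fun _ : I n k => ν), ∀ a, z a ∈ K :=
  eventually_all.2 fun _ => Measure.tendsto_eval_ae_ae.eventually hν

include hK

lemma Z_le : Z ν k ≤ sSup (Vs K k) ^ 2 * ν.real Set.univ ^ Fintype.card (I n k) := by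
  refine (integral_mono_of_nonneg (Eventually.of_forall fun _ => by positivity)
    (integrable_const (sSup (Vs K k) ^ 2)) ((ae_pi hν).mono fun z hz =>
      pow_le_pow_left₀ (norm_nonneg _) (le_csSup (Vs_bdd hK k) ⟨z, hz, rfl⟩) 2)).trans_eq ?_
  simp [Measure.real, Measure.pi_univ, mul_comm]

lemma Z_ge {A : ℝ} (A0 : 0 ≤ A) (h : ∀ p : MvPolynomial (Fin n) ℂ, p.totalDegree ≤ k → ∀ x ∈ K,
    ‖eval x p‖ ^ 2 ≤ A * ∫ y, ‖eval y p‖ ^ 2 ∂ν) (x : I n k → Fin n → ℂ) (hx : ∀ a, x a ∈ K) :
    ‖D (E n k) x‖ ^ 2 ≤ A ^ Fintype.card (I n k) * Z ν k := by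
  classical
  let F := fun z => ENNReal.ofReal (‖D (E n k) z‖ ^ 2)
  have hF : Measurable F := (D_cont.norm.pow 2).measurable.ennreal_ofReal
  have key : ∀ s : Finset (I n k), ∀ x : I n k → Fin n → ℂ, (∀ a, x a ∈ K) →
      F x ≤ ENNReal.ofReal A ^ s.card * lmarginal (fun _ => ν) s F x := by
    intro s
    induction s using Finset.induction_on with
    | empty => simp
    | insert i s hi ih =>
      intro x hx
      obtain ⟨c, hc⟩ := upd (E n k) x i
      have h1 := h (poly c) (poly_deg c) (x i) (hx i)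
      simp only [poly_eval, ← hc, Function.update_eq_self] at h1
      rw [lmarginal_insert _ hF hi, card_insert_of_notMem hi, pow_succ', mul_assoc,
        ← lintegral_const_mul' _ _ (by simp)]
      refine (ENNReal.ofReal_le_ofReal h1).trans ?_
      rw [ENNReal.ofReal_mul A0, ofReal_integral_eq_lintegral_ofReal (int_of hK hν
        (g := fun y => ‖D (E n k) (Function.update x i y)‖ ^ 2) ((D_cont.comp (continuous_const.update i continuous_id)).norm.pow 2))
        (Eventually.of_forall fun _ => by positivity)]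
      refine mul_le_mul_right (lintegral_mono_ae (hν.mono fun y hy => ih _ fun a => ?_)) _
      by_cases ha : a = i
      · subst ha; simpa
      · simpa [Function.update_of_ne ha] using hx a
  have h2 := key univ x hx
  simp only [lmarginal_univ, F] at h2
  rw [← ofReal_integral_eq_lintegral_ofReal (int_of (isCompact_univ_pi fun _ => hK)
    ((ae_pi hν).mono fun z hz a _ => hz a) (g := fun z => ‖D (E n k) z‖ ^ 2) (D_cont.norm.pow 2))
    (Eventually.of_forall fun _ => by positivity), ← ENNReal.ofReal_pow A0,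
    ← ENNReal.ofReal_mul (by positivity)] at h2
  exact (ENNReal.ofReal_le_ofReal_iff (mul_nonneg (by positivity)
    (integral_nonneg fun _ => by positivity))).1 h2

lemma gain {s d m : ℕ} (hm : d + n * s ≤ m) (V0 : 0 < sSup (Vs K m)) {p : MvPolynomial (Fin n) ℂ}
    (p0 : p ≠ 0) (hp : p.totalDegree ≤ d)
    (det : ∀ f : MvPolynomial (Fin n) ℂ, (∀ x ∈ K, eval x f = 0) → f = 0) {g : ℝ} (g0 : 0 ≤ g)
    (hg : ∀ (q : MvPolynomial (Fin n) ℂ) (S : ℝ), q.totalDegree ≤ n * s →
      (∀ x ∈ K, ‖eval x (p * q)‖ ≤ S) → ∫ y, ‖eval y (p * q)‖ ^ 2 ∂ν ≤ g * S ^ 2) :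
    Z ν m ≤ sSup (Vs K m) ^ 2 * ((Fintype.card (I n m)).factorial ^ 2 *
      (((2 * Fintype.card (I n m)) ^ 2 * (ν.real Set.univ + 1)) ^ Fintype.card (I n m) *
        g ^ (s + 1) ^ n)) := by
  classical
  obtain ⟨_, ⟨x, hx, rfl⟩, h1⟩ := exists_lt_of_lt_csSup (by
    by_contra h
    rw [Set.not_nonempty_iff_eq_empty.1 h, Real.sSup_empty] at V0
    exact V0.false) (half_lt_self V0)
  have D0 : D (E n m) x ≠ 0 := norm_pos_iff.1 ((half_pos V0).trans h1)
  let ℓ := fun a y => D (E n m) (Function.update x a y) / D (E n m) x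
  have l1 : ∀ a, ∀ y ∈ K, ‖ℓ a y‖ ≤ 2 := fun a y hy => by
    rw [norm_div, div_le_iff₀ (norm_pos_iff.2 D0)]
    refine (le_csSup (Vs_bdd hK m) ⟨_, fun b => ?_, rfl⟩).trans (by linarith)
    by_cases ha : b = a
    · subst ha; simpa
    · simpa [Function.update_of_ne ha] using hx b
  have l2 : ∀ b y, ∑ a, ℓ a y * E n m b (x a) = E n m b y := fun b y => by
    simp only [ℓ, div_mul_eq_mul_div, ← sum_div, lagr, mul_div_cancel_left₀ _ D0]
  have l3 : ∀ f : MvPolynomial (Fin n) ℂ, f.totalDegree ≤ m → ∀ y,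
      eval y f = ∑ a, ℓ a y * eval (x a) f := fun f hf y => by
    simp only [ev_eq hf, mul_sum, ← l2 _ y]
    rw [sum_comm]
    exact sum_congr rfl fun _ _ => sum_congr rfl fun _ _ => by ring
  let q : ((Fin n → Fin (s + 1)) → ℂ) →ₗ[ℂ] MvPolynomial (Fin n) ℂ :=
    ∑ β, monomial (fs fun i => β i) ∘ₗ LinearMap.proj β
  have q1 : ∀ c, (q c).totalDegree ≤ n * s := fun c => by
    simp only [q, LinearMap.sum_apply]
    refine totalDegree_finsetSum_le fun β _ => (totalDegree_monomial_le _ _).trans ?_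
    rw [Finsupp.sum_fintype _ _ (by simp)]
    exact (sum_le_card_nsmul _ _ s fun i _ => Nat.lt_succ_iff.1 (β i).2).trans (by simp)
  have q2 : ∀ c, (p * q c).totalDegree ≤ m := fun c =>
    (totalDegree_mul _ _).trans ((add_le_add hp (q1 c)).trans hm)
  obtain ⟨J, B, b1, b2, b3, b4, -⟩ := echelon
    (LinearMap.pi (fun a => (aeval (x a)).toLinearMap) ∘ₗ LinearMap.mulLeft ℂ p ∘ₗ q)
    (fun c hc => by
      have h2 := det (p * q c) fun y _ => by
        rw [l3 _ (q2 c)]
        exact sum_eq_zero fun a _ => mul_eq_zero_of_right _ (congrFun hc a)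
      have h3 := (mul_eq_zero.1 h2).resolve_left p0
      funext β
      have h4 := congrArg (coeff (fs fun i => β i)) h3
      simp only [q, LinearMap.sum_apply, coeff_sum, LinearMap.comp_apply, LinearMap.proj_apply,
        coeff_monomial, coeff_zero] at h4
      rwa [sum_eq_single β (fun γ _ h => if_neg fun e => h (funext fun i =>
        Fin.ext (DFunLike.congr_fun e i))) (by simp), if_pos rfl] at h4) _ le_rfl
  simp only [Fintype.card_fun, Fintype.card_fin] at b1
  set N := Fintype.card (I n m) with hN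
  let F := fun b y => ∑ a, ℓ a y * B a b
  have f1 : ∀ b, Continuous (F b) := fun b => continuous_finsetSum _ fun a _ =>
    ((D_cont.comp (continuous_const.update a continuous_id)).div_const _).mul continuous_const
  have f2 : ∀ b, ∀ y ∈ K, ‖F b y‖ ≤ 2 * N := fun b y hy => (norm_sum_le _ _).trans
    ((sum_le_card_nsmul _ _ 2 fun a _ => by
      rw [norm_mul]; nlinarith [l1 a y hy, b3 a b, norm_nonneg (ℓ a y), norm_nonneg (B a b)]).trans
      (by simp [hN, mul_comm]))
  have f3 : ∀ z, D (E n m) z = D F z * D (E n m) x := fun z => by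
    rw [D_mul ℓ B, b2, mul_one]
    have := D_mul ℓ (Matrix.of fun a b => E n m b (x a)) z
    simp only [Matrix.of_apply, l2] at this
    exact this
  have f4 : ∀ b, ∫ y, ‖F b y‖ ^ 2 ∂ν ≤ (2 * N) ^ 2 * (ν.real Set.univ + 1) *
      if b ∈ J then g else 1 := fun b => by
    have n0 : 0 ≤ ν.real Set.univ := measureReal_nonneg
    split_ifs with hb
    · obtain ⟨c, hc⟩ := b4 b hb
      have e : ∀ y, F b y = eval y (p * q c) := fun y => by
        rw [l3 _ (q2 c)]
        exact sum_congr rfl fun a _ => by rw [hc]; rfl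
      simp only [e] at f2 ⊢
      refine (hg _ (2 * N) (q1 c) fun y hy => e y ▸ f2 b y hy).trans ?_
      rw [mul_comm, mul_right_comm]
      exact le_mul_of_one_le_right (by positivity) (by linarith)
    · refine (integral_mono_of_nonneg (Eventually.of_forall fun _ => by positivity)
        (integrable_const ((2 * N : ℝ) ^ 2)) (hν.mono fun y hy =>
          pow_le_pow_left₀ (norm_nonneg _) (f2 b y hy) 2)).trans ?_
      rw [integral_const, smul_eq_mul, mul_one, mul_comm]
      gcongr; linarith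
  have i1 : ∀ σ : Equiv.Perm (I n m), ∀ z : I n m → Fin n → ℂ, (∏ b, ‖F b (z (σ b))‖) ^ 2 =
      ∏ a, ‖F (σ.symm a) (z a)‖ ^ 2 := fun σ z => by
    rw [← prod_pow, ← Equiv.prod_comp σ (fun a => ‖F (σ.symm a) (z a)‖ ^ 2)]; simp
  have i2 : ∀ σ : Equiv.Perm (I n m), Integrable (fun z : I n m → Fin n → ℂ =>
      ∏ a, ‖F (σ.symm a) (z a)‖ ^ 2) (Measure.pi fun _ => ν) := fun σ =>
    Integrable.fintype_prod (f := fun a y => ‖F (σ.symm a) y‖ ^ 2) fun a =>
      int_of hK hν ((f1 _).norm.pow 2)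
  refine (integral_mono_of_nonneg (Eventually.of_forall fun _ => by positivity)
    (((integrable_finsetSum univ fun σ _ => i2 σ).const_mul N.factorial).const_mul
      (sSup (Vs K m) ^ 2)) (Eventually.of_forall fun z => ?_)).trans ?_
  · beta_reduce
    rw [f3, norm_mul, mul_pow, mul_comm]
    refine mul_le_mul (pow_le_pow_left₀ (norm_nonneg _) (le_csSup (Vs_bdd hK m) ⟨x, hx, rfl⟩) 2)
      ((pow_le_pow_left₀ (norm_nonneg _) (D_le F z) 2).trans (sq_sum_le_card_mul_sum_sq.trans_eq ?_))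
      (by positivity) (by positivity)
    simp [i1, Fintype.card_perm, hN]
  · rw [integral_const_mul, integral_const_mul, integral_finsetSum _ fun σ _ => i2 σ, sq (_ : ℝ),
      sq (N.factorial : ℝ), mul_assoc (N.factorial : ℝ)]
    gcongr
    refine (sum_le_card_nsmul _ _ _ fun σ _ => ?_).trans_eq (by
      rw [card_univ, Fintype.card_perm, nsmul_eq_mul])
    rw [integral_fintype_prod_eq_prod (fun a y => ‖F (σ.symm a) y‖ ^ 2),
      Equiv.prod_comp σ.symm (fun b => ∫ y, ‖F b y‖ ^ 2 ∂ν)]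
    refine (prod_le_prod (fun _ _ => integral_nonneg fun _ => by positivity)
      fun b _ => f4 b).trans_eq ?_
    rw [prod_mul_distrib, prod_const, prod_ite_mem, univ_inter, prod_const, b1, card_univ]

end H18Vdm
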