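import Pool.Agent.Lib.helper18.Vdm5

open Finset Filter Topology MvPolynomial MeasureTheory

namespace H18Vdm

variable {n k : ℕ}

lemma l_facts (hn : 1 ≤ n) : Tendsto (fun k : ℕ => (Fintype.card (I n k) : ℝ) *
    (Real.log (Fintype.card (I n k)) + 1) / l n k) atTop (𝓝 0) ∧
    ∃ A > 0, ∀ᶠ k : ℕ in atTop, 0 < l n k ∧ (k : ℝ) * Fintype.card (I n k) ≤ A * l n k := by
  obtain ⟨L, L0, hL⟩ := l_lim hn
  constructor
  · have := (small (n := n)).div hL L0.ne'
    rw [zero_div] at this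
    refine this.congr' ?_
    filter_upwards [eventually_ge_atTop 1] with k hk
    exact div_div_div_cancel_right₀ (by positivity) _ _
  refine ⟨2 ^ n * (2 / L), by positivity, ?_⟩
  filter_upwards [eventually_ge_atTop 1, hL.eventually_const_lt (half_lt_self L0)] with k hk h
  have k1 : (1 : ℝ) ≤ k := by exact_mod_cast hk
  rw [lt_div_iff₀ (by positivity)] at h
  refine ⟨lt_trans (by positivity) h, ?_⟩
  have c1 : (Fintype.card (I n k) : ℝ) ≤ (k + 1) ^ n := by exact_mod_cast card_le k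
  calc _ ≤ (k : ℝ) * (2 * k) ^ n := by
        gcongr; refine c1.trans ?_; gcongr; linarith
    _ = 2 ^ n * (2 / L) * (L / 2 * k ^ (n + 1)) := by field_simp; ring
    _ ≤ _ := by gcongr

lemma prod_ineq {K : Set (Fin n → ℂ)} {x y : Fin n → ℂ} {r W S : ℝ} (r0 : 0 < r)
    (h : ∀ t : ℂ, ‖t‖ = r → Bd K (x + t • (y - x)) W) {p q : MvPolynomial (Fin n) ℂ} {d : ℕ}
    (hp : p.totalDegree ≤ k) (hq : q.totalDegree ≤ d) (hS : ∀ z ∈ K, ‖eval z (p * q)‖ ≤ S) :
    ‖eval x p‖ * ‖eval y q‖ ≤ ((1 + r) / r) ^ d * (S * Real.exp ((k + d : ℕ) * W)) := by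
  obtain ⟨P, -, hP⟩ := line p x (y - x)
  obtain ⟨Q, h1, hQ⟩ := line q x (y - x)
  have := uni r0 _ d Q _ P.differentiable (h1.trans hq) fun t ht => by
    rw [hP, hQ, ← map_mul]
    exact h t ht _ _ S ((totalDegree_mul _ _).trans (add_le_add hp hq)) hS
  simpa [hP, hQ] using this

variable {K : Set (Fin n → ℂ)} (hK : IsCompact K) {ν : Measure (Fin n → ℂ)} [IsFiniteMeasure ν]
  (hν : ∀ᵐ x ∂ν, x ∈ K) (ne : K.Nonempty) {M : ℝ} (hM : ∀ z, ‖z‖ ≤ 1 → Bd K z M) (hn : 1 ≤ n)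
  {δ : ℝ} (hδ : Tendsto (fun k => Real.log (sSup (Vs K k)) / l n k) atTop (𝓝 δ))
include hK ne hM

lemma V_pos (k : ℕ) : 0 < sSup (Vs K k) := (Real.exp_pos _).trans_le (V_exp hK ne hM k)

include hδ

lemma V_lim : Tendsto (fun k => sSup (Vs K k) ^ (1 / l n k)) atTop (𝓝 (Real.exp δ)) :=
  ((Real.continuous_exp.tendsto δ).comp hδ).congr fun k => by
    rw [Real.rpow_def_of_pos (V_pos hK ne hM k), mul_one_div]; rfl

include hν hn

theorem toZ (h : ∀ ε : ℝ, 0 < ε → ∃ C : ℝ, ∀ (k : ℕ) (p : MvPolynomial (Fin n) ℂ),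
    p.totalDegree ≤ k → ∀ x ∈ K, ‖eval x p‖ ^ 2 ≤ C * (1 + ε) ^ (2 * k) * ∫ y, ‖eval y p‖ ^ 2 ∂ν) :
    Tendsto (fun k => Z ν k ^ (1 / (2 * l n k))) atTop (𝓝 (Real.exp δ)) := by
  have V0 := V_pos hK ne hM
  have h1 : ∀ ε : ℝ, 0 < ε → ∃ C, 0 ≤ C ∧ ∀ k : ℕ, sSup (Vs K k) ^ 2 ≤
      Real.exp (C + 2 * k * ε) ^ Fintype.card (I n k) * Z ν k := fun ε ε0 => by
    obtain ⟨C, hC⟩ := h ε ε0
    refine ⟨|C|, abs_nonneg _, fun k => (Real.le_sqrt' (V0 k)).1 (Real.sSup_le ?_ (Real.sqrt_nonneg _))⟩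
    rintro _ ⟨x, hx, rfl⟩
    refine Real.le_sqrt_of_sq_le (Z_ge hK hν (Real.exp_pos _).le (fun p hp y hy =>
      (hC k p hp y hy).trans (mul_le_mul_of_nonneg_right ?_
        (integral_nonneg fun _ => by positivity))) x hx)
    rw [Real.exp_add, show (2 : ℝ) * k * ε = (2 * k : ℕ) * ε by simp, Real.exp_nat_mul]
    exact mul_le_mul (by linarith [Real.add_one_le_exp |C|, le_abs_self C])
      (pow_le_pow_left₀ (by positivity) (by linarith [Real.add_one_le_exp ε]) _) (by positivity)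
      (by positivity)
  have Z0 : ∀ k, 0 < Z ν k := fun k => by
    obtain ⟨C, -, hC⟩ := h1 1 one_pos
    exact (mul_pos_iff_of_pos_left (by positivity)).1 ((pow_pos (V0 k) 2).trans_le (hC k))
  obtain ⟨e0, A, A0, hA⟩ := l_facts hn
  have e1 : ∀ k, (Fintype.card (I n k) : ℝ) ≤ Fintype.card (I n k) *
      (Real.log (Fintype.card (I n k)) + 1) := fun k => le_mul_of_one_le_right (by positivity)
    (by linarith [Real.log_natCast_nonneg (Fintype.card (I n k))])
  have : Tendsto (fun k => Real.log (Z ν k) / (2 * l n k)) atTop (𝓝 δ) := by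
    refine tendsto_order.2 ⟨fun a ha => ?_, fun a ha => ?_⟩
    · obtain ⟨C, C0, hC⟩ := h1 ((δ - a) / 2 / A) (by have := sub_pos.2 ha; positivity)
      have := hδ.sub (e0.const_mul C)
      filter_upwards [hA, this.eventually_const_lt (show (δ + a) / 2 < _ by linarith)]
        with k h2 h3
      have h4 := Real.log_le_log (pow_pos (V0 k) 2) (hC k)
      rw [Real.log_mul (by positivity) (Z0 k).ne', Real.log_pow, Real.log_pow, Real.log_exp] at h4
      rw [← mul_div_assoc, ← sub_div, lt_div_iff₀ h2.1] at h3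
      rw [lt_div_iff₀ (by linarith)]
      have h5 := mul_le_mul_of_nonneg_left h2.2 (show 0 ≤ (δ - a) / A by
        have := sub_pos.2 ha; positivity)
      rw [← mul_assoc _ A, div_mul_cancel₀ _ A0.ne'] at h5
      have h6 := mul_le_mul_of_nonneg_left (e1 k) C0
      have h7 := mul_nonneg C0 (Fintype.card (I n k)).cast_nonneg
      push_cast at h4
      have h8 : (δ - a) / 2 / A = (δ - a) / A / 2 := by ring
      rw [h8] at h4
      nlinarith
    · have := hδ.add (e0.const_mul (ν.real Set.univ))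
      filter_upwards [hA, this.eventually_lt_const (show _ < a by linarith)] with k h2 h3
      have n0 : 0 ≤ ν.real Set.univ := measureReal_nonneg
      have h4 := Real.log_le_log (Z0 k) ((Z_le hK hν).trans (mul_le_mul_of_nonneg_left
        (pow_le_pow_left₀ n0 (show _ ≤ Real.exp (ν.real Set.univ) by
          linarith [Real.add_one_le_exp (ν.real Set.univ)]) _) (by positivity)))
      rw [Real.log_mul (pow_pos (V0 k) 2).ne' (by positivity), Real.log_pow, Real.log_pow,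
        Real.log_exp] at h4
      rw [← mul_div_assoc, ← add_div, div_lt_iff₀ h2.1] at h3
      rw [div_lt_iff₀ (by linarith)]
      have h6 := mul_le_mul_of_nonneg_left (e1 k) n0
      have h7 := mul_nonneg n0 (Fintype.card (I n k)).cast_nonneg
      push_cast at h4
      nlinarith
  exact ((Real.continuous_exp.tendsto δ).comp this).congr fun k => by
    rw [Real.rpow_def_of_pos (Z0 k), mul_one_div]; rfl

lemma notZ {c : ℝ} (c0 : 0 < c) {L : ℕ} (L1 : 1 ≤ L) (h : ∃ᶠ m : ℕ in atTop, ∃ s : ℕ, m ≤ L * s ∧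
    Z ν m ≤ sSup (Vs K m) ^ 2 * ((Fintype.card (I n m)).factorial ^ 2 *
      (((2 * Fintype.card (I n m)) ^ 2 * (ν.real Set.univ + 1)) ^ Fintype.card (I n m) *
        Real.exp (-(c * m)) ^ (s + 1) ^ n))) :
    ¬ Tendsto (fun k => Z ν k ^ (1 / (2 * l n k))) atTop (𝓝 (Real.exp δ)) := fun hZ => by
  obtain ⟨e0, A, A0, hA⟩ := l_facts hn
  have n0 : 0 ≤ ν.real Set.univ := measureReal_nonneg
  have h1 := (Real.continuous_exp.tendsto _).comp
    ((hδ.add (e0.const_mul (2 + ν.real Set.univ))).sub_const (c / 2 / L ^ n))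
  have L0 : (0 : ℝ) < L := by exact_mod_cast L1
  obtain ⟨m, ⟨s, h2, h3⟩, ⟨h4, -⟩, h5⟩ := (h.and_eventually (hA.and (h1.eventually_lt hZ
    (Real.exp_lt_exp.2 (by
      have : 0 < c / 2 / L ^ n := by positivity
      linarith))))).exists
  refine h5.not_ge ((Real.rpow_le_rpow (integral_nonneg fun _ => by positivity) h3
    (by positivity)).trans ?_)
  have V0 := V_pos hK ne hM m
  have N1 : (1 : ℝ) ≤ Fintype.card (I n m) := by
    exact_mod_cast Fintype.card_pos_iff.2 ⟨mk' 0 (by simp)⟩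
  rw [Function.comp_apply]
  generalize Fintype.card (I n m) = N at *
  rw [Real.rpow_def_of_pos (by positivity), Real.exp_le_exp,
    Real.log_mul (by positivity) (by positivity), Real.log_mul (by positivity) (by positivity),
    Real.log_mul (by positivity) (by positivity), Real.log_pow, Real.log_pow, Real.log_pow,
    Real.log_pow, Real.log_mul (by positivity) (by positivity), Real.log_pow,
    Real.log_mul (by positivity) (by positivity), Real.log_exp, mul_one_div,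
    div_le_iff₀ (by positivity), sub_mul, add_mul, ← mul_div_assoc, mul_comm 2 (l n m),
    ← mul_assoc, ← mul_assoc, div_mul_cancel₀ _ h4.ne', div_mul_cancel₀ _ h4.ne']
  have a1 := Real.log_le_log (by positivity) (Nat.cast_le (α := ℝ).2 N.factorial_le_pow)
  rw [Nat.cast_pow, Real.log_pow] at a1
  have a2 := mul_le_mul_of_nonneg_left (Real.log_two_lt_d9.le.trans (by norm_num : _ ≤ (1 : ℝ)))
    N.cast_nonneg
  have a3 := mul_le_mul_of_nonneg_left (Real.log_le_sub_one_of_pos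
    (show 0 < ν.real Set.univ + 1 by positivity)) N.cast_nonneg
  have a4 := mul_nonneg (mul_nonneg n0 N.cast_nonneg) (Real.log_nonneg N1)
  have a5 : c / 2 / L ^ n * (l n m * 2) ≤ c * m * (s + 1) ^ n := by
    have : (m : ℝ) + 1 ≤ L * (s + 1) := by exact_mod_cast (by nlinarith : m + 1 ≤ L * (s + 1))
    calc _ ≤ c / 2 / L ^ n * (m * (L * (s + 1)) ^ n * 2) := by
          gcongr; refine (l_le m).trans ?_; gcongr
      _ = _ := by rw [mul_pow]; field_simp
  have a6 := mul_nonneg n0 N.cast_nonneg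
  have a7 := N.cast_nonneg (α := ℝ)
  push_cast
  nlinarith

theorem core {r W e : ℝ} (r0 : 0 < r) (e0 : 0 < e) (H : ∀ C : ℝ, ∃ (k : ℕ)
    (p : MvPolynomial (Fin n) ℂ) (x : Fin n → ℂ), p.totalDegree ≤ k ∧
    (∀ y ∈ K, ∀ t : ℂ, ‖t‖ = r → Bd K (x + t • (y - x)) W) ∧
    Real.exp (C + 2 * k * (W + e)) * ∫ y, ‖eval y p‖ ^ 2 ∂ν < ‖eval x p‖ ^ 2) :
    ¬ Tendsto (fun k => Z ν k ^ (1 / (2 * l n k))) atTop (𝓝 (Real.exp δ)) := by
  obtain ⟨a, a0, ha⟩ : ∃ a, 0 ≤ a ∧ (1 + r) / r = Real.exp a :=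
    ⟨_, Real.log_nonneg ((one_le_div r0).2 (by linarith)), (Real.exp_log (by positivity)).symm⟩
  obtain ⟨b, hb⟩ : ∃ b, b = 2 * |W| + 2 * a + e := ⟨_, rfl⟩
  have b0 : 0 < b := by rw [hb]; positivity
  obtain ⟨L, hL⟩ := exists_nat_gt (n * b / e)
  have L0 : 0 < L := Nat.cast_pos.1 (lt_of_le_of_lt (by positivity) hL)
  refine notZ hK hν ne hM hn hδ e0 (L := L + n) (by omega) (frequently_atTop.2 fun m0 => ?_)
  obtain ⟨k, p, x, hp, h1, h2⟩ := H (n * (m0 + 1) * b)
  obtain ⟨s, hs⟩ : ∃ s, s = k / L + (m0 + 1) := ⟨_, rfl⟩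
  have s1 := Nat.lt_mul_div_succ k L0
  have s2 : (L : ℝ) * (k / L : ℕ) ≤ k := by exact_mod_cast Nat.mul_div_le k L
  refine ⟨k + n * s, by nlinarith [Nat.zero_le (k / L)], s, by nlinarith, gain hK hν le_rfl
    (V_pos hK ne hM _) ?_ hp (fun f hf => ?_) (by positivity) fun q S hq hS => ?_⟩
  · rintro rfl
    simp at h2
  · ext α
    by_contra h
    obtain ⟨i, rfl⟩ := ex_surj (le_totalDegree (mem_support_iff.2 h))
    refine h (norm_le_zero_iff.1 (cauchy (fun b => f.coeff (ex b)) 0 (fun z hz => ?_) i))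
    rw [← ev_eq le_rfl]
    simpa using hM z hz _ f 0 le_rfl fun x hx => by simp [hf x hx]
  obtain ⟨y, hy, h3⟩ := hK.exists_isMaxOn ne (f := fun x => ‖eval x q‖)
    (MvPolynomial.continuous_eval _).norm.continuousOn
  have h4 := pow_le_pow_left₀ (by positivity) (prod_ineq r0 (h1 y hy) hp hq hS) 2
  have h5 : ∫ z, ‖eval z (p * q)‖ ^ 2 ∂ν ≤ (∫ z, ‖eval z p‖ ^ 2 ∂ν) * ‖eval y q‖ ^ 2 := by
    rw [← integral_mul_const]
    refine integral_mono_of_nonneg (Eventually.of_forall fun _ => by positivity)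
      (int_of hK hν (((MvPolynomial.continuous_eval _).norm.pow 2).mul continuous_const))
      (hν.mono fun z hz => ?_)
    beta_reduce
    rw [map_mul, norm_mul, mul_pow]
    gcongr
    exact h3 hz
  refine h5.trans (le_of_mul_le_mul_left ?_ (Real.exp_pos (n * (m0 + 1) * b + 2 * k * (W + e))))
  rw [← mul_assoc]
  refine (mul_le_mul_of_nonneg_right h2.le (by positivity)).trans ?_
  rw [← mul_pow]
  refine h4.trans ?_
  rw [ha, ← Real.exp_nat_mul, mul_left_comm, ← Real.exp_add, mul_pow, ← Real.exp_nat_mul,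
    ← mul_assoc, ← Real.exp_add, mul_comm]
  gcongr
  rw [div_lt_iff₀ e0] at hL
  have h6 : (n : ℝ) * s * b ≤ k * e + n * (m0 + 1) * b := by
    rw [hs]; push_cast
    nlinarith [mul_le_mul_of_nonneg_right hL.le (k / L : ℕ).cast_nonneg]
  have h7 := mul_le_mul_of_nonneg_left (le_abs_self W) (show (0 : ℝ) ≤ n * s by positivity)
  push_cast
  rw [hb] at h6 ⊢
  nlinarith

end H18Vdm
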