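import Mathlib

open MeasureTheory Set Filter Topology
open scoped ENNReal

namespace H18Widom

noncomputable def k (D x y : ℝ) : ℝ≥0∞ :=
  if x = y then ⊤ else ENNReal.ofReal (Real.log (D / |x - y|))

lemma k_symm (D x y : ℝ) : k D x y = k D y x := by
  unfold k
  by_cases h : x = y
  · simp [h]
  · rw [if_neg h, if_neg (Ne.symm h), abs_sub_comm]

lemma k_meas (D : ℝ) : Measurable (fun p : ℝ × ℝ => k D p.1 p.2) := by
  unfold k
  refine Measurable.ite (measurableSet_eq_fun measurable_fst measurable_snd) measurable_const ?_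
  fun_prop

lemma k_meas1 (D x : ℝ) : Measurable (k D x) := (k_meas D).comp measurable_prodMk_left

lemma k_tendsto {D : ℝ} (hD : 0 < D) (x y : ℝ) : Tendsto (fun z => k D z y) (𝓝 x) (𝓝 (k D x y)) := by
  by_cases h : x = y
  · subst h
    have : k D x x = ⊤ := by simp [k]
    rw [this, ENNReal.tendsto_nhds_top_iff_nat]
    intro n
    have hp : 0 < D * Real.exp (-(n + 1)) := by positivity
    filter_upwards [Metric.ball_mem_nhds x hp] with z hz
    by_cases hzx : z = x
    · simp [k, hzx]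
    · rw [k, if_neg hzx, ← ENNReal.ofReal_natCast, ENNReal.ofReal_lt_ofReal_iff']
      have h0 : 0 < |z - x| := abs_pos.2 (sub_ne_zero.2 hzx)
      have h1 : |z - x| < D * Real.exp (-(n + 1)) := by simpa [Real.dist_eq] using hz
      have h2 : (n : ℝ) + 1 < Real.log (D / |z - x|) := by
        rw [Real.lt_log_iff_exp_lt (by positivity), lt_div_iff₀ h0]
        have : Real.exp (n + 1) * (D * Real.exp (-(n + 1))) = D := by
          rw [Real.exp_neg]; field_simp
        nlinarith [Real.exp_pos ((n : ℝ) + 1)]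
      have : (0 : ℝ) ≤ n := n.cast_nonneg
      constructor <;> linarith
  · have h0 : |x - y| ≠ 0 := abs_ne_zero.2 (sub_ne_zero.2 h)
    have hc : ContinuousAt (fun z => ENNReal.ofReal (Real.log (D / |z - y|))) x := by
      refine ENNReal.continuous_ofReal.continuousAt.comp ?_
      refine ContinuousAt.log (ContinuousAt.div continuousAt_const (by fun_prop) h0) ?_
      exact div_ne_zero hD.ne' h0
    have e : k D x y = ENNReal.ofReal (Real.log (D / |x - y|)) := by rw [k, if_neg h]
    rw [e]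
    refine hc.tendsto.congr' ?_
    filter_upwards [eventually_ne_nhds h] with z hz
    rw [k, if_neg hz]

noncomputable def U (D : ℝ) (μ : Measure ℝ) (x : ℝ) : ℝ≥0∞ := ∫⁻ y, k D x y ∂μ

noncomputable def En (D : ℝ) (α β : Measure ℝ) : ℝ≥0∞ := ∫⁻ x, U D β x ∂α

lemma U_meas (D : ℝ) (μ : Measure ℝ) [SFinite μ] : Measurable (U D μ) :=
  (k_meas D).lintegral_prod_right'

lemma En_symm (D : ℝ) (α β : Measure ℝ) [SFinite α] [SFinite β] : En D α β = En D β α := by
  unfold En U
  rw [lintegral_lintegral_swap (k_meas D).aemeasurable]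
  simp only [k_symm D]

lemma En_lin (D : ℝ) (α β γ : Measure ℝ) (a b : ℝ≥0∞) :
    En D (a • α + b • β) γ = a * En D α γ + b * En D β γ := by
  unfold En
  rw [lintegral_add_measure, lintegral_smul_measure, lintegral_smul_measure]
  rfl

lemma variation {K : Set ℝ} {D : ℝ} {μ : Measure ℝ} [IsProbabilityMeasure μ] (hK : μ Kᶜ = 0)
    (hfin : En D μ μ < ⊤)
    (hmin : ∀ ν : Measure ℝ, IsProbabilityMeasure ν → ν Kᶜ = 0 → En D μ μ ≤ En D ν ν)
    (A : Set ℝ) (hA : MeasurableSet A) : μ A * En D μ μ ≤ ∫⁻ x in A, U D μ x ∂μ := by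
  set β := μ.restrict A with hβ
  have hX : En D β μ ≤ En D μ μ := lintegral_mono' Measure.restrict_le_self le_rfl
  have hY : En D β β ≤ En D μ μ := by
    refine le_trans ?_ hX
    rw [En_symm D β μ]
    exact lintegral_mono' Measure.restrict_le_self le_rfl
  change μ A * En D μ μ ≤ En D β μ
  have ha1 : μ A ≤ 1 := prob_le_one
  obtain ⟨a, ha0, ha⟩ : ∃ a : ℝ, 0 ≤ a ∧ μ A = ENNReal.ofReal a :=
    ⟨(μ A).toReal, ENNReal.toReal_nonneg, (ENNReal.ofReal_toReal (measure_ne_top _ _)).symm⟩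
  obtain ⟨E, hE0, hE⟩ : ∃ E : ℝ, 0 ≤ E ∧ En D μ μ = ENNReal.ofReal E :=
    ⟨_, ENNReal.toReal_nonneg, (ENNReal.ofReal_toReal hfin.ne).symm⟩
  obtain ⟨X, hX0, hX'⟩ : ∃ E : ℝ, 0 ≤ E ∧ En D β μ = ENNReal.ofReal E :=
    ⟨_, ENNReal.toReal_nonneg, (ENNReal.ofReal_toReal (hX.trans_lt hfin).ne).symm⟩
  obtain ⟨Y, hY0, hY'⟩ : ∃ E : ℝ, 0 ≤ E ∧ En D β β = ENNReal.ofReal E :=
    ⟨_, ENNReal.toReal_nonneg, (ENNReal.ofReal_toReal (hY.trans_lt hfin).ne).symm⟩
  have ha1' : a ≤ 1 := by rwa [ha, ENNReal.ofReal_le_one] at ha1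
  have key : ∀ t : ℝ, 0 < t → t < 1 →
      E ≤ (1 - t * a) * ((1 - t * a) * E + t * X) + t * ((1 - t * a) * X + t * Y) := by
    intro t ht0 ht1
    have hc : 0 ≤ 1 - t * a := by nlinarith
    set ν := ENNReal.ofReal (1 - t * a) • μ + ENNReal.ofReal t • β with hν
    have hp : IsProbabilityMeasure ν := by
      constructor
      simp only [hν, Measure.add_apply, Measure.smul_apply, smul_eq_mul, measure_univ, mul_one,
        hβ, Measure.restrict_apply_univ, ha]
      rw [← ENNReal.ofReal_mul ht0.le, ← ENNReal.ofReal_add hc (by positivity)]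
      simp
    have h0 : ν Kᶜ = 0 := by
      have : β Kᶜ = 0 := le_antisymm ((Measure.restrict_le_self _).trans hK.le) bot_le
      simp [hν, hK, this]
    have h1 := hmin ν hp h0
    have e1 : En D μ ν = ENNReal.ofReal (1 - t * a) * En D μ μ + ENNReal.ofReal t * En D β μ := by
      rw [En_symm, hν, En_lin]
    have e2 : En D β ν = ENNReal.ofReal (1 - t * a) * En D β μ + ENNReal.ofReal t * En D β β := by
      rw [En_symm, hν, En_lin, En_symm D μ β]
    have e3 : En D ν ν = ENNReal.ofReal (1 - t * a) * En D μ ν + ENNReal.ofReal t * En D β ν := by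
      conv_lhs => rw [hν, En_lin]
    rw [e3, e1, e2, hE, hX', hY'] at h1
    rw [← ENNReal.ofReal_mul hc, ← ENNReal.ofReal_mul hc, ← ENNReal.ofReal_mul ht0.le,
      ← ENNReal.ofReal_mul ht0.le, ← ENNReal.ofReal_add (by positivity) (by positivity),
      ← ENNReal.ofReal_add (by positivity) (by positivity), ← ENNReal.ofReal_mul hc,
      ← ENNReal.ofReal_mul ht0.le, ← ENNReal.ofReal_add (by positivity) (by positivity),
      ENNReal.ofReal_le_ofReal_iff (by positivity)] at h1
    exact h1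
  rw [ha, hE, hX', ← ENNReal.ofReal_mul ha0]
  apply ENNReal.ofReal_le_ofReal
  have h2 : ∀ t : ℝ, 0 < t → t < 1 → 2 * (a * E - X) ≤ t * (a ^ 2 * E + Y) := by
    intro t ht0 ht1
    have := key t ht0 ht1
    have h3 : t * (2 * (a * E - X)) ≤ t * (t * (a ^ 2 * E + Y)) := by
      have : 0 ≤ t * t * a * X := by positivity
      nlinarith
    exact le_of_mul_le_mul_left h3 ht0
  have hl : Tendsto (fun t : ℝ => t * (a ^ 2 * E + Y)) (𝓝[>] 0) (𝓝 0) := by
    have : Tendsto (fun t : ℝ => t * (a ^ 2 * E + Y)) (𝓝 0) (𝓝 (0 * (a ^ 2 * E + Y))) :=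
      (continuous_id.mul continuous_const).tendsto 0
    rw [zero_mul] at this
    exact this.mono_left nhdsWithin_le_nhds
  have := ge_of_tendsto hl (by
    filter_upwards [Ioo_mem_nhdsGT (zero_lt_one (α := ℝ))] with t ht using h2 t ht.1 ht.2)
  linarith

lemma ae_le {K : Set ℝ} {D : ℝ} {μ : Measure ℝ} [IsProbabilityMeasure μ] (hK : μ Kᶜ = 0)
    (hfin : En D μ μ < ⊤)
    (hmin : ∀ ν : Measure ℝ, IsProbabilityMeasure ν → ν Kᶜ = 0 → En D μ μ ≤ En D ν ν) :
    ∀ᵐ x ∂μ, U D μ x ≤ En D μ μ := by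
  refine ae_le_of_forall_setLIntegral_le_of_sigmaFinite (g := fun _ => En D μ μ) (U_meas D μ) ?_
  intro A hA _
  rw [setLIntegral_const]
  have h1 := variation hK hfin hmin Aᶜ hA.compl
  have h2 : ∫⁻ x in A, U D μ x ∂μ + ∫⁻ x in Aᶜ, U D μ x ∂μ = En D μ μ := lintegral_add_compl _ hA
  have h3 : μ A * En D μ μ + μ Aᶜ * En D μ μ = En D μ μ := by
    rw [← add_mul, measure_add_measure_compl hA, measure_univ, one_mul]
  have h4 : μ Aᶜ * En D μ μ ≠ ⊤ := ENNReal.mul_ne_top (measure_ne_top _ _) hfin.ne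
  rw [mul_comm]
  refine ENNReal.le_of_add_le_add_right h4 ?_
  rw [h3]
  exact le_trans (by gcongr) h2.le

lemma closed_le {D : ℝ} (hD : 0 < D) (μ : Measure ℝ) (E : ℝ≥0∞) : IsClosed {x | U D μ x ≤ E} := by
  refine IsSeqClosed.isClosed fun u x hu hx => ?_
  have h1 : U D μ x = ∫⁻ y, liminf (fun n => k D (u n) y) atTop ∂μ := by
    refine lintegral_congr fun y => ?_
    exact (((k_tendsto hD x y).comp hx).liminf_eq).symm
  change U D μ x ≤ E
  rw [h1]
  refine (lintegral_liminf_le fun n => k_meas1 D (u n)).trans ?_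
  exact liminf_le_of_frequently_le' (Frequently.of_forall hu)

lemma k_mono {D : ℝ} (hD : 0 < D) {x a y : ℝ} (h : |a - y| ≤ |x - y|) (hx : x ≠ y) :
    k D x y ≤ k D a y := by
  by_cases ha : a = y
  · simp [k, ha]
  have h0 : 0 < |a - y| := abs_pos.2 (sub_ne_zero.2 ha)
  have h1 : 0 < |x - y| := h0.trans_le h
  rw [k, k, if_neg ha, if_neg hx]
  apply ENNReal.ofReal_le_ofReal
  apply Real.log_le_log (by positivity)
  gcongr

lemma k_conv {D : ℝ} (hD : 0 < D) {x a b y θ : ℝ} (h0 : 0 < θ) (h1 : θ < 1)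
    (h : |x - y| = θ * |a - y| + (1 - θ) * |b - y|) (hx : x ≠ y) :
    k D x y ≤ ENNReal.ofReal θ * k D a y + ENNReal.ofReal (1 - θ) * k D b y := by
  have h1' : 0 < 1 - θ := by linarith
  by_cases ha : a = y
  · have : ENNReal.ofReal θ * k D a y = ⊤ := by
      simp [k, ha, ENNReal.mul_eq_top, h0]
    simp [this]
  by_cases hb : b = y
  · have : ENNReal.ofReal (1 - θ) * k D b y = ⊤ := by
      simp [k, hb, ENNReal.mul_eq_top, h1]
    simp [this]
  have ha0 : 0 < |a - y| := abs_pos.2 (sub_ne_zero.2 ha)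
  have hb0 : 0 < |b - y| := abs_pos.2 (sub_ne_zero.2 hb)
  have hx0 : 0 < |x - y| := abs_pos.2 (sub_ne_zero.2 hx)
  rw [k, k, k, if_neg ha, if_neg hb, if_neg hx, ← ENNReal.ofReal_mul h0.le,
    ← ENNReal.ofReal_mul h1'.le]
  refine le_trans (ENNReal.ofReal_le_ofReal ?_) ENNReal.ofReal_add_le
  rw [Real.log_div hD.ne' ha0.ne', Real.log_div hD.ne' hb0.ne', Real.log_div hD.ne' hx0.ne', h]
  have := strictConcaveOn_log_Ioi.concaveOn.2 (mem_Ioi.2 ha0) (mem_Ioi.2 hb0) h0.le h1'.le
    (by ring)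
  simp only [smul_eq_mul] at this
  linarith

/-- Frostman's bound at every real point -/
theorem frostman {K : Set ℝ} (hKc : IsCompact K) {D : ℝ} (hD : 0 < D) {μ : Measure ℝ}
    [IsProbabilityMeasure μ] (hK : μ Kᶜ = 0) (hfin : En D μ μ < ⊤)
    (hmin : ∀ ν : Measure ℝ, IsProbabilityMeasure ν → ν Kᶜ = 0 → En D μ μ ≤ En D ν ν) (x : ℝ) :
    U D μ x ≤ En D μ μ := by
  set E := En D μ μ
  set S := K ∩ {x | U D μ x ≤ E} with hS
  have hSc : IsCompact S := hKc.inter_right (closed_le hD μ E)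
  have hSa : ∀ᵐ y ∂μ, y ∈ S := by
    have h1 : ∀ᵐ y ∂μ, y ∈ K := hK
    filter_upwards [h1, ae_le hK hfin hmin] with y h1 h2 using ⟨h1, h2⟩
  by_cases hx : x ∈ S
  · exact hx.2
  have hne : ∀ y ∈ S, x ≠ y := fun y hy e => hx (e ▸ hy)
  by_cases hL : (S ∩ Iic x).Nonempty
  · obtain ⟨a, ha, hamax⟩ := (hSc.inter_right isClosed_Iic).exists_isGreatest hL
    by_cases hR : (S ∩ Ici x).Nonempty
    · obtain ⟨b, hb, hbmin⟩ := (hSc.inter_right isClosed_Ici).exists_isLeast hR
      have hax : a < x := lt_of_le_of_ne ha.2 (hne a ha.1).symm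
      have hxb : x < b := lt_of_le_of_ne hb.2 (hne b hb.1)
      have hab : 0 < b - a := by linarith
      set θ := (b - x) / (b - a) with hθ
      have h0 : 0 < θ := div_pos (by linarith) hab
      have h1 : θ < 1 := by rw [hθ, div_lt_one hab]; linarith
      have hxe : x = θ * a + (1 - θ) * b := by rw [hθ]; field_simp; ring
      calc U D μ x ≤ ∫⁻ y, (ENNReal.ofReal θ * k D a y + ENNReal.ofReal (1 - θ) * k D b y) ∂μ := by
            refine lintegral_mono_ae ?_
            filter_upwards [hSa] with y hy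
            refine k_conv hD h0 h1 ?_ (hne y hy)
            rcases le_total y x with h | h
            · have : y ≤ a := hamax ⟨hy, h⟩
              rw [abs_of_nonneg (by linarith), abs_of_nonneg (by linarith),
                abs_of_nonneg (by linarith)]
              linarith
            · have : b ≤ y := hbmin ⟨hy, h⟩
              rw [abs_of_nonpos (by linarith), abs_of_nonpos (by linarith),
                abs_of_nonpos (by linarith)]
              linarith
        _ = ENNReal.ofReal θ * U D μ a + ENNReal.ofReal (1 - θ) * U D μ b := by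
            rw [lintegral_add_left ((k_meas1 D a).const_mul _), lintegral_const_mul _ (k_meas1 D a),
              lintegral_const_mul _ (k_meas1 D b)]
            rfl
        _ ≤ ENNReal.ofReal θ * E + ENNReal.ofReal (1 - θ) * E := by
            gcongr
            · exact ha.1.2
            · exact hb.1.2
        _ = E := by
            rw [← add_mul, ← ENNReal.ofReal_add h0.le (by linarith)]
            simp
    · refine le_trans (lintegral_mono_ae ?_) ha.1.2
      filter_upwards [hSa] with y hy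
      have h : y ≤ x := by
        by_contra h
        exact hR ⟨y, hy, (not_le.1 h).le⟩
      have : y ≤ a := hamax ⟨hy, h⟩
      have hax : a ≤ x := ha.2
      refine k_mono hD ?_ (hne y hy)
      rw [abs_of_nonneg (by linarith), abs_of_nonneg (by linarith)]
      linarith
  · have hall : ∀ y ∈ S, x ≤ y := by
      intro y hy
      by_contra h
      exact hL ⟨y, hy, (not_le.1 h).le⟩
    obtain ⟨b, hb, hbmin⟩ := hSc.exists_isLeast hSa.exists
    refine le_trans (lintegral_mono_ae ?_) hb.2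
    filter_upwards [hSa] with y hy
    have h1 : b ≤ y := hbmin hy
    have h2 := hall b hb
    refine k_mono hD ?_ (hne y hy)
    rw [abs_of_nonpos (by linarith), abs_of_nonpos (by linarith)]
    linarith

end H18Widom
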