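import Pool.Agent.Lib.helper18.Widom1

open MeasureTheory Set Filter Topology Polynomial
open scoped ENNReal

namespace H18Widom

variable {K : Set ℝ} {D : ℝ} {μ : Measure ℝ} {E : ℝ≥0∞}

lemma root [IsProbabilityMeasure μ] (hKc : IsCompact K) (hD : 0 < D) (hK : μ Kᶜ = 0) (hE : E < ⊤)
    (hU : ∀ x, U D μ x ≤ E) (z : ℂ) :
    (∀ᵐ y : ℝ ∂μ, (y : ℂ) - z ≠ 0) ∧ Integrable (fun y : ℝ => Real.log ‖(y : ℂ) - z‖) μ ∧
      Real.log D - E.toReal ≤ ∫ y : ℝ, Real.log ‖(y : ℂ) - z‖ ∂μ := by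
  set x := z.re
  have hx : ∫⁻ y, k D x y ∂μ ≠ ⊤ := ((hU x).trans_lt hE).ne
  have h1 : ∀ᵐ y ∂μ, k D x y < ⊤ := ae_lt_top (k_meas1 D x) hx
  have h2 : ∀ᵐ y ∂μ, x ≠ y := by
    filter_upwards [h1] with y hy e
    simp [k, e] at hy
  have hle : ∀ y : ℝ, |x - y| ≤ ‖(y : ℂ) - z‖ := by
    intro y
    have := Complex.abs_re_le_norm ((y : ℂ) - z)
    rw [abs_sub_comm]
    simpa using this
  have hf : Integrable (fun y => (k D x y).toReal) μ :=
    integrable_toReal_of_lintegral_ne_top (k_meas1 D x).aemeasurable hx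
  have hfi : ∫ y, (k D x y).toReal ∂μ ≤ E.toReal := by
    rw [integral_toReal (k_meas1 D x).aemeasurable h1]
    exact ENNReal.toReal_mono hE.ne (hU x)
  have hlow : ∀ᵐ y : ℝ ∂μ, Real.log D - (k D x y).toReal ≤ Real.log ‖(y : ℂ) - z‖ := by
    filter_upwards [h2] with y hy
    have h0 : 0 < |x - y| := abs_pos.2 (sub_ne_zero.2 hy)
    rw [k, if_neg hy, ENNReal.toReal_ofReal', Real.log_div hD.ne' h0.ne']
    have := Real.log_le_log h0 (hle y)
    have := le_max_left (Real.log D - Real.log |x - y|) 0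
    linarith
  obtain ⟨R, hR⟩ := hKc.isBounded.exists_norm_le
  have hint : Integrable (fun y : ℝ => Real.log ‖(y : ℂ) - z‖) μ := by
    refine Integrable.mono' (g := fun y => (|Real.log D| + (|R| + ‖z‖)) + (k D x y).toReal)
      ((integrable_const _).add hf) (Measurable.aestronglyMeasurable (by fun_prop)) ?_
    have h3 : ∀ᵐ y ∂μ, y ∈ K := hK
    filter_upwards [hlow, h3] with y h4 h5
    have h6 : Real.log ‖(y : ℂ) - z‖ ≤ ‖(y : ℂ) - z‖ := Real.log_le_self (norm_nonneg _)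
    have h7 : ‖(y : ℂ) - z‖ ≤ |R| + ‖z‖ := by
      refine (norm_sub_le _ _).trans ?_
      have := hR y h5
      rw [Complex.norm_real]
      linarith [le_abs_self R]
    have h8 : 0 ≤ (k D x y).toReal := ENNReal.toReal_nonneg
    rw [Real.norm_eq_abs, abs_le]
    constructor
    · linarith [neg_abs_le (Real.log D), abs_nonneg R, norm_nonneg z]
    · linarith [abs_nonneg (Real.log D)]
  refine ⟨?_, hint, ?_⟩
  · filter_upwards [h2] with y hy
    rw [← norm_pos_iff]
    exact (abs_pos.2 (sub_ne_zero.2 hy)).trans_le (hle y)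
  · have := integral_mono_ae ((integrable_const _).sub hf) hint hlow
    simp only [Pi.sub_apply] at this
    rw [integral_sub (integrable_const _) hf] at this
    simp at this
    linarith

lemma multi [IsProbabilityMeasure μ] (hKc : IsCompact K) (hD : 0 < D) (hK : μ Kᶜ = 0) (hE : E < ⊤)
    (hU : ∀ x, U D μ x ≤ E) (s : Multiset ℂ) :
    (∀ᵐ y : ℝ ∂μ, (s.map fun z => (y : ℂ) - z).prod ≠ 0) ∧
      Integrable (fun y : ℝ => Real.log ‖(s.map fun z => (y : ℂ) - z).prod‖) μ ∧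
      s.card * (Real.log D - E.toReal) ≤
        ∫ y : ℝ, Real.log ‖(s.map fun z => (y : ℂ) - z).prod‖ ∂μ := by
  induction s using Multiset.induction_on with
  | empty => simp
  | cons z s ih =>
    obtain ⟨a1, a2, a3⟩ := root hKc hD hK hE hU z
    obtain ⟨b1, b2, b3⟩ := ih
    have e : (fun y : ℝ => Real.log ‖(y : ℂ) - z‖ +
        Real.log ‖(s.map fun z => (y : ℂ) - z).prod‖) =ᵐ[μ]
        fun y : ℝ => Real.log ‖((z ::ₘ s).map fun z => (y : ℂ) - z).prod‖ := by
      filter_upwards [a1, b1] with y h1 h2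
      rw [Multiset.map_cons, Multiset.prod_cons, norm_mul,
        Real.log_mul (norm_ne_zero_iff.2 h1) (norm_ne_zero_iff.2 h2)]
    refine ⟨?_, (a2.add b2).congr e, ?_⟩
    · filter_upwards [a1, b1] with y h1 h2
      rw [Multiset.map_cons, Multiset.prod_cons]
      exact mul_ne_zero h1 h2
    · rw [← integral_congr_ae e, integral_add a2 b2, Multiset.card_cons]
      push_cast
      linarith

lemma szego [IsProbabilityMeasure μ] (hKc : IsCompact K) (hD : 0 < D) (hK : μ Kᶜ = 0) (hE : E < ⊤)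
    (hU : ∀ x, U D μ x ≤ E) (Q : ℝ[X]) (hQ : Q.Monic) :
    (∀ᵐ y : ℝ ∂μ, Q.eval y ≠ 0) ∧ Integrable (fun y : ℝ => Real.log |Q.eval y|) μ ∧
      Q.natDegree * (Real.log D - E.toReal) ≤ ∫ y : ℝ, Real.log |Q.eval y| ∂μ := by
  set Qc := Q.map (algebraMap ℝ ℂ) with hQc
  have hm : Qc.Monic := hQ.map _
  have hs : Qc.Splits := IsAlgClosed.splits Qc
  have he : ∀ y : ℝ, ((Qc.roots.map fun z => (y : ℂ) - z).prod) = ((Q.eval y : ℝ) : ℂ) := by
    intro y
    have h1 := hs.eval_eq_prod_roots_of_monic hm (y : ℂ)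
    rw [← h1, hQc]
    exact eval_map_apply (p := Q) (algebraMap ℝ ℂ) y
  have hc : Qc.roots.card = Q.natDegree := by
    rw [← hs.natDegree_eq_card_roots, hQc, natDegree_map]
  have := multi hKc hD hK hE hU Qc.roots
  simp only [he, hc, Complex.norm_real, Real.norm_eq_abs, ne_eq, Complex.ofReal_eq_zero] at this
  exact this

noncomputable def it (P : ℝ[X]) (r : ℝ) : ℕ → ℝ[X]
  | 0 => P
  | j + 1 => (it P r j) ^ 2 - C (2 * r ^ (2 ^ (j + 1)))

lemma it_monic (P : ℝ[X]) (hP : P.Monic) (h1 : 1 ≤ P.natDegree) (r : ℝ) (j : ℕ) :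
    (it P r j).Monic ∧ (it P r j).natDegree = 2 ^ j * P.natDegree := by
  induction j with
  | zero => simp [it, hP]
  | succ j ih =>
    have hm := ih.1.pow (n := 2)
    have hd : ((it P r j) ^ 2).natDegree = 2 ^ (j + 1) * P.natDegree := by
      rw [ih.1.natDegree_pow, ih.2]; ring
    have hpos : 0 < ((it P r j) ^ 2).natDegree := by rw [hd]; positivity
    constructor
    · rw [it]
      refine hm.sub_of_left ?_
      exact degree_C_le.trans_lt (natDegree_pos_iff_degree_pos.1 hpos)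
    · rw [it, natDegree_sub_C, hd]

lemma it_le (P : ℝ[X]) (r g h y : ℝ) (hg : 0 ≤ g) (hh : 0 ≤ h) (hgh : g * h = r ^ 2)
    (ht : |P.eval y| ≤ g + h) (j : ℕ) : |(it P r j).eval y| ≤ g ^ 2 ^ j + h ^ 2 ^ j := by
  induction j with
  | zero => simpa [it] using ht
  | succ j ih =>
    rw [it, eval_sub, eval_pow, eval_C]
    have e : r ^ 2 ^ (j + 1) = g ^ 2 ^ j * h ^ 2 ^ j := by
      rw [← mul_pow, hgh, ← pow_mul, pow_succ']
    rw [e, pow_succ 2 j, pow_mul, pow_mul]
    set a := g ^ 2 ^ j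
    set b := h ^ 2 ^ j
    set q := (it P r j).eval y
    have h1 : q ^ 2 ≤ (a + b) ^ 2 := by
      rw [← sq_abs q]; exact pow_le_pow_left₀ (abs_nonneg _) ih 2
    rw [abs_le]
    constructor <;> nlinarith [sq_nonneg (a - b), sq_nonneg q]

noncomputable def G (r t : ℝ) : ℝ := max r ((|t| + √(t ^ 2 - 4 * r ^ 2)) / 2)

lemma G_spec {r : ℝ} (hr : 0 < r) (t : ℝ) : r ≤ G r t ∧ |t| ≤ G r t + r ^ 2 / G r t := by
  have h1 : r ≤ G r t := le_max_left _ _
  refine ⟨h1, ?_⟩
  have h0 : 0 < G r t := hr.trans_le h1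
  have h2 : (|t| + √(t ^ 2 - 4 * r ^ 2)) / 2 ≤ G r t := le_max_right _ _
  have hs := Real.sqrt_nonneg (t ^ 2 - 4 * r ^ 2)
  have h3 : t ^ 2 - 4 * r ^ 2 ≤ √(t ^ 2 - 4 * r ^ 2) ^ 2 := by
    rw [Real.sq_sqrt']; exact le_max_left _ _
  have h4 : √(t ^ 2 - 4 * r ^ 2) ^ 2 ≤ (2 * G r t - |t|) ^ 2 :=
    pow_le_pow_left₀ hs (by linarith) 2
  rw [← sub_le_iff_le_add', le_div_iff₀ h0]
  nlinarith [sq_abs t]

lemma green [IsProbabilityMeasure μ] (hKc : IsCompact K) (hD : 0 < D) (hK : μ Kᶜ = 0) (hE : E < ⊤)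
    (hU : ∀ x, U D μ x ≤ E) (P : ℝ[X]) (hP : P.Monic) (h1 : 1 ≤ P.natDegree) {r : ℝ} (hr : 0 < r) :
    Integrable (fun y => Real.log (G r (P.eval y))) μ ∧
    P.natDegree * (Real.log D - E.toReal) ≤ ∫ y, Real.log (G r (P.eval y)) ∂μ := by
  have hc : Continuous fun y => Real.log (G r (P.eval y)) := by
    refine Continuous.log ?_ fun y => (hr.trans_le (G_spec hr _).1).ne'
    unfold G
    have := P.continuous
    fun_prop
  have hint : Integrable (fun y => Real.log (G r (P.eval y))) μ := by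
    have := hc.continuousOn.integrableOn_compact (μ := μ) hKc
    rwa [IntegrableOn, Measure.restrict_eq_self_of_ae_mem hK] at this
  refine ⟨hint, ?_⟩
  have key : ∀ j : ℕ, 2 ^ j * (P.natDegree * (Real.log D - E.toReal)) ≤
      Real.log 2 + 2 ^ j * ∫ y, Real.log (G r (P.eval y)) ∂μ := by
    intro j
    obtain ⟨hm, hd⟩ := it_monic P hP h1 r j
    obtain ⟨a1, a2, a3⟩ := szego hKc hD hK hE hU _ hm
    rw [hd] at a3
    push_cast at a3
    rw [mul_assoc] at a3
    refine a3.trans ?_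
    have := integral_mono_ae a2 ((integrable_const (Real.log 2)).add (hint.const_mul (2 ^ j))) (by
      filter_upwards [a1] with y hy
      obtain ⟨g1, g2⟩ := G_spec hr (P.eval y)
      set g := G r (P.eval y)
      have g0 : 0 < g := hr.trans_le g1
      have h2 := it_le P r g (r ^ 2 / g) y g0.le (by positivity) (by field_simp) g2 j
      have h3 : (r ^ 2 / g) ^ 2 ^ j ≤ g ^ 2 ^ j := by
        refine pow_le_pow_left₀ (by positivity) ?_ _
        rw [div_le_iff₀ g0]; nlinarith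
      have h4 : |(it P r j).eval y| ≤ 2 * g ^ 2 ^ j := by linarith
      have h5 := Real.log_le_log (abs_pos.2 hy) h4
      rw [Real.log_mul two_ne_zero (by positivity), Real.log_pow] at h5
      simpa using h5)
    simp only [Pi.add_apply] at this
    rw [integral_add (integrable_const _) (hint.const_mul _), integral_const_mul] at this
    simpa using this
  by_contra hlt
  push Not at hlt
  set δ := P.natDegree * (Real.log D - E.toReal) - ∫ y, Real.log (G r (P.eval y)) ∂μ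
  have hδ : 0 < δ := sub_pos.2 hlt
  obtain ⟨j, hj⟩ := pow_unbounded_of_one_lt (Real.log 2 / δ) (one_lt_two (α := ℝ))
  rw [div_lt_iff₀ hδ] at hj
  have := key j
  simp only [δ] at hj
  linarith

end H18Widom
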