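import Pool.Agent.Lib.helper18.Widom2

open MeasureTheory Set Filter Topology Polynomial
open scoped ENNReal

namespace H18Widom

lemma ftc {a b : ℝ} (hab : a ≤ b) (Φ φ : ℝ → ℝ) (hc : ContinuousOn Φ (Icc a b))
    (hd : ∀ x ∈ Ioo a b, HasDerivAt Φ (φ x) x) (h0 : ∀ x ∈ Ioo a b, 0 ≤ φ x) :
    ∫⁻ x in Ioo a b, ENNReal.ofReal (φ x) = ENNReal.ofReal (Φ b - Φ a) := by
  have hi := intervalIntegral.integrableOn_deriv_of_nonneg hc hd h0
  rw [← intervalIntegral.integral_eq_sub_of_hasDerivAt_of_le hab hc hd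
    ((intervalIntegrable_iff_integrableOn_Ioc_of_le hab).2 hi),
    intervalIntegral.integral_of_le hab, integral_Ioc_eq_integral_Ioo,
    ofReal_integral_eq_lintegral_ofReal (hi.mono_set Ioo_subset_Ioc_self)]
  exact ae_restrict_of_forall_mem measurableSet_Ioo h0

lemma int_rpow {q b : ℝ} (hq : 0 < q) (hb : 0 ≤ b) :
    ∫⁻ x in Ioo 0 b, ENNReal.ofReal (x ^ (q - 1)) = ENNReal.ofReal (b ^ q / q) := by
  rw [ftc hb (fun x => x ^ q / q) (fun x => x ^ (q - 1))]
  · simp [Real.zero_rpow hq.ne']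
  · exact ((Real.continuous_rpow_const hq.le).div_const q).continuousOn
  · intro x hx
    have := (Real.hasDerivAt_rpow_const (p := q) (Or.inl hx.1.ne')).div_const q
    refine this.congr_deriv ?_
    field_simp
  · intro x hx
    exact Real.rpow_nonneg hx.1.le _

noncomputable def F (w : ℝ → ℝ≥0∞) (σ c : ℝ) : ℝ≥0∞ :=
  ∫⁻ η in Ioo 0 1, if σ < η * c then w η else 0

lemma mix (w : ℝ → ℝ≥0∞) (hw : Measurable w) {q c : ℝ} (hq : 0 < q) (hc : 0 ≤ c) :
    ∫⁻ σ in Ioi 0, ENNReal.ofReal (σ ^ (q - 1)) * F w σ c =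
      ENNReal.ofReal (c ^ q / q) * ∫⁻ η in Ioo 0 1, ENNReal.ofReal (η ^ q) * w η := by
  have hm : Measurable fun p : ℝ × ℝ => if p.1 < p.2 * c then w p.2 else 0 :=
    Measurable.ite (measurableSet_lt measurable_fst (measurable_snd.mul_const c))
      (hw.comp measurable_snd) measurable_const
  have e1 : ∀ σ : ℝ, ENNReal.ofReal (σ ^ (q - 1)) * F w σ c =
      ∫⁻ η in Ioo 0 1, ENNReal.ofReal (σ ^ (q - 1)) * if σ < η * c then w η else 0 := by
    intro σ
    rw [F, lintegral_const_mul' _ _ ENNReal.ofReal_ne_top]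
  simp only [e1]
  rw [lintegral_lintegral_swap, ← lintegral_const_mul' _ _ ENNReal.ofReal_ne_top]
  · refine setLIntegral_congr_fun measurableSet_Ioo fun η hη => ?_
    have e2 : ∀ σ : ℝ, (ENNReal.ofReal (σ ^ (q - 1)) * if σ < η * c then w η else 0) =
        (Iio (η * c)).indicator (fun σ => ENNReal.ofReal (σ ^ (q - 1)) * w η) σ := by
      intro σ
      by_cases h : σ < η * c <;> simp [h, indicator]
    simp only [e2]
    rw [lintegral_indicator measurableSet_Iio, Measure.restrict_restrict measurableSet_Iio,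
      Iio_inter_Ioi, lintegral_mul_const _ (by fun_prop), int_rpow hq (mul_nonneg hη.1.le hc),
      ← mul_assoc, ← ENNReal.ofReal_mul (by positivity), Real.mul_rpow hη.1.le hc]
    congr 2
    ring
  · refine Measurable.aemeasurable ?_
    refine Measurable.mul ?_ hm
    fun_prop

lemma F_eq (w : ℝ → ℝ≥0∞) {σ c : ℝ} (h0 : 0 < σ) (hc : 0 < c) :
    F w σ c = ∫⁻ η in Ioo (σ / c) 1, w η := by
  have e2 : ∀ η : ℝ, (if σ < η * c then w η else 0) = (Ioi (σ / c)).indicator w η := by
    intro η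
    by_cases h : σ < η * c <;> simp [h, indicator, div_lt_iff₀ hc]
  simp only [F, e2]
  rw [lintegral_indicator measurableSet_Ioi, Measure.restrict_restrict measurableSet_Ioi]
  congr 2
  ext η
  have : 0 < σ / c := by positivity
  simp only [mem_inter_iff, mem_Ioi, mem_Ioo]
  constructor
  · rintro ⟨a, _, b⟩; exact ⟨a, b⟩
  · rintro ⟨a, b⟩; exact ⟨a, this.trans a, b⟩

noncomputable def w1 (η : ℝ) : ℝ≥0∞ := ENNReal.ofReal (η⁻¹ * (√(1 - η))⁻¹)
noncomputable def w2 (η : ℝ) : ℝ≥0∞ := ENNReal.ofReal η⁻¹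

lemma F2_le {σ c : ℝ} (h0 : 0 < σ) (hc : 0 < c) :
    F w2 σ c ≤ ENNReal.ofReal (Real.log c - Real.log σ) := by
  rw [F_eq _ h0 hc]
  have hx : 0 < σ / c := by positivity
  rcases le_total (σ / c) 1 with h | h
  · unfold w2
    rw [ftc h Real.log (fun x => x⁻¹)]
    · rw [Real.log_one, Real.log_div h0.ne' hc.ne']; simp
    · exact Real.continuousOn_log.mono fun x hx' => (hx.trans_le hx'.1).ne'
    · intro x hx'; exact Real.hasDerivAt_log (hx.trans hx'.1).ne'
    · intro x hx'; exact (inv_pos.2 (hx.trans hx'.1)).le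
  · rw [Ioo_eq_empty_of_le h]; simp

lemma F1_ge {r : ℝ} (hr : 0 < r) (t : ℝ) :
    ENNReal.ofReal (2 * (Real.log (G r t) - Real.log r)) ≤ F w1 (4 * r ^ 2) (t ^ 2) := by
  rcases le_or_gt (t ^ 2) (4 * r ^ 2) with h | h
  · have : G r t = r := by
      rw [G, Real.sqrt_eq_zero_of_nonpos (by linarith), max_eq_left]
      have : |t| ≤ 2 * r := abs_le_of_sq_le_sq' (by nlinarith [sq_abs t]) (by positivity) |>.2
      linarith
    simp [this]
  have h0 : 0 < 4 * r ^ 2 := by positivity
  have hc : 0 < t ^ 2 := h0.trans h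
  have ht : 0 < |t| := abs_pos.2 (by rintro rfl; simp at hc)
  set x := 4 * r ^ 2 / t ^ 2 with hxd
  have hx : 0 < x := by positivity
  have hx1 : x < 1 := by rw [hxd, div_lt_one hc]; exact h
  rw [F_eq _ h0 hc]
  unfold w1
  rw [ftc hx1.le (fun η => Real.log η - 2 * Real.log (1 + √(1 - η))) (fun η => η⁻¹ * (√(1 - η))⁻¹)]
  · apply ENNReal.ofReal_le_ofReal
    have hs : √(t ^ 2 - 4 * r ^ 2) = |t| * √(1 - x) := by
      rw [← Real.sqrt_sq_eq_abs, ← Real.sqrt_mul hc.le]
      congr 1
      rw [hxd, mul_sub, mul_one, mul_div_cancel₀ _ hc.ne']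
    have h2r : 2 * r ≤ |t| := by
      by_contra hcon
      push Not at hcon
      nlinarith [sq_abs t]
    have hG : G r t = |t| / 2 * (1 + √(1 - x)) := by
      rw [G, hs, max_eq_right]
      · ring
      · have := mul_nonneg ht.le (Real.sqrt_nonneg (1 - x))
        linarith
    have hl : Real.log x = 2 * (Real.log r - Real.log (|t| / 2)) := by
      have : x = (r / (|t| / 2)) ^ 2 := by
        rw [hxd, div_pow, div_pow, sq_abs]; field_simp; norm_num
      rw [this, Real.log_pow, Real.log_div hr.ne' (by positivity)]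
      norm_num
    rw [hG, Real.log_mul (by positivity) (by positivity), hl]
    simp
    linarith
  · refine ContinuousOn.sub (Real.continuousOn_log.mono fun y hy => (hx.trans_le hy.1).ne') ?_
    refine Continuous.continuousOn (continuous_const.mul (Continuous.log (by fun_prop) ?_))
    intro y
    positivity
  · intro y hy
    have hy0 : 0 < y := hx.trans hy.1
    have hy1 : 0 < 1 - y := by linarith [hy.2]
    have hs : 0 < √(1 - y) := Real.sqrt_pos.2 hy1
    have d1 : HasDerivAt (fun η : ℝ => 1 - η) (-1) y := by simpa using (hasDerivAt_id y).const_sub 1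
    have d2 := ((d1.sqrt hy1.ne').const_add 1).log (by positivity)
    have d3 := (Real.hasDerivAt_log hy0.ne').sub (d2.const_mul 2)
    refine d3.congr_deriv ?_
    have e : y = 1 - √(1 - y) ^ 2 := by rw [Real.sq_sqrt hy1.le]; ring
    set s := √(1 - y)
    have : 1 - s ^ 2 ≠ 0 := by rw [← e]; exact hy0.ne'
    rw [e]
    field_simp
    ring
  · intro y hy
    have hy0 : 0 < y := hx.trans hy.1
    positivity

lemma B1 {q : ℝ} (hq : 0 < q) : ∫⁻ η in Ioo 0 1, ENNReal.ofReal (η ^ q) * w1 η =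
    ENNReal.ofReal (ProbabilityTheory.beta q (1 / 2)) := by
  have hb := ProbabilityTheory.beta_pos hq (one_half_pos (α := ℝ))
  have h1 := ProbabilityTheory.lintegral_betaPDF_eq_one hq (one_half_pos (α := ℝ))
  rw [ProbabilityTheory.lintegral_betaPDF] at h1
  rw [← mul_one (ENNReal.ofReal _), ← h1, ← lintegral_const_mul' _ _ ENNReal.ofReal_ne_top]
  refine setLIntegral_congr_fun measurableSet_Ioo fun η hη => ?_
  have h0 := hη.1
  have h2 : 0 < 1 - η := by linarith [hη.2]
  simp only [w1]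
  rw [← ENNReal.ofReal_mul (by positivity), ← ENNReal.ofReal_mul hb.le]
  congr 1
  rw [Real.rpow_sub_one h0.ne', Real.sqrt_eq_rpow, ← Real.rpow_neg h2.le]
  norm_num
  field_simp

lemma B2 {q : ℝ} (hq : 0 < q) : ∫⁻ η in Ioo 0 1, ENNReal.ofReal (η ^ q) * w2 η =
    ENNReal.ofReal (1 / q) := by
  have := int_rpow hq zero_le_one
  rw [Real.one_rpow] at this
  rw [← this]
  refine setLIntegral_congr_fun measurableSet_Ioo fun η hη => ?_
  have h0 := hη.1
  simp only [w2]
  rw [← ENNReal.ofReal_mul (by positivity), Real.rpow_sub_one h0.ne', div_eq_mul_inv]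

variable {K : Set ℝ} {D : ℝ} {μ : Measure ℝ} {E : ℝ≥0∞}

theorem main [IsProbabilityMeasure μ] (hKc : IsCompact K) (hD : 0 < D) (hK : μ Kᶜ = 0) (hE : E < ⊤)
    (hU : ∀ x, U D μ x ≤ E) (P : ℝ[X]) (hP : P.Monic) (h1 : 1 ≤ P.natDegree) {p : ℝ} (hp : 0 < p) :
    (2 : ℝ) ^ p / Real.sqrt Real.pi * Real.Gamma ((p + 1) / 2) / Real.Gamma (p / 2 + 1)
        * (D * Real.exp (-E.toReal)) ^ ((P.natDegree : ℝ) * p) ≤ ∫ x, |P.eval x| ^ p ∂μ := by
  set q := p / 2 with hqd
  have hq : 0 < q := by positivity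
  set L := P.natDegree * (Real.log D - E.toReal) with hL
  set c := 4 * Real.exp (2 * L) with hcd
  have hc : 0 < c := by positivity
  have hw1 : Measurable w1 := by unfold w1; fun_prop
  have hw2 : Measurable w2 := by unfold w2; fun_prop
  have hPm : Measurable fun y => P.eval y := P.continuous.measurable
  have hFm : Measurable fun z : ℝ × ℝ => F w1 z.2 (P.eval z.1 ^ 2) := by
    refine Measurable.lintegral_prod_right'
      (f := fun u : (ℝ × ℝ) × ℝ => if u.1.2 < u.2 * (P.eval u.1.1 ^ 2) then w1 u.2 else 0) ?_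
    refine Measurable.ite (measurableSet_lt (by fun_prop) (by fun_prop)) (by fun_prop)
      measurable_const
  have hcont : Continuous fun x => |P.eval x| ^ p :=
    (Real.continuous_rpow_const hp.le).comp P.continuous.abs
  have hint : Integrable (fun x => |P.eval x| ^ p) μ := by
    have := hcont.continuousOn.integrableOn_compact (μ := μ) hKc
    rwa [IntegrableOn, Measure.restrict_eq_self_of_ae_mem hK] at this
  have hb := ProbabilityTheory.beta_pos hq (one_half_pos (α := ℝ))
  have step : ∀ σ ∈ Ioi (0 : ℝ), F w2 σ c ≤ ∫⁻ y, F w1 σ (P.eval y ^ 2) ∂μ := by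
    intro σ hσ
    have h0 : 0 < σ := hσ
    set r := √σ / 2 with hrd
    have hr : 0 < r := by positivity
    have hσr : σ = 4 * r ^ 2 := by rw [hrd, div_pow, Real.sq_sqrt h0.le]; ring
    obtain ⟨g1, g2⟩ := green hKc hD hK hE hU P hP h1 hr
    refine (F2_le h0 hc).trans ?_
    have hi : Integrable (fun y => 2 * (Real.log (G r (P.eval y)) - Real.log r)) μ :=
      (g1.sub (integrable_const _)).const_mul 2
    calc _ ≤ ENNReal.ofReal (∫ y, 2 * (Real.log (G r (P.eval y)) - Real.log r) ∂μ) := by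
          apply ENNReal.ofReal_le_ofReal
          rw [integral_const_mul, integral_sub g1 (integrable_const _), hσr, hcd,
            Real.log_mul (by norm_num) (by positivity), Real.log_mul (by norm_num) (by positivity),
            Real.log_exp, Real.log_pow]
          simp
          linarith
      _ = ∫⁻ y, ENNReal.ofReal (2 * (Real.log (G r (P.eval y)) - Real.log r)) ∂μ := by
          refine ofReal_integral_eq_lintegral_ofReal hi (Eventually.of_forall fun y => ?_)
          have := Real.log_le_log hr (G_spec hr (P.eval y)).1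
          simp only [Pi.zero_apply]
          linarith
      _ ≤ _ := by
          rw [hσr]
          exact lintegral_mono fun y => F1_ge hr _
  have chain : ENNReal.ofReal (c ^ q / q) * ENNReal.ofReal (1 / q) ≤
      ENNReal.ofReal (∫ x, |P.eval x| ^ p ∂μ) *
        ENNReal.ofReal (ProbabilityTheory.beta q (1 / 2) / q) := by
    calc _ = ∫⁻ σ in Ioi 0, ENNReal.ofReal (σ ^ (q - 1)) * F w2 σ c := by
          rw [mix w2 hw2 hq hc.le, B2 hq]
      _ ≤ ∫⁻ σ in Ioi 0, ∫⁻ y, ENNReal.ofReal (σ ^ (q - 1)) * F w1 σ (P.eval y ^ 2) ∂μ := by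
          refine setLIntegral_mono' measurableSet_Ioi fun σ hσ => ?_
          rw [lintegral_const_mul' _ _ ENNReal.ofReal_ne_top]
          gcongr
          exact step σ hσ
      _ = ∫⁻ y, (∫⁻ σ in Ioi 0, ENNReal.ofReal (σ ^ (q - 1)) * F w1 σ (P.eval y ^ 2)) ∂μ := by
          rw [← lintegral_lintegral_swap]
          refine Measurable.aemeasurable (Measurable.mul ?_ hFm)
          fun_prop
      _ = ∫⁻ y, ENNReal.ofReal (|P.eval y| ^ p) *
            ENNReal.ofReal (ProbabilityTheory.beta q (1 / 2) / q) ∂μ := by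
          refine lintegral_congr fun y => ?_
          rw [mix w1 hw1 hq (sq_nonneg _), B1 hq, ← ENNReal.ofReal_mul (by positivity),
            ← ENNReal.ofReal_mul (by positivity), ← sq_abs, ← Real.rpow_natCast,
            ← Real.rpow_mul (abs_nonneg _)]
          congr 1
          have : ((2 : ℕ) : ℝ) * q = p := by rw [hqd]; push_cast; ring
          rw [this]; ring
      _ = _ := by
          rw [lintegral_mul_const _ (by fun_prop), ofReal_integral_eq_lintegral_ofReal hint]
          exact Eventually.of_forall fun y => Real.rpow_nonneg (abs_nonneg _) _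
  have hI : 0 ≤ ∫ x, |P.eval x| ^ p ∂μ := integral_nonneg fun y => Real.rpow_nonneg (abs_nonneg _) _
  rw [← ENNReal.ofReal_mul (by positivity), ← ENNReal.ofReal_mul hI,
    ENNReal.ofReal_le_ofReal_iff (by positivity)] at chain
  have e1 : c ^ q = 2 ^ p * (D * Real.exp (-E.toReal)) ^ ((P.natDegree : ℝ) * p) := by
    have h4 : (4 : ℝ) ^ q = 2 ^ p := by
      rw [show (4 : ℝ) = 2 ^ (2 : ℝ) by norm_num, ← Real.rpow_mul (by norm_num), hqd]
      congr 1; ring
    rw [hcd, Real.mul_rpow (by norm_num) (by positivity), h4, ← Real.exp_mul,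
      Real.rpow_def_of_pos (x := D * _) (by positivity), Real.log_mul hD.ne' (by positivity),
      Real.log_exp, hL, hqd]
    congr 2; ring
  have hG1 := Real.Gamma_pos_of_pos hq
  have hG2 : 0 < Real.Gamma (q + 1 / 2) := Real.Gamma_pos_of_pos (by positivity)
  have hpi : 0 < √Real.pi := Real.sqrt_pos.2 Real.pi_pos
  rw [e1, ProbabilityTheory.beta, Real.Gamma_one_half_eq] at chain
  rw [show (p + 1) / 2 = q + 1 / 2 by rw [hqd]; ring, Real.Gamma_add_one hq.ne']
  set T := (D * Real.exp (-E.toReal)) ^ ((P.natDegree : ℝ) * p)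
  set I := ∫ x, |P.eval x| ^ p ∂μ
  have e3 : 2 ^ p / √Real.pi * Real.Gamma (q + 1 / 2) / (q * Real.Gamma q) * T =
      (2 ^ p * T / q * (1 / q)) / (Real.Gamma q * √Real.pi / Real.Gamma (q + 1 / 2) / q) := by
    field_simp
  rw [e3, div_le_iff₀ (by positivity)]
  exact chain

end H18Widom
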