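import Pool.Agent.Lib.helper18.Widom4

open MeasureTheory Set Filter Topology Real
open scoped ENNReal

namespace H18Widom

def T (x : ℝ) : ℝ := x ^ 4 - 25 * x ^ 2 + 72
def Kx : Set ℝ := Icc (-5) (-4) ∪ Icc (-3) 3 ∪ Icc 4 5
noncomputable def dens (g x : ℝ) : ℝ :=
  |x ^ 2 - g| / (π * √|(x ^ 2 - 25) * (x ^ 2 - 16) * (x ^ 2 - 9)|)
noncomputable def m (g : ℝ) : Measure ℝ :=
  (volume.restrict Kx).withDensity fun x => ENNReal.ofReal (dens g x)
noncomputable def sr (θ : ℝ) : ℝ := √(337 / 4 + 72 * cos θ)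
noncomputable def Y (e f θ : ℝ) : ℝ := e * √(25 / 2 + f * sr θ)
def J (e f : ℝ) : Set ℝ := {y | 0 < e * y ∧ 0 < f * (y ^ 2 - 25 / 2) ∧ |T y| < 72}

lemma mem_K (y : ℝ) : y ∈ Kx ↔ |T y| ≤ 72 := by
  have e1 : T y + 72 = (y ^ 2 - 9) * (y ^ 2 - 16) := by unfold T; ring
  have e2 : 72 - T y = y ^ 2 * (25 - y ^ 2) := by unfold T; ring
  rw [abs_le]
  constructor
  · intro h
    have : y ^ 2 ≤ 25 ∧ (y ^ 2 ≤ 9 ∨ 16 ≤ y ^ 2) := by
      rcases h with (h | h) | h
      · exact ⟨by nlinarith [h.1, h.2], Or.inr (by nlinarith [h.1, h.2])⟩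
      · exact ⟨by nlinarith [h.1, h.2], Or.inl (by nlinarith [h.1, h.2])⟩
      · exact ⟨by nlinarith [h.1, h.2], Or.inr (by nlinarith [h.1, h.2])⟩
    obtain ⟨h1, h2⟩ := this
    have h3 : 0 ≤ y ^ 2 * (25 - y ^ 2) := mul_nonneg (sq_nonneg y) (by linarith)
    have h4 : 0 ≤ (y ^ 2 - 9) * (y ^ 2 - 16) := by
      rcases h2 with h2 | h2
      · exact mul_nonneg_of_nonpos_of_nonpos (by linarith) (by linarith)
      · exact mul_nonneg (by linarith) (by linarith)
    constructor <;> linarith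
  · rintro ⟨h1, h2⟩
    have h3 : y ^ 2 ≤ 25 := by
      by_contra h
      push Not at h
      have := mul_neg_of_pos_of_neg (show 0 < y ^ 2 by linarith) (show 25 - y ^ 2 < 0 by linarith)
      linarith
    have h5 := abs_le_of_sq_le_sq' (a := y) (b := 5) (by linarith) (by norm_num)
    by_cases h9 : y ^ 2 ≤ 9
    · exact Or.inl (Or.inr (abs_le_of_sq_le_sq' (a := y) (b := 3) (by linarith) (by norm_num)))
    have h4 : 16 ≤ y ^ 2 := by
      by_contra h
      push Not at h h9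
      have := mul_neg_of_pos_of_neg (show 0 < y ^ 2 - 9 by linarith)
        (show y ^ 2 - 16 < 0 by linarith)
      linarith
    rcases le_total 0 y with h | h
    · exact Or.inr ⟨by nlinarith, h5.2⟩
    · exact Or.inl (Or.inl ⟨h5.1, by nlinarith⟩)

lemma sr_bd (θ : ℝ) : 7 / 2 ≤ sr θ ∧ sr θ ≤ 25 / 2 ∧ sr θ ^ 2 = 337 / 4 + 72 * cos θ := by
  have h1 := neg_one_le_cos θ
  have h2 := cos_le_one θ
  refine ⟨Real.le_sqrt_of_sq_le (by linarith), Real.sqrt_le_iff.2 ⟨by norm_num, by linarith⟩,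
    Real.sq_sqrt (by linarith)⟩

lemma Y_sq {e f : ℝ} (he : e = 1 ∨ e = -1) (hf : f = 1 ∨ f = -1) (θ : ℝ) :
    Y e f θ ^ 2 = 25 / 2 + f * sr θ := by
  obtain ⟨a, b, c⟩ := sr_bd θ
  rw [Y, mul_pow, Real.sq_sqrt (by rcases hf with rfl | rfl <;> linarith)]
  rcases he with rfl | rfl <;> ring

lemma dens_meas (g : ℝ) : Measurable (dens g) := by unfold dens; fun_prop
lemma T_cont : Continuous T := by unfold T; fun_prop
lemma J_meas (e f : ℝ) : MeasurableSet (J e f) := by
  have := T_cont.measurable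
  unfold J
  measurability

lemma branch {e f : ℝ} (he : e = 1 ∨ e = -1) (hf : f = 1 ∨ f = -1) (φ : ℝ → ℝ≥0∞) :
    ∫⁻ θ in Ioo 0 π, φ (Y e f θ) =
      ∫⁻ y in J e f, ENNReal.ofReal (4 * π) * (ENNReal.ofReal (dens (25 / 2) y) * φ y) := by
  have hinv : ∀ y ∈ J e f, Y e f (arccos (T y / 72)) = y := by
    rintro y ⟨h1, h2, h3⟩
    rw [abs_lt] at h3
    have a1 : sr (arccos (T y / 72)) = f * (y ^ 2 - 25 / 2) := by
      rw [sr, cos_arccos (by linarith) (by linarith), Real.sqrt_eq_iff_mul_self_eq (by linarith) h2.le]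
      unfold T
      rcases hf with rfl | rfl <;> ring
    have a2 : √(25 / 2 + f * (f * (y ^ 2 - 25 / 2))) = e * y := by
      have : 25 / 2 + f * (f * (y ^ 2 - 25 / 2)) = (e * y) ^ 2 := by
        rcases hf with rfl | rfl <;> rcases he with rfl | rfl <;> ring
      rw [this, Real.sqrt_sq h1.le]
    rw [Y, a1, a2]
    rcases he with rfl | rfl <;> ring
  have himg : (fun y => arccos (T y / 72)) '' J e f = Ioo 0 π := by
    ext θ
    constructor
    · rintro ⟨y, ⟨-, -, h3⟩, rfl⟩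
      rw [abs_lt] at h3
      exact ⟨arccos_pos.2 (by linarith), arccos_lt_pi.2 (by linarith)⟩
    · rintro ⟨h0, h1⟩
      obtain ⟨a, b, c⟩ := sr_bd θ
      have c1 : cos θ < 1 := by
        rw [← cos_zero]; exact cos_lt_cos_of_nonneg_of_le_pi le_rfl h1.le h0
      have c2 : -1 < cos θ := by
        rw [← cos_pi]; exact cos_lt_cos_of_nonneg_of_le_pi h0.le le_rfl h1
      have hT : T (Y e f θ) = 72 * cos θ := by
        have : T (Y e f θ) = (Y e f θ ^ 2 - 25 / 2) ^ 2 - 337 / 4 := by unfold T; ring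
        rw [this, Y_sq he hf]
        rcases hf with rfl | rfl <;> linarith
      have b' : sr θ < 25 / 2 := by nlinarith
      refine ⟨Y e f θ, ⟨?_, ?_, ?_⟩, ?_⟩
      · have : 0 < √(25 / 2 + f * sr θ) :=
          Real.sqrt_pos.2 (by rcases hf with rfl | rfl <;> linarith)
        unfold Y
        rcases he with rfl | rfl <;> linarith
      · rw [Y_sq he hf]
        rcases hf with rfl | rfl <;> linarith
      · rw [hT, abs_lt]; constructor <;> linarith
      · simp only [hT]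
        rw [mul_div_cancel_left₀ _ (by norm_num), arccos_cos h0.le h1.le]
  have hd : ∀ y ∈ J e f, HasDerivWithinAt (fun y => arccos (T y / 72))
      (-(1 / √(1 - (T y / 72) ^ 2)) * ((4 * y ^ 3 - 50 * y) / 72)) (J e f) y := by
    rintro y ⟨-, -, h3⟩
    rw [abs_lt] at h3
    have d1 : HasDerivAt T (4 * y ^ 3 - 50 * y) y := by
      have := (((hasDerivAt_pow 4 y).sub ((hasDerivAt_pow 2 y).const_mul 25)).add_const 72)
      refine this.congr_deriv ?_
      push_cast; ring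
    exact ((hasDerivAt_arccos (by linarith) (by linarith)).comp y
      (d1.div_const 72)).hasDerivWithinAt
  rw [← himg, lintegral_image_eq_lintegral_abs_deriv_mul (J_meas e f) hd
    (LeftInvOn.injOn (f₁' := Y e f) hinv)]
  refine setLIntegral_congr_fun (J_meas e f) fun y hy => ?_
  simp only [hinv y hy]
  rw [← mul_assoc, ← ENNReal.ofReal_mul (by positivity)]
  congr 2
  obtain ⟨h1, -, h3⟩ := hy
  have hy0 : y ≠ 0 := by rintro rfl; simp at h1
  have hq : 0 < 1 - (T y / 72) ^ 2 := by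
    have := abs_lt.1 h3
    nlinarith
  have e1 : 1 - (T y / 72) ^ 2 = (y / 72) ^ 2 * -((y ^ 2 - 25) * (y ^ 2 - 16) * (y ^ 2 - 9)) := by
    unfold T; ring
  have hW : 0 < -((y ^ 2 - 25) * (y ^ 2 - 16) * (y ^ 2 - 9)) := by
    rw [e1] at hq
    exact pos_of_mul_pos_right hq (sq_nonneg _)
  rw [dens, abs_of_neg (a := _ * _ * _) (by linarith), e1, Real.sqrt_mul (sq_nonneg _),
    Real.sqrt_sq_eq_abs]
  have hs := Real.sqrt_pos.2 hW
  set w := √(-((y ^ 2 - 25) * (y ^ 2 - 16) * (y ^ 2 - 9)))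
  have e2 : (4 * y ^ 3 - 50 * y) / 72 = 4 * (y / 72) * (y ^ 2 - 25 / 2) := by ring
  have ha : 0 < |y / 72| := abs_pos.2 (by positivity)
  rw [e2, abs_mul, abs_neg, abs_mul, abs_mul, abs_of_pos (a := 1 / _) (by positivity),
    abs_of_pos (a := (4 : ℝ)) (by norm_num)]
  field_simp

lemma ae_T : ∀ᵐ y : ℝ, |T y| ≠ 72 ∧ y ^ 2 ≠ 25 / 2 := by
  have hf : ({0, 5, -5, 3, -3, 4, -4, √(25 / 2), -√(25 / 2)} : Set ℝ).Finite := Set.toFinite _
  filter_upwards [hf.countable.ae_notMem volume] with y hy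
  simp only [mem_insert_iff, mem_singleton_iff, not_or] at hy
  obtain ⟨h0, h1, h2, h3, h4, h5, h6, h7, h8⟩ := hy
  constructor
  · intro h
    rcases (abs_eq (by norm_num)).1 h with h | h
    · have : y * y * (y - 5) * (y + 5) = 0 := by unfold T at h; linarith
      simp [h0, sub_eq_zero, h1, add_eq_zero_iff_eq_neg, h2] at this
    · have : (y - 3) * (y + 3) * (y - 4) * (y + 4) = 0 := by unfold T at h; linarith
      simp [sub_eq_zero, h3, add_eq_zero_iff_eq_neg, h4, h5, h6] at this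
  · intro h
    rw [← h, Real.sqrt_sq_eq_abs] at h7 h8
    rcases le_total 0 y with h' | h'
    · exact h7 (abs_of_nonneg h').symm
    · exact h8 (by rw [abs_of_nonpos h', neg_neg])

lemma Kx_meas : MeasurableSet Kx := by unfold Kx; measurability

lemma master (φ : ℝ → ℝ≥0∞) (hφ : Measurable φ) :
    ENNReal.ofReal (4 * π) * ∫⁻ y, φ y ∂(m (25 / 2)) =
      ∫⁻ θ in Ioo 0 π, (φ (Y 1 1 θ) + φ (Y 1 (-1) θ) + φ (Y (-1) 1 θ) + φ (Y (-1) (-1) θ)) := by
  have hY : ∀ e f, Measurable fun θ => φ (Y e f θ) := by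
    intro e f
    refine hφ.comp ?_
    unfold Y sr; fun_prop
  have hd := (dens_meas (25 / 2)).ennreal_ofReal
  rw [lintegral_add_right _ (hY _ _), lintegral_add_right _ (hY _ _),
    lintegral_add_right _ (hY _ _), branch (Or.inl rfl) (Or.inl rfl),
    branch (Or.inl rfl) (Or.inr rfl), branch (Or.inr rfl) (Or.inl rfl),
    branch (Or.inr rfl) (Or.inr rfl), m, lintegral_withDensity_eq_lintegral_mul _ hd hφ,
    ← lintegral_const_mul' _ _ ENNReal.ofReal_ne_top]
  simp only [Pi.mul_apply]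
  set g := fun y => ENNReal.ofReal (4 * π) * (ENNReal.ofReal (dens (25 / 2) y) * φ y) with hg
  have hgm : Measurable g := (hd.mul hφ).const_mul _
  rw [← lintegral_indicator Kx_meas, ← lintegral_indicator (J_meas _ _),
    ← lintegral_indicator (J_meas _ _), ← lintegral_indicator (J_meas _ _),
    ← lintegral_indicator (J_meas _ _), ← lintegral_add_right _ (hgm.indicator (J_meas _ _)),
    ← lintegral_add_right _ (hgm.indicator (J_meas _ _)),
    ← lintegral_add_right _ (hgm.indicator (J_meas _ _))]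
  refine lintegral_congr_ae ?_
  filter_upwards [ae_T] with y ⟨h1, h2⟩
  by_cases hK : y ∈ Kx
  · have h3 : |T y| < 72 := lt_of_le_of_ne ((mem_K y).1 hK) h1
    have h0 : y ≠ 0 := by
      rintro rfl; norm_num [T] at h3
    rcases lt_or_gt_of_ne h0 with a | a <;> rcases lt_or_gt_of_ne h2 with b | b <;>
      simp [indicator, hK, J, h3, a, b, a.not_gt, b.not_gt, hg]
  · have h3 : ¬ |T y| < 72 := fun h => hK ((mem_K y).2 h.le)
    simp [indicator, hK, J, h3]

lemma ae_cos (t : ℝ) : ∀ᵐ θ ∂(volume.restrict (Ioo 0 π)), t - 72 * cos θ ≠ 0 := by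
  have : ∀ᵐ θ : ℝ, θ ≠ arccos (t / 72) := by
    simp [ae_iff]
  filter_upwards [ae_restrict_of_ae this, ae_restrict_mem measurableSet_Ioo] with θ h1 h2 h
  apply h1
  rw [show t / 72 = cos θ by linarith, arccos_cos h2.1.le h2.2.le]

lemma arc (a : ℂ) (ha : 1 ≤ ‖a‖) (t : ℝ) (ht : (t : ℂ) = 36 * (a + a⁻¹)) :
    IntegrableOn (fun θ => log |t - 72 * cos θ|) (Ioo 0 π) ∧
      ∫ θ in Ioo 0 π, log |t - 72 * cos θ| = π * log (36 * ‖a‖) := by
  have ha0 : 0 < ‖a‖ := by linarith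
  have ha1 : a ≠ 0 := norm_pos_iff.1 ha0
  set g := fun θ : ℝ => log ‖circleMap 0 1 θ - a‖ with hg
  have hi : IntervalIntegrable g volume 0 (2 * π) :=
    circleIntegrable_log_norm_sub_const (a := a) (c := 0) 1
  have hv : ∫ θ in (0 : ℝ)..(2 * π), g θ = 2 * π * log ‖a‖ := by
    have := circleAverage_log_norm_sub_const_eq_posLog (a := a)
    rw [circleAverage_def, posLog_eq_log (by rwa [abs_of_pos ha0]), smul_eq_mul] at this
    rw [← this]
    field_simp
    rfl
  have i1 : IntervalIntegrable g volume 0 π :=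
    hi.mono_set (uIcc_subset_uIcc_left (by rw [uIcc_of_le (by positivity)]; constructor <;> linarith [pi_pos]))
  have i2 : IntervalIntegrable g volume π (2 * π) :=
    hi.mono_set (uIcc_subset_uIcc_right (by rw [uIcc_of_le (by positivity)]; constructor <;> linarith [pi_pos]))
  have i3 : IntervalIntegrable (fun θ => g (2 * π - θ)) volume 0 π := by
    have := (i2.comp_sub_left (2 * π)).symm
    rwa [sub_self, show 2 * π - π = π by ring] at this
  have e : (fun θ => log (36 / ‖a‖) + (g θ + g (2 * π - θ))) =ᵐ[volume.restrict (Ioo 0 π)]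
      fun θ => log |t - 72 * cos θ| := by
    filter_upwards [ae_cos t] with θ h
    have e1 : ((t - 72 * cos θ : ℝ) : ℂ) =
        36 / a * ((circleMap 0 1 θ - a) * (circleMap 0 1 (2 * π - θ) - a)) := by
      have c1 : circleMap 0 1 (2 * π - θ) = Complex.exp (-θ * Complex.I) := by
        simp only [circleMap, zero_add, Complex.ofReal_one, one_mul]
        push_cast
        rw [sub_mul, Complex.exp_sub, Complex.exp_two_pi_mul_I, neg_mul, Complex.exp_neg, one_div]
      have c2 : circleMap 0 1 θ = Complex.exp (θ * Complex.I) := by simp [circleMap]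
      have c3 : Complex.exp (θ * Complex.I) * Complex.exp (-θ * Complex.I) = 1 := by
        rw [← Complex.exp_add]; simp
      rw [c1, c2]
      push_cast
      rw [ht, Complex.cos]
      generalize Complex.exp (-θ * Complex.I) = v at c3 ⊢
      generalize Complex.exp (θ * Complex.I) = u at c3 ⊢
      field_simp
      linear_combination (-72) * c3
    have e2 := congrArg norm e1
    rw [Complex.norm_real, Real.norm_eq_abs, norm_mul, norm_mul, norm_div] at e2
    have h1 := abs_pos.2 h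
    rw [e2] at h1 ⊢
    have h2 : ‖circleMap 0 1 θ - a‖ ≠ 0 := by
      intro h0; simp [h0] at h1
    have h3 : ‖circleMap 0 1 (2 * π - θ) - a‖ ≠ 0 := by
      intro h0; simp [h0] at h1
    rw [Real.log_mul (by simp [ha1]) (mul_ne_zero h2 h3), Real.log_mul h2 h3]
    simp [hg]
  have i4 : IntervalIntegrable (fun θ => log (36 / ‖a‖) + (g θ + g (2 * π - θ))) volume 0 π :=
    intervalIntegrable_const.add (i1.add i3)
  refine ⟨((intervalIntegrable_iff_integrableOn_Ioo_of_le pi_pos.le).1 i4).congr e, ?_⟩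
  rw [← integral_congr_ae e, ← integral_Ioc_eq_integral_Ioo,
    ← intervalIntegral.integral_of_le pi_pos.le,
    intervalIntegral.integral_add intervalIntegrable_const (i1.add i3),
    intervalIntegral.integral_add i1 i3, intervalIntegral.integral_comp_sub_left, sub_zero,
    show 2 * π - π = π by ring, intervalIntegral.integral_add_adjacent_intervals i1 i2, hv,
    Real.log_div (by norm_num) ha0.ne', Real.log_mul (by norm_num) ha0.ne']
  simp
  ring

lemma pi4 : ENNReal.ofReal (4 * π) ≠ 0 := by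
  have := pi_pos
  simp [this]

lemma cancel {a : ℝ≥0∞} {v : ℝ} (h : ENNReal.ofReal (4 * π) * a = ENNReal.ofReal (4 * π * v)) :
    a = ENNReal.ofReal v := by
  rw [ENNReal.ofReal_mul (p := 4 * π) (q := v) (by positivity)] at h
  exact (ENNReal.mul_right_inj pi4 ENNReal.ofReal_ne_top).1 h

lemma Y_abs {e f : ℝ} (he : e = 1 ∨ e = -1) (hf : f = 1 ∨ f = -1) (θ : ℝ) : |Y e f θ| ≤ 5 := by
  have := Y_sq he hf θ
  obtain ⟨a, b, c⟩ := sr_bd θ
  refine abs_le.2 (abs_le_of_sq_le_sq' ?_ (by norm_num))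
  rcases hf with rfl | rfl <;> linarith

lemma U_val (x : ℝ) (hx : |x| ≤ 5) (a : ℂ) (ha : 1 ≤ ‖a‖) (ht : (T x : ℂ) = 36 * (a + a⁻¹)) :
    U 11 (m (25 / 2)) x = ENNReal.ofReal (log 11 - log (36 * ‖a‖) / 4) := by
  obtain ⟨i1, i2⟩ := arc a ha _ ht
  have key : ∀ᵐ θ ∂(volume.restrict (Ioo 0 π)), 0 ≤ 4 * log 11 - log |T x - 72 * cos θ| ∧
      k 11 x (Y 1 1 θ) + k 11 x (Y 1 (-1) θ) + k 11 x (Y (-1) 1 θ) + k 11 x (Y (-1) (-1) θ) =
        ENNReal.ofReal (4 * log 11 - log |T x - 72 * cos θ|) := by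
    filter_upwards [ae_cos (T x)] with θ h
    have e : T x - 72 * cos θ =
        (x - Y 1 1 θ) * (x - Y 1 (-1) θ) * (x - Y (-1) 1 θ) * (x - Y (-1) (-1) θ) := by
      have a1 := Y_sq (Or.inl rfl) (Or.inl rfl) θ
      have a2 := Y_sq (Or.inl rfl) (Or.inr rfl) θ
      have a3 : Y (-1) 1 θ = -Y 1 1 θ := by simp [Y]
      have a4 : Y (-1) (-1) θ = -Y 1 (-1) θ := by simp [Y]
      have a5 := (sr_bd θ).2.2
      have : (x - Y 1 1 θ) * (x - Y 1 (-1) θ) * (x - Y (-1) 1 θ) * (x - Y (-1) (-1) θ) =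
          (x ^ 2 - Y 1 1 θ ^ 2) * (x ^ 2 - Y 1 (-1) θ ^ 2) := by rw [a3, a4]; ring
      rw [this, a1, a2, T]
      linear_combination a5
    rw [e] at h ⊢
    simp only [mul_ne_zero_iff] at h
    obtain ⟨⟨⟨h1, h2⟩, h3⟩, h4⟩ := h
    have hk : ∀ y : ℝ, |y| ≤ 5 → x - y ≠ 0 → 0 ≤ log 11 - log |x - y| ∧
        k 11 x y = ENNReal.ofReal (log 11 - log |x - y|) := by
      intro y hy h
      have h0 := abs_pos.2 h
      refine ⟨sub_nonneg.2 (log_le_log h0 ((abs_sub x y).trans (by linarith))), ?_⟩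
      rw [k, if_neg (sub_ne_zero.1 h), log_div (by norm_num) h0.ne']
    obtain ⟨b1, c1⟩ := hk _ (Y_abs (Or.inl rfl) (Or.inl rfl) θ) h1
    obtain ⟨b2, c2⟩ := hk _ (Y_abs (Or.inl rfl) (Or.inr rfl) θ) h2
    obtain ⟨b3, c3⟩ := hk _ (Y_abs (Or.inr rfl) (Or.inl rfl) θ) h3
    obtain ⟨b4, c4⟩ := hk _ (Y_abs (Or.inr rfl) (Or.inr rfl) θ) h4
    rw [c1, c2, c3, c4, ← ENNReal.ofReal_add b1 b2, ← ENNReal.ofReal_add (by linarith) b3,
      ← ENNReal.ofReal_add (by linarith) b4]
    simp only [log_abs] at *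
    rw [log_mul (by positivity) h4, log_mul (by positivity) h3, log_mul h1 h2]
    exact ⟨by linarith, by congr 1; ring⟩
  have hc : IntegrableOn (fun _ : ℝ => 4 * log 11) (Ioo 0 π) :=
    integrableOn_const (by simp)
  apply cancel
  rw [U, master _ (k_meas1 11 x), lintegral_congr_ae (key.mono fun θ h => h.2),
    ← ofReal_integral_eq_lintegral_ofReal (f := fun θ => 4 * log 11 - log |T x - 72 * cos θ|)
      (hc.sub i1) (key.mono fun θ h => h.1),
    integral_sub hc i1, i2]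
  congr 1
  simp [pi_pos.le]
  ring

lemma U_K (x : ℝ) (hx : x ∈ Kx) : U 11 (m (25 / 2)) x = ENNReal.ofReal (log 11 - log 36 / 4) := by
  have h := abs_le.1 ((mem_K x).1 hx)
  have h5 : |x| ≤ 5 := by
    rw [abs_le]
    rcases hx with (h | h) | h <;> constructor <;> linarith [h.1, h.2]
  have := U_val x h5 (Complex.exp (arccos (T x / 72) * Complex.I)) (by simp) (by
    rw [← Complex.exp_neg, ← neg_mul, ← Complex.two_cos, ← Complex.ofReal_cos,
      cos_arccos (by linarith [h.1]) (by linarith [h.2])]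
    push_cast; ring)
  simpa using this

noncomputable def rat (y : ℝ) : ℝ := |y ^ 2 - 15| / |y ^ 2 - 25 / 2|

lemma rat_meas : Measurable fun y => ENNReal.ofReal (rat y) := by unfold rat; fun_prop

lemma m15 : m 15 = (m (25 / 2)).withDensity fun y => ENNReal.ofReal (rat y) := by
  rw [m, m, ← withDensity_mul _ (dens_meas _).ennreal_ofReal rat_meas]
  refine withDensity_congr_ae (ae_restrict_of_ae ?_)
  filter_upwards [ae_T] with y ⟨_, h⟩
  have h0 : |y ^ 2 - 25 / 2| ≠ 0 := abs_ne_zero.2 (sub_ne_zero.2 h)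
  rw [Pi.mul_apply, ← ENNReal.ofReal_mul (by unfold dens; positivity), dens, dens, rat,
    div_mul_div_comm, mul_comm |y ^ 2 - 25 / 2|, mul_div_mul_right _ _ h0]

lemma vol_const (v : ℝ) : ∫⁻ _θ in Ioo 0 π, ENNReal.ofReal (4 * v) = ENNReal.ofReal (4 * π * v) := by
  rw [setLIntegral_const, Real.volume_Ioo, sub_zero, mul_comm, ← ENNReal.ofReal_mul pi_pos.le]
  congr 1; ring

lemma mass0 : IsProbabilityMeasure (m (25 / 2)) := by
  constructor
  rw [← lintegral_one, ← ENNReal.ofReal_one]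
  apply cancel
  rw [master _ measurable_const, ← vol_const]
  refine lintegral_congr fun θ => ?_
  norm_num

lemma mom (p q : ℝ) (hp : 0 ≤ p) (hq : 0 ≤ q) :
    ∫⁻ y, ENNReal.ofReal (p + q * y ^ 2) ∂(m 15) = ENNReal.ofReal (p + q * 10) := by
  rw [m15, lintegral_withDensity_eq_lintegral_mul _ rat_meas (by fun_prop)]
  apply cancel
  rw [master _ (rat_meas.mul (by fun_prop)), ← vol_const]
  refine lintegral_congr fun θ => ?_
  obtain ⟨a, b, c⟩ := sr_bd θ
  have r1 : ∀ e, (e = 1 ∨ e = -1) → ENNReal.ofReal (rat (Y e 1 θ)) *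
      ENNReal.ofReal (p + q * Y e 1 θ ^ 2) =
      ENNReal.ofReal ((sr θ - 5 / 2) / sr θ * (p + q * (25 / 2 + sr θ))) := by
    intro e he
    rw [← ENNReal.ofReal_mul (by unfold rat; positivity), rat, Y_sq he (Or.inl rfl),
      abs_of_pos (by linarith), abs_of_pos (by linarith)]
    congr 2 <;> ring
  have r2 : ∀ e, (e = 1 ∨ e = -1) → ENNReal.ofReal (rat (Y e (-1) θ)) *
      ENNReal.ofReal (p + q * Y e (-1) θ ^ 2) =
      ENNReal.ofReal ((sr θ + 5 / 2) / sr θ * (p + q * (25 / 2 - sr θ))) := by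
    intro e he
    rw [← ENNReal.ofReal_mul (by unfold rat; positivity), rat, Y_sq he (Or.inr rfl),
      abs_of_neg (by linarith), abs_of_neg (by linarith)]
    congr 2 <;> ring
  have s0 : 0 < sr θ := by linarith
  have n1 : 0 ≤ (sr θ - 5 / 2) / sr θ * (p + q * (25 / 2 + sr θ)) :=
    mul_nonneg (div_nonneg (by linarith) s0.le) (by positivity)
  have n2 : 0 ≤ (sr θ + 5 / 2) / sr θ * (p + q * (25 / 2 - sr θ)) :=
    mul_nonneg (by positivity) (add_nonneg hp (mul_nonneg hq (by linarith)))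
  simp only [Pi.mul_apply]
  rw [r1 _ (Or.inl rfl), r1 _ (Or.inr rfl), r2 _ (Or.inl rfl), r2 _ (Or.inr rfl),
    ← ENNReal.ofReal_add n1 n2, ← ENNReal.ofReal_add (by linarith) n1,
    ← ENNReal.ofReal_add (by linarith) n2]
  congr 1
  field_simp
  ring

lemma m_K (g : ℝ) : m g Kxᶜ = 0 := by
  refine withDensity_absolutelyContinuous _ _ ?_
  rw [Measure.restrict_apply Kx_meas.compl]
  simp

lemma pot (x v : ℝ) (hx : |x| ≤ 5) (hv : 0 ≤ log 11 - v)
    (h : U 11 (m (25 / 2)) x = ENNReal.ofReal (log 11 - v)) :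
    (∀ᵐ y ∂(m (25 / 2)), y - x ≠ 0) ∧ Integrable (fun y => log (y - x)) (m (25 / 2)) ∧
      ∫ y, log (y - x) ∂(m (25 / 2)) = v := by
  haveI := mass0
  have hx' : ∫⁻ y, k 11 x y ∂(m (25 / 2)) ≠ ⊤ := by
    rw [U] at h; rw [h]; exact ENNReal.ofReal_ne_top
  have h1 : ∀ᵐ y ∂(m (25 / 2)), k 11 x y < ⊤ := ae_lt_top (k_meas1 11 x) hx'
  have h2 : ∀ᵐ y ∂(m (25 / 2)), y - x ≠ 0 := by
    filter_upwards [h1] with y hy e
    simp [k, sub_eq_zero.1 e] at hy
  have h3 : ∀ᵐ y ∂(m (25 / 2)), y ∈ Kx := m_K _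
  have hf : Integrable (fun y => (k 11 x y).toReal) (m (25 / 2)) :=
    integrable_toReal_of_lintegral_ne_top (k_meas1 11 x).aemeasurable hx'
  have e : (fun y => log 11 - (k 11 x y).toReal) =ᵐ[m (25 / 2)] fun y => log (y - x) := by
    filter_upwards [h2, h3] with y hy hK
    have h5 : |y| ≤ 5 := by
      rw [abs_le]
      rcases hK with (h | h) | h <;> constructor <;> linarith [h.1, h.2]
    have hxy : x ≠ y := fun e => hy (by rw [e, sub_self])
    have h0 := abs_pos.2 (sub_ne_zero.2 hxy)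
    rw [k, if_neg hxy, log_div (by norm_num) h0.ne', ENNReal.toReal_ofReal
      (sub_nonneg.2 (log_le_log h0 ((abs_sub x y).trans (by linarith)))), abs_sub_comm, log_abs]
    ring
  refine ⟨h2, ((integrable_const _).sub hf).congr e, ?_⟩
  rw [← integral_congr_ae e, integral_sub (integrable_const _) hf,
    integral_toReal (k_meas1 11 x).aemeasurable h1]
  rw [U] at h
  simp [h, ENNReal.toReal_ofReal hv]

lemma pot2 (g r : ℝ) (hg0 : 0 ≤ g) (hg : g ≤ 25) (hr : 1 ≤ r) (hr2 : r ≤ 2)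
    (h : g ^ 2 - 25 * g + 72 = -36 * (r + r⁻¹)) :
    (∀ᵐ y ∂(m (25 / 2)), y ^ 2 - g ≠ 0) ∧ Integrable (fun y => log (y ^ 2 - g)) (m (25 / 2)) ∧
      ∫ y, log (y ^ 2 - g) ∂(m (25 / 2)) = log (36 * r) / 2 := by
  have hv : 0 ≤ log 11 - log (36 * r) / 4 := by
    have : log (36 * r) ≤ log (11 ^ 4) := log_le_log (by positivity) (by linarith)
    rw [log_pow] at this
    push_cast at this
    linarith
  have key : ∀ x : ℝ, x ^ 2 = g → (∀ᵐ y ∂(m (25 / 2)), y - x ≠ 0) ∧
      Integrable (fun y => log (y - x)) (m (25 / 2)) ∧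
      ∫ y, log (y - x) ∂(m (25 / 2)) = log (36 * r) / 4 := by
    intro x hx
    have h5 : |x| ≤ 5 := abs_le.2 (abs_le_of_sq_le_sq' (by linarith) (by norm_num))
    have hn : ‖(-r : ℂ)‖ = r := by simp [abs_of_pos (show 0 < r by linarith)]
    refine pot x _ h5 hv ?_
    have := U_val x h5 (-r : ℂ) (by rwa [hn]) (by
      have : T x = -36 * (r + r⁻¹) := by
        rw [← h, ← hx, T]; ring
      rw [this]; push_cast; rw [inv_neg]; ring)
    rwa [hn] at this
  obtain ⟨a1, a2, a3⟩ := key √g (Real.sq_sqrt hg0)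
  obtain ⟨b1, b2, b3⟩ := key (-√g) (by rw [neg_sq, Real.sq_sqrt hg0])
  have e0 : ∀ y : ℝ, y ^ 2 - g = (y - √g) * (y - -√g) := by
    intro y
    have := Real.sq_sqrt hg0
    linear_combination this
  have e : (fun y => log (y - √g) + log (y - -√g)) =ᵐ[m (25 / 2)] fun y => log (y ^ 2 - g) := by
    filter_upwards [a1, b1] with y h1 h2
    rw [e0, log_mul h1 h2]
  refine ⟨?_, (a2.add b2).congr e, ?_⟩
  · filter_upwards [a1, b1] with y h1 h2
    rw [e0]; exact mul_ne_zero h1 h2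
  · rw [← integral_congr_ae e, integral_add a2 b2, a3, b3]; ring

lemma szego_val :
    Integrable (fun y => log ((m 15).rnDeriv (m (25 / 2)) y).toReal) (m (25 / 2)) ∧
      ∫ y, log ((m 15).rnDeriv (m (25 / 2)) y).toReal ∂(m (25 / 2)) = log (27 / 32) / 2 := by
  haveI := mass0
  obtain ⟨a1, a2, a3⟩ := pot2 15 (3 / 2) (by norm_num) (by norm_num) (by norm_num) (by norm_num)
    (by norm_num)
  obtain ⟨b1, b2, b3⟩ := pot2 (25 / 2) (16 / 9) (by norm_num) (by norm_num) (by norm_num)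
    (by norm_num) (by norm_num)
  have e : (fun y => log (y ^ 2 - 15) - log (y ^ 2 - 25 / 2)) =ᵐ[m (25 / 2)]
      fun y => log ((m 15).rnDeriv (m (25 / 2)) y).toReal := by
    have := Measure.rnDeriv_withDensity (m (25 / 2)) rat_meas
    rw [← m15] at this
    filter_upwards [this, a1, b1] with y h h1 h2
    rw [h, ENNReal.toReal_ofReal (by unfold rat; positivity), rat,
      log_div (abs_ne_zero.2 h1) (abs_ne_zero.2 h2), log_abs, log_abs]
  refine ⟨(a2.sub b2).congr e, ?_⟩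
  rw [← integral_congr_ae e, integral_sub a2 b2, a3, b3, ← sub_div,
    ← log_div (by norm_num) (by norm_num)]
  norm_num

lemma rn_pos : ∀ᵐ y ∂(m (25 / 2)), (m 15).rnDeriv (m (25 / 2)) y ≠ 0 := by
  haveI := mass0
  obtain ⟨a1, -, -⟩ := pot2 15 (3 / 2) (by norm_num) (by norm_num) (by norm_num) (by norm_num)
    (by norm_num)
  obtain ⟨b1, -, -⟩ := pot2 (25 / 2) (16 / 9) (by norm_num) (by norm_num) (by norm_num)
    (by norm_num) (by norm_num)
  have := Measure.rnDeriv_withDensity (m (25 / 2)) rat_meas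
  rw [← m15] at this
  filter_upwards [this, a1, b1] with y h h1 h2
  rw [h, ne_eq, ENNReal.ofReal_eq_zero, not_le]
  exact div_pos (abs_pos.2 h1) (abs_pos.2 h2)

end H18Widom
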